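import Pool.Agent.Lib.MP_b57e3c_ag_P.ExA

set_option autoImplicit false

/-!
# Module Ex : bounds for the terms, expansion of `ff`

Write `h_i = m_i + 1/2`. Hypothesis `Sm y0 τ`: `τ` is symmetric, `Im τ_ii ≥ y0 > 0`, `‖τ_ij‖ ≤ y0
/ (8 (g+1))`. `c_e = 2 π i τ_e h_{e.1} h_{e.2}`, `a_i = 2 π i h_i u_i`.
`∑_{e ∈ prs g} ‖c_e‖ ≤ 2 π (y0/(8(g+1))) ∑_{i<j} |h_i||h_j| ≤ (π y0/8) ∑ h_i²`, since
`|h_i||h_j| ≤ (h_i² + h_j²)/2` and every index is in `g - 1` pairs.

`trm_le`: `‖exp (π i τ_ii h_i² + π i h_i)‖ = exp (- π Im τ_ii h_i²) ≤ exp (-π y0 h_i²)`; `‖sinh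
z‖ ≤ ‖z‖ exp ‖z‖`, `‖cosh z‖ ≤ exp ‖z‖`. So `‖trm‖ ≤ exp (-π y0 ∑ h²) ∏_{e ∈ A} ‖c_e‖ ∏_{i even}
‖a_i‖ exp (∑_e ‖c_e‖ + ∑_i ‖a_i‖)`, `‖a_i‖ ≤ 2 π ρ |h_i|`, `∏_{e∈A} ‖c_e‖ = ∏_{e∈A} ‖τ_e‖ ∏_{e∈A}
2 π |h||h'|`, `2π|h||h'| ≤ 2π exp (|h| + |h'|)`, at most `g²` factors. All polynomial factors are
`≤ (2π)^(g² + g) exp ((2 g + 1) ∑ |h_i|)`. This gives the bound with `N = 2 g + 1 + 2 π ρ` and
`C = (2π)^(g²+g)` (or any other constants); they must not depend on `τ, A, u, m`.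

`summable_maj`: a product over `i` of summable functions of `m_i` (`AM.hasSum_tuple` with real
values, or `Summable` of a finite product: `summable_prod...`); in one variable `exp (-(π y0/2)
h² + N|h|)` is summable (compare with `exp (-|h|)` for large `|h|`, or with
`summable_jacobiTheta₂_term_iff`).

`ff_expand`. With `w_m = ∏_i exp (π i τ_ii h_i² + π i h_i)`, the term of `ff` is
`w_m ∏_i exp (a_i) ∏_{e ∈ prs g} exp (c_e)` (`AM.sum_sym`). Since `exp c = sinh c + cosh c`,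
`Finset.prod_add`: `∏_{e ∈ prs} exp c_e = ∑_{A ⊆ prs} ∏_{e∈A} sinh c_e ∏_{e ∈ prs \ A} cosh c_e`.
Fix `A`, let `G(m) = w_m ∏_{A} sinh ∏_{prs \ A} cosh`. For the involution `φ_i` of `ℤ^g` (`m_i ↦
-1 - m_i`, the others fixed) `h_i ↦ -h_i`, `G(φ_i m) = - (-1)^(dg A i) G(m)` (`exp (-π i h) = -
exp (π i h)`; `sinh` odd, `cosh` even; the pairs containing `i`). CLAIM: for every `J ⊆ univ`,
`∑_m G(m) ∏_{i∈J} z_i ∏_{i∉J} exp a_i` does not depend on `J`, where `z_i = sinh a_i` if `dg A i`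
is even and `cosh a_i` otherwise. Induction: `exp a_i = z_i + z'_i`, the sum with `z'_i` is
antisymmetric under `φ_i` (`Equiv.tsum_eq`), so it is `0`; all sums converge absolutely by the
bounds above. For `J = univ` this is `FA τ A u`. Finally `tsum` of a finite sum.
-/

open Complex Filter Topology

namespace AMP

variable {g : ℕ}

/-- the general term with one-variable factors `ζ i` -/
private noncomputable def exB_T (τ : Matrix (Fin g) (Fin g) ℂ) (A : Finset (Fin g × Fin g))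
    (u : Fin g → ℂ) (ζ : Fin g → ℂ → ℂ) (m : Fin g → ℤ) : ℂ :=
  (∏ i, cexp (Real.pi * I * τ i i * ((m i : ℂ) + 1 / 2) ^ 2 + Real.pi * I * ((m i : ℂ) + 1 / 2))) *
  (∏ e ∈ A, Complex.sinh (2 * Real.pi * I * τ e.1 e.2 * ((m e.1 : ℂ) + 1 / 2) *
    ((m e.2 : ℂ) + 1 / 2))) *
  (∏ e ∈ prs g \ A, Complex.cosh (2 * Real.pi * I * τ e.1 e.2 * ((m e.1 : ℂ) + 1 / 2) *
    ((m e.2 : ℂ) + 1 / 2))) *
  ∏ i, ζ i (2 * Real.pi * I * ((m i : ℂ) + 1 / 2) * u i)

private theorem exB_sinh (z : ℂ) : ‖Complex.sinh z‖ ≤ Real.exp ‖z‖ := by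
  rw [Complex.sinh, norm_div, Complex.norm_ofNat]
  have h1 := Complex.norm_exp_le_exp_norm z
  have h2 := Complex.norm_exp_le_exp_norm (-z)
  rw [norm_neg] at h2
  have h3 := norm_sub_le (cexp z) (cexp (-z))
  linarith

private theorem exB_cosh (z : ℂ) : ‖Complex.cosh z‖ ≤ Real.exp ‖z‖ := by
  rw [Complex.cosh, norm_div, Complex.norm_ofNat]
  have h1 := Complex.norm_exp_le_exp_norm z
  have h2 := Complex.norm_exp_le_exp_norm (-z)
  rw [norm_neg] at h2
  have h3 := norm_add_le (cexp z) (cexp (-z))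
  linarith

private theorem exB_nh (k : ℤ) : ‖((k : ℂ) + 1 / 2)‖ = |(k : ℝ) + 1 / 2| := by
  have : ((k : ℂ) + 1 / 2) = (((k : ℝ) + 1 / 2 : ℝ) : ℂ) := by push_cast; ring
  rw [this, Complex.norm_real, Real.norm_eq_abs]

private theorem exB_gauss (t : ℂ) (k : ℤ) :
    ‖cexp (Real.pi * I * t * ((k : ℂ) + 1 / 2) ^ 2 + Real.pi * I * ((k : ℂ) + 1 / 2))‖ =
      Real.exp (-(Real.pi * t.im) * ((k : ℝ) + 1 / 2) ^ 2) := by
  rw [Complex.norm_exp]
  congr 1
  have : ((k : ℂ) + 1 / 2) = (((k : ℝ) + 1 / 2 : ℝ) : ℂ) := by push_cast; ring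
  rw [this]
  have h2 : (Real.pi * I * t * (((k : ℝ) + 1 / 2 : ℝ) : ℂ) ^ 2 +
      Real.pi * I * (((k : ℝ) + 1 / 2 : ℝ) : ℂ)) =
      ((Real.pi * ((k : ℝ) + 1 / 2) ^ 2 : ℝ) : ℂ) * (I * t) +
      ((Real.pi * ((k : ℝ) + 1 / 2) : ℝ) : ℂ) * I := by
    push_cast; ring
  rw [h2, Complex.add_re, Complex.re_ofReal_mul, Complex.re_ofReal_mul]
  simp
  ring

private theorem exB_bd {y0 : ℝ} (hy : 0 < y0) {τ : Matrix (Fin g) (Fin g) ℂ} (hτ : Sm y0 τ)
    {A : Finset (Fin g × Fin g)} (hA : A ⊆ prs g) (u : Fin g → ℂ) {ρ : ℝ}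
    (hu : ∀ i, ‖u i‖ ≤ ρ) {ζ : Fin g → ℂ → ℂ} (hζ : ∀ i z, ‖ζ i z‖ ≤ Real.exp ‖z‖)
    (m : Fin g → ℤ) : ‖exB_T τ A u ζ m‖ ≤ maj y0 (2 * Real.pi * ρ) m := by
  obtain ⟨hs, hd, ho⟩ := hτ
  have hpi := Real.pi_pos
  set h : Fin g → ℝ := fun i => (m i : ℝ) + 1 / 2 with hh
  set c : Fin g × Fin g → ℂ := fun e => 2 * Real.pi * I * τ e.1 e.2 * ((m e.1 : ℂ) + 1 / 2) *
    ((m e.2 : ℂ) + 1 / 2) with hc
  have hcn : ∀ e, ‖c e‖ = 2 * Real.pi * ‖τ e.1 e.2‖ * |h e.1| * |h e.2| := by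
    intro e
    rw [hc]
    simp only [norm_mul, exB_nh, Complex.norm_I, Complex.norm_real, Real.norm_eq_abs,
      abs_of_pos hpi, mul_one, Complex.norm_ofNat, hh]
  -- the first product
  have e1 : ‖∏ i, cexp (Real.pi * I * τ i i * ((m i : ℂ) + 1 / 2) ^ 2 +
      Real.pi * I * ((m i : ℂ) + 1 / 2))‖ ≤ Real.exp (-(Real.pi * y0) * ∑ i, h i ^ 2) := by
    rw [norm_prod, Finset.mul_sum, Real.exp_sum]
    refine Finset.prod_le_prod (fun i _ => norm_nonneg _) fun i _ => ?_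
    rw [exB_gauss]
    apply Real.exp_le_exp.2
    have h1 := hd i
    have h2 : 0 ≤ h i ^ 2 := sq_nonneg _
    have h3 : 0 ≤ Real.pi * ((τ i i).im - y0) * h i ^ 2 :=
      mul_nonneg (mul_nonneg hpi.le (by linarith)) h2
    have h4 : h i = (m i : ℝ) + 1 / 2 := rfl
    rw [h4] at h3 ⊢
    linarith
  -- the products over the pairs
  have e2 : ‖∏ e ∈ A, Complex.sinh (c e)‖ ≤ Real.exp (∑ e ∈ A, ‖c e‖) := by
    rw [norm_prod, Real.exp_sum]
    exact Finset.prod_le_prod (fun i _ => norm_nonneg _) fun e _ => exB_sinh _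
  have e3 : ‖∏ e ∈ prs g \ A, Complex.cosh (c e)‖ ≤ Real.exp (∑ e ∈ prs g \ A, ‖c e‖) := by
    rw [norm_prod, Real.exp_sum]
    exact Finset.prod_le_prod (fun i _ => norm_nonneg _) fun e _ => exB_cosh _
  have e4 : ‖∏ i, ζ i (2 * Real.pi * I * ((m i : ℂ) + 1 / 2) * u i)‖ ≤
      Real.exp (2 * Real.pi * ρ * ∑ i, |h i|) := by
    rw [norm_prod, Finset.mul_sum, Real.exp_sum]
    refine Finset.prod_le_prod (fun i _ => norm_nonneg _) fun i _ => (hζ i _).trans ?_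
    apply Real.exp_le_exp.2
    simp only [norm_mul, exB_nh, Complex.norm_I, Complex.norm_real, Real.norm_eq_abs,
      abs_of_pos hpi, mul_one, Complex.norm_ofNat]
    have h1 := mul_le_mul_of_nonneg_left (hu i) (mul_nonneg (mul_nonneg zero_le_two hpi.le)
      (abs_nonneg (h i)))
    calc 2 * Real.pi * |(m i : ℝ) + 1 / 2| * ‖u i‖ ≤ 2 * Real.pi * |h i| * ρ := h1
      _ = 2 * Real.pi * ρ * |h i| := by ring
  -- the sum of the norms of the `c e`
  have e5 : ∑ e ∈ A, ‖c e‖ + ∑ e ∈ prs g \ A, ‖c e‖ ≤ Real.pi * y0 / 4 * ∑ i, h i ^ 2 := by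
    rw [add_comm, Finset.sum_sdiff hA]
    have hg : (0 : ℝ) < 8 * ((g : ℝ) + 1) := by positivity
    have s1 : ∀ e ∈ prs g, ‖c e‖ ≤
        Real.pi * (y0 / (8 * ((g : ℝ) + 1))) * (h e.1 ^ 2 + h e.2 ^ 2) := by
      intro e he
      have hne : e.1 ≠ e.2 := by
        simp only [prs, Finset.mem_filter, Finset.mem_univ, true_and] at he
        exact he.ne
      rw [hcn]
      have h1 := ho e.1 e.2 hne
      have h2 : 2 * (|h e.1| * |h e.2|) ≤ h e.1 ^ 2 + h e.2 ^ 2 := by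
        have := two_mul_le_add_sq (|h e.1|) (|h e.2|)
        rw [sq_abs, sq_abs] at this
        linarith
      have h3 : 0 ≤ |h e.1| * |h e.2| := by positivity
      calc 2 * Real.pi * ‖τ e.1 e.2‖ * |h e.1| * |h e.2|
          = ‖τ e.1 e.2‖ * (Real.pi * (2 * (|h e.1| * |h e.2|))) := by ring
        _ ≤ y0 / (8 * ((g : ℝ) + 1)) * (Real.pi * (2 * (|h e.1| * |h e.2|))) :=
            mul_le_mul_of_nonneg_right h1 (by positivity)
        _ ≤ y0 / (8 * ((g : ℝ) + 1)) * (Real.pi * (h e.1 ^ 2 + h e.2 ^ 2)) :=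
            mul_le_mul_of_nonneg_left (mul_le_mul_of_nonneg_left h2 hpi.le) (by positivity)
        _ = _ := by ring
    refine (Finset.sum_le_sum s1).trans ?_
    rw [← Finset.mul_sum]
    have s2 : ∑ e ∈ prs g, (h e.1 ^ 2 + h e.2 ^ 2) ≤
        ∑ e : Fin g × Fin g, (h e.1 ^ 2 + h e.2 ^ 2) :=
      Finset.sum_le_univ_sum_of_nonneg fun e => by positivity
    have s3 : ∑ e : Fin g × Fin g, (h e.1 ^ 2 + h e.2 ^ 2) = 2 * g * ∑ i, h i ^ 2 := by
      rw [Fintype.sum_prod_type]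
      simp only [Finset.sum_add_distrib, Finset.sum_const, Finset.card_univ, Fintype.card_fin,
        nsmul_eq_mul]
      rw [← Finset.mul_sum]
      ring
    rw [s3] at s2
    have hS : 0 ≤ ∑ i, h i ^ 2 := Finset.sum_nonneg fun i _ => sq_nonneg _
    refine (mul_le_mul_of_nonneg_left s2 (by positivity)).trans ?_
    have h5 : Real.pi * (y0 / (8 * ((g : ℝ) + 1))) * (2 * g * ∑ i, h i ^ 2) =
        Real.pi * y0 / 4 * (∑ i, h i ^ 2) * (g / ((g : ℝ) + 1)) := by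
      field_simp
      ring
    rw [h5]
    have h6 : (g : ℝ) / ((g : ℝ) + 1) ≤ 1 := by
      rw [div_le_one (by positivity)]
      linarith
    calc Real.pi * y0 / 4 * (∑ i, h i ^ 2) * (g / ((g : ℝ) + 1))
        ≤ Real.pi * y0 / 4 * (∑ i, h i ^ 2) * 1 :=
          mul_le_mul_of_nonneg_left h6 (by positivity)
      _ = _ := by ring
  -- together
  have e6 : ‖exB_T τ A u ζ m‖ ≤ Real.exp (-(Real.pi * y0) * ∑ i, h i ^ 2) *
      Real.exp (∑ e ∈ A, ‖c e‖) * Real.exp (∑ e ∈ prs g \ A, ‖c e‖) *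
      Real.exp (2 * Real.pi * ρ * ∑ i, |h i|) := by
    unfold exB_T
    rw [norm_mul, norm_mul, norm_mul]
    gcongr
  refine e6.trans ?_
  rw [← Real.exp_add, ← Real.exp_add, ← Real.exp_add, maj]
  apply Real.exp_le_exp.2
  have hS : 0 ≤ ∑ i, h i ^ 2 := Finset.sum_nonneg fun i _ => sq_nonneg _
  have h7 : 0 ≤ Real.pi * y0 / 4 * ∑ i, h i ^ 2 := by positivity
  have h8 : ∑ i, ((m i : ℝ) + 1 / 2) ^ 2 = ∑ i, h i ^ 2 := rfl
  have h9 : ∑ i, |(m i : ℝ) + 1 / 2| = ∑ i, |h i| := rfl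
  rw [h8, h9]
  linarith

private theorem exB_sum {y0 : ℝ} (hy : 0 < y0) {τ : Matrix (Fin g) (Fin g) ℂ} (hτ : Sm y0 τ)
    {A : Finset (Fin g × Fin g)} (hA : A ⊆ prs g) (u : Fin g → ℂ)
    {ζ : Fin g → ℂ → ℂ} (hζ : ∀ i z, ‖ζ i z‖ ≤ Real.exp ‖z‖) :
    Summable (exB_T τ A u ζ) := by
  have hu : ∀ i, ‖u i‖ ≤ ∑ j, ‖u j‖ := fun i =>
    Finset.single_le_sum (f := fun j => ‖u j‖) (fun j _ => norm_nonneg _) (Finset.mem_univ i)
  exact Summable.of_norm_bounded (summable_maj hy _) fun m => exB_bd hy hτ hA u hu hζ m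

/-- the involution `m_i ↦ -1 - m_i` -/
private def exB_fl (i : Fin g) : (Fin g → ℤ) ≃ (Fin g → ℤ) where
  toFun m := Function.update m i (-1 - m i)
  invFun m := Function.update m i (-1 - m i)
  left_inv m := by simp
  right_inv m := by simp

private theorem exB_half (k : ℤ) : (((-1 - k : ℤ) : ℂ) + 1 / 2) = -((k : ℂ) + 1 / 2) := by
  push_cast; ring

private theorem exB_pi (k : ℤ) (z : ℂ) :
    cexp (z + Real.pi * I * (-((k : ℂ) + 1 / 2))) =
      -cexp (z + Real.pi * I * ((k : ℂ) + 1 / 2)) := by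
  have h1 : z + Real.pi * I * ((k : ℂ) + 1 / 2) =
      (z + Real.pi * I * (-((k : ℂ) + 1 / 2))) + (Real.pi * I + k * (2 * Real.pi * I)) := by
    ring
  rw [h1, Complex.exp_add _ (Real.pi * I + k * (2 * Real.pi * I)), Complex.exp_add (Real.pi * I),
    Complex.exp_pi_mul_I, Complex.exp_int_mul_two_pi_mul_I]
  ring

private theorem exB_flip (τ : Matrix (Fin g) (Fin g) ℂ) {A : Finset (Fin g × Fin g)}
    (hA : A ⊆ prs g) (u : Fin g → ℂ) (ζ : Fin g → ℂ → ℂ) (i : Fin g) (ε : ℂ)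
    (hζ : ∀ z, ζ i (-z) = ε * ζ i z) (m : Fin g → ℤ) :
    exB_T τ A u ζ (exB_fl i m) = -1 * (-1) ^ dg A i * ε * exB_T τ A u ζ m := by
  have hm : ∀ j, ((exB_fl i m j : ℤ) : ℂ) + 1 / 2 =
      (if j = i then -1 else 1) * ((m j : ℂ) + 1 / 2) := by
    intro j
    by_cases hj : j = i
    · subst hj
      simp only [exB_fl, Equiv.coe_fn_mk, Function.update_self, if_true]
      rw [exB_half]; ring
    · simp [exB_fl, hj]
  have hne : ∀ e ∈ prs g, e.1 ≠ e.2 := by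
    intro e he
    simp only [prs, Finset.mem_filter, Finset.mem_univ, true_and] at he
    exact he.ne
  have hce : ∀ e ∈ prs g, (2 * Real.pi * I * τ e.1 e.2 * (((exB_fl i m e.1 : ℤ) : ℂ) + 1 / 2) *
      (((exB_fl i m e.2 : ℤ) : ℂ) + 1 / 2)) = (if e.1 = i ∨ e.2 = i then -1 else 1) *
      (2 * Real.pi * I * τ e.1 e.2 * ((m e.1 : ℂ) + 1 / 2) * ((m e.2 : ℂ) + 1 / 2)) := by
    intro e he
    have h1 := hne e he
    rw [hm, hm]
    by_cases h2 : e.1 = i
    · have h3 : e.2 ≠ i := fun h => h1 (h2.trans h.symm)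
      simp only [h2, h3, if_true, if_false, true_or]
      ring
    · by_cases h3 : e.2 = i
      · simp only [h2, h3, if_true, if_false, or_true]
        ring
      · simp only [h2, h3, if_false, or_self]
        ring
  unfold exB_T
  have p1 : (∏ j, cexp (Real.pi * I * τ j j * (((exB_fl i m j : ℤ) : ℂ) + 1 / 2) ^ 2 +
      Real.pi * I * (((exB_fl i m j : ℤ) : ℂ) + 1 / 2))) = -1 *
      ∏ j, cexp (Real.pi * I * τ j j * ((m j : ℂ) + 1 / 2) ^ 2 +
      Real.pi * I * ((m j : ℂ) + 1 / 2)) := by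
    have : (-1 : ℂ) = ∏ j : Fin g, if j = i then (-1 : ℂ) else 1 := by simp
    rw [this, ← Finset.prod_mul_distrib]
    refine Finset.prod_congr rfl fun j _ => ?_
    rw [hm]
    by_cases hj : j = i
    · rw [if_pos hj, neg_one_mul, neg_sq, exB_pi, neg_one_mul]
    · rw [if_neg hj, one_mul, one_mul]
  have p2 : (∏ e ∈ A, Complex.sinh (2 * Real.pi * I * τ e.1 e.2 *
      (((exB_fl i m e.1 : ℤ) : ℂ) + 1 / 2) * (((exB_fl i m e.2 : ℤ) : ℂ) + 1 / 2))) =
      (-1) ^ dg A i * ∏ e ∈ A, Complex.sinh (2 * Real.pi * I * τ e.1 e.2 *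
      ((m e.1 : ℂ) + 1 / 2) * ((m e.2 : ℂ) + 1 / 2)) := by
    have : ((-1) ^ dg A i : ℂ) = ∏ e ∈ A, if e.1 = i ∨ e.2 = i then (-1 : ℂ) else 1 := by
      rw [Finset.prod_ite, Finset.prod_const, Finset.prod_const_one, mul_one, dg]
    rw [this, ← Finset.prod_mul_distrib]
    refine Finset.prod_congr rfl fun e he => ?_
    rw [hce e (hA he)]
    split_ifs
    · rw [neg_one_mul, Complex.sinh_neg, neg_one_mul]
    · rw [one_mul, one_mul]
  have p3 : (∏ e ∈ prs g \ A, Complex.cosh (2 * Real.pi * I * τ e.1 e.2 *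
      (((exB_fl i m e.1 : ℤ) : ℂ) + 1 / 2) * (((exB_fl i m e.2 : ℤ) : ℂ) + 1 / 2))) =
      ∏ e ∈ prs g \ A, Complex.cosh (2 * Real.pi * I * τ e.1 e.2 *
      ((m e.1 : ℂ) + 1 / 2) * ((m e.2 : ℂ) + 1 / 2)) := by
    refine Finset.prod_congr rfl fun e he => ?_
    rw [hce e (Finset.mem_sdiff.1 he).1]
    split_ifs
    · rw [neg_one_mul, Complex.cosh_neg]
    · rw [one_mul]
  have p4 : (∏ j, ζ j (2 * Real.pi * I * (((exB_fl i m j : ℤ) : ℂ) + 1 / 2) * u j)) =
      ε * ∏ j, ζ j (2 * Real.pi * I * ((m j : ℂ) + 1 / 2) * u j) := by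
    have : ε = ∏ j : Fin g, if j = i then ε else 1 := by simp
    rw [this, ← Finset.prod_mul_distrib]
    refine Finset.prod_congr rfl fun j _ => ?_
    rw [hm]
    by_cases hj : j = i
    · subst hj
      rw [if_pos rfl, if_pos rfl, ← hζ]
      congr 1
      ring
    · rw [if_neg hj, if_neg hj, one_mul, one_mul]
  rw [p1, p2, p3, p4]
  ring

private theorem exB_zero (τ : Matrix (Fin g) (Fin g) ℂ) {A : Finset (Fin g × Fin g)}
    (hA : A ⊆ prs g) (u : Fin g → ℂ) (ζ : Fin g → ℂ → ℂ) (i : Fin g)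
    (hζ : ζ i = if Even (dg A i) then Complex.cosh else Complex.sinh) :
    ∑' m, exB_T τ A u ζ m = 0 := by
  have key : ∀ m, exB_T τ A u ζ (exB_fl i m) = -exB_T τ A u ζ m := by
    intro m
    by_cases hd : Even (dg A i)
    · rw [if_pos hd] at hζ
      rw [exB_flip τ hA u ζ i 1 (by intro z; rw [hζ, Complex.cosh_neg, one_mul]) m,
        hd.neg_one_pow]
      ring
    · rw [if_neg hd] at hζ
      rw [exB_flip τ hA u ζ i (-1) (by intro z; rw [hζ, Complex.sinh_neg, neg_one_mul]) m,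
        (Nat.not_even_iff_odd.1 hd).neg_one_pow]
      ring
  have h1 := Equiv.tsum_eq (exB_fl i) (exB_T τ A u ζ)
  simp only [key] at h1
  rw [tsum_neg] at h1
  exact CharZero.eq_neg_self_iff.1 h1.symm

private theorem exB_lin (τ : Matrix (Fin g) (Fin g) ℂ) (A : Finset (Fin g × Fin g))
    (u : Fin g → ℂ) (ζ : Fin g → ℂ → ℂ) (i : Fin g) (ζ1 ζ2 : ℂ → ℂ)
    (h : ∀ z, ζ i z = ζ1 z + ζ2 z) (m : Fin g → ℤ) :
    exB_T τ A u ζ m = exB_T τ A u (Function.update ζ i ζ1) m +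
      exB_T τ A u (Function.update ζ i ζ2) m := by
  unfold exB_T
  rw [← mul_add]
  congr 1
  rw [← Finset.mul_prod_erase Finset.univ _ (Finset.mem_univ i),
    ← Finset.mul_prod_erase Finset.univ
      (fun j => Function.update ζ i ζ1 j (2 * Real.pi * I * ((m j : ℂ) + 1 / 2) * u j))
      (Finset.mem_univ i),
    ← Finset.mul_prod_erase Finset.univ
      (fun j => Function.update ζ i ζ2 j (2 * Real.pi * I * ((m j : ℂ) + 1 / 2) * u j))
      (Finset.mem_univ i)]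
  have h1 : ∀ ξ : ℂ → ℂ, ∏ j ∈ Finset.univ.erase i,
      Function.update ζ i ξ j (2 * Real.pi * I * ((m j : ℂ) + 1 / 2) * u j) =
      ∏ j ∈ Finset.univ.erase i, ζ j (2 * Real.pi * I * ((m j : ℂ) + 1 / 2) * u j) := by
    intro ξ
    refine Finset.prod_congr rfl fun j hj => ?_
    rw [Function.update_of_ne (Finset.ne_of_mem_erase hj)]
  simp only [h1, Function.update_self, h]
  ring

private theorem exB_J {y0 : ℝ} (hy : 0 < y0) {τ : Matrix (Fin g) (Fin g) ℂ} (hτ : Sm y0 τ)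
    {A : Finset (Fin g × Fin g)} (hA : A ⊆ prs g) (u : Fin g → ℂ) (J : Finset (Fin g)) :
    ∑' m, exB_T τ A u (fun i => if i ∈ J then
      (if Even (dg A i) then Complex.sinh else Complex.cosh) else cexp) m =
      ∑' m, exB_T τ A u (fun _ => cexp) m := by
  have hb : ∀ (i : Fin g) (z : ℂ),
      ‖(if Even (dg A i) then Complex.sinh else Complex.cosh) z‖ ≤ Real.exp ‖z‖ := by
    intro i z
    split_ifs
    · exact exB_sinh z
    · exact exB_cosh z
  have hb' : ∀ (i : Fin g) (z : ℂ),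
      ‖(if Even (dg A i) then Complex.cosh else Complex.sinh) z‖ ≤ Real.exp ‖z‖ := by
    intro i z
    split_ifs
    · exact exB_cosh z
    · exact exB_sinh z
  induction J using Finset.induction_on with
  | empty => simp
  | insert i J hi ih =>
    rw [← ih]
    set ζ : Fin g → ℂ → ℂ := fun i => if i ∈ J then
      (if Even (dg A i) then Complex.sinh else Complex.cosh) else cexp with hζ
    have hζb : ∀ j z, ‖ζ j z‖ ≤ Real.exp ‖z‖ := by
      intro j z
      rw [hζ]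
      by_cases hj : j ∈ J
      · simp only [hj, if_true]
        exact hb j z
      · simp only [hj, if_false]
        exact Complex.norm_exp_le_exp_norm z
    have h1 : (fun j => if j ∈ insert i J then
        (if Even (dg A j) then Complex.sinh else Complex.cosh) else cexp) =
        Function.update ζ i (if Even (dg A i) then Complex.sinh else Complex.cosh) := by
      funext j
      by_cases hj : j = i
      · subst hj
        simp
      · rw [Function.update_of_ne hj, hζ]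
        simp [Finset.mem_insert, hj]
    rw [h1]
    have h2 : ∀ m, exB_T τ A u ζ m =
        exB_T τ A u (Function.update ζ i (if Even (dg A i) then Complex.sinh
          else Complex.cosh)) m +
        exB_T τ A u (Function.update ζ i (if Even (dg A i) then Complex.cosh
          else Complex.sinh)) m := by
      intro m
      apply exB_lin
      intro z
      have h3 : ζ i = cexp := by simp [hζ, hi]
      rw [h3]
      split_ifs
      · rw [add_comm, Complex.cosh_add_sinh]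
      · rw [Complex.cosh_add_sinh]
    have hs1 : Summable (exB_T τ A u (Function.update ζ i (if Even (dg A i) then Complex.sinh
          else Complex.cosh))) := by
      apply exB_sum hy hτ hA
      intro j z
      by_cases hj : j = i
      · subst hj
        rw [Function.update_self]
        exact hb j z
      · rw [Function.update_of_ne hj]
        exact hζb j z
    have hs2 : Summable (exB_T τ A u (Function.update ζ i (if Even (dg A i) then Complex.cosh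
          else Complex.sinh))) := by
      apply exB_sum hy hτ hA
      intro j z
      by_cases hj : j = i
      · subst hj
        rw [Function.update_self]
        exact hb' j z
      · rw [Function.update_of_ne hj]
        exact hζb j z
    have hz := exB_zero τ hA u (Function.update ζ i (if Even (dg A i) then Complex.cosh
      else Complex.sinh)) i (by rw [Function.update_self])
    rw [tsum_congr h2, hs1.tsum_add hs2, hz, add_zero]

theorem ff_expand {y0 : ℝ} (hy : 0 < y0) {τ : Matrix (Fin g) (Fin g) ℂ} (hτ : Sm y0 τ)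
    (u : Fin g → ℂ) : ff τ u = ∑ A ∈ (prs g).powerset, FA τ A u := by
  have h1 : ∀ A ∈ (prs g).powerset, FA τ A u = ∑' m, exB_T τ A u (fun _ => cexp) m := by
    intro A hA
    rw [← exB_J hy hτ (Finset.mem_powerset.1 hA) u Finset.univ, FA]
    refine tsum_congr fun m => ?_
    unfold trm exB_T
    congr 1
    refine Finset.prod_congr rfl fun i _ => ?_
    simp only [Finset.mem_univ, if_true]
    split_ifs <;> rfl
  rw [Finset.sum_congr rfl h1, ← Summable.tsum_finsetSum fun A hA =>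
    exB_sum hy hτ (Finset.mem_powerset.1 hA) u fun _ z => Complex.norm_exp_le_exp_norm z, ff]
  refine tsum_congr fun m => ?_
  -- the term of `ff`
  have hsym : ∀ i j, ((m i : ℂ) + 1 / 2) * τ i j * ((m j : ℂ) + 1 / 2) =
      ((m j : ℂ) + 1 / 2) * τ j i * ((m i : ℂ) + 1 / 2) := by
    intro i j
    rw [hτ.1 i j]
    ring
  rw [AM.sum_sym (fun i j => ((m i : ℂ) + 1 / 2) * τ i j * ((m j : ℂ) + 1 / 2)) hsym]
  have hpr : (∑ i, ∑ j, if i < j then 2 * (((m i : ℂ) + 1 / 2) * τ i j * ((m j : ℂ) + 1 / 2))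
      else 0) = ∑ e ∈ prs g, 2 * (((m e.1 : ℂ) + 1 / 2) * τ e.1 e.2 * ((m e.2 : ℂ) + 1 / 2)) := by
    rw [prs, Finset.sum_filter, Fintype.sum_prod_type]
  rw [hpr]
  have hexp : (Real.pi * I * (∑ i, ((m i : ℂ) + 1 / 2) * τ i i * ((m i : ℂ) + 1 / 2) +
      ∑ e ∈ prs g, 2 * (((m e.1 : ℂ) + 1 / 2) * τ e.1 e.2 * ((m e.2 : ℂ) + 1 / 2))) +
      2 * Real.pi * I * ∑ i, ((m i : ℂ) + 1 / 2) * (u i + 1 / 2)) =
      (∑ i, (Real.pi * I * τ i i * ((m i : ℂ) + 1 / 2) ^ 2 + Real.pi * I * ((m i : ℂ) + 1 / 2))) +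
      (∑ e ∈ prs g, 2 * Real.pi * I * τ e.1 e.2 * ((m e.1 : ℂ) + 1 / 2) *
        ((m e.2 : ℂ) + 1 / 2)) + ∑ i, 2 * Real.pi * I * ((m i : ℂ) + 1 / 2) * u i := by
    rw [mul_add, Finset.mul_sum, Finset.mul_sum, Finset.mul_sum]
    have e1 : ∑ e ∈ prs g, (Real.pi : ℂ) * I * (2 * (((m e.1 : ℂ) + 1 / 2) * τ e.1 e.2 *
        ((m e.2 : ℂ) + 1 / 2))) = ∑ e ∈ prs g, 2 * Real.pi * I * τ e.1 e.2 *
        ((m e.1 : ℂ) + 1 / 2) * ((m e.2 : ℂ) + 1 / 2) :=
      Finset.sum_congr rfl fun e _ => by ring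
    rw [e1]
    have e2 : ∑ i, (Real.pi : ℂ) * I * (((m i : ℂ) + 1 / 2) * τ i i * ((m i : ℂ) + 1 / 2)) +
        ∑ i, 2 * Real.pi * I * (((m i : ℂ) + 1 / 2) * (u i + 1 / 2)) =
        ∑ i, (Real.pi * I * τ i i * ((m i : ℂ) + 1 / 2) ^ 2 +
          Real.pi * I * ((m i : ℂ) + 1 / 2)) +
        ∑ i, 2 * Real.pi * I * ((m i : ℂ) + 1 / 2) * u i := by
      rw [← Finset.sum_add_distrib, ← Finset.sum_add_distrib]
      exact Finset.sum_congr rfl fun i _ => by ring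
    linear_combination e2
  rw [hexp, Complex.exp_add, Complex.exp_add, Complex.exp_sum, Complex.exp_sum, Complex.exp_sum]
  have hadd : ∏ e ∈ prs g, cexp (2 * Real.pi * I * τ e.1 e.2 * ((m e.1 : ℂ) + 1 / 2) *
        ((m e.2 : ℂ) + 1 / 2)) = ∑ A ∈ (prs g).powerset,
        (∏ e ∈ A, Complex.sinh (2 * Real.pi * I * τ e.1 e.2 * ((m e.1 : ℂ) + 1 / 2) *
          ((m e.2 : ℂ) + 1 / 2))) *
        (∏ e ∈ prs g \ A, Complex.cosh (2 * Real.pi * I * τ e.1 e.2 * ((m e.1 : ℂ) + 1 / 2) *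
          ((m e.2 : ℂ) + 1 / 2))) := by
    rw [← Finset.prod_add]
    refine Finset.prod_congr rfl fun e _ => ?_
    exact (Complex.sinh_add_cosh _).symm
  rw [hadd, Finset.mul_sum, Finset.sum_mul]
  refine Finset.sum_congr rfl fun A _ => ?_
  unfold exB_T
  ring

end AMP
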