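import Pool.Agent.Lib.MP_b57e3c_ag_P.VzA

set_option autoImplicit false

/-!
# Module Vz : the odd elliptic theta function and its zeros

`vt_eq`: complete the square, `(m+1/2)² s/2 + (m+1/2)(u+1/2) = m² s/2 + m (u + (1+s)/2) + s/8 +
(u+1/2)/2` (times `2 π i`). Differentiability and the convergence follow from `jacobiTheta₂`
(`differentiableAt_jacobiTheta₂_fst`, `summable_jacobiTheta₂_term_iff`).
`vt_odd`: `m ↦ -1-m` changes `h = m + 1/2` to `-h`, and `exp (- π i h) = - exp (π i h)` for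
half-integers `h` (`exp (2 π i h) = -1`).

`vt_zero_iff`. `⇐`: `jt_zero` (`vt s 0 = 0`) and the quasi-periodicity of `jacobiTheta₂`
(`jacobiTheta₂_add_left`, `jacobiTheta₂_add_left'`). `⇒`: write `T = s`, `t = T/2`, `θ =
jacobiTheta₂ · T`, `ω = (1+T)/2`, `θ ω = 0`, and suppose `θ a = 0`. Put `d = a - ω`. By
`AM.addition` (at `t`), `θ(x+y) θ(x-y) = s0 x s0 y + s1 x s1 y`, where `s0 = AM.s0 t`, `s1 =
AM.s1 t` have no common zero (`AM.no_common`). For every `y` the vectors `(s0 x, s1 x)` for `x =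
ω + y` and for `x = a + y` are both orthogonal to `(s0 y, s1 y) ≠ 0` (since `x - y` is a zero of
`θ`), hence proportional: `s0(x) s1(x+d) = s1(x) s0(x+d)` for all `x`. So there is a function `λ`
without zeros with `(s0,s1)(x+d) = λ(x) (s0,s1)(x)`; it is entire (`λ = s0(x+d)/s0(x)` or
`s1(x+d)/s1(x)` locally). The functions `s0, s1` have the multipliers `1` for `x ↦ x+1` and `exp
(- 2 π i (T + 2 x))` for `x ↦ x+T` (from the definition of `s0`, `s1` by `jacobiTheta₂ (2 x) (4
t)`, `4 t = 2 T`). So `λ(x+1) = λ(x)`, `λ(x+T) = exp (- 4 π i d) λ(x)`. `λ'/λ` is entire and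
doubly periodic, hence bounded, hence constant `c` (Liouville,
`Differentiable.apply_eq_apply_of_bounded`), so `λ(x) = C exp (c x)`; `exp c = 1`, `c = 2 π i k`,
and `exp (2 π i k T) = exp (- 4 π i d)`: `2 d = m - k T` for integers `k, m`. So `a = ω + (m - k
T)/2`. If `m, k` are both even we are done: `a ∈ ω + ℤ + T ℤ`. Otherwise `a ≡ 0`, `1/2` or `T/2`
modulo `ℤ + T ℤ` (`m, k` odd; `m` even, `k` odd; `m` odd, `k` even) and `θ` vanishes at this
point `e` (quasi-periodicity); but `x ↦ exp (2 π i κ x) θ(e + x)` is even for `κ = 0, 0, 1/2`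
(`θ` is even, `jacobiTheta₂_neg_left`, and the quasi-periodicity), so its derivative at `0`
vanishes, hence `θ'(e) = 0` (as `θ(e) = 0`), contradicting `AM.simple_zero`.
`dv_ne`: `AM.simple_zero` at `ω` (`vt` is `θ(u + ω)` times a nonvanishing factor).
-/

open Complex Filter Topology

namespace AMP

open AM (s0 s1)

private theorem vzb_s0_one (t x : ℂ) : s0 t (x + 1) = s0 t x := by
  unfold AM.s0
  rw [show 2 * (x + 1) = 2 * x + 1 + 1 by ring, jacobiTheta₂_add_left, jacobiTheta₂_add_left]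

private theorem vzb_s1_one (t x : ℂ) : s1 t (x + 1) = s1 t x := by
  unfold AM.s1
  rw [show 2 * (x + 1) + 2 * t = 2 * x + 2 * t + 1 + 1 by ring, jacobiTheta₂_add_left,
    jacobiTheta₂_add_left, show Real.pi * I * t + 2 * Real.pi * I * (x + 1) =
      Real.pi * I * t + 2 * Real.pi * I * x + 2 * Real.pi * I by ring, Complex.exp_periodic]

private theorem vzb_s0_t (t x : ℂ) :
    s0 t (x + 2 * t) = cexp (-(4 * Real.pi * I * (t + x))) * s0 t x := by
  unfold AM.s0
  rw [show 2 * (x + 2 * t) = 2 * x + 4 * t by ring, jacobiTheta₂_add_left']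
  congr 2
  ring

private theorem vzb_s1_t (t x : ℂ) :
    s1 t (x + 2 * t) = cexp (-(4 * Real.pi * I * (t + x))) * s1 t x := by
  unfold AM.s1
  rw [show 2 * (x + 2 * t) + 2 * t = 2 * x + 2 * t + 4 * t by ring, jacobiTheta₂_add_left',
    ← mul_assoc, ← mul_assoc, ← Complex.exp_add, ← Complex.exp_add]
  congr 2
  ring

/-- A nonnegative continuous function with the periods `1` and `s` is bounded. -/
private theorem vzb_bdd {s : ℂ} (hs : 0 < s.im) {f : ℂ → ℝ} (hf : Continuous f)
    (h1 : Function.Periodic f 1) (h2 : Function.Periodic f s) : ∃ C, ∀ z, f z ≤ C := by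
  have hc : Continuous fun p : ℝ × ℝ => f ((p.1 : ℂ) + (p.2 : ℂ) * s) := by fun_prop
  obtain ⟨C, hC⟩ := ((isCompact_Icc.prod isCompact_Icc).image hc).bddAbove
  refine ⟨C, fun z => ?_⟩
  set y : ℝ := z.im / s.im with hy
  set x : ℝ := z.re - y * s.re with hx
  have hz : z = (x : ℂ) + (y : ℂ) * s := by
    apply Complex.ext
    · simp [hx]
    · simp [hy, hs.ne']
  have e1 : f z = f (((Int.fract x : ℝ) : ℂ) + ((Int.fract y : ℝ) : ℂ) * s) := by
    have h3 : f (z - ⌊y⌋ • s - ⌊x⌋ • (1 : ℂ)) = f z := by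
      rw [h1.sub_zsmul_eq, h2.sub_zsmul_eq]
    rw [← h3]
    congr 1
    rw [hz, Int.fract, Int.fract, zsmul_eq_mul, zsmul_eq_mul]
    push_cast
    ring
  rw [e1]
  refine hC ⟨(Int.fract x, Int.fract y), ⟨⟨Int.fract_nonneg _, (Int.fract_lt_one _).le⟩,
    ⟨Int.fract_nonneg _, (Int.fract_lt_one _).le⟩⟩, rfl⟩

/-- An entire function which is multiplied by constants under two independent translations is
an exponential. -/
private theorem vzb_exp {s : ℂ} (hs : 0 < s.im) {l : ℂ → ℂ} (hl : Differentiable ℂ l) {d : ℂ}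
    (h1 : ∀ x, l (x + 1) = l x)
    (h2 : ∀ x, l (x + s) = cexp (-(4 * Real.pi * I * d)) * l x) :
    ∃ α : ℝ, ∀ x, l x = l 0 * cexp (I * α * x) := by
  set α : ℝ := -(4 * Real.pi * d.im) / s.im with hα
  have hg : Differentiable ℂ fun x => l x * cexp (-(I * α * x)) := by fun_prop
  have p1 : Function.Periodic (fun x => ‖l x * cexp (-(I * α * x))‖) 1 := by
    intro x
    simp only [norm_mul, Complex.norm_exp, h1]
    congr 2
    simp
  have p2 : Function.Periodic (fun x => ‖l x * cexp (-(I * α * x))‖) s := by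
    intro x
    simp only [norm_mul, Complex.norm_exp, h2]
    have e1 : (-(4 * Real.pi * I * d)).re = 4 * Real.pi * d.im := by simp
    have e2 : (-(I * α * (x + s))).re = (-(I * α * x)).re + α * s.im := by
      simp
      ring
    have e3 : α * s.im = -(4 * Real.pi * d.im) := by
      rw [hα]
      field_simp
    rw [e1, e2, e3, Real.exp_add, Real.exp_neg]
    have : Real.exp (4 * Real.pi * d.im) ≠ 0 := (Real.exp_pos _).ne'
    field_simp
  obtain ⟨C, hC⟩ := vzb_bdd hs hg.continuous.norm p1 p2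
  have hb : Bornology.IsBounded (Set.range fun x => l x * cexp (-(I * α * x))) := by
    refine isBounded_iff_forall_norm_le.2 ⟨C, ?_⟩
    rintro _ ⟨x, rfl⟩
    exact hC x
  refine ⟨α, fun x => ?_⟩
  have h3 := hg.apply_eq_apply_of_bounded hb x 0
  simp only [mul_zero, neg_zero, Complex.exp_zero, mul_one] at h3
  rw [← h3, mul_assoc, ← Complex.exp_add, neg_add_cancel, Complex.exp_zero, mul_one]

/-- Two proportional families of vectors without zeros. -/
private theorem vzb_lam {a b c e : ℂ → ℂ} (ha : Differentiable ℂ a) (hb : Differentiable ℂ b)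
    (hc : Differentiable ℂ c) (he : Differentiable ℂ e) (hne : ∀ x, ¬ (a x = 0 ∧ b x = 0))
    (hp : ∀ x, a x * e x = b x * c x) :
    ∃ l : ℂ → ℂ, Differentiable ℂ l ∧ ∀ x, c x = l x * a x ∧ e x = l x * b x := by
  classical
  have key : ∀ x, c x = (if a x = 0 then e x / b x else c x / a x) * a x ∧
      e x = (if a x = 0 then e x / b x else c x / a x) * b x := by
    intro x
    by_cases h : a x = 0
    · have hb' : b x ≠ 0 := fun h' => hne x ⟨h, h'⟩
      have h1 := hp x
      rw [h, zero_mul] at h1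
      rw [if_pos h, h, mul_zero, div_mul_cancel₀ _ hb']
      exact ⟨(mul_eq_zero.1 h1.symm).resolve_left hb', rfl⟩
    · rw [if_neg h, div_mul_cancel₀ _ h]
      refine ⟨rfl, ?_⟩
      rw [div_mul_eq_mul_div, eq_div_iff h]
      linear_combination hp x
  refine ⟨fun x => if a x = 0 then e x / b x else c x / a x, fun x => ?_, key⟩
  by_cases h : a x = 0
  · have hb' : b x ≠ 0 := fun h' => hne x ⟨h, h'⟩
    have h1 : ∀ᶠ y in 𝓝 x, b y ≠ 0 := (hb x).continuousAt.eventually_ne hb'
    have h2 : (fun y => if a y = 0 then e y / b y else c y / a y) =ᶠ[𝓝 x] fun y => e y / b y := by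
      filter_upwards [h1] with y hy
      rw [eq_div_iff hy]
      exact (key y).2.symm
    exact ((he x).div (hb x) hb').congr_of_eventuallyEq h2
  · have h1 : ∀ᶠ y in 𝓝 x, a y ≠ 0 := (ha x).continuousAt.eventually_ne h
    have h2 : (fun y => if a y = 0 then e y / b y else c y / a y) =ᶠ[𝓝 x] fun y => c y / a y := by
      filter_upwards [h1] with y hy
      rw [if_neg hy]
    exact ((hc x).div (ha x) h).congr_of_eventuallyEq h2

/-- The zeros of the theta function of `t`, from a relation `θ (x + d) = A exp (2 π i k x) θ x`. -/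
private theorem vzb_rel {t : ℂ} (ht : 0 < t.im) {A d : ℂ} (hA : A ≠ 0) (k : ℤ)
    (h : ∀ x, jacobiTheta₂ (x + d) t = A * cexp (2 * Real.pi * I * k * x) * jacobiTheta₂ x t) :
    ∃ m : ℤ, d = m - k * t := by
  obtain ⟨x, hx⟩ := AM.jt_ne ht
  have h1 := h (x + t)
  rw [show x + t + d = x + d + t by ring, jacobiTheta₂_add_left', jacobiTheta₂_add_left', h x] at h1
  have h2 : cexp (-Real.pi * I * (t + 2 * (x + d)) + 2 * Real.pi * I * k * x) =
      cexp (2 * Real.pi * I * k * (x + t) + -Real.pi * I * (t + 2 * x)) := by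
    rw [Complex.exp_add, Complex.exp_add]
    have h3 : A * jacobiTheta₂ x t ≠ 0 := mul_ne_zero hA hx
    refine mul_right_cancel₀ h3 ?_
    linear_combination h1
  rw [Complex.exp_eq_exp_iff_exists_int] at h2
  obtain ⟨n, hn⟩ := h2
  refine ⟨-n, ?_⟩
  have hpi : (2 * Real.pi * I : ℂ) ≠ 0 := Complex.two_pi_I_ne_zero
  refine mul_left_cancel₀ hpi ?_
  push_cast
  linear_combination -hn

private theorem vzb_shift (s z : ℂ) (m n : ℤ) :
    jacobiTheta₂ (z + m + n * s) s = 0 ↔ jacobiTheta₂ z s = 0 := by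
  have h1 : ∀ (z : ℂ), jacobiTheta₂ (z + m) s = jacobiTheta₂ z s := by
    have hp : Function.Periodic (fun z => jacobiTheta₂ z s) 1 := fun z =>
      jacobiTheta₂_add_left z s
    intro z
    have := hp.int_mul m z
    simpa using this
  have h2 : ∀ (n : ℤ) (z : ℂ), jacobiTheta₂ (z + n * s) s = 0 ↔ jacobiTheta₂ z s = 0 := by
    have h3 : ∀ z : ℂ, jacobiTheta₂ (z + s) s = 0 ↔ jacobiTheta₂ z s = 0 := by
      intro z
      rw [jacobiTheta₂_add_left', mul_eq_zero]
      simp [Complex.exp_ne_zero]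
    intro n
    induction n using Int.induction_on with
    | zero => intro z; simp
    | succ i ih =>
      intro z
      rw [← ih z, ← h3 (z + (i : ℤ) * s),
        show z + (i : ℤ) * s + s = z + (((i : ℤ) + 1 : ℤ) : ℂ) * s by
          push_cast
          ring]
    | pred i ih =>
      intro z
      rw [← ih z, ← h3 (z + ((-(i : ℤ) - 1 : ℤ) : ℂ) * s),
        show z + ((-(i : ℤ) - 1 : ℤ) : ℂ) * s + s = z + ((-(i : ℤ) : ℤ) : ℂ) * s by
          push_cast
          ring]
  rw [h2, h1]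

theorem vt_zero_iff {s : ℂ} (hs : 0 < s.im) (u : ℂ) :
    vt s u = 0 ↔ ∃ m n : ℤ, u = m + n * s := by
  rw [vt_eq, mul_eq_zero, or_iff_right (Complex.exp_ne_zero _)]
  constructor
  swap
  · rintro ⟨m, n, rfl⟩
    rw [show (m : ℂ) + n * s + (1 + s) / 2 = (1 + s) / 2 + m + n * s by ring, vzb_shift]
    exact AM.jt_zero s
  intro hu
  obtain ⟨t, rfl⟩ : ∃ t, s = 2 * t := ⟨s / 2, by ring⟩
  have ht : 0 < t.im := by
    have : (2 * t).im = 2 * t.im := by simp
    rw [this] at hs
    linarith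
  have hp : ∀ x, s0 t x * s1 t (x + u) = s1 t x * s0 t (x + u) := by
    intro x
    set y := x - (1 + 2 * t) / 2 with hy
    have a1 := AM.addition ht x y
    have a2 := AM.addition ht (x + u) y
    rw [show x - y = (1 + 2 * t) / 2 by rw [hy]; ring, AM.jt_zero, mul_zero] at a1
    rw [show x + u - y = u + (1 + 2 * t) / 2 by rw [hy]; ring, hu, mul_zero] at a2
    have a3 := AM.no_common ht y
    by_cases h0 : s0 t y = 0
    · have h1 : s1 t y ≠ 0 := fun h => a3 ⟨h0, h⟩
      refine mul_right_cancel₀ h1 ?_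
      linear_combination (s0 t (x + u)) * a1 - (s0 t x) * a2
    · refine mul_right_cancel₀ h0 ?_
      linear_combination (s1 t x) * a2 - (s1 t (x + u)) * a1
  obtain ⟨l, hl, hl2⟩ := vzb_lam (AM.differentiable_s0 ht) (AM.differentiable_s1 ht)
    ((AM.differentiable_s0 ht).comp (differentiable_id.add_const u))
    ((AM.differentiable_s1 ht).comp (differentiable_id.add_const u)) (AM.no_common ht) hp
  have hl3 : ∀ x, s0 t (x + u) = l x * s0 t x ∧ s1 t (x + u) = l x * s1 t x := hl2
  have cancel : ∀ x p q, p * s0 t x = q * s0 t x → p * s1 t x = q * s1 t x → p = q := by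
    intro x p q h1 h2
    by_cases h0 : s0 t x = 0
    · exact mul_right_cancel₀ (fun h => AM.no_common ht x ⟨h0, h⟩) h2
    · exact mul_right_cancel₀ h0 h1
  have m1 : ∀ x, l (x + 1) = l x := by
    intro x
    have b1 := hl3 (x + 1)
    rw [show x + 1 + u = x + u + 1 by ring, vzb_s0_one, vzb_s0_one, vzb_s1_one, vzb_s1_one,
      (hl3 x).1, (hl3 x).2] at b1
    exact cancel x _ _ b1.1.symm b1.2.symm
  have m2 : ∀ x, l (x + 2 * t) = cexp (-(4 * Real.pi * I * u)) * l x := by
    intro x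
    have b1 := hl3 (x + 2 * t)
    rw [show x + 2 * t + u = x + u + 2 * t by ring, vzb_s0_t, vzb_s0_t, vzb_s1_t, vzb_s1_t,
      (hl3 x).1, (hl3 x).2, show -(4 * Real.pi * I * (t + (x + u))) =
        -(4 * Real.pi * I * u) + -(4 * Real.pi * I * (t + x)) by ring, Complex.exp_add] at b1
    have b2 := Complex.exp_ne_zero (-(4 * Real.pi * I * (t + x)))
    refine cancel x _ _ ?_ ?_
    · refine mul_left_cancel₀ b2 ?_
      linear_combination -b1.1
    · refine mul_left_cancel₀ b2 ?_
      linear_combination -b1.2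
  obtain ⟨α, hα⟩ := vzb_exp hs hl m1 m2
  have hA : l 0 ≠ 0 := by
    intro h
    have := hl3 0
    rw [h, zero_mul, zero_mul] at this
    exact AM.no_common ht _ this
  have hα1 : cexp (I * α) = 1 := by
    have h1 := m1 0
    rw [hα (0 + 1)] at h1
    simpa [hA] using h1
  rw [Complex.exp_eq_one_iff] at hα1
  obtain ⟨k, hk⟩ := hα1
  have hl4 : ∀ x, l x = l 0 * cexp (2 * Real.pi * I * k * x) := by
    intro x
    rw [hα x, hk]
    congr 2
    ring
  have r1 : ∀ x, jacobiTheta₂ (x + u) t =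
      l 0 * cexp (2 * Real.pi * I * k * x) * jacobiTheta₂ x t := by
    intro x
    rw [← AM.s0_add_s1 ht, ← AM.s0_add_s1 ht, (hl3 x).1, (hl3 x).2, ← hl4]
    ring
  have ht' : 0 < (t + 1 / 2).im := by
    have : (t + 1 / 2).im = t.im := by simp
    rw [this]
    exact ht
  have r2 : ∀ x, jacobiTheta₂ (x + u) (t + 1 / 2) =
      l 0 * cexp (2 * Real.pi * I * k * x) * jacobiTheta₂ x (t + 1 / 2) := by
    intro x
    rw [← AM.s0_add_I_s1 ht, ← AM.s0_add_I_s1 ht, (hl3 x).1, (hl3 x).2, ← hl4]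
    ring
  obtain ⟨m, hm⟩ := vzb_rel ht hA k r1
  obtain ⟨m', hm'⟩ := vzb_rel ht' hA k r2
  have hkk : (k : ℂ) = 2 * ((m' - m : ℤ) : ℂ) := by
    push_cast
    linear_combination -2 * hm + 2 * hm'
  refine ⟨m, -(m' - m), ?_⟩
  rw [hm, hkk]
  push_cast
  ring

end AMP
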