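import Pool.Agent.Lib.MP_b57e3c_ag_P.GrA
import Pool.Agent.Lib.MP_b57e3c_ag_P.VzB

set_option autoImplicit false

/-!
# Module Gr : the parallelograms, lower bounds for the elliptic theta function

`xx s u`, `yy s u` are continuous in `(s, u)` for `Im s > 0`; `u = xx s u + yy s u * s`. `Go s`
is the intersection of preimages of intervals under continuous real-linear functions of `u`.
`gs_zero`: `vt_zero_iff`: `u = m + n s`, `xx s u = m`, `yy s u = n`, both of absolute value `≤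
3/4`. `vt_low`: the function `ψ(s, u) = vt s u / u` for `u ≠ 0`, `ψ(s, 0) = dv s`, is continuous
at all points with `Im s > 0` (`vt s u = vt s u - vt s 0 = u ∫_0^1 ∂_u vt(s, x u) dx`, and `vt`,
`∂_u vt` are jointly continuous: `vt_eq` and `hasFDerivAt_jacobiTheta₂`,
`continuousAt_jacobiTheta₂`, or Cauchy's formula; alternatively use `dslope`). On the compact set
`{(s, u) | ‖s - s0‖ ≤ κ, u ∈ Gs s}` (`κ = Im s0 / 2`; closed and bounded) it has no zero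
(`gs_zero`, `dv_ne`), so `‖ψ‖ ≥ c > 0`. `ann_preconn`: the set `A = {u ∈ Go s | ρ < ‖u‖}`: choose
`ρ' > ρ` with `closedBall 0 ρ' ⊆ Go s`. For `u ∈ A` the segment `{x u | x between 1 and ρ'/‖u‖}`
is contained in `A` (`Go s` is convex and contains `0`: for `x ≤ 1`; for `x ≥ 1` the points have
norm `≤ ρ'`), and ends at the circle of radius `ρ'`, which is connected and contained in `A`
(`isPreconnected_sphere` for real dimension 2, or the image of `ℝ` under `ρ' exp (i x)`). Use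
`isPreconnected_of_forall`.
-/

open Complex Filter Topology Metric

namespace AMP

/-- the derivative of `vt s` -/
noncomputable def GrBD (s u : ℂ) : ℂ :=
  cexp (Real.pi * I * s / 4 + Real.pi * I * (u + 1 / 2)) *
    (Real.pi * I * jacobiTheta₂ (u + (1 + s) / 2) s + jacobiTheta₂' (u + (1 + s) / 2) s)

theorem GrB_hasDeriv {s : ℂ} (hs : 0 < s.im) (u : ℂ) : HasDerivAt (vt s) (GrBD s u) u := by
  have h1 : HasDerivAt (fun v : ℂ => Real.pi * I * s / 4 + Real.pi * I * (v + 1 / 2))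
      (Real.pi * I * 1) u :=
    (((hasDerivAt_id u).add_const (1 / 2 : ℂ)).const_mul (Real.pi * I : ℂ)).const_add _
  have h2 : HasDerivAt (fun v : ℂ => v + (1 + s) / 2) 1 u := (hasDerivAt_id u).add_const _
  have h3 : HasDerivAt (fun v : ℂ => jacobiTheta₂ (v + (1 + s) / 2) s)
      (jacobiTheta₂' (u + (1 + s) / 2) s * 1) u :=
    HasDerivAt.comp (h₂ := fun z : ℂ => jacobiTheta₂ z s) u
      (hasDerivAt_jacobiTheta₂_fst (u + (1 + s) / 2) hs) h2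
  have h4 := h1.cexp.mul h3
  have h5 : vt s = fun v : ℂ => cexp (Real.pi * I * s / 4 + Real.pi * I * (v + 1 / 2)) *
      jacobiTheta₂ (v + (1 + s) / 2) s := funext fun v => vt_eq s v
  rw [h5]
  refine h4.congr_deriv ?_
  rw [GrBD]
  ring

theorem GrB_th {s0 u0 : ℂ} (hs : 0 < s0.im) :
    ContinuousAt (fun p : ℂ × ℂ => jacobiTheta₂ (p.2 + (1 + p.1) / 2) p.1) (s0, u0) := by
  have h1 : ContinuousAt (fun p : ℂ × ℂ => (p.2 + (1 + p.1) / 2, p.1)) (s0, u0) := by fun_prop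
  exact ContinuousAt.comp (f := fun p : ℂ × ℂ => (p.2 + (1 + p.1) / 2, p.1))
    (g := fun q : ℂ × ℂ => jacobiTheta₂ q.1 q.2) (x := (s0, u0))
    (continuousAt_jacobiTheta₂ (u0 + (1 + s0) / 2) hs) h1

theorem GrB_th' {s0 u0 : ℂ} (hs : 0 < s0.im) :
    ContinuousAt (fun p : ℂ × ℂ => jacobiTheta₂' (p.2 + (1 + p.1) / 2) p.1) (s0, u0) := by
  have h1 : ContinuousAt (fun p : ℂ × ℂ => (p.2 + (1 + p.1) / 2, p.1)) (s0, u0) := by fun_prop
  exact ContinuousAt.comp (f := fun p : ℂ × ℂ => (p.2 + (1 + p.1) / 2, p.1))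
    (g := fun q : ℂ × ℂ => jacobiTheta₂' q.1 q.2) (x := (s0, u0))
    (continuousAt_jacobiTheta₂' (u0 + (1 + s0) / 2) hs) h1

theorem GrB_exp {s0 u0 : ℂ} : ContinuousAt (fun p : ℂ × ℂ =>
    cexp (Real.pi * I * p.1 / 4 + Real.pi * I * (p.2 + 1 / 2))) (s0, u0) := by
  fun_prop

theorem GrB_Dcont {s0 u0 : ℂ} (hs : 0 < s0.im) :
    ContinuousAt (fun p : ℂ × ℂ => GrBD p.1 p.2) (s0, u0) := by
  unfold GrBD
  exact GrB_exp.mul ((continuousAt_const.mul (GrB_th hs)).add (GrB_th' hs))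

theorem GrB_pos {s0 : ℂ} (hs : 0 < s0.im) : ∀ᶠ s in 𝓝 s0, 0 < s.im :=
  Complex.continuous_im.continuousAt.eventually (lt_mem_nhds hs)

theorem gs_zero {s u : ℂ} (hs : 0 < s.im) (hu : u ∈ Gs s) (h : vt s u = 0) : u = 0 := by
  obtain ⟨m, n, h1⟩ := (vt_zero_iff hs u).1 h
  have h2 : u = ((m : ℝ) : ℂ) + ((n : ℝ) : ℂ) * s := by
    rw [h1]
    push_cast
    ring
  obtain ⟨h3, h4⟩ := xx_yy_eq hs (m : ℝ) (n : ℝ)
  rw [← h2] at h3 h4
  obtain ⟨h5, h6⟩ := hu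
  rw [h3] at h5
  rw [h4] at h6
  have key : ∀ k : ℤ, |(k : ℝ)| ≤ 3 / 4 → k = 0 := by
    intro k hk
    have h7 : |(k : ℝ)| < 1 := by linarith
    rw [← Int.cast_abs] at h7
    have h8 : |k| < 1 := by exact_mod_cast h7
    exact Int.abs_lt_one_iff.1 h8
  rw [h1, key m h5, key n h6]
  simp

theorem vt_cont {s0 u0 : ℂ} (hs : 0 < s0.im) :
    ContinuousAt (fun p : ℂ × ℂ => vt p.1 p.2) (s0, u0) := by
  have h5 : (fun p : ℂ × ℂ => vt p.1 p.2) = fun p : ℂ × ℂ =>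
      cexp (Real.pi * I * p.1 / 4 + Real.pi * I * (p.2 + 1 / 2)) *
      jacobiTheta₂ (p.2 + (1 + p.1) / 2) p.1 := funext fun p => vt_eq p.1 p.2
  rw [h5]
  exact GrB_exp.mul (GrB_th hs)

theorem GrB_dv {s : ℂ} (hs : 0 < s.im) : dv s = GrBD s 0 := (GrB_hasDeriv hs 0).deriv

theorem dv_cont {s0 : ℂ} (hs : 0 < s0.im) : ContinuousAt dv s0 := by
  have h1 : ContinuousAt (fun s : ℂ => GrBD s 0) s0 := by
    have h2 : ContinuousAt (fun s : ℂ => (s, (0 : ℂ))) s0 := by fun_prop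
    exact ContinuousAt.comp (f := fun s : ℂ => (s, (0 : ℂ)))
      (g := fun p : ℂ × ℂ => GrBD p.1 p.2) (x := s0) (GrB_Dcont hs) h2
  refine h1.congr ?_
  filter_upwards [GrB_pos hs] with s h
  exact (GrB_dv h).symm

theorem GrB_zero {s : ℂ} (hs : 0 < s.im) : vt s 0 = 0 :=
  (vt_zero_iff hs 0).2 ⟨0, 0, by simp⟩

/-- the lower bound near zero -/
theorem GrB_near {s0 : ℂ} (hs : 0 < s0.im) :
    ∃ δ > 0, ∀ s : ℂ, dist s s0 < δ → ∀ u : ℂ, ‖u‖ < δ → ‖dv s0‖ / 2 * ‖u‖ ≤ ‖vt s u‖ := by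
  have hd : 0 < ‖dv s0‖ / 2 := half_pos (norm_pos_iff.2 (dv_ne hs))
  have h1 := Metric.continuousAt_iff.1 (GrB_Dcont (u0 := 0) hs) _ hd
  obtain ⟨δ1, hδ1, h1⟩ := h1
  obtain ⟨δ2, hδ2, h2⟩ := Metric.eventually_nhds_iff.1 (GrB_pos hs)
  refine ⟨min δ1 δ2, lt_min hδ1 hδ2, fun s h3 u h4 => ?_⟩
  have hs' : 0 < s.im := h2 (h3.trans_le (min_le_right _ _))
  have hu : u ∈ ball (0 : ℂ) δ1 := by
    rw [mem_ball_zero_iff]
    exact h4.trans_le (min_le_left _ _)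
  have h5 : ∀ v ∈ ball (0 : ℂ) δ1,
      HasDerivWithinAt (fun v : ℂ => vt s v - GrBD s0 0 * v) (GrBD s v - GrBD s0 0)
        (ball (0 : ℂ) δ1) v := by
    intro v _
    have h6 := (GrB_hasDeriv hs' v).sub ((hasDerivAt_id v).const_mul (GrBD s0 0))
    rw [mul_one] at h6
    exact h6.hasDerivWithinAt
  have h7 : ∀ v ∈ ball (0 : ℂ) δ1, ‖GrBD s v - GrBD s0 0‖ ≤ ‖dv s0‖ / 2 := by
    intro v hv
    have h8 : dist (s, v) (s0, (0 : ℂ)) < δ1 := by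
      rw [Prod.dist_eq]
      exact max_lt (h3.trans_le (min_le_left _ _)) (mem_ball.1 hv)
    have h9 := h1 h8
    rw [dist_eq_norm] at h9
    exact h9.le
  have h10 := (convex_ball (0 : ℂ) δ1).norm_image_sub_le_of_norm_hasDerivWithin_le h5 h7
    (mem_ball_self hδ1) hu
  have h11 : vt s u - GrBD s0 0 * u - (vt s 0 - GrBD s0 0 * 0) = vt s u - dv s0 * u := by
    rw [GrB_zero hs', GrB_dv hs]
    ring
  rw [h11, sub_zero] at h10
  have h12 : ‖dv s0 * u‖ - ‖vt s u‖ ≤ ‖vt s u - dv s0 * u‖ := by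
    rw [norm_sub_rev]
    exact norm_sub_norm_le _ _
  rw [norm_mul] at h12
  linarith

/-- the lower bound away from zero -/
theorem GrB_far {s0 : ℂ} (hs : 0 < s0.im) {δ : ℝ} (hδ : 0 < δ) :
    ∃ c > 0, ∀ᶠ s in 𝓝 s0, ∀ u ∈ Gs s, δ ≤ ‖u‖ → c ≤ ‖vt s u‖ := by
  by_contra hcon
  push Not at hcon
  obtain ⟨R, hR⟩ := bounded_Gs hs
  have h1 : ∀ n : ℕ, ∃ p : ℂ × ℂ, dist p.1 s0 < 1 / ((n : ℝ) + 1) ∧ p.2 ∈ Gs p.1 ∧
      δ ≤ ‖p.2‖ ∧ ‖p.2‖ ≤ R ∧ ‖vt p.1 p.2‖ < 1 / ((n : ℝ) + 1) := by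
    intro n
    have hn : (0 : ℝ) < 1 / ((n : ℝ) + 1) := by positivity
    have h2 := hcon _ hn
    have h3 : ∀ᶠ s in 𝓝 s0, dist s s0 < 1 / ((n : ℝ) + 1) := Metric.ball_mem_nhds s0 hn
    obtain ⟨s, ⟨u, hu, h4, h5⟩, h6, h7⟩ := (h2.and_eventually (h3.and hR)).exists
    exact ⟨(s, u), h6, hu, h4, h7 u hu, h5⟩
  choose p hp1 hp2 hp3 hp4 hp5 using h1
  have hlim : Tendsto (fun n : ℕ => 1 / ((n : ℝ) + 1)) atTop (𝓝 0) :=
    tendsto_one_div_add_atTop_nhds_zero_nat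
  have h8 : Tendsto (fun n => (p n).1) atTop (𝓝 s0) := by
    rw [tendsto_iff_dist_tendsto_zero]
    exact squeeze_zero (fun _ => dist_nonneg) (fun n => (hp1 n).le) hlim
  obtain ⟨u0, _, φ, hφ, h9⟩ := (isCompact_closedBall (0 : ℂ) R).tendsto_subseq
    (x := fun n => (p n).2) (fun n => by
      rw [mem_closedBall_zero_iff]
      exact hp4 n)
  have h10 : Tendsto (fun n => (p (φ n)).1) atTop (𝓝 s0) := h8.comp hφ.tendsto_atTop
  have h11 : u0 ∈ Gs s0 := limit_Gs hs h10 h9 (Eventually.of_forall fun n => hp2 (φ n))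
  have h12 : δ ≤ ‖u0‖ := ge_of_tendsto h9.norm (Eventually.of_forall fun n => hp3 (φ n))
  have h13 : Tendsto (fun n => vt (p (φ n)).1 (p (φ n)).2) atTop (𝓝 (vt s0 u0)) := by
    have h14 : Tendsto (fun n => ((p (φ n)).1, (p (φ n)).2)) atTop (𝓝 (s0, u0)) :=
      h10.prodMk_nhds h9
    exact (vt_cont (u0 := u0) hs).tendsto.comp h14
  have h15 : ‖vt s0 u0‖ ≤ 0 := by
    refine le_of_tendsto_of_tendsto' h13.norm (hlim.comp hφ.tendsto_atTop) fun n => ?_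
    exact (hp5 (φ n)).le
  have h16 : u0 = 0 := gs_zero hs h11 (norm_le_zero_iff.1 h15)
  rw [h16, norm_zero] at h12
  linarith

theorem vt_low {s0 : ℂ} (hs : 0 < s0.im) :
    ∃ c > 0, ∀ᶠ s in 𝓝 s0, ∀ u ∈ Gs s, c * ‖u‖ ≤ ‖vt s u‖ := by
  obtain ⟨δ, hδ, h1⟩ := GrB_near hs
  obtain ⟨c, hc, h2⟩ := GrB_far hs hδ
  obtain ⟨R, hR⟩ := bounded_Gs hs
  have hd : 0 < ‖dv s0‖ / 2 := half_pos (norm_pos_iff.2 (dv_ne hs))
  have hR1 : (0 : ℝ) < max R 1 := lt_of_lt_of_le one_pos (le_max_right _ _)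
  refine ⟨min (‖dv s0‖ / 2) (c / max R 1), lt_min hd (div_pos hc hR1), ?_⟩
  filter_upwards [Metric.ball_mem_nhds s0 hδ, h2, hR] with s h3 h4 h5 u hu
  rcases lt_or_ge ‖u‖ δ with h6 | h6
  · refine le_trans ?_ (h1 s h3 u h6)
    exact mul_le_mul_of_nonneg_right (min_le_left _ _) (norm_nonneg _)
  · refine le_trans ?_ (h4 u hu h6)
    have h7 : ‖u‖ ≤ max R 1 := (h5 u hu).trans (le_max_left _ _)
    calc min (‖dv s0‖ / 2) (c / max R 1) * ‖u‖ ≤ c / max R 1 * max R 1 :=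
          mul_le_mul (min_le_right _ _) h7 (norm_nonneg _) (div_pos hc hR1).le
      _ = c := div_mul_cancel₀ _ hR1.ne'

end AMP
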