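import Pool.Agent.Lib.MP_b57e3c_ag_P.Mr

set_option autoImplicit false

/-!
# Module Mx : matching polynomials of small sets, calculus

The explicit formulas follow from `mu_rec` (at the first index) and `mu_empty`; the sets
`insert i (insert j …)` with one or two elements erased are computed by `Finset.erase_insert`,
`Finset.erase_insert_of_ne` … (`simp`, `decide`-free: use `Finset.ext` and the inequalities).

`mu_upd`: `mu_rec` at `i`, and `mu_congr` for the sets without `i`.
`mu_cont`, `mu_diff`: `mu` is a finite sum of products of coordinates.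
`mu_deriv`: the derivative of `mu_upd` in `x` (`Function.update_idem`, affine function of `x`).
`mu_tendsto`: finite sum of finite products; only `b e.1 e.2` with `e.1 < e.2` and `v i`, `i ∈ S`,
occur.
-/

open Complex Filter Topology

namespace AMP

variable {g : ℕ}

private theorem Mx_dprod (t : Finset (Fin g)) :
    Differentiable ℂ (fun v : Fin g → ℂ => ∏ i ∈ t, v i) := by
  induction t using Finset.induction_on with
  | empty =>
    simp only [Finset.prod_empty]
    exact differentiable_const _
  | insert a s ha ih =>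
    simp only [Finset.prod_insert ha]
    exact (differentiable_apply a).mul ih

/-- the recursion for `insert i S` -/
private theorem Mx_ins (b : Fin g → Fin g → ℂ) (hb : ∀ i j, b i j = b j i) {S : Finset (Fin g)}
    {i : Fin g} (hi : i ∉ S) (v : Fin g → ℂ) :
    mu b (insert i S) v = v i * mu b S v + ∑ j ∈ S, b i j * mu b (S.erase j) v := by
  rw [mu_rec b hb (Finset.mem_insert_self i S) v, Finset.erase_insert hi]

private theorem Mx_e2 {j k : Fin g} (h : j ≠ k) : ({j, k} : Finset (Fin g)).erase j = {k} := by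
  ext x
  simp only [Finset.mem_erase, Finset.mem_insert, Finset.mem_singleton]
  constructor
  · rintro ⟨h1, h2 | h2⟩
    · exact absurd h2 h1
    · exact h2
  · intro h1
    exact ⟨fun h2 => h (h2.symm.trans h1), Or.inr h1⟩

private theorem Mx_s2 {j k : Fin g} (h : j ≠ k) : ({j, k} : Finset (Fin g)).erase k = {j} := by
  rw [Finset.pair_comm]
  exact Mx_e2 h.symm

private theorem Mx_a3 {j k l : Fin g} (h1 : j ≠ k) (h2 : j ≠ l) :
    ({j, k, l} : Finset (Fin g)).erase j = {k, l} := by
  rw [Finset.erase_insert]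
  simp only [Finset.mem_insert, Finset.mem_singleton, not_or]
  exact ⟨h1, h2⟩

private theorem Mx_b3 {j k l : Fin g} (h1 : j ≠ k) (h3 : k ≠ l) :
    ({j, k, l} : Finset (Fin g)).erase k = {j, l} := by
  rw [Finset.insert_comm]
  exact Mx_a3 h1.symm h3

private theorem Mx_c3 {j k l : Fin g} (h2 : j ≠ l) (h3 : k ≠ l) :
    ({j, k, l} : Finset (Fin g)).erase l = {j, k} := by
  rw [Finset.pair_comm k l]
  exact Mx_b3 h2 h3.symm

theorem mu_one (b : Fin g → Fin g → ℂ) (hb : ∀ i j, b i j = b j i) (i : Fin g)
    (v : Fin g → ℂ) : mu b {i} v = v i := by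
  have h := Mx_ins b hb (Finset.notMem_empty i) v
  rw [Finset.sum_empty, add_zero, mu_empty, mul_one] at h
  exact h

theorem mu_two (b : Fin g → Fin g → ℂ) (hb : ∀ i j, b i j = b j i) {i j : Fin g} (hij : i ≠ j)
    (v : Fin g → ℂ) : mu b {i, j} v = v i * v j + b i j := by
  have h1 : i ∉ ({j} : Finset (Fin g)) := by
    rw [Finset.mem_singleton]
    exact hij
  have h2 : ({j} : Finset (Fin g)).erase j = ∅ := by
    ext x
    simp only [Finset.mem_erase, Finset.mem_singleton, Finset.notMem_empty, iff_false, not_and]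
    exact fun h3 h4 => h3 h4
  rw [Mx_ins b hb h1 v, Finset.sum_singleton, h2, mu_empty, mul_one, mu_one b hb]

theorem mu_three (b : Fin g → Fin g → ℂ) (hb : ∀ i j, b i j = b j i) {i j k : Fin g}
    (hij : i ≠ j) (hik : i ≠ k) (hjk : j ≠ k) (v : Fin g → ℂ) :
    mu b {i, j, k} v = v i * v j * v k + b i j * v k + b i k * v j + b j k * v i := by
  have h1 : i ∉ ({j, k} : Finset (Fin g)) := by
    simp only [Finset.mem_insert, Finset.mem_singleton, not_or]
    exact ⟨hij, hik⟩
  rw [Mx_ins b hb h1 v, Finset.sum_pair hjk, Mx_e2 hjk, Mx_s2 hjk, mu_two b hb hjk,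
    mu_one b hb, mu_one b hb]
  ring

theorem mu_four (b : Fin g → Fin g → ℂ) (hb : ∀ i j, b i j = b j i) {i j k l : Fin g}
    (hij : i ≠ j) (hik : i ≠ k) (hil : i ≠ l) (hjk : j ≠ k) (hjl : j ≠ l) (hkl : k ≠ l)
    (v : Fin g → ℂ) :
    mu b {i, j, k, l} v = v i * v j * v k * v l + b i j * v k * v l + b i k * v j * v l
      + b i l * v j * v k + b j k * v i * v l + b j l * v i * v k + b k l * v i * v j
      + b i j * b k l + b i k * b j l + b i l * b j k := by
  have h1 : i ∉ ({j, k, l} : Finset (Fin g)) := by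
    simp only [Finset.mem_insert, Finset.mem_singleton, not_or]
    exact ⟨hij, hik, hil⟩
  have h2 : j ∉ ({k, l} : Finset (Fin g)) := by
    simp only [Finset.mem_insert, Finset.mem_singleton, not_or]
    exact ⟨hjk, hjl⟩
  rw [Mx_ins b hb h1 v, Finset.sum_insert h2, Finset.sum_pair hkl, Mx_a3 hjk hjl,
    Mx_b3 hjk hkl, Mx_c3 hjl hkl, mu_three b hb hjk hjl hkl, mu_two b hb hkl,
    mu_two b hb hjl, mu_two b hb hjk]
  ring

/-- `μ_S` is affine in every variable -/
theorem mu_upd (b : Fin g → Fin g → ℂ) (hb : ∀ i j, b i j = b j i) {S : Finset (Fin g)}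
    {i : Fin g} (hi : i ∈ S) (v : Fin g → ℂ) (x : ℂ) :
    mu b S (Function.update v i x) = mu b S v + (x - v i) * mu b (S.erase i) v := by
  have h : ∀ k ∈ S.erase i, Function.update v i x k = v k := by
    intro k hk
    exact Function.update_of_ne (Finset.mem_erase.1 hk).1 _ _
  rw [mu_rec b hb hi v, mu_rec b hb hi (Function.update v i x), Function.update_self,
    mu_congr b (S.erase i) h, Finset.sum_congr rfl fun j _ => by
      rw [mu_congr b ((S.erase i).erase j) fun k hk => h k (Finset.mem_of_mem_erase hk)]]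
  ring

theorem mu_cont (b : Fin g → Fin g → ℂ) (S : Finset (Fin g)) : Continuous (mu b S) := by
  unfold mu
  refine continuous_finsetSum _ fun A _ => ?_
  split_ifs
  · exact continuous_const.mul (continuous_finsetProd _ fun i _ => continuous_apply i)
  · exact continuous_const

theorem mu_diff (b : Fin g → Fin g → ℂ) (S : Finset (Fin g)) : Differentiable ℂ (mu b S) := by
  unfold mu
  refine Differentiable.fun_sum fun A _ => ?_
  split_ifs
  · refine (differentiable_const _).mul ?_
    exact Mx_dprod _
  · exact differentiable_const _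

theorem mu_deriv (b : Fin g → Fin g → ℂ) (hb : ∀ i j, b i j = b j i) {S : Finset (Fin g)}
    {i : Fin g} (hi : i ∈ S) (v : Fin g → ℂ) :
    HasDerivAt (fun x : ℂ => mu b S (Function.update v i x)) (mu b (S.erase i) v) (v i) := by
  have h : (fun x : ℂ => mu b S (Function.update v i x)) =
      fun x => mu b S v + (x - v i) * mu b (S.erase i) v := by
    funext x
    exact mu_upd b hb hi v x
  rw [h]
  have h1 := (((hasDerivAt_id (v i)).sub_const (v i)).mul_const
    (mu b (S.erase i) v)).const_add (mu b S v)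
  rw [one_mul] at h1
  exact h1

theorem mu_tendsto {ι : Type*} {l : Filter ι} {b : Fin g → Fin g → ℂ}
    {bn : ι → Fin g → Fin g → ℂ} {S : Finset (Fin g)} {v : Fin g → ℂ} {vn : ι → Fin g → ℂ}
    (h1 : ∀ i j, i ≠ j → Tendsto (fun n => bn n i j) l (𝓝 (b i j)))
    (h2 : ∀ i ∈ S, Tendsto (fun n => vn n i) l (𝓝 (v i))) :
    Tendsto (fun n => mu (bn n) S (vn n)) l (𝓝 (mu b S v)) := by
  unfold mu
  refine tendsto_finsetSum _ fun A hA => ?_
  split_ifs
  · refine Tendsto.mul (tendsto_finsetProd _ fun e he => ?_)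
      (tendsto_finsetProd _ fun i hi => ?_)
    · have h3 := Finset.mem_powerset.1 hA he
      exact h1 _ _ (Finset.mem_filter.1 h3).2.ne
    · exact h2 i (Finset.mem_filter.1 hi).1
  · exact tendsto_const_nhds

end AMP
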