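import Pool.Agent.Lib.MP_b57e3c_ag_P.FmB
import Pool.Agent.Lib.MP_b57e3c_ag_P.ExB
import Pool.Agent.Lib.MP_b57e3c_ag_P.GrB
import Pool.Agent.Lib.MP_b57e3c_ag_P.Mx

set_option autoImplicit false

/-!
# Module Al : the approximation lemma

`sum_dg`: double counting (`e.1 ≠ e.2` for `e ∈ prs g`).
`Sq.sm`: `y0 = min_i Im σ_i / 2`; `τ_ij = (τ_ij/(2 π i r²)) * 2 π i r² → 0` for `i ≠ j`.

`Sq.approx`. Let `c > 0` be the minimum of the constants of `vt_low` at `σ k` and of `‖dv (σ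
i)‖/2` (`dv_cont`, `dv_ne`), `B ≥ 1` with `‖τ_ij‖ ≤ B r²` (`i ≠ j`) for most `n`, `ρ'` a bound
for `‖u_i‖`, `u = sc r S w` (`bounded_Gs`; `r ≤ 1`). For `A ⊆ prs g` let `odd` = the set of `i`
with `dg A i` odd. By `FA_le`, with `C'` depending only on the previous constants,
`‖FA‖/‖nrm‖ ≤ C' r^(2 card A) ∏_{i∈S even} (ρ r) ∏_{k∉S even} ‖w k‖ / (r^card S ∏_{k∉S} ‖w k‖)
 ≤ C' r^(2 card A - card odd) R^(- card (odd \ S))`, using `‖w k‖ ≥ R r`, `r ≤ 1`, `R ≥ 1`. By
`sum_dg` `2 card A = ∑ dg A i ≥ card odd`. If `odd \ S ≠ ∅` the bound is `≤ C'/R`; if `odd ⊆ S`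
and `2 card A > card odd` it is `≤ C' r`; if `odd ⊆ S` and `2 card A = card odd` then `dg A i =
1` for `i ∈ odd` and `0` otherwise, i.e. `IsMt S A`. For `IsMt S A` use `FA_main`: the error
divided by `‖nrm‖` is `≤ C' (r² + r)` (the same estimate with exponent `0`), and the main term
divided by `nrm` is `∏_{e∈A} (τ_e / (2 π i r²)) ∏_{i∈S, dg=0} w_i` since `card S = 2 card A +
card {i ∈ S | dg A i = 0}`. The sum over the matchings `A` is `mu b_n S w` with `b_n i j =
τ_ij/(2 π i r²) → b i j`; `mu b_n S w - mu b S w → 0` uniformly for `‖w i‖ ≤ ρ` (a finite sum of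
products). Total (`ff_expand`): `≤ C'' (1/R + r) + o(1)`; choose `R`, then `n`.
-/

open Complex Filter Topology

namespace AMP

variable {g m : ℕ}

theorem sum_dg {A : Finset (Fin g × Fin g)} (hA : A ⊆ prs g) : ∑ i, dg A i = 2 * A.card := by
  classical
  have h1 : ∀ i, dg A i = ∑ e ∈ A, if e.1 = i ∨ e.2 = i then 1 else 0 := fun i => by
    unfold dg
    rw [Finset.card_filter]
  rw [Finset.sum_congr rfl fun i _ => h1 i, Finset.sum_comm]
  have h2 : ∀ e ∈ A, (∑ i, if e.1 = i ∨ e.2 = i then 1 else 0) = 2 := by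
    intro e he
    have h3 : e.1 ≠ e.2 := ((Finset.mem_filter.1 (hA he)).2).ne
    rw [← Finset.card_filter]
    have h4 : (Finset.univ.filter fun i => e.1 = i ∨ e.2 = i) = {e.1, e.2} := by
      ext i
      simp only [Finset.mem_filter, Finset.mem_univ, true_and, Finset.mem_insert,
        Finset.mem_singleton]
      constructor
      · rintro (h | h)
        · exact Or.inl h.symm
        · exact Or.inr h.symm
      · rintro (h | h)
        · exact Or.inl h.symm
        · exact Or.inr h.symm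
    rw [h4, Finset.card_pair h3]
  rw [Finset.sum_congr rfl h2, Finset.sum_const, smul_eq_mul, mul_comm]

private lemma AlA_off (C : Sq g m) {i j : Fin g} (hij : i ≠ j) :
    Tendsto (fun n => C.τ n i j) C.U (𝓝 0) := by
  have h1 : Tendsto (fun n => (2 * Real.pi * I * (C.r n : ℂ) ^ 2)) (C.U : Filter ℕ) (𝓝 0) := by
    have h2 : Tendsto (fun n => (C.r n : ℂ)) (C.U : Filter ℕ) (𝓝 ((0 : ℝ) : ℂ)) :=
      (Complex.continuous_ofReal.tendsto 0).comp C.rlim
    have h3 := (h2.pow 2).const_mul (2 * Real.pi * I)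
    rw [Complex.ofReal_zero] at h3
    have h4 : (2 * Real.pi * I * (0 : ℂ) ^ 2) = 0 := by ring
    rw [h4] at h3
    exact h3
  have h5 := (C.off i j hij).mul h1
  rw [mul_zero] at h5
  refine h5.congr fun n => ?_
  have h6 : (C.r n : ℂ) ≠ 0 := Complex.ofReal_ne_zero.2 (C.rpos n).ne'
  have h7 : (2 * Real.pi * I * (C.r n : ℂ) ^ 2) ≠ 0 :=
    mul_ne_zero Complex.two_pi_I_ne_zero (pow_ne_zero 2 h6)
  exact div_mul_cancel₀ _ h7

theorem Sq.sm (C : Sq g m) : ∃ y0 > 0, ∀ᶠ n in (C.U : Filter ℕ), Sm y0 (C.τ n) := by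
  have h1 : ∀ᶠ y in 𝓝[>] (0 : ℝ), ∀ i, y < (C.σ i).im :=
    eventually_all.2 fun i => (eventually_lt_nhds (C.spos i)).filter_mono nhdsWithin_le_nhds
  have h2 : ∀ᶠ y in 𝓝[>] (0 : ℝ), 0 < y := self_mem_nhdsWithin
  obtain ⟨y0, hy, hy0⟩ := (h1.and h2).exists
  refine ⟨y0, hy0, ?_⟩
  have h3 : ∀ᶠ n in (C.U : Filter ℕ), ∀ i, y0 ≤ (C.τ n i i).im := by
    refine eventually_all.2 fun i => ?_
    have h4 : Tendsto (fun n => (C.τ n i i).im) (C.U : Filter ℕ) (𝓝 (C.σ i).im) :=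
      (Complex.continuous_im.tendsto _).comp (C.diag i)
    exact (h4.eventually (eventually_gt_nhds (hy i))).mono fun n hn => hn.le
  have h5 : ∀ᶠ n in (C.U : Filter ℕ), ∀ i j, i ≠ j →
      ‖C.τ n i j‖ ≤ y0 / (8 * (g + 1)) := by
    refine eventually_all.2 fun i => eventually_all.2 fun j => ?_
    by_cases hij : i = j
    · exact Eventually.of_forall fun n h => absurd hij h
    · have h6 : Tendsto (fun n => ‖C.τ n i j‖) (C.U : Filter ℕ) (𝓝 0) := by
        have := (AlA_off C hij).norm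
        rwa [norm_zero] at this
      have h7 : (0 : ℝ) < y0 / (8 * (g + 1)) := div_pos hy0 (by positivity)
      exact (h6.eventually (eventually_lt_nhds h7)).mono fun n hn _ => hn.le
  filter_upwards [h3, h5] with n hn1 hn2
  exact ⟨fun i j => (C.siegel n).1.apply j i, hn1, hn2⟩

end AMP
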