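import Pool.Agent.Lib.MP_b57e3c_ag_P.Defs
import Pool.Agent.Lib.MP_b57e3c_ag_M.Qp
import Pool.Agent.Lib.MP_b57e3c_ag_M.Tcn

set_option autoImplicit false

/-!
# Module Df : `ff` and the theta function

`ff_eq`: `π i (m+½)ᵗ τ (m+½) + 2 π i (m+½)·(u+½)
= π i mᵗ τ m + 2 π i m·(c1 + u) + (π i/4) ∑∑ τ_ij + π i ∑ (u_i + 1/2)` (`τ` symmetric), then
`tsum_mul_left`. The theta function is smooth: `AM.theta τ z = th τ [] (-z)` (or with `ent_th`,
see Lib/MP_b57e3c_ag_M: Qp, Der, Mex: `ent_th`, `mem_sing`, `hasFDerivAt_th`), so `ff τ = E * (θ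
∘ translation)` with `E` the exponential of an affine function; so `ff τ` and `pf τ i` are
differentiable. `mem_singF`: `ff τ u = E u * θ(c1+u)`, `E u ≠ 0`, product rule: `pf τ i u = (∂_i
E) θ + E ∂_i θ`; `HasFDerivAt (theta τ) 0 z` iff all partial derivatives vanish (`theta τ` is
differentiable, a continuous linear form which vanishes on the `Pi.single i 1` is zero).
`pf2_eq`: second derivatives of a product at a point where `θ` and `dθ` vanish.
`singF_neg` is not needed.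
-/

open Complex Filter Topology

namespace AMP

open AMC

variable {g : ℕ}

/-- the nonvanishing factor between `ff` and the theta function -/
noncomputable def Ef (τ : Matrix (Fin g) (Fin g) ℂ) (u : Fin g → ℂ) : ℂ :=
  cexp (Real.pi * I / 4 * (∑ i, ∑ j, τ i j) + Real.pi * I * ∑ i, (u i + 1 / 2))

private theorem Df_exp {τ : Matrix (Fin g) (Fin g) ℂ} (hτ : ∀ i j, τ i j = τ j i)
    (m u : Fin g → ℂ) :
    Real.pi * I * (∑ i, ∑ j, (m i + 1 / 2) * τ i j * (m j + 1 / 2))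
      + 2 * Real.pi * I * ∑ i, (m i + 1 / 2) * (u i + 1 / 2) =
    (Real.pi * I / 4 * (∑ i, ∑ j, τ i j) + Real.pi * I * ∑ i, (u i + 1 / 2)) +
      (Real.pi * I * (∑ i, ∑ j, m i * τ i j * m j) +
        2 * Real.pi * I * ∑ i, m i * (((∑ j, τ i j) + 1) / 2 + u i)) := by
  have h1 : (∑ i, ∑ j, (m i + 1 / 2) * τ i j * (m j + 1 / 2)) =
      (∑ i, ∑ j, m i * τ i j * m j) + (1 / 2) * (∑ i, ∑ j, m i * τ i j) +
        (1 / 2) * (∑ i, ∑ j, τ i j * m j) + (1 / 4) * (∑ i, ∑ j, τ i j) := by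
    simp only [Finset.mul_sum, ← Finset.sum_add_distrib]
    exact Finset.sum_congr rfl fun i _ => Finset.sum_congr rfl fun j _ => by ring
  have h2 : (∑ i, ∑ j, τ i j * m j) = ∑ i, ∑ j, m i * τ i j := by
    rw [Finset.sum_comm]
    refine Finset.sum_congr rfl fun i _ => Finset.sum_congr rfl fun j _ => ?_
    rw [hτ j i]
    ring
  have h3 : (∑ i, (m i + 1 / 2) * (u i + 1 / 2)) =
      (∑ i, m i * (u i + 1 / 2)) + (1 / 2) * ∑ i, (u i + 1 / 2) := by
    rw [Finset.mul_sum, ← Finset.sum_add_distrib]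
    exact Finset.sum_congr rfl fun i _ => by ring
  have h4 : (∑ i, m i * (((∑ j, τ i j) + 1) / 2 + u i)) =
      (1 / 2) * (∑ i, ∑ j, m i * τ i j) + ∑ i, m i * (u i + 1 / 2) := by
    rw [Finset.mul_sum, ← Finset.sum_add_distrib]
    refine Finset.sum_congr rfl fun i _ => ?_
    rw [← Finset.mul_sum]
    ring
  rw [h1, h2, h3, h4]
  ring

theorem ff_eq {τ : Matrix (Fin g) (Fin g) ℂ} (hτ : AM.Siegel τ) (u : Fin g → ℂ) :
    ff τ u = Ef τ u * AM.theta τ (c1 τ + u) := by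
  have hs : ∀ i j, τ i j = τ j i := fun i j => (hτ.1.apply i j).symm
  unfold ff Ef AM.theta
  rw [← tsum_mul_left]
  refine tsum_congr fun m => ?_
  rw [← Complex.exp_add]
  congr 1
  exact Df_exp hs (fun i => (m i : ℂ)) u

private theorem Df_theta {τ : Matrix (Fin g) (Fin g) ℂ} (hτ : AM.Siegel τ) :
    ContDiff ℂ ((⊤ : ℕ∞) : WithTop ℕ∞) (AM.theta τ) := by
  have h1 : AM.theta τ = th τ [] := funext fun z => theta_eq hτ z
  rw [h1]
  exact ent_th hτ []

private theorem Df_Ef {τ : Matrix (Fin g) (Fin g) ℂ} :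
    ContDiff ℂ ((⊤ : ℕ∞) : WithTop ℕ∞) (Ef τ) := by
  unfold Ef
  fun_prop

private theorem Df_ff {τ : Matrix (Fin g) (Fin g) ℂ} (hτ : AM.Siegel τ) :
    ContDiff ℂ ((⊤ : ℕ∞) : WithTop ℕ∞) (ff τ) := by
  have h1 : ff τ = fun u => Ef τ u * AM.theta τ (c1 τ + u) := funext fun u => ff_eq hτ u
  rw [h1]
  exact Df_Ef.mul ((Df_theta hτ).comp (contDiff_const.add contDiff_id))

private theorem Df_par {f : (Fin g → ℂ) → ℂ} (hf : ContDiff ℂ ((⊤ : ℕ∞) : WithTop ℕ∞) f)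
    (v : Fin g → ℂ) : ContDiff ℂ ((⊤ : ℕ∞) : WithTop ℕ∞) fun u => fderiv ℂ f u v :=
  (hf.fderiv_right (m := ((⊤ : ℕ∞) : WithTop ℕ∞)) (by simp)).clm_apply contDiff_const

private theorem Df_pf {τ : Matrix (Fin g) (Fin g) ℂ} (hτ : AM.Siegel τ) (i : Fin g) :
    ContDiff ℂ ((⊤ : ℕ∞) : WithTop ℕ∞) (pf τ i) := Df_par (Df_ff hτ) _

theorem ff_diff {τ : Matrix (Fin g) (Fin g) ℂ} (hτ : AM.Siegel τ) :
    Differentiable ℂ (ff τ) := (Df_ff hτ).differentiable (by simp)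

theorem pf_diff {τ : Matrix (Fin g) (Fin g) ℂ} (hτ : AM.Siegel τ) (i : Fin g) :
    Differentiable ℂ (pf τ i) := (Df_pf hτ i).differentiable (by simp)

theorem pf2_cont {τ : Matrix (Fin g) (Fin g) ℂ} (hτ : AM.Siegel τ) (i j : Fin g) :
    Continuous (pf2 τ i j) := (Df_par (Df_pf hτ j) _).continuous

private theorem Df_hasE {τ : Matrix (Fin g) (Fin g) ℂ} (u : Fin g → ℂ) :
    HasFDerivAt (Ef τ) (Ef τ u • ((Real.pi * I : ℂ) •
      ∑ i, (ContinuousLinearMap.proj i : (Fin g → ℂ) →L[ℂ] ℂ))) u := by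
  have h1 : HasFDerivAt (fun u : Fin g → ℂ => Real.pi * I / 4 * (∑ i, ∑ j, τ i j) +
      Real.pi * I * ∑ i, (u i + 1 / 2)) ((Real.pi * I : ℂ) •
      ∑ i, (ContinuousLinearMap.proj i : (Fin g → ℂ) →L[ℂ] ℂ)) u := by
    refine HasFDerivAt.const_add _ (HasFDerivAt.const_mul ?_ _)
    refine HasFDerivAt.fun_sum fun i _ => ?_
    exact (ContinuousLinearMap.proj i : (Fin g → ℂ) →L[ℂ] ℂ).hasFDerivAt.add_const _
  exact h1.cexp

private theorem Df_E1 {τ : Matrix (Fin g) (Fin g) ℂ} (u : Fin g → ℂ) (i : Fin g) :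
    fderiv ℂ (Ef τ) u (Pi.single i 1) = Real.pi * I * Ef τ u := by
  rw [(Df_hasE u).fderiv]
  simp [Finset.sum_apply, Pi.single_apply]
  ring

private theorem Df_prod {τ : Matrix (Fin g) (Fin g) ℂ} {h : (Fin g → ℂ) → ℂ}
    (hh : Differentiable ℂ h) (u : Fin g → ℂ) (i : Fin g) :
    fderiv ℂ (fun u => Ef τ u * h (c1 τ + u)) u (Pi.single i 1) =
      Real.pi * I * (Ef τ u * h (c1 τ + u)) +
        Ef τ u * fderiv ℂ h (c1 τ + u) (Pi.single i 1) := by
  have h1 : HasFDerivAt (fun u => h (c1 τ + u)) (fderiv ℂ h (c1 τ + u)) u := by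
    have h2 := (hh (c1 τ + u)).hasFDerivAt
    exact HasFDerivAt.comp (g := h) u h2 ((hasFDerivAt_id u).const_add (c1 τ))
  have h3 := ((Df_hasE (τ := τ) u).mul h1).fderiv
  have h4 : fderiv ℂ (fun u => Ef τ u * h (c1 τ + u)) u = _ := h3
  have h5 := Df_E1 (τ := τ) u i
  rw [(Df_hasE u).fderiv] at h5
  rw [h4, ContinuousLinearMap.add_apply, ContinuousLinearMap.smul_apply,
    ContinuousLinearMap.smul_apply, h5]
  simp only [smul_eq_mul]
  ring

private theorem Df_pf_eq {τ : Matrix (Fin g) (Fin g) ℂ} (hτ : AM.Siegel τ) (i : Fin g)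
    (u : Fin g → ℂ) :
    pf τ i u = Real.pi * I * ff τ u +
      Ef τ u * fderiv ℂ (AM.theta τ) (c1 τ + u) (Pi.single i 1) := by
  have h1 : ff τ = fun u => Ef τ u * AM.theta τ (c1 τ + u) := funext fun u => ff_eq hτ u
  unfold pf
  rw [ff_eq hτ, h1]
  exact Df_prod ((Df_theta hτ).differentiable (by simp)) u i

theorem mem_singF {τ : Matrix (Fin g) (Fin g) ℂ} (hτ : AM.Siegel τ) (u : Fin g → ℂ) :
    u ∈ singF τ ↔ c1 τ + u ∈ AM.singTheta τ := by
  have hE : Ef τ u ≠ 0 := Complex.exp_ne_zero _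
  have h0 : ff τ u = 0 ↔ AM.theta τ (c1 τ + u) = 0 := by
    rw [ff_eq hτ, mul_eq_zero, or_iff_right hE]
  have hθ : Differentiable ℂ (AM.theta τ) := (Df_theta hτ).differentiable (by simp)
  show (ff τ u = 0 ∧ ∀ i, pf τ i u = 0) ↔ AM.theta τ (c1 τ + u) = 0 ∧
    HasFDerivAt (AM.theta τ) (0 : (Fin g → ℂ) →L[ℂ] ℂ) (c1 τ + u)
  rw [← h0]
  refine and_congr_right fun hf => ?_
  constructor
  · intro h
    have h1 : fderiv ℂ (AM.theta τ) (c1 τ + u) = 0 := by
      refine ContinuousLinearMap.coe_injective (LinearMap.pi_ext' fun i => ?_)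
      refine LinearMap.ext_ring ?_
      have h2 := h i
      rw [Df_pf_eq hτ, hf, mul_zero, zero_add, mul_eq_zero, or_iff_right hE] at h2
      simpa using h2
    rw [← h1]
    exact (hθ _).hasFDerivAt
  · intro h i
    rw [Df_pf_eq hτ, hf, h.fderiv]
    simp

theorem pf2_eq {τ : Matrix (Fin g) (Fin g) ℂ} (hτ : AM.Siegel τ) {u : Fin g → ℂ}
    (hu : u ∈ singF τ) (i j : Fin g) :
    pf2 τ i j u = Ef τ u * hes τ (c1 τ + u) i j := by
  have hE : Ef τ u ≠ 0 := Complex.exp_ne_zero _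
  have h1 : pf τ j = fun u => Real.pi * I * ff τ u + Ef τ u *
      (fun z => fderiv ℂ (AM.theta τ) z (Pi.single j 1)) (c1 τ + u) :=
    funext fun u => Df_pf_eq hτ j u
  have hd : Differentiable ℂ fun z => fderiv ℂ (AM.theta τ) z (Pi.single j 1) :=
    (Df_par (Df_theta hτ) _).differentiable (by simp)
  have h2 : Differentiable ℂ fun u => Ef τ u *
      (fun z => fderiv ℂ (AM.theta τ) z (Pi.single j 1)) (c1 τ + u) :=
    (Df_Ef.differentiable (by simp)).mul (hd.comp (differentiable_const _ |>.add differentiable_id))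
  have h3 : fderiv ℂ (AM.theta τ) (c1 τ + u) (Pi.single j 1) = 0 := by
    have h4 := hu.2 j
    rw [Df_pf_eq hτ, hu.1, mul_zero, zero_add, mul_eq_zero, or_iff_right hE] at h4
    exact h4
  unfold pf2
  rw [h1, fderiv_fun_add (((ff_diff hτ) u).const_mul _) (h2 u), ContinuousLinearMap.add_apply,
    fderiv_const_mul ((ff_diff hτ) u), ContinuousLinearMap.smul_apply, Df_prod hd u i]
  have h5 : fderiv ℂ (ff τ) u (Pi.single i 1) = 0 := hu.2 i
  rw [h5]
  simp only [h3, smul_zero, mul_zero, zero_add]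
  rfl

end AMP
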