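import Pool.Agent.Lib.MP_b57e3c_ag_P.AlB
import Pool.Agent.Lib.MP_b57e3c_ag_P.Df

set_option autoImplicit false

/-!
# Module Ap : approximation of the derivatives

Take `R` and most `n` from `Sq.approx` for `ρ + 2` and `κ` (and `n` such that `r > 0` …). Fix `n`
and `w` with `‖w i‖ ≤ ρ + 1` (`i ∈ S`), `w k ∈ Gs`, `R r ≤ ‖w k‖`. For `i ∈ S` let
`φ(ζ) = ff τ (sc r S (w + ζ e_i)) / nrm - mu b S (w + ζ e_i)` (`nrm` depends only on the `w k`,
`k ∉ S`). It is entire (`ff_diff`) and `‖φ‖ ≤ κ` for `‖ζ‖ ≤ 1`, so `‖φ'(0)‖ ≤ κ` (Cauchy: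
`Complex.norm_deriv_le_of_forall_mem_sphere_norm_le`), and
`φ'(0) = r * pf τ i (sc r S w) / nrm - mu b (S.erase i) w` (chain rule, `mu_deriv`). This is
`approx1` (for `ρ + 1`, hence for `ρ`). The same argument for
`ζ ↦ r * pf τ j (sc r S (w + ζ e_i)) / nrm - mu b (S.erase j) (w + ζ e_i)`, bounded by `κ` for
`‖ζ‖ ≤ 1` when `‖w i‖ ≤ ρ`, whose derivative at `0` is `r² pf2 τ i j (sc r S w) / nrm - Hs b S w
i j` (for `i = j` the function `mu b (S.erase j) (w + ζ e_j)` is constant by `mu_congr`; for `i ≠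
j` `mu_deriv` at `i ∈ S.erase j`, and `(S.erase j).erase i = (S.erase i).erase j`,
`Finset.erase_right_comm`).
-/

open Complex Filter Topology

namespace AMP

variable {g m : ℕ}

private lemma sc_update {r : ℝ} {S : Finset (Fin g)} {i : Fin g} (hi : i ∈ S) (w : Fin g → ℂ)
    (x : ℂ) : sc r S (Function.update w i x) = Function.update (sc r S w) i ((r : ℂ) * x) := by
  funext k
  by_cases hk : k = i
  · subst hk
    simp [sc, hi]
  · simp [sc, Function.update_of_ne hk]

private lemma nrm_update {τ : Matrix (Fin g) (Fin g) ℂ} {r : ℝ} {S : Finset (Fin g)} {i : Fin g}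
    (hi : i ∈ S) (w : Fin g → ℂ) (x : ℂ) :
    nrm τ r S (Function.update w i x) = nrm τ r S w := by
  simp only [nrm]
  congr 1
  apply Finset.prod_congr rfl
  intro k hk
  rw [Function.update_of_ne]
  rintro rfl
  exact (Finset.mem_compl.1 hk) hi

private lemma diff_update (w : Fin g → ℂ) (i : Fin g) :
    Differentiable ℂ (fun x : ℂ => Function.update w i x) := fun x =>
  (hasDerivAt_update w i x).differentiableAt

private lemma cauchy_aux {F : (Fin g → ℂ) → ℂ} (hF : Differentiable ℂ F) {G : ℂ → ℂ}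
    (hGd : Differentiable ℂ G) {G' : ℂ} {w : Fin g → ℂ} {i : Fin g} {S : Finset (Fin g)}
    (hi : i ∈ S) {r : ℝ} {a N : ℂ} {κ : ℝ} (hG : HasDerivAt G G' (w i))
    (hb : ∀ x, ‖x - w i‖ = 1 → ‖a * F (sc r S (Function.update w i x)) / N - G x‖ ≤ κ) :
    ‖a * ((r : ℂ) * fderiv ℂ F (sc r S w) (Pi.single i 1)) / N - G'‖ ≤ κ := by
  have hw : sc r S w i = (r : ℂ) * w i := by simp [sc, hi]
  have h1 : HasDerivAt (fun x : ℂ => F (sc r S (Function.update w i x)))
      ((r : ℂ) * fderiv ℂ F (sc r S w) (Pi.single i 1)) (w i) := by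
    have h2 : (fun x : ℂ => F (sc r S (Function.update w i x))) =
        fun x : ℂ => F (Function.update (sc r S w) i ((r : ℂ) * x)) := by
      funext x; rw [sc_update hi]
    rw [h2]
    have h3 : HasDerivAt (fun x : ℂ => (r : ℂ) * x) (r : ℂ) (w i) := by
      simpa using (hasDerivAt_id (w i)).const_mul (r : ℂ)
    have h4 : HasDerivAt (fun x : ℂ => Function.update (sc r S w) i ((r : ℂ) * x))
        ((r : ℂ) • (Pi.single i (1 : ℂ) : Fin g → ℂ)) (w i) :=
      (hasDerivAt_update (sc r S w) i ((r : ℂ) * w i)).scomp (w i) h3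
    have h5 : Function.update (sc r S w) i ((r : ℂ) * w i) = sc r S w := by
      rw [← hw, Function.update_eq_self]
    have h6 : HasFDerivAt F (fderiv ℂ F (sc r S w))
        (Function.update (sc r S w) i ((r : ℂ) * w i)) := by
      rw [h5]; exact (hF _).hasFDerivAt
    have h7 := h6.comp_hasDerivAt (w i) h4
    rw [map_smul, smul_eq_mul] at h7
    exact h7
  have hφ : HasDerivAt (fun x : ℂ => a * F (sc r S (Function.update w i x)) / N - G x)
      (a * ((r : ℂ) * fderiv ℂ F (sc r S w) (Pi.single i 1)) / N - G') (w i) :=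
    ((h1.const_mul a).div_const N).sub hG
  have hd : Differentiable ℂ
      (fun x : ℂ => a * F (sc r S (Function.update w i x)) / N - G x) := by
    have h2 : (fun x : ℂ => F (sc r S (Function.update w i x))) =
        fun x : ℂ => F (Function.update (sc r S w) i ((r : ℂ) * x)) := by
      funext x; rw [sc_update hi]
    have h3 : Differentiable ℂ (fun x : ℂ => F (sc r S (Function.update w i x))) := by
      rw [h2]
      exact hF.comp ((diff_update (sc r S w) i).comp (by fun_prop))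
    exact ((h3.const_mul a).div_const N).sub hGd
  have h8 := Complex.norm_deriv_le_of_forall_mem_sphere_norm_le (c := w i) (R := 1) (C := κ)
    one_pos hd.diffContOnCl (fun z hz => hb z (by rwa [mem_sphere_iff_norm] at hz))
  rwa [hφ.deriv, div_one] at h8

private lemma norm_le_of_sphere {ρ : ℝ} {S : Finset (Fin g)} {w : Fin g → ℂ} {i : Fin g}
    (hw : ∀ i ∈ S, ‖w i‖ ≤ ρ) (hi : i ∈ S) {x : ℂ} (hx : ‖x - w i‖ = 1) :
    ∀ j ∈ S, ‖Function.update w i x j‖ ≤ ρ + 1 := by
  intro j hj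
  by_cases h : j = i
  · subst h
    rw [Function.update_self]
    have h1 : ‖x‖ ≤ ‖x - w j‖ + ‖w j‖ := by
      have := norm_add_le (x - w j) (w j)
      rwa [sub_add_cancel] at this
    have := hw j hj
    linarith
  · rw [Function.update_of_ne h]
    have := hw j hj
    linarith

theorem Sq.approx1 (C : Sq g m) (S : Finset (Fin g)) {ρ κ : ℝ} (hρ : 0 ≤ ρ) (hκ : 0 < κ) :
    ∃ R > 0, ∀ᶠ n in (C.U : Filter ℕ), ∀ w : Fin g → ℂ, (∀ i ∈ S, ‖w i‖ ≤ ρ) →
      (∀ k, k ∉ S → w k ∈ Gs (C.τ n k k) ∧ R * C.r n ≤ ‖w k‖) → ∀ i ∈ S,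
      ‖(C.r n : ℂ) * pf (C.τ n) i (sc (C.r n) S w) / nrm (C.τ n) (C.r n) S w -
        mu C.b (S.erase i) w‖ ≤ κ := by
  obtain ⟨R, hR, h⟩ := C.approx S (ρ := ρ + 1) (by linarith) hκ
  refine ⟨R, hR, ?_⟩
  filter_upwards [h] with n hn w hw1 hw2 i hi
  have hG := mu_deriv C.b C.sym hi w
  have hGd : Differentiable ℂ (fun x : ℂ => mu C.b S (Function.update w i x)) :=
    (mu_diff C.b S).comp (diff_update w i)
  have key := cauchy_aux (ff_diff (C.siegel n)) hGd hi (r := C.r n) (a := 1)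
    (N := nrm (C.τ n) (C.r n) S w) (κ := κ) hG ?_
  · rwa [one_mul] at key
  · intro x hx
    have h1 := hn (Function.update w i x) (norm_le_of_sphere hw1 hi hx) ?_
    · rwa [nrm_update hi, ← one_mul (ff _ _)] at h1
    · intro k hk
      have hki : k ≠ i := by
        rintro rfl
        exact hk hi
      rw [Function.update_of_ne hki]
      exact hw2 k hk

theorem Sq.approx2 (C : Sq g m) (S : Finset (Fin g)) {ρ κ : ℝ} (hρ : 0 ≤ ρ) (hκ : 0 < κ) :
    ∃ R > 0, ∀ᶠ n in (C.U : Filter ℕ), ∀ w : Fin g → ℂ, (∀ i ∈ S, ‖w i‖ ≤ ρ) →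
      (∀ k, k ∉ S → w k ∈ Gs (C.τ n k k) ∧ R * C.r n ≤ ‖w k‖) → ∀ i ∈ S, ∀ j ∈ S,
      ‖(C.r n : ℂ) ^ 2 * pf2 (C.τ n) i j (sc (C.r n) S w) / nrm (C.τ n) (C.r n) S w -
        Hs C.b S w i j‖ ≤ κ := by
  obtain ⟨R, hR, h⟩ := C.approx1 S (ρ := ρ + 1) (by linarith) hκ
  refine ⟨R, hR, ?_⟩
  filter_upwards [h] with n hn w hw1 hw2 i hi j hj
  have hG : HasDerivAt (fun x : ℂ => mu C.b (S.erase j) (Function.update w i x))
      (Hs C.b S w i j) (w i) := by
    by_cases hij : i = j
    · subst hij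
      have h1 : (fun x : ℂ => mu C.b (S.erase i) (Function.update w i x)) =
          fun _ : ℂ => mu C.b (S.erase i) w := by
        funext x
        apply mu_congr
        intro k hk
        rw [Function.update_of_ne (Finset.ne_of_mem_erase hk)]
      rw [h1, Hs, if_pos rfl]
      exact hasDerivAt_const _ _
    · rw [Hs, if_neg hij, Finset.erase_right_comm]
      exact mu_deriv C.b C.sym (Finset.mem_erase.2 ⟨hij, hi⟩) w
  have hGd : Differentiable ℂ (fun x : ℂ => mu C.b (S.erase j) (Function.update w i x)) :=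
    (mu_diff C.b _).comp (diff_update w i)
  have key := cauchy_aux (pf_diff (C.siegel n) j) hGd hi (r := C.r n) (a := (C.r n : ℂ))
    (N := nrm (C.τ n) (C.r n) S w) (κ := κ) hG ?_
  · have h2 : (C.r n : ℂ) * ((C.r n : ℂ) * fderiv ℂ (pf (C.τ n) j) (sc (C.r n) S w)
        (Pi.single i 1)) = (C.r n : ℂ) ^ 2 * pf2 (C.τ n) i j (sc (C.r n) S w) := by
      rw [pf2]; ring
    rwa [h2] at key
  · intro x hx
    have h1 := hn (Function.update w i x) (norm_le_of_sphere hw1 hi hx) ?_ j hj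
    · rwa [nrm_update hi] at h1
    · intro k hk
      have hki : k ≠ i := by
        rintro rfl
        exact hk hi
      rw [Function.update_of_ne hki]
      exact hw2 k hk

end AMP
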