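import Pool.Agent.Lib.MP_b57e3c_ag_P.Defs

set_option autoImplicit false

/-!
# Module Gr : the parallelograms, lower bounds for the elliptic theta function

`xx s u`, `yy s u` are continuous in `(s, u)` for `Im s > 0`; `u = xx s u + yy s u * s`. `Go s`
is the intersection of preimages of intervals under continuous real-linear functions of `u`.
`gs_zero`: `vt_zero_iff`: `u = m + n s`, `xx s u = m`, `yy s u = n`, both of absolute value `≤
3/4`. `vt_low`: the function `ψ(s, u) = vt s u / u` for `u ≠ 0`, `ψ(s, 0) = dv s`, is continuous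
at all points with `Im s > 0` (`vt s u = vt s u - vt s 0 = u ∫_0^1 ∂_u vt(s, x u) dx`, and `vt`,
`∂_u vt` are jointly continuous: `vt_eq` and `hasFDerivAt_jacobiTheta₂`,
`continuousAt_jacobiTheta₂`, or Cauchy's formula; alternatively use `dslope`). On the compact set
`{(s, u) | ‖s - s0‖ ≤ κ, u ∈ Gs s}` (`κ = Im s0 / 2`; closed and bounded) it has no zero
(`gs_zero`, `dv_ne`), so `‖ψ‖ ≥ c > 0`. `ann_preconn`: the set `A = {u ∈ Go s | ρ < ‖u‖}`: choose
`ρ' > ρ` with `closedBall 0 ρ' ⊆ Go s`. For `u ∈ A` the segment `{x u | x between 1 and ρ'/‖u‖}`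
is contained in `A` (`Go s` is convex and contains `0`: for `x ≤ 1`; for `x ≥ 1` the points have
norm `≤ ρ'`), and ends at the circle of radius `ρ'`, which is connected and contained in `A`
(`isPreconnected_sphere` for real dimension 2, or the image of `ℝ` under `ρ' exp (i x)`). Use
`isPreconnected_of_forall`.
-/

open Complex Filter Topology Metric

namespace AMP

theorem xx_add_yy {s : ℂ} (hs : 0 < s.im) (u : ℂ) : (xx s u : ℂ) + (yy s u : ℂ) * s = u := by
  have h : s.im ≠ 0 := hs.ne'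
  apply Complex.ext
  · simp only [xx, yy, Complex.add_re, Complex.ofReal_re, Complex.mul_re, Complex.ofReal_im]
    ring
  · simp only [xx, yy, Complex.add_im, Complex.ofReal_im, Complex.mul_im, Complex.ofReal_re]
    field_simp
    ring

/-- coordinates of `x + y s` -/
theorem xx_yy_eq {s : ℂ} (hs : 0 < s.im) (x y : ℝ) :
    xx s ((x : ℂ) + (y : ℂ) * s) = x ∧ yy s ((x : ℂ) + (y : ℂ) * s) = y := by
  have h : s.im ≠ 0 := hs.ne'
  constructor
  · simp only [xx, Complex.add_re, Complex.ofReal_re, Complex.mul_re, Complex.ofReal_im,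
      Complex.add_im, Complex.mul_im]
    field_simp
    ring
  · simp only [yy, Complex.ofReal_re, Complex.ofReal_im, Complex.add_im, Complex.mul_im]
    field_simp
    ring

private theorem grA_lin (s u v : ℂ) (a b : ℝ) :
    xx s (a • u + b • v) = a * xx s u + b * xx s v ∧
      yy s (a • u + b • v) = a * yy s u + b * yy s v := by
  constructor
  · simp only [xx, Complex.add_re, Complex.add_im, Complex.real_smul, Complex.mul_re,
      Complex.mul_im, Complex.ofReal_re, Complex.ofReal_im]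
    ring
  · simp only [yy, Complex.add_im, Complex.real_smul, Complex.mul_im, Complex.ofReal_re,
      Complex.ofReal_im]
    ring

private theorem grA_xcont {s0 u0 : ℂ} (hs : 0 < s0.im) :
    ContinuousAt (fun p : ℂ × ℂ => xx p.1 p.2) (s0, u0) := by
  unfold xx
  have h : ((s0, u0) : ℂ × ℂ).1.im ≠ 0 := hs.ne'
  have h1 : ContinuousAt (fun p : ℂ × ℂ => p.2.re) (s0, u0) := by fun_prop
  have h2 : ContinuousAt (fun p : ℂ × ℂ => p.2.im) (s0, u0) := by fun_prop
  have h3 : ContinuousAt (fun p : ℂ × ℂ => p.1.im) (s0, u0) := by fun_prop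
  have h4 : ContinuousAt (fun p : ℂ × ℂ => p.1.re) (s0, u0) := by fun_prop
  exact h1.sub ((h2.div h3 h).mul h4)

private theorem grA_ycont {s0 u0 : ℂ} (hs : 0 < s0.im) :
    ContinuousAt (fun p : ℂ × ℂ => yy p.1 p.2) (s0, u0) := by
  unfold yy
  have h : ((s0, u0) : ℂ × ℂ).1.im ≠ 0 := hs.ne'
  have h2 : ContinuousAt (fun p : ℂ × ℂ => p.2.im) (s0, u0) := by fun_prop
  have h3 : ContinuousAt (fun p : ℂ × ℂ => p.1.im) (s0, u0) := by fun_prop
  exact h2.div h3 h

theorem isOpen_Go {s : ℂ} (hs : 0 < s.im) : IsOpen (Go s) := by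
  have _ := hs
  have h1 : Continuous (fun u : ℂ => xx s u) := by
    unfold xx
    fun_prop
  have h2 : Continuous (fun u : ℂ => yy s u) := by
    unfold yy
    fun_prop
  exact (isOpen_lt h1.abs continuous_const).inter (isOpen_lt h2.abs continuous_const)

private theorem grA_comb {a b x y : ℝ} (ha : 0 ≤ a) (hb : 0 ≤ b) (hab : a + b = 1)
    (hx : |x| < 3 / 4) (hy : |y| < 3 / 4) : |a * x + b * y| < 3 / 4 := by
  have h1 : |a * x + b * y| ≤ a * |x| + b * |y| := by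
    refine (abs_add_le _ _).trans ?_
    rw [abs_mul, abs_mul, abs_of_nonneg ha, abs_of_nonneg hb]
  have h2 : a * |x| ≤ a * max |x| |y| := mul_le_mul_of_nonneg_left (le_max_left _ _) ha
  have h3 : b * |y| ≤ b * max |x| |y| := mul_le_mul_of_nonneg_left (le_max_right _ _) hb
  have h4 : max |x| |y| < 3 / 4 := max_lt hx hy
  calc |a * x + b * y| ≤ a * |x| + b * |y| := h1
    _ ≤ a * max |x| |y| + b * max |x| |y| := add_le_add h2 h3
    _ = max |x| |y| := by rw [← add_mul, hab, one_mul]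
    _ < 3 / 4 := h4

theorem convex_Go {s : ℂ} (hs : 0 < s.im) : Convex ℝ (Go s) := by
  have _ := hs
  intro u hu v hv a b ha hb hab
  obtain ⟨h1, h2⟩ := grA_lin s u v a b
  refine ⟨?_, ?_⟩
  · rw [h1]
    exact grA_comb ha hb hab hu.1 hv.1
  · rw [h2]
    exact grA_comb ha hb hab hu.2 hv.2

theorem bounded_Gs {s0 : ℂ} (hs : 0 < s0.im) :
    ∃ R : ℝ, ∀ᶠ s in 𝓝 s0, ∀ u ∈ Gs s, ‖u‖ ≤ R := by
  refine ⟨3 / 4 + 3 / 4 * (‖s0‖ + 1), ?_⟩
  have h1 : ∀ᶠ s in 𝓝 s0, 0 < s.im := (Complex.continuous_im.tendsto s0).eventually_const_lt hs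
  have h2 : ∀ᶠ s in 𝓝 s0, ‖s‖ < ‖s0‖ + 1 :=
    (continuous_norm.tendsto s0).eventually_lt_const (lt_add_one _)
  filter_upwards [h1, h2] with s h3 h4 u hu
  rw [← xx_add_yy h3 u]
  refine (norm_add_le _ _).trans ?_
  rw [norm_mul, Complex.norm_real, Complex.norm_real, Real.norm_eq_abs, Real.norm_eq_abs]
  refine add_le_add hu.1 (mul_le_mul hu.2 h4.le (norm_nonneg _) (by norm_num))

/-- `u ∈ Go s` is an open condition on `(s, u)` -/
theorem eventually_Go {s0 u0 : ℂ} (hs : 0 < s0.im) (hu : u0 ∈ Go s0) :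
    ∀ᶠ p : ℂ × ℂ in 𝓝 (s0, u0), p.2 ∈ Go p.1 := by
  have h1 : ∀ᶠ p : ℂ × ℂ in 𝓝 (s0, u0), |xx p.1 p.2| < 3 / 4 :=
    (grA_xcont (u0 := u0) hs).abs.tendsto.eventually_lt_const hu.1
  have h2 : ∀ᶠ p : ℂ × ℂ in 𝓝 (s0, u0), |yy p.1 p.2| < 3 / 4 :=
    (grA_ycont (u0 := u0) hs).abs.tendsto.eventually_lt_const hu.2
  filter_upwards [h1, h2] with p h3 h4
  exact ⟨h3, h4⟩

/-- `u ∈ Gs s` is a closed condition -/
theorem limit_Gs {ι : Type*} {l : Filter ι} [l.NeBot] {s0 u0 : ℂ} (hs : 0 < s0.im)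
    {s u : ι → ℂ} (h1 : Tendsto s l (𝓝 s0)) (h2 : Tendsto u l (𝓝 u0))
    (h : ∀ᶠ n in l, u n ∈ Gs (s n)) : u0 ∈ Gs s0 := by
  have h3 : Tendsto (fun n => (s n, u n)) l (𝓝 (s0, u0)) := h1.prodMk_nhds h2
  have h4 := (grA_xcont (u0 := u0) hs).abs.tendsto.comp h3
  have h5 := (grA_ycont (u0 := u0) hs).abs.tendsto.comp h3
  exact ⟨le_of_tendsto h4 (h.mono fun n hn => hn.1), le_of_tendsto h5 (h.mono fun n hn => hn.2)⟩

theorem ann_preconn {s : ℂ} (hs : 0 < s.im) {ρ : ℝ} (h0 : 0 ≤ ρ)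
    (hρ : ∃ ρ' > ρ, closedBall (0 : ℂ) ρ' ⊆ Go s) :
    IsPreconnected {u : ℂ | u ∈ Go s ∧ ρ < ‖u‖} := by
  obtain ⟨ρ', h1, h2⟩ := hρ
  have hpos : 0 < ρ' := lt_of_le_of_lt h0 h1
  have hsph : sphere (0 : ℂ) ρ' ⊆ {u : ℂ | u ∈ Go s ∧ ρ < ‖u‖} := by
    intro z hz
    rw [mem_sphere_zero_iff_norm] at hz
    exact ⟨h2 (by rw [mem_closedBall_zero_iff, hz]), by rw [hz]; exact h1⟩
  have hn : ‖(ρ' : ℂ)‖ = ρ' := by
    rw [Complex.norm_real, Real.norm_eq_abs, abs_of_pos hpos]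
  refine isPreconnected_of_forall (ρ' : ℂ) fun u hu => ?_
  obtain ⟨hu1, hu2⟩ := hu
  have hu0 : 0 < ‖u‖ := lt_of_le_of_lt h0 hu2
  have hw : ‖(ρ' / ‖u‖) • u‖ = ρ' := by
    rw [norm_smul, Real.norm_eq_abs, abs_of_pos (div_pos hpos hu0), div_mul_cancel₀ _ hu0.ne']
  have hwG : (ρ' / ‖u‖) • u ∈ Go s := h2 (by rw [mem_closedBall_zero_iff, hw])
  refine ⟨segment ℝ u ((ρ' / ‖u‖) • u) ∪ sphere 0 ρ', ?_, ?_, ?_, ?_⟩
  · refine Set.union_subset ?_ hsph
    intro z hz
    refine ⟨(convex_Go hs).segment_subset hu1 hwG hz, ?_⟩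
    obtain ⟨a, b, ha, hb, hab, rfl⟩ := hz
    have h3 : a • u + b • (ρ' / ‖u‖) • u = (a + b * (ρ' / ‖u‖)) • u := by
      rw [add_smul, mul_smul]
    have h4 : 0 ≤ a + b * (ρ' / ‖u‖) := add_nonneg ha (mul_nonneg hb (div_pos hpos hu0).le)
    rw [h3, norm_smul, Real.norm_eq_abs, abs_of_nonneg h4, add_mul, mul_assoc,
      div_mul_cancel₀ _ hu0.ne']
    have h5 : a * ρ ≤ a * ‖u‖ := mul_le_mul_of_nonneg_left hu2.le ha
    have h6 : b * ρ ≤ b * ρ' := mul_le_mul_of_nonneg_left h1.le hb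
    rcases eq_or_lt_of_le ha with h7 | h7
    · have hb1 : b = 1 := by rw [← h7, zero_add] at hab; exact hab
      rw [← h7, hb1, zero_mul, zero_add, one_mul]
      exact h1
    · have h8 : a * ρ < a * ‖u‖ := mul_lt_mul_of_pos_left hu2 h7
      calc ρ = a * ρ + b * ρ := by rw [← add_mul, hab, one_mul]
        _ < a * ‖u‖ + b * ρ' := add_lt_add_of_lt_of_le h8 h6
  · exact Or.inr (by rw [mem_sphere_zero_iff_norm, hn])
  · exact Or.inl (left_mem_segment ℝ _ _)
  · refine IsPreconnected.union ((ρ' / ‖u‖) • u) (right_mem_segment ℝ _ _) ?_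
      (convex_segment _ _).isPreconnected ?_
    · rw [mem_sphere_zero_iff_norm, hw]
    · refine isPreconnected_sphere ?_ 0 ρ'
      rw [Complex.rank_real_complex]
      norm_num

end AMP
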