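import Pool.Agent.Lib.MP_b57e3c_ag_P.Sl
import Pool.Agent.Lib.MP_b57e3c_ag_P.GrA
import Pool.Agent.Lib.MP_b57e3c_ag_M.Crd

set_option autoImplicit false

/-!
# Module Bx : the limit set meets the fundamental parallelograms

`box_pt`: take `z ∈ M n`, `u = z - c1 τ`. Translating `z` by `τ k` (`inv2`, `yc_add_tau`) with
`k i = - round (yc τ i u)` we may assume `|yc τ i u| ≤ 1/2` (`abs_sub_round`). Put `y i = yc τ i
u`, `x i = Re (u i - ∑_j τ i j y j)`; `im_eq` shows that `u i - ∑_j τ i j y j` is real.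
Translating by an integer vector (`inv1`, `yc_add_int`) we may assume `|x i| ≤ 1/2`.
`Sq.box`: for every `n` take `x n, y n` from `box_pt`; they lie in the compact cube, so they
converge along `U` to `x', y'` with `|x' i|, |y' i| ≤ 1/2`. `u n i = x n i + ∑_j τ n i j y n j →
z i := x' i + σ i y' i`, since `τ n i i → σ i` and `τ n i j → 0` for `i ≠ j`
(`τ_ij = (τ_ij/(2 π i r²)) * (2 π i r²)`, `C.off`, `C.rlim`). `u n ∈ N n ∅` (`sc r ∅ w = w`), so
`z ∈ Lim ∅` (`UL_mem`), and `xx (σ i) (z i) = x' i`, `yy (σ i) (z i) = y' i` (`xx_yy_eq`).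
-/

open Complex Filter Topology

namespace AMP

open AMC

variable {g m : ℕ}

theorem box_pt (C : Sq g m) (n : ℕ) : ∃ x y : Fin g → ℝ, (∀ i, |x i| ≤ 1 / 2 ∧ |y i| ≤ 1 / 2) ∧
    c1 (C.τ n) + (fun i => (x i : ℂ) + ∑ j, C.τ n i j * (y j : ℂ)) ∈ C.M n := by
  have hτ := C.siegel n
  obtain ⟨z, hz⟩ := C.ne n
  set u : Fin g → ℂ := fun i => z i - c1 (C.τ n) i with hu
  set k : Fin g → ℤ := fun i => -round (yc (C.τ n) i u) with hk
  have hz1 := C.inv2 n z hz k
  set z1 : Fin g → ℂ := fun i => z i + ∑ j, C.τ n i j * (k j : ℂ) with hz1d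
  set u1 : Fin g → ℂ := fun i => u i + ∑ j, C.τ n i j * (k j : ℂ) with hu1
  set y : Fin g → ℝ := fun i => yc (C.τ n) i u1 with hy
  have hyb : ∀ i, |y i| ≤ 1 / 2 := by
    intro i
    have h1 : y i = yc (C.τ n) i u + k i := yc_add_tau hτ i u k
    rw [h1, hk]
    push_cast
    rw [← sub_eq_add_neg]
    exact abs_sub_round _
  set w : Fin g → ℂ := fun i => u1 i - ∑ j, C.τ n i j * (y j : ℂ) with hw
  have hwim : ∀ i, (w i).im = 0 := by
    intro i
    have h1 := im_eq hτ i u1
    have h2 : (∑ j, C.τ n i j * (y j : ℂ)).im = ∑ j, (C.τ n i j).im * y j := by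
      rw [Complex.im_sum]
      exact Finset.sum_congr rfl fun j _ => by rw [Complex.im_mul_ofReal]
    rw [hw]
    simp only [Complex.sub_im]
    rw [h2, h1]
    exact sub_self _
  have hwre : ∀ i, w i = ((w i).re : ℂ) := by
    intro i
    apply Complex.ext
    · simp
    · rw [hwim, Complex.ofReal_im]
  set l : Fin g → ℤ := fun i => -round ((w i).re) with hl
  have hz2 := C.inv1 n z1 hz1 l
  refine ⟨fun i => (w i).re + l i, y, fun i => ⟨?_, hyb i⟩, ?_⟩
  · rw [hl]
    push_cast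
    rw [← sub_eq_add_neg]
    exact abs_sub_round _
  · convert hz2 using 1
    funext i
    rw [Pi.add_apply]
    push_cast
    rw [← hwre i, hw, hz1d, hu1, hu]
    ring

private theorem Bx_lim (U : Ultrafilter ℕ) {f : ℕ → ℝ} (hf : ∀ n, |f n| ≤ 1 / 2) :
    ∃ a : ℝ, |a| ≤ 1 / 2 ∧ Tendsto f U (𝓝 a) := by
  have hc : IsCompact (Set.Icc (-(1 / 2) : ℝ) (1 / 2)) := isCompact_Icc
  rw [isCompact_iff_ultrafilter_le_nhds] at hc
  obtain ⟨a, ha, h⟩ := hc (U.map f) (by
    rw [Ultrafilter.coe_map, Filter.le_principal_iff, Filter.mem_map]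
    exact Filter.univ_mem' fun n => abs_le.1 (hf n))
  refine ⟨a, abs_le.2 ha, ?_⟩
  rwa [Ultrafilter.coe_map] at h

theorem Sq.box (C : Sq g m) : ∃ z ∈ C.Lim ∅, ∀ k, z k ∈ Go (C.σ k) := by
  choose x y hb hM using fun n => box_pt C n
  choose x' hx' hxt using fun i : Fin g => Bx_lim C.U (f := fun n => x n i) fun n => (hb n i).1
  choose y' hy' hyt using fun i : Fin g => Bx_lim C.U (f := fun n => y n i) fun n => (hb n i).2
  have hoff : ∀ i j, i ≠ j → Tendsto (fun n => C.τ n i j) C.U (𝓝 0) := by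
    intro i j hij
    have h1 : Tendsto (fun n => (2 * Real.pi * I * (C.r n : ℂ) ^ 2)) C.U (𝓝 0) := by
      have h2 : Tendsto (fun n => (C.r n : ℂ)) C.U (𝓝 ((0 : ℝ) : ℂ)) :=
        (Complex.continuous_ofReal.tendsto 0).comp C.rlim
      have h3 := (h2.pow 2).const_mul (2 * Real.pi * I)
      simpa using h3
    have h4 := (C.off i j hij).mul h1
    rw [mul_zero] at h4
    refine h4.congr fun n => ?_
    have hr : (C.r n : ℂ) ≠ 0 := by
      exact_mod_cast (C.rpos n).ne'
    have hp : (2 * Real.pi * I * (C.r n : ℂ) ^ 2) ≠ 0 := by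
      refine mul_ne_zero ?_ (pow_ne_zero _ hr)
      exact Complex.two_pi_I_ne_zero
    rw [div_mul_cancel₀ _ hp]
  have hent : ∀ i j, Tendsto (fun n => C.τ n i j) C.U (𝓝 (if j = i then C.σ i else 0)) := by
    intro i j
    by_cases h : j = i
    · subst h
      rw [if_pos rfl]
      exact C.diag j
    · rw [if_neg h]
      exact hoff i j (Ne.symm h)
  refine ⟨fun i => (x' i : ℂ) + (y' i : ℂ) * C.σ i, ?_, fun k => ?_⟩
  · rw [Sq.Lim_eq]
    refine UL_mem (q := fun n i => (x n i : ℂ) + ∑ j, C.τ n i j * (y n j : ℂ))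
      (Eventually.of_forall fun n => ?_) fun i => ?_
    · show c1 (C.τ n) + sc (C.r n) ∅ _ ∈ C.M n
      have h1 : ∀ v : Fin g → ℂ, sc (C.r n) ∅ v = v := by
        intro v
        funext i
        simp [sc]
      rw [h1]
      exact hM n
    · have h1 : Tendsto (fun n => ∑ j, C.τ n i j * (y n j : ℂ)) C.U
          (𝓝 (∑ j, (if j = i then C.σ i else 0) * (y' j : ℂ))) :=
        tendsto_finsetSum _ fun j _ =>
          (hent i j).mul ((Complex.continuous_ofReal.tendsto _).comp (hyt j))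
      have h2 : ∑ j, (if j = i then C.σ i else 0) * (y' j : ℂ) = (y' i : ℂ) * C.σ i := by
        rw [Finset.sum_eq_single i]
        · rw [if_pos rfl, mul_comm]
        · intro j _ hj
          rw [if_neg hj, zero_mul]
        · intro h
          exact absurd (Finset.mem_univ _) h
      rw [h2] at h1
      exact ((Complex.continuous_ofReal.tendsto _).comp (hxt i)).add h1
  · obtain ⟨h1, h2⟩ := xx_yy_eq (C.spos k) (x' k) (y' k)
    show |xx (C.σ k) _| < 3 / 4 ∧ |yy (C.σ k) _| < 3 / 4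
    rw [h1, h2]
    constructor
    · linarith [hx' k]
    · linarith [hy' k]

end AMP
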