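import Pool.Agent.Lib.MP_b57e3c_ag_P.Defs
import Pool.Agent.Lib.MP_b57e3c_ag_M.Slc

set_option autoImplicit false

/-!
# Module Cs : complex slices

`testFn_cslice`: `φ z = (P z).re + HForm h z`, positive definite on `V`, `g + 1 ≤ finrank V + m`;
`‖ℓ z - s‖² = ‖ℓ z‖² - 2 Re (conj s * ℓ z) + ‖s‖²`, so the new function is
`(P z + 2 N conj s * ℓ z - N ‖s‖²).re + HForm h' z` with `HForm h' z = HForm h z - N ‖ℓ z‖²`
(`h' = h - N • (c c*)`-type matrix, `ℓ z = ∑ c_j z_j`), which is positive definite on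
`V ⊓ ker ℓ`, of dimension `≥ finrank V - 1`. Compare with the proof of `TestFn.slice` in
Lib/MP_b57e3c_ag_M/Tst.
`mp_cslice`: as `MP.slice` in Lib/MP_b57e3c_ag_M/Slc (copy the two private lemmas `Slc_pen`,
`Slc_main`), with the penalty `χ z = ‖ℓ z - s‖²`.
`mp_cslices`: induction on `K` (`Finset.induction_on`), `mp_cslice` with `ℓ = LinearMap.proj k`;
the set for `insert k K` is the intersection of the set for `K` with `{z k = s k}`.
-/

open Complex Filter Topology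

namespace AMP

open AMC

variable {g m : ℕ} {M : Set (Fin g → ℂ)}

/-- the penalty method -/
private theorem Cs_pen (hM : IsClosed M) {ψ χ : (Fin g → ℂ) → ℝ} (hψ : Continuous ψ)
    (hχ : Continuous χ) (hχ0 : ∀ z ∈ M, 0 ≤ χ z) {p : Fin g → ℂ} (hp : p ∈ M) (hχp : χ p = 0)
    {r : ℝ} (hr : 0 < r) (hlt : ∀ z ∈ M, χ z = 0 → dist z p = r → ψ z < ψ p) :
    ∃ N : ℕ, ∃ z ∈ M, IsLocalMaxOn (fun z => ψ z - N * χ z) M z := by
  by_contra hcon
  push Not at hcon
  have hK : IsCompact (M ∩ Metric.closedBall p r) :=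
    (isCompact_closedBall p r).inter_left hM
  have hcN : ∀ N : ℕ, Continuous (fun z => ψ z - N * χ z) := fun N =>
    hψ.sub (continuous_const.mul hχ)
  have hpK : p ∈ M ∩ Metric.closedBall p r := ⟨hp, Metric.mem_closedBall_self hr.le⟩
  have key : ∀ N : ℕ, ∃ z ∈ M, dist z p = r ∧ ψ p ≤ ψ z - N * χ z := by
    intro N
    obtain ⟨z, hz, hmax⟩ := hK.exists_isMaxOn ⟨p, hpK⟩ (hcN N).continuousOn
    have h1 : ψ p ≤ ψ z - N * χ z := by
      have h2 : ψ p - N * χ p ≤ ψ z - N * χ z := hmax hpK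
      rw [hχp, mul_zero, sub_zero] at h2
      exact h2
    refine ⟨z, hz.1, ?_, h1⟩
    refine le_antisymm hz.2 (not_lt.1 fun hlt' => hcon N z hz.1 ?_)
    have h3 : Metric.closedBall p r ∈ 𝓝 z :=
      mem_of_superset (Metric.isOpen_ball.mem_nhds hlt') Metric.ball_subset_closedBall
    have h4 : M ∩ Metric.closedBall p r ∈ 𝓝[M] z :=
      inter_mem self_mem_nhdsWithin (mem_nhdsWithin_of_mem_nhds h3)
    exact mem_of_superset h4 fun w hw => hmax hw
  have hne : (⋂ N : ℕ, (M ∩ Metric.sphere p r) ∩ {z | ψ p ≤ ψ z - N * χ z}).Nonempty := by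
    refine IsCompact.nonempty_iInter_of_sequence_nonempty_isCompact_isClosed _ ?_ ?_ ?_ ?_
    · rintro N z ⟨hz, hz'⟩
      refine ⟨hz, ?_⟩
      have h1 : ψ p ≤ ψ z - ((N + 1 : ℕ) : ℝ) * χ z := hz'
      have h2 := hχ0 z hz.1
      push_cast at h1
      change ψ p ≤ ψ z - N * χ z
      linarith
    · intro N
      obtain ⟨z, hz, hzr, h1⟩ := key N
      exact ⟨z, ⟨hz, hzr⟩, h1⟩
    · exact ((isCompact_sphere p r).inter_left hM).inter_right
        (isClosed_le continuous_const (hcN 0))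
    · intro N
      exact (hM.inter Metric.isClosed_sphere).inter (isClosed_le continuous_const (hcN N))
  obtain ⟨z, hz⟩ := hne
  rw [Set.mem_iInter] at hz
  have hzM : z ∈ M := (hz 0).1.1
  have hzr : dist z p = r := (hz 0).1.2
  have hall : ∀ N : ℕ, ψ p ≤ ψ z - N * χ z := fun N => (hz N).2
  have hz0 : χ z = 0 := by
    refine le_antisymm (not_lt.1 fun hpos => ?_) (hχ0 z hzM)
    obtain ⟨N, hN⟩ := exists_nat_gt ((ψ z - ψ p) / χ z)
    have h1 := hall N
    rw [div_lt_iff₀ hpos] at hN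
    linarith
  have h1 := hall 0
  rw [hz0, mul_zero, sub_zero] at h1
  exact absurd (hlt z hzM hz0 hzr) (not_lt.2 h1)

private theorem Cs_nsq_zero : nsq (0 : Fin g → ℂ) = 0 := by
  unfold nsq
  simp

private theorem Cs_nsq_pos {z : Fin g → ℂ} (hz : z ≠ 0) : 0 < nsq z := by
  unfold nsq
  obtain ⟨i, hi⟩ := Function.ne_iff.1 hz
  refine Finset.sum_pos' (fun j _ => sq_nonneg _) ⟨i, Finset.mem_univ i, ?_⟩
  exact pow_pos (norm_pos_iff.2 hi) 2

/-- the common part of the two proofs -/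
private theorem Cs_main (hM : IsClosed M) {φ χ : (Fin g → ℂ) → ℝ} (hφ : TestFn m φ)
    (hχ : Continuous χ) (hχ0 : ∀ z ∈ M, 0 ≤ χ z) {S : Set (Fin g → ℂ)}
    (hS : ∀ z, z ∈ S ↔ z ∈ M ∧ χ z = 0) {p : Fin g → ℂ} (hp : p ∈ S)
    (hmax : IsLocalMaxOn φ S p) : ∃ δ : ℝ, TestFn m (fun z => φ z - δ * nsq (z - p)) ∧
    ∃ N : ℕ, ∃ z ∈ M, IsLocalMaxOn (fun z => φ z - δ * nsq (z - p) - N * χ z) M z := by
  obtain ⟨δ, hδ, hst⟩ := hφ.strict
  refine ⟨δ, hst p, ?_⟩
  obtain ⟨ε, hε, hb⟩ := Metric.mem_nhdsWithin_iff.1 hmax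
  have hpS := (hS p).1 hp
  refine Cs_pen hM (hst p).continuous hχ hχ0 hpS.1 hpS.2 (half_pos hε) ?_
  intro z hz hz0 hzr
  have h1 : φ z ≤ φ p := hb ⟨by rw [Metric.mem_ball, hzr]; exact half_lt_self hε,
    (hS z).2 ⟨hz, hz0⟩⟩
  have hne : z - p ≠ 0 := by
    intro h2
    rw [sub_eq_zero.1 h2, dist_self] at hzr
    linarith
  have h3 := Cs_nsq_pos hne
  have h4 := mul_pos hδ h3
  rw [sub_self, Cs_nsq_zero, mul_zero, sub_zero]
  linarith

theorem testFn_cslice {φ : (Fin g → ℂ) → ℝ} (hφ : TestFn m φ) (ℓ : (Fin g → ℂ) →ₗ[ℂ] ℂ)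
    (N : ℕ) (s : ℂ) : TestFn (m + 1) (fun z => φ z - N * ‖ℓ z - s‖ ^ 2) := by
  obtain ⟨P, h, V, hP, hφ, hV, hpos⟩ := hφ
  have hℓ := Tst_lin_diff ℓ
  refine ⟨fun z => P z + (((2 * N : ℝ) : ℂ) * ((starRingEnd ℂ) s * ℓ z) -
      ((N * Complex.normSq s : ℝ) : ℂ)),
    h - ((N : ℝ) : ℂ) •
      (Matrix.of fun i j => (starRingEnd ℂ) (ℓ (Pi.single i 1)) * ℓ (Pi.single j 1)),
    V ⊓ LinearMap.ker ℓ, ?_, fun z => ?_, ?_, fun v hv hv' => ?_⟩
  · refine hP.add ?_
    fun_prop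
  · beta_reduce
    rw [hφ, Tst_HForm_sub, Tst_HForm_rsmul, Tst_HForm_k, ← Complex.normSq_eq_norm_sq,
      Complex.normSq_sub, Complex.add_re, Complex.sub_re, Complex.re_ofReal_mul,
      Complex.ofReal_re, mul_comm ((starRingEnd ℂ) s)]
    ring
  · have := Tst_finrank ℓ V
    omega
  · rw [Tst_HForm_sub, Tst_HForm_rsmul, Tst_HForm_k]
    have h1 : ℓ v = 0 := LinearMap.mem_ker.1 (Submodule.mem_inf.1 hv).2
    rw [h1, map_zero, mul_zero, sub_zero]
    exact hpos v (Submodule.mem_inf.1 hv).1 hv'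

theorem mp_cslice (hM : IsClosed M) (h : MP (m + 1) M) (ℓ : (Fin g → ℂ) →ₗ[ℂ] ℂ) (s : ℂ) :
    MP m (M ∩ {z | ℓ z = s}) := by
  intro φ hφ p hp hmax
  have hℓ : Continuous fun z => ℓ z := ℓ.continuous_of_finiteDimensional
  obtain ⟨δ, hT, N, z, hz, hloc⟩ := Cs_main (χ := fun z => ‖ℓ z - s‖ ^ 2) hM hφ
    ((hℓ.sub continuous_const).norm.pow 2) (fun z _ => sq_nonneg _) (fun z => by
      rw [sq_eq_zero_iff, norm_eq_zero, sub_eq_zero]
      rfl) hp hmax
  exact h _ (testFn_cslice hT ℓ N s) z hz hloc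

theorem mp_cslices (K : Finset (Fin g)) (hM : IsClosed M) (h : MP (m + K.card) M)
    (s : Fin g → ℂ) : MP m (M ∩ {z | ∀ k ∈ K, z k = s k}) := by
  induction K using Finset.induction_on generalizing m with
  | empty =>
    have e : M ∩ {z : Fin g → ℂ | ∀ k ∈ (∅ : Finset (Fin g)), z k = s k} = M := by
      ext z
      simp
    rw [e]
    simpa using h
  | insert k K hk ih =>
    rw [Finset.card_insert_of_notMem hk] at h
    have h1 : MP (m + 1 + K.card) M := by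
      have e : m + (K.card + 1) = m + 1 + K.card := by ring
      rwa [e] at h
    have h2 := ih h1
    have hcl : IsClosed (M ∩ {z : Fin g → ℂ | ∀ k ∈ K, z k = s k}) := by
      refine hM.inter ?_
      simp only [Set.ofPred_forall]
      exact isClosed_iInter fun j => isClosed_iInter fun _ =>
        isClosed_eq (continuous_apply j) continuous_const
    have h3 := mp_cslice hcl h2 (LinearMap.proj k) (s k)
    have e : M ∩ {z : Fin g → ℂ | ∀ k ∈ K, z k = s k} ∩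
        {z | (LinearMap.proj k : (Fin g → ℂ) →ₗ[ℂ] ℂ) z = s k} =
        M ∩ {z | ∀ j ∈ insert k K, z j = s j} := by
      ext z
      simp only [Set.mem_inter_iff, Set.mem_ofPred_eq, LinearMap.proj_apply,
        Finset.forall_mem_insert]
      tauto
    rwa [e] at h3

end AMP
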