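import Pool.Agent.Lib.MP_b57e3c_ag_P.Sl
import Pool.Agent.Lib.MP_b57e3c_ag_P.GrA

set_option autoImplicit false

/-!
# Module Dd : the base of the tube

`small_mem`: `|xx s u| ≤ ‖u‖ (1 + |Re s| / Im s)`, `|yy s u| ≤ ‖u‖ / Im s`; these factors are
bounded for `s` near `σ k` (`Im (σ k) > 0`, `C.diag`, finitely many `k`).
`half_mem`: `xx s (1/2) = 1/2`, `yy s (1/2) = 0`, and the same bounds for `u - 1/2`
(`xx s`, `yy s` are additive in `u`); `‖u‖ ≥ 1/4` if `ρ ≤ 1/4`, and `R r n < 1/4` for most `n`.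
`Dn_open`: finite intersection of open conditions (`isOpen_Go`, `siegel_diag`, continuity of the
norm). `Dn_preconn`: `Dn = Set.pi univ (fun k => {u ∈ Go (τ n k k) | R r n < ‖u‖})`;
`isPreconnected_univ_pi` and `ann_preconn`: with `ρ` from `small_mem`, `R r n < ρ` for most `n`
(`C.rlim`), and `closedBall 0 ρ ⊆ Go (τ n k k)`.
-/

open Complex Filter Topology

namespace AMP

open AMC

variable {g m : ℕ}

theorem Dd_near (C : Sq g m) (c : ℂ) (hc : ∀ k, c ∈ Go (C.σ k)) :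
    ∃ ρ > 0, ∀ᶠ n in (C.U : Filter ℕ), ∀ k, ∀ u : ℂ, ‖u - c‖ ≤ ρ → u ∈ Go (C.τ n k k) := by
  have h1 : ∀ k : Fin g, ∀ᶠ ρ : ℝ in 𝓝[>] 0, ∀ᶠ n in (C.U : Filter ℕ), ∀ u : ℂ,
      ‖u - c‖ ≤ ρ → u ∈ Go (C.τ n k k) := by
    intro k
    obtain ⟨δ, hδ, h2⟩ := Metric.eventually_nhds_iff.1 (eventually_Go (C.spos k) (hc k))
    have h3 : ∀ᶠ n in (C.U : Filter ℕ), dist (C.τ n k k) (C.σ k) < δ :=
      (C.diag k) (Metric.ball_mem_nhds _ hδ)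
    have h4 : ∀ᶠ ρ : ℝ in 𝓝[>] 0, ρ < δ := nhdsWithin_le_nhds (gt_mem_nhds hδ)
    filter_upwards [h4] with ρ h5
    filter_upwards [h3] with n h6 u h7
    refine h2 (y := (C.τ n k k, u)) ?_
    rw [Prod.dist_eq]
    refine max_lt h6 ?_
    rw [dist_eq_norm]
    exact h7.trans_lt h5
  obtain ⟨ρ, h8, h9⟩ := ((eventually_all.2 h1).and
    (self_mem_nhdsWithin : ∀ᶠ ρ : ℝ in 𝓝[>] 0, ρ ∈ Set.Ioi (0 : ℝ))).exists
  exact ⟨ρ, h9, eventually_all.2 h8⟩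

theorem Dd_lim (C : Sq g m) (R : ℝ) {ρ : ℝ} (hρ : 0 < ρ) :
    ∀ᶠ n in (C.U : Filter ℕ), R * C.r n < ρ := by
  have h1 : Tendsto (fun n => R * C.r n) C.U (𝓝 (R * 0)) := C.rlim.const_mul R
  rw [mul_zero] at h1
  exact h1.eventually (gt_mem_nhds hρ)

/-- small points are in the parallelograms -/
theorem Sq.small_mem (C : Sq g m) : ∃ ρ > 0, ∀ᶠ n in (C.U : Filter ℕ), ∀ k, ∀ u : ℂ,
    ‖u‖ ≤ ρ → u ∈ Go (C.τ n k k) := by
  have h0 : ∀ k, (0 : ℂ) ∈ Go (C.σ k) := by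
    intro k
    simp only [Go, xx, yy, Set.mem_ofPred_eq, zero_re, zero_im]
    norm_num
  simpa only [sub_zero] using Dd_near C 0 h0

/-- points near `1/2` are in the parallelograms, away from zero -/
theorem Sq.half_mem (C : Sq g m) : ∃ ρ > 0, ∀ R : ℝ, ∀ᶠ n in (C.U : Filter ℕ), ∀ k, ∀ u : ℂ,
    ‖u - 1 / 2‖ ≤ ρ → u ∈ Go (C.τ n k k) ∧ R * C.r n < ‖u‖ := by
  have h0 : ∀ k, (1 / 2 : ℂ) ∈ Go (C.σ k) := by
    intro k
    have e1 : (1 / 2 : ℂ).re = 1 / 2 := by norm_num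
    have e2 : (1 / 2 : ℂ).im = 0 := by norm_num
    simp only [Go, xx, yy, Set.mem_ofPred_eq, e1, e2]
    norm_num [abs_lt]
  obtain ⟨ρ, hρ, h1⟩ := Dd_near C (1 / 2) h0
  refine ⟨min ρ (1 / 4), lt_min hρ (by norm_num), fun R => ?_⟩
  filter_upwards [h1, Dd_lim C R (show (0 : ℝ) < 1 / 4 by norm_num)] with n h2 h3 k u h4
  refine ⟨h2 k u (h4.trans (min_le_left _ _)), h3.trans_le ?_⟩
  have h5 : ‖u - 1 / 2‖ ≤ 1 / 4 := h4.trans (min_le_right _ _)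
  have h6 : ‖(1 / 2 : ℂ)‖ = 1 / 2 := by norm_num
  have h7 : ‖(1 / 2 : ℂ)‖ - ‖u‖ ≤ ‖u - 1 / 2‖ := by
    rw [norm_sub_rev]
    exact norm_sub_norm_le _ _
  linarith

theorem Sq.Dn_open (C : Sq g m) (n : ℕ) (S : Finset (Fin g)) (R : ℝ) :
    IsOpen (C.Dn n S R) := by
  have h1 : C.Dn n S R = ⋂ k : {k // k ∉ S},
      ((fun s : {k // k ∉ S} → ℂ => s k) ⁻¹' (Go (C.τ n k k)) ∩
        {s : {k // k ∉ S} → ℂ | R * C.r n < ‖s k‖}) := by
    ext s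
    rw [Set.mem_iInter]
    rfl
  rw [h1]
  refine isOpen_iInter_of_finite fun k => ?_
  have h2 : Continuous fun s : {k // k ∉ S} → ℂ => s k := continuous_apply k
  exact ((isOpen_Go (siegel_diag (C.siegel n) k)).preimage h2).inter
    (isOpen_lt continuous_const h2.norm)

theorem Sq.Dn_preconn (C : Sq g m) (S : Finset (Fin g)) {R : ℝ} (hR : 0 ≤ R) :
    ∀ᶠ n in (C.U : Filter ℕ), IsPreconnected (C.Dn n S R) := by
  obtain ⟨ρ, hρ, h1⟩ := C.small_mem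
  filter_upwards [h1, Dd_lim C R hρ] with n h2 h3
  have h4 : C.Dn n S R = Set.pi Set.univ
      (fun k : {k // k ∉ S} => {u : ℂ | u ∈ Go (C.τ n k k) ∧ R * C.r n < ‖u‖}) := by
    ext s
    simp only [Sq.Dn, Set.mem_ofPred_eq, Set.mem_univ_pi]
  rw [h4]
  refine isPreconnected_univ_pi fun k => ?_
  refine ann_preconn (siegel_diag (C.siegel n) k) (mul_nonneg hR (C.rpos n).le) ⟨ρ, h3, ?_⟩
  intro u hu
  exact h2 k u (mem_closedBall_zero_iff.1 hu)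

end AMP
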