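import Mathlib
import Pool.Agent.Lib.MP_b57e3c_ag_M.Defs

/-!
# MP_b57e3c_ag, project P (near products of elliptic curves) : definitions

* matchings and matching polynomials `mu`;
* the theta function with characteristic `(1,…,1)` and the odd elliptic theta function `vt`;
* sequences of period matrices tending to a diagonal one, their limit sets.
-/

open Complex Filter Topology

namespace AMP

open AMC

/-! ## matching polynomials -/

/-- the pairs `i < j` -/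
def prs (g : ℕ) : Finset (Fin g × Fin g) := Finset.univ.filter fun e => e.1 < e.2

/-- number of pairs of `A` which contain `i` -/
def dg {g : ℕ} (A : Finset (Fin g × Fin g)) (i : Fin g) : ℕ :=
  (A.filter fun e => e.1 = i ∨ e.2 = i).card

/-- `A` is a matching inside `S` -/
def IsMt {g : ℕ} (S : Finset (Fin g)) (A : Finset (Fin g × Fin g)) : Prop :=
  ∀ i, dg A i ≤ 1 ∧ (dg A i ≠ 0 → i ∈ S)

open Classical in
/-- matching polynomial `μ_S(v) = ∑_A ∏_{(i,j) ∈ A} b_ij ∏_{i ∈ S, not in A} v_i` -/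
noncomputable def mu {g : ℕ} (b : Fin g → Fin g → ℂ) (S : Finset (Fin g)) (v : Fin g → ℂ) : ℂ :=
  ∑ A ∈ (prs g).powerset, if IsMt S A then
    (∏ e ∈ A, b e.1 e.2) * ∏ i ∈ S.filter (fun i => dg A i = 0), v i else 0

/-- `v` is a singular zero of the matching polynomial (`∂_i μ_S = μ_{S - i}`) -/
def Sing {g : ℕ} (b : Fin g → Fin g → ℂ) (S : Finset (Fin g)) (v : Fin g → ℂ) : Prop :=
  mu b S v = 0 ∧ ∀ i ∈ S, mu b (S.erase i) v = 0

/-- second derivatives of `μ_S` (zero on the diagonal: `μ_S` is multiaffine) -/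
noncomputable def Hs {g : ℕ} (b : Fin g → Fin g → ℂ) (S : Finset (Fin g)) (v : Fin g → ℂ)
    (i j : Fin g) : ℂ :=
  if i = j then 0 else mu b ((S.erase i).erase j) v

/-- the Hessian of `μ_S` at `v` is invertible -/
def Nd {g : ℕ} (b : Fin g → Fin g → ℂ) (S : Finset (Fin g)) (v : Fin g → ℂ) : Prop :=
  ∀ x : Fin g → ℂ, (∀ i ∈ S, ∑ j ∈ S, Hs b S v i j * x j = 0) → ∀ i ∈ S, x i = 0

/-- the four indices are equianharmonic: `P + Q + R = 0` and `P Q + Q R + R P = 0` for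
`P = b_ij b_kl`, `Q = b_ik b_jl`, `R = b_il b_jk` -/
def Eqh {g : ℕ} (b : Fin g → Fin g → ℂ) (i j k l : Fin g) : Prop :=
  b i j * b k l + b i k * b j l + b i l * b j k = 0 ∧
  (b i j * b k l) * (b i k * b j l) + (b i k * b j l) * (b i l * b j k) +
    (b i l * b j k) * (b i j * b k l) = 0

/-- no equianharmonic quadruple -/
def NoEq {g : ℕ} (b : Fin g → Fin g → ℂ) : Prop :=
  ∀ i j k l : Fin g, i ≠ j → i ≠ k → i ≠ l → j ≠ k → j ≠ l → k ≠ l → ¬ Eqh b i j k l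

/-- determinant of two vectors of the plane -/
def dt (x y : ℂ × ℂ) : ℂ := x.1 * y.2 - x.2 * y.1

/-! ## theta functions -/

/-- the theta function with characteristic `(1,…,1)`, as a series over half-integers -/
noncomputable def ff {g : ℕ} (τ : Matrix (Fin g) (Fin g) ℂ) (u : Fin g → ℂ) : ℂ :=
  ∑' m : Fin g → ℤ, cexp (Real.pi * I * (∑ i, ∑ j, ((m i : ℂ) + 1 / 2) * τ i j *
    ((m j : ℂ) + 1 / 2)) + 2 * Real.pi * I * ∑ i, ((m i : ℂ) + 1 / 2) * (u i + 1 / 2))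

/-- the odd elliptic theta function -/
noncomputable def vt (s u : ℂ) : ℂ :=
  ∑' m : ℤ, cexp (Real.pi * I * s * ((m : ℂ) + 1 / 2) ^ 2 +
    2 * Real.pi * I * ((m : ℂ) + 1 / 2) * (u + 1 / 2))

/-- its derivative at the zero `u = 0` -/
noncomputable def dv (s : ℂ) : ℂ := deriv (vt s) 0

/-- the `m`-th term of the expansion of `ff`, for the set `A` of pairs -/
noncomputable def trm {g : ℕ} (τ : Matrix (Fin g) (Fin g) ℂ) (A : Finset (Fin g × Fin g))
    (u : Fin g → ℂ) (m : Fin g → ℤ) : ℂ :=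
  (∏ i, cexp (Real.pi * I * τ i i * ((m i : ℂ) + 1 / 2) ^ 2 + Real.pi * I * ((m i : ℂ) + 1 / 2))) *
  (∏ e ∈ A, Complex.sinh (2 * Real.pi * I * τ e.1 e.2 * ((m e.1 : ℂ) + 1 / 2) *
    ((m e.2 : ℂ) + 1 / 2))) *
  (∏ e ∈ prs g \ A, Complex.cosh (2 * Real.pi * I * τ e.1 e.2 * ((m e.1 : ℂ) + 1 / 2) *
    ((m e.2 : ℂ) + 1 / 2))) *
  ∏ i, (if Even (dg A i) then Complex.sinh (2 * Real.pi * I * ((m i : ℂ) + 1 / 2) * u i)
    else Complex.cosh (2 * Real.pi * I * ((m i : ℂ) + 1 / 2) * u i))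

/-- the part of `ff` belonging to the set `A` of pairs -/
noncomputable def FA {g : ℕ} (τ : Matrix (Fin g) (Fin g) ℂ) (A : Finset (Fin g × Fin g))
    (u : Fin g → ℂ) : ℂ := ∑' m : Fin g → ℤ, trm τ A u m

/-- first partial derivatives of `ff` -/
noncomputable def pf {g : ℕ} (τ : Matrix (Fin g) (Fin g) ℂ) (i : Fin g) (u : Fin g → ℂ) : ℂ :=
  fderiv ℂ (ff τ) u (Pi.single i 1)

/-- second partial derivatives of `ff` -/
noncomputable def pf2 {g : ℕ} (τ : Matrix (Fin g) (Fin g) ℂ) (i j : Fin g) (u : Fin g → ℂ) : ℂ :=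
  fderiv ℂ (pf τ j) u (Pi.single i 1)

/-- singular zeros of `ff` -/
def singF {g : ℕ} (τ : Matrix (Fin g) (Fin g) ℂ) : Set (Fin g → ℂ) :=
  {u | ff τ u = 0 ∧ ∀ i, pf τ i u = 0}

/-- the point of order two with characteristic `(1,…,1)` -/
noncomputable def c1 {g : ℕ} (τ : Matrix (Fin g) (Fin g) ℂ) : Fin g → ℂ :=
  fun i => ((∑ j, τ i j) + 1) / 2

/-- scaling of the coordinates in `S` by `r` -/
noncomputable def sc {g : ℕ} (r : ℝ) (S : Finset (Fin g)) (w : Fin g → ℂ) : Fin g → ℂ :=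
  fun i => if i ∈ S then (r : ℂ) * w i else w i

/-- the normalising factor -/
noncomputable def nrm {g : ℕ} (τ : Matrix (Fin g) (Fin g) ℂ) (r : ℝ) (S : Finset (Fin g))
    (w : Fin g → ℂ) : ℂ :=
  (r : ℂ) ^ S.card * (∏ i ∈ S, dv (τ i i)) * ∏ k ∈ Sᶜ, vt (τ k k) (w k)

/-- the matrix of second derivatives of the theta function at `p` -/
noncomputable def hes {g : ℕ} (τ : Matrix (Fin g) (Fin g) ℂ) (p : Fin g → ℂ) :
    Matrix (Fin g) (Fin g) ℂ :=
  Matrix.of fun i j => fderiv ℂ (fun z => fderiv ℂ (AM.theta τ) z (Pi.single j 1)) p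
    (Pi.single i 1)

/-! ## regions in the plane -/

/-- second real coordinate of `u = x + s y` -/
noncomputable def yy (s u : ℂ) : ℝ := u.im / s.im

/-- first real coordinate of `u = x + s y` -/
noncomputable def xx (s u : ℂ) : ℝ := u.re - u.im / s.im * s.re

/-- an open parallelogram, whose only lattice point is `0` -/
def Go (s : ℂ) : Set ℂ := {u | |xx s u| < 3 / 4 ∧ |yy s u| < 3 / 4}

/-- the closed parallelogram -/
def Gs (s : ℂ) : Set ℂ := {u | |xx s u| ≤ 3 / 4 ∧ |yy s u| ≤ 3 / 4}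

/-! ## sequences tending to a product of elliptic curves -/

/-- A sequence of period matrices tending to `diag σ` with `τ_ij / (2 π i r²) → b_ij ≠ 0`, and
closed sets `M n` of singular points of the theta divisor, invariant under the lattice, with the
maximum principle of dimension `m`. -/
structure Sq (g m : ℕ) where
  U : Ultrafilter ℕ
  τ : ℕ → Matrix (Fin g) (Fin g) ℂ
  r : ℕ → ℝ
  M : ℕ → Set (Fin g → ℂ)
  σ : Fin g → ℂ
  b : Fin g → Fin g → ℂ
  siegel : ∀ n, AM.Siegel (τ n)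
  rpos : ∀ n, 0 < r n
  rlim : Tendsto r U (𝓝 0)
  spos : ∀ i, 0 < (σ i).im
  diag : ∀ i, Tendsto (fun n => τ n i i) U (𝓝 (σ i))
  off : ∀ i j, i ≠ j → Tendsto (fun n => τ n i j / (2 * Real.pi * I * (r n : ℂ) ^ 2)) U
    (𝓝 (b i j))
  sym : ∀ i j, b i j = b j i
  ne0 : ∀ i j, i ≠ j → b i j ≠ 0
  closed : ∀ n, IsClosed (M n)
  mp : ∀ n, MP m (M n)
  sub : ∀ n, M n ⊆ AM.singTheta (τ n)
  ne : ∀ n, (M n).Nonempty
  inv1 : ∀ n, ∀ z ∈ M n, ∀ k : Fin g → ℤ, (fun i => z i + (k i : ℂ)) ∈ M n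
  inv2 : ∀ n, ∀ z ∈ M n, ∀ k : Fin g → ℤ, (fun i => z i + ∑ j, τ n i j * (k j : ℂ)) ∈ M n

variable {g m : ℕ}

/-- the set `M n`, scaled and centred: `w` such that `c1 + sc w ∈ M n` -/
def Sq.N (C : Sq g m) (n : ℕ) (S : Finset (Fin g)) : Set (Fin g → ℂ) :=
  {w | c1 (C.τ n) + sc (C.r n) S w ∈ C.M n}

/-- limit set of the scaled sets -/
def Sq.Lim (C : Sq g m) (S : Finset (Fin g)) : Set (Fin g → ℂ) :=
  {w | ∀ δ > 0, ∀ᶠ n in (C.U : Filter ℕ), ∃ q ∈ C.N n S, ∀ k, ‖q k - w k‖ < δ}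

/-- base of the long tube: coordinates outside of `S`, of size at least `R r` -/
def Sq.Dn (C : Sq g m) (n : ℕ) (S : Finset (Fin g)) (R : ℝ) : Set ({k // k ∉ S} → ℂ) :=
  {s | ∀ k : {k // k ∉ S}, s k ∈ Go (C.τ n k k) ∧ R * C.r n < ‖s k‖}

/-- for most `n` there are points of the set over the base of the tube, with `S`-coordinates close
to `v` -/
def Sq.Near (C : Sq g m) (S : Finset (Fin g)) (v : Fin g → ℂ) : Prop :=
  ∀ δ > 0, ∀ R : ℝ, ∀ᶠ n in (C.U : Filter ℕ), ∃ w ∈ C.N n S, (∀ i ∈ S, ‖w i - v i‖ < δ) ∧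
    ∀ k, k ∉ S → w k ∈ Go (C.τ n k k) ∧ R * C.r n < ‖w k‖

/-- the whole long tube -/
def Sq.Full (C : Sq g m) (S : Finset (Fin g)) (v : Fin g → ℂ) : Prop :=
  ∀ δ > 0, ∃ R > 0, ∀ᶠ n in (C.U : Filter ℕ), ∀ s ∈ C.Dn n S R, ∃ w ∈ C.N n S,
    (∀ i ∈ S, ‖w i - v i‖ < δ) ∧ ∀ k (hk : k ∉ S), w k = s ⟨k, hk⟩

end AMP
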