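import Pool.Agent.Lib.MP_b57e3c_ag_P.Ls
import Pool.Agent.Lib.MP_b57e3c_ag_P.Dd

set_option autoImplicit false

/-!
# Module Lg : points of the limit sets

`Lim_sing`: `UL_seq` (`N_closed`) gives `q n ∈ N n T`, `q n → w` coordinatewise. `lim_sing` for
`q`: `h1` is clear; `h2`: `q n l → 1/2`, so `q n l ∈ Go (τ n l l) ⊆ Gs` and `R * r n ≤ ‖q n l‖`
for most `n` (`half_mem`); `h3`: `N_sub`.
`Lim_near`: given `δ, R` let `ρ` be as in `half_mem`, `ε = min (δ/2) (min 1 ρ)`, and take `w`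
from `h` with `δ/2` and `ρ' = R + 1`: `R + 1 < ‖w j‖`. For most `n` there is `q ∈ N n T`, `‖q k -
w k‖ < ε` for all `k`. Let `q' = update q j (r n * q j)`; by `N_insert` (for `S = T.erase j`,
`insert j (T.erase j) = T`) `q' ∈ N n (T.erase j)`. For `i ∈ T.erase j`: `‖q' i - v' i‖ < δ`. For
`k ∉ T.erase j`: if `k = j`, `q' j = r q j`, `‖r q j‖ > r R` (`‖q j‖ > R`, `r > 0`), and `r q j ∈
Go` for most `n` (`small_mem`; `‖q j‖ ≤ ‖w j‖ + 1`); if `k ∉ T`, `‖q k - 1/2‖ ≤ ρ`, `half_mem`.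
-/

open Complex Filter Topology

namespace AMP

open AMC

variable {g m : ℕ}

theorem Sq.Lim_sing (C : Sq g m) {T : Finset (Fin g)} {w : Fin g → ℂ} (hw : w ∈ C.Lim T)
    (h : ∀ l, l ∉ T → w l = 1 / 2) : Sing C.b T w := by
  rw [C.Lim_eq T] at hw
  obtain ⟨q, hq, hqk⟩ := UL_seq (Filter.Eventually.of_forall fun n => C.N_closed n T) hw
  refine C.lim_sing T q w (fun i _ => hqk i) (fun k hk R => ?_) ?_
  · obtain ⟨ρ, hρ, hh⟩ := C.half_mem
    have h1 : ∀ᶠ n in (C.U : Filter ℕ), ‖q n k - 1 / 2‖ ≤ ρ := by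
      have h2 := (Metric.tendsto_nhds.1 (hqk k)) ρ hρ
      filter_upwards [h2] with n h3
      rw [h k hk, dist_eq_norm] at h3
      exact h3.le
    filter_upwards [h1, hh R] with n h3 h4
    obtain ⟨h5, h6⟩ := h4 k (q n k) h3
    exact ⟨⟨h5.1.le, h5.2.le⟩, h6.le⟩
  · filter_upwards [hq] with n hn
    exact C.N_sub hn

theorem Sq.Lim_near (C : Sq g m) {T : Finset (Fin g)} {j : Fin g} (hj : j ∈ T)
    {v' : Fin g → ℂ}
    (h : ∀ δ > 0, ∀ ρ : ℝ, ∃ w ∈ C.Lim T, (∀ l, l ∉ T → w l = 1 / 2) ∧ ρ < ‖w j‖ ∧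
      ∀ i ∈ T.erase j, ‖w i - v' i‖ < δ) : C.Near (T.erase j) v' := by
  intro δ hδ R
  obtain ⟨ρ, hρ, hh⟩ := C.half_mem
  obtain ⟨ρ1, hρ1, hs⟩ := C.small_mem
  obtain ⟨w, hw, hw1, hw2, hw3⟩ := h (δ / 2) (half_pos hδ) (R + 1)
  have hε : 0 < min (δ / 2) (min 1 ρ) := lt_min (half_pos hδ) (lt_min one_pos hρ)
  have h1 := hw _ hε
  have h2 : ∀ᶠ n in (C.U : Filter ℕ), (‖w j‖ + 1) * C.r n < ρ1 := Dd_lim C (‖w j‖ + 1) hρ1
  filter_upwards [h1, hh R, hs, h2] with n hn hhR hsn hr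
  obtain ⟨q, hq, hqk⟩ := hn
  have hins : insert j (T.erase j) = T := Finset.insert_erase hj
  have hq' : Function.update q j ((C.r n : ℂ) * q j) ∈ C.N n (T.erase j) := by
    refine (C.N_insert n (Finset.notMem_erase j T) q).1 ?_
    rw [hins]
    exact hq
  refine ⟨_, hq', fun i hi => ?_, fun k hk => ?_⟩
  · have hij : i ≠ j := Finset.ne_of_mem_erase hi
    rw [Function.update_of_ne hij]
    have h5 := (hqk i).trans_le (min_le_left _ _)
    have h6 := hw3 i hi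
    have h7 : ‖q i - v' i‖ ≤ ‖q i - w i‖ + ‖w i - v' i‖ :=
      norm_sub_le_norm_sub_add_norm_sub _ _ _
    linarith
  · by_cases hkj : k = j
    · rw [hkj, Function.update_self]
      have h5 : ‖q j - w j‖ < 1 :=
        (hqk j).trans_le ((min_le_right _ _).trans (min_le_left _ _))
      have h6 : ‖w j‖ - ‖q j‖ ≤ ‖q j - w j‖ := by
        rw [norm_sub_rev]
        exact norm_sub_norm_le _ _
      have h7 : ‖q j‖ - ‖w j‖ ≤ ‖q j - w j‖ := norm_sub_norm_le _ _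
      have h8 : ‖(C.r n : ℂ) * q j‖ = C.r n * ‖q j‖ := by
        rw [norm_mul, Complex.norm_real, Real.norm_eq_abs, abs_of_pos (C.rpos n)]
      have hr0 := C.rpos n
      refine ⟨hsn j _ ?_, ?_⟩
      · rw [h8]
        nlinarith
      · rw [h8, mul_comm R]
        exact mul_lt_mul_of_pos_left (by linarith) hr0
    · have hkT : k ∉ T := fun h => hk (Finset.mem_erase.2 ⟨hkj, h⟩)
      rw [Function.update_of_ne hkj]
      refine hhR k (q k) ?_
      rw [← hw1 k hkT]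
      exact ((hqk k).trans_le ((min_le_right _ _).trans (min_le_right _ _))).le

end AMP
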