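import Pool.Agent.Lib.MP_b57e3c_ag_P.Mx

set_option autoImplicit false

/-!
# Module Ml : singular points going to infinity

Let `U` be an ultrafilter. For every `i` either `‖v n i‖ → ∞` along `U` or `v n i` converges
along `U` (if not `→ ∞`, it is bounded by some `R` for `U`-most `n` — ultrafilter —, and closed
balls are compact: `Ultrafilter.map`, `IsCompact.ultrafilter_le_nhds`). Let `I` be the set of the
`i ∈ T` of the first kind and `v'` the limits.
CLAIM: for every `T' ⊆ T`, `μ_{T'}(v n) / ∏_{i ∈ T' ∩ I} v n i → μ_{T' \ I}(v')`. Induction on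
`card T'` (strong). If `T' ∩ I = ∅`: continuity (`mu_tendsto`). Otherwise take `i ∈ T' ∩ I` and
`mu_rec`: the quotient is
`μ_{T'-i}/∏_{(T'-i) ∩ I} + ∑_{j ∈ T' - i} b_ij (μ_{T'-i-j}/∏_{(T'-i-j) ∩ I}) / (v n i * (v n j if
j ∈ I))` (for `U`-most `n` the `v n l`, `l ∈ I`, are nonzero); the first term tends to
`μ_{(T'-i) \ I}(v') = μ_{T' \ I}(v')`, in the others the quotient converges by induction and the
denominator tends to infinity.
Applied to `T' = T`: `μ_{T \ I}(v') = 0`, and to `T' = T - i`, `i ∈ T \ I`: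
`μ_{(T \ I) - i}(v') = 0` (`(T.erase i) \ I = (T \ I).erase i`).
-/

open Complex Filter Topology

namespace AMP

variable {g : ℕ}

/-- along an ultrafilter a sequence of complex numbers tends to infinity or converges -/
theorem ml_dich (U : Ultrafilter ℕ) (x : ℕ → ℂ) :
    Tendsto (fun n => ‖x n‖) (U : Filter ℕ) atTop ∨ ∃ c, Tendsto x (U : Filter ℕ) (𝓝 c) := by
  by_cases h : Tendsto (fun n => ‖x n‖) (U : Filter ℕ) atTop
  · exact Or.inl h
  · right
    rw [tendsto_atTop] at h
    push Not at h
    obtain ⟨R, hR⟩ := h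
    have h2 : ((U.map x : Ultrafilter ℂ) : Filter ℂ) ≤ 𝓟 (Metric.closedBall 0 R) := by
      rw [le_principal_iff, Ultrafilter.coe_map, Filter.mem_map]
      filter_upwards [hR] with n hn
      rw [Set.mem_preimage, mem_closedBall_zero_iff]
      exact hn.le
    obtain ⟨c, -, hc⟩ := (isCompact_closedBall (0 : ℂ) R).ultrafilter_le_nhds _ h2
    exact ⟨c, hc⟩

/-- the quotients of the matching polynomials by the product of the large coordinates -/
theorem ml_claim (b : Fin g → Fin g → ℂ) (hb : ∀ i j, b i j = b j i) (I : Finset (Fin g))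
    (U : Ultrafilter ℕ) (v : ℕ → Fin g → ℂ) (v' : Fin g → ℂ)
    (hI : ∀ i ∈ I, Tendsto (fun n => ‖v n i‖) (U : Filter ℕ) atTop) (T : Finset (Fin g))
    (hT : ∀ i ∈ T \ I, Tendsto (fun n => v n i) (U : Filter ℕ) (𝓝 (v' i))) :
    Tendsto (fun n => mu b T (v n) / ∏ i ∈ T ∩ I, v n i) (U : Filter ℕ)
      (𝓝 (mu b (T \ I) v')) := by
  induction T using Finset.strongInduction with
  | H T ih =>
    rcases Finset.eq_empty_or_nonempty (T ∩ I) with h0 | ⟨i, hi⟩
    · have h1 : T \ I = T := by
        rw [Finset.sdiff_eq_self_iff_disjoint, Finset.disjoint_iff_inter_eq_empty]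
        exact h0
      rw [h0, h1]
      rw [h1] at hT
      simp only [Finset.prod_empty, div_one]
      exact mu_tendsto (fun i j _ => tendsto_const_nhds) hT
    · have hiT : i ∈ T := (Finset.mem_inter.1 hi).1
      have hiI : i ∈ I := (Finset.mem_inter.1 hi).2
      have hinv : ∀ j ∈ I, Tendsto (fun n => (v n j)⁻¹) (U : Filter ℕ) (𝓝 0) := by
        intro j hj
        exact tendsto_inv₀_cobounded.comp (tendsto_norm_atTop_iff_cobounded.1 (hI j hj))
      have hsub : ∀ S, S ⊆ T → ∀ j ∈ S \ I, Tendsto (fun n => v n j) (U : Filter ℕ)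
          (𝓝 (v' j)) := fun S hS j hj => hT j (Finset.sdiff_subset_sdiff hS (le_refl I) hj)
      have h1 : Tendsto (fun n => mu b (T.erase i) (v n) / ∏ l ∈ (T.erase i) ∩ I, v n l)
          (U : Filter ℕ) (𝓝 (mu b (T \ I) v')) := by
        have h2 := ih (T.erase i) (Finset.erase_ssubset hiT) (hsub _ (Finset.erase_subset _ _))
        have h3 : (T.erase i) \ I = T \ I := by
          ext k
          simp only [Finset.mem_sdiff, Finset.mem_erase]
          constructor
          · rintro ⟨⟨-, h4⟩, h5⟩
            exact ⟨h4, h5⟩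
          · rintro ⟨h4, h5⟩
            exact ⟨⟨fun h6 => h5 (h6 ▸ hiI), h4⟩, h5⟩
        rw [h3] at h2
        exact h2
      have h4 : ∀ j ∈ T.erase i, Tendsto (fun n => b i j * mu b ((T.erase i).erase j) (v n) /
          ∏ l ∈ T ∩ I, v n l) (U : Filter ℕ) (𝓝 0) := by
        intro j hj
        have hlt : (T.erase i).erase j ⊂ T :=
          (Finset.erase_subset _ _).trans_ssubset (Finset.erase_ssubset hiT)
        have h5 := ih _ hlt (hsub _ hlt.1)
        have h6 : ∀ n, b i j * mu b ((T.erase i).erase j) (v n) / ∏ l ∈ T ∩ I, v n l =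
            b i j * (mu b ((T.erase i).erase j) (v n) /
              ∏ l ∈ ((T.erase i).erase j) ∩ I, v n l) *
              ((v n i)⁻¹ * if j ∈ I then (v n j)⁻¹ else 1) := by
          intro n
          have h7 : ∏ l ∈ T ∩ I, v n l = v n i * ∏ l ∈ (T.erase i) ∩ I, v n l := by
            rw [← Finset.mul_prod_erase _ _ hi, ← Finset.erase_inter]
          rw [h7]
          split_ifs with hjI
          · have h8 : ∏ l ∈ (T.erase i) ∩ I, v n l =
                v n j * ∏ l ∈ ((T.erase i).erase j) ∩ I, v n l := by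
              rw [← Finset.mul_prod_erase _ _ (Finset.mem_inter.2 ⟨hj, hjI⟩),
                ← Finset.erase_inter]
            rw [h8]
            simp only [div_eq_mul_inv, mul_inv]
            ring
          · have h8 : ((T.erase i).erase j) ∩ I = (T.erase i) ∩ I := by
              rw [Finset.erase_inter, Finset.erase_eq_of_notMem]
              exact fun h9 => hjI (Finset.mem_inter.1 h9).2
            rw [h8]
            simp only [div_eq_mul_inv, mul_inv]
            ring
        have h10 : Tendsto (fun n => (v n i)⁻¹ * if j ∈ I then (v n j)⁻¹ else 1)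
            (U : Filter ℕ) (𝓝 0) := by
          split_ifs with hjI
          · have h11 := (hinv i hiI).mul (hinv j hjI)
            rw [mul_zero] at h11
            exact h11
          · simp only [mul_one]
            exact hinv i hiI
        have h12 := (tendsto_const_nhds (x := b i j)).mul h5 |>.mul h10
        rw [mul_zero] at h12
        exact h12.congr fun n => (h6 n).symm
      have h13 := h1.add (tendsto_finsetSum (T.erase i) h4)
      rw [Finset.sum_const_zero, add_zero] at h13
      refine h13.congr' ?_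
      have h14 : ∀ᶠ n in (U : Filter ℕ), v n i ≠ 0 := by
        filter_upwards [(hI i hiI).eventually (eventually_gt_atTop 0)] with n hn
        exact norm_pos_iff.1 hn
      filter_upwards [h14] with n hn
      have h7 : ∏ l ∈ T ∩ I, v n l = v n i * ∏ l ∈ (T.erase i) ∩ I, v n l := by
        rw [← Finset.mul_prod_erase _ _ hi, ← Finset.erase_inter]
      rw [mu_rec b hb hiT, add_div, Finset.sum_div, h7, mul_div_mul_left _ _ hn]

theorem sing_limit (b : Fin g → Fin g → ℂ) (hb : ∀ i j, b i j = b j i) (T : Finset (Fin g))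
    (U : Ultrafilter ℕ) (v : ℕ → Fin g → ℂ)
    (hv : ∀ᶠ n in (U : Filter ℕ), Sing b T (v n)) :
    ∃ I ⊆ T, ∃ v' : Fin g → ℂ,
      (∀ i ∈ I, Tendsto (fun n => ‖v n i‖) (U : Filter ℕ) atTop) ∧
      (∀ i ∈ T \ I, Tendsto (fun n => v n i) (U : Filter ℕ) (𝓝 (v' i))) ∧
      Sing b (T \ I) v' := by
  classical
  have hd := fun i => ml_dich U (fun n => v n i)
  have hex : ∀ i, ∃ c, ¬ Tendsto (fun n => ‖v n i‖) (U : Filter ℕ) atTop →
      Tendsto (fun n => v n i) (U : Filter ℕ) (𝓝 c) := by
    intro i
    rcases hd i with h | ⟨c, hc⟩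
    · exact ⟨0, fun h' => absurd h h'⟩
    · exact ⟨c, fun _ => hc⟩
  choose v' hv' using hex
  refine ⟨T.filter fun i => Tendsto (fun n => ‖v n i‖) (U : Filter ℕ) atTop,
    Finset.filter_subset _ _, v', fun i hi => (Finset.mem_filter.1 hi).2, ?_, ?_⟩
  · intro i hi
    rw [Finset.mem_sdiff, Finset.mem_filter] at hi
    exact hv' i fun h => hi.2 ⟨hi.1, h⟩
  · have hI : ∀ i ∈ T.filter fun i => Tendsto (fun n => ‖v n i‖) (U : Filter ℕ) atTop,
        Tendsto (fun n => ‖v n i‖) (U : Filter ℕ) atTop :=
      fun i hi => (Finset.mem_filter.1 hi).2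
    have hT : ∀ i ∈ T \ (T.filter fun i => Tendsto (fun n => ‖v n i‖) (U : Filter ℕ) atTop),
        Tendsto (fun n => v n i) (U : Filter ℕ) (𝓝 (v' i)) := by
      intro i hi
      rw [Finset.mem_sdiff, Finset.mem_filter] at hi
      exact hv' i fun h => hi.2 ⟨hi.1, h⟩
    generalize (T.filter fun i => Tendsto (fun n => ‖v n i‖) (U : Filter ℕ) atTop) = I at hI hT ⊢
    have key : ∀ T' ⊆ T, (∀ᶠ n in (U : Filter ℕ), mu b T' (v n) = 0) →
        mu b (T' \ I) v' = 0 := by
      intro T' hT' h0
      have h1 := ml_claim b hb I U v v' hI T'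
        (fun j hj => hT j (Finset.sdiff_subset_sdiff hT' (le_refl I) hj))
      have h2 : Tendsto (fun n => mu b T' (v n) / ∏ i ∈ T' ∩ I, v n i) (U : Filter ℕ)
          (𝓝 0) := by
        refine tendsto_const_nhds.congr' ?_
        filter_upwards [h0] with n hn
        rw [hn, zero_div]
      exact tendsto_nhds_unique h1 h2
    refine ⟨key T (Finset.Subset.refl T) (hv.mono fun n hn => hn.1), fun i hi => ?_⟩
    have hiT : i ∈ T := (Finset.mem_sdiff.1 hi).1
    have h3 := key (T.erase i) (Finset.erase_subset _ _) (hv.mono fun n hn => hn.2 i hiT)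
    rw [Finset.erase_sdiff_comm] at h3
    exact h3

end AMP
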