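import Pool.Agent.Lib.MP_b57e3c_ag_P.SgA

set_option autoImplicit false

/-!
# Module Sg : singular zeros of matching polynomials of at most four variables

`sing_card`. `card S = 0`: `μ_∅ = 1`. `S = {i}`: `μ_∅ = 1 ≠ 0`. `S = {i,j}`: `∂_i μ = v_j = 0`,
`∂_j μ = v_i = 0`, then `μ = b_ij ≠ 0`. `S = {i,j,k}` (`Finset.card_eq_three`): the equations
`v_j v_k + b_jk = 0`, `v_i v_k + b_ik = 0`, `v_i v_j + b_ij = 0` and `μ = 0` give
`0 = μ - v_i (v_j v_k + b_jk) - v_j (..) - v_k (..) = - 2 v_i v_j v_k`, so one of the `v`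
vanishes, and then one of the `b` vanishes.

`card S = 4`, `S = {1,2,3,4}` (`Finset.card_eq_succ` …): write `X = v1 v2 v3 v4`, `m34 = b12 v3
v4`, `m12 = b34 v1 v2`, `m13 = b24 v1 v3`, `m24 = b13 v2 v4`, `m14 = b23 v1 v4`, `m23 = b14 v2
v3`, `P = b12 b34`, `Q = b13 b24`, `R = b14 b23`. `v_i ∂_i μ = X + ∑_l m_il = 0` for `i =
1,2,3,4`; sums and differences give `m12 = m34 =: α`, `m13 = m24 =: β`, `m14 = m23 =: γ`, `α + β
+ γ = - X`; `μ = 0` becomes `X = P + Q + R`; `α² = m12 m34 = P X`, `β² = Q X`, `γ² = R X`.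
If `X = 0`: `P + Q + R = 0`, `α = β = γ = 0`, all products `v_k v_l` vanish, so at most one
`v_i`, say `v1`, is nonzero, and `∂_2 μ = b34 v1 = 0` (the other terms contain `v3` or `v4`), so
`v = 0`. If `X ≠ 0` let `x² = X`, `p = α/x`, `q = β/x`, `r = γ/x`: `p² = P`, `q² = Q`, `r² = R`,
`p + q + r = - x`, `p q + q r + r p = ((p+q+r)² - P - Q - R)/2 = 0`.
These facts are collected in `sing_four` (with `S = {i,j,k,l}`, `1,2,3,4 = i,j,k,l`).
Second derivatives in the case `X ≠ 0`: `∂_1∂_2 μ = v3 v4 + b34 = (p x + P)/b12 = p (x + p)/b12 =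
- p (q + r)/b12 = q r / b12`, similarly for the other pairs (`hs_four`): all nonzero.

`sing_nd`. Let `H` be the `4 × 4` Hessian (zero diagonal), `h_ij`. `det H = u² + v² + w² - 2uv -
2vw - 2wu` with `u = h12 h34`, `v = h13 h24`, `w = h14 h23`. Case `v = 0` (then `P + Q + R = 0`):
`h12 = b34`, …, `u = P, v = Q, w = R`, `det H = (P+Q+R)² - 4 (PQ+QR+RP) = - 4 (PQ + QR + RP) ≠ 0`
by `NoEq`. Case `X ≠ 0`: `u = (q r/p)²`, …, and with `a = q r/p`, `b = p r/q`, `c = p q/r`: `det
H = -(a+b+c)(-a+b+c)(a-b+c)(a+b-c)`; multiplying by `p q r` and putting `A = q r`, `B = p r`, `C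
= p q`, `A + B + C = 0`: `p q r (a + b - c) = A² + B² - C² = - 2 A B ≠ 0`, similarly the others,
and `p q r (a+b+c) = A² + B² + C² = - 2 (AB + BC + CA) = - 2 p q r (p + q + r) = 2 p q r x ≠ 0`.
(`NoEq` is not needed in this case.) The condition `Nd` is the injectivity of `H`: from `H x = 0`
deduce `det H * x_i = 0` by explicit linear combinations (Cramer: `adj(H) H = det H`; e.g. with
`Matrix.adjugate`, or `Matrix.eq_zero_of_mulVec_eq_zero`).
-/

open Complex Filter Topology

namespace AMP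

variable {g : ℕ} {b : Fin g → Fin g → ℂ} {v : Fin g → ℂ}

private theorem SgB_card {S : Finset (Fin g)} (hS : S.card = 4) {i j : Fin g} (hi : i ∈ S)
    (hj : j ∈ S) (hij : i ≠ j) : ∃ k l : Fin g, i ≠ k ∧ i ≠ l ∧ j ≠ k ∧ j ≠ l ∧ k ≠ l ∧
      S = {i, j, k, l} := by
  have h1 : ((S.erase i).erase j).card = 2 := by
    rw [Finset.card_erase_of_mem (Finset.mem_erase.2 ⟨hij.symm, hj⟩),
      Finset.card_erase_of_mem hi, hS]
  obtain ⟨k, l, hkl, h2⟩ := Finset.card_eq_two.1 h1
  have hk : k ∈ (S.erase i).erase j := by rw [h2]; simp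
  have hl : l ∈ (S.erase i).erase j := by rw [h2]; simp
  rw [Finset.mem_erase, Finset.mem_erase] at hk hl
  refine ⟨k, l, hk.2.1.symm, hl.2.1.symm, hk.1.symm, hl.1.symm, hkl, ?_⟩
  rw [← h2, Finset.insert_erase (Finset.mem_erase.2 ⟨hij.symm, hj⟩), Finset.insert_erase hi]

private theorem SgB_Hs (hb : ∀ i j, b i j = b j i) {S : Finset (Fin g)} {i j k l : Fin g}
    (hij : i ≠ j) (hik : i ≠ k) (hil : i ≠ l) (hjk : j ≠ k) (hjl : j ≠ l) (hkl : k ≠ l)
    (hS : S = {i, j, k, l}) : Hs b S v i j = v k * v l + b k l := by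
  have h1 : (S.erase i).erase j = {k, l} := by
    subst hS
    ext a
    simp only [Finset.mem_erase, Finset.mem_insert, Finset.mem_singleton]
    constructor
    · rintro ⟨h1, h2, h3⟩
      rcases h3 with h3 | h3 | h3 | h3
      · exact absurd h3 h2
      · exact absurd h3 h1
      · exact Or.inl h3
      · exact Or.inr h3
    · rintro (h | h)
      · subst h
        exact ⟨hjk.symm, hik.symm, Or.inr (Or.inr (Or.inl rfl))⟩
      · subst h
        exact ⟨hjl.symm, hil.symm, Or.inr (Or.inr (Or.inr rfl))⟩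
  unfold Hs
  rw [if_neg hij, h1, mu_two b hb hkl]

private theorem SgB_Hs0 {S : Finset (Fin g)} (i : Fin g) : Hs b S v i i = 0 := by
  unfold Hs
  rw [if_pos rfl]

/-- the second derivatives are nonzero when the singular zero is not the origin -/
theorem hs_ne (hb : ∀ i j, b i j = b j i) (h0 : ∀ i j, i ≠ j → b i j ≠ 0)
    {S : Finset (Fin g)} (hS : S.card = 4) (h : Sing b S v) (hv : ∃ i ∈ S, v i ≠ 0)
    {i j : Fin g} (hi : i ∈ S) (hj : j ∈ S) (hij : i ≠ j) : Hs b S v i j ≠ 0 := by
  obtain ⟨k, l, hik, hil, hjk, hjl, hkl, hS4⟩ := SgB_card hS hi hj hij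
  have h1 := h
  rw [hS4] at h1
  rw [SgB_Hs hb hij hik hil hjk hjl hkl hS4]
  rcases sing_four hb h0 hij hik hil hjk hjl hkl h1 with h2 | h2
  · exfalso
    obtain ⟨a, ha, hva⟩ := hv
    rw [hS4] at ha
    simp only [Finset.mem_insert, Finset.mem_singleton] at ha
    rcases ha with ha | ha | ha | ha
    · exact hva (ha ▸ h2.1)
    · exact hva (ha ▸ h2.2.1)
    · exact hva (ha ▸ h2.2.2.1)
    · exact hva (ha ▸ h2.2.2.2.1)
  · obtain ⟨p, q, r, x, hp, hq, hr, hx, e1, e2, e3, e4, e5, e6, e7, e8, e9, e10, e11⟩ := h2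
    intro h3
    have h4 : q * r = 0 := by
      linear_combination (b i j) * h3 - e7 + e3 - p * e1 + e2
    rcases mul_eq_zero.1 h4 with h5 | h5
    · exact hq h5
    · exact hr h5

private theorem SgB_one {a12 a34 a13 a24 a14 a23 x1 x2 x3 x4 : ℂ}
    (hd : (a12 * a34) ^ 2 + (a13 * a24) ^ 2 + (a14 * a23) ^ 2 - 2 * (a12 * a34) * (a13 * a24) -
      2 * (a13 * a24) * (a14 * a23) - 2 * (a12 * a34) * (a14 * a23) ≠ 0)
    (r1 : a12 * x2 + a13 * x3 + a14 * x4 = 0) (r2 : a12 * x1 + a23 * x3 + a24 * x4 = 0)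
    (r3 : a13 * x1 + a23 * x2 + a34 * x4 = 0) (r4 : a14 * x1 + a24 * x2 + a34 * x3 = 0) :
    x1 = 0 := by
  have h : ((a12 * a34) ^ 2 + (a13 * a24) ^ 2 + (a14 * a23) ^ 2 - 2 * (a12 * a34) * (a13 * a24) -
      2 * (a13 * a24) * (a14 * a23) - 2 * (a12 * a34) * (a14 * a23)) * x1 = 0 := by
    linear_combination 2 * a23 * a24 * a34 * r1 +
      a34 * (a12 * a34 - a13 * a24 - a14 * a23) * r2 +
      a24 * (-(a12 * a34) + a13 * a24 - a14 * a23) * r3 +
      a23 * (-(a12 * a34) - a13 * a24 + a14 * a23) * r4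
  exact (mul_eq_zero.1 h).resolve_left hd

private theorem SgB_det {p q r x u w z : ℂ} (hp : p ≠ 0) (hq : q ≠ 0) (hr : r ≠ 0) (hx : x ≠ 0)
    (e1 : p + q + r = -x) (e2 : p * q + q * r + r * p = 0) (hu : p ^ 2 * u = (q * r) ^ 2)
    (hw : q ^ 2 * w = (p * r) ^ 2) (hz : r ^ 2 * z = (p * q) ^ 2) :
    u ^ 2 + w ^ 2 + z ^ 2 - 2 * u * w - 2 * w * z - 2 * u * z ≠ 0 := by
  have h1 : u * (p * q * r) ^ 2 = (q * r) ^ 4 := by
    linear_combination (q * r) ^ 2 * hu
  have h2 : w * (p * q * r) ^ 2 = (p * r) ^ 4 := by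
    linear_combination (p * r) ^ 2 * hw
  have h3 : z * (p * q * r) ^ 2 = (p * q) ^ 4 := by
    linear_combination (p * q) ^ 2 * hz
  have hs : p * q * r ≠ 0 := mul_ne_zero (mul_ne_zero hp hq) hr
  have k1 : (q * r) ^ 2 + (p * r) ^ 2 - (p * q) ^ 2 = -2 * (q * r) * (p * r) := by
    linear_combination (q * r + p * r - p * q) * e2
  have k2 : (q * r) ^ 2 - (p * r) ^ 2 + (p * q) ^ 2 = -2 * (q * r) * (p * q) := by
    linear_combination (q * r - p * r + p * q) * e2
  have k3 : -(q * r) ^ 2 + (p * r) ^ 2 + (p * q) ^ 2 = -2 * (p * r) * (p * q) := by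
    linear_combination (-(q * r) + p * r + p * q) * e2
  have k4 : (q * r) ^ 2 + (p * r) ^ 2 + (p * q) ^ 2 = 2 * (p * q * r) * x := by
    linear_combination (q * r + p * r + p * q) * e2 - 2 * (p * q * r) * e1
  have h4 : (u ^ 2 + w ^ 2 + z ^ 2 - 2 * u * w - 2 * w * z - 2 * u * z) * (p * q * r) ^ 4 =
      16 * (p * q * r) * x * (p * q * r) ^ 4 := by
    calc (u ^ 2 + w ^ 2 + z ^ 2 - 2 * u * w - 2 * w * z - 2 * u * z) * (p * q * r) ^ 4
        = (u * (p * q * r) ^ 2) ^ 2 + (w * (p * q * r) ^ 2) ^ 2 + (z * (p * q * r) ^ 2) ^ 2 -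
          2 * (u * (p * q * r) ^ 2) * (w * (p * q * r) ^ 2) -
          2 * (w * (p * q * r) ^ 2) * (z * (p * q * r) ^ 2) -
          2 * (u * (p * q * r) ^ 2) * (z * (p * q * r) ^ 2) := by ring
      _ = -((q * r) ^ 2 + (p * r) ^ 2 + (p * q) ^ 2) * (-(q * r) ^ 2 + (p * r) ^ 2 +
          (p * q) ^ 2) * ((q * r) ^ 2 - (p * r) ^ 2 + (p * q) ^ 2) * ((q * r) ^ 2 +
          (p * r) ^ 2 - (p * q) ^ 2) := by rw [h1, h2, h3]; ring
      _ = 16 * (p * q * r) * x * (p * q * r) ^ 4 := by rw [k1, k2, k3, k4]; ring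
  have h5 := mul_right_cancel₀ (pow_ne_zero 4 hs) h4
  rw [h5]
  exact mul_ne_zero (mul_ne_zero (by norm_num) hs) hx

theorem sing_nd (hb : ∀ i j, b i j = b j i) (h0 : ∀ i j, i ≠ j → b i j ≠ 0) (hE : NoEq b)
    {S : Finset (Fin g)} (hS : S.card = 4) (h : Sing b S v) : Nd b S v := by
  obtain ⟨i, hi⟩ : S.Nonempty := Finset.card_pos.1 (by omega)
  obtain ⟨j, hj0⟩ : (S.erase i).Nonempty :=
    Finset.card_pos.1 (by rw [Finset.card_erase_of_mem hi]; omega)
  have hj := (Finset.mem_erase.1 hj0).2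
  have hij : i ≠ j := (Finset.mem_erase.1 hj0).1.symm
  obtain ⟨k, l, hik, hil, hjk, hjl, hkl, hS4⟩ := SgB_card hS hi hj hij
  have h1 := h
  rw [hS4] at h1
  have s1 : S = {i, k, j, l} := by
    rw [hS4]; ext a; simp only [Finset.mem_insert, Finset.mem_singleton]; tauto
  have s2 : S = {i, l, j, k} := by
    rw [hS4]; ext a; simp only [Finset.mem_insert, Finset.mem_singleton]; tauto
  have s3 : S = {j, i, k, l} := by
    rw [hS4]; ext a; simp only [Finset.mem_insert, Finset.mem_singleton]; tauto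
  have s4 : S = {j, k, i, l} := by
    rw [hS4]; ext a; simp only [Finset.mem_insert, Finset.mem_singleton]; tauto
  have s5 : S = {j, l, i, k} := by
    rw [hS4]; ext a; simp only [Finset.mem_insert, Finset.mem_singleton]; tauto
  have s6 : S = {k, i, j, l} := by
    rw [hS4]; ext a; simp only [Finset.mem_insert, Finset.mem_singleton]; tauto
  have s7 : S = {k, j, i, l} := by
    rw [hS4]; ext a; simp only [Finset.mem_insert, Finset.mem_singleton]; tauto
  have s8 : S = {k, l, i, j} := by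
    rw [hS4]; ext a; simp only [Finset.mem_insert, Finset.mem_singleton]; tauto
  have s9 : S = {l, i, j, k} := by
    rw [hS4]; ext a; simp only [Finset.mem_insert, Finset.mem_singleton]; tauto
  have s10 : S = {l, j, i, k} := by
    rw [hS4]; ext a; simp only [Finset.mem_insert, Finset.mem_singleton]; tauto
  have s11 : S = {l, k, i, j} := by
    rw [hS4]; ext a; simp only [Finset.mem_insert, Finset.mem_singleton]; tauto
  have hd : ((v k * v l + b k l) * (v i * v j + b i j)) ^ 2 +
      ((v j * v l + b j l) * (v i * v k + b i k)) ^ 2 +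
      ((v j * v k + b j k) * (v i * v l + b i l)) ^ 2 -
      2 * ((v k * v l + b k l) * (v i * v j + b i j)) *
        ((v j * v l + b j l) * (v i * v k + b i k)) -
      2 * ((v j * v l + b j l) * (v i * v k + b i k)) *
        ((v j * v k + b j k) * (v i * v l + b i l)) -
      2 * ((v k * v l + b k l) * (v i * v j + b i j)) *
        ((v j * v k + b j k) * (v i * v l + b i l)) ≠ 0 := by
    rcases sing_four hb h0 hij hik hil hjk hjl hkl h1 with h2 | h2
    · obtain ⟨v1, v2, v3, v4, h3⟩ := h2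
      have h4 := hE i j k l hij hik hil hjk hjl hkl
      rw [v1, v2, v3, v4]
      intro h5
      refine h4 ⟨h3, ?_⟩
      linear_combination (-1 / 4 : ℂ) * h5 + (1 / 4 : ℂ) * (b i j * b k l + b i k * b j l +
        b i l * b j k) * h3
    · obtain ⟨p, q, r, x, hp, hq, hr, hx, e1, e2, e3, e4, e5, e6, e7, e8, e9, e10, e11⟩ := h2
      have t1 : b i j * (v k * v l + b k l) = q * r := by
        linear_combination e7 - e3 + p * e1 - e2
      have t2 : b k l * (v i * v j + b i j) = q * r := by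
        linear_combination e6 - e3 + p * e1 - e2
      have t3 : b i k * (v j * v l + b j l) = p * r := by
        linear_combination e9 - e4 + q * e1 - e2
      have t4 : b j l * (v i * v k + b i k) = p * r := by
        linear_combination e8 - e4 + q * e1 - e2
      have t5 : b i l * (v j * v k + b j k) = p * q := by
        linear_combination e11 - e5 + r * e1 - e2
      have t6 : b j k * (v i * v l + b i l) = p * q := by
        linear_combination e10 - e5 + r * e1 - e2
      refine SgB_det hp hq hr hx e1 e2 ?_ ?_ ?_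
      · rw [e3, sq (q * r)]
        nth_rewrite 1 [← t1]
        rw [← t2]
        ring
      · rw [e4, sq (p * r)]
        nth_rewrite 1 [← t3]
        rw [← t4]
        ring
      · rw [e5, sq (p * q)]
        nth_rewrite 1 [← t5]
        rw [← t6]
        ring
  intro x hx
  have hsum : ∀ f : Fin g → ℂ, ∑ a ∈ S, f a = f i + (f j + (f k + f l)) := by
    intro f
    rw [hS4, Finset.sum_insert (by simp [hij, hik, hil]), Finset.sum_insert (by simp [hjk, hjl]),
      Finset.sum_insert (by simp [hkl]), Finset.sum_singleton]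
  have hk : k ∈ S := by rw [hS4]; simp
  have hl : l ∈ S := by rw [hS4]; simp
  have r1 := hx i hi
  have r2 := hx j hj
  have r3 := hx k hk
  have r4 := hx l hl
  rw [hsum, SgB_Hs0, SgB_Hs hb hij hik hil hjk hjl hkl hS4,
    SgB_Hs hb hik hij hil hjk.symm hkl hjl s1,
    SgB_Hs hb hil hij hik hjl.symm hkl.symm hjk s2] at r1
  rw [hsum, SgB_Hs0, SgB_Hs hb hij.symm hjk hjl hik hil hkl s3,
    SgB_Hs hb hjk hij.symm hjl hik.symm hkl hil s4,
    SgB_Hs hb hjl hij.symm hjk hil.symm hkl.symm hik s5] at r2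
  rw [hsum, SgB_Hs0, SgB_Hs hb hik.symm hjk.symm hkl hij hil hjl s6,
    SgB_Hs hb hjk.symm hik.symm hkl hij.symm hjl hil s7,
    SgB_Hs hb hkl hik.symm hjk.symm hil.symm hjl.symm hij s8] at r3
  rw [hsum, SgB_Hs0, SgB_Hs hb hil.symm hjl.symm hkl.symm hij hik hjk s9,
    SgB_Hs hb hjl.symm hil.symm hkl.symm hij.symm hjk hik s10,
    SgB_Hs hb hkl.symm hil.symm hjl.symm hik.symm hjk.symm hij s11] at r4
  have x1 : x i = 0 :=
    SgB_one (a12 := v k * v l + b k l) (a34 := v i * v j + b i j)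
      (a13 := v j * v l + b j l) (a24 := v i * v k + b i k) (a14 := v j * v k + b j k)
      (a23 := v i * v l + b i l) (x2 := x j) (x3 := x k) (x4 := x l) hd
      (by linear_combination r1) (by linear_combination r2)
      (by linear_combination r3) (by linear_combination r4)
  have x2 : x j = 0 := by
    refine SgB_one (a12 := v k * v l + b k l) (a34 := v i * v j + b i j)
      (a13 := v i * v l + b i l) (a24 := v j * v k + b j k) (a14 := v i * v k + b i k)
      (a23 := v j * v l + b j l) (x2 := x i) (x3 := x k) (x4 := x l) ?_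
      (by linear_combination r2) (by linear_combination r1) (by linear_combination r3)
      (by linear_combination r4)
    intro h2
    exact hd (by linear_combination h2)
  have x3 : x k = 0 := by
    refine SgB_one (a12 := v j * v l + b j l) (a34 := v i * v k + b i k)
      (a13 := v i * v l + b i l) (a24 := v j * v k + b j k) (a14 := v i * v j + b i j)
      (a23 := v k * v l + b k l) (x2 := x i) (x3 := x j) (x4 := x l) ?_
      (by linear_combination r3) (by linear_combination r1) (by linear_combination r2)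
      (by linear_combination r4)
    intro h2
    exact hd (by linear_combination h2)
  have x4 : x l = 0 := by
    refine SgB_one (a12 := v j * v k + b j k) (a34 := v i * v l + b i l)
      (a13 := v i * v k + b i k) (a24 := v j * v l + b j l) (a14 := v i * v j + b i j)
      (a23 := v k * v l + b k l) (x2 := x i) (x3 := x j) (x4 := x k) ?_
      (by linear_combination r4) (by linear_combination r1) (by linear_combination r2)
      (by linear_combination r3)
    intro h2
    exact hd (by linear_combination h2)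
  intro a ha
  rw [hS4] at ha
  simp only [Finset.mem_insert, Finset.mem_singleton] at ha
  rcases ha with ha | ha | ha | ha
  · exact ha ▸ x1
  · exact ha ▸ x2
  · exact ha ▸ x3
  · exact ha ▸ x4

end AMP
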