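import Pool.Agent.Lib.MP_b57e3c_ag_P.Mx

set_option autoImplicit false

/-!
# Module Xp : expansion of the singular points of `μ` in five variables near infinity

`S = {1,2,3,4}` (four indices), `k ∉ S`, `T = insert k S`, `c_i = b i k`, `w ∈ ℂ^g` with `Sing b
T w`, `w k ≠ 0`, `ε = 1 / w k`, `x = w|_S`, `p = v0|_S` with `Sing b S v0`. Write `m4 = μ_S`,
`m3_i = μ_{S - i}`, `h_ij(x) = Hs b S x i j` (for `i ≠ j`; it is `x_k' x_l' + b_k'l'` with
`{k',l'}` the other two indices). `mu_rec` at `k`: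
(E0) `m4(x) = 0` (this is `μ_{T - k}`); (E1) `∑_i c_i m3_i(x) = 0` (from `μ_T = w_k m4 + ∑ c_i
m3_i`); (E2) `m3_i(x) + ε ∑_{j ≠ i} c_j h_ij(x) = 0` for `i ∈ S` (from `μ_{T - i} = w_k m3_i +
∑_{j≠i} c_j h_ij`).

EXACT RELATION: multiply (E2) by `c_i`, sum, use (E1) and `ε ≠ 0`: `∑_{i,j} c_i c_j h_ij(x) = 0`.

Let `y = x + ε c`, `D = y - p`. Expanding the multiaffine `m3_1(y) = y2 y3 y4 + b23 y4 + b24 y3 +
b34 y2` around `x` and around `p`:
`m3_1(y) = [m3_1(x) + ε ∑_j c_j h_1j(x)] + ε² (c2 c3 x4 + c2 c4 x3 + c3 c4 x2) + ε³ c2 c3 c4`,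
the bracket is `0`; `m3_1(y) = ∑_j h_1j(p) D_j + (p4 D2 D3 + p3 D2 D4 + p2 D3 D4) + D2 D3 D4`. So
`‖∑_j h_ij(p) D_j‖ ≤ K1 (‖ε‖² + ‖D‖²)` when `‖x‖, ‖ε‖, ‖D‖` are bounded (`‖·‖` the maximum over
`S`). By `Nd` (injective linear map of a finite dimensional space) `κ ‖D‖ ≤ max_i ‖∑_j h_ij(p)
D_j‖` for some `κ > 0`. If `‖D‖ ≤ δ + ‖ε‖ ‖c‖` is small (`K1 ‖D‖ ≤ κ/2`), then `‖D‖ ≤ K ‖ε‖²`.
This is `exp_first`.

`exp_two`: take `w` with `‖w k‖ → ∞`; by `exp_first` `x → p`. The exact relation gives the first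
equation in the limit (continuity). For the second: `m4(y) = m4(x) + ε ∑ c_i m3_i(x) +
ε² ∑_{i<j} c_i c_j h_ij(x) + ε³ ∑_i x_i ∏_{j ≠ i} c_j + ε⁴ c1 c2 c3 c4`, where the first three
terms vanish; and `m4(y) = m4(p) + ∑ D_i m3_i(p) + ∑_{i<j} D_i D_j h_ij(p) + ∑_i p_i ∏_{j≠i} D_j
+ ∏ D_i`, where the first two vanish, so `‖m4(y)‖ ≤ K2 ‖D‖² ≤ K3 ‖ε‖⁴`. Dividing by `ε³`: `∑_i
x_i ∏_{j≠i} c_j = O(ε)`; in the limit `∑_i p_i ∏_{j≠i} c_j = 0`.
-/

open Complex Filter Topology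

namespace AMP

variable {g : ℕ} {b : Fin g → Fin g → ℂ}

private theorem xpA_sum (S : Finset (Fin g)) {i : Fin g} (hi : i ∈ S) (x d : Fin g → ℂ) :
    ∑ m ∈ S, Hs b S x i m * d m = ∑ m ∈ S.erase i, mu b ((S.erase i).erase m) x * d m := by
  rw [← Finset.add_sum_erase S _ hi]
  have h1 : Hs b S x i i = 0 := if_pos rfl
  rw [h1, zero_mul, zero_add]
  refine Finset.sum_congr rfl fun m hm => ?_
  have h2 : i ≠ m := (Finset.ne_of_mem_erase hm).symm
  unfold Hs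
  rw [if_neg h2]

private theorem xpA_exp (hb : ∀ i j, b i j = b j i) {S : Finset (Fin g)} (hS : S.card = 4)
    {i : Fin g} (hi : i ∈ S) : ∃ j k l, j ∈ S ∧ k ∈ S ∧ l ∈ S ∧ ∀ x y : Fin g → ℂ,
      mu b (S.erase i) y = mu b (S.erase i) x + ∑ m ∈ S, Hs b S x i m * (y m - x m) +
        (x l * ((y j - x j) * (y k - x k)) + x k * ((y j - x j) * (y l - x l)) +
          x j * ((y k - x k) * (y l - x l)) +
          (y j - x j) * ((y k - x k) * (y l - x l))) := by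
  have h1 : (S.erase i).card = 3 := by rw [Finset.card_erase_of_mem hi, hS]
  obtain ⟨j, k, l, hjk, hjl, hkl, he⟩ := Finset.card_eq_three.1 h1
  have hj : j ∈ S := Finset.mem_of_mem_erase (by rw [he]; simp)
  have hk : k ∈ S := Finset.mem_of_mem_erase (by rw [he]; simp)
  have hl : l ∈ S := Finset.mem_of_mem_erase (by rw [he]; simp)
  refine ⟨j, k, l, hj, hk, hl, fun x y => ?_⟩
  have e1 : ({j, k, l} : Finset (Fin g)).erase j = {k, l} := by
    ext m
    simp only [Finset.mem_erase, Finset.mem_insert, Finset.mem_singleton]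
    constructor
    · rintro ⟨h, h' | h'⟩
      · exact absurd h' h
      · exact h'
    · rintro (rfl | rfl)
      · exact ⟨hjk.symm, Or.inr (Or.inl rfl)⟩
      · exact ⟨hjl.symm, Or.inr (Or.inr rfl)⟩
  have e2 : ({j, k, l} : Finset (Fin g)).erase k = {j, l} := by
    ext m
    simp only [Finset.mem_erase, Finset.mem_insert, Finset.mem_singleton]
    constructor
    · rintro ⟨h, h' | h' | h'⟩
      · exact Or.inl h'
      · exact absurd h' h
      · exact Or.inr h'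
    · rintro (rfl | rfl)
      · exact ⟨hjk, Or.inl rfl⟩
      · exact ⟨hkl.symm, Or.inr (Or.inr rfl)⟩
  have e3 : ({j, k, l} : Finset (Fin g)).erase l = {j, k} := by
    ext m
    simp only [Finset.mem_erase, Finset.mem_insert, Finset.mem_singleton]
    constructor
    · rintro ⟨h, h' | h' | h'⟩
      · exact Or.inl h'
      · exact Or.inr h'
      · exact absurd h' h
    · rintro (rfl | rfl)
      · exact ⟨hjl, Or.inl rfl⟩
      · exact ⟨hkl, Or.inr (Or.inl rfl)⟩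
  rw [xpA_sum S hi x (fun m => y m - x m), he, mu_three b hb hjk hjl hkl,
    mu_three b hb hjk hjl hkl, Finset.sum_insert, Finset.sum_insert, Finset.sum_singleton,
    e1, e2, e3, mu_two b hb hkl, mu_two b hb hjl, mu_two b hb hjk]
  · ring
  · simpa using hkl
  · simp only [Finset.mem_insert, Finset.mem_singleton, not_or]
    exact ⟨hjk, hjl⟩

private theorem xpA_bd (hb : ∀ i j, b i j = b j i) {S : Finset (Fin g)} (hS : S.card = 4)
    {i : Fin g} (hi : i ∈ S) (x y : Fin g → ℂ) {X d : ℝ} (hX : ∀ m ∈ S, ‖x m‖ ≤ X)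
    (hd : ∀ m ∈ S, ‖y m - x m‖ ≤ d) :
    ‖mu b (S.erase i) y - mu b (S.erase i) x - ∑ m ∈ S, Hs b S x i m * (y m - x m)‖ ≤
      (3 * X + d) * d ^ 2 := by
  obtain ⟨j, k, l, hj, hk, hl, h⟩ := xpA_exp hb hS hi
  have hX0 : 0 ≤ X := (norm_nonneg _).trans (hX i hi)
  have hd0 : 0 ≤ d := (norm_nonneg _).trans (hd i hi)
  have h2 : ∀ p ∈ S, ∀ q ∈ S, ‖(y p - x p) * (y q - x q)‖ ≤ d * d := fun p hp q hq => by
    rw [norm_mul]
    exact mul_le_mul (hd p hp) (hd q hq) (norm_nonneg _) hd0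
  have h3 : ∀ r ∈ S, ∀ p ∈ S, ∀ q ∈ S, ‖x r * ((y p - x p) * (y q - x q))‖ ≤ X * (d * d) :=
    fun r hr p hp q hq => by
      rw [norm_mul]
      exact mul_le_mul (hX r hr) (h2 p hp q hq) (norm_nonneg _) hX0
  have h4 : ‖(y j - x j) * ((y k - x k) * (y l - x l))‖ ≤ d * (d * d) := by
    rw [norm_mul]
    exact mul_le_mul (hd j hj) (h2 k hk l hl) (norm_nonneg _) hd0
  have h5 : mu b (S.erase i) y - mu b (S.erase i) x - ∑ m ∈ S, Hs b S x i m * (y m - x m) =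
      x l * ((y j - x j) * (y k - x k)) + x k * ((y j - x j) * (y l - x l)) +
          x j * ((y k - x k) * (y l - x l)) +
          (y j - x j) * ((y k - x k) * (y l - x l)) := by
    rw [h x y]
    ring
  rw [h5]
  refine (norm_add_le _ _).trans ?_
  refine (add_le_add ((norm_add_le _ _).trans (add_le_add ((norm_add_le _ _).trans
    (add_le_add (h3 l hl j hj k hk) (h3 k hk j hj l hl))) (h3 j hj k hk l hl))) h4).trans
    (le_of_eq ?_)
  ring

private theorem xpA_low {S : Finset (Fin g)} {v0 : Fin g → ℂ} (hn : Nd b S v0) :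
    ∃ C > (0 : ℝ), ∀ D : Fin g → ℂ, ∀ r : ℝ, 0 ≤ r →
      (∀ i ∈ S, ‖∑ j ∈ S, Hs b S v0 i j * D j‖ ≤ r) → ∀ i ∈ S, ‖D i‖ ≤ C * r := by
  classical
  let L : (S → ℂ) →ₗ[ℂ] (S → ℂ) :=
    { toFun := fun x i => ∑ j : S, Hs b S v0 i j * x j
      map_add' := fun x y => by
        ext i
        simp only [Pi.add_apply, mul_add, Finset.sum_add_distrib]
      map_smul' := fun c x => by
        ext i
        simp only [Pi.smul_apply, smul_eq_mul, RingHom.id_apply, Finset.mul_sum]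
        exact Finset.sum_congr rfl fun j _ => by ring }
  have hL : ∀ x i, L x i = ∑ j : S, Hs b S v0 i j * x j := fun x i => rfl
  have hker : LinearMap.ker L = ⊥ := by
    rw [LinearMap.ker_eq_bot']
    intro x hx
    have h1 := hn (fun j => if hj : j ∈ S then x ⟨j, hj⟩ else 0) (fun i hi => by
      have h2 := congrFun hx ⟨i, hi⟩
      rw [hL, Pi.zero_apply] at h2
      rw [← Finset.sum_coe_sort, ← h2]
      refine Finset.sum_congr rfl fun j _ => ?_
      rw [dif_pos j.2])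
    ext i
    have h3 := h1 i.1 i.2
    rw [dif_pos i.2] at h3
    exact h3
  obtain ⟨K, hK0, hK⟩ := L.exists_antilipschitzWith hker
  refine ⟨K, hK0, fun D r hr hD i hi => ?_⟩
  have h4 := hK.le_mul_dist (fun j : S => D j) 0
  rw [map_zero, dist_zero_right, dist_zero_right] at h4
  have h5 : ‖L (fun j : S => D j)‖ ≤ r := by
    rw [pi_norm_le_iff_of_nonneg hr]
    intro i
    rw [hL, Finset.sum_coe_sort S (fun j => Hs b S v0 i j * D j)]
    exact hD i i.2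
  have h6 := norm_le_pi_norm (fun j : S => D j) ⟨i, hi⟩
  exact h6.trans (h4.trans (mul_le_mul_of_nonneg_left h5 K.2))

private theorem xpA_zero (hb : ∀ i j, b i j = b j i) {S : Finset (Fin g)} {k : Fin g}
    (hk : k ∉ S) {w : Fin g → ℂ} (hw : Sing b (insert k S) w) (h0 : w k ≠ 0) {i : Fin g}
    (hi : i ∈ S) :
    mu b (S.erase i) w + ∑ m ∈ S, Hs b S w i m * (b m k / w k) = 0 := by
  have h1 := hw.2 i (Finset.mem_insert_of_mem hi)
  have hki : k ≠ i := fun h => hk (h ▸ hi)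
  have hk' : k ∉ S.erase i := fun h => hk (Finset.mem_of_mem_erase h)
  rw [Finset.erase_insert_of_ne hki, mu_rec b hb (Finset.mem_insert_self k _),
    Finset.erase_insert hk'] at h1
  have h2 : w k * (mu b (S.erase i) w + ∑ m ∈ S, Hs b S w i m * (b m k / w k)) = 0 := by
    rw [xpA_sum S hi w (fun m => b m k / w k), mul_add, Finset.mul_sum, ← h1]
    refine congrArg _ (Finset.sum_congr rfl fun m _ => ?_)
    rw [hb k m]
    field_simp
  exact (mul_eq_zero.1 h2).resolve_left h0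

theorem exp_first (hb : ∀ i j, b i j = b j i) {S : Finset (Fin g)} (hS : S.card = 4)
    {k : Fin g} (hk : k ∉ S) {v0 : Fin g → ℂ} (h0 : Sing b S v0) (hn : Nd b S v0) :
    ∃ δ > 0, ∃ K > 0, ∃ ρ > 0, ∀ w : Fin g → ℂ, Sing b (insert k S) w → ρ < ‖w k‖ →
      (∀ i ∈ S, ‖w i - v0 i‖ ≤ δ) →
      ∀ i ∈ S, ‖w i - v0 i + b i k / w k‖ ≤ K / ‖w k‖ ^ 2 := by
  have hs0 := h0
  clear h0
  classical
  obtain ⟨C, hC0, hC⟩ := xpA_low hn
  obtain ⟨V, hV⟩ : ∃ V : ℝ, V = ∑ i, ‖v0 i‖ := ⟨_, rfl⟩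
  obtain ⟨c, hc⟩ : ∃ c : ℝ, c = ∑ i, ‖b i k‖ := ⟨_, rfl⟩
  have hV0 : 0 ≤ V := by
    rw [hV]
    positivity
  have hc0 : 0 ≤ c := by
    rw [hc]
    positivity
  have hVi : ∀ i, ‖v0 i‖ ≤ V := fun i => by
    rw [hV]
    exact Finset.single_le_sum (f := fun i => ‖v0 i‖) (fun j _ => norm_nonneg _)
      (Finset.mem_univ i)
  have hci : ∀ i, ‖b i k‖ ≤ c := fun i => by
    rw [hc]
    exact Finset.single_le_sum (f := fun i => ‖b i k‖) (fun j _ => norm_nonneg _)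
      (Finset.mem_univ i)
  obtain ⟨δ, hδ⟩ : ∃ δ : ℝ, δ = 1 / (4 * C * (3 * V + 1) + 2) := ⟨_, rfl⟩
  have hδ0 : 0 < δ := by
    rw [hδ]
    positivity
  have hδ1 : δ * (4 * C * (3 * V + 1) + 2) = 1 := by
    rw [hδ]
    field_simp
  have hδ2 : 2 * δ ≤ 1 := by
    have : 0 ≤ δ * (4 * C * (3 * V + 1)) := by positivity
    nlinarith
  have hδ3 : C * ((3 * V + 1) * (2 * δ)) ≤ 1 / 2 := by nlinarith
  refine ⟨δ, hδ0, 2 * (C * ((3 * (V + 1) + 1) * c ^ 2)) + 1, by positivity, (c + 1) / δ,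
    by positivity, fun w hw hwk hwi => ?_⟩
  have hwk0 : 0 < ‖w k‖ := lt_trans (by positivity) hwk
  have h0 : w k ≠ 0 := norm_pos_iff.1 hwk0
  obtain ⟨e, he⟩ : ∃ e : ℝ, e = 1 / ‖w k‖ := ⟨_, rfl⟩
  have he0 : 0 < e := by
    rw [he]
    positivity
  have hec : c * e ≤ δ := by
    have h1 : c + 1 < ‖w k‖ * δ := by
      rwa [div_lt_iff₀ hδ0] at hwk
    rw [he, mul_one_div, div_le_iff₀ hwk0]
    nlinarith
  have hq : ∀ m, ‖b m k / w k‖ ≤ c * e := fun m => by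
    rw [norm_div, he, mul_one_div]
    exact div_le_div_of_nonneg_right (hci m) hwk0.le
  -- the point `y`
  obtain ⟨y, hy⟩ : ∃ y : Fin g → ℂ, y = fun m => w m + b m k / w k := ⟨_, rfl⟩
  have hyw : ∀ m, y m - w m = b m k / w k := fun m => by
    rw [hy]
    ring
  have hDe : ∀ m, y m - v0 m = w m - v0 m + b m k / w k := fun m => by
    rw [hy]
    ring
  -- the norm of `D`
  have hne : S.Nonempty := by
    rw [← Finset.card_pos, hS]
    norm_num
  obtain ⟨i0, hi0, hmax⟩ := S.exists_max_image (fun m => ‖y m - v0 m‖) hne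
  obtain ⟨d, hd⟩ : ∃ d : ℝ, d = ‖y i0 - v0 i0‖ := ⟨_, rfl⟩
  have hd0 : 0 ≤ d := by
    rw [hd]
    exact norm_nonneg _
  have hdm : ∀ m ∈ S, ‖y m - v0 m‖ ≤ d := fun m hm => by
    rw [hd]
    exact hmax m hm
  have hd2 : d ≤ 2 * δ := by
    rw [hd, hDe]
    refine (norm_add_le _ _).trans ?_
    have := hwi i0 hi0
    have := hq i0
    linarith
  have hwX : ∀ m ∈ S, ‖w m‖ ≤ V + 1 := fun m hm => by
    have h1 : w m = (w m - v0 m) + v0 m := by ring
    rw [h1]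
    refine (norm_add_le _ _).trans ?_
    have := hwi m hm
    have := hVi m
    linarith
  -- the key estimate
  have hkey : ∀ i ∈ S, ‖∑ j ∈ S, Hs b S v0 i j * (y j - v0 j)‖ ≤
      (3 * (V + 1) + 1) * (c ^ 2 * e ^ 2) + (3 * V + 1) * (2 * δ) * d := by
    intro i hi
    have h1 := xpA_bd hb hS hi w y hwX (fun m _ => by rw [hyw]; exact hq m)
    have h2 := xpA_bd hb hS hi v0 y (fun m _ => hVi m) hdm
    have h3 := xpA_zero hb hk hw h0 hi
    have h4 : ∑ m ∈ S, Hs b S w i m * (y m - w m) = ∑ m ∈ S, Hs b S w i m * (b m k / w k) :=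
      Finset.sum_congr rfl fun m _ => by rw [hyw]
    rw [h4] at h1
    have h5 : mu b (S.erase i) y - mu b (S.erase i) w -
        ∑ m ∈ S, Hs b S w i m * (b m k / w k) = mu b (S.erase i) y := by
      linear_combination -h3
    rw [h5] at h1
    rw [hs0.2 i hi, sub_zero] at h2
    have h6 : ∑ j ∈ S, Hs b S v0 i j * (y j - v0 j) = mu b (S.erase i) y -
        (mu b (S.erase i) y - ∑ m ∈ S, Hs b S v0 i m * (y m - v0 m)) := by ring
    rw [h6]
    refine (norm_sub_le _ _).trans (add_le_add (h1.trans ?_) (h2.trans ?_))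
    · have h7 : (c * e) ^ 2 = c ^ 2 * e ^ 2 := by ring
      rw [h7]
      refine mul_le_mul_of_nonneg_right ?_ (by positivity)
      linarith
    · have h8 : 3 * V + d ≤ 3 * V + 1 := by linarith
      have h9 : d ^ 2 ≤ 2 * δ * d := by nlinarith
      calc (3 * V + d) * d ^ 2 ≤ (3 * V + 1) * (2 * δ * d) := by
            refine mul_le_mul h8 h9 (by positivity) (by positivity)
        _ = _ := by ring
  have hr0 : 0 ≤ (3 * (V + 1) + 1) * (c ^ 2 * e ^ 2) + (3 * V + 1) * (2 * δ) * d := by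
    positivity
  have hdd := hC (fun j => y j - v0 j) _ hr0 hkey i0 hi0
  rw [← hd] at hdd
  have hfin : d ≤ 2 * (C * ((3 * (V + 1) + 1) * (c ^ 2 * e ^ 2))) := by
    have h1 : C * ((3 * V + 1) * (2 * δ)) * d ≤ 1 / 2 * d :=
      mul_le_mul_of_nonneg_right hδ3 hd0
    nlinarith
  intro i hi
  rw [← hDe]
  refine (hdm i hi).trans (hfin.trans ?_)
  rw [he]
  have h1 : (1 / ‖w k‖) ^ 2 = 1 / ‖w k‖ ^ 2 := by
    rw [div_pow, one_pow]
  rw [h1, le_div_iff₀ (by positivity)]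
  have h2 : 2 * (C * ((3 * (V + 1) + 1) * (c ^ 2 * (1 / ‖w k‖ ^ 2)))) * ‖w k‖ ^ 2 =
      2 * (C * ((3 * (V + 1) + 1) * c ^ 2)) := by
    field_simp
  rw [h2]
  linarith

end AMP
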