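import Pool.Agent.Lib.MP_b57e3c_ag_P.Fl
import Pool.Agent.Lib.MP_b57e3c_ag_P.Lg
import Pool.Agent.Lib.MP_b57e3c_ag_P.Cs
import Pool.Agent.Lib.MP_b57e3c_ag_P.Ml
import Pool.Agent.Lib.MP_b57e3c_ag_P.SgB
import Pool.Agent.Lib.MP_b57e3c_ag_P.XpA

set_option autoImplicit false

/-!
# Module EcA : the one-dimensional slices of the limit sets

`Xs C T = {w ∈ Lim T | w l = 1/2 for l ∉ T}`.
`Xs_closed`: `Lim_closed`. `Xs_mp`: `mp_cslices` with `K = Tᶜ` (`card Tᶜ = g - 5`, `m = 1 + card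
Tᶜ`). `Xs_inf`: let `w : ℕ → Fin g → ℂ`, `w n ∈ Xs`, along an ultrafilter `V`. `Lim_sing` and
`sing_limit` give `I ⊆ T`, `v'` with `‖w n i‖ → ∞` for `i ∈ I`, `w n i → v' i` for `i ∈ T \ I`,
`Sing b (T \ I) v'`. By `sing_card` `4 ≤ card (T \ I)`, so `card I ≤ 1`. If `I = ∅`: `w n`
converges (the coordinates outside `T` are constant) to a point of `Xs` (closed). If `I = {j}`:
`T \ I = T.erase j`, `Lim_near` gives `Near (T.erase j) v'`. `Xs_more`: let `Near (T.erase j)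
v'`, `i ∈ T.erase j`. `Nd b (T.erase j) v'` (`sing_nd`, `Near.sing`), `Full` (`Near.full`). Take
`δ, K, ρ` from `exp_first` (`S = T.erase j`, `k = j`) and `ρ'` from `Full.lim` for this `δ`. For
real `t > 0` large `z = - b i j * t` has `‖z‖ > ρ, ρ'`; the point `w ∈ Lim T` with `w j = z` is
in `Xs` and `‖w i - v' i + b i j / z‖ ≤ K/‖z‖²`, `b i j / z = - 1/t`, so
`Re (w i) ≥ Re (v' i) + 1/t - K/(‖b i j‖² t²) > Re (v' i)` for `t` large.
-/

open Complex Filter Topology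

namespace AMP

open AMC

variable {g m : ℕ}

/-- the slice of the limit set over `w l = 1/2`, `l ∉ T` -/
def Xs (C : Sq g m) (T : Finset (Fin g)) : Set (Fin g → ℂ) :=
  C.Lim T ∩ {w | ∀ l, l ∉ T → w l = 1 / 2}

theorem Xs_closed (C : Sq g m) (T : Finset (Fin g)) : IsClosed (Xs C T) := by
  refine (C.Lim_closed T).inter ?_
  simp only [Set.ofPred_forall]
  exact isClosed_iInter fun l => isClosed_iInter fun _ =>
    isClosed_eq (continuous_apply l) continuous_const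

theorem Xs_mp (C : Sq g m) (hm : m + 4 = g) {T : Finset (Fin g)} (hT : T.card = 5) :
    MP 1 (Xs C T) := by
  have h5 : T.card ≤ g := by
    have h := Finset.card_le_univ T
    rwa [Fintype.card_fin] at h
  have h1 : 1 + (Tᶜ : Finset (Fin g)).card = m := by
    rw [Finset.card_compl, Fintype.card_fin]
    omega
  have h2 : MP (1 + (Tᶜ : Finset (Fin g)).card) (C.Lim T) := by
    rw [h1]
    exact C.Lim_mp T
  have h3 := mp_cslices Tᶜ (C.Lim_closed T) h2 (fun _ => 1 / 2)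
  have h4 : C.Lim T ∩ {z | ∀ k ∈ (Tᶜ : Finset (Fin g)), z k = (fun _ => (1 / 2 : ℂ)) k} =
      Xs C T := by
    ext z
    simp only [Xs, Set.mem_inter_iff, Set.mem_ofPred_eq, Finset.mem_compl]
  rw [h4] at h3
  exact h3

theorem Xs_inf (C : Sq g m) {T : Finset (Fin g)} (hT : T.card = 5) (V : Ultrafilter ℕ)
    (w : ℕ → Fin g → ℂ) (hw : ∀ n, w n ∈ Xs C T) :
    (∃ w' ∈ Xs C T, ∀ i, Tendsto (fun n => w n i) (V : Filter ℕ) (𝓝 (w' i))) ∨
    ∃ j ∈ T, ∃ v' : Fin g → ℂ, Tendsto (fun n => ‖w n j‖) (V : Filter ℕ) atTop ∧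
      (∀ i ∈ T.erase j, Tendsto (fun n => w n i) (V : Filter ℕ) (𝓝 (v' i))) ∧
      C.Near (T.erase j) v' := by
  classical
  have hs : ∀ n, Sing C.b T (w n) := fun n => C.Lim_sing (hw n).1 (hw n).2
  obtain ⟨I, hI, v', h1, h2, h3⟩ := sing_limit C.b C.sym T V w (Eventually.of_forall hs)
  have h4 := sing_card C.sym C.ne0 h3
  have h5 := Finset.card_sdiff_add_card_eq_card hI
  have h6 : I.card ≤ 1 := by omega
  rcases Nat.le_one_iff_eq_zero_or_eq_one.1 h6 with h7 | h7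
  · left
    rw [Finset.card_eq_zero] at h7
    rw [h7, Finset.sdiff_empty] at h2
    have h8 : ∀ i, Tendsto (fun n => w n i) (V : Filter ℕ)
        (𝓝 ((fun i => if i ∈ T then v' i else 1 / 2) i)) := by
      intro i
      show Tendsto (fun n => w n i) (V : Filter ℕ) (𝓝 (if i ∈ T then v' i else 1 / 2))
      by_cases hi : i ∈ T
      · rw [if_pos hi]
        exact h2 i hi
      · rw [if_neg hi]
        exact tendsto_const_nhds.congr fun n => ((hw n).2 i hi).symm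
    refine ⟨fun i => if i ∈ T then v' i else 1 / 2, ?_, h8⟩
    exact (Xs_closed C T).mem_of_tendsto (tendsto_pi_nhds.2 h8) (Eventually.of_forall hw)
  · right
    obtain ⟨j, rfl⟩ := Finset.card_eq_one.1 h7
    have hj : j ∈ T := hI (Finset.mem_singleton_self j)
    rw [Finset.sdiff_singleton_eq_erase] at h2
    have h1j := h1 j (Finset.mem_singleton_self j)
    refine ⟨j, hj, v', h1j, h2, C.Lim_near hj fun δ hδ ρ => ?_⟩
    have e1 : ∀ᶠ n in (V : Filter ℕ), ρ < ‖w n j‖ := h1j.eventually_gt_atTop ρ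
    have e2 : ∀ᶠ n in (V : Filter ℕ), ∀ i ∈ T.erase j, ‖w n i - v' i‖ < δ := by
      refine (Filter.eventually_all_finset _).2 fun i hi => ?_
      have h8 := (h2 i hi).sub_const (v' i)
      rw [sub_self] at h8
      have h9 := h8.norm
      rw [norm_zero] at h9
      exact h9.eventually_lt_const hδ
    obtain ⟨n, hn1, hn2⟩ := (e1.and e2).exists
    exact ⟨w n, (hw n).1, (hw n).2, hn1, hn2⟩

theorem Xs_more (C : Sq g m) (hm : m + 4 = g) (hE : NoEq C.b) {T : Finset (Fin g)}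
    (hT : T.card = 5) {j : Fin g} (hj : j ∈ T) {v' : Fin g → ℂ} (h : C.Near (T.erase j) v')
    {i : Fin g} (hi : i ∈ T.erase j) : ∃ w ∈ Xs C T, (v' i).re < (w i).re := by
  have hS : (T.erase j).card = 4 := by
    rw [Finset.card_erase_of_mem hj, hT]
  have hjS : j ∉ T.erase j := Finset.notMem_erase j T
  have hn := sing_nd C.sym C.ne0 hE hS h.sing
  have hf := h.full hm hS hn
  obtain ⟨δ, hδ, K, hK, ρ, hρ, h1⟩ := exp_first C.sym hS hjS h.sing hn
  obtain ⟨ρ', hρ', h2⟩ := hf.lim hjS hδ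
  rw [Finset.insert_erase hj] at h1 h2
  have hij : i ≠ j := (Finset.mem_erase.1 hi).1
  have hβ : 0 < ‖C.b i j‖ := norm_pos_iff.2 (C.ne0 i j hij)
  obtain ⟨t, ht⟩ : ∃ t, t = (ρ + ρ') / ‖C.b i j‖ + K / ‖C.b i j‖ ^ 2 + 1 := ⟨_, rfl⟩
  have a1 : 0 < (ρ + ρ') / ‖C.b i j‖ := by positivity
  have a2 : 0 < K / ‖C.b i j‖ ^ 2 := by positivity
  have ht0 : 0 < t := by
    rw [ht]
    positivity
  have ht1 : ρ + ρ' < ‖C.b i j‖ * t := by
    have h3 : (ρ + ρ') / ‖C.b i j‖ < t := by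
      rw [ht]
      linarith
    rw [div_lt_iff₀ hβ] at h3
    linarith
  have ht2 : K < ‖C.b i j‖ ^ 2 * t := by
    have h3 : K / ‖C.b i j‖ ^ 2 < t := by
      rw [ht]
      linarith
    rw [div_lt_iff₀ (by positivity)] at h3
    linarith
  have htc : (t : ℂ) ≠ 0 := by exact_mod_cast ht0.ne'
  have hz : ‖-(C.b i j * (t : ℂ))‖ = ‖C.b i j‖ * t := by
    rw [norm_neg, norm_mul, Complex.norm_real, Real.norm_eq_abs, abs_of_pos ht0]
  obtain ⟨w, hw, hwj, hwi, hwl⟩ := h2 (-(C.b i j * (t : ℂ))) (by rw [hz]; linarith)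
  refine ⟨w, ⟨hw, hwl⟩, ?_⟩
  have h3 := h1 w (C.Lim_sing hw hwl) (by rw [hwj, hz]; linarith) hwi i hi
  rw [hwj, hz] at h3
  have h4 : C.b i j / -(C.b i j * (t : ℂ)) = -(((t⁻¹ : ℝ) : ℂ)) := by
    rw [div_neg, Complex.ofReal_inv, ← div_div, div_self (C.ne0 i j hij), one_div]
  rw [h4] at h3
  have h5 := (Complex.abs_re_le_norm (w i - v' i + -(((t⁻¹ : ℝ) : ℂ)))).trans h3
  rw [Complex.add_re, Complex.sub_re, Complex.neg_re, Complex.ofReal_re] at h5
  have h6 : K / (‖C.b i j‖ * t) ^ 2 < t⁻¹ := by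
    rw [div_lt_iff₀ (by positivity)]
    have h7 : t⁻¹ * (‖C.b i j‖ * t) ^ 2 = ‖C.b i j‖ ^ 2 * t := by
      field_simp
    rw [h7]
    exact ht2
  have h8 := (abs_le.1 h5).1
  linarith

end AMP
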