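import Pool.Agent.Lib.MP_b57e3c_ag_P.Ap

set_option autoImplicit false

/-!
# Module Ls : limits of singular points; classification

`N_sub`: `Df.mem_singF`, `C.sub`.
`lim_sing`: let `ρ` be a bound for `‖w n i‖` (`i ∈ S`, most `n`). At a point of `singF` both `ff`
and all `pf` vanish, so `Sq.approx` and `Sq.approx1` give `‖mu C.b S (w n)‖ ≤ κ`, `‖mu C.b
(S.erase i) (w n)‖ ≤ κ` for most `n`, every `κ > 0`; pass to the limit (`mu_cont` / `mu_tendsto`).
`classify`: `S` = the set of `i` such that `‖u n i‖ / r n` is bounded by some `R_i` for `U`-most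
`n`; for `i ∉ S`, every `R`: `R r n ≤ ‖u n i‖` for most `n` (ultrafilter). For `i ∈ S` the
numbers `u n i / r n` converge along `U` (compact balls) to `w0 i`. Apply `lim_sing` to `w n = `
(`u n i / r n` for `i ∈ S`, `u n k` for `k ∉ S`), `sc (r n) S (w n) = u n`.
`Near.sing`: for every `j ∈ ℕ` take `δ = 1/(j+1)`, `R = j`; choose for each `n` a point `w n`
which is as good as possible (e.g. for each `n` let `j(n)` be the largest `j ≤ n` for which a
point as in `Near` exists, or prove the two inequalities `‖mu ...(v)‖ ≤ κ` directly: given `κ`,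
take `R`, most `n` from `Sq.approx`, `Sq.approx1` with `κ/2`, `ρ = max ‖v i‖ + 1`, and `δ ≤ 1`
from the continuity of the polynomials `mu C.b S`, `mu C.b (S.erase i)` at `v` — they depend only
on the coordinates in `S` —, then one `n` and one `w` from `Near`; this direct way is easier).
-/

open Complex Filter Topology

namespace AMP

variable {g m : ℕ}

theorem Sq.N_sub (C : Sq g m) {n : ℕ} {S : Finset (Fin g)} {w : Fin g → ℂ} (hw : w ∈ C.N n S) :
    sc (C.r n) S w ∈ singF (C.τ n) :=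
  (mem_singF (C.siegel n) _).2 (C.sub n hw)

/-- at a singular point over the base of the tube the matching polynomials are small -/
private theorem ls_pt (C : Sq g m) (S : Finset (Fin g)) {ρ κ : ℝ} (hρ : 0 ≤ ρ) (hκ : 0 < κ) :
    ∃ R > 0, ∀ᶠ n in (C.U : Filter ℕ), ∀ w : Fin g → ℂ, (∀ i ∈ S, ‖w i‖ ≤ ρ) →
      (∀ k, k ∉ S → w k ∈ Gs (C.τ n k k) ∧ R * C.r n ≤ ‖w k‖) →
      sc (C.r n) S w ∈ singF (C.τ n) →
      ‖mu C.b S w‖ ≤ κ ∧ ∀ i ∈ S, ‖mu C.b (S.erase i) w‖ ≤ κ := by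
  obtain ⟨R1, hR1, h1⟩ := C.approx S hρ hκ
  obtain ⟨R2, hR2, h2⟩ := C.approx1 S hρ hκ
  refine ⟨max R1 R2, lt_max_of_lt_left hR1, ?_⟩
  filter_upwards [h1, h2] with n h1 h2 w hw hk hs
  have hr := (C.rpos n).le
  have k1 := h1 w hw fun k hk' => ⟨(hk k hk').1,
    (mul_le_mul_of_nonneg_right (le_max_left R1 R2) hr).trans (hk k hk').2⟩
  have k2 := h2 w hw fun k hk' => ⟨(hk k hk').1,
    (mul_le_mul_of_nonneg_right (le_max_right R1 R2) hr).trans (hk k hk').2⟩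
  refine ⟨?_, fun i hi => ?_⟩
  · rw [hs.1, zero_div, zero_sub, norm_neg] at k1
    exact k1
  · have k3 := k2 i hi
    rw [hs.2 i, mul_zero, zero_div, zero_sub, norm_neg] at k3
    exact k3

open Classical in
/-- `μ_T` is continuous in the coordinates in `T` -/
private theorem ls_tendsto (b : Fin g → Fin g → ℂ) (T : Finset (Fin g)) {l : Filter ℕ}
    (w : ℕ → Fin g → ℂ) (w0 : Fin g → ℂ)
    (h : ∀ i ∈ T, Tendsto (fun n => w n i) l (𝓝 (w0 i))) :
    Tendsto (fun n => mu b T (w n)) l (𝓝 (mu b T w0)) := by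
  have h1 : Tendsto (fun n => fun i => if i ∈ T then w n i else w0 i) l (𝓝 w0) := by
    rw [tendsto_pi_nhds]
    intro i
    by_cases hi : i ∈ T
    · simpa [hi] using h i hi
    · simpa [hi] using tendsto_const_nhds (x := w0 i)
  have h2 := (mu_cont b T).continuousAt.tendsto.comp h1
  refine h2.congr fun n => mu_congr b T fun i hi => ?_
  simp [hi]

theorem Sq.lim_sing (C : Sq g m) (S : Finset (Fin g)) (w : ℕ → Fin g → ℂ) (w0 : Fin g → ℂ)
    (h1 : ∀ i ∈ S, Tendsto (fun n => w n i) (C.U : Filter ℕ) (𝓝 (w0 i)))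
    (h2 : ∀ k, k ∉ S → ∀ R : ℝ, ∀ᶠ n in (C.U : Filter ℕ), w n k ∈ Gs (C.τ n k k) ∧
      R * C.r n ≤ ‖w n k‖)
    (h3 : ∀ᶠ n in (C.U : Filter ℕ), sc (C.r n) S (w n) ∈ singF (C.τ n)) : Sing C.b S w0 := by
  obtain ⟨ρ, hρ0, hρ⟩ : ∃ ρ : ℝ, 0 ≤ ρ ∧ ∀ i, ‖w0 i‖ + 1 ≤ ρ := by
    refine ⟨∑ i, ‖w0 i‖ + 1, by positivity, fun i => ?_⟩
    have := Finset.single_le_sum (f := fun i => ‖w0 i‖) (fun i _ => norm_nonneg _)
      (Finset.mem_univ i)
    simpa using this
  have hb : ∀ᶠ n in (C.U : Filter ℕ), ∀ i ∈ S, ‖w n i‖ ≤ ρ := by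
    refine (Filter.eventually_all_finset S).2 fun i hi => ?_
    have h4 := (h1 i hi).norm
    have h5 : ∀ᶠ n in (C.U : Filter ℕ), ‖w n i‖ < ‖w0 i‖ + 1 :=
      h4.eventually_lt_const (lt_add_one _)
    filter_upwards [h5] with n h5
    exact h5.le.trans (hρ i)
  have hk : ∀ κ > 0, ∀ᶠ n in (C.U : Filter ℕ), ‖mu C.b S (w n)‖ ≤ κ ∧
      ∀ i ∈ S, ‖mu C.b (S.erase i) (w n)‖ ≤ κ := by
    intro κ hκ
    obtain ⟨R, hR, h⟩ := ls_pt C S hρ0 hκ
    have h4 : ∀ᶠ n in (C.U : Filter ℕ), ∀ k, k ∉ S → w n k ∈ Gs (C.τ n k k) ∧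
        R * C.r n ≤ ‖w n k‖ := by
      refine Filter.eventually_all.2 fun k => ?_
      by_cases hk : k ∈ S
      · exact Filter.Eventually.of_forall fun n h => absurd hk h
      · filter_upwards [h2 k hk R] with n h5 _
        exact h5
    filter_upwards [h, hb, h4, h3] with n h hb h4 h3
    exact h (w n) hb h4 h3
  refine ⟨?_, fun i hi => ?_⟩
  · have h4 := (ls_tendsto C.b S w w0 h1).norm
    have h5 : ‖mu C.b S w0‖ ≤ 0 := le_of_forall_pos_le_add fun κ hκ => by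
      rw [zero_add]
      exact le_of_tendsto h4 ((hk κ hκ).mono fun n h => h.1)
    exact norm_le_zero_iff.1 h5
  · have h4 := (ls_tendsto C.b (S.erase i) w w0
      fun j hj => h1 j (Finset.mem_of_mem_erase hj)).norm
    have h5 : ‖mu C.b (S.erase i) w0‖ ≤ 0 := le_of_forall_pos_le_add fun κ hκ => by
      rw [zero_add]
      exact le_of_tendsto h4 ((hk κ hκ).mono fun n h => h.2 i hi)
    exact norm_le_zero_iff.1 h5

open Classical in
theorem Sq.classify (C : Sq g m) (u : ℕ → Fin g → ℂ)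
    (h1 : ∀ᶠ n in (C.U : Filter ℕ), u n ∈ singF (C.τ n))
    (h2 : ∀ k, ∀ᶠ n in (C.U : Filter ℕ), u n k ∈ Gs (C.τ n k k)) :
    ∃ (S : Finset (Fin g)) (w0 : Fin g → ℂ),
      (∀ i ∈ S, Tendsto (fun n => u n i / (C.r n : ℂ)) (C.U : Filter ℕ) (𝓝 (w0 i))) ∧
      (∀ k, k ∉ S → ∀ R : ℝ, ∀ᶠ n in (C.U : Filter ℕ), R * C.r n ≤ ‖u n k‖) ∧
      Sing C.b S w0 := by
  obtain ⟨S, hS⟩ : ∃ S : Finset (Fin g), ∀ i, i ∈ S ↔
      ∃ R : ℝ, ∀ᶠ n in (C.U : Filter ℕ), ‖u n i‖ ≤ R * C.r n :=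
    ⟨Finset.univ.filter fun i => ∃ R : ℝ, ∀ᶠ n in (C.U : Filter ℕ), ‖u n i‖ ≤ R * C.r n,
      fun i => by simp⟩
  have hlim : ∀ i, ∃ x : ℂ, i ∈ S →
      Tendsto (fun n => u n i / (C.r n : ℂ)) (C.U : Filter ℕ) (𝓝 x) := by
    intro i
    by_cases hi : i ∈ S
    · obtain ⟨R, hR⟩ := (hS i).1 hi
      have h3 : (C.U.map fun n => u n i / (C.r n : ℂ)) ≤
          (𝓟 (Metric.closedBall (0 : ℂ) R)) := by
        rw [Filter.le_principal_iff]
        show ∀ᶠ n in (C.U : Filter ℕ), u n i / (C.r n : ℂ) ∈ Metric.closedBall (0 : ℂ) R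
        filter_upwards [hR] with n hR
        rw [mem_closedBall_zero_iff, norm_div, Complex.norm_real, Real.norm_eq_abs,
          abs_of_pos (C.rpos n), div_le_iff₀ (C.rpos n)]
        exact hR
      obtain ⟨x, _, hx⟩ := (isCompact_closedBall (0 : ℂ) R).ultrafilter_le_nhds _ h3
      exact ⟨x, fun _ => hx⟩
    · exact ⟨0, fun h => absurd h hi⟩
  choose w0 hw0 using hlim
  have hfar : ∀ k, k ∉ S → ∀ R : ℝ, ∀ᶠ n in (C.U : Filter ℕ), R * C.r n ≤ ‖u n k‖ := by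
    intro k hk R
    have h3 : ¬ ∀ᶠ n in (C.U : Filter ℕ), ‖u n k‖ ≤ R * C.r n :=
      fun h => hk ((hS k).2 ⟨R, h⟩)
    rw [← Ultrafilter.eventually_not] at h3
    filter_upwards [h3] with n h3
    exact (not_le.1 h3).le
  refine ⟨S, w0, fun i hi => hw0 i hi, hfar, ?_⟩
  refine C.lim_sing S (fun n i => if i ∈ S then u n i / (C.r n : ℂ) else u n i) w0
    (fun i hi => ?_) (fun k hk R => ?_) ?_
  · simpa [hi] using hw0 i hi
  · filter_upwards [hfar k hk R, h2 k] with n h3 h4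
    simpa [hk] using ⟨h4, h3⟩
  · filter_upwards [h1] with n h1
    have h3 : sc (C.r n) S (fun i => if i ∈ S then u n i / (C.r n : ℂ) else u n i) = u n := by
      funext i
      have h4 : (C.r n : ℂ) ≠ 0 := by exact_mod_cast (C.rpos n).ne'
      by_cases hi : i ∈ S
      · simp only [sc, hi, if_true]
        field_simp
      · simp only [sc, hi, if_false]
    rw [h3]
    exact h1

open Classical in
/-- the values of `μ_T` at nearby singular points are small -/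
private theorem ls_near {C : Sq g m} {S : Finset (Fin g)} {v : Fin g → ℂ} (h : C.Near S v)
    (T : Finset (Fin g)) (hT : T ⊆ S)
    (hs : ∀ w κ, ‖mu C.b S w‖ ≤ κ ∧ (∀ i ∈ S, ‖mu C.b (S.erase i) w‖ ≤ κ) →
      ‖mu C.b T w‖ ≤ κ) : mu C.b T v = 0 := by
  have h5 : ‖mu C.b T v‖ ≤ 0 := by
    refine le_of_forall_pos_le_add fun κ hκ => ?_
    obtain ⟨ρ, hρ0, hρ⟩ : ∃ ρ : ℝ, 0 ≤ ρ ∧ ∀ i, ‖v i‖ + 1 ≤ ρ := by
      refine ⟨∑ i, ‖v i‖ + 1, by positivity, fun i => ?_⟩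
      have := Finset.single_le_sum (f := fun i => ‖v i‖) (fun i _ => norm_nonneg _)
        (Finset.mem_univ i)
      simpa using this
    obtain ⟨δ, hδ, hc⟩ := Metric.continuous_iff.1 (mu_cont C.b T) v (κ / 2) (half_pos hκ)
    obtain ⟨R, hR, h1⟩ := ls_pt C S hρ0 (half_pos hκ)
    obtain ⟨n, hn, w, hw, hv, hk⟩ := (h1.and (h (min δ 1) (lt_min hδ one_pos) R)).exists
    have h2 : ∀ i ∈ S, ‖w i‖ ≤ ρ := by
      intro i hi
      have h3 := (hv i hi).le.trans (min_le_right _ _)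
      have h4 : ‖w i‖ ≤ ‖v i‖ + ‖w i - v i‖ := by
        simpa using norm_add_le (v i) (w i - v i)
      linarith [hρ i]
    have h3 := hs w _ (hn w h2 (fun k hk' => ⟨⟨(hk k hk').1.1.le, (hk k hk').1.2.le⟩,
      (hk k hk').2.le⟩) (C.N_sub hw))
    have h4 : dist (fun i => if i ∈ T then w i else v i) v < δ := by
      rw [dist_pi_lt_iff hδ]
      intro i
      by_cases hi : i ∈ T
      · simp only [hi, if_true]
        rw [dist_eq_norm]
        exact (hv i (hT hi)).trans_le (min_le_left _ _)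
      · simpa [hi] using hδ
    have h6 := hc _ h4
    have h7 : mu C.b T (fun i => if i ∈ T then w i else v i) = mu C.b T w :=
      mu_congr C.b T fun i hi => by simp [hi]
    rw [h7, dist_eq_norm] at h6
    have h8 : ‖mu C.b T v‖ ≤ ‖mu C.b T w‖ + ‖mu C.b T w - mu C.b T v‖ := by
      have h9 := norm_sub_le (mu C.b T w) (mu C.b T w - mu C.b T v)
      rwa [sub_sub_cancel] at h9
    linarith
  exact norm_le_zero_iff.1 h5

theorem Sq.Near.sing {C : Sq g m} {S : Finset (Fin g)} {v : Fin g → ℂ} (h : C.Near S v) :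
    Sing C.b S v :=
  ⟨ls_near h S (Finset.Subset.refl S) fun _ _ hw => hw.1,
    fun i hi => ls_near h (S.erase i) (Finset.erase_subset i S) fun _ _ hw => hw.2 i hi⟩

end AMP
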