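import Pool.Agent.Lib.MP_b57e3c_ag_P.Defs

set_option autoImplicit false

/-!
# Module Mz : a set with the maximum principle of dimension `m` has a point with few zeros

Suppose `M ∩ O ≠ ∅`. Choose `p ∈ M ∩ O` with the least possible number of vanishing coordinates,
let `Z = {i | p i = 0}`, `g + 1 ≤ card Z + m`. For `z ∈ M` near `p`: `z ∈ O`, `z k ≠ 0` for `k ∉
Z` (continuity), so `{i | z i = 0} ⊆ Z`, and by minimality equality, so `z i = 0` for `i ∈ Z`. Let
`φ z = ∑_{i ∈ Z} ‖z i‖² - ∑_{k ∉ Z} ‖z k - p k‖²`. For `z ∈ M` near `p`: `φ z ≤ 0 = φ p`. `φ` is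
a test function for `m`: `‖z k - p k‖² = ‖z k‖² - 2 Re (conj (p k) * z k) + ‖p k‖²`, the matrix
`h = diagonal (1 on Z, -1 outside)`, and `HForm h` is positive definite on
`V = {z | z k = 0 for k ∉ Z}`, of dimension `card Z`. Contradiction with `MP m M`.
-/

open Complex Filter Topology

namespace AMP

open AMC

private theorem Mz_hform {g : ℕ} (d : Fin g → ℝ) (z : Fin g → ℂ) :
    HForm (Matrix.diagonal fun i => (d i : ℂ)) z = ∑ i, d i * ‖z i‖ ^ 2 := by
  unfold HForm
  rw [Complex.re_sum]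
  refine Finset.sum_congr rfl fun i _ => ?_
  rw [Finset.sum_eq_single i]
  · rw [Matrix.diagonal_apply_eq]
    have h1 : (starRingEnd ℂ) (z i) * (d i : ℂ) * z i = ((d i * ‖z i‖ ^ 2 : ℝ) : ℂ) := by
      have h2 := Complex.conj_mul' (z i)
      push_cast
      rw [← h2]
      ring
    rw [h1, Complex.ofReal_re]
  · intro j _ hj
    rw [Matrix.diagonal_apply_ne _ hj.symm]
    ring
  · intro h
    exact absurd (Finset.mem_univ i) h

private theorem Mz_sq (a b : ℂ) :
    -‖a - b‖ ^ 2 = (2 * (starRingEnd ℂ) b * a - ((‖b‖ ^ 2 : ℝ) : ℂ)).re + -1 * ‖a‖ ^ 2 := by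
  have h1 : ∀ z : ℂ, ‖z‖ ^ 2 = z.re * z.re + z.im * z.im := fun z => by
    rw [← Complex.normSq_eq_norm_sq, Complex.normSq_apply]
  rw [Complex.sub_re, Complex.ofReal_re, h1, h1, h1, Complex.sub_re, Complex.sub_im,
    Complex.mul_re, Complex.mul_re, Complex.mul_im, Complex.conj_re, Complex.conj_im]
  norm_num
  ring

theorem min_zero {g m : ℕ} {M : Set (Fin g → ℂ)} (h : MP m M) {O : Set (Fin g → ℂ)}
    (hO : IsOpen O)
    (hz : ∀ z ∈ M, z ∈ O → g + 1 ≤ (Finset.univ.filter fun i => z i = 0).card + m)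
    (hne : (M ∩ O).Nonempty) : False := by
  obtain ⟨p, ⟨hpM, hpO⟩, hmin⟩ := (measure fun z : Fin g → ℂ =>
    (Finset.univ.filter fun i => z i = 0).card).wf.has_min (M ∩ O) hne
  have hcard := hz p hpM hpO
  let d : Fin g → ℝ := fun i => if p i = 0 then 1 else -1
  let P : (Fin g → ℂ) → ℂ := fun z => ∑ i, if p i = 0 then 0 else
    2 * (starRingEnd ℂ) (p i) * z i - ((‖p i‖ ^ 2 : ℝ) : ℂ)
  let φ : (Fin g → ℂ) → ℝ := fun z => ∑ i, if p i = 0 then ‖z i‖ ^ 2 else -‖z i - p i‖ ^ 2
  let V : Submodule ℂ (Fin g → ℂ) :=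
    LinearMap.ker (LinearMap.funLeft ℂ ℂ (Subtype.val : {k : Fin g // p k ≠ 0} → Fin g))
  have hV : ∀ v ∈ V, ∀ k, p k ≠ 0 → v k = 0 := by
    intro v hv k hk
    exact congrFun (LinearMap.mem_ker.1 hv) ⟨k, hk⟩
  have hrank : (Finset.univ.filter fun i => p i = 0).card ≤ Module.finrank ℂ V := by
    have h1 := LinearMap.finrank_range_add_finrank_ker
      (LinearMap.funLeft ℂ ℂ (Subtype.val : {k : Fin g // p k ≠ 0} → Fin g))
    have h2 := Submodule.finrank_le (LinearMap.range
      (LinearMap.funLeft ℂ ℂ (Subtype.val : {k : Fin g // p k ≠ 0} → Fin g)))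
    rw [Module.finrank_fintype_fun_eq_card] at h1 h2
    rw [Fintype.card_subtype] at h2
    rw [Fintype.card_fin] at h1
    have h3 := Finset.card_filter_add_card_filter_not (s := (Finset.univ : Finset (Fin g)))
      (fun i => p i = 0)
    rw [Finset.card_univ, Fintype.card_fin] at h3
    change _ ≤ Module.finrank ℂ (LinearMap.ker
      (LinearMap.funLeft ℂ ℂ (Subtype.val : {k : Fin g // p k ≠ 0} → Fin g)))
    have h4 : (Finset.univ.filter fun i => ¬ p i = 0).card =
      (Finset.univ.filter fun i => p i ≠ 0).card := rfl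
    omega
  refine h φ ⟨P, Matrix.diagonal fun i => (d i : ℂ), V, ?_, ?_, by omega, ?_⟩ p hpM ?_
  · refine Differentiable.fun_sum fun i _ => ?_
    split_ifs
    · exact differentiable_const _
    · exact ((differentiable_apply i).const_mul _).sub_const _
  · intro z
    rw [Mz_hform, Complex.re_sum, ← Finset.sum_add_distrib]
    refine Finset.sum_congr rfl fun i _ => ?_
    change (if p i = 0 then ‖z i‖ ^ 2 else -‖z i - p i‖ ^ 2) = (if p i = 0 then (0 : ℂ) else
      2 * (starRingEnd ℂ) (p i) * z i - ((‖p i‖ ^ 2 : ℝ) : ℂ)).re +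
        (if p i = 0 then (1 : ℝ) else -1) * ‖z i‖ ^ 2
    split_ifs with h0
    · rw [Complex.zero_re]
      ring
    · exact Mz_sq _ _
  · intro v hv hv0
    rw [Mz_hform]
    obtain ⟨j, hj⟩ : ∃ j, v j ≠ 0 := by
      by_contra hcon
      push Not at hcon
      exact hv0 (funext hcon)
    have hjp : p j = 0 := by
      by_contra hcon
      exact hj (hV v hv j hcon)
    refine Finset.sum_pos' (fun i _ => ?_) ⟨j, Finset.mem_univ j, ?_⟩
    · change 0 ≤ (if p i = 0 then (1 : ℝ) else -1) * ‖v i‖ ^ 2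
      split_ifs with h0
      · positivity
      · rw [hV v hv i h0, norm_zero]
        norm_num
    · change 0 < (if p j = 0 then (1 : ℝ) else -1) * ‖v j‖ ^ 2
      rw [if_pos hjp, one_mul]
      have h1 := norm_pos_iff.2 hj
      positivity
  · have hO1 : ∀ᶠ z in 𝓝[M] p, z ∈ O := mem_nhdsWithin_of_mem_nhds (hO.mem_nhds hpO)
    have hO2 : ∀ᶠ z in 𝓝[M] p, ∀ i, p i ≠ 0 → z i ≠ 0 := by
      refine mem_nhdsWithin_of_mem_nhds (eventually_all.2 fun i => ?_)
      by_cases h0 : p i = 0
      · exact Eventually.of_forall fun z hi => absurd h0 hi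
      · have h1 : Tendsto (fun z : Fin g → ℂ => z i) (𝓝 p) (𝓝 (p i)) :=
          (continuous_apply i).continuousAt
        exact (h1.eventually_ne h0).mono fun z hz _ => hz
    filter_upwards [hO1, hO2, self_mem_nhdsWithin] with z h1 h2 h3
    have hsub : (Finset.univ.filter fun i => z i = 0) ⊆ Finset.univ.filter fun i => p i = 0 := by
      intro i hi
      rw [Finset.mem_filter] at hi ⊢
      refine ⟨hi.1, ?_⟩
      by_contra hcon
      exact h2 i hcon hi.2
    have hle : (Finset.univ.filter fun i => p i = 0).card ≤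
        (Finset.univ.filter fun i => z i = 0).card := not_lt.1 (hmin z ⟨h3, h1⟩)
    have heq := Finset.eq_of_subset_of_card_le hsub hle
    have hzi : ∀ i, p i = 0 → z i = 0 := by
      intro i hi
      have h4 : i ∈ Finset.univ.filter fun i => p i = 0 :=
        Finset.mem_filter.2 ⟨Finset.mem_univ i, hi⟩
      rw [← heq] at h4
      exact (Finset.mem_filter.1 h4).2
    refine Finset.sum_le_sum fun i _ => ?_
    split_ifs with h0
    · rw [hzi i h0, h0]
    · rw [sub_self, norm_zero]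
      have h5 := sq_nonneg ‖z i - p i‖
      norm_num

end AMP
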