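import Pool.Agent.Lib.MP_b57e3c_ag_P.Mx

set_option autoImplicit false

/-!
# Module Sg : singular zeros of matching polynomials of at most four variables

`sing_card`. `card S = 0`: `μ_∅ = 1`. `S = {i}`: `μ_∅ = 1 ≠ 0`. `S = {i,j}`: `∂_i μ = v_j = 0`,
`∂_j μ = v_i = 0`, then `μ = b_ij ≠ 0`. `S = {i,j,k}` (`Finset.card_eq_three`): the equations
`v_j v_k + b_jk = 0`, `v_i v_k + b_ik = 0`, `v_i v_j + b_ij = 0` and `μ = 0` give
`0 = μ - v_i (v_j v_k + b_jk) - v_j (..) - v_k (..) = - 2 v_i v_j v_k`, so one of the `v`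
vanishes, and then one of the `b` vanishes.

`card S = 4`, `S = {1,2,3,4}` (`Finset.card_eq_succ` …): write `X = v1 v2 v3 v4`, `m34 = b12 v3
v4`, `m12 = b34 v1 v2`, `m13 = b24 v1 v3`, `m24 = b13 v2 v4`, `m14 = b23 v1 v4`, `m23 = b14 v2
v3`, `P = b12 b34`, `Q = b13 b24`, `R = b14 b23`. `v_i ∂_i μ = X + ∑_l m_il = 0` for `i =
1,2,3,4`; sums and differences give `m12 = m34 =: α`, `m13 = m24 =: β`, `m14 = m23 =: γ`, `α + β
+ γ = - X`; `μ = 0` becomes `X = P + Q + R`; `α² = m12 m34 = P X`, `β² = Q X`, `γ² = R X`.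
If `X = 0`: `P + Q + R = 0`, `α = β = γ = 0`, all products `v_k v_l` vanish, so at most one
`v_i`, say `v1`, is nonzero, and `∂_2 μ = b34 v1 = 0` (the other terms contain `v3` or `v4`), so
`v = 0`. If `X ≠ 0` let `x² = X`, `p = α/x`, `q = β/x`, `r = γ/x`: `p² = P`, `q² = Q`, `r² = R`,
`p + q + r = - x`, `p q + q r + r p = ((p+q+r)² - P - Q - R)/2 = 0`.
These facts are collected in `sing_four` (with `S = {i,j,k,l}`, `1,2,3,4 = i,j,k,l`).
Second derivatives in the case `X ≠ 0`: `∂_1∂_2 μ = v3 v4 + b34 = (p x + P)/b12 = p (x + p)/b12 =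
- p (q + r)/b12 = q r / b12`, similarly for the other pairs (`hs_four`): all nonzero.

`sing_nd`. Let `H` be the `4 × 4` Hessian (zero diagonal), `h_ij`. `det H = u² + v² + w² - 2uv -
2vw - 2wu` with `u = h12 h34`, `v = h13 h24`, `w = h14 h23`. Case `v = 0` (then `P + Q + R = 0`):
`h12 = b34`, …, `u = P, v = Q, w = R`, `det H = (P+Q+R)² - 4 (PQ+QR+RP) = - 4 (PQ + QR + RP) ≠ 0`
by `NoEq`. Case `X ≠ 0`: `u = (q r/p)²`, …, and with `a = q r/p`, `b = p r/q`, `c = p q/r`: `det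
H = -(a+b+c)(-a+b+c)(a-b+c)(a+b-c)`; multiplying by `p q r` and putting `A = q r`, `B = p r`, `C
= p q`, `A + B + C = 0`: `p q r (a + b - c) = A² + B² - C² = - 2 A B ≠ 0`, similarly the others,
and `p q r (a+b+c) = A² + B² + C² = - 2 (AB + BC + CA) = - 2 p q r (p + q + r) = 2 p q r x ≠ 0`.
(`NoEq` is not needed in this case.) The condition `Nd` is the injectivity of `H`: from `H x = 0`
deduce `det H * x_i = 0` by explicit linear combinations (Cramer: `adj(H) H = det H`; e.g. with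
`Matrix.adjugate`, or `Matrix.eq_zero_of_mulVec_eq_zero`).
-/

open Complex Filter Topology

namespace AMP

variable {g : ℕ} {b : Fin g → Fin g → ℂ} {v : Fin g → ℂ}

private theorem SgA_one (i : Fin g) : ({i} : Finset (Fin g)).erase i = ∅ := by
  ext x
  simp only [Finset.mem_erase, Finset.mem_singleton, Finset.notMem_empty, iff_false, not_and]
  exact fun h3 h4 => h3 h4

private theorem SgA_a2 {i j : Fin g} (h : i ≠ j) : ({i, j} : Finset (Fin g)).erase i = {j} := by
  rw [Finset.erase_insert]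
  simp only [Finset.mem_singleton]
  exact h

private theorem SgA_b2 {i j : Fin g} (h : i ≠ j) : ({i, j} : Finset (Fin g)).erase j = {i} := by
  rw [Finset.pair_comm]
  exact SgA_a2 h.symm

private theorem SgA_a3 {j k l : Fin g} (h1 : j ≠ k) (h2 : j ≠ l) :
    ({j, k, l} : Finset (Fin g)).erase j = {k, l} := by
  rw [Finset.erase_insert]
  simp only [Finset.mem_insert, Finset.mem_singleton, not_or]
  exact ⟨h1, h2⟩

private theorem SgA_b3 {j k l : Fin g} (h1 : j ≠ k) (h3 : k ≠ l) :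
    ({j, k, l} : Finset (Fin g)).erase k = {j, l} := by
  rw [Finset.insert_comm]
  exact SgA_a3 h1.symm h3

private theorem SgA_c3 {j k l : Fin g} (h2 : j ≠ l) (h3 : k ≠ l) :
    ({j, k, l} : Finset (Fin g)).erase l = {j, k} := by
  rw [Finset.pair_comm k l]
  exact SgA_b3 h2 h3.symm

private theorem SgA_a4 {i j k l : Fin g} (h1 : i ≠ j) (h2 : i ≠ k) (h3 : i ≠ l) :
    ({i, j, k, l} : Finset (Fin g)).erase i = {j, k, l} := by
  rw [Finset.erase_insert]
  simp only [Finset.mem_insert, Finset.mem_singleton, not_or]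
  exact ⟨h1, h2, h3⟩

private theorem SgA_b4 {i j k l : Fin g} (h1 : i ≠ j) (h2 : j ≠ k) (h3 : j ≠ l) :
    ({i, j, k, l} : Finset (Fin g)).erase j = {i, k, l} := by
  rw [Finset.insert_comm]
  exact SgA_a4 h1.symm h2 h3

private theorem SgA_c4 {i j k l : Fin g} (h1 : i ≠ k) (h2 : j ≠ k) (h3 : k ≠ l) :
    ({i, j, k, l} : Finset (Fin g)).erase k = {i, j, l} := by
  rw [Finset.insert_comm j k {l}]
  exact SgA_b4 h1 h2.symm h3

private theorem SgA_d4 {i j k l : Fin g} (h1 : i ≠ l) (h2 : j ≠ l) (h3 : k ≠ l) :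
    ({i, j, k, l} : Finset (Fin g)).erase l = {i, j, k} := by
  rw [Finset.pair_comm k l]
  exact SgA_c4 h1 h2 h3.symm

private theorem SgA_three {a b c b12 b13 b23 : ℂ} (n12 : b12 ≠ 0) (n23 : b23 ≠ 0)
    (e0 : a * b * c + b12 * c + b13 * b + b23 * a = 0) (e1 : b * c + b23 = 0)
    (e2 : a * c + b13 = 0) (e3 : a * b + b12 = 0) : False := by
  have h : a * b * c = 0 := by
    linear_combination (-1 / 2) * e0 + (1 / 2) * a * e1 + (1 / 2) * b * e2 + (1 / 2) * c * e3
  rcases mul_eq_zero.1 h with h | h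
  · exact n12 (by linear_combination e3 - h)
  · exact n23 (by linear_combination e1 - b * h)

private theorem SgA_alg {a b c d b12 b13 b14 b23 b24 b34 : ℂ} (n12 : b12 ≠ 0) (n13 : b13 ≠ 0)
    (n14 : b14 ≠ 0) (n23 : b23 ≠ 0) (n24 : b24 ≠ 0) (n34 : b34 ≠ 0)
    (e0 : a * b * c * d + b12 * c * d + b13 * b * d + b14 * b * c + b23 * a * d + b24 * a * c
      + b34 * a * b + b12 * b34 + b13 * b24 + b14 * b23 = 0)
    (e1 : b * c * d + b23 * d + b24 * c + b34 * b = 0)
    (e2 : a * c * d + b13 * d + b14 * c + b34 * a = 0)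
    (e3 : a * b * d + b12 * d + b14 * b + b24 * a = 0)
    (e4 : a * b * c + b12 * c + b13 * b + b23 * a = 0) :
    (a = 0 ∧ b = 0 ∧ c = 0 ∧ d = 0 ∧ b12 * b34 + b13 * b24 + b14 * b23 = 0) ∨
    ∃ p q r x : ℂ, p ≠ 0 ∧ q ≠ 0 ∧ r ≠ 0 ∧ x ≠ 0 ∧ p + q + r = - x ∧
      p * q + q * r + r * p = 0 ∧ p ^ 2 = b12 * b34 ∧ q ^ 2 = b13 * b24 ∧
      r ^ 2 = b14 * b23 ∧ b34 * (a * b) = p * x ∧ b12 * (c * d) = p * x ∧
      b24 * (a * c) = q * x ∧ b13 * (b * d) = q * x ∧
      b23 * (a * d) = r * x ∧ b14 * (b * c) = r * x := by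
  have hα : b34 * (a * b) = b12 * (c * d) := by
    linear_combination (1 / 2) * a * e1 + (1 / 2) * b * e2 - (1 / 2) * c * e3 - (1 / 2) * d * e4
  have hβ : b24 * (a * c) = b13 * (b * d) := by
    linear_combination (1 / 2) * a * e1 + (1 / 2) * c * e3 - (1 / 2) * b * e2 - (1 / 2) * d * e4
  have hγ : b23 * (a * d) = b14 * (b * c) := by
    linear_combination (1 / 2) * a * e1 + (1 / 2) * d * e4 - (1 / 2) * b * e2 - (1 / 2) * c * e3
  have hX : b34 * (a * b) + b24 * (a * c) + b23 * (a * d) = - (a * b * c * d) := by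
    linear_combination a * e1
  have hP : b12 * b34 + b13 * b24 + b14 * b23 = a * b * c * d := by
    linear_combination e0 - 2 * hX + hα + hβ + hγ
  have hα2 : (b34 * (a * b)) ^ 2 = b12 * b34 * (a * b * c * d) := by
    linear_combination (b34 * (a * b)) * hα
  have hβ2 : (b24 * (a * c)) ^ 2 = b13 * b24 * (a * b * c * d) := by
    linear_combination (b24 * (a * c)) * hβ
  have hγ2 : (b23 * (a * d)) ^ 2 = b14 * b23 * (a * b * c * d) := by
    linear_combination (b23 * (a * d)) * hγ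
  by_cases hx : a * b * c * d = 0
  · left
    rw [hx, mul_zero] at hα2 hβ2 hγ2
    have h1 : b34 * (a * b) = 0 := pow_eq_zero_iff two_ne_zero |>.1 hα2
    have h2 : b24 * (a * c) = 0 := pow_eq_zero_iff two_ne_zero |>.1 hβ2
    have h3 : b23 * (a * d) = 0 := pow_eq_zero_iff two_ne_zero |>.1 hγ2
    have hab : a * b = 0 := (mul_eq_zero.1 h1).resolve_left n34
    have hac : a * c = 0 := (mul_eq_zero.1 h2).resolve_left n24
    have had : a * d = 0 := (mul_eq_zero.1 h3).resolve_left n23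
    have hcd : c * d = 0 := (mul_eq_zero.1 (hα.symm.trans h1)).resolve_left n12
    have hbd : b * d = 0 := (mul_eq_zero.1 (hβ.symm.trans h2)).resolve_left n13
    have hbc : b * c = 0 := (mul_eq_zero.1 (hγ.symm.trans h3)).resolve_left n14
    have ha : a = 0 := by
      by_contra h
      have hc : c = 0 := (mul_eq_zero.1 hac).resolve_left h
      have hd : d = 0 := (mul_eq_zero.1 had).resolve_left h
      rw [hc, hd] at e2
      exact mul_ne_zero n34 h (by linear_combination e2)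
    have hb : b = 0 := by
      by_contra h
      have hc : c = 0 := (mul_eq_zero.1 hbc).resolve_left h
      have hd : d = 0 := (mul_eq_zero.1 hbd).resolve_left h
      rw [hc, hd] at e1
      exact mul_ne_zero n34 h (by linear_combination e1)
    have hc : c = 0 := by
      by_contra h
      have hd : d = 0 := (mul_eq_zero.1 hcd).resolve_left h
      rw [hb, hd] at e1
      exact mul_ne_zero n24 h (by linear_combination e1)
    have hd : d = 0 := by
      by_contra h
      rw [hb, hc] at e1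
      exact mul_ne_zero n23 h (by linear_combination e1)
    exact ⟨ha, hb, hc, hd, hP.trans hx⟩
  · right
    obtain ⟨x, hxx⟩ := IsAlgClosed.exists_pow_nat_eq (a * b * c * d) (n := 2) two_pos
    have x0 : x ≠ 0 := by
      rintro rfl
      exact hx (by rw [← hxx]; ring)
    have hp2 : (b34 * (a * b) / x) ^ 2 = b12 * b34 := by
      rw [div_pow, hα2, ← hxx]
      field_simp
    have hq2 : (b24 * (a * c) / x) ^ 2 = b13 * b24 := by
      rw [div_pow, hβ2, ← hxx]
      field_simp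
    have hr2 : (b23 * (a * d) / x) ^ 2 = b14 * b23 := by
      rw [div_pow, hγ2, ← hxx]
      field_simp
    have hs : b34 * (a * b) / x + b24 * (a * c) / x + b23 * (a * d) / x = - x := by
      rw [← add_div, ← add_div, hX, ← hxx]
      field_simp
    have hne : ∀ z w : ℂ, z ^ 2 = w → w ≠ 0 → z ≠ 0 := by
      rintro z w h1 h2 rfl
      exact h2 (by rw [← h1]; ring)
    refine ⟨b34 * (a * b) / x, b24 * (a * c) / x, b23 * (a * d) / x, x,
      hne _ _ hp2 (mul_ne_zero n12 n34), hne _ _ hq2 (mul_ne_zero n13 n24),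
      hne _ _ hr2 (mul_ne_zero n14 n23), x0, hs, ?_, hp2, hq2, hr2, ?_, ?_, ?_, ?_, ?_, ?_⟩
    · generalize b34 * (a * b) / x = p at hp2 hs ⊢
      generalize b24 * (a * c) / x = q at hq2 hs ⊢
      generalize b23 * (a * d) / x = r at hr2 hs ⊢
      linear_combination (1 / 2) * (p + q + r - x) * hs - (1 / 2) * hp2 - (1 / 2) * hq2
        - (1 / 2) * hr2 - (1 / 2) * hP + (1 / 2) * hxx
    · rw [div_mul_cancel₀ _ x0]
    · rw [div_mul_cancel₀ _ x0, hα]
    · rw [div_mul_cancel₀ _ x0]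
    · rw [div_mul_cancel₀ _ x0, hβ]
    · rw [div_mul_cancel₀ _ x0]
    · rw [div_mul_cancel₀ _ x0, hγ]

theorem sing_card (hb : ∀ i j, b i j = b j i) (h0 : ∀ i j, i ≠ j → b i j ≠ 0)
    {S : Finset (Fin g)} (h : Sing b S v) : 4 ≤ S.card := by
  obtain ⟨h1, h2⟩ := h
  by_contra hc
  have hc' : S.card = 0 ∨ S.card = 1 ∨ S.card = 2 ∨ S.card = 3 := by omega
  rcases hc' with hc' | hc' | hc' | hc'
  · rw [Finset.card_eq_zero] at hc'
    subst hc'
    rw [mu_empty] at h1
    exact one_ne_zero h1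
  · obtain ⟨i, rfl⟩ := Finset.card_eq_one.1 hc'
    have h3 := h2 i (Finset.mem_singleton_self i)
    rw [SgA_one, mu_empty] at h3
    exact one_ne_zero h3
  · obtain ⟨i, j, hij, rfl⟩ := Finset.card_eq_two.1 hc'
    have h3 := h2 i (by simp)
    have h4 := h2 j (by simp)
    rw [SgA_a2 hij, mu_one b hb] at h3
    rw [SgA_b2 hij, mu_one b hb] at h4
    rw [mu_two b hb hij, h3, h4, mul_zero, zero_add] at h1
    exact h0 i j hij h1
  · obtain ⟨i, j, k, hij, hik, hjk, rfl⟩ := Finset.card_eq_three.1 hc'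
    have h3 := h2 i (by simp)
    have h4 := h2 j (by simp)
    have h5 := h2 k (by simp)
    rw [SgA_a3 hij hik, mu_two b hb hjk] at h3
    rw [SgA_b3 hij hjk, mu_two b hb hik] at h4
    rw [SgA_c3 hik hjk, mu_two b hb hij] at h5
    rw [mu_three b hb hij hik hjk] at h1
    exact SgA_three (h0 i j hij) (h0 j k hjk) h1 h3 h4 h5

theorem sing_four (hb : ∀ i j, b i j = b j i) (h0 : ∀ i j, i ≠ j → b i j ≠ 0)
    {i j k l : Fin g} (hij : i ≠ j) (hik : i ≠ k) (hil : i ≠ l) (hjk : j ≠ k) (hjl : j ≠ l)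
    (hkl : k ≠ l) (h : Sing b {i, j, k, l} v) :
    (v i = 0 ∧ v j = 0 ∧ v k = 0 ∧ v l = 0 ∧
      b i j * b k l + b i k * b j l + b i l * b j k = 0) ∨
    ∃ p q r x : ℂ, p ≠ 0 ∧ q ≠ 0 ∧ r ≠ 0 ∧ x ≠ 0 ∧ p + q + r = - x ∧
      p * q + q * r + r * p = 0 ∧ p ^ 2 = b i j * b k l ∧ q ^ 2 = b i k * b j l ∧
      r ^ 2 = b i l * b j k ∧ b k l * (v i * v j) = p * x ∧ b i j * (v k * v l) = p * x ∧
      b j l * (v i * v k) = q * x ∧ b i k * (v j * v l) = q * x ∧
      b j k * (v i * v l) = r * x ∧ b i l * (v j * v k) = r * x := by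
  obtain ⟨h1, h2⟩ := h
  have e1 := h2 i (by simp)
  have e2 := h2 j (by simp)
  have e3 := h2 k (by simp)
  have e4 := h2 l (by simp)
  rw [SgA_a4 hij hik hil, mu_three b hb hjk hjl hkl] at e1
  rw [SgA_b4 hij hjk hjl, mu_three b hb hik hil hkl] at e2
  rw [SgA_c4 hik hjk hkl, mu_three b hb hij hil hjl] at e3
  rw [SgA_d4 hil hjl hkl, mu_three b hb hij hik hjk] at e4
  rw [mu_four b hb hij hik hil hjk hjl hkl] at h1
  refine SgA_alg (h0 i j hij) (h0 i k hik) (h0 i l hil) (h0 j k hjk) (h0 j l hjl) (h0 k l hkl)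
    h1 ?_ ?_ ?_ ?_
  · linear_combination e1
  · linear_combination e2
  · linear_combination e3
  · linear_combination e4

end AMP
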