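import Pool.Agent.Lib.MP_b57e3c_ag_P.Bx
import Pool.Agent.Lib.MP_b57e3c_ag_P.Ls
import Pool.Agent.Lib.MP_b57e3c_ag_P.Mz
import Pool.Agent.Lib.MP_b57e3c_ag_P.SgA

set_option autoImplicit false

/-!
# Module Sd : at least four coordinates vanish; the seed

`Sq.zeros`: `UL_seq` (with `N_closed`) gives `q n ∈ N n ∅`, `q n → z` along `U`. `sc r ∅ w = w`,
so `q n ∈ singF (τ n)` (`N_sub`). `q n k ∈ Go (τ n k k)` for most `n` (`eventually_Go` at `(σ k,
z k)`, `C.diag`), so `q n k ∈ Gs (τ n k k)`. `Sq.classify` gives `S`, `w0`, `Sing b S w0`; `card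
S ≥ 4` by `sing_card` (`C.sym`, `C.ne0`). For `i ∈ S` `q n i = r n * (q n i / r n) → 0`, so `z i
= 0`. `v = w0`. Suppose `z k ≠ 0` for `k ∉ S`. Then `Near S v`: given `δ, R`, for most `n` the
point `w = (q n i / r n for i ∈ S, q n k for k ∉ S)` is in `N n S` (`sc r S w = q n`), `‖w i - v
i‖ < δ` for `i ∈ S`, `w k ∈ Go (τ n k k)` and `R * r n < ‖w k‖` for `k ∉ S` (`‖q n k‖ → ‖z k‖ >
0`, `r n → 0`). `no_q1`, `seed`: `Lim ∅` is `MP m` (`Lim_mp`) and `O = {z | ∀ k, z k ∈ Go (σ k)}`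
is open (`isOpen_Go`), meets `Lim ∅` (`Sq.box`). By `zeros` every point of `Lim ∅ ∩ O` has at
least `4` zeros. If `m + 3 = g` this contradicts `min_zero`. If `m + 4 = g` `min_zero` shows that
some `z ∈ Lim ∅ ∩ O` has at most `4` zeros; then the set `S` of `zeros` (`card S ≥ 4`, all `z i =
0`) is exactly the set of zeros, `card S = 4`, and `z k ≠ 0` for `k ∉ S`.
-/

open Complex Filter Topology

namespace AMP

open AMC

variable {g m : ℕ}

private theorem Sd_sc (r : ℝ) (w : Fin g → ℂ) : sc r ∅ w = w := by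
  funext i
  simp [sc]

private theorem Sd_open (C : Sq g m) : IsOpen {z : Fin g → ℂ | ∀ k, z k ∈ Go (C.σ k)} := by
  have h1 : {z : Fin g → ℂ | ∀ k, z k ∈ Go (C.σ k)} =
      ⋂ k, (fun z : Fin g → ℂ => z k) ⁻¹' Go (C.σ k) := by
    ext z
    simp
  rw [h1]
  exact isOpen_iInter_of_finite fun k => (isOpen_Go (C.spos k)).preimage (continuous_apply k)

theorem Sq.zeros (C : Sq g m) {z : Fin g → ℂ} (hz : z ∈ C.Lim ∅)
    (hG : ∀ k, z k ∈ Go (C.σ k)) : ∃ (S : Finset (Fin g)) (v : Fin g → ℂ), 4 ≤ S.card ∧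
      (∀ i ∈ S, z i = 0) ∧ ((∀ i, i ∉ S → z i ≠ 0) → C.Near S v) := by
  classical
  rw [Sq.Lim_eq] at hz
  obtain ⟨q, hq, hlim⟩ := UL_seq (Eventually.of_forall fun n => C.N_closed n ∅) hz
  have h1 : ∀ᶠ n in (C.U : Filter ℕ), q n ∈ singF (C.τ n) := by
    filter_upwards [hq] with n hn
    have h2 := C.N_sub hn
    rwa [Sd_sc] at h2
  have h3 : ∀ k, ∀ᶠ n in (C.U : Filter ℕ), q n k ∈ Go (C.τ n k k) := by
    intro k
    have h4 : Tendsto (fun n => (C.τ n k k, q n k)) (C.U : Filter ℕ) (𝓝 (C.σ k, z k)) :=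
      (C.diag k).prodMk_nhds (hlim k)
    exact h4.eventually (eventually_Go (C.spos k) (hG k))
  obtain ⟨S, w0, hw1, hw2, hs⟩ := C.classify q h1
    (fun k => (h3 k).mono fun n hn => ⟨hn.1.le, hn.2.le⟩)
  have hrne : ∀ n, (C.r n : ℂ) ≠ 0 := fun n => by exact_mod_cast (C.rpos n).ne'
  have hr0 : Tendsto (fun n => (C.r n : ℂ)) (C.U : Filter ℕ) (𝓝 0) := by
    have h5 := (Complex.continuous_ofReal.tendsto 0).comp C.rlim
    rw [Complex.ofReal_zero] at h5
    exact h5
  refine ⟨S, w0, sing_card C.sym C.ne0 hs, ?_, ?_⟩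
  · intro i hi
    have h5 := (hw1 i hi).mul hr0
    rw [mul_zero] at h5
    have h6 : Tendsto (fun n => q n i) (C.U : Filter ℕ) (𝓝 0) :=
      h5.congr fun n => div_mul_cancel₀ _ (hrne n)
    exact tendsto_nhds_unique (hlim i) h6
  · intro hne δ hδ R
    have h7 : ∀ᶠ n in (C.U : Filter ℕ), ∀ i ∈ S, ‖q n i / (C.r n : ℂ) - w0 i‖ < δ := by
      refine (Filter.eventually_all_finset S).2 fun i hi => ?_
      have h8 := (Metric.tendsto_nhds.1 (hw1 i hi)) δ hδ
      filter_upwards [h8] with n hn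
      rwa [dist_eq_norm] at hn
    have h8 : ∀ᶠ n in (C.U : Filter ℕ), ∀ k, k ∉ S → R * C.r n < ‖q n k‖ := by
      refine Filter.eventually_all.2 fun k => ?_
      by_cases hk : k ∈ S
      · exact Filter.Eventually.of_forall fun n h => absurd hk h
      · have h9 : Tendsto (fun n => R * C.r n) (C.U : Filter ℕ) (𝓝 0) := by
          have h10 := C.rlim.const_mul R
          rwa [mul_zero] at h10
        filter_upwards [h9.eventually_lt (hlim k).norm (norm_pos_iff.2 (hne k hk))] with n hn _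
        exact hn
    filter_upwards [h7, h8, Filter.eventually_all.2 h3, hq] with n ha hb hc hd
    refine ⟨fun i => if i ∈ S then q n i / (C.r n : ℂ) else q n i, ?_, ?_, ?_⟩
    · have h11 : sc (C.r n) S (fun i => if i ∈ S then q n i / (C.r n : ℂ) else q n i) = q n := by
        funext i
        unfold sc
        by_cases hi : i ∈ S
        · simp only [if_pos hi]
          rw [mul_div_cancel₀ _ (hrne n)]
        · simp only [if_neg hi]
      have h12 : c1 (C.τ n) + sc (C.r n) ∅ (q n) ∈ C.M n := hd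
      rw [Sd_sc] at h12
      show c1 (C.τ n) + sc (C.r n) S _ ∈ C.M n
      rw [h11]
      exact h12
    · intro i hi
      simp only [if_pos hi]
      exact ha i hi
    · intro k hk
      simp only [if_neg hk]
      exact ⟨hc k, hb k hk⟩

theorem Sq.no_q1 (C : Sq g m) (hm : m + 3 = g) : False := by
  refine min_zero (C.Lim_mp ∅) (Sd_open C) ?_ ?_
  · intro z hz hO
    obtain ⟨S, v, hS, hv, -⟩ := C.zeros hz hO
    have h1 : S.card ≤ (Finset.univ.filter fun i => z i = 0).card :=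
      Finset.card_le_card fun i hi => Finset.mem_filter.2 ⟨Finset.mem_univ _, hv i hi⟩
    omega
  · obtain ⟨z, hz, hO⟩ := C.box
    exact ⟨z, hz, hO⟩

theorem Sq.seed (C : Sq g m) (hm : m + 4 = g) :
    ∃ S : Finset (Fin g), S.card = 4 ∧ ∃ v, C.Near S v := by
  by_contra hno
  refine min_zero (C.Lim_mp ∅) (Sd_open C) ?_ ?_
  · intro z hz hO
    obtain ⟨S, v, hS, hv, hn⟩ := C.zeros hz hO
    by_contra hlt
    have hsub : S ⊆ Finset.univ.filter fun i => z i = 0 :=
      fun i hi => Finset.mem_filter.2 ⟨Finset.mem_univ _, hv i hi⟩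
    have h1 := Finset.card_le_card hsub
    have h2 : (Finset.univ.filter fun i => z i = 0).card ≤ S.card := by omega
    have h3 := Finset.eq_of_subset_of_card_le hsub h2
    refine hno ⟨S, by omega, v, hn fun i hi h4 => hi ?_⟩
    rw [h3]
    exact Finset.mem_filter.2 ⟨Finset.mem_univ _, h4⟩
  · obtain ⟨z, hz, hO⟩ := C.box
    exact ⟨z, hz, hO⟩

end AMP
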