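import Pool.Agent.Lib.MP_b57e3c_ag_P.EcA
import Pool.Agent.Lib.MP_b57e3c_ag_P.Sd

set_option autoImplicit false

/-!
# Module EcB : exchange, all tubes exist

`exchange`: `T = insert k S`, `card T = 5`, `X = Xs C T`. Suppose there is no `v''` with
`Near (T.erase i) v''`. `X ≠ ∅` by `Full.lim` (`Near.full`, `sing_nd`, `Near.sing`).
(1) `{w i | w ∈ X}` is bounded: otherwise there are `w n ∈ X`, `‖w n i‖ > n`; by `Xs_inf` (with
any nonprincipal ultrafilter, `Filter.hyperfilter ℕ`) either it converges, impossible, or there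
is `j` with `Near (T.erase j) v'` and convergence of the coordinates in `T.erase j`, so `i = j`,
contradiction. (2) Let `s = sup {Re (w i) | w ∈ X}`. It is attained: take `w n ∈ X`, `Re (w n i)
→ s`. By `Xs_inf` either `w n → w' ∈ X`, `Re (w' i) = s`; or there is `j` with `Near (T.erase j)
v'`, `j ≠ i` by assumption, `i ∈ T.erase j`, `Re (v' i) = s`, and `Xs_more` gives a point with
`Re (w i) > s`, contradiction. (3) `F = X ∩ {Re (w i) = s}` is closed, nonempty, `MP 1`
(`MP.face` with `ℓ w = I * w i`, `Im (I * w i) = Re (w i)`). `F` is bounded: otherwise there are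
`w n ∈ F`, `‖w n‖ > n`, and `Xs_inf` gives `j`, `v'` with `Re (v' i) = s` (`j ≠ i`),
contradiction as in (2). So `F` is compact, `nsq` has a maximum on `F`; but `nsq` is a test
function for dimension `1` (`P = 0`, `h = 1`, `V = ⊤`, `Tst_HForm_one`): contradiction.
`near_all`: induction on `card (S' \ S)`: if `S' ≠ S` both of cardinality `4`, take `k ∈ S' \ S`,
`i ∈ S \ S'`; `(insert k S).erase i` has cardinality `4` and is closer to `S'`. Start with
`Sq.seed`.
-/

open Complex Filter Topology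

namespace AMP

open AMC

variable {g m : ℕ}

private theorem EcB_lim (C : Sq g m) (hm : m + 4 = g) (hE : NoEq C.b) {T : Finset (Fin g)}
    (hT : T.card = 5) {i : Fin g} (hi : i ∈ T)
    (hno : ¬ ∃ v'' : Fin g → ℂ, C.Near (T.erase i) v'') {s : ℝ}
    (hs : ∀ w ∈ Xs C T, (w i).re ≤ s) (V : Ultrafilter ℕ) (w : ℕ → Fin g → ℂ)
    (hw : ∀ n, w n ∈ Xs C T) (hlim : Tendsto (fun n => (w n i).re) (V : Filter ℕ) (𝓝 s)) :
    ∃ w' ∈ Xs C T, (∀ l, Tendsto (fun n => w n l) (V : Filter ℕ) (𝓝 (w' l))) ∧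
      (w' i).re = s := by
  rcases Xs_inf C hT V w hw with ⟨w', hw', h1⟩ | ⟨j, hj, v', -, h2, h3⟩
  · refine ⟨w', hw', h1, ?_⟩
    have h4 := (Complex.continuous_re.tendsto (w' i)).comp (h1 i)
    exact tendsto_nhds_unique h4 hlim
  · exfalso
    by_cases hij : j = i
    · rw [hij] at h3
      exact hno ⟨v', h3⟩
    · have hi' : i ∈ T.erase j := Finset.mem_erase.2 ⟨fun h => hij h.symm, hi⟩
      have h4 := (Complex.continuous_re.tendsto (v' i)).comp (h2 i hi')
      have h5 : (v' i).re = s := tendsto_nhds_unique h4 hlim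
      obtain ⟨u, hu, hu'⟩ := Xs_more C hm hE hT hj h3 hi'
      have h6 := hs u hu
      linarith

private theorem EcB_bdd (C : Sq g m) {T : Finset (Fin g)}
    (hT : T.card = 5) {i : Fin g} (hi : i ∈ T)
    (hno : ¬ ∃ v'' : Fin g → ℂ, C.Near (T.erase i) v'') :
    BddAbove ((fun w : Fin g → ℂ => (w i).re) '' Xs C T) := by
  by_contra hb
  have h1 : ∀ n : ℕ, ∃ w ∈ Xs C T, (n : ℝ) < (w i).re := by
    intro n
    by_contra hc
    push Not at hc
    refine hb ⟨n, ?_⟩
    rintro _ ⟨w, hw, rfl⟩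
    exact hc w hw
  choose w hw hn using h1
  have h2 : Tendsto (fun n => (w n i).re) ((hyperfilter ℕ : Ultrafilter ℕ) : Filter ℕ) atTop :=
    (tendsto_atTop_mono (fun n => (hn n).le) tendsto_natCast_atTop_atTop).mono_left
      Nat.hyperfilter_le_atTop
  have key : ∀ x : ℂ, Tendsto (fun n => w n i)
      ((hyperfilter ℕ : Ultrafilter ℕ) : Filter ℕ) (𝓝 x) → False := by
    intro x hx
    have h4 := (Complex.continuous_re.tendsto x).comp hx
    exact not_tendsto_nhds_of_tendsto_atTop h2 _ h4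
  rcases Xs_inf C hT (hyperfilter ℕ) w hw with ⟨w', hw', h3⟩ | ⟨j, hj, v', -, h3, h4⟩
  · exact key _ (h3 i)
  · by_cases hij : j = i
    · rw [hij] at h4
      exact hno ⟨v', h4⟩
    · exact key _ (h3 i (Finset.mem_erase.2 ⟨fun h => hij h.symm, hi⟩))

private theorem EcB_test : TestFn (g := g) 1 nsq := by
  refine ⟨fun _ => 0, 1, ⊤, differentiable_const 0, fun z => ?_, ?_, ?_⟩
  · rw [Tst_HForm_one, Complex.zero_re, zero_add]
  · rw [finrank_top, Module.finrank_fin_fun]
  · intro v _ hv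
    rw [Tst_HForm_one]
    unfold nsq
    obtain ⟨i, hi⟩ := Function.ne_iff.1 hv
    have h1 : 0 < ‖v i‖ ^ 2 := pow_pos (norm_pos_iff.2 hi) 2
    have h2 : ‖v i‖ ^ 2 ≤ ∑ j, ‖v j‖ ^ 2 :=
      Finset.single_le_sum (f := fun j => ‖v j‖ ^ 2) (fun j _ => by positivity)
        (Finset.mem_univ i)
    linarith

theorem Sq.exchange (C : Sq g m) (hm : m + 4 = g) (hE : NoEq C.b) {S : Finset (Fin g)}
    (hS : S.card = 4) {v : Fin g → ℂ} (h : C.Near S v) {k i : Fin g} (hk : k ∉ S)
    (hi : i ∈ S) : ∃ v'' : Fin g → ℂ, C.Near ((insert k S).erase i) v'' := by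
  by_contra hno
  have hT : (insert k S).card = 5 := by
    rw [Finset.card_insert_of_notMem hk, hS]
  have hiT : i ∈ insert k S := Finset.mem_insert_of_mem hi
  have hne : (Xs C (insert k S)).Nonempty := by
    obtain ⟨ρ, -, h1⟩ := (h.full hm hS (sing_nd C.sym C.ne0 hE hS h.sing)).lim hk one_pos
    have h2 : ρ < ‖((|ρ| + 1 : ℝ) : ℂ)‖ := by
      rw [Complex.norm_real, Real.norm_eq_abs, abs_of_pos (by positivity)]
      have := le_abs_self ρ
      linarith
    obtain ⟨w, hw, -, -, hwl⟩ := h1 _ h2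
    exact ⟨w, hw, hwl⟩
  have hb := EcB_bdd C hT hiT hno
  obtain ⟨s, hsdef⟩ : ∃ s, s = sSup ((fun w : Fin g → ℂ => (w i).re) '' Xs C (insert k S)) :=
    ⟨_, rfl⟩
  have hs : ∀ w ∈ Xs C (insert k S), (w i).re ≤ s := by
    intro w hw
    rw [hsdef]
    exact le_csSup hb ⟨w, hw, rfl⟩
  obtain ⟨w0, hw0, hw0s⟩ : ∃ w' ∈ Xs C (insert k S), (w' i).re = s := by
    obtain ⟨u, -, hu, hu'⟩ := exists_seq_tendsto_sSup (hne.image fun w : Fin g → ℂ => (w i).re) hb
    choose w hw hwu using hu'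
    have h1 : Tendsto (fun n => (w n i).re) ((hyperfilter ℕ : Ultrafilter ℕ) : Filter ℕ)
        (𝓝 s) := by
      rw [hsdef]
      exact (hu.mono_left Nat.hyperfilter_le_atTop).congr fun n => (hwu n).symm
    obtain ⟨w', hw', -, h2⟩ := EcB_lim C hm hE hT hiT hno hs (hyperfilter ℕ) w hw h1
    exact ⟨w', hw', h2⟩
  have hℓ : ∀ z : Fin g → ℂ, ((Complex.I • (LinearMap.proj i : (Fin g → ℂ) →ₗ[ℂ] ℂ)) z).im =
      (z i).re := by
    intro z
    rw [LinearMap.smul_apply, LinearMap.proj_apply, smul_eq_mul, Complex.I_mul_im]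
  have hface := MP.face (Xs_closed C (insert k S)) (Xs_mp C hm hT)
    (Complex.I • (LinearMap.proj i : (Fin g → ℂ) →ₗ[ℂ] ℂ)) s (fun z hz => by
      rw [hℓ]
      exact hs z hz)
  obtain ⟨F, hF⟩ : ∃ F, F = Xs C (insert k S) ∩
      {z | ((Complex.I • (LinearMap.proj i : (Fin g → ℂ) →ₗ[ℂ] ℂ)) z).im = s} := ⟨_, rfl⟩
  rw [← hF] at hface
  have hFm : ∀ z, z ∈ F ↔ z ∈ Xs C (insert k S) ∧ (z i).re = s := by
    intro z
    rw [hF]
    refine and_congr_right fun _ => ?_
    show ((Complex.I • (LinearMap.proj i : (Fin g → ℂ) →ₗ[ℂ] ℂ)) z).im = s ↔ _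
    rw [hℓ]
  have hFne : F.Nonempty := ⟨w0, (hFm w0).2 ⟨hw0, hw0s⟩⟩
  have hFc : IsClosed F := by
    rw [hF]
    refine (Xs_closed C _).inter ?_
    have e : {z : Fin g → ℂ |
        ((Complex.I • (LinearMap.proj i : (Fin g → ℂ) →ₗ[ℂ] ℂ)) z).im = s} =
        {z : Fin g → ℂ | (z i).re = s} := by
      ext z
      show ((Complex.I • (LinearMap.proj i : (Fin g → ℂ) →ₗ[ℂ] ℂ)) z).im = s ↔ (z i).re = s
      rw [hℓ]
    rw [e]
    exact isClosed_eq (Complex.continuous_re.comp (continuous_apply i)) continuous_const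
  have hFb : Bornology.IsBounded F := by
    by_contra hnb
    have h1 : ∀ n : ℕ, ∃ w ∈ F, (n : ℝ) < ‖w‖ := by
      intro n
      by_contra hc
      push Not at hc
      refine hnb ((Metric.isBounded_closedBall (x := (0 : Fin g → ℂ)) (r := n)).subset ?_)
      intro w hw
      rw [mem_closedBall_zero_iff]
      exact hc w hw
    choose w hw hn using h1
    have h2 : Tendsto (fun n => (w n i).re) ((hyperfilter ℕ : Ultrafilter ℕ) : Filter ℕ)
        (𝓝 s) := tendsto_const_nhds.congr fun n => (((hFm (w n)).1 (hw n)).2).symm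
    obtain ⟨w', hw', h3, -⟩ := EcB_lim C hm hE hT hiT hno hs (hyperfilter ℕ) w
      (fun n => ((hFm (w n)).1 (hw n)).1) h2
    have h4 : Tendsto w ((hyperfilter ℕ : Ultrafilter ℕ) : Filter ℕ) (𝓝 w') :=
      tendsto_pi_nhds.2 h3
    have h5 : Tendsto (fun n => ‖w n‖) ((hyperfilter ℕ : Ultrafilter ℕ) : Filter ℕ) atTop :=
      (tendsto_atTop_mono (fun n => (hn n).le) tendsto_natCast_atTop_atTop).mono_left
        Nat.hyperfilter_le_atTop
    exact not_tendsto_nhds_of_tendsto_atTop h5 _ h4.norm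
  have hcomp : IsCompact F := Metric.isCompact_of_isClosed_isBounded hFc hFb
  have hcont : Continuous (nsq : (Fin g → ℂ) → ℝ) := by
    unfold nsq
    fun_prop
  obtain ⟨p, hp, hmax⟩ := hcomp.exists_isMaxOn hFne hcont.continuousOn
  exact hface nsq EcB_test p hp hmax.localize

private theorem EcB_ind (C : Sq g m) (hm : m + 4 = g) (hE : NoEq C.b) (S' : Finset (Fin g))
    (hS' : S'.card = 4) : ∀ (n : ℕ) (S : Finset (Fin g)) (v : Fin g → ℂ), S.card = 4 →
      C.Near S v → (S' \ S).card = n → ∃ v' : Fin g → ℂ, C.Near S' v' := by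
  intro n
  induction n with
  | zero =>
    intro S v hS h h0
    have h1 : S' ⊆ S := by
      rw [← Finset.sdiff_eq_empty_iff_subset]
      exact Finset.card_eq_zero.1 h0
    have h2 : S' = S := Finset.eq_of_subset_of_card_le h1 (by omega)
    rw [h2]
    exact ⟨v, h⟩
  | succ n ih =>
    intro S v hS h hn
    obtain ⟨k, hk⟩ : (S' \ S).Nonempty := Finset.card_pos.1 (by omega)
    have hc1 := Finset.card_sdiff_add_card_inter S S'
    have hc2 := Finset.card_sdiff_add_card_inter S' S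
    rw [Finset.inter_comm] at hc2
    obtain ⟨i, hi⟩ : (S \ S').Nonempty := Finset.card_pos.1 (by omega)
    rw [Finset.mem_sdiff] at hk hi
    obtain ⟨v'', h2⟩ := C.exchange hm hE hS h hk.2 hi.1
    refine ih ((insert k S).erase i) v'' ?_ h2 ?_
    · rw [Finset.card_erase_of_mem (Finset.mem_insert_of_mem hi.1),
        Finset.card_insert_of_notMem hk.2, hS]
    · have e : S' \ (insert k S).erase i = (S' \ S).erase k := by
        ext x
        simp only [Finset.mem_sdiff, Finset.mem_erase, Finset.mem_insert]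
        constructor
        · rintro ⟨hx, hx'⟩
          have hxi : x ≠ i := fun hh => hi.2 (hh ▸ hx)
          refine ⟨fun hh => hx' ⟨hxi, Or.inl hh⟩, hx, fun hh => hx' ⟨hxi, Or.inr hh⟩⟩
        · rintro ⟨hxk, hx, hxS⟩
          refine ⟨hx, ?_⟩
          rintro ⟨-, hh | hh⟩
          · exact hxk hh
          · exact hxS hh
      rw [e, Finset.card_erase_of_mem (Finset.mem_sdiff.2 hk), hn]
      rfl

theorem Sq.near_all (C : Sq g m) (hm : m + 4 = g) (hE : NoEq C.b) (S : Finset (Fin g))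
    (hS : S.card = 4) : ∃ v : Fin g → ℂ, C.Near S v := by
  obtain ⟨S0, hS0, v, hv⟩ := C.seed hm
  exact EcB_ind C hm hE S hS _ S0 v hS0 hv rfl

end AMP
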