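import Pool.Agent.Lib.MP_b57e3c_ag_P.Defs
import Pool.Agent.Lib.MP_b57e3c_ag.ThG

set_option autoImplicit false

/-!
# Module Ex : bounds for the terms, expansion of `ff`

Write `h_i = m_i + 1/2`. Hypothesis `Sm y0 τ`: `τ` is symmetric, `Im τ_ii ≥ y0 > 0`, `‖τ_ij‖ ≤ y0
/ (8 (g+1))`. `c_e = 2 π i τ_e h_{e.1} h_{e.2}`, `a_i = 2 π i h_i u_i`.
`∑_{e ∈ prs g} ‖c_e‖ ≤ 2 π (y0/(8(g+1))) ∑_{i<j} |h_i||h_j| ≤ (π y0/8) ∑ h_i²`, since
`|h_i||h_j| ≤ (h_i² + h_j²)/2` and every index is in `g - 1` pairs.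

`trm_le`: `‖exp (π i τ_ii h_i² + π i h_i)‖ = exp (- π Im τ_ii h_i²) ≤ exp (-π y0 h_i²)`; `‖sinh
z‖ ≤ ‖z‖ exp ‖z‖`, `‖cosh z‖ ≤ exp ‖z‖`. So `‖trm‖ ≤ exp (-π y0 ∑ h²) ∏_{e ∈ A} ‖c_e‖ ∏_{i even}
‖a_i‖ exp (∑_e ‖c_e‖ + ∑_i ‖a_i‖)`, `‖a_i‖ ≤ 2 π ρ |h_i|`, `∏_{e∈A} ‖c_e‖ = ∏_{e∈A} ‖τ_e‖ ∏_{e∈A}
2 π |h||h'|`, `2π|h||h'| ≤ 2π exp (|h| + |h'|)`, at most `g²` factors. All polynomial factors are
`≤ (2π)^(g² + g) exp ((2 g + 1) ∑ |h_i|)`. This gives the bound with `N = 2 g + 1 + 2 π ρ` and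
`C = (2π)^(g²+g)` (or any other constants); they must not depend on `τ, A, u, m`.

`summable_maj`: a product over `i` of summable functions of `m_i` (`AM.hasSum_tuple` with real
values, or `Summable` of a finite product: `summable_prod...`); in one variable `exp (-(π y0/2)
h² + N|h|)` is summable (compare with `exp (-|h|)` for large `|h|`, or with
`summable_jacobiTheta₂_term_iff`).

`ff_expand`. With `w_m = ∏_i exp (π i τ_ii h_i² + π i h_i)`, the term of `ff` is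
`w_m ∏_i exp (a_i) ∏_{e ∈ prs g} exp (c_e)` (`AM.sum_sym`). Since `exp c = sinh c + cosh c`,
`Finset.prod_add`: `∏_{e ∈ prs} exp c_e = ∑_{A ⊆ prs} ∏_{e∈A} sinh c_e ∏_{e ∈ prs \ A} cosh c_e`.
Fix `A`, let `G(m) = w_m ∏_{A} sinh ∏_{prs \ A} cosh`. For the involution `φ_i` of `ℤ^g` (`m_i ↦
-1 - m_i`, the others fixed) `h_i ↦ -h_i`, `G(φ_i m) = - (-1)^(dg A i) G(m)` (`exp (-π i h) = -
exp (π i h)`; `sinh` odd, `cosh` even; the pairs containing `i`). CLAIM: for every `J ⊆ univ`,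
`∑_m G(m) ∏_{i∈J} z_i ∏_{i∉J} exp a_i` does not depend on `J`, where `z_i = sinh a_i` if `dg A i`
is even and `cosh a_i` otherwise. Induction: `exp a_i = z_i + z'_i`, the sum with `z'_i` is
antisymmetric under `φ_i` (`Equiv.tsum_eq`), so it is `0`; all sums converge absolutely by the
bounds above. For `J = univ` this is `FA τ A u`. Finally `tsum` of a finite sum.
-/

open Complex Filter Topology

namespace AMP

variable {g : ℕ}

/-- period matrices with small off-diagonal entries -/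
def Sm (y0 : ℝ) (τ : Matrix (Fin g) (Fin g) ℂ) : Prop :=
  (∀ i j, τ i j = τ j i) ∧ (∀ i, y0 ≤ (τ i i).im) ∧
    ∀ i j, i ≠ j → ‖τ i j‖ ≤ y0 / (8 * (g + 1))

/-- the majorant -/
noncomputable def maj (y0 N : ℝ) (m : Fin g → ℤ) : ℝ :=
  Real.exp (-(Real.pi * y0 / 2) * ∑ i, ((m i : ℝ) + 1 / 2) ^ 2 +
    N * ∑ i, |(m i : ℝ) + 1 / 2|)

/-- one variable -/
private theorem exa_one {a : ℝ} (ha : 0 < a) (N : ℝ) :
    Summable (fun n : ℤ => Real.exp (-a * ((n : ℝ) + 1 / 2) ^ 2 + N * |(n : ℝ) + 1 / 2|)) := by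
  have hb : Summable (fun n : ℤ => Real.exp (N ^ 2 / (2 * a) + a / 2) *
      Real.exp (-(a / 2) * |(n : ℝ)|)) := by
    refine Summable.mul_left _ ?_
    have h1 : Real.exp (-(a / 2)) < 1 := by
      rw [Real.exp_lt_one_iff]
      linarith
    have hg : Summable (fun n : ℕ => Real.exp (-(a / 2)) ^ n) :=
      summable_geometric_of_lt_one (Real.exp_pos _).le h1
    have he : ∀ n : ℕ, Real.exp (-(a / 2) * |((n : ℤ) : ℝ)|) = Real.exp (-(a / 2)) ^ n := by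
      intro n
      rw [← Real.exp_nat_mul]
      congr 1
      rw [Int.cast_natCast, abs_of_nonneg (Nat.cast_nonneg n)]
      ring
    refine Summable.of_nat_of_neg ?_ ?_
    · exact hg.congr fun n => (he n).symm
    · refine hg.congr fun n => ?_
      rw [← he n]
      push_cast
      rw [abs_neg]
  refine Summable.of_nonneg_of_le (fun n => (Real.exp_pos _).le) (fun n => ?_) hb
  rw [← Real.exp_add]
  refine Real.exp_le_exp.2 ?_
  have h1 : N * |(n : ℝ) + 1 / 2| ≤ N ^ 2 / (2 * a) + a / 2 * ((n : ℝ) + 1 / 2) ^ 2 := by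
    rw [← sq_abs ((n : ℝ) + 1 / 2)]
    generalize |(n : ℝ) + 1 / 2| = x
    have h2 : 0 ≤ (N - a * x) ^ 2 / (2 * a) := by positivity
    have h3 : (N - a * x) ^ 2 / (2 * a) = N ^ 2 / (2 * a) + a / 2 * x ^ 2 - N * x := by
      field_simp
      ring
    linarith
  have h2 : |(n : ℝ)| - 1 ≤ ((n : ℝ) + 1 / 2) ^ 2 := by
    have h3 : |n| - 1 ≤ n ^ 2 + n := by
      rcases le_or_gt 0 n with h | h
      · rw [abs_of_nonneg h]; nlinarith
      · rw [abs_of_neg h]; nlinarith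
    have h4 : ((|n| - 1 : ℤ) : ℝ) ≤ ((n ^ 2 + n : ℤ) : ℝ) := Int.cast_le.2 h3
    push_cast at h4
    nlinarith
  nlinarith

theorem summable_maj {y0 : ℝ} (hy : 0 < y0) (N : ℝ) :
    Summable (fun m : Fin g → ℤ => maj y0 N m) := by
  have ha : 0 < Real.pi * y0 / 2 := by positivity
  have h1 := exa_one ha N
  have h2 : Summable (fun n : ℤ => ((Real.exp (-(Real.pi * y0 / 2) * ((n : ℝ) + 1 / 2) ^ 2 +
      N * |(n : ℝ) + 1 / 2|) : ℝ) : ℂ)) := Complex.summable_ofReal.2 h1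
  have h3 := (AM.hasSum_tuple g (fun _ n => ((Real.exp (-(Real.pi * y0 / 2) *
    ((n : ℝ) + 1 / 2) ^ 2 + N * |(n : ℝ) + 1 / 2|) : ℝ) : ℂ)) (fun _ => _)
    (fun _ => h2.hasSum)).summable
  refine Complex.summable_ofReal.1 (h3.congr fun m => ?_)
  rw [← Complex.ofReal_prod]
  congr 1
  unfold maj
  rw [← Real.exp_sum, Finset.sum_add_distrib, Finset.mul_sum, Finset.mul_sum]

private theorem exa_cosh (z : ℂ) : ‖Complex.cosh z‖ ≤ Real.exp ‖z‖ := by
  have h1 : Complex.cosh z = (cexp z + cexp (-z)) / 2 := rfl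
  rw [h1, norm_div, Complex.norm_ofNat]
  have h2 := Complex.norm_exp_le_exp_norm z
  have h3 := Complex.norm_exp_le_exp_norm (-z)
  rw [norm_neg] at h3
  have h4 := norm_add_le (cexp z) (cexp (-z))
  linarith

private theorem exa_sinh (z : ℂ) : ‖Complex.sinh z‖ ≤ ‖z‖ * Real.exp ‖z‖ := by
  have h := Convex.norm_image_sub_le_of_norm_hasDerivWithin_le
    (f := Complex.sinh) (f' := Complex.cosh) (s := Metric.closedBall (0 : ℂ) ‖z‖)
    (x := 0) (y := z) (C := Real.exp ‖z‖)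
    (fun x _ => (Complex.hasDerivAt_sinh x).hasDerivWithinAt)
    (fun x hx => (exa_cosh x).trans (Real.exp_le_exp.2 (by simpa using hx)))
    (convex_closedBall _ _) (by simp) (by simp)
  simpa [mul_comm] using h

private theorem exa_pair {y0 : ℝ} (hy : 0 < y0) (h : Fin g → ℝ) (t : Fin g × Fin g → ℝ)
    (ht : ∀ e ∈ prs g, t e ≤ y0 / (8 * (g + 1))) :
    ∑ e ∈ prs g, 2 * Real.pi * t e * |h e.1| * |h e.2| ≤
      Real.pi * y0 / 2 * ∑ i, h i ^ 2 := by
  have hpi := Real.pi_pos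
  have hg : (0 : ℝ) < 8 * (g + 1) := by positivity
  have hq : 0 < y0 / (8 * (g + 1)) := by positivity
  have h1 : ∀ e ∈ prs g, 2 * Real.pi * t e * |h e.1| * |h e.2| ≤
      Real.pi * (y0 / (8 * (g + 1))) * (h e.1 ^ 2 + h e.2 ^ 2) := by
    intro e he
    have h2 := ht e he
    have h3 : 2 * (|h e.1| * |h e.2|) ≤ h e.1 ^ 2 + h e.2 ^ 2 := by
      rw [← sq_abs (h e.1), ← sq_abs (h e.2)]
      nlinarith [sq_nonneg (|h e.1| - |h e.2|)]
    have h4 : 0 ≤ |h e.1| * |h e.2| := by positivity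
    calc 2 * Real.pi * t e * |h e.1| * |h e.2|
        = 2 * Real.pi * (|h e.1| * |h e.2|) * t e := by ring
      _ ≤ 2 * Real.pi * (|h e.1| * |h e.2|) * (y0 / (8 * (g + 1))) :=
          mul_le_mul_of_nonneg_left h2 (by positivity)
      _ = Real.pi * (y0 / (8 * (g + 1))) * (2 * (|h e.1| * |h e.2|)) := by ring
      _ ≤ _ := mul_le_mul_of_nonneg_left h3 (by positivity)
  have h2 : ∑ e ∈ prs g, Real.pi * (y0 / (8 * (g + 1))) * (h e.1 ^ 2 + h e.2 ^ 2) ≤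
      ∑ e : Fin g × Fin g, Real.pi * (y0 / (8 * (g + 1))) * (h e.1 ^ 2 + h e.2 ^ 2) :=
    Finset.sum_le_sum_of_subset_of_nonneg (Finset.subset_univ _)
      (fun e _ _ => by positivity)
  have h3 : ∑ e : Fin g × Fin g, Real.pi * (y0 / (8 * (g + 1))) * (h e.1 ^ 2 + h e.2 ^ 2) =
      Real.pi * (y0 / (8 * (g + 1))) * (2 * g * ∑ i, h i ^ 2) := by
    rw [← Finset.mul_sum, Fintype.sum_prod_type]
    simp only [Finset.sum_add_distrib, Finset.sum_const, Finset.card_univ, Fintype.card_fin,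
      nsmul_eq_mul, ← Finset.mul_sum]
    ring
  have h4 : Real.pi * (y0 / (8 * (g + 1))) * (2 * g * ∑ i, h i ^ 2) ≤
      Real.pi * y0 / 2 * ∑ i, h i ^ 2 := by
    have h5 : 0 ≤ ∑ i, h i ^ 2 := Finset.sum_nonneg fun i _ => sq_nonneg _
    have h6 : y0 / (8 * (g + 1)) * (2 * g) ≤ y0 / 2 := by
      rw [div_mul_eq_mul_div, div_le_div_iff₀ hg two_pos]
      nlinarith
    calc Real.pi * (y0 / (8 * (g + 1))) * (2 * g * ∑ i, h i ^ 2)
        = Real.pi * (y0 / (8 * (g + 1)) * (2 * g)) * ∑ i, h i ^ 2 := by ring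
      _ ≤ Real.pi * (y0 / 2) * ∑ i, h i ^ 2 :=
          mul_le_mul_of_nonneg_right (mul_le_mul_of_nonneg_left h6 hpi.le) h5
      _ = _ := by ring
  calc _ ≤ _ := Finset.sum_le_sum h1
    _ ≤ _ := h2
    _ = _ := h3
    _ ≤ _ := h4

private theorem exa_coef {ι : Type*} (s : Finset ι) (f : ι → ℝ) {B : ℝ} (hB : 1 ≤ B) {K : ℕ}
    (hK : s.card ≤ K) (hf0 : ∀ e ∈ s, 0 ≤ f e) (hf : ∀ e ∈ s, f e ≤ B) :
    ∏ e ∈ s, f e ≤ B ^ K := by
  calc ∏ e ∈ s, f e ≤ ∏ _e ∈ s, B := Finset.prod_le_prod hf0 hf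
    _ = B ^ s.card := by rw [Finset.prod_const]
    _ ≤ B ^ K := pow_le_pow_right₀ hB hK

theorem trm_le {y0 : ℝ} (hy : 0 < y0) {ρ : ℝ} (hρ : 0 ≤ ρ) : ∃ C > 0, ∃ N > 0,
    ∀ τ : Matrix (Fin g) (Fin g) ℂ, Sm y0 τ → ∀ A ⊆ prs g, ∀ u : Fin g → ℂ, (∀ i, ‖u i‖ ≤ ρ) →
      ∀ m : Fin g → ℤ, ‖trm τ A u m‖ ≤ C * ((∏ e ∈ A, ‖τ e.1 e.2‖) *
        ∏ i ∈ Finset.univ.filter (fun i => Even (dg A i)), ‖u i‖) * maj y0 N m := by
  have hpi := Real.pi_pos
  obtain ⟨K, hK⟩ : ∃ K, K = (prs g).card := ⟨_, rfl⟩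
  refine ⟨(2 * Real.pi) ^ K * (2 * Real.pi) ^ g, by positivity,
    2 * K + g + 2 * Real.pi * ρ + 1, by positivity, ?_⟩
  intro τ hτ A hA u hu m
  obtain ⟨h, hh⟩ : ∃ h : Fin g → ℝ, h = fun i => (m i : ℝ) + 1 / 2 := ⟨_, rfl⟩
  have hhi : ∀ i, (m i : ℝ) + 1 / 2 = h i := fun i => by rw [hh]
  have hc : ∀ i, ((m i : ℂ) + 1 / 2) = ((h i : ℝ) : ℂ) := fun i => by
    rw [hh]; push_cast; ring
  have hn : ∀ i, ‖((m i : ℂ) + 1 / 2)‖ = |h i| := fun i => by
    rw [hc, Complex.norm_real, Real.norm_eq_abs]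
  obtain ⟨S, hS⟩ : ∃ S, S = ∑ i, |h i| := ⟨_, rfl⟩
  obtain ⟨H, hH⟩ : ∃ H, H = ∑ i, h i ^ 2 := ⟨_, rfl⟩
  have hS0 : 0 ≤ S := by rw [hS]; exact Finset.sum_nonneg fun i _ => abs_nonneg _
  have hle : ∀ i, |h i| ≤ S := fun i => by
    rw [hS]
    exact Finset.single_le_sum (f := fun i => |h i|) (fun j _ => abs_nonneg _)
      (Finset.mem_univ i)
  have h2pi : 1 ≤ 2 * Real.pi := by linarith [Real.pi_gt_three]
  have hself : ∀ x : ℝ, x ≤ Real.exp x := fun x => by linarith [Real.add_one_le_exp x]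
  -- norms of the arguments
  have nc : ∀ e : Fin g × Fin g, ‖2 * Real.pi * I * τ e.1 e.2 * ((m e.1 : ℂ) + 1 / 2) *
      ((m e.2 : ℂ) + 1 / 2)‖ = 2 * Real.pi * ‖τ e.1 e.2‖ * |h e.1| * |h e.2| := by
    intro e
    rw [norm_mul, norm_mul, norm_mul, norm_mul, norm_mul, hn, hn, Complex.norm_I,
      Complex.norm_ofNat, Complex.norm_real, Real.norm_eq_abs, abs_of_pos hpi, mul_one]
  have na : ∀ i, ‖2 * Real.pi * I * ((m i : ℂ) + 1 / 2) * u i‖ =
      2 * Real.pi * |h i| * ‖u i‖ := by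
    intro i
    rw [norm_mul, norm_mul, norm_mul, norm_mul, hn, Complex.norm_I,
      Complex.norm_ofNat, Complex.norm_real, Real.norm_eq_abs, abs_of_pos hpi, mul_one]
  -- first factor
  have b1 : ‖∏ i, cexp (Real.pi * I * τ i i * ((m i : ℂ) + 1 / 2) ^ 2 +
      Real.pi * I * ((m i : ℂ) + 1 / 2))‖ ≤ Real.exp (-(Real.pi * y0) * H) := by
    rw [norm_prod, hH, Finset.mul_sum, Real.exp_sum]
    refine Finset.prod_le_prod (fun i _ => norm_nonneg _) fun i _ => ?_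
    rw [Complex.norm_exp, hc]
    refine Real.exp_le_exp.2 ?_
    have e1 : (Real.pi * I * τ i i * ((h i : ℝ) : ℂ) ^ 2 +
        Real.pi * I * ((h i : ℝ) : ℂ)).re = -(Real.pi * (τ i i).im * h i ^ 2) := by
      rw [← Complex.ofReal_pow]
      simp only [Complex.add_re, Complex.mul_re, Complex.mul_im, Complex.ofReal_re,
        Complex.ofReal_im, Complex.I_re, Complex.I_im]
      ring
    rw [e1]
    have e2 := hτ.2.1 i
    have e3 : Real.pi * y0 * h i ^ 2 ≤ Real.pi * (τ i i).im * h i ^ 2 :=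
      mul_le_mul_of_nonneg_right (mul_le_mul_of_nonneg_left e2 hpi.le) (sq_nonneg _)
    linarith
  -- second and third factor
  obtain ⟨T, hT⟩ : ∃ T, T = ∑ e ∈ prs g, 2 * Real.pi * ‖τ e.1 e.2‖ * |h e.1| * |h e.2| :=
    ⟨_, rfl⟩
  have hTle : T ≤ Real.pi * y0 / 2 * H := by
    rw [hT, hH]
    refine exa_pair hy h (fun e => ‖τ e.1 e.2‖) fun e he => ?_
    have : e.1 < e.2 := by
      have := he
      unfold prs at this
      exact (Finset.mem_filter.1 this).2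
    exact hτ.2.2 _ _ this.ne
  have b2 : ‖∏ e ∈ A, Complex.sinh (2 * Real.pi * I * τ e.1 e.2 * ((m e.1 : ℂ) + 1 / 2) *
      ((m e.2 : ℂ) + 1 / 2))‖ * ‖∏ e ∈ prs g \ A, Complex.cosh (2 * Real.pi * I * τ e.1 e.2 *
      ((m e.1 : ℂ) + 1 / 2) * ((m e.2 : ℂ) + 1 / 2))‖ ≤
      (∏ e ∈ A, ‖τ e.1 e.2‖) * (2 * Real.pi * Real.exp (2 * S)) ^ K * Real.exp T := by
    have c1 : ‖∏ e ∈ A, Complex.sinh (2 * Real.pi * I * τ e.1 e.2 * ((m e.1 : ℂ) + 1 / 2) *
        ((m e.2 : ℂ) + 1 / 2))‖ ≤ (∏ e ∈ A, ‖τ e.1 e.2‖) *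
        (∏ e ∈ A, 2 * Real.pi * |h e.1| * |h e.2|) *
        ∏ e ∈ A, Real.exp (2 * Real.pi * ‖τ e.1 e.2‖ * |h e.1| * |h e.2|) := by
      rw [norm_prod, ← Finset.prod_mul_distrib, ← Finset.prod_mul_distrib]
      refine Finset.prod_le_prod (fun e _ => norm_nonneg _) fun e _ => ?_
      refine (exa_sinh _).trans (le_of_eq ?_)
      rw [nc]
      ring
    have c2 : ‖∏ e ∈ prs g \ A, Complex.cosh (2 * Real.pi * I * τ e.1 e.2 *
        ((m e.1 : ℂ) + 1 / 2) * ((m e.2 : ℂ) + 1 / 2))‖ ≤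
        ∏ e ∈ prs g \ A, Real.exp (2 * Real.pi * ‖τ e.1 e.2‖ * |h e.1| * |h e.2|) := by
      rw [norm_prod]
      refine Finset.prod_le_prod (fun e _ => norm_nonneg _) fun e _ => ?_
      refine (exa_cosh _).trans (le_of_eq ?_)
      rw [nc]
    have c3 : (∏ e ∈ A, Real.exp (2 * Real.pi * ‖τ e.1 e.2‖ * |h e.1| * |h e.2|)) *
        ∏ e ∈ prs g \ A, Real.exp (2 * Real.pi * ‖τ e.1 e.2‖ * |h e.1| * |h e.2|) =
        Real.exp T := by
      rw [mul_comm, Finset.prod_sdiff hA, ← Real.exp_sum, hT]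
    have c4 : ∏ e ∈ A, 2 * Real.pi * |h e.1| * |h e.2| ≤
        (2 * Real.pi * Real.exp (2 * S)) ^ K := by
      refine exa_coef A _ ?_ ?_ (fun e _ => by positivity) fun e _ => ?_
      · have : 1 ≤ Real.exp (2 * S) := Real.one_le_exp (by linarith)
        nlinarith
      · rw [hK]; exact Finset.card_le_card hA
      · have d1 : |h e.1| ≤ Real.exp S := (hle _).trans (hself S)
        have d2 : |h e.2| ≤ Real.exp S := (hle _).trans (hself S)
        have d3 : Real.exp (2 * S) = Real.exp S * Real.exp S := by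
          rw [← Real.exp_add]; congr 1; ring
        rw [d3, mul_assoc]
        refine mul_le_mul_of_nonneg_left ?_ (by positivity)
        exact mul_le_mul d1 d2 (abs_nonneg _) (Real.exp_pos _).le
    calc _ ≤ ((∏ e ∈ A, ‖τ e.1 e.2‖) * (∏ e ∈ A, 2 * Real.pi * |h e.1| * |h e.2|) *
        ∏ e ∈ A, Real.exp (2 * Real.pi * ‖τ e.1 e.2‖ * |h e.1| * |h e.2|)) *
        ∏ e ∈ prs g \ A, Real.exp (2 * Real.pi * ‖τ e.1 e.2‖ * |h e.1| * |h e.2|) :=
          mul_le_mul c1 c2 (norm_nonneg _) (by positivity)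
      _ = (∏ e ∈ A, ‖τ e.1 e.2‖) * (∏ e ∈ A, 2 * Real.pi * |h e.1| * |h e.2|) *
          Real.exp T := by rw [← c3]; ring
      _ ≤ _ := mul_le_mul_of_nonneg_right (mul_le_mul_of_nonneg_left c4 (by positivity))
          (Real.exp_pos _).le
  -- last factor
  have b3 : ‖∏ i, (if Even (dg A i) then Complex.sinh (2 * Real.pi * I *
      ((m i : ℂ) + 1 / 2) * u i) else Complex.cosh (2 * Real.pi * I *
      ((m i : ℂ) + 1 / 2) * u i))‖ ≤
      (∏ i ∈ Finset.univ.filter (fun i => Even (dg A i)), ‖u i‖) *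
      (2 * Real.pi * Real.exp S) ^ g * Real.exp (2 * Real.pi * ρ * S) := by
    have c1 : ‖∏ i, (if Even (dg A i) then Complex.sinh (2 * Real.pi * I *
        ((m i : ℂ) + 1 / 2) * u i) else Complex.cosh (2 * Real.pi * I *
        ((m i : ℂ) + 1 / 2) * u i))‖ ≤
        ∏ i, ((if Even (dg A i) then ‖u i‖ * (2 * Real.pi * |h i|) else 1) *
          Real.exp (2 * Real.pi * ρ * |h i|)) := by
      rw [norm_prod]
      refine Finset.prod_le_prod (fun e _ => norm_nonneg _) fun i _ => ?_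
      have d1 : Real.exp (2 * Real.pi * |h i| * ‖u i‖) ≤
          Real.exp (2 * Real.pi * ρ * |h i|) := by
        refine Real.exp_le_exp.2 ?_
        have := mul_le_mul_of_nonneg_left (hu i) (by positivity : 0 ≤ 2 * Real.pi * |h i|)
        linarith
      by_cases hev : Even (dg A i)
      · rw [if_pos hev, if_pos hev]
        refine (exa_sinh _).trans ?_
        rw [na]
        calc 2 * Real.pi * |h i| * ‖u i‖ * Real.exp (2 * Real.pi * |h i| * ‖u i‖)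
            ≤ 2 * Real.pi * |h i| * ‖u i‖ * Real.exp (2 * Real.pi * ρ * |h i|) :=
              mul_le_mul_of_nonneg_left d1 (by positivity)
          _ = _ := by ring
      · rw [if_neg hev, if_neg hev]
        refine (exa_cosh _).trans ?_
        rw [na, one_mul]
        exact d1
    have c2 : ∏ i, ((if Even (dg A i) then ‖u i‖ * (2 * Real.pi * |h i|) else 1) *
        Real.exp (2 * Real.pi * ρ * |h i|)) =
        (∏ i ∈ Finset.univ.filter (fun i => Even (dg A i)), ‖u i‖) *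
        (∏ i ∈ Finset.univ.filter (fun i => Even (dg A i)), 2 * Real.pi * |h i|) *
        Real.exp (2 * Real.pi * ρ * S) := by
      rw [Finset.prod_mul_distrib, ← Finset.prod_filter, Finset.prod_mul_distrib,
        ← Real.exp_sum, ← Finset.mul_sum, hS]
    have c3 : ∏ i ∈ Finset.univ.filter (fun i => Even (dg A i)), 2 * Real.pi * |h i| ≤
        (2 * Real.pi * Real.exp S) ^ g := by
      refine exa_coef _ _ ?_ ?_ (fun e _ => by positivity) fun i _ => ?_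
      · have : 1 ≤ Real.exp S := Real.one_le_exp hS0
        nlinarith
      · exact (Finset.card_filter_le _ _).trans (by simp)
      · exact mul_le_mul_of_nonneg_left ((hle i).trans (hself S)) (by positivity)
    refine c1.trans ?_
    rw [c2]
    refine mul_le_mul_of_nonneg_right (mul_le_mul_of_nonneg_left c3 ?_) (Real.exp_pos _).le
    exact Finset.prod_nonneg fun i _ => norm_nonneg _
  -- conclusion
  obtain ⟨P, hP⟩ : ∃ P, P = ∏ e ∈ A, ‖τ e.1 e.2‖ := ⟨_, rfl⟩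
  obtain ⟨Q, hQ⟩ : ∃ Q, Q = ∏ i ∈ Finset.univ.filter (fun i => Even (dg A i)), ‖u i‖ :=
    ⟨_, rfl⟩
  have hP0 : 0 ≤ P := by rw [hP]; exact Finset.prod_nonneg fun i _ => norm_nonneg _
  have hQ0 : 0 ≤ Q := by rw [hQ]; exact Finset.prod_nonneg fun i _ => norm_nonneg _
  rw [← hP] at b2 ⊢
  rw [← hQ] at b3 ⊢
  have hm : maj y0 (2 * K + g + 2 * Real.pi * ρ + 1) m =
      Real.exp (-(Real.pi * y0 / 2) * H + (2 * K + g + 2 * Real.pi * ρ + 1) * S) := by
    unfold maj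
    rw [hH, hS]
    simp only [hhi]
  rw [hm]
  unfold trm
  rw [norm_mul, norm_mul, norm_mul]
  calc _ ≤ Real.exp (-(Real.pi * y0) * H) * (P * (2 * Real.pi * Real.exp (2 * S)) ^ K *
        Real.exp T) * (Q * (2 * Real.pi * Real.exp S) ^ g *
        Real.exp (2 * Real.pi * ρ * S)) := by
        rw [mul_assoc ‖∏ i, cexp _‖]
        exact mul_le_mul (mul_le_mul b1 b2 (by positivity) (Real.exp_pos _).le) b3
          (norm_nonneg _) (by positivity)
    _ = (2 * Real.pi) ^ K * (2 * Real.pi) ^ g * (P * Q) *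
        (Real.exp (-(Real.pi * y0) * H) * Real.exp (2 * S) ^ K * Real.exp T *
          Real.exp S ^ g * Real.exp (2 * Real.pi * ρ * S)) := by
        rw [mul_pow, mul_pow]; ring
    _ = (2 * Real.pi) ^ K * (2 * Real.pi) ^ g * (P * Q) *
        Real.exp (-(Real.pi * y0) * H + K * (2 * S) + T + g * S + 2 * Real.pi * ρ * S) := by
        rw [← Real.exp_nat_mul, ← Real.exp_nat_mul, ← Real.exp_add, ← Real.exp_add,
          ← Real.exp_add, ← Real.exp_add]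
    _ ≤ _ := by
        refine mul_le_mul_of_nonneg_left (Real.exp_le_exp.2 ?_) (by positivity)
        nlinarith

end AMP
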