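import Pool.Agent.Lib.MP_b57e3c_ag_P.Tl

set_option autoImplicit false

/-!
# Module Fl : full tubes and their limits

`Near.full`: `Near.tube` for `min δ δ₁`.
`Full.near`: given `δ, R'` take `R` from `Full` for `δ` and the base point `s k = 1/2` for all `k
∉ S`, which is in `Dn n S R` for most `n`, and `R' r n < ‖1/2‖` (`half_mem`).
`Full.lim`: `T = insert k S`. `R` from `Full` for `δ`; `ρ = R`. Let `‖z‖ > ρ`. For most `n` the
point `s` with `s k = r n * z`, `s l = 1/2` for `l ∉ T` is in `Dn n S R`: `‖r z‖ > R r`, `r z ∈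
Go (τ n k k)` for most `n` (`small_mem`, `r n → 0`), `half_mem`. So there is `w n ∈ N n S` over
`s`, `‖w n i - v i‖ < δ`. Let `w' n = update (w n) k z`; by `N_insert` `w' n ∈ N n T` (`r * (w'
n) k = r z = w n k`). The `w' n` are bounded, so they converge along `U` (closed balls are
compact) to some `w`, which is in `Lim T` (`UL_mem`), `w k = z`, `‖w i - v i‖ ≤ δ` for `i ∈ S`,
`w l = 1/2` for `l ∉ T`.
-/

open Complex Filter Topology

namespace AMP

open AMC

variable {g m : ℕ} {C : Sq g m} {S : Finset (Fin g)} {v : Fin g → ℂ}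

theorem Sq.Near.full (hm : m + 4 = g) (hS : S.card = 4) (h : C.Near S v) (hn : Nd C.b S v) :
    C.Full S v := by
  obtain ⟨δ₁, hδ₁, H⟩ := h.tube hm hS hn
  intro δ hδ
  obtain ⟨R, hR, h1⟩ := H (min δ δ₁) (lt_min hδ hδ₁) (min_le_right _ _)
  refine ⟨R, hR, ?_⟩
  filter_upwards [h1] with n h1 s hs
  obtain ⟨w, hw, a, b, _⟩ := h1 s hs
  exact ⟨w, hw, fun i hi => (a i hi).trans_le (min_le_left _ _), b⟩

theorem Sq.Full.near (h : C.Full S v) : C.Near S v := by
  intro δ hδ R'
  obtain ⟨R, hR, h1⟩ := h δ hδ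
  obtain ⟨ρ, hρ, h2⟩ := C.half_mem
  have h0 : ‖(1 / 2 : ℂ) - 1 / 2‖ ≤ ρ := by
    rw [sub_self, norm_zero]
    exact hρ.le
  filter_upwards [h1, h2 R, h2 R'] with n h1 h2 h3
  obtain ⟨w, hw, a, b⟩ := h1 (fun _ => 1 / 2) fun k => h2 k (1 / 2) h0
  exact ⟨w, hw, a, fun k hk => by
    rw [b k hk]
    exact h3 k (1 / 2) h0⟩

open Classical in
theorem Sq.Full.lim (h : C.Full S v) {k : Fin g} (hk : k ∉ S) {δ : ℝ} (hδ : 0 < δ) :
    ∃ ρ > 0, ∀ z : ℂ, ρ < ‖z‖ → ∃ w ∈ C.Lim (insert k S), w k = z ∧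
      (∀ i ∈ S, ‖w i - v i‖ ≤ δ) ∧ ∀ l, l ∉ insert k S → w l = 1 / 2 := by
  obtain ⟨R, hR, h1⟩ := h δ hδ
  obtain ⟨ρ, hρ, h2⟩ := C.half_mem
  obtain ⟨ρ', hρ', h3⟩ := C.small_mem
  refine ⟨R, hR, fun z hz => ?_⟩
  have h0 : ‖(1 / 2 : ℂ) - 1 / 2‖ ≤ ρ := by
    rw [sub_self, norm_zero]
    exact hρ.le
  have h4 : ∀ᶠ n in (C.U : Filter ℕ), ‖(C.r n : ℂ) * z‖ ≤ ρ' := by
    have e1 : Tendsto (fun n => C.r n * ‖z‖) (C.U : Filter ℕ) (𝓝 0) := by
      have := C.rlim.mul_const ‖z‖
      rwa [zero_mul] at this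
    filter_upwards [e1.eventually (gt_mem_nhds hρ')] with n e2
    rw [norm_mul, Complex.norm_real, Real.norm_eq_abs, abs_of_pos (C.rpos n)]
    exact e2.le
  have h5 : ∀ᶠ n in (C.U : Filter ℕ), ∃ w : Fin g → ℂ, w ∈ C.N n S ∧
      (∀ i ∈ S, ‖w i - v i‖ < δ) ∧ w k = (C.r n : ℂ) * z ∧
        ∀ l, l ∉ insert k S → w l = 1 / 2 := by
    filter_upwards [h1, h2 R, h3, h4] with n h1 h2 h3 h4
    have hs : (fun l : {l // l ∉ S} => if l.1 = k then (C.r n : ℂ) * z else 1 / 2) ∈
        C.Dn n S R := by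
      intro l
      by_cases hl : l.1 = k
      · have e1 : (fun l : {l // l ∉ S} => if l.1 = k then (C.r n : ℂ) * z else 1 / 2) l =
            (C.r n : ℂ) * z := if_pos hl
        rw [e1]
        refine ⟨h3 l.1 _ h4, ?_⟩
        rw [norm_mul, Complex.norm_real, Real.norm_eq_abs, abs_of_pos (C.rpos n), mul_comm]
        exact mul_lt_mul_of_pos_left hz (C.rpos n)
      · have e1 : (fun l : {l // l ∉ S} => if l.1 = k then (C.r n : ℂ) * z else 1 / 2) l =
            1 / 2 := if_neg hl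
        rw [e1]
        exact h2 l.1 _ h0
    obtain ⟨w, hw, a, b⟩ := h1 _ hs
    refine ⟨w, hw, a, ?_, fun l hl => ?_⟩
    · rw [b k hk]
      exact if_pos rfl
    · rw [Finset.mem_insert, not_or] at hl
      rw [b l hl.2]
      exact if_neg hl.1
  obtain ⟨w, hw⟩ := h5.choice
  have h6 : ∀ᶠ n in (C.U : Filter ℕ), Function.update (w n) k z ∈ C.N n (insert k S) := by
    filter_upwards [hw] with n hw
    rw [C.N_insert n hk, Function.update_self, Function.update_idem, ← hw.2.2.1,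
      Function.update_eq_self]
    exact hw.1
  have h7 : ∀ i, ∃ x : ℂ, Tendsto (fun n => Function.update (w n) k z i) (C.U : Filter ℕ)
      (𝓝 x) ∧ (i ∈ S → ‖x - v i‖ ≤ δ) ∧ (i = k → x = z) ∧
        (i ∉ insert k S → x = 1 / 2) := by
    intro i
    by_cases hi : i = k
    · subst hi
      refine ⟨z, ?_, fun e => absurd e hk, fun _ => rfl, fun e => absurd
        (Finset.mem_insert_self _ _) e⟩
      simp only [Function.update_self]
      exact tendsto_const_nhds
    · have e0 : (fun n => Function.update (w n) k z i) = fun n => w n i :=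
        funext fun n => Function.update_of_ne hi _ _
      rw [e0]
      by_cases hS : i ∈ S
      · have e1 : (C.U.map fun n => w n i) ≤ (𝓟 (Metric.closedBall (v i) δ)) := by
          rw [Filter.le_principal_iff]
          show ∀ᶠ n in (C.U : Filter ℕ), w n i ∈ Metric.closedBall (v i) δ
          filter_upwards [hw] with n hw
          rw [Metric.mem_closedBall, dist_eq_norm]
          exact (hw.2.1 i hS).le
        obtain ⟨x, hx, hx2⟩ := (isCompact_closedBall (v i) δ).ultrafilter_le_nhds _ e1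
        refine ⟨x, hx2, fun _ => ?_, fun e => absurd e hi, fun e => absurd
          (Finset.mem_insert_of_mem hS) e⟩
        rwa [Metric.mem_closedBall, dist_eq_norm] at hx
      · refine ⟨1 / 2, ?_, fun e => absurd e hS, fun e => absurd e hi, fun _ => rfl⟩
        refine Tendsto.congr' ?_ tendsto_const_nhds
        filter_upwards [hw] with n hw
        exact (hw.2.2.2 i fun e => (Finset.mem_insert.1 e).elim hi hS).symm
  choose x hx using h7
  refine ⟨x, ?_, (hx k).2.2.1 rfl, fun i hi => (hx i).2.1 hi, fun l hl => (hx l).2.2.2 hl⟩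
  rw [Sq.Lim_eq]
  exact UL_mem h6 fun i => (hx i).1

end AMP
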