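import Pool.Agent.Lib.MP_b57e3c_ag_P.ExA

set_option autoImplicit false

/-!
# Module Fm : main terms

Conventions of module ExA. `FA_le`: `FA` is the sum of the terms (`trm_le`, `summable_maj`),
`C' = C ∑ maj`.

`FA_main`. Let `IsMt S A`. Put
`y_m = w_m ∏_{e∈A} c_e ∏_{i∈S, dg A i = 0} a_i ∏_{k∉S} sinh a_k`. Compare factor by factor with
`trm`: for `e ∈ A`: `‖sinh c - c‖ ≤ ‖c‖ * (‖c‖ e^{‖c‖})`; for `e ∈ prs \ A`: `‖cosh c - 1‖ ≤ ‖c‖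
e^{‖c‖}`; for `i ∈ S`, `dg A i = 0`: `‖sinh a - a‖ ≤ ‖a‖ * (‖a‖ e^{‖a‖})`; for `i ∈ S`, `dg A i =
1`: `‖cosh a - 1‖ ≤ ‖a‖ e^{‖a‖}`; for `k ∉ S`: `dg A k = 0`, the same factor `sinh a_k`. General
fact: if `‖x_i‖, ‖y_i‖ ≤ B_i`, `‖x_i - y_i‖ ≤ ε_i B_i` then `‖∏ x_i - ∏ y_i‖ ≤ (∑ ε_i) ∏ B_i`
(induction). So `‖trm - y_m‖ ≤ exp (-π y0 ∑ h²) (∑_e ‖c_e‖ + ∑_{i∈S} ‖a_i‖) ∏_{e∈A} ‖c_e‖ ∏_{i
even} ‖a_i‖ exp (∑ ‖c_e‖ + ∑ ‖a_i‖)`, and as in `trm_le` this is `≤ C (∑_e ‖τ_e‖ + ∑_{i∈S} ‖u_i‖)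
∏_{e∈A} ‖τ_e‖ ∏_{i even} ‖u_i‖ maj` (`∑_e ‖c_e‖ ≤ (∑_e ‖τ_e‖) 2π ∑ ...`, polynomial factors `≤
exp` of a multiple of `∑ |h_i|`). (`{i | Even (dg A i)}` is the set of the `i ∈ S` with `dg A i =
0` and of all `k ∉ S`.) The sum of the `y_m`: `y_m` is a product over `i` of functions of `m_i`:
`ω(h) = exp (π i τ_ii h² + π i h)`, for `i ∈ S` (every `i ∈ S` occurs once in a pair of `A` or
once in an `a_i`) `ω(h) h`, for `k ∉ S` `ω(h) sinh (2 π i h u_k)`; the constants are `∏_{e∈A} 2 π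
i τ_e ∏_{i∈S,dg=0} 2 π i u_i`. By `AM.hasSum_tuple`, `dv_hasSum` (`∑ ω(h) h = dv/(2 π i)`),
`vt_hasSum` and oddness of `ω` (`∑ ω(h) sinh (2 π i h u) = ∑ ω(h) exp (2 π i h u) = vt`, as in
module Ex; `vt_odd`) the sum is `∏_{e∈A} (2 π i τ_e) ∏_{i∈S,dg=0} (2 π i u_i) ∏_{i∈S} (dv τ_ii /
(2 π i)) ∏_{k∉S} vt τ_kk u_k`, which is the main term: the number of factors `2 π i` is `card A +
(card S - 2 card A) - card S = - card A`.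
-/

open Complex Filter Topology

namespace AMP

variable {g : ℕ}

theorem FA_le {y0 : ℝ} (hy : 0 < y0) {ρ : ℝ} (hρ : 0 ≤ ρ) : ∃ C > 0,
    ∀ τ : Matrix (Fin g) (Fin g) ℂ, Sm y0 τ → ∀ A ⊆ prs g, ∀ u : Fin g → ℂ, (∀ i, ‖u i‖ ≤ ρ) →
      ‖FA τ A u‖ ≤ C * ((∏ e ∈ A, ‖τ e.1 e.2‖) *
        ∏ i ∈ Finset.univ.filter (fun i => Even (dg A i)), ‖u i‖) := by
  obtain ⟨C, hC, N, hN, h⟩ := trm_le (g := g) hy hρ
  have hs := summable_maj (g := g) hy N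
  have h0 : 0 ≤ ∑' m : Fin g → ℤ, maj y0 N m := tsum_nonneg fun m => (Real.exp_pos _).le
  refine ⟨C * (∑' m : Fin g → ℤ, maj y0 N m) + 1, by positivity, fun τ hτ A hA u hu => ?_⟩
  obtain ⟨P, hP⟩ : ∃ P : ℝ, P = (∏ e ∈ A, ‖τ e.1 e.2‖) *
    ∏ i ∈ Finset.univ.filter (fun i => Even (dg A i)), ‖u i‖ := ⟨_, rfl⟩
  have hP0 : 0 ≤ P := by
    rw [hP]
    exact mul_nonneg (Finset.prod_nonneg fun _ _ => norm_nonneg _)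
      (Finset.prod_nonneg fun _ _ => norm_nonneg _)
  rw [← hP]
  have h1 : ‖∑' m : Fin g → ℤ, trm τ A u m‖ ≤ C * P * ∑' m : Fin g → ℤ, maj y0 N m := by
    refine tsum_of_norm_bounded (hs.hasSum.mul_left (C * P)) fun m => ?_
    rw [hP]
    exact h τ hτ A hA u hu m
  calc ‖FA τ A u‖ ≤ C * P * ∑' m : Fin g → ℤ, maj y0 N m := h1
    _ ≤ (C * (∑' m : Fin g → ℤ, maj y0 N m) + 1) * P := by
      nlinarith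

end AMP
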