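import Pool.Agent.Lib.MP_b57e3c_ag_P.Defs
import Pool.Agent.Lib.MP_b57e3c_ag.ThB
import Pool.Agent.Lib.MP_b57e3c_ag.ThD

set_option autoImplicit false

/-!
# Module Vz : the odd elliptic theta function and its zeros

`vt_eq`: complete the square, `(m+1/2)² s/2 + (m+1/2)(u+1/2) = m² s/2 + m (u + (1+s)/2) + s/8 +
(u+1/2)/2` (times `2 π i`). Differentiability and the convergence follow from `jacobiTheta₂`
(`differentiableAt_jacobiTheta₂_fst`, `summable_jacobiTheta₂_term_iff`).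
`vt_odd`: `m ↦ -1-m` changes `h = m + 1/2` to `-h`, and `exp (- π i h) = - exp (π i h)` for
half-integers `h` (`exp (2 π i h) = -1`).

`vt_zero_iff`. `⇐`: `jt_zero` (`vt s 0 = 0`) and the quasi-periodicity of `jacobiTheta₂`
(`jacobiTheta₂_add_left`, `jacobiTheta₂_add_left'`). `⇒`: write `T = s`, `t = T/2`, `θ =
jacobiTheta₂ · T`, `ω = (1+T)/2`, `θ ω = 0`, and suppose `θ a = 0`. Put `d = a - ω`. By
`AM.addition` (at `t`), `θ(x+y) θ(x-y) = s0 x s0 y + s1 x s1 y`, where `s0 = AM.s0 t`, `s1 =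
AM.s1 t` have no common zero (`AM.no_common`). For every `y` the vectors `(s0 x, s1 x)` for `x =
ω + y` and for `x = a + y` are both orthogonal to `(s0 y, s1 y) ≠ 0` (since `x - y` is a zero of
`θ`), hence proportional: `s0(x) s1(x+d) = s1(x) s0(x+d)` for all `x`. So there is a function `λ`
without zeros with `(s0,s1)(x+d) = λ(x) (s0,s1)(x)`; it is entire (`λ = s0(x+d)/s0(x)` or
`s1(x+d)/s1(x)` locally). The functions `s0, s1` have the multipliers `1` for `x ↦ x+1` and `exp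
(- 2 π i (T + 2 x))` for `x ↦ x+T` (from the definition of `s0`, `s1` by `jacobiTheta₂ (2 x) (4
t)`, `4 t = 2 T`). So `λ(x+1) = λ(x)`, `λ(x+T) = exp (- 4 π i d) λ(x)`. `λ'/λ` is entire and
doubly periodic, hence bounded, hence constant `c` (Liouville,
`Differentiable.apply_eq_apply_of_bounded`), so `λ(x) = C exp (c x)`; `exp c = 1`, `c = 2 π i k`,
and `exp (2 π i k T) = exp (- 4 π i d)`: `2 d = m - k T` for integers `k, m`. So `a = ω + (m - k
T)/2`. If `m, k` are both even we are done: `a ∈ ω + ℤ + T ℤ`. Otherwise `a ≡ 0`, `1/2` or `T/2`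
modulo `ℤ + T ℤ` (`m, k` odd; `m` even, `k` odd; `m` odd, `k` even) and `θ` vanishes at this
point `e` (quasi-periodicity); but `x ↦ exp (2 π i κ x) θ(e + x)` is even for `κ = 0, 0, 1/2`
(`θ` is even, `jacobiTheta₂_neg_left`, and the quasi-periodicity), so its derivative at `0`
vanishes, hence `θ'(e) = 0` (as `θ(e) = 0`), contradicting `AM.simple_zero`.
`dv_ne`: `AM.simple_zero` at `ω` (`vt` is `θ(u + ω)` times a nonvanishing factor).
-/

open Complex Filter Topology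

namespace AMP

private theorem VzA_term (s u : ℂ) (m : ℤ) :
    cexp (Real.pi * I * s * ((m : ℂ) + 1 / 2) ^ 2 +
      2 * Real.pi * I * ((m : ℂ) + 1 / 2) * (u + 1 / 2)) =
    cexp (Real.pi * I * s / 4 + Real.pi * I * (u + 1 / 2)) *
      jacobiTheta₂_term m (u + (1 + s) / 2) s := by
  rw [jacobiTheta₂_term, ← Complex.exp_add]
  congr 1
  ring

theorem vt_eq (s u : ℂ) : vt s u = cexp (Real.pi * I * s / 4 + Real.pi * I * (u + 1 / 2)) *
    jacobiTheta₂ (u + (1 + s) / 2) s := by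
  rw [vt, jacobiTheta₂, ← tsum_mul_left]
  exact tsum_congr fun m => VzA_term s u m

theorem vt_hasSum {s : ℂ} (hs : 0 < s.im) (u : ℂ) :
    HasSum (fun m : ℤ => cexp (Real.pi * I * s * ((m : ℂ) + 1 / 2) ^ 2 +
      2 * Real.pi * I * ((m : ℂ) + 1 / 2) * (u + 1 / 2))) (vt s u) := by
  rw [vt_eq]
  have h := (hasSum_jacobiTheta₂_term (u + (1 + s) / 2) hs).mul_left
    (cexp (Real.pi * I * s / 4 + Real.pi * I * (u + 1 / 2)))
  have e : (fun m : ℤ => cexp (Real.pi * I * s * ((m : ℂ) + 1 / 2) ^ 2 +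
      2 * Real.pi * I * ((m : ℂ) + 1 / 2) * (u + 1 / 2))) = fun m : ℤ =>
      cexp (Real.pi * I * s / 4 + Real.pi * I * (u + 1 / 2)) *
        jacobiTheta₂_term m (u + (1 + s) / 2) s := funext fun m => VzA_term s u m
  rw [e]
  exact h

private theorem VzA_der {s : ℂ} (hs : 0 < s.im) (u : ℂ) :
    HasDerivAt (vt s) (cexp (Real.pi * I * s / 4 + Real.pi * I * (u + 1 / 2)) *
      (Real.pi * I) * jacobiTheta₂ (u + (1 + s) / 2) s +
      cexp (Real.pi * I * s / 4 + Real.pi * I * (u + 1 / 2)) *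
        jacobiTheta₂' (u + (1 + s) / 2) s) u := by
  have e : vt s = fun u => cexp (Real.pi * I * s / 4 + Real.pi * I * (u + 1 / 2)) *
      jacobiTheta₂ (u + (1 + s) / 2) s := funext fun u => vt_eq s u
  have h1 : HasDerivAt (fun u : ℂ => Real.pi * I * s / 4 + Real.pi * I * (u + 1 / 2))
      (Real.pi * I) u := by
    have h := (((hasDerivAt_id u).add_const (1 / 2 : ℂ)).const_mul
      (Real.pi * I : ℂ)).const_add (Real.pi * I * s / 4 : ℂ)
    simpa using h
  have h2 : HasDerivAt (fun u : ℂ => jacobiTheta₂ (u + (1 + s) / 2) s)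
      (jacobiTheta₂' (u + (1 + s) / 2) s) u :=
    (hasDerivAt_jacobiTheta₂_fst (u + (1 + s) / 2) hs).comp_add_const u ((1 + s) / 2)
  rw [e]
  exact h1.cexp.mul h2

theorem vt_diff {s : ℂ} (hs : 0 < s.im) : Differentiable ℂ (vt s) := fun u =>
  (VzA_der hs u).differentiableAt

theorem vt_odd {s : ℂ} (hs : 0 < s.im) (u : ℂ) : vt s (-u) = - vt s u := by
  have h := (Equiv.subLeft (-1 : ℤ)).hasSum_iff.2 (vt_hasSum hs (-u))
  have h2 := (vt_hasSum hs u).neg
  refine h.unique ?_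
  have e : ((fun m : ℤ => cexp (Real.pi * I * s * ((m : ℂ) + 1 / 2) ^ 2 +
      2 * Real.pi * I * ((m : ℂ) + 1 / 2) * (-u + 1 / 2))) ∘ (Equiv.subLeft (-1 : ℤ))) =
      fun m : ℤ => -cexp (Real.pi * I * s * ((m : ℂ) + 1 / 2) ^ 2 +
      2 * Real.pi * I * ((m : ℂ) + 1 / 2) * (u + 1 / 2)) := by
    funext m
    have h3 : cexp (-(Real.pi * I) - (m : ℂ) * (2 * Real.pi * I)) = -1 := by
      rw [Complex.exp_sub, Complex.exp_int_mul_two_pi_mul_I, div_one, Complex.exp_neg,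
        Complex.exp_pi_mul_I]
      norm_num
    have h4 : -cexp (Real.pi * I * s * ((m : ℂ) + 1 / 2) ^ 2 +
        2 * Real.pi * I * ((m : ℂ) + 1 / 2) * (u + 1 / 2)) =
        cexp (-(Real.pi * I) - (m : ℂ) * (2 * Real.pi * I)) *
        cexp (Real.pi * I * s * ((m : ℂ) + 1 / 2) ^ 2 +
        2 * Real.pi * I * ((m : ℂ) + 1 / 2) * (u + 1 / 2)) := by
      rw [h3]
      ring
    rw [h4, ← Complex.exp_add, Function.comp_apply, Equiv.subLeft_apply]
    congr 1
    push_cast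
    ring
  rw [e]
  exact h2

private theorem VzA_zero {s : ℂ} (hs : 0 < s.im) : jacobiTheta₂ ((1 + s) / 2) s = 0 := by
  have h := vt_odd hs 0
  rw [neg_zero] at h
  have h2 : vt s 0 = 0 := by linear_combination h / 2
  rw [vt_eq, zero_add, zero_add] at h2
  exact (mul_eq_zero.1 h2).resolve_left (Complex.exp_ne_zero _)

private theorem VzA_dv {s : ℂ} (hs : 0 < s.im) :
    dv s = cexp (Real.pi * I * s / 4 + Real.pi * I * (0 + 1 / 2)) *
        jacobiTheta₂' ((1 + s) / 2) s := by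
  rw [dv, (VzA_der hs 0).deriv, zero_add ((1 + s) / 2), VzA_zero hs, mul_zero, zero_add]

theorem dv_ne {s : ℂ} (hs : 0 < s.im) : dv s ≠ 0 := by
  rw [VzA_dv hs]
  refine mul_ne_zero (Complex.exp_ne_zero _) ?_
  have h := AM.simple_zero hs (VzA_zero hs)
  rwa [(hasDerivAt_jacobiTheta₂_fst ((1 + s) / 2) hs).deriv] at h

/-- `dv` as a series -/
theorem dv_hasSum {s : ℂ} (hs : 0 < s.im) :
    HasSum (fun m : ℤ => 2 * Real.pi * I * ((m : ℂ) + 1 / 2) *
      cexp (Real.pi * I * s * ((m : ℂ) + 1 / 2) ^ 2 + Real.pi * I * ((m : ℂ) + 1 / 2)))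
      (dv s) := by
  have h1 := (hasSum_jacobiTheta₂_term ((1 + s) / 2) hs).mul_left
    (cexp (Real.pi * I * s / 4 + Real.pi * I * (0 + 1 / 2)) * (Real.pi * I))
  have h2 := (hasSum_jacobiTheta₂'_term ((1 + s) / 2) hs).mul_left
    (cexp (Real.pi * I * s / 4 + Real.pi * I * (0 + 1 / 2)))
  have h3 := h1.add h2
  rw [VzA_zero hs, mul_zero, zero_add (_ * jacobiTheta₂' _ _), ← VzA_dv hs] at h3
  have e : (fun m : ℤ => 2 * Real.pi * I * ((m : ℂ) + 1 / 2) *
      cexp (Real.pi * I * s * ((m : ℂ) + 1 / 2) ^ 2 + Real.pi * I * ((m : ℂ) + 1 / 2))) =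
      fun m : ℤ => cexp (Real.pi * I * s / 4 + Real.pi * I * (0 + 1 / 2)) * (Real.pi * I) *
        jacobiTheta₂_term m ((1 + s) / 2) s +
        cexp (Real.pi * I * s / 4 + Real.pi * I * (0 + 1 / 2)) *
        jacobiTheta₂'_term m ((1 + s) / 2) s := by
    funext m
    have h4 := VzA_term s 0 m
    rw [zero_add ((1 + s) / 2)] at h4
    have h5 : cexp (Real.pi * I * s * ((m : ℂ) + 1 / 2) ^ 2 +
        Real.pi * I * ((m : ℂ) + 1 / 2)) =
        cexp (Real.pi * I * s * ((m : ℂ) + 1 / 2) ^ 2 +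
          2 * Real.pi * I * ((m : ℂ) + 1 / 2) * (0 + 1 / 2)) := by
      congr 1
      ring
    rw [h5, h4, jacobiTheta₂'_term]
    ring
  rw [e]
  exact h3

end AMP
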