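import Pool.Agent.Lib.MP_b57e3c_ag_P.FmA
import Pool.Agent.Lib.MP_b57e3c_ag_P.VzA

set_option autoImplicit false

/-!
# Module Fm : main terms

Conventions of module ExA. `FA_le`: `FA` is the sum of the terms (`trm_le`, `summable_maj`),
`C' = C ∑ maj`.

`FA_main`. Let `IsMt S A`. Put
`y_m = w_m ∏_{e∈A} c_e ∏_{i∈S, dg A i = 0} a_i ∏_{k∉S} sinh a_k`. Compare factor by factor with
`trm`: for `e ∈ A`: `‖sinh c - c‖ ≤ ‖c‖ * (‖c‖ e^{‖c‖})`; for `e ∈ prs \ A`: `‖cosh c - 1‖ ≤ ‖c‖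
e^{‖c‖}`; for `i ∈ S`, `dg A i = 0`: `‖sinh a - a‖ ≤ ‖a‖ * (‖a‖ e^{‖a‖})`; for `i ∈ S`, `dg A i =
1`: `‖cosh a - 1‖ ≤ ‖a‖ e^{‖a‖}`; for `k ∉ S`: `dg A k = 0`, the same factor `sinh a_k`. General
fact: if `‖x_i‖, ‖y_i‖ ≤ B_i`, `‖x_i - y_i‖ ≤ ε_i B_i` then `‖∏ x_i - ∏ y_i‖ ≤ (∑ ε_i) ∏ B_i`
(induction). So `‖trm - y_m‖ ≤ exp (-π y0 ∑ h²) (∑_e ‖c_e‖ + ∑_{i∈S} ‖a_i‖) ∏_{e∈A} ‖c_e‖ ∏_{i
even} ‖a_i‖ exp (∑ ‖c_e‖ + ∑ ‖a_i‖)`, and as in `trm_le` this is `≤ C (∑_e ‖τ_e‖ + ∑_{i∈S} ‖u_i‖)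
∏_{e∈A} ‖τ_e‖ ∏_{i even} ‖u_i‖ maj` (`∑_e ‖c_e‖ ≤ (∑_e ‖τ_e‖) 2π ∑ ...`, polynomial factors `≤
exp` of a multiple of `∑ |h_i|`). (`{i | Even (dg A i)}` is the set of the `i ∈ S` with `dg A i =
0` and of all `k ∉ S`.) The sum of the `y_m`: `y_m` is a product over `i` of functions of `m_i`:
`ω(h) = exp (π i τ_ii h² + π i h)`, for `i ∈ S` (every `i ∈ S` occurs once in a pair of `A` or
once in an `a_i`) `ω(h) h`, for `k ∉ S` `ω(h) sinh (2 π i h u_k)`; the constants are `∏_{e∈A} 2 π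
i τ_e ∏_{i∈S,dg=0} 2 π i u_i`. By `AM.hasSum_tuple`, `dv_hasSum` (`∑ ω(h) h = dv/(2 π i)`),
`vt_hasSum` and oddness of `ω` (`∑ ω(h) sinh (2 π i h u) = ∑ ω(h) exp (2 π i h u) = vt`, as in
module Ex; `vt_odd`) the sum is `∏_{e∈A} (2 π i τ_e) ∏_{i∈S,dg=0} (2 π i u_i) ∏_{i∈S} (dv τ_ii /
(2 π i)) ∏_{k∉S} vt τ_kk u_k`, which is the main term: the number of factors `2 π i` is `card A +
(card S - 2 card A) - card S = - card A`.
-/

open Complex Filter Topology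

namespace AMP

variable {g : ℕ}

private theorem FmB_two {x y x' y' : ℂ} {B B' ε ε' : ℝ} (hx : ‖x‖ ≤ B) (hy' : ‖y'‖ ≤ B')
    (h1 : ‖x - y‖ ≤ ε * B) (h2 : ‖x' - y'‖ ≤ ε' * B') :
    ‖x * x' - y * y'‖ ≤ (ε + ε') * (B * B') := by
  have e : x * x' - y * y' = x * (x' - y') + (x - y) * y' := by ring
  rw [e]
  refine (norm_add_le _ _).trans ?_
  rw [norm_mul, norm_mul]
  have hB : 0 ≤ B := (norm_nonneg _).trans hx
  have h3 := mul_le_mul hx h2 (norm_nonneg _) hB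
  have h4 := mul_le_mul h1 hy' (norm_nonneg _) ((norm_nonneg _).trans h1)
  nlinarith

private theorem FmB_prod_sub {ι : Type*} (s : Finset ι) (x y : ι → ℂ) (B ε : ι → ℝ)
    (hx : ∀ i ∈ s, ‖x i‖ ≤ B i) (hy : ∀ i ∈ s, ‖y i‖ ≤ B i)
    (hxy : ∀ i ∈ s, ‖x i - y i‖ ≤ ε i * B i) :
    ‖∏ i ∈ s, x i - ∏ i ∈ s, y i‖ ≤ (∑ i ∈ s, ε i) * ∏ i ∈ s, B i := by
  classical
  induction s using Finset.induction_on with
  | empty => simp
  | insert a s ha ih =>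
    rw [Finset.prod_insert ha, Finset.prod_insert ha, Finset.prod_insert ha, Finset.sum_insert ha]
    refine FmB_two (hx a (Finset.mem_insert_self _ _)) ?_ (hxy a (Finset.mem_insert_self _ _))
      (ih (fun i hi => hx i (Finset.mem_insert_of_mem hi))
        (fun i hi => hy i (Finset.mem_insert_of_mem hi))
        (fun i hi => hxy i (Finset.mem_insert_of_mem hi)))
    rw [norm_prod]
    exact Finset.prod_le_prod (fun i _ => norm_nonneg _)
      (fun i hi => hy i (Finset.mem_insert_of_mem hi))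

private theorem FmB_prod_le {ι : Type*} (s : Finset ι) (x : ι → ℂ) (B : ι → ℝ)
    (hx : ∀ i ∈ s, ‖x i‖ ≤ B i) : ‖∏ i ∈ s, x i‖ ≤ ∏ i ∈ s, B i := by
  rw [norm_prod]
  exact Finset.prod_le_prod (fun i _ => norm_nonneg _) hx

private theorem FmB_e1 (c : ℂ) : ‖cexp c - 1‖ ≤ ‖c‖ * Real.exp ‖c‖ := by
  have h := Complex.norm_exp_sub_sum_le_norm_mul_exp c 1
  simpa using h

private theorem FmB_e2 (c : ℂ) : ‖cexp c - 1 - c‖ ≤ ‖c‖ * (‖c‖ * Real.exp ‖c‖) := by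
  have h := Complex.norm_exp_sub_sum_le_norm_mul_exp c 2
  have e : cexp c - ∑ m ∈ Finset.range 2, c ^ m / (m.factorial : ℂ) = cexp c - 1 - c := by
    simp [Finset.sum_range_succ]
    ring
  rw [e] at h
  calc _ ≤ _ := h
    _ = _ := by ring

private theorem FmB_half {a b : ℂ} {r : ℝ} (ha : ‖a‖ ≤ r) (hb : ‖b‖ ≤ r) :
    ‖(a + b) / 2‖ ≤ r := by
  rw [norm_div]
  have h := norm_add_le a b
  have h2 : ‖(2 : ℂ)‖ = 2 := by simp
  rw [h2, div_le_iff₀ (by norm_num)]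
  linarith

private theorem FmB_sinh_sub (c : ℂ) : ‖Complex.sinh c - c‖ ≤ ‖c‖ * (‖c‖ * Real.exp ‖c‖) := by
  have e : Complex.sinh c - c = ((cexp c - 1 - c) + (-(cexp (-c) - 1 - (-c)))) / 2 := by
    rw [Complex.sinh]
    ring
  rw [e]
  refine FmB_half (FmB_e2 c) ?_
  have h := FmB_e2 (-c)
  rw [norm_neg] at h
  rw [norm_neg]
  exact h

private theorem FmB_sinh (c : ℂ) : ‖Complex.sinh c‖ ≤ ‖c‖ * Real.exp ‖c‖ := by
  have e : Complex.sinh c = ((cexp c - 1) + (-(cexp (-c) - 1))) / 2 := by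
    rw [Complex.sinh]
    ring
  rw [e]
  refine FmB_half (FmB_e1 c) ?_
  have h := FmB_e1 (-c)
  rw [norm_neg] at h
  rw [norm_neg]
  exact h

private theorem FmB_cosh_sub (c : ℂ) : ‖Complex.cosh c - 1‖ ≤ ‖c‖ * Real.exp ‖c‖ := by
  have e : Complex.cosh c - 1 = ((cexp c - 1) + (cexp (-c) - 1)) / 2 := by
    rw [Complex.cosh]
    ring
  rw [e]
  refine FmB_half (FmB_e1 c) ?_
  have h := FmB_e1 (-c)
  rw [norm_neg] at h
  exact h

private theorem FmB_cosh (c : ℂ) : ‖Complex.cosh c‖ ≤ Real.exp ‖c‖ := by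
  rw [Complex.cosh]
  refine FmB_half ?_ ?_
  · exact Complex.norm_exp_le_exp_norm c
  · have h := Complex.norm_exp_le_exp_norm (-c)
    rw [norm_neg] at h
    exact h

private theorem FmB_le (c : ℂ) : ‖c‖ ≤ ‖c‖ * Real.exp ‖c‖ := by
  have h := Real.one_le_exp (norm_nonneg c)
  nlinarith [norm_nonneg c]

/-- the product over the pairs of a product over the two indices -/
private theorem FmB_pairs (A : Finset (Fin g × Fin g)) (hA : A ⊆ prs g) (q : Fin g → ℂ) :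
    ∏ e ∈ A, q e.1 * q e.2 = ∏ i, q i ^ dg A i := by
  classical
  have h1 : ∀ i, q i ^ dg A i = ∏ e ∈ A, if e.1 = i ∨ e.2 = i then q i else 1 := by
    intro i
    rw [dg, ← Finset.prod_filter, Finset.prod_const]
  simp_rw [h1]
  rw [Finset.prod_comm]
  refine Finset.prod_congr rfl fun e he => ?_
  have hlt : e.1 < e.2 := (Finset.mem_filter.1 (hA he)).2
  have h2 : ∀ i, (if e.1 = i ∨ e.2 = i then q i else 1) =
      (if e.1 = i then q i else 1) * (if e.2 = i then q i else 1) := by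
    intro i
    by_cases ha : e.1 = i
    · have hb : e.2 ≠ i := by
        rintro rfl
        exact hlt.ne ha
      simp [ha, hb]
    · by_cases hb : e.2 = i
      · simp [ha, hb]
      · simp [ha, hb]
  simp_rw [h2]
  rw [Finset.prod_mul_distrib, Finset.prod_ite_eq, Finset.prod_ite_eq]
  simp

/-- the elliptic theta function as a sum with `sinh` -/
private theorem FmB_vt {s : ℂ} (hs : 0 < s.im) (u : ℂ) :
    HasSum (fun m : ℤ => cexp (Real.pi * I * s * ((m : ℂ) + 1 / 2) ^ 2 +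
      Real.pi * I * ((m : ℂ) + 1 / 2)) *
      Complex.sinh (2 * Real.pi * I * ((m : ℂ) + 1 / 2) * u)) (vt s u) := by
  have h1 := vt_hasSum hs u
  have h2 := vt_hasSum hs (-u)
  rw [vt_odd hs] at h2
  have h3 := (h1.sub h2).div_const 2
  have e : (vt s u - -vt s u) / 2 = vt s u := by ring
  rw [e] at h3
  refine h3.congr_fun ?_
  intro m
  rw [Complex.sinh]
  have e1 : (Real.pi * I * s * ((m : ℂ) + 1 / 2) ^ 2 +
      2 * Real.pi * I * ((m : ℂ) + 1 / 2) * (u + 1 / 2) : ℂ) =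
      (Real.pi * I * s * ((m : ℂ) + 1 / 2) ^ 2 + Real.pi * I * ((m : ℂ) + 1 / 2)) +
      2 * Real.pi * I * ((m : ℂ) + 1 / 2) * u := by ring
  have e2 : (Real.pi * I * s * ((m : ℂ) + 1 / 2) ^ 2 +
      2 * Real.pi * I * ((m : ℂ) + 1 / 2) * (-u + 1 / 2) : ℂ) =
      (Real.pi * I * s * ((m : ℂ) + 1 / 2) ^ 2 + Real.pi * I * ((m : ℂ) + 1 / 2)) +
      -(2 * Real.pi * I * ((m : ℂ) + 1 / 2) * u) := by ring
  rw [e1, e2]
  generalize (Real.pi * I * s * ((m : ℂ) + 1 / 2) ^ 2 + Real.pi * I * ((m : ℂ) + 1 / 2) : ℂ) = X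
  generalize (2 * Real.pi * I * ((m : ℂ) + 1 / 2) * u : ℂ) = Y
  rw [Complex.exp_add, Complex.exp_add]
  ring

/-- comparison of the products -/
private theorem FmB_abs {A : Finset (Fin g × Fin g)} {S : Finset (Fin g)} (hS : IsMt S A)
    (P : Finset (Fin g × Fin g)) (hA : A ⊆ P) (c : Fin g × Fin g → ℂ) (a : Fin g → ℂ) :
    ‖(∏ e ∈ A, Complex.sinh (c e)) * (∏ e ∈ P \ A, Complex.cosh (c e)) *
      (∏ i, (if Even (dg A i) then Complex.sinh (a i) else Complex.cosh (a i))) -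
      (∏ e ∈ A, c e) * (∏ _e ∈ P \ A, (1 : ℂ)) *
      ∏ i, (if i ∈ S then (if dg A i = 0 then a i else 1) else Complex.sinh (a i))‖ ≤
    ((∑ e ∈ P, ‖c e‖) + ∑ i ∈ S, ‖a i‖) * ((∏ e ∈ A, ‖c e‖) *
      (∏ i ∈ Finset.univ.filter (fun i => Even (dg A i)), ‖a i‖) *
      Real.exp ((∑ e ∈ P, ‖c e‖) + ∑ i, ‖a i‖)) := by
  classical
  have hev : ∀ i, Even (dg A i) ↔ dg A i = 0 := by
    intro i
    have h1 := (hS i).1
    constructor
    · intro h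
      interval_cases h2 : dg A i
      · rfl
      · simp at h
    · intro h
      rw [h]
      exact Even.zero
  have k1 : ‖(∏ e ∈ A, Complex.sinh (c e)) - ∏ e ∈ A, c e‖ ≤
      (∑ e ∈ A, ‖c e‖) * ∏ e ∈ A, (‖c e‖ * Real.exp ‖c e‖) :=
    FmB_prod_sub A _ _ _ _ (fun e _ => FmB_sinh _) (fun e _ => FmB_le _)
      (fun e _ => FmB_sinh_sub _)
  have k2 : ‖(∏ e ∈ P \ A, Complex.cosh (c e)) - ∏ e ∈ P \ A, (1 : ℂ)‖ ≤
      (∑ e ∈ P \ A, ‖c e‖) * ∏ e ∈ P \ A, Real.exp ‖c e‖ := by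
    refine FmB_prod_sub (P \ A) _ _ _ _ (fun e _ => FmB_cosh _) (fun _ _ => ?_)
      (fun e _ => FmB_cosh_sub _)
    rw [norm_one]
    exact Real.one_le_exp (norm_nonneg _)
  have k3 : ‖(∏ i, (if Even (dg A i) then Complex.sinh (a i) else Complex.cosh (a i))) -
      ∏ i, (if i ∈ S then (if dg A i = 0 then a i else 1) else Complex.sinh (a i))‖ ≤
      (∑ i, if i ∈ S then ‖a i‖ else 0) *
        ∏ i, ((if Even (dg A i) then ‖a i‖ else 1) * Real.exp ‖a i‖) := by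
    refine FmB_prod_sub _ _ _ _ _ (fun i _ => ?_) (fun i _ => ?_) (fun i _ => ?_)
    · by_cases h : dg A i = 0
      · rw [if_pos ((hev i).2 h), if_pos ((hev i).2 h)]
        exact FmB_sinh _
      · have h' : ¬ Even (dg A i) := fun h2 => h ((hev i).1 h2)
        rw [if_neg h', if_neg h', one_mul]
        exact FmB_cosh _
    · by_cases h : dg A i = 0
      · rw [if_pos h, if_pos ((hev i).2 h)]
        by_cases hi : i ∈ S
        · rw [if_pos hi]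
          exact FmB_le _
        · rw [if_neg hi]
          exact FmB_sinh _
      · have h' : ¬ Even (dg A i) := fun h2 => h ((hev i).1 h2)
        have hi := (hS i).2 h
        rw [if_neg h', if_pos hi, if_neg h, one_mul, norm_one]
        exact Real.one_le_exp (norm_nonneg _)
    · by_cases h : dg A i = 0
      · rw [if_pos ((hev i).2 h), if_pos h, if_pos ((hev i).2 h)]
        by_cases hi : i ∈ S
        · rw [if_pos hi, if_pos hi]
          exact FmB_sinh_sub _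
        · rw [if_neg hi, if_neg hi, sub_self, norm_zero, zero_mul]
      · have h' : ¬ Even (dg A i) := fun h2 => h ((hev i).1 h2)
        have hi := (hS i).2 h
        rw [if_neg h', if_pos hi, if_neg h, if_pos hi, if_neg h', one_mul]
        exact FmB_cosh_sub _
  have b1 : ‖∏ e ∈ A, Complex.sinh (c e)‖ ≤ ∏ e ∈ A, (‖c e‖ * Real.exp ‖c e‖) :=
    FmB_prod_le _ _ _ (fun e _ => FmB_sinh _)
  have b2 : ‖∏ e ∈ P \ A, Complex.cosh (c e)‖ ≤ ∏ e ∈ P \ A, Real.exp ‖c e‖ :=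
    FmB_prod_le _ _ _ (fun e _ => FmB_cosh _)
  have b2' : ‖∏ e ∈ P \ A, (1 : ℂ)‖ ≤ ∏ e ∈ P \ A, Real.exp ‖c e‖ :=
    FmB_prod_le _ _ _ (fun _ _ => by rw [norm_one]; exact Real.one_le_exp (norm_nonneg _))
  have b3' : ‖∏ i, (if i ∈ S then (if dg A i = 0 then a i else 1) else Complex.sinh (a i))‖ ≤
      ∏ i, ((if Even (dg A i) then ‖a i‖ else 1) * Real.exp ‖a i‖) := by
    refine FmB_prod_le _ _ _ (fun i _ => ?_)
    by_cases h : dg A i = 0
    · rw [if_pos h, if_pos ((hev i).2 h)]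
      by_cases hi : i ∈ S
      · rw [if_pos hi]
        exact FmB_le _
      · rw [if_neg hi]
        exact FmB_sinh _
    · have h' : ¬ Even (dg A i) := fun h2 => h ((hev i).1 h2)
      have hi := (hS i).2 h
      rw [if_neg h', if_pos hi, if_neg h, one_mul, norm_one]
      exact Real.one_le_exp (norm_nonneg _)
  have k12 := FmB_two b1 b2' k1 k2
  have b12 : ‖(∏ e ∈ A, Complex.sinh (c e)) * ∏ e ∈ P \ A, Complex.cosh (c e)‖ ≤
      (∏ e ∈ A, (‖c e‖ * Real.exp ‖c e‖)) * ∏ e ∈ P \ A, Real.exp ‖c e‖ := by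
    rw [norm_mul]
    exact mul_le_mul b1 b2 (norm_nonneg _) ((norm_nonneg _).trans b1)
  have k123 := FmB_two b12 b3' k12 k3
  refine k123.trans (le_of_eq ?_)
  have s1 : (∑ e ∈ A, ‖c e‖) + ∑ e ∈ P \ A, ‖c e‖ = ∑ e ∈ P, ‖c e‖ := by
    rw [add_comm]
    exact Finset.sum_sdiff hA
  have s2 : (∑ i, if i ∈ S then ‖a i‖ else 0) = ∑ i ∈ S, ‖a i‖ := by
    rw [Finset.sum_ite_mem, Finset.univ_inter]
  have s3 : ∏ i, ((if Even (dg A i) then ‖a i‖ else 1) * Real.exp ‖a i‖) =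
      (∏ i ∈ Finset.univ.filter (fun i => Even (dg A i)), ‖a i‖) * Real.exp (∑ i, ‖a i‖) := by
    rw [Finset.prod_mul_distrib, Finset.prod_filter, Real.exp_sum]
  have s4 : (∏ e ∈ A, (‖c e‖ * Real.exp ‖c e‖)) * ∏ e ∈ P \ A, Real.exp ‖c e‖ =
      (∏ e ∈ A, ‖c e‖) * Real.exp (∑ e ∈ P, ‖c e‖) := by
    rw [Finset.prod_mul_distrib, ← Real.exp_sum, ← Real.exp_sum, ← s1, Real.exp_add]
    ring
  rw [s1, s2, s3, s4, Real.exp_add]
  ring

private noncomputable def FmB_w (s : ℂ) (n : ℤ) : ℂ :=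
  cexp (Real.pi * I * s * ((n : ℂ) + 1 / 2) ^ 2 + Real.pi * I * ((n : ℂ) + 1 / 2))

private noncomputable def FmB_c (τ : Matrix (Fin g) (Fin g) ℂ) (m : Fin g → ℤ)
    (e : Fin g × Fin g) : ℂ :=
  2 * Real.pi * I * τ e.1 e.2 * ((m e.1 : ℂ) + 1 / 2) * ((m e.2 : ℂ) + 1 / 2)

private noncomputable def FmB_a (u : Fin g → ℂ) (m : Fin g → ℤ) (i : Fin g) : ℂ :=
  2 * Real.pi * I * ((m i : ℂ) + 1 / 2) * u i

/-- the term of the main part -/
private noncomputable def FmB_y (τ : Matrix (Fin g) (Fin g) ℂ) (A : Finset (Fin g × Fin g))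
    (S : Finset (Fin g)) (u : Fin g → ℂ) (m : Fin g → ℤ) : ℂ :=
  (∏ i, FmB_w (τ i i) (m i)) * ((∏ e ∈ A, FmB_c τ m e) * (∏ _e ∈ prs g \ A, (1 : ℂ)) *
    ∏ i, (if i ∈ S then (if dg A i = 0 then FmB_a u m i else 1) else Complex.sinh (FmB_a u m i)))

private theorem FmB_trm (τ : Matrix (Fin g) (Fin g) ℂ) (A : Finset (Fin g × Fin g))
    (u : Fin g → ℂ) (m : Fin g → ℤ) : trm τ A u m =
    (∏ i, FmB_w (τ i i) (m i)) * ((∏ e ∈ A, Complex.sinh (FmB_c τ m e)) *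
      (∏ e ∈ prs g \ A, Complex.cosh (FmB_c τ m e)) *
      ∏ i, (if Even (dg A i) then Complex.sinh (FmB_a u m i) else
        Complex.cosh (FmB_a u m i))) := by
  unfold trm FmB_w FmB_c FmB_a
  ring

private theorem FmB_norm (n : ℤ) : ‖(n : ℂ) + 1 / 2‖ = |(n : ℝ) + 1 / 2| := by
  have e : (n : ℂ) + 1 / 2 = (((n : ℝ) + 1 / 2 : ℝ) : ℂ) := by push_cast; ring
  rw [e, Complex.norm_real, Real.norm_eq_abs]

private theorem FmB_wn (s : ℂ) (n : ℤ) :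
    ‖FmB_w s n‖ = Real.exp (-(Real.pi * s.im * ((n : ℝ) + 1 / 2) ^ 2)) := by
  have e : (n : ℂ) + 1 / 2 = (((n : ℝ) + 1 / 2 : ℝ) : ℂ) := by push_cast; ring
  rw [FmB_w, Complex.norm_exp, e]
  congr 1
  generalize ((n : ℝ) + 1 / 2) = r
  have e2 : ((Real.pi : ℂ) * I * s * (r : ℂ) ^ 2 + Real.pi * I * (r : ℂ)) =
      ((Real.pi * r ^ 2 : ℝ) : ℂ) * (I * s) + ((Real.pi * r : ℝ) : ℂ) * I := by
    push_cast
    ring
  rw [e2, Complex.add_re, Complex.re_ofReal_mul, Complex.re_ofReal_mul]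
  simp
  ring

private theorem FmB_cn (τ : Matrix (Fin g) (Fin g) ℂ) (m : Fin g → ℤ) (e : Fin g × Fin g) :
    ‖FmB_c τ m e‖ = 2 * Real.pi * (‖τ e.1 e.2‖ * (|(m e.1 : ℝ) + 1 / 2| *
      |(m e.2 : ℝ) + 1 / 2|)) := by
  rw [FmB_c, norm_mul, norm_mul, norm_mul, norm_mul, norm_mul, FmB_norm, FmB_norm, Complex.norm_I,
    Complex.norm_real, Real.norm_eq_abs, abs_of_pos Real.pi_pos]
  simp
  ring

private theorem FmB_an (u : Fin g → ℂ) (m : Fin g → ℤ) (i : Fin g) :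
    ‖FmB_a u m i‖ = 2 * Real.pi * (‖u i‖ * |(m i : ℝ) + 1 / 2|) := by
  rw [FmB_a, norm_mul, norm_mul, norm_mul, norm_mul, FmB_norm, Complex.norm_I,
    Complex.norm_real, Real.norm_eq_abs, abs_of_pos Real.pi_pos]
  simp
  ring

private theorem FmB_W {y0 : ℝ} (τ : Matrix (Fin g) (Fin g) ℂ) (hτ : Sm y0 τ) (m : Fin g → ℤ) :
    ‖∏ i, FmB_w (τ i i) (m i)‖ ≤ Real.exp (-(Real.pi * y0) * ∑ i, ((m i : ℝ) + 1 / 2) ^ 2) := by
  rw [norm_prod, Finset.mul_sum, Real.exp_sum]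
  refine Finset.prod_le_prod (fun i _ => norm_nonneg _) (fun i _ => ?_)
  rw [FmB_wn, Real.exp_le_exp]
  have h1 : Real.pi * y0 * ((m i : ℝ) + 1 / 2) ^ 2 ≤
      Real.pi * (τ i i).im * ((m i : ℝ) + 1 / 2) ^ 2 :=
    mul_le_mul_of_nonneg_right (mul_le_mul_of_nonneg_left (hτ.2.1 i) Real.pi_pos.le)
      (sq_nonneg _)
  linarith

private theorem FmB_sumc {y0 : ℝ} (hy : 0 < y0) (τ : Matrix (Fin g) (Fin g) ℂ) (hτ : Sm y0 τ)
    (m : Fin g → ℤ) : ∑ e ∈ prs g, ‖FmB_c τ m e‖ ≤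
      Real.pi * y0 / 2 * ∑ i, ((m i : ℝ) + 1 / 2) ^ 2 := by
  set h : Fin g → ℝ := fun i => |(m i : ℝ) + 1 / 2| with hh
  have hh0 : ∀ i, 0 ≤ h i := fun i => abs_nonneg _
  have hg : (0 : ℝ) < 8 * ((g : ℝ) + 1) := by positivity
  have h1 : ∑ e ∈ prs g, ‖FmB_c τ m e‖ ≤
      ∑ e ∈ prs g, 2 * Real.pi * (y0 / (8 * (g + 1)) * (h e.1 * h e.2)) := by
    refine Finset.sum_le_sum fun e he => ?_
    rw [FmB_cn]
    have hlt : e.1 < e.2 := (Finset.mem_filter.1 he).2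
    have h2 := hτ.2.2 e.1 e.2 hlt.ne
    exact mul_le_mul_of_nonneg_left
      (mul_le_mul_of_nonneg_right h2 (mul_nonneg (hh0 _) (hh0 _))) (by positivity)
  have h2 : ∑ e ∈ prs g, 2 * Real.pi * (y0 / (8 * (g + 1)) * (h e.1 * h e.2)) ≤
      ∑ e : Fin g × Fin g, 2 * Real.pi * (y0 / (8 * (g + 1)) * (h e.1 * h e.2)) := by
    refine Finset.sum_le_sum_of_subset_of_nonneg (Finset.subset_univ _) fun e _ _ => ?_
    have := mul_nonneg (hh0 e.1) (hh0 e.2)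
    have h3 : 0 ≤ y0 / (8 * ((g : ℝ) + 1)) := div_nonneg hy.le hg.le
    have := Real.pi_pos
    positivity
  have h3 : ∑ e : Fin g × Fin g, 2 * Real.pi * (y0 / (8 * (g + 1)) * (h e.1 * h e.2)) =
      2 * Real.pi * (y0 / (8 * (g + 1)) * (∑ i, h i) ^ 2) := by
    rw [Fintype.sum_prod_type, sq, Finset.sum_mul_sum, Finset.mul_sum, Finset.mul_sum]
    refine Finset.sum_congr rfl fun i _ => ?_
    rw [Finset.mul_sum, Finset.mul_sum]
  have h4 : (∑ i, h i) ^ 2 ≤ g * ∑ i, ((m i : ℝ) + 1 / 2) ^ 2 := by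
    have h5 := sq_sum_le_card_mul_sum_sq (s := (Finset.univ : Finset (Fin g))) (f := h)
    rw [Finset.card_univ, Fintype.card_fin] at h5
    refine h5.trans (le_of_eq ?_)
    congr 1
    refine Finset.sum_congr rfl fun i _ => ?_
    rw [hh]
    exact sq_abs _
  refine (h1.trans h2).trans ?_
  rw [h3]
  set Q : ℝ := ∑ i, ((m i : ℝ) + 1 / 2) ^ 2 with hQ
  have hQ0 : 0 ≤ Q := Finset.sum_nonneg fun i _ => sq_nonneg _
  have h5 : y0 / (8 * ((g : ℝ) + 1)) * (∑ i, h i) ^ 2 ≤ y0 / 4 * Q := by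
    calc y0 / (8 * ((g : ℝ) + 1)) * (∑ i, h i) ^ 2 ≤ y0 / (8 * ((g : ℝ) + 1)) * (g * Q) :=
          mul_le_mul_of_nonneg_left h4 (div_nonneg hy.le hg.le)
      _ = y0 * Q * (g / (8 * ((g : ℝ) + 1))) := by ring
      _ ≤ y0 * Q * (1 / 4) := by
          refine mul_le_mul_of_nonneg_left ?_ (mul_nonneg hy.le hQ0)
          rw [div_le_iff₀ hg]
          have : (0 : ℝ) ≤ g := Nat.cast_nonneg g
          linarith
      _ = y0 / 4 * Q := by ring
  calc 2 * Real.pi * (y0 / (8 * ((g : ℝ) + 1)) * (∑ i, h i) ^ 2) ≤ 2 * Real.pi * (y0 / 4 * Q) :=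
        mul_le_mul_of_nonneg_left h5 (by positivity)
    _ = Real.pi * y0 / 2 * Q := by ring

private theorem FmB_term {y0 : ℝ} (hy : 0 < y0) {ρ : ℝ}
    (τ : Matrix (Fin g) (Fin g) ℂ) (hτ : Sm y0 τ) (A : Finset (Fin g × Fin g)) (hA : A ⊆ prs g)
    (S : Finset (Fin g)) (hS : IsMt S A) (u : Fin g → ℂ) (hu : ∀ i, ‖u i‖ ≤ ρ)
    (m : Fin g → ℤ) : ‖trm τ A u m - FmB_y τ A S u m‖ ≤
      (2 * Real.pi) ^ (g * g + g + 1) * (((∑ e ∈ prs g, ‖τ e.1 e.2‖) + ∑ i ∈ S, ‖u i‖) *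
      ((∏ e ∈ A, ‖τ e.1 e.2‖) * ∏ i ∈ Finset.univ.filter (fun i => Even (dg A i)), ‖u i‖)) *
      maj y0 (2 * ((g * g + g + 1 : ℕ) : ℝ) + 2 * Real.pi * ρ) m := by
  classical
  have hpi := Real.pi_pos
  have hpi3 := Real.pi_gt_three
  rw [FmB_trm, FmB_y, ← mul_sub, norm_mul]
  have h1 := FmB_W τ hτ m
  have h2 := FmB_abs hS (prs g) hA (FmB_c τ m) (FmB_a u m)
  have h3 := mul_le_mul h1 h2 (norm_nonneg _) (Real.exp_pos _).le
  refine h3.trans ?_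
  clear h3 h2 h1
  set h : Fin g → ℝ := fun i => |(m i : ℝ) + 1 / 2| with hh
  have hh0 : ∀ i, 0 ≤ h i := fun i => abs_nonneg _
  set H : ℝ := ∑ i, |(m i : ℝ) + 1 / 2| with hH
  set Q : ℝ := ∑ i, ((m i : ℝ) + 1 / 2) ^ 2 with hQ
  have hH0 : 0 ≤ H := Finset.sum_nonneg fun i _ => abs_nonneg _
  have hhH : ∀ i, h i ≤ H := fun i =>
    Finset.single_le_sum (f := h) (fun j _ => hh0 j) (Finset.mem_univ i)
  have hHe : H ≤ Real.exp H := by
    have := Real.add_one_le_exp H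
    linarith
  set K : ℝ := 2 * Real.pi * Real.exp (2 * H) with hK
  have hE1 : 1 ≤ Real.exp (2 * H) := Real.one_le_exp (by linarith)
  have hK1 : 1 ≤ K := by
    rw [hK]
    nlinarith
  have hK0 : 0 ≤ K := by linarith
  have hHH : H * H ≤ Real.exp (2 * H) := by
    rw [two_mul, Real.exp_add]
    exact mul_le_mul hHe hHe hH0 (Real.exp_pos _).le
  have hH2 : H ≤ Real.exp (2 * H) := by
    have := Real.add_one_le_exp (2 * H)
    linarith
  have c1 : ∀ e, ‖FmB_c τ m e‖ ≤ ‖τ e.1 e.2‖ * K := by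
    intro e
    rw [FmB_cn, hK]
    have h4 : h e.1 * h e.2 ≤ Real.exp (2 * H) :=
      (mul_le_mul (hhH _) (hhH _) (hh0 _) hH0).trans hHH
    calc 2 * Real.pi * (‖τ e.1 e.2‖ * (h e.1 * h e.2)) ≤
          2 * Real.pi * (‖τ e.1 e.2‖ * Real.exp (2 * H)) :=
          mul_le_mul_of_nonneg_left (mul_le_mul_of_nonneg_left h4 (norm_nonneg _)) (by positivity)
      _ = _ := by ring
  have a1 : ∀ i, ‖FmB_a u m i‖ ≤ ‖u i‖ * K := by
    intro i
    rw [FmB_an, hK]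
    have h4 : h i ≤ Real.exp (2 * H) := (hhH i).trans hH2
    calc 2 * Real.pi * (‖u i‖ * h i) ≤ 2 * Real.pi * (‖u i‖ * Real.exp (2 * H)) :=
          mul_le_mul_of_nonneg_left (mul_le_mul_of_nonneg_left h4 (norm_nonneg _)) (by positivity)
      _ = _ := by ring
  have t1 : (∑ e ∈ prs g, ‖FmB_c τ m e‖) + ∑ i ∈ S, ‖FmB_a u m i‖ ≤
      ((∑ e ∈ prs g, ‖τ e.1 e.2‖) + ∑ i ∈ S, ‖u i‖) * K := by
    rw [add_mul, Finset.sum_mul, Finset.sum_mul]
    exact add_le_add (Finset.sum_le_sum fun e _ => c1 e) (Finset.sum_le_sum fun i _ => a1 i)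
  have t2 : ∏ e ∈ A, ‖FmB_c τ m e‖ ≤ (∏ e ∈ A, ‖τ e.1 e.2‖) * K ^ (g * g) := by
    have h4 : ∏ e ∈ A, ‖FmB_c τ m e‖ ≤ ∏ e ∈ A, (‖τ e.1 e.2‖ * K) :=
      Finset.prod_le_prod (fun e _ => norm_nonneg _) (fun e _ => c1 e)
    rw [Finset.prod_mul_distrib, Finset.prod_const] at h4
    refine h4.trans (mul_le_mul_of_nonneg_left ?_
      (Finset.prod_nonneg fun e _ => norm_nonneg _))
    refine pow_le_pow_right₀ hK1 ?_
    have h5 := Finset.card_le_univ A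
    rwa [Fintype.card_prod, Fintype.card_fin] at h5
  have t3 : ∏ i ∈ Finset.univ.filter (fun i => Even (dg A i)), ‖FmB_a u m i‖ ≤
      (∏ i ∈ Finset.univ.filter (fun i => Even (dg A i)), ‖u i‖) * K ^ g := by
    have h4 : ∏ i ∈ Finset.univ.filter (fun i => Even (dg A i)), ‖FmB_a u m i‖ ≤
        ∏ i ∈ Finset.univ.filter (fun i => Even (dg A i)), (‖u i‖ * K) :=
      Finset.prod_le_prod (fun e _ => norm_nonneg _) (fun e _ => a1 e)
    rw [Finset.prod_mul_distrib, Finset.prod_const] at h4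
    refine h4.trans (mul_le_mul_of_nonneg_left ?_
      (Finset.prod_nonneg fun e _ => norm_nonneg _))
    refine pow_le_pow_right₀ hK1 ?_
    have h5 := Finset.card_le_univ (Finset.univ.filter (fun i => Even (dg A i)))
    rwa [Fintype.card_fin] at h5
  have t4 : (∑ e ∈ prs g, ‖FmB_c τ m e‖) + ∑ i, ‖FmB_a u m i‖ ≤
      Real.pi * y0 / 2 * Q + 2 * Real.pi * ρ * H := by
    refine add_le_add (FmB_sumc hy τ hτ m) ?_
    rw [hH, Finset.mul_sum]
    refine Finset.sum_le_sum fun i _ => ?_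
    rw [FmB_an]
    calc 2 * Real.pi * (‖u i‖ * h i) ≤ 2 * Real.pi * (ρ * h i) :=
          mul_le_mul_of_nonneg_left (mul_le_mul_of_nonneg_right (hu i) (hh0 i)) (by positivity)
      _ = _ := by ring
  have p1 : 0 ≤ ∏ e ∈ A, ‖FmB_c τ m e‖ := Finset.prod_nonneg fun e _ => norm_nonneg _
  have p2 : 0 ≤ ∏ i ∈ Finset.univ.filter (fun i => Even (dg A i)), ‖FmB_a u m i‖ :=
    Finset.prod_nonneg fun e _ => norm_nonneg _
  have p3 : 0 ≤ ∏ e ∈ A, ‖τ e.1 e.2‖ := Finset.prod_nonneg fun e _ => norm_nonneg _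
  have p4 : 0 ≤ ∏ i ∈ Finset.univ.filter (fun i => Even (dg A i)), ‖u i‖ :=
    Finset.prod_nonneg fun e _ => norm_nonneg _
  have p5 : 0 ≤ (∑ e ∈ prs g, ‖τ e.1 e.2‖) + ∑ i ∈ S, ‖u i‖ :=
    add_nonneg (Finset.sum_nonneg fun e _ => norm_nonneg _)
      (Finset.sum_nonneg fun e _ => norm_nonneg _)
  have p6 : 0 ≤ (∑ e ∈ prs g, ‖FmB_c τ m e‖) + ∑ i ∈ S, ‖FmB_a u m i‖ :=
    add_nonneg (Finset.sum_nonneg fun e _ => norm_nonneg _)
      (Finset.sum_nonneg fun e _ => norm_nonneg _)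
  have h7 := mul_le_mul t2 t3 p2 (mul_nonneg p3 (pow_nonneg hK0 _))
  have h8 := mul_le_mul h7 (Real.exp_le_exp.2 t4) (Real.exp_pos _).le
    (mul_nonneg (mul_nonneg p3 (pow_nonneg hK0 _)) (mul_nonneg p4 (pow_nonneg hK0 _)))
  have h9 := mul_le_mul t1 h8 (mul_nonneg (mul_nonneg p1 p2) (Real.exp_pos _).le)
    (mul_nonneg p5 hK0)
  have h10 := mul_le_mul_of_nonneg_left h9 (Real.exp_pos (-(Real.pi * y0) * Q)).le
  refine h10.trans (le_of_eq ?_)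
  have e1 : K * (K ^ (g * g) * K ^ g) = (2 * Real.pi) ^ (g * g + g + 1) *
      Real.exp (2 * ((g * g + g + 1 : ℕ) : ℝ) * H) := by
    have e2 : K * (K ^ (g * g) * K ^ g) = K ^ (g * g + g + 1) := by ring
    rw [e2, hK, mul_pow, ← Real.exp_nat_mul]
    congr 2
    ring
  have e3 : Real.exp (-(Real.pi * y0) * Q) * Real.exp (Real.pi * y0 / 2 * Q +
      2 * Real.pi * ρ * H) * Real.exp (2 * ((g * g + g + 1 : ℕ) : ℝ) * H) =
      maj y0 (2 * ((g * g + g + 1 : ℕ) : ℝ) + 2 * Real.pi * ρ) m := by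
    rw [maj, ← Real.exp_add, ← Real.exp_add]
    congr 1
    rw [← hH, ← hQ]
    ring
  rw [← e3]
  calc _ = ((∑ e ∈ prs g, ‖τ e.1 e.2‖) + ∑ i ∈ S, ‖u i‖) *
      ((∏ e ∈ A, ‖τ e.1 e.2‖) * ∏ i ∈ Finset.univ.filter (fun i => Even (dg A i)), ‖u i‖) *
      (Real.exp (-(Real.pi * y0) * Q) * Real.exp (Real.pi * y0 / 2 * Q +
      2 * Real.pi * ρ * H)) * (K * (K ^ (g * g) * K ^ g)) := by ring
    _ = _ := by
      rw [e1]
      ring

/-- the sum of the main terms -/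
private theorem FmB_sum {y0 : ℝ} (hy : 0 < y0) (τ : Matrix (Fin g) (Fin g) ℂ) (hτ : Sm y0 τ)
    (A : Finset (Fin g × Fin g)) (hA : A ⊆ prs g) (S : Finset (Fin g)) (hS : IsMt S A)
    (u : Fin g → ℂ) : HasSum (fun m : Fin g → ℤ => FmB_y τ A S u m)
      ((∏ e ∈ A, τ e.1 e.2 / (2 * Real.pi * I)) *
        (∏ i ∈ S.filter (fun i => dg A i = 0), u i) * (∏ i ∈ S, dv (τ i i)) *
        ∏ k ∈ Sᶜ, vt (τ k k) (u k)) := by
  classical
  have him : ∀ i, 0 < (τ i i).im := fun i => hy.trans_le (hτ.2.1 i)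
  have h1 := AM.hasSum_tuple g
    (fun i n => if i ∈ S then 2 * Real.pi * I * ((n : ℂ) + 1 / 2) * FmB_w (τ i i) n else
      FmB_w (τ i i) n * Complex.sinh (2 * Real.pi * I * ((n : ℂ) + 1 / 2) * u i))
    (fun i => if i ∈ S then dv (τ i i) else vt (τ i i) (u i)) (by
      intro i
      by_cases hi : i ∈ S
      · simp only [if_pos hi]
        exact dv_hasSum (him i)
      · simp only [if_neg hi]
        exact FmB_vt (him i) (u i))
  have h2 := h1.mul_left ((∏ e ∈ A, τ e.1 e.2 / (2 * Real.pi * I)) *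
        (∏ i ∈ S.filter (fun i => dg A i = 0), u i))
  have hz : (2 * Real.pi * I : ℂ) ≠ 0 := by
    have := Real.pi_ne_zero
    simp [this]
  have e0 : (∏ i, if i ∈ S then dv (τ i i) else vt (τ i i) (u i)) =
      (∏ i ∈ S, dv (τ i i)) * ∏ k ∈ Sᶜ, vt (τ k k) (u k) := by
    rw [← Finset.prod_mul_prod_compl S]
    congr 1
    · exact Finset.prod_congr rfl fun i hi => if_pos hi
    · exact Finset.prod_congr rfl fun i hi => if_neg (Finset.mem_compl.1 hi)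
  rw [e0, ← mul_assoc] at h2
  refine h2.congr_fun ?_
  intro m
  rw [FmB_y]
  set q : Fin g → ℂ := fun i => 2 * Real.pi * I * ((m i : ℂ) + 1 / 2) with hq
  have e1 : ∏ e ∈ A, FmB_c τ m e = (∏ e ∈ A, τ e.1 e.2 / (2 * Real.pi * I)) *
      ∏ i, q i ^ dg A i := by
    rw [← FmB_pairs A hA q, ← Finset.prod_mul_distrib]
    refine Finset.prod_congr rfl fun e _ => ?_
    rw [FmB_c, hq]
    field_simp
  have e2 : ∏ i ∈ S.filter (fun i => dg A i = 0), u i =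
      ∏ i, if i ∈ S then (if dg A i = 0 then u i else 1) else 1 := by
    rw [Finset.prod_filter, Finset.prod_ite_mem, Finset.univ_inter]
  rw [e1, e2, Finset.prod_const_one, mul_one]
  generalize (∏ e ∈ A, τ e.1 e.2 / (2 * Real.pi * I)) = T
  rw [mul_assoc T, mul_assoc T, mul_left_comm _ T]
  congr 1
  rw [← Finset.prod_mul_distrib, ← Finset.prod_mul_distrib, ← Finset.prod_mul_distrib]
  refine Finset.prod_congr rfl fun i _ => ?_
  have hai : FmB_a u m i = q i * u i := rfl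
  by_cases hi : i ∈ S
  · rw [if_pos hi, if_pos hi, if_pos hi]
    by_cases h0 : dg A i = 0
    · rw [if_pos h0, if_pos h0, h0, pow_zero, hai]
      ring
    · have h1' : dg A i = 1 := by
        have := (hS i).1
        omega
      rw [if_neg h0, if_neg h0, h1', pow_one]
      ring
  · have h0 : dg A i = 0 := by
      by_contra h
      exact hi ((hS i).2 h)
    rw [if_neg hi, if_neg hi, if_neg hi, h0, pow_zero, hai]
    ring

theorem FA_main {y0 : ℝ} (hy : 0 < y0) {ρ : ℝ} (hρ : 0 ≤ ρ) : ∃ C > 0,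
    ∀ τ : Matrix (Fin g) (Fin g) ℂ, Sm y0 τ → ∀ A ⊆ prs g, ∀ S : Finset (Fin g), IsMt S A →
      ∀ u : Fin g → ℂ, (∀ i, ‖u i‖ ≤ ρ) →
      ‖FA τ A u - (∏ e ∈ A, τ e.1 e.2 / (2 * Real.pi * I)) *
        (∏ i ∈ S.filter (fun i => dg A i = 0), u i) * (∏ i ∈ S, dv (τ i i)) *
        ∏ k ∈ Sᶜ, vt (τ k k) (u k)‖ ≤
      C * ((∑ e ∈ prs g, ‖τ e.1 e.2‖) + ∑ i ∈ S, ‖u i‖) * ((∏ e ∈ A, ‖τ e.1 e.2‖) *
        ∏ i ∈ Finset.univ.filter (fun i => Even (dg A i)), ‖u i‖) := by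
  set N : ℝ := 2 * ((g * g + g + 1 : ℕ) : ℝ) + 2 * Real.pi * ρ with hN
  have hs := summable_maj (g := g) hy N
  have hm0 : ∀ m : Fin g → ℤ, 0 ≤ maj y0 N m := fun m => (Real.exp_pos _).le
  have ht0 : 0 ≤ ∑' m : Fin g → ℤ, maj y0 N m := tsum_nonneg hm0
  refine ⟨(2 * Real.pi) ^ (g * g + g + 1) * ((∑' m : Fin g → ℤ, maj y0 N m) + 1), by
    have := Real.pi_pos
    positivity, ?_⟩
  intro τ hτ A hA S hS u hu
  have hy1 := FmB_sum hy τ hτ A hA S hS u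
  set X : ℝ := ((∑ e ∈ prs g, ‖τ e.1 e.2‖) + ∑ i ∈ S, ‖u i‖) * ((∏ e ∈ A, ‖τ e.1 e.2‖) *
    ∏ i ∈ Finset.univ.filter (fun i => Even (dg A i)), ‖u i‖) with hX
  have hX0 : 0 ≤ X := by
    refine mul_nonneg (add_nonneg (Finset.sum_nonneg fun e _ => norm_nonneg _)
      (Finset.sum_nonneg fun e _ => norm_nonneg _)) (mul_nonneg
      (Finset.prod_nonneg fun e _ => norm_nonneg _) (Finset.prod_nonneg fun e _ => norm_nonneg _))
  have hb : ∀ m : Fin g → ℤ, ‖trm τ A u m - FmB_y τ A S u m‖ ≤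
      (2 * Real.pi) ^ (g * g + g + 1) * X * maj y0 N m :=
    fun m => FmB_term hy τ hτ A hA S hS u hu m
  have hsum := hs.mul_left ((2 * Real.pi) ^ (g * g + g + 1) * X)
  have hd : Summable (fun m : Fin g → ℤ => trm τ A u m - FmB_y τ A S u m) :=
    Summable.of_norm_bounded hsum hb
  have htr : HasSum (fun m : Fin g → ℤ => trm τ A u m) (FA τ A u) := by
    have h1 := hd.add hy1.summable
    have h2 : Summable (fun m : Fin g → ℤ => trm τ A u m) := by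
      refine h1.congr fun m => ?_
      simp
    exact h2.hasSum
  have hdif := htr.sub hy1
  rw [← hdif.tsum_eq]
  have h3 := tsum_of_norm_bounded hsum.hasSum hb
  refine h3.trans ?_
  rw [tsum_mul_left]
  have h4 : (2 * Real.pi) ^ (g * g + g + 1) * X * ∑' m : Fin g → ℤ, maj y0 N m ≤
      (2 * Real.pi) ^ (g * g + g + 1) * X * ((∑' m : Fin g → ℤ, maj y0 N m) + 1) := by
    refine mul_le_mul_of_nonneg_left (by linarith) ?_
    have := Real.pi_pos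
    positivity
  refine h4.trans (le_of_eq ?_)
  rw [hX]
  ring

end AMP
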