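import Pool.Agent.Lib.MP_b57e3c_ag_P.SgB

set_option autoImplicit false

/-!
# Module Ja : vectors in the plane attached to a singular point which is not the origin

`dt x y = x.1 y.2 - x.2 y.1`. For four vectors the Plücker relation
`dt w1 w2 * dt w3 w4 - dt w1 w3 * dt w2 w4 + dt w1 w4 * dt w2 w3 = 0` holds.

`jac_one`: by `sing_four` (second case; the first one is excluded by `hv`) there are `p, q, r`
nonzero, `p² = b12 b34`, `q² = b13 b24`, `r² = b14 b23`, `p q + q r + r p = 0`, so `1/p + 1/q +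
1/r = 0`. Let `x12` be a square root of `1/b12` (`IsAlgClosed.exists_pow_nat_eq` or
`Complex.cpow`), `x34 = 1/(p x12)`, so `x34² = b12/(b12 b34) = 1/b34`; `x13` a square root of
`1/b13`, `x24 = - 1/(q x13)`, `x14` a square root of `1/b14`, `x23 = 1/(r x14)`. Then `x12 x34 -
x13 x24 + x14 x23 = 1/p + 1/q + 1/r = 0`. Put `w1 = (1, 0)`, `w2 = (0, x12)`, `w3 = (- x23/x12,
x13)`, `w4 = (- x24/x12, x14)`: `dt w1 wj = x1j`, `dt w2 wj = x2j`, `dt w3 w4 = (x13 x24 - x14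
x23)/x12 = x34`.

`dt_unique`: the quadratic forms `z ↦ dt z x ^ 2` and `z ↦ dt z y ^ 2` agree at three pairwise
independent vectors `w1, w2, w3`; write `w3 = a w1 + c w2`, `a, c ≠ 0`; a quadratic form `Q` with
polar form `B`: `Q(w3) = a² Q(w1) + c² Q(w2) + 2 a c B(w1,w2)`, so `B(w1,w2)` is determined,
hence `Q`. (Explicitly: `a = dt w3 w2 / dt w1 w2`, `c = dt w1 w3 / dt w1 w2`; `dt w1 w2 * z = dt
z w2 * w1 + dt w1 z * w2`.)
-/

open Complex Filter Topology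

namespace AMP

variable {g : ℕ} {b : Fin g → Fin g → ℂ} {v : Fin g → ℂ}

theorem plucker (w1 w2 w3 w4 : ℂ × ℂ) :
    dt w1 w2 * dt w3 w4 - dt w1 w3 * dt w2 w4 + dt w1 w4 * dt w2 w3 = 0 := by
  unfold dt
  ring

theorem jac_one (hb : ∀ i j, b i j = b j i) (h0 : ∀ i j, i ≠ j → b i j ≠ 0)
    {i j k l : Fin g} (hij : i ≠ j) (hik : i ≠ k) (hil : i ≠ l) (hjk : j ≠ k) (hjl : j ≠ l)
    (hkl : k ≠ l) (h : Sing b {i, j, k, l} v)
    (hv : v i ≠ 0 ∨ v j ≠ 0 ∨ v k ≠ 0 ∨ v l ≠ 0) :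
    ∃ w1 w2 w3 w4 : ℂ × ℂ, b i j * dt w1 w2 ^ 2 = 1 ∧ b i k * dt w1 w3 ^ 2 = 1 ∧
      b i l * dt w1 w4 ^ 2 = 1 ∧ b j k * dt w2 w3 ^ 2 = 1 ∧ b j l * dt w2 w4 ^ 2 = 1 ∧
      b k l * dt w3 w4 ^ 2 = 1 := by
  rcases sing_four hb h0 hij hik hil hjk hjl hkl h with h1 | h1
  · obtain ⟨h1, h2, h3, h4, _⟩ := h1
    simp [h1, h2, h3, h4] at hv
  obtain ⟨p, q, r, x, hp, hq, hr, -, -, hs, hp2, hq2, hr2, -⟩ := h1
  obtain ⟨a, ha⟩ := IsAlgClosed.exists_pow_nat_eq ((b i j)⁻¹) (n := 2) (by norm_num)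
  obtain ⟨c, hc⟩ := IsAlgClosed.exists_pow_nat_eq ((b i k)⁻¹) (n := 2) (by norm_num)
  obtain ⟨d, hd⟩ := IsAlgClosed.exists_pow_nat_eq ((b i l)⁻¹) (n := 2) (by norm_num)
  have bij := h0 i j hij
  have bik := h0 i k hik
  have bil := h0 i l hil
  have ha0 : a ≠ 0 := by
    rintro rfl
    rw [zero_pow (by norm_num)] at ha
    exact inv_ne_zero bij ha.symm
  have hc0 : c ≠ 0 := by
    rintro rfl
    rw [zero_pow (by norm_num)] at hc
    exact inv_ne_zero bik hc.symm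
  have hd0 : d ≠ 0 := by
    rintro rfl
    rw [zero_pow (by norm_num)] at hd
    exact inv_ne_zero bil hd.symm
  have hab : b i j * a ^ 2 = 1 := by rw [ha]; exact mul_inv_cancel₀ bij
  have hcb : b i k * c ^ 2 = 1 := by rw [hc]; exact mul_inv_cancel₀ bik
  have hdb : b i l * d ^ 2 = 1 := by rw [hd]; exact mul_inv_cancel₀ bil
  have key : ∀ u v' t s' : ℂ, t ≠ 0 → s' ≠ 0 → u * s' ^ 2 = 1 → t ^ 2 = u * v' →
      v' * (1 / (t * s')) ^ 2 = 1 := by
    intro u v' t s' ht hs' h1 h2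
    have h3 : v' = t ^ 2 * s' ^ 2 := by
      rw [h2]
      calc v' = (u * s' ^ 2) * v' := by rw [h1, one_mul]
        _ = u * v' * s' ^ 2 := by ring
    rw [h3]
    field_simp
  have hkl' := key _ _ _ _ hp ha0 hab hp2
  have hjl' := key _ _ _ _ hq hc0 hcb hq2
  have hjk' := key _ _ _ _ hr hd0 hdb hr2
  refine ⟨(1, 0), (0, a), (-(1 / (r * d)) / a, c), (1 / (q * c) / a, d), ?_, ?_, ?_, ?_, ?_, ?_⟩
  · simp only [dt]
    linear_combination hab
  · simp only [dt]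
    linear_combination hcb
  · simp only [dt]
    linear_combination hdb
  · have e : dt (0, a) (-(1 / (r * d)) / a, c) = 1 / (r * d) := by
      simp only [dt]
      field_simp
      ring
    rw [e, hjk']
  · have e : dt (0, a) (1 / (q * c) / a, d) = -(1 / (q * c)) := by
      simp only [dt]
      field_simp
      ring
    rw [e, neg_sq, hjl']
  · have e : dt (-(1 / (r * d)) / a, c) (1 / (q * c) / a, d) = 1 / (p * a) := by
      simp only [dt]
      field_simp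
      linear_combination (-1 : ℂ) * hs
    rw [e, hkl']

theorem dt_unique {w1 w2 w3 x y : ℂ × ℂ} (h12 : dt w1 w2 ≠ 0) (h13 : dt w1 w3 ≠ 0)
    (h23 : dt w2 w3 ≠ 0) (h1 : dt w1 x ^ 2 = dt w1 y ^ 2) (h2 : dt w2 x ^ 2 = dt w2 y ^ 2)
    (h3 : dt w3 x ^ 2 = dt w3 y ^ 2) (z : ℂ × ℂ) : dt z x ^ 2 = dt z y ^ 2 := by
  have key : ∀ u t : ℂ × ℂ, (dt w1 w2) ^ 2 * dt u t ^ 2 =
      dt u w2 ^ 2 * dt w1 t ^ 2 + dt w1 u ^ 2 * dt w2 t ^ 2 +
        2 * dt u w2 * dt w1 u * (dt w1 t * dt w2 t) := by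
    intro u t
    unfold dt
    ring
  have hx := key w3 x
  have hy := key w3 y
  have h4 : (2 * dt w3 w2 * dt w1 w3) * (dt w1 x * dt w2 x) =
      (2 * dt w3 w2 * dt w1 w3) * (dt w1 y * dt w2 y) := by
    rw [h1, h2, h3] at hx
    linear_combination hy - hx
  have h32 : dt w3 w2 ≠ 0 := by
    intro h
    apply h23
    have : dt w2 w3 = -dt w3 w2 := by unfold dt; ring
    rw [this, h, neg_zero]
  have h5 : dt w1 x * dt w2 x = dt w1 y * dt w2 y :=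
    mul_left_cancel₀ (mul_ne_zero (mul_ne_zero two_ne_zero h32) h13) h4
  have h6 : (dt w1 w2) ^ 2 * dt z x ^ 2 = (dt w1 w2) ^ 2 * dt z y ^ 2 := by
    rw [key z x, key z y, h1, h2, h5]
  exact mul_left_cancel₀ (pow_ne_zero 2 h12) h6

end AMP
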