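import Pool.Agent.Lib.MP_b57e3c_ag_P.Ja

set_option autoImplicit false

/-!
# Module Jb : the fifth vector

Let `w1,…,w4` with `b_ij dt(w_i,w_j)² = 1` and `v` a singular zero of `μ_{1234}`, `v ≠ 0`; `c_i ≠
0` with (H2) `∑_{i<j} c_i c_j h_ij = 0`, `h_12 = v3 v4 + b34`, etc., (H3) `∑_i v_i ∏_{j≠i} c_j =
0`. CLAIM: there is `w5` with `c_i dt(w_i, w5)² = 1`.

Write `d_ij = dt w_i w_j ≠ 0`. Let `p, q, r, x` from `sing_four` and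
`p' = 1/(d12 d34)`, `q' = -1/(d13 d24)`, `r' = 1/(d14 d23)`. By Plücker `1/p' + 1/q' + 1/r' = 0`,
i.e. `p'q' + q'r' + r'p' = 0`, and `p'² = p²`, `q'² = q²`, `r'² = r²`. Replacing `(p,q,r,x)` by
`(-p,-q,-r,-x)` if necessary `p = p'`. If `q = - q'`: `p'(-q') + (-q') r + r p' = 0` with `r = ±
r'`; `r = r'` gives with the relation for `p'q'r'`: subtract: `2 p'q' + 2 q'r' = 0`, `p' = - r'`,
then `r' p' = -(p' + r') q' = 0`, contradiction; `r = - r'` gives `- p'q' + q'r' - r'p' = 0`,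
add: `2 q' r' = 0`, contradiction. So `q = q'`, then `r = - p q/(p + q)` (`p + q ≠ 0`, otherwise
`p q = 0`) `= r'`.

1. `v_i = ρ / π_i`, `π_1 = d12 d13 d14`, `π_2 = - d12 d23 d24` , `π_3 = d13 d23 d34` , `π_4 = -
d14 d24 d34` (`π_i = ∏_{j≠i} dt w_i w_j` with `dt w_j w_i = - d_ij`) for one `ρ ≠ 0`: e.g. `ρ :=
v1 π_1`, and `v1 v2 = p x / b34 = p x d34²`, … so `v2 = (v1 v2)(v2 v3)/(v1 v3) * (1/v2)`…; more
directly: all `v_i ≠ 0`, `v2/v1 = (v2 v3)/(v1 v3) = (r x/b14)/(q x/b24) = r b24/(q b14) = r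
d14²/(q d24²) = - d13 d14/(d23 d24)` `= π_1/π_2`; similarly `v3/v1 = (v2v3)/(v1v2) = r b34/(p
b14) = d14² r/(d34² p) = d12 d14/(d23 d34) = π_1/π_3`, `v4/v1 = (v2v4)/(v1v2) = q b34/(p b13) = q
d13²/(p d34²) = - d12 d13/(d24 d34) = π_1/π_4`. 2. `h_12 = q r/b12 = q r d12²` etc. (see module
Sg). 3. Let `y_i = 1/c_i`. (H3) divided by `∏ c` and `ρ`: `∑ y_i/π_i = 0`. Let `Q(X,Y) = A X² + B
X Y + C Y²` be the quadratic form with `Q(w_i) = y_i` for `i = 1,2,3` (exists since `w1,w2,w3`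
are pairwise independent: in the basis `w1, w2`, `Q(a w1 + c w2) = a² y1 + c² y2 + 2 a c β` with
`β` determined by `Q(w3) = y3`). Every quadratic form satisfies `∑ Q(w_i)/π_i = 0` (identity in
`A,B,C` and the coordinates), so `Q(w4) = y4`.
4. (H2) divided by `∏ c`: `∑_{i<j} h_ij y_k y_l = 0` (`{k,l}` complementary), i.e.
`q r (d12² y3 y4 + d34² y1 y2) + p r (d13² y2 y4 + d24² y1 y3) + p q (d14² y2 y3 + d23² y1 y4) =
0`. With `q r = -1/(d13 d24 d14 d23)`, `p r = 1/(d12 d34 d14 d23)`, `p q = -1/(d12 d34 d13 d24)`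
and multiplication by `D = d12 d13 d14 d23 d24 d34` this is
`- d12³ d34 y3 y4 - d34³ d12 y1 y2 + d13³ d24 y2 y4 + d24³ d13 y1 y3 - d14³ d23 y2 y3 - d23³ d14
y1 y4 = 0`, and for `y_i = Q(w_i)` the left side is identically `- D (B² - 4 A C)` (`ring`,
checked with exact arithmetic). So `B² = 4 A C`. 5. Then `Q` is the square of a linear form: if
`A ≠ 0` let `α² = A`, `β = B/(2α)`, `Q = (α X + β Y)²` (`β² = B²/(4A) = C`); if `A = 0` then `B =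
0`, `Q = (γ Y)²`, `γ² = C`. With `w5 = (-β, α)` resp. `(-γ, 0)`: `dt (X,Y) w5 = X α + Y β` resp.
`Y γ`. So `dt(w_i,w5)² = y_i = 1/c_i`.
-/

open Complex Filter Topology

namespace AMP

variable {g : ℕ} {b : Fin g → Fin g → ℂ} {v : Fin g → ℂ}

/-- a quadratic form with vanishing discriminant is a square -/
theorem jac_square (A B C : ℂ) (h : B ^ 2 = 4 * A * C) :
    ∃ w : ℂ × ℂ, ∀ z : ℂ × ℂ, dt z w ^ 2 = A * z.1 ^ 2 + B * z.1 * z.2 + C * z.2 ^ 2 := by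
  by_cases hA : A = 0
  · rw [hA, mul_zero, zero_mul] at h
    have hB : B = 0 := pow_eq_zero_iff two_ne_zero |>.1 h
    obtain ⟨c, hc⟩ := IsAlgClosed.exists_pow_nat_eq C (n := 2) (by norm_num)
    refine ⟨(-c, 0), fun z => ?_⟩
    rw [hA, hB, ← hc]
    simp only [dt]
    ring
  · obtain ⟨a, ha⟩ := IsAlgClosed.exists_pow_nat_eq A (n := 2) (by norm_num)
    have ha0 : a ≠ 0 := by
      rintro rfl
      exact hA (by rw [← ha]; ring)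
    obtain ⟨β, hβ⟩ : ∃ β, β = B / (2 * a) := ⟨_, rfl⟩
    have h1 : 2 * a * β = B := by
      rw [hβ]
      field_simp
    have h2 : β ^ 2 = C := by
      have h3 : A * (β ^ 2 - C) = 0 := by
        rw [← h1, ← ha] at h
        rw [← ha]
        linear_combination h / 4
      exact sub_eq_zero.1 ((mul_eq_zero.1 h3).resolve_left hA)
    refine ⟨(-β, a), fun z => ?_⟩
    rw [← h2, ← h1, ← ha]
    simp only [dt]
    ring

/-- interpolation of three values by a quadratic form -/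
theorem jac_interp {w1 w2 w3 : ℂ × ℂ} (h12 : dt w1 w2 ≠ 0) (h13 : dt w1 w3 ≠ 0)
    (h23 : dt w2 w3 ≠ 0) (y1 y2 y3 : ℂ) : ∃ A B C : ℂ,
      A * w1.1 ^ 2 + B * w1.1 * w1.2 + C * w1.2 ^ 2 = y1 ∧
      A * w2.1 ^ 2 + B * w2.1 * w2.2 + C * w2.2 ^ 2 = y2 ∧
      A * w3.1 ^ 2 + B * w3.1 * w3.2 + C * w3.2 ^ 2 = y3 := by
  obtain ⟨a1, h1⟩ : ∃ a, a = (dt w1 w2 * dt w1 w3)⁻¹ := ⟨_, rfl⟩
  obtain ⟨a2, h2⟩ : ∃ a, a = (dt w1 w2 * dt w2 w3)⁻¹ := ⟨_, rfl⟩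
  obtain ⟨a3, h3⟩ : ∃ a, a = (dt w1 w3 * dt w2 w3)⁻¹ := ⟨_, rfl⟩
  have k1 : dt w1 w2 * dt w1 w3 * a1 = 1 := by
    rw [h1, mul_inv_cancel₀ (mul_ne_zero h12 h13)]
  have k2 : dt w1 w2 * dt w2 w3 * a2 = 1 := by
    rw [h2, mul_inv_cancel₀ (mul_ne_zero h12 h23)]
  have k3 : dt w1 w3 * dt w2 w3 * a3 = 1 := by
    rw [h3, mul_inv_cancel₀ (mul_ne_zero h13 h23)]
  clear h1 h2 h3 h12 h13 h23
  simp only [dt] at k1 k2 k3
  refine ⟨y1 * a1 * (w2.2 * w3.2) - y2 * a2 * (w1.2 * w3.2) + y3 * a3 * (w1.2 * w2.2),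
    -(y1 * a1 * (w2.2 * w3.1 + w2.1 * w3.2)) + y2 * a2 * (w1.2 * w3.1 + w1.1 * w3.2) -
      y3 * a3 * (w1.2 * w2.1 + w1.1 * w2.2),
    y1 * a1 * (w2.1 * w3.1) - y2 * a2 * (w1.1 * w3.1) + y3 * a3 * (w1.1 * w2.1), ?_, ?_, ?_⟩
  · linear_combination y1 * k1
  · linear_combination y2 * k2
  · linear_combination y3 * k3

private theorem jb_sign {P Q R s t u : ℂ} (hP : P ≠ 0) (hQ : Q ≠ 0) (hR : R ≠ 0)
    (h1 : s * s = 1) (h2 : t * t = 1) (h3 : u * u = 1) (hpl : P - Q + R = 0)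
    (hrel : s * t * R + t * u * P + u * s * Q = 0) : s * t = -1 ∧ u * s = 1 ∧ t * u = -1 := by
  rcases mul_self_eq_one_iff.1 h1 with rfl | rfl <;> rcases mul_self_eq_one_iff.1 h2 with rfl | rfl
    <;> rcases mul_self_eq_one_iff.1 h3 with rfl | rfl
  · exact absurd (by linear_combination (hrel - hpl) / 2) hQ
  · exact absurd (by linear_combination (hpl - hrel) / 2) hP
  · exact ⟨by norm_num, by norm_num, by norm_num⟩
  · exact absurd (by linear_combination (hpl - hrel) / 2) hR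
  · exact absurd (by linear_combination (hpl - hrel) / 2) hR
  · exact ⟨by norm_num, by norm_num, by norm_num⟩
  · exact absurd (by linear_combination (hpl - hrel) / 2) hP
  · exact absurd (by linear_combination (hrel - hpl) / 2) hQ

/-- the identity for the values of a quadratic form at four vectors -/
private theorem jb_id1 (A B C : ℂ) (w1 w2 w3 w4 : ℂ × ℂ) :
    -(dt w2 w3 * dt w2 w4 * dt w3 w4 * (A * w1.1 ^ 2 + B * w1.1 * w1.2 + C * w1.2 ^ 2)) +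
      dt w1 w3 * dt w1 w4 * dt w3 w4 * (A * w2.1 ^ 2 + B * w2.1 * w2.2 + C * w2.2 ^ 2) -
      dt w1 w2 * dt w1 w4 * dt w2 w4 * (A * w3.1 ^ 2 + B * w3.1 * w3.2 + C * w3.2 ^ 2) +
      dt w1 w2 * dt w1 w3 * dt w2 w3 * (A * w4.1 ^ 2 + B * w4.1 * w4.2 + C * w4.2 ^ 2) = 0 := by
  simp only [dt]
  ring

/-- the identity for the products of the values of a quadratic form at four vectors -/
private theorem jb_id2 (A B C : ℂ) (w1 w2 w3 w4 : ℂ × ℂ) {y1 y2 y3 y4 : ℂ}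
    (h1 : A * w1.1 ^ 2 + B * w1.1 * w1.2 + C * w1.2 ^ 2 = y1)
    (h2 : A * w2.1 ^ 2 + B * w2.1 * w2.2 + C * w2.2 ^ 2 = y2)
    (h3 : A * w3.1 ^ 2 + B * w3.1 * w3.2 + C * w3.2 ^ 2 = y3)
    (h4 : A * w4.1 ^ 2 + B * w4.1 * w4.2 + C * w4.2 ^ 2 = y4) :
    -(dt w1 w2 ^ 3 * dt w3 w4 * (y3 * y4)) - dt w3 w4 ^ 3 * dt w1 w2 * (y1 * y2) +
      dt w1 w3 ^ 3 * dt w2 w4 * (y2 * y4) + dt w2 w4 ^ 3 * dt w1 w3 * (y1 * y3) -
      dt w1 w4 ^ 3 * dt w2 w3 * (y2 * y3) - dt w2 w3 ^ 3 * dt w1 w4 * (y1 * y4) =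
    -(dt w1 w2 * dt w1 w3 * dt w1 w4 * dt w2 w3 * dt w2 w4 * dt w3 w4 * (B ^ 2 - 4 * A * C)) := by
  rw [← h1, ← h2, ← h3, ← h4]
  simp only [dt]
  ring

/-- the equations for `y = 1 / c` -/
private theorem jb_y {c1 c2 c3 c4 a1 a2 a3 a4 : ℂ} (hc1 : c1 ≠ 0) (hc2 : c2 ≠ 0) (hc3 : c3 ≠ 0)
    (hc4 : c4 ≠ 0) (h : a1 * (c2 * c3 * c4) + a2 * (c1 * c3 * c4) + a3 * (c1 * c2 * c4) +
      a4 * (c1 * c2 * c3) = 0) : a1 * c1⁻¹ + a2 * c2⁻¹ + a3 * c3⁻¹ + a4 * c4⁻¹ = 0 := by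
  have h1 : a1 * c1⁻¹ + a2 * c2⁻¹ + a3 * c3⁻¹ + a4 * c4⁻¹ = (a1 * (c2 * c3 * c4) +
      a2 * (c1 * c3 * c4) + a3 * (c1 * c2 * c4) + a4 * (c1 * c2 * c3)) / (c1 * c2 * c3 * c4) := by
    field_simp
  rw [h1, h, zero_div]

private theorem jb_yy {c1 c2 c3 c4 a12 a13 a14 a23 a24 a34 : ℂ} (hc1 : c1 ≠ 0) (hc2 : c2 ≠ 0)
    (hc3 : c3 ≠ 0) (hc4 : c4 ≠ 0) (h : a12 * (c1 * c2) + a13 * (c1 * c3) + a14 * (c1 * c4) +
      a23 * (c2 * c3) + a24 * (c2 * c4) + a34 * (c3 * c4) = 0) :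
    a12 * (c3⁻¹ * c4⁻¹) + a13 * (c2⁻¹ * c4⁻¹) + a14 * (c2⁻¹ * c3⁻¹) + a23 * (c1⁻¹ * c4⁻¹) +
      a24 * (c1⁻¹ * c3⁻¹) + a34 * (c1⁻¹ * c2⁻¹) = 0 := by
  have h1 : a12 * (c3⁻¹ * c4⁻¹) + a13 * (c2⁻¹ * c4⁻¹) + a14 * (c2⁻¹ * c3⁻¹) +
      a23 * (c1⁻¹ * c4⁻¹) + a24 * (c1⁻¹ * c3⁻¹) + a34 * (c1⁻¹ * c2⁻¹) =
      (a12 * (c1 * c2) + a13 * (c1 * c3) + a14 * (c1 * c4) + a23 * (c2 * c3) +
        a24 * (c2 * c4) + a34 * (c3 * c4)) / (c1 * c2 * c3 * c4) := by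
    field_simp
  rw [h1, h, zero_div]

/-- the algebraic core -/
private theorem jb_core {b12 b13 b14 b23 b24 b34 v1 v2 v3 v4 p q r x : ℂ} {w1 w2 w3 w4 : ℂ × ℂ}
    (e12 : b12 * dt w1 w2 ^ 2 = 1) (e13 : b13 * dt w1 w3 ^ 2 = 1)
    (e14 : b14 * dt w1 w4 ^ 2 = 1) (e23 : b23 * dt w2 w3 ^ 2 = 1)
    (e24 : b24 * dt w2 w4 ^ 2 = 1) (e34 : b34 * dt w3 w4 ^ 2 = 1)
    {c1 c2 c3 c4 : ℂ} (hc1 : c1 ≠ 0) (hc2 : c2 ≠ 0) (hc3 : c3 ≠ 0) (hc4 : c4 ≠ 0)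
    (H2 : c1 * c2 * (v3 * v4 + b34) + c1 * c3 * (v2 * v4 + b24) +
      c1 * c4 * (v2 * v3 + b23) + c2 * c3 * (v1 * v4 + b14) +
      c2 * c4 * (v1 * v3 + b13) + c3 * c4 * (v1 * v2 + b12) = 0)
    (H3 : v1 * (c2 * c3 * c4) + v2 * (c1 * c3 * c4) + v3 * (c1 * c2 * c4) +
      v4 * (c1 * c2 * c3) = 0)
    (hx : x ≠ 0) (hs : p + q + r = -x) (hpr : p * q + q * r + r * p = 0)
    (hp : p ^ 2 = b12 * b34) (hq : q ^ 2 = b13 * b24) (hr : r ^ 2 = b14 * b23)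
    (k1 : b34 * (v1 * v2) = p * x) (k2 : b12 * (v3 * v4) = p * x)
    (k3 : b24 * (v1 * v3) = q * x) (k4 : b13 * (v2 * v4) = q * x)
    (k5 : b23 * (v1 * v4) = r * x) (k6 : b14 * (v2 * v3) = r * x) :
    ∃ w5 : ℂ × ℂ, c1 * dt w1 w5 ^ 2 = 1 ∧ c2 * dt w2 w5 ^ 2 = 1 ∧ c3 * dt w3 w5 ^ 2 = 1 ∧
      c4 * dt w4 w5 ^ 2 = 1 := by
  obtain ⟨d12, hd12⟩ : ∃ d, d = dt w1 w2 := ⟨_, rfl⟩
  obtain ⟨d13, hd13⟩ : ∃ d, d = dt w1 w3 := ⟨_, rfl⟩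
  obtain ⟨d14, hd14⟩ : ∃ d, d = dt w1 w4 := ⟨_, rfl⟩
  obtain ⟨d23, hd23⟩ : ∃ d, d = dt w2 w3 := ⟨_, rfl⟩
  obtain ⟨d24, hd24⟩ : ∃ d, d = dt w2 w4 := ⟨_, rfl⟩
  obtain ⟨d34, hd34⟩ : ∃ d, d = dt w3 w4 := ⟨_, rfl⟩
  rw [← hd12] at e12
  rw [← hd13] at e13
  rw [← hd14] at e14
  rw [← hd23] at e23
  rw [← hd24] at e24
  rw [← hd34] at e34
  have ne : ∀ {b d : ℂ}, b * d ^ 2 = 1 → d ≠ 0 := by
    rintro b d h rfl
    rw [zero_pow two_ne_zero, mul_zero] at h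
    exact zero_ne_one h
  have n12 := ne e12
  have n13 := ne e13
  have n14 := ne e14
  have n23 := ne e23
  have n24 := ne e24
  have n34 := ne e34
  have hpl : d12 * d34 - d13 * d24 + d14 * d23 = 0 := by
    rw [hd12, hd13, hd14, hd23, hd24, hd34]
    exact plucker w1 w2 w3 w4
  -- the signs
  obtain ⟨g1, g2, g3⟩ := jb_sign (P := d12 * d34) (Q := d13 * d24) (R := d14 * d23)
    (s := p * (d12 * d34)) (t := q * (d13 * d24)) (u := r * (d14 * d23))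
    (mul_ne_zero n12 n34) (mul_ne_zero n13 n24) (mul_ne_zero n14 n23)
    (by linear_combination (d12 * d34) ^ 2 * hp + b34 * d34 ^ 2 * e12 + e34)
    (by linear_combination (d13 * d24) ^ 2 * hq + b24 * d24 ^ 2 * e13 + e24)
    (by linear_combination (d14 * d23) ^ 2 * hr + b23 * d23 ^ 2 * e14 + e23) hpl
    (by linear_combination (d12 * d34) * (d13 * d24) * (d14 * d23) * hpr)
  have g4 : r * (d14 * d23) * (r * (d14 * d23)) = 1 := by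
    linear_combination (d14 * d23) ^ 2 * hr + b23 * d23 ^ 2 * e14 + e23
  -- the products of the coordinates
  have m12 : v1 * v2 = p * x * d34 ^ 2 := by linear_combination d34 ^ 2 * k1 - v1 * v2 * e34
  have m34 : v3 * v4 = p * x * d12 ^ 2 := by linear_combination d12 ^ 2 * k2 - v3 * v4 * e12
  have m13 : v1 * v3 = q * x * d24 ^ 2 := by linear_combination d24 ^ 2 * k3 - v1 * v3 * e24
  have m24 : v2 * v4 = q * x * d13 ^ 2 := by linear_combination d13 ^ 2 * k4 - v2 * v4 * e13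
  have m14 : v1 * v4 = r * x * d23 ^ 2 := by linear_combination d23 ^ 2 * k5 - v1 * v4 * e23
  have m23 : v2 * v3 = r * x * d14 ^ 2 := by linear_combination d14 ^ 2 * k6 - v2 * v3 * e14
  have hx' : x = -(p + q + r) := by linear_combination hs
  have hh12 : v3 * v4 + b34 = d12 ^ 2 * (q * r) := by
    have h1 : b34 = p ^ 2 * d12 ^ 2 := by linear_combination -b34 * e12 - d12 ^ 2 * hp
    rw [m34, h1, hx']
    linear_combination -(d12 ^ 2) * hpr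
  have hh34 : v1 * v2 + b12 = d34 ^ 2 * (q * r) := by
    have h1 : b12 = p ^ 2 * d34 ^ 2 := by linear_combination -b12 * e34 - d34 ^ 2 * hp
    rw [m12, h1, hx']
    linear_combination -(d34 ^ 2) * hpr
  have hh13 : v2 * v4 + b24 = d13 ^ 2 * (p * r) := by
    have h1 : b24 = q ^ 2 * d13 ^ 2 := by linear_combination -b24 * e13 - d13 ^ 2 * hq
    rw [m24, h1, hx']
    linear_combination -(d13 ^ 2) * hpr
  have hh24 : v1 * v3 + b13 = d24 ^ 2 * (p * r) := by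
    have h1 : b13 = q ^ 2 * d24 ^ 2 := by linear_combination -b13 * e24 - d24 ^ 2 * hq
    rw [m13, h1, hx']
    linear_combination -(d24 ^ 2) * hpr
  have hh14 : v2 * v3 + b23 = d14 ^ 2 * (p * q) := by
    have h1 : b23 = r ^ 2 * d14 ^ 2 := by linear_combination -b23 * e14 - d14 ^ 2 * hr
    rw [m23, h1, hx']
    linear_combination -(d14 ^ 2) * hpr
  have hh23 : v1 * v4 + b14 = d23 ^ 2 * (p * q) := by
    have h1 : b14 = r ^ 2 * d23 ^ 2 := by linear_combination -b14 * e23 - d23 ^ 2 * hr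
    rw [m14, h1, hx']
    linear_combination -(d23 ^ 2) * hpr
  rw [hh12, hh13, hh14, hh23, hh24, hh34] at H2
  have H2' : -(d12 ^ 3 * d34) * (c1 * c2) + d13 ^ 3 * d24 * (c1 * c3) +
      -(d14 ^ 3 * d23) * (c1 * c4) + -(d23 ^ 3 * d14) * (c2 * c3) +
      d24 ^ 3 * d13 * (c2 * c4) + -(d34 ^ 3 * d12) * (c3 * c4) = 0 := by
    linear_combination d12 * d13 * d14 * d23 * d24 * d34 * H2 -
      (c1 * c2 * d12 ^ 3 * d34 + c3 * c4 * d34 ^ 3 * d12) * g3 -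
      (c1 * c3 * d13 ^ 3 * d24 + c2 * c4 * d24 ^ 3 * d13) * g2 -
      (c1 * c4 * d14 ^ 3 * d23 + c2 * c3 * d23 ^ 3 * d14) * g1
  have hE : p * q * d34 ^ 2 * d24 ^ 2 * (c2 * c3 * c4) + r * p * d14 ^ 2 * d34 ^ 2 *
      (c1 * c3 * c4) + r * q * d14 ^ 2 * d24 ^ 2 * (c1 * c2 * c4) +
      r ^ 2 * d14 ^ 2 * d23 ^ 2 * (c1 * c2 * c3) = 0 := by
    have hv : v1 ^ 2 * (r * d14 ^ 2) = p * q * x * d34 ^ 2 * d24 ^ 2 := by
      have h1 : x * (v1 ^ 2 * (r * d14 ^ 2) - p * q * x * d34 ^ 2 * d24 ^ 2) = 0 := by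
        linear_combination -(v1 ^ 2) * m23 + v1 * v3 * m12 + p * x * d34 ^ 2 * m13
      exact sub_eq_zero.1 ((mul_eq_zero.1 h1).resolve_left hx)
    have h2 : x * (p * q * d34 ^ 2 * d24 ^ 2 * (c2 * c3 * c4) + r * p * d14 ^ 2 * d34 ^ 2 *
        (c1 * c3 * c4) + r * q * d14 ^ 2 * d24 ^ 2 * (c1 * c2 * c4) +
        r ^ 2 * d14 ^ 2 * d23 ^ 2 * (c1 * c2 * c3)) = 0 := by
      linear_combination r * d14 ^ 2 * v1 * H3 - c2 * c3 * c4 * hv -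
        r * d14 ^ 2 * (c1 * c3 * c4) * m12 - r * d14 ^ 2 * (c1 * c2 * c4) * m13 -
        r * d14 ^ 2 * (c1 * c2 * c3) * m14
    exact (mul_eq_zero.1 h2).resolve_left hx
  have H3' : -(d23 * d24 * d34) * (c2 * c3 * c4) + d13 * d14 * d34 * (c1 * c3 * c4) +
      -(d12 * d14 * d24) * (c1 * c2 * c4) + d12 * d13 * d23 * (c1 * c2 * c3) = 0 := by
    linear_combination d12 * d13 * d23 * hE - d34 * d24 * d23 * (c2 * c3 * c4) * g1 -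
      d13 * d14 * d34 * (c1 * c3 * c4) * g2 - d12 * d14 * d24 * (c1 * c2 * c4) * g3 -
      d12 * d13 * d23 * (c1 * c2 * c3) * g4
  have H2y := jb_yy hc1 hc2 hc3 hc4 H2'
  have H3y := jb_y hc1 hc2 hc3 hc4 H3'
  obtain ⟨A, B, C, q1, q2, q3⟩ := jac_interp (hd12 ▸ n12) (hd13 ▸ n13) (hd23 ▸ n23)
    c1⁻¹ c2⁻¹ c3⁻¹
  have i1 := jb_id1 A B C w1 w2 w3 w4
  rw [← hd12, ← hd13, ← hd14, ← hd23, ← hd24, ← hd34, q1, q2, q3] at i1
  have q4 : A * w4.1 ^ 2 + B * w4.1 * w4.2 + C * w4.2 ^ 2 = c4⁻¹ := by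
    have h1 : d12 * d13 * d23 * (A * w4.1 ^ 2 + B * w4.1 * w4.2 + C * w4.2 ^ 2 - c4⁻¹) = 0 := by
      linear_combination i1 - H3y
    exact sub_eq_zero.1 ((mul_eq_zero.1 h1).resolve_left (mul_ne_zero (mul_ne_zero n12 n13) n23))
  have i2 := jb_id2 A B C w1 w2 w3 w4 q1 q2 q3 q4
  rw [← hd12, ← hd13, ← hd14, ← hd23, ← hd24, ← hd34] at i2
  have hdisc : B ^ 2 = 4 * A * C := by
    have h1 : d12 * d13 * d14 * d23 * d24 * d34 * (B ^ 2 - 4 * A * C) = 0 := by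
      linear_combination i2 - H2y
    have h2 : d12 * d13 * d14 * d23 * d24 * d34 ≠ 0 :=
      mul_ne_zero (mul_ne_zero (mul_ne_zero (mul_ne_zero (mul_ne_zero n12 n13) n14) n23) n24) n34
    exact sub_eq_zero.1 ((mul_eq_zero.1 h1).resolve_left h2)
  obtain ⟨w5, hw⟩ := jac_square A B C hdisc
  refine ⟨w5, ?_, ?_, ?_, ?_⟩
  · rw [hw, q1, mul_inv_cancel₀ hc1]
  · rw [hw, q2, mul_inv_cancel₀ hc2]
  · rw [hw, q3, mul_inv_cancel₀ hc3]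
  · rw [hw, q4, mul_inv_cancel₀ hc4]

theorem jac_two (hb : ∀ i j, b i j = b j i) (h0 : ∀ i j, i ≠ j → b i j ≠ 0)
    {i j k l : Fin g} (hij : i ≠ j) (hik : i ≠ k) (hil : i ≠ l) (hjk : j ≠ k) (hjl : j ≠ l)
    (hkl : k ≠ l) (h : Sing b {i, j, k, l} v)
    (hv : v i ≠ 0 ∨ v j ≠ 0 ∨ v k ≠ 0 ∨ v l ≠ 0) {w1 w2 w3 w4 : ℂ × ℂ}
    (e12 : b i j * dt w1 w2 ^ 2 = 1) (e13 : b i k * dt w1 w3 ^ 2 = 1)
    (e14 : b i l * dt w1 w4 ^ 2 = 1) (e23 : b j k * dt w2 w3 ^ 2 = 1)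
    (e24 : b j l * dt w2 w4 ^ 2 = 1) (e34 : b k l * dt w3 w4 ^ 2 = 1)
    {c1 c2 c3 c4 : ℂ} (hc1 : c1 ≠ 0) (hc2 : c2 ≠ 0) (hc3 : c3 ≠ 0) (hc4 : c4 ≠ 0)
    (H2 : c1 * c2 * (v k * v l + b k l) + c1 * c3 * (v j * v l + b j l) +
      c1 * c4 * (v j * v k + b j k) + c2 * c3 * (v i * v l + b i l) +
      c2 * c4 * (v i * v k + b i k) + c3 * c4 * (v i * v j + b i j) = 0)
    (H3 : v i * (c2 * c3 * c4) + v j * (c1 * c3 * c4) + v k * (c1 * c2 * c4) +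
      v l * (c1 * c2 * c3) = 0) :
    ∃ w5 : ℂ × ℂ, c1 * dt w1 w5 ^ 2 = 1 ∧ c2 * dt w2 w5 ^ 2 = 1 ∧ c3 * dt w3 w5 ^ 2 = 1 ∧
      c4 * dt w4 w5 ^ 2 = 1 := by
  rcases sing_four hb h0 hij hik hil hjk hjl hkl h with h1 | h1
  · obtain ⟨h1, h2, h3, h4, -⟩ := h1
    rcases hv with hv | hv | hv | hv
    · exact absurd h1 hv
    · exact absurd h2 hv
    · exact absurd h3 hv
    · exact absurd h4 hv
  · obtain ⟨p, q, r, x, -, -, -, hx, hs, hpr, hp, hq, hr, k1, k2, k3, k4, k5, k6⟩ := h1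
    exact jb_core e12 e13 e14 e23 e24 e34 hc1 hc2 hc3 hc4 H2 H3 hx hs hpr hp hq hr k1 k2 k3 k4 k5
      k6

end AMP
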