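import Pool.Agent.Lib.MP_b57e3c_ag_P.Jb

set_option autoImplicit false

/-!
# Module Jc : vectors for all indices

`g ≥ 4`; let `0,1,2,3` be the first four indices and `S0 = {0,1,2,3}`. `jac_one` for `S0` gives
`w 0, …, w 3`. For `k ∉ S0`: the two equations of the hypothesis for `S0`, `k` are (written out:
`Finset.sum_insert` …; the double sum over `S` is twice the sum over pairs, `Hs` is symmetric,
`Hs b S v i j = μ` of the other two indices, `mu_two`) the hypotheses `H2`, `H3` of `jac_two`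
with `c_i = b i k`; so there is `w k` with `b i k * dt (w i) (w k) ^ 2 = 1` for `i ∈ S0`. For `k
≠ l`, both not in `S0`: the set `S = {0,1,2,k}` with the vectors `w 0, w 1, w 2, w k` satisfies
the hypotheses of `jac_two` (singular zero `v_S ≠ 0`, `l ∉ S`): there is `w'` with `b i l * dt (w
i) w' ^ 2 = 1` for `i = 0, 1, 2, k`. Then `dt (w i) w' ^ 2 = dt (w i) (w l) ^ 2` for `i = 0,1,2`,
so by `dt_unique` (`dt (w 0) (w 1) ≠ 0` etc. from the equations) `dt (w k) w' ^ 2 = dt (w k) (w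
l) ^ 2`, and `b k l * dt (w k) (w l) ^ 2 = 1`. The equation is symmetric in the two indices (`dt
y x = - dt x y`).
-/

open Complex Filter Topology

namespace AMP

variable {g : ℕ} {b : Fin g → Fin g → ℂ}

private theorem Jc_pij {A B C D : Prop} :
    (A ∨ B ∨ C ∨ D) ↔ (A ∨ B ∨ C ∨ D) := by
  tauto

private theorem Jc_pik {A B C D : Prop} :
    (A ∨ B ∨ C ∨ D) ↔ (A ∨ C ∨ B ∨ D) := by
  tauto

private theorem Jc_pil {A B C D : Prop} :
    (A ∨ B ∨ C ∨ D) ↔ (A ∨ D ∨ B ∨ C) := by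
  tauto

private theorem Jc_pji {A B C D : Prop} :
    (A ∨ B ∨ C ∨ D) ↔ (B ∨ A ∨ C ∨ D) := by
  tauto

private theorem Jc_pjk {A B C D : Prop} :
    (A ∨ B ∨ C ∨ D) ↔ (B ∨ C ∨ A ∨ D) := by
  tauto

private theorem Jc_pjl {A B C D : Prop} :
    (A ∨ B ∨ C ∨ D) ↔ (B ∨ D ∨ A ∨ C) := by
  tauto

private theorem Jc_pki {A B C D : Prop} :
    (A ∨ B ∨ C ∨ D) ↔ (C ∨ A ∨ B ∨ D) := by
  tauto

private theorem Jc_pkj {A B C D : Prop} :
    (A ∨ B ∨ C ∨ D) ↔ (C ∨ B ∨ A ∨ D) := by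
  tauto

private theorem Jc_pkl {A B C D : Prop} :
    (A ∨ B ∨ C ∨ D) ↔ (C ∨ D ∨ A ∨ B) := by
  tauto

private theorem Jc_pli {A B C D : Prop} :
    (A ∨ B ∨ C ∨ D) ↔ (D ∨ A ∨ B ∨ C) := by
  tauto

private theorem Jc_plj {A B C D : Prop} :
    (A ∨ B ∨ C ∨ D) ↔ (D ∨ B ∨ A ∨ C) := by
  tauto

private theorem Jc_plk {A B C D : Prop} :
    (A ∨ B ∨ C ∨ D) ↔ (D ∨ C ∨ A ∨ B) := by
  tauto

/-- second derivatives of the matching polynomial of four indices -/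
private theorem Jc_hs (hb : ∀ i j, b i j = b j i) (S : Finset (Fin g)) (v : Fin g → ℂ)
    {x y z w : Fin g} (hxy : x ≠ y) (hxz : x ≠ z) (hxw : x ≠ w) (hyz : y ≠ z) (hyw : y ≠ w)
    (hzw : z ≠ w) (hS : ∀ t, t ∈ S ↔ t = x ∨ t = y ∨ t = z ∨ t = w) :
    Hs b S v x y = v z * v w + b z w := by
  unfold Hs
  rw [if_neg hxy]
  have h1 : (S.erase x).erase y = {z, w} := by
    ext t
    rw [Finset.mem_erase, Finset.mem_erase, hS, Finset.mem_insert, Finset.mem_singleton]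
    constructor
    · rintro ⟨h2, h3, h4⟩
      rcases h4 with h4 | h4 | h4 | h4
      · exact absurd h4 h3
      · exact absurd h4 h2
      · exact Or.inl h4
      · exact Or.inr h4
    · rintro (h2 | h2)
      · rw [h2]
        exact ⟨hyz.symm, hxz.symm, Or.inr (Or.inr (Or.inl rfl))⟩
      · rw [h2]
        exact ⟨hyw.symm, hxw.symm, Or.inr (Or.inr (Or.inr rfl))⟩
  rw [h1, mu_two b hb hzw]

/-- the set with one element removed -/
private theorem Jc_erase (S : Finset (Fin g)) {x y z w : Fin g} (hxy : x ≠ y) (hxz : x ≠ z)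
    (hxw : x ≠ w) (hyz : y ≠ z) (hyw : y ≠ w) (hzw : z ≠ w)
    (hS : ∀ t, t ∈ S ↔ t = x ∨ t = y ∨ t = z ∨ t = w) (f : Fin g → ℂ) :
    ∏ t ∈ S.erase x, f t = f y * f z * f w := by
  have h1 : S.erase x = {y, z, w} := by
    ext t
    rw [Finset.mem_erase, hS, Finset.mem_insert, Finset.mem_insert, Finset.mem_singleton]
    constructor
    · rintro ⟨h3, h4⟩
      rcases h4 with h4 | h4
      · exact absurd h4 h3
      · exact h4
    · rintro (h2 | h2 | h2)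
      · rw [h2]
        exact ⟨hxy.symm, Or.inr (Or.inl rfl)⟩
      · rw [h2]
        exact ⟨hxz.symm, Or.inr (Or.inr (Or.inl rfl))⟩
      · rw [h2]
        exact ⟨hxw.symm, Or.inr (Or.inr (Or.inr rfl))⟩
  rw [h1, Finset.prod_insert, Finset.prod_insert, Finset.prod_singleton]
  · ring
  · rw [Finset.mem_singleton]
    exact hzw
  · rw [Finset.mem_insert, Finset.mem_singleton]
    rintro (h | h)
    · exact hyz h
    · exact hyw h

private theorem Jc_sum (f : Fin g → ℂ) {i j k l : Fin g} (hij : i ≠ j) (hik : i ≠ k)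
    (hil : i ≠ l) (hjk : j ≠ k) (hjl : j ≠ l) (hkl : k ≠ l) :
    ∑ t ∈ ({i, j, k, l} : Finset (Fin g)), f t = f i + f j + f k + f l := by
  rw [Finset.sum_insert, Finset.sum_insert, Finset.sum_insert, Finset.sum_singleton]
  · ring
  · rw [Finset.mem_singleton]
    exact hkl
  · rw [Finset.mem_insert, Finset.mem_singleton]
    rintro (h | h)
    · exact hjk h
    · exact hjl h
  · rw [Finset.mem_insert, Finset.mem_insert, Finset.mem_singleton]
    rintro (h | h | h)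
    · exact hij h
    · exact hik h
    · exact hil h

private theorem Jc_card {i j k l : Fin g} (hij : i ≠ j) (hik : i ≠ k)
    (hil : i ≠ l) (hjk : j ≠ k) (hjl : j ≠ l) (hkl : k ≠ l) :
    ({i, j, k, l} : Finset (Fin g)).card = 4 := by
  rw [Finset.card_insert_of_notMem, Finset.card_insert_of_notMem, Finset.card_pair hkl]
  · rw [Finset.mem_insert, Finset.mem_singleton]
    rintro (h | h)
    · exact hjk h
    · exact hjl h
  · rw [Finset.mem_insert, Finset.mem_insert, Finset.mem_singleton]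
    rintro (h | h | h)
    · exact hij h
    · exact hik h
    · exact hil h

private theorem Jc_ext (hb : ∀ i j, b i j = b j i) (h0 : ∀ i j, i ≠ j → b i j ≠ 0)
    (h : ∀ S : Finset (Fin g), S.card = 4 → ∃ v : Fin g → ℂ, Sing b S v ∧ (∃ i ∈ S, v i ≠ 0) ∧
      ∀ k, k ∉ S → (∑ i ∈ S, ∑ j ∈ S, b i k * b j k * Hs b S v i j = 0) ∧
        ∑ i ∈ S, v i * ∏ j ∈ S.erase i, b j k = 0)
    {i j k l : Fin g} (hij : i ≠ j) (hik : i ≠ k) (hil : i ≠ l) (hjk : j ≠ k) (hjl : j ≠ l)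
    (hkl : k ≠ l) {w1 w2 w3 w4 : ℂ × ℂ}
    (e12 : b i j * dt w1 w2 ^ 2 = 1) (e13 : b i k * dt w1 w3 ^ 2 = 1)
    (e14 : b i l * dt w1 w4 ^ 2 = 1) (e23 : b j k * dt w2 w3 ^ 2 = 1)
    (e24 : b j l * dt w2 w4 ^ 2 = 1) (e34 : b k l * dt w3 w4 ^ 2 = 1)
    {m : Fin g} (hmi : m ≠ i) (hmj : m ≠ j) (hmk : m ≠ k) (hml : m ≠ l) :
    ∃ w5 : ℂ × ℂ, b i m * dt w1 w5 ^ 2 = 1 ∧ b j m * dt w2 w5 ^ 2 = 1 ∧
      b k m * dt w3 w5 ^ 2 = 1 ∧ b l m * dt w4 w5 ^ 2 = 1 := by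
  obtain ⟨v, hs, ⟨t, ht, hvt⟩, hv⟩ := h {i, j, k, l} (Jc_card hij hik hil hjk hjl hkl)
  have hv4 : v i ≠ 0 ∨ v j ≠ 0 ∨ v k ≠ 0 ∨ v l ≠ 0 := by
    rw [Finset.mem_insert, Finset.mem_insert, Finset.mem_insert, Finset.mem_singleton] at ht
    rcases ht with ht | ht | ht | ht
    · exact Or.inl (ht ▸ hvt)
    · exact Or.inr (Or.inl (ht ▸ hvt))
    · exact Or.inr (Or.inr (Or.inl (ht ▸ hvt)))
    · exact Or.inr (Or.inr (Or.inr (ht ▸ hvt)))
  have hm : m ∉ ({i, j, k, l} : Finset (Fin g)) := by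
    rw [Finset.mem_insert, Finset.mem_insert, Finset.mem_insert, Finset.mem_singleton]
    rintro (h1 | h1 | h1 | h1)
    · exact hmi h1
    · exact hmj h1
    · exact hmk h1
    · exact hml h1
  obtain ⟨hA, hB⟩ := hv m hm
  have hmem : ∀ t, t ∈ ({i, j, k, l} : Finset (Fin g)) ↔ t = i ∨ t = j ∨ t = k ∨ t = l := by
    intro t
    rw [Finset.mem_insert, Finset.mem_insert, Finset.mem_insert, Finset.mem_singleton]
  have qij : Hs b ({i, j, k, l} : Finset (Fin g)) v i j = v k * v l + b k l :=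
    Jc_hs hb _ v hij hik hil hjk hjl hkl
      (fun t => (hmem t).trans Jc_pij)
  have qik : Hs b ({i, j, k, l} : Finset (Fin g)) v i k = v j * v l + b j l :=
    Jc_hs hb _ v hik hij hil hjk.symm hkl hjl
      (fun t => (hmem t).trans Jc_pik)
  have qil : Hs b ({i, j, k, l} : Finset (Fin g)) v i l = v j * v k + b j k :=
    Jc_hs hb _ v hil hij hik hjl.symm hkl.symm hjk
      (fun t => (hmem t).trans Jc_pil)
  have qji : Hs b ({i, j, k, l} : Finset (Fin g)) v j i = v k * v l + b k l :=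
    Jc_hs hb _ v hij.symm hjk hjl hik hil hkl
      (fun t => (hmem t).trans Jc_pji)
  have qjk : Hs b ({i, j, k, l} : Finset (Fin g)) v j k = v i * v l + b i l :=
    Jc_hs hb _ v hjk hij.symm hjl hik.symm hkl hil
      (fun t => (hmem t).trans Jc_pjk)
  have qjl : Hs b ({i, j, k, l} : Finset (Fin g)) v j l = v i * v k + b i k :=
    Jc_hs hb _ v hjl hij.symm hjk hil.symm hkl.symm hik
      (fun t => (hmem t).trans Jc_pjl)
  have qki : Hs b ({i, j, k, l} : Finset (Fin g)) v k i = v j * v l + b j l :=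
    Jc_hs hb _ v hik.symm hjk.symm hkl hij hil hjl
      (fun t => (hmem t).trans Jc_pki)
  have qkj : Hs b ({i, j, k, l} : Finset (Fin g)) v k j = v i * v l + b i l :=
    Jc_hs hb _ v hjk.symm hik.symm hkl hij.symm hjl hil
      (fun t => (hmem t).trans Jc_pkj)
  have qkl : Hs b ({i, j, k, l} : Finset (Fin g)) v k l = v i * v j + b i j :=
    Jc_hs hb _ v hkl hik.symm hjk.symm hil.symm hjl.symm hij
      (fun t => (hmem t).trans Jc_pkl)
  have qli : Hs b ({i, j, k, l} : Finset (Fin g)) v l i = v j * v k + b j k :=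
    Jc_hs hb _ v hil.symm hjl.symm hkl.symm hij hik hjk
      (fun t => (hmem t).trans Jc_pli)
  have qlj : Hs b ({i, j, k, l} : Finset (Fin g)) v l j = v i * v k + b i k :=
    Jc_hs hb _ v hjl.symm hil.symm hkl.symm hij.symm hjk hik
      (fun t => (hmem t).trans Jc_plj)
  have qlk : Hs b ({i, j, k, l} : Finset (Fin g)) v l k = v i * v j + b i j :=
    Jc_hs hb _ v hkl.symm hil.symm hjl.symm hik.symm hjk.symm hij
      (fun t => (hmem t).trans Jc_plk)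
  have pI : ∏ t ∈ ({i, j, k, l} : Finset (Fin g)).erase i, b t m =
      b j m * b k m * b l m :=
    Jc_erase _ hij hik hil hjk hjl hkl
      (fun t => (hmem t).trans Jc_pij) (fun t => b t m)
  have pJ : ∏ t ∈ ({i, j, k, l} : Finset (Fin g)).erase j, b t m =
      b i m * b k m * b l m :=
    Jc_erase _ hij.symm hjk hjl hik hil hkl
      (fun t => (hmem t).trans Jc_pji) (fun t => b t m)
  have pK : ∏ t ∈ ({i, j, k, l} : Finset (Fin g)).erase k, b t m =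
      b i m * b j m * b l m :=
    Jc_erase _ hik.symm hjk.symm hkl hij hil hjl
      (fun t => (hmem t).trans Jc_pki) (fun t => b t m)
  have pL : ∏ t ∈ ({i, j, k, l} : Finset (Fin g)).erase l, b t m =
      b i m * b j m * b k m :=
    Jc_erase _ hil.symm hjl.symm hkl.symm hij hik hjk
      (fun t => (hmem t).trans Jc_pli) (fun t => b t m)
  have hd : ∀ x, Hs b ({i, j, k, l} : Finset (Fin g)) v x x = 0 := by
    intro x
    unfold Hs
    rw [if_pos rfl]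
  refine jac_two hb h0 hij hik hil hjk hjl hkl hs hv4 e12 e13 e14 e23 e24 e34
    (h0 i m hmi.symm) (h0 j m hmj.symm) (h0 k m hmk.symm) (h0 l m hml.symm) ?_ ?_
  · simp only [Jc_sum _ hij hik hil hjk hjl hkl, hd, 
      qij, qik, qil, qji, qjk, qjl, qki, qkj, qkl, qli, qlj, qlk] at hA
    linear_combination (1 / 2) * hA
  · rw [Jc_sum _ hij hik hil hjk hjl hkl, pI, pJ, pK, pL] at hB
    linear_combination hB

private theorem Jc_symm (hb : ∀ i j, b i j = b j i) {w : Fin g → ℂ × ℂ} {i j : Fin g}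
    (h : b i j * dt (w i) (w j) ^ 2 = 1) : b j i * dt (w j) (w i) ^ 2 = 1 := by
  rw [hb j i]
  unfold dt at h ⊢
  linear_combination h

theorem jac_all (hg : 4 ≤ g) (hb : ∀ i j, b i j = b j i) (h0 : ∀ i j, i ≠ j → b i j ≠ 0)
    (h : ∀ S : Finset (Fin g), S.card = 4 → ∃ v : Fin g → ℂ, Sing b S v ∧ (∃ i ∈ S, v i ≠ 0) ∧
      ∀ k, k ∉ S → (∑ i ∈ S, ∑ j ∈ S, b i k * b j k * Hs b S v i j = 0) ∧
        ∑ i ∈ S, v i * ∏ j ∈ S.erase i, b j k = 0) :
    ∃ w : Fin g → ℂ × ℂ, ∀ i j, i ≠ j → b i j * dt (w i) (w j) ^ 2 = 1 := by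
  have hlt : ∀ n, n < 4 → n < g := fun n hn => lt_of_lt_of_le hn hg
  obtain ⟨i0, hi0⟩ : ∃ x : Fin g, (x : ℕ) = 0 := ⟨⟨0, hlt 0 (by norm_num)⟩, rfl⟩
  obtain ⟨i1, hi1⟩ : ∃ x : Fin g, (x : ℕ) = 1 := ⟨⟨1, hlt 1 (by norm_num)⟩, rfl⟩
  obtain ⟨i2, hi2⟩ : ∃ x : Fin g, (x : ℕ) = 2 := ⟨⟨2, hlt 2 (by norm_num)⟩, rfl⟩
  obtain ⟨i3, hi3⟩ : ∃ x : Fin g, (x : ℕ) = 3 := ⟨⟨3, hlt 3 (by norm_num)⟩, rfl⟩
  have n01 : i0 ≠ i1 := fun e => by rw [e] at hi0; omega
  have n02 : i0 ≠ i2 := fun e => by rw [e] at hi0; omega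
  have n03 : i0 ≠ i3 := fun e => by rw [e] at hi0; omega
  have n12 : i1 ≠ i2 := fun e => by rw [e] at hi1; omega
  have n13 : i1 ≠ i3 := fun e => by rw [e] at hi1; omega
  have n23 : i2 ≠ i3 := fun e => by rw [e] at hi2; omega
  clear hi0 hi1 hi2 hi3 hlt
  obtain ⟨v, hs, ⟨t, ht, hvt⟩, -⟩ := h {i0, i1, i2, i3} (Jc_card n01 n02 n03 n12 n13 n23)
  have hv4 : v i0 ≠ 0 ∨ v i1 ≠ 0 ∨ v i2 ≠ 0 ∨ v i3 ≠ 0 := by
    rw [Finset.mem_insert, Finset.mem_insert, Finset.mem_insert, Finset.mem_singleton] at ht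
    rcases ht with ht | ht | ht | ht
    · exact Or.inl (ht ▸ hvt)
    · exact Or.inr (Or.inl (ht ▸ hvt))
    · exact Or.inr (Or.inr (Or.inl (ht ▸ hvt)))
    · exact Or.inr (Or.inr (Or.inr (ht ▸ hvt)))
  obtain ⟨w1, w2, w3, w4, e12, e13, e14, e23, e24, e34⟩ :=
    jac_one hb h0 n01 n02 n03 n12 n13 n23 hs hv4
  have hex : ∀ k, ∃ x : ℂ × ℂ, (k = i0 → x = w1) ∧ (k = i1 → x = w2) ∧ (k = i2 → x = w3) ∧
      (k = i3 → x = w4) ∧ (k ≠ i0 → k ≠ i1 → k ≠ i2 → k ≠ i3 → b i0 k * dt w1 x ^ 2 = 1 ∧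
        b i1 k * dt w2 x ^ 2 = 1 ∧ b i2 k * dt w3 x ^ 2 = 1 ∧ b i3 k * dt w4 x ^ 2 = 1) := by
    intro k
    by_cases k0 : k = i0
    · subst k0
      exact ⟨w1, fun _ => rfl, fun e => absurd e n01, fun e => absurd e n02,
        fun e => absurd e n03, fun e => absurd rfl e⟩
    by_cases k1 : k = i1
    · subst k1
      exact ⟨w2, fun e => absurd e k0, fun _ => rfl, fun e => absurd e n12,
        fun e => absurd e n13, fun _ e => absurd rfl e⟩
    by_cases k2 : k = i2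
    · subst k2
      exact ⟨w3, fun e => absurd e k0, fun e => absurd e k1, fun _ => rfl,
        fun e => absurd e n23, fun _ _ e => absurd rfl e⟩
    by_cases k3 : k = i3
    · subst k3
      exact ⟨w4, fun e => absurd e k0, fun e => absurd e k1, fun e => absurd e k2,
        fun _ => rfl, fun _ _ _ e => absurd rfl e⟩
    obtain ⟨x, hx⟩ := Jc_ext hb h0 h n01 n02 n03 n12 n13 n23 e12 e13 e14 e23 e24 e34 k0 k1 k2 k3
    exact ⟨x, fun e => absurd e k0, fun e => absurd e k1, fun e => absurd e k2,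
      fun e => absurd e k3, fun _ _ _ _ => hx⟩
  choose w hw using hex
  have a0 : w i0 = w1 := (hw i0).1 rfl
  have a1 : w i1 = w2 := (hw i1).2.1 rfl
  have a2 : w i2 = w3 := (hw i2).2.2.1 rfl
  have a3 : w i3 = w4 := (hw i3).2.2.2.1 rfl
  have hout := fun k => (hw k).2.2.2.2
  clear hw
  rw [← a0, ← a1] at e12
  rw [← a0, ← a2] at e13
  rw [← a0, ← a3] at e14
  rw [← a1, ← a2] at e23
  rw [← a1, ← a3] at e24
  rw [← a2, ← a3] at e34
  rw [← a0, ← a1, ← a2, ← a3] at hout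
  have hne : ∀ {x y : Fin g}, b x y * dt (w x) (w y) ^ 2 = 1 → dt (w x) (w y) ≠ 0 := by
    intro x y h1 h2
    rw [h2] at h1
    norm_num at h1
  have hso : ∀ s k, (s = i0 ∨ s = i1 ∨ s = i2 ∨ s = i3) → k ≠ i0 → k ≠ i1 → k ≠ i2 → k ≠ i3 →
      b s k * dt (w s) (w k) ^ 2 = 1 := by
    intro s k hs k0 k1 k2 k3
    obtain ⟨c0, c1, c2, c3⟩ := hout k k0 k1 k2 k3
    rcases hs with hs | hs | hs | hs
    · rw [hs]
      exact c0
    · rw [hs]
      exact c1
    · rw [hs]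
      exact c2
    · rw [hs]
      exact c3
  have hoo : ∀ k l, k ≠ l → k ≠ i0 → k ≠ i1 → k ≠ i2 → k ≠ i3 →
      l ≠ i0 → l ≠ i1 → l ≠ i2 → l ≠ i3 → b k l * dt (w k) (w l) ^ 2 = 1 := by
    intro k l hkl k0 k1 k2 k3 l0 l1 l2 l3
    obtain ⟨c0, c1, c2, c3⟩ := hout k k0 k1 k2 k3
    obtain ⟨d0, d1, d2, d3⟩ := hout l l0 l1 l2 l3
    obtain ⟨x, x0, x1, x2, x3⟩ := Jc_ext hb h0 h n01 n02 k0.symm n12 k1.symm k2.symm
      e12 e13 c0 e23 c1 c2 l0 l1 l2 hkl.symm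
    have u0 : dt (w i0) x ^ 2 = dt (w i0) (w l) ^ 2 :=
      mul_left_cancel₀ (h0 i0 l l0.symm) (x0.trans d0.symm)
    have u1 : dt (w i1) x ^ 2 = dt (w i1) (w l) ^ 2 :=
      mul_left_cancel₀ (h0 i1 l l1.symm) (x1.trans d1.symm)
    have u2 : dt (w i2) x ^ 2 = dt (w i2) (w l) ^ 2 :=
      mul_left_cancel₀ (h0 i2 l l2.symm) (x2.trans d2.symm)
    have u3 := dt_unique (hne e12) (hne e13) (hne e23) u0 u1 u2 (w k)
    rw [← u3]
    exact x3
  have hss : ∀ s t, s ≠ t → (s = i0 ∨ s = i1 ∨ s = i2 ∨ s = i3) →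
      (t = i0 ∨ t = i1 ∨ t = i2 ∨ t = i3) → b s t * dt (w s) (w t) ^ 2 = 1 := by
    intro s t hst hs ht
    rcases hs with hs | hs | hs | hs <;> rcases ht with ht | ht | ht | ht <;>
      rw [hs, ht] <;> rw [hs, ht] at hst
    · exact absurd rfl hst
    · exact e12
    · exact e13
    · exact e14
    · exact Jc_symm hb e12
    · exact absurd rfl hst
    · exact e23
    · exact e24
    · exact Jc_symm hb e13
    · exact Jc_symm hb e23
    · exact absurd rfl hst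
    · exact e34
    · exact Jc_symm hb e14
    · exact Jc_symm hb e24
    · exact Jc_symm hb e34
    · exact absurd rfl hst
  refine ⟨w, fun i j hij => ?_⟩
  by_cases hi : i = i0 ∨ i = i1 ∨ i = i2 ∨ i = i3
  · by_cases hj : j = i0 ∨ j = i1 ∨ j = i2 ∨ j = i3
    · exact hss i j hij hi hj
    · push Not at hj
      exact hso i j hi hj.1 hj.2.1 hj.2.2.1 hj.2.2.2
  · push Not at hi
    by_cases hj : j = i0 ∨ j = i1 ∨ j = i2 ∨ j = i3
    · exact Jc_symm hb (hso j i hj hi.1 hi.2.1 hi.2.2.1 hi.2.2.2)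
    · push Not at hj
      exact hoo i j hij hi.1 hi.2.1 hi.2.2.1 hi.2.2.2 hj.1 hj.2.1 hj.2.2.1 hj.2.2.2

end AMP
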