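import Pool.Agent.Lib.MP_b57e3c_ag_P.Defs
import Pool.Agent.Lib.MP_b57e3c_ag_M.Mex

set_option autoImplicit false

/-!
# Module Mk : the sequences to which the limit analysis applies

`siegel_small`: `Im (s i) ≥ y0 > 0` on the compact set `Sg` (if it is nonempty), `‖β i j‖ ≤ B` on
`K`. `τ` is symmetric. For real `x ≠ 0`: `∑_ij Im τ_ij x_i x_j ≥ y0 ∑ x_i² - ‖t‖ B ∑_{i,j} |x_i|
|x_j| ≥ (y0 - ‖t‖ B g) ∑ x_i² > 0` for `‖t‖ < y0 / (B g + 1)` (Cauchy-Schwarz).
`exists_sq`: `U` = any nonprincipal ultrafilter (`Filter.hyperfilter ℕ`, `≤ atTop`). By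
compactness `s n → σ ∈ Sg`, `β n → β0 ∈ K` along `U` (`IsCompact.ultrafilter_le_nhds`), and `t n
/ ‖t n‖ → e`, `‖e‖ = 1`. Put `r n = √‖t n‖`, `b i j = e * β0 i j / (2 π i)`, `ph = e / (2 π i)`.
`τ n i j / (2 π i r²) = (t n / ‖t n‖) β n i j / (2 π i) → b i j`. `M n` from `AMC.exists_M`.
-/

open Complex Filter Topology

namespace AMP

open AMC

variable {g m : ℕ} {Sg : Set (Fin g → ℂ)} {K : Set (Fin g → Fin g → ℂ)}

private theorem Mk_y0 (hS : IsCompact Sg) (hp : ∀ s ∈ Sg, ∀ i, 0 < (s i).im) :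
    ∃ y0 > 0, ∀ s ∈ Sg, ∀ i, y0 ≤ (s i).im := by
  have hc : ContinuousOn (fun s : Fin g → ℂ => ∑ i, ((s i).im)⁻¹) Sg := by
    refine continuousOn_finsetSum _ fun i _ => ContinuousOn.inv₀ ?_ fun s hs => (hp s hs i).ne'
    exact (Complex.continuous_im.comp (continuous_apply i)).continuousOn
  obtain ⟨C, hC⟩ := hS.exists_bound_of_continuousOn hc
  refine ⟨(|C| + 1)⁻¹, by positivity, fun s hs i => ?_⟩
  have h1 : ((s i).im)⁻¹ ≤ |C| + 1 := by
    have h2 : ((s i).im)⁻¹ ≤ ∑ i, ((s i).im)⁻¹ :=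
      Finset.single_le_sum (f := fun i => ((s i).im)⁻¹)
        (fun j _ => (inv_pos.2 (hp s hs j)).le) (Finset.mem_univ i)
    have h3 := (le_abs_self _).trans (hC s hs)
    have h4 := le_abs_self C
    linarith
  exact inv_le_of_inv_le₀ (hp s hs i) h1

theorem siegel_small (hS : IsCompact Sg) (hp : ∀ s ∈ Sg, ∀ i, 0 < (s i).im) (hK : IsCompact K)
    (hsym : ∀ β ∈ K, ∀ i j, β i j = β j i) : ∃ ε > 0, ∀ s ∈ Sg, ∀ β ∈ K, ∀ t : ℂ, ‖t‖ < ε →
      ∀ τ : Matrix (Fin g) (Fin g) ℂ, (∀ i, τ i i = s i) →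
        (∀ i j, i ≠ j → τ i j = t * β i j) → AM.Siegel τ := by
  obtain ⟨y0, hy0, hy⟩ := Mk_y0 hS hp
  obtain ⟨B, hB⟩ := hK.isBounded.exists_norm_le
  have hden : 0 < |B| * g + 1 := by positivity
  refine ⟨y0 / (|B| * g + 1), div_pos hy0 hden, fun s hs β hβ t ht τ hd ho => ?_⟩
  have hsymτ : ∀ i j, τ i j = τ j i := by
    intro i j
    by_cases hij : i = j
    · rw [hij]
    · rw [ho i j hij, ho j i (Ne.symm hij), hsym β hβ i j]
  have hβB : ∀ i j, ‖β i j‖ ≤ |B| := fun i j =>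
    ((norm_le_pi_norm (β i) j).trans (norm_le_pi_norm β i)).trans
      ((hB β hβ).trans (le_abs_self B))
  refine ⟨Matrix.IsSymm.ext fun i j => hsymτ j i, ?_⟩
  refine Matrix.PosDef.of_dotProduct_mulVec_pos ?_ ?_
  · ext i j
    simp only [Matrix.conjTranspose_apply, Matrix.map_apply, star_trivial]
    rw [hsymτ j i]
  · intro x hx
    have hx2 : 0 < ∑ i, x i ^ 2 := by
      obtain ⟨i, hi⟩ := Function.ne_iff.1 hx
      have hi' : 0 < x i ^ 2 := by
        have : x i ≠ 0 := hi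
        positivity
      exact hi'.trans_le (Finset.single_le_sum (f := fun i => x i ^ 2)
        (fun j _ => sq_nonneg _) (Finset.mem_univ i))
    have key : ∀ i j, (if i = j then y0 * x i ^ 2 else 0) - ‖t‖ * |B| / 2 * (x i ^ 2 + x j ^ 2) ≤
        x i * ((τ i j).im * x j) := by
      intro i j
      have hc0 : 0 ≤ ‖t‖ * |B| / 2 := by positivity
      by_cases hij : i = j
      · subst hij
        rw [if_pos rfl, hd i]
        have h1 := hy s hs i
        nlinarith [mul_le_mul_of_nonneg_right h1 (sq_nonneg (x i)),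
          mul_nonneg hc0 (sq_nonneg (x i))]
      · rw [if_neg hij, ho i j hij]
        have h1 : |(t * β i j).im| ≤ ‖t‖ * |B| := by
          refine (Complex.abs_im_le_norm _).trans ?_
          rw [norm_mul]
          exact mul_le_mul_of_nonneg_left (hβB i j) (norm_nonneg _)
        have h2 : |x i * ((t * β i j).im * x j)| ≤ ‖t‖ * |B| * (|x i| * |x j|) := by
          rw [abs_mul, abs_mul]
          calc |x i| * (|(t * β i j).im| * |x j|) = |(t * β i j).im| * (|x i| * |x j|) := by ring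
            _ ≤ _ := mul_le_mul_of_nonneg_right h1 (by positivity)
        have h3 : |x i| * |x j| ≤ (x i ^ 2 + x j ^ 2) / 2 := by
          nlinarith [sq_nonneg (|x i| - |x j|), sq_abs (x i), sq_abs (x j)]
        have h4 : ‖t‖ * |B| * (|x i| * |x j|) ≤ ‖t‖ * |B| * ((x i ^ 2 + x j ^ 2) / 2) :=
          mul_le_mul_of_nonneg_left h3 (by positivity)
        have h5 := neg_abs_le (x i * ((t * β i j).im * x j))
        linarith
    have hsum := Finset.sum_le_sum fun i (_ : i ∈ Finset.univ) =>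
      Finset.sum_le_sum fun j (_ : j ∈ (Finset.univ : Finset (Fin g))) => key i j
    have hL : ∑ i : Fin g, ∑ j : Fin g, ((if i = j then y0 * x i ^ 2 else 0) -
        ‖t‖ * |B| / 2 * (x i ^ 2 + x j ^ 2)) = (y0 - ‖t‖ * |B| * g) * ∑ i, x i ^ 2 := by
      simp only [Finset.sum_sub_distrib, Finset.sum_ite_eq, Finset.mem_univ, if_true,
        ← Finset.mul_sum, Finset.sum_add_distrib, Finset.sum_const, Finset.card_univ,
        Fintype.card_fin, nsmul_eq_mul]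
      ring
    have hR : star x ⬝ᵥ ((τ.map Complex.im).mulVec x) =
        ∑ i : Fin g, ∑ j : Fin g, x i * ((τ i j).im * x j) := by
      simp only [dotProduct, Matrix.mulVec, Pi.star_apply, star_trivial, Matrix.map_apply,
        Finset.mul_sum]
    rw [hR]
    refine lt_of_lt_of_le ?_ (hL ▸ hsum)
    refine mul_pos ?_ hx2
    have h6 : ‖t‖ * (|B| * g + 1) < y0 := (lt_div_iff₀ hden).1 ht
    nlinarith [norm_nonneg t]

private theorem Mk_sqrt (t : ℕ → ℂ) (n : ℕ) :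
    ((√‖t n‖ : ℝ) : ℂ) ^ 2 = ((‖t n‖ : ℝ) : ℂ) := by
  rw [← Complex.ofReal_pow, Real.sq_sqrt (norm_nonneg _)]

theorem exists_sq (hS : IsCompact Sg) (hp : ∀ s ∈ Sg, ∀ i, 0 < (s i).im) (hK : IsCompact K)
    (hsym : ∀ β ∈ K, ∀ i j, β i j = β j i) (hne : ∀ β ∈ K, ∀ i j, i ≠ j → β i j ≠ 0)
    (s : ℕ → Fin g → ℂ) (β : ℕ → Fin g → Fin g → ℂ) (t : ℕ → ℂ)
    (τ : ℕ → Matrix (Fin g) (Fin g) ℂ) (hs : ∀ n, s n ∈ Sg) (hβ : ∀ n, β n ∈ K)
    (ht0 : ∀ n, t n ≠ 0) (ht : Tendsto t atTop (𝓝 0)) (hd : ∀ n i, τ n i i = s n i)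
    (ho : ∀ n i j, i ≠ j → τ n i j = t n * β n i j) (hsi : ∀ n, AM.Siegel (τ n))
    (hD : ∀ n, AM.DimGE m (AM.singTheta (τ n))) :
    ∃ (C : Sq g m) (β0 : Fin g → Fin g → ℂ) (ph : ℂ), C.τ = τ ∧ β0 ∈ K ∧ ph ≠ 0 ∧
      (∀ i j, i ≠ j → C.b i j = ph * β0 i j) ∧
      ∀ i j, Tendsto (fun n => β n i j) (C.U : Filter ℕ) (𝓝 (β0 i j)) := by
  choose M hMc hMne hMmp hMs hM1 hM2 using fun n => exists_M (hsi n) (hD n)
  obtain ⟨σ, hσS, hσ⟩ := hS.ultrafilter_le_nhds ((Filter.hyperfilter ℕ).map s) (by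
    rw [Filter.le_principal_iff, Ultrafilter.mem_coe, Ultrafilter.mem_map]
    exact Filter.univ_mem' hs)
  obtain ⟨β0, hβK, hβ0⟩ := hK.ultrafilter_le_nhds ((Filter.hyperfilter ℕ).map β) (by
    rw [Filter.le_principal_iff, Ultrafilter.mem_coe, Ultrafilter.mem_map]
    exact Filter.univ_mem' hβ)
  have hsph : ∀ n, t n / ((‖t n‖ : ℝ) : ℂ) ∈ Metric.sphere (0 : ℂ) 1 := by
    intro n
    rw [mem_sphere_zero_iff_norm, norm_div, Complex.norm_real, norm_norm]
    exact div_self (norm_ne_zero_iff.2 (ht0 n))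
  obtain ⟨e, heS, he⟩ := (isCompact_sphere (0 : ℂ) 1).ultrafilter_le_nhds
    ((Filter.hyperfilter ℕ).map fun n => t n / ((‖t n‖ : ℝ) : ℂ)) (by
      rw [Filter.le_principal_iff, Ultrafilter.mem_coe, Ultrafilter.mem_map]
      exact Filter.univ_mem' hsph)
  have hσ' : Tendsto s (Filter.hyperfilter ℕ : Filter ℕ) (𝓝 σ) := hσ
  have hβ' : Tendsto β (Filter.hyperfilter ℕ : Filter ℕ) (𝓝 β0) := hβ0
  have he' : Tendsto (fun n => t n / ((‖t n‖ : ℝ) : ℂ)) (Filter.hyperfilter ℕ : Filter ℕ)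
    (𝓝 e) := he
  have he0 : e ≠ 0 := by
    intro h
    rw [mem_sphere_zero_iff_norm, h, norm_zero] at heS
    exact zero_ne_one heS
  have hβij : ∀ i j, Tendsto (fun n => β n i j) (Filter.hyperfilter ℕ : Filter ℕ)
      (𝓝 (β0 i j)) := fun i j => (tendsto_pi_nhds.1 ((tendsto_pi_nhds.1 hβ') i)) j
  have hpi : (2 * Real.pi * I : ℂ) ≠ 0 := Complex.two_pi_I_ne_zero
  have hph : e / (2 * Real.pi * I) ≠ 0 := div_ne_zero he0 hpi
  refine ⟨{
    U := Filter.hyperfilter ℕ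
    τ := τ
    r := fun n => √‖t n‖
    M := M
    σ := σ
    b := fun i j => e / (2 * Real.pi * I) * β0 i j
    siegel := hsi
    rpos := fun n => Real.sqrt_pos.2 (norm_pos_iff.2 (ht0 n))
    rlim := ?_
    spos := hp σ hσS
    diag := ?_
    off := ?_
    sym := ?_
    ne0 := ?_
    closed := hMc
    mp := hMmp
    sub := hMs
    ne := hMne
    inv1 := hM1
    inv2 := hM2 }, β0, e / (2 * Real.pi * I), rfl, hβK, hph, fun i j _ => rfl, hβij⟩
  · have h1 : Tendsto (fun n => √‖t n‖) atTop (𝓝 (√‖(0 : ℂ)‖)) :=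
      (Real.continuous_sqrt.tendsto _).comp ht.norm
    rw [norm_zero, Real.sqrt_zero] at h1
    exact h1.mono_left Nat.hyperfilter_le_atTop
  · intro i
    refine ((tendsto_pi_nhds.1 hσ') i).congr fun n => ?_
    rw [hd]
  · intro i j hij
    have h1 := (he'.div_const (2 * Real.pi * I)).mul (hβij i j)
    refine h1.congr fun n => ?_
    rw [ho n i j hij, Mk_sqrt]
    have h2 : ((‖t n‖ : ℝ) : ℂ) ≠ 0 := by
      rw [Complex.ofReal_ne_zero]
      exact norm_ne_zero_iff.2 (ht0 n)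
    field_simp
  · intro i j
    rw [hsym β0 hβK i j]
  · intro i j hij
    exact mul_ne_zero hph (hne β0 hβK i j hij)

end AMP
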