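import Pool.Agent.Lib.MP_b57e3c_ag_P.Fl

set_option autoImplicit false

/-!
# Module Qa : limits of the tangent quadrics

`cauchy2`: let `F = fun z => f z`, `f` entire, `‖f z‖ ≤ B` for `‖z - q‖ ≤ ρ` (supremum norm). For
`‖z - q‖ ≤ ρ/2` Cauchy's estimate in the direction `e_j` on the disc of radius `ρ/2` gives
`‖fderiv f z e_j‖ ≤ 2 B / ρ`; then again in the direction `e_i` at `q`: `≤ 4 B / ρ²`
(`Complex.norm_deriv_le_of_forall_mem_sphere_norm_le`, chain rule; the function `z ↦ fderiv f z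
e_j` is differentiable: `f` is analytic / `ContDiff`; `Differentiable.contDiff`, or
`AnalyticOnNhd`). `quad`: `N' n = N n S ∩ {w | w k = 1/2 for k ∉ S}`, closed. `wv = (v on S, 1/2
outside) ∈ UL U N'`: `Full` with `s = 1/2` (`half_mem`). By `UL_seq` there are `q n ∈ N' n`, `q n
→ wv`. Put `u n = sc r S (q n) ∈ singF`, `p n = c1 (τ n) + u n`, `κ n = r² * Ef τ (u n) / nrm τ r
S (q n)`, so `κ n * hes τ (p n) i j = r² * pf2 τ i j (u n) / nrm` (`pf2_eq`). (a) `i, j ∈ S`: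
`approx2` (all `κ`, `‖q n i‖` bounded, `half_mem`) and `Hs b S (q n) i j → Hs b S v i j`
(`mu_tendsto` with constant `b`). (b) otherwise: let `ρ0 ≤ 1` from `half_mem`, `ρ1 = ρ0/2`. For
most `n` and all `w` with `‖w - q n‖ ≤ ρ1`: by `Sq.approx` `‖ff τ (sc r S w)‖ ≤ (‖mu b S w‖ + 1)
‖nrm τ r S w‖ ≤ B r⁴` (`mu` is bounded on bounded sets: `mu_cont`; `dv (τ n i i)` converges,
`dv_cont`; `vt (τ n k k) u` is bounded for `‖u - 1/2‖ ≤ ρ0`, `vt_cont` and compactness — or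
choose the radius smaller, depending on `vt_cont` at `(σ k, 1/2)`). Also `‖nrm τ r S (q n)‖ ≥ c
r⁴`, `c > 0`: `nrm = r⁴ ∏ dv (τ n i i) ∏ vt (τ n k k) (1/2)`, the limits `dv (σ i)`, `vt (σ k)
(1/2)` are nonzero (`dv_ne`, `vt_zero_iff`). The second derivative of `w ↦ ff τ (sc r S w)` in
directions `i, j` is `r^(e_i + e_j) pf2 τ i j (sc r S w)`, `e_i = 1` if `i ∈ S` and `0`
otherwise; here `e_i + e_j ≤ 1`. With `cauchy2`: `‖r² pf2 τ i j (u n) / nrm‖ ≤ r^(2 - e_i - e_j)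
(4 B r⁴ / ρ1²) / (c r⁴) → 0`.
-/

open Complex Filter Topology

namespace AMP

open AMC

variable {g m : ℕ}

private theorem qa_single (i : Fin g) : ‖(Pi.single i (1 : ℂ) : Fin g → ℂ)‖ = 1 := by
  rw [Pi.norm_single, norm_one]

private theorem qa_line {f : (Fin g → ℂ) → ℂ} (hf : Differentiable ℂ f) (z v : Fin g → ℂ)
    (t : ℂ) : HasDerivAt (fun ζ : ℂ => f (z + ζ • v)) (fderiv ℂ f (z + t • v) v) t := by
  have h1 : HasDerivAt (fun ζ : ℂ => z + ζ • v) v t := by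
    simpa using ((hasDerivAt_id t).smul_const v).const_add z
  exact (hf _).hasFDerivAt.comp_hasDerivAt t h1

private theorem qa_diff {f : (Fin g → ℂ) → ℂ} (hf : Differentiable ℂ f) (z v : Fin g → ℂ) :
    Differentiable ℂ (fun ζ : ℂ => f (z + ζ • v)) :=
  fun t => (qa_line hf z v t).differentiableAt

/-- differences in the direction `e_i` -/
private theorem qa_step {f : (Fin g → ℂ) → ℂ} (hf : Differentiable ℂ f) {q : Fin g → ℂ}
    {B a : ℝ} (h : ∀ z, ‖z - q‖ ≤ 2 * a → ‖f z‖ ≤ B) (i : Fin g) {t : ℂ} (ht : ‖t‖ < a)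
    {z : Fin g → ℂ} (hz : ‖z - q‖ ≤ a) :
    ‖f (z + t • Pi.single i 1) - f z‖ ≤ B / (a - ‖t‖) * ‖t‖ := by
  have hpos : 0 < a - ‖t‖ := by linarith
  have h1 : ∀ ζ ∈ Metric.closedBall (0 : ℂ) ‖t‖,
      ‖deriv (fun ζ : ℂ => f (z + ζ • Pi.single i 1)) ζ‖ ≤ B / (a - ‖t‖) := by
    intro ζ hζ
    rw [mem_closedBall_zero_iff] at hζ
    refine Complex.norm_deriv_le_of_forall_mem_sphere_norm_le hpos
      (qa_diff hf z (Pi.single i 1)).diffContOnCl fun x hx => h _ ?_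
    rw [mem_sphere_iff_norm] at hx
    have h2 : z + x • (Pi.single i 1 : Fin g → ℂ) - q = (z - q) + x • Pi.single i 1 := by
      abel
    have h3 : ‖x‖ ≤ a := by
      have h4 := norm_add_le (x - ζ) ζ
      rw [sub_add_cancel, hx] at h4
      linarith
    calc ‖z + x • (Pi.single i 1 : Fin g → ℂ) - q‖
        ≤ ‖z - q‖ + ‖x • (Pi.single i 1 : Fin g → ℂ)‖ := by
          rw [h2]
          exact norm_add_le _ _
      _ ≤ a + a := by
          rw [norm_smul, qa_single, mul_one]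
          exact add_le_add hz h3
      _ = 2 * a := by ring
  have h5 := (convex_closedBall (0 : ℂ) ‖t‖).norm_image_sub_le_of_norm_deriv_le
    (f := fun ζ : ℂ => f (z + ζ • Pi.single i 1)) (x := 0) (y := t)
    (fun x _ => qa_diff hf z (Pi.single i 1) x) h1 (by simp) (by simp)
  simpa using h5

theorem cauchy2 {f : (Fin g → ℂ) → ℂ} (hf : Differentiable ℂ f) {q : Fin g → ℂ} {B ρ : ℝ}
    (hρ : 0 < ρ) (h : ∀ z, ‖z - q‖ ≤ ρ → ‖f z‖ ≤ B) (i j : Fin g) :
    ‖fderiv ℂ (fun z => fderiv ℂ f z (Pi.single j 1)) q (Pi.single i 1)‖ ≤ 4 * B / ρ ^ 2 := by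
  have hB : 0 ≤ B := (norm_nonneg _).trans (h q (by simpa using hρ.le))
  by_cases hG : DifferentiableAt ℂ (fun z => fderiv ℂ f z (Pi.single j 1)) q
  · obtain ⟨a, ha⟩ : ∃ a, a = ρ / 2 := ⟨_, rfl⟩
    have ha0 : 0 < a := by
      rw [ha]
      positivity
    have h' : ∀ z, ‖z - q‖ ≤ 2 * a → ‖f z‖ ≤ B := fun z hz => h z (by
      rw [ha] at hz
      linarith)
    have h1 : HasDerivAt (fun ζ : ℂ => (fun z => fderiv ℂ f z (Pi.single j 1))
        (q + ζ • (Pi.single i 1 : Fin g → ℂ)))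
        (fderiv ℂ (fun z => fderiv ℂ f z (Pi.single j 1)) q (Pi.single i 1)) 0 := by
      have h2 : HasDerivAt (fun ζ : ℂ => q + ζ • (Pi.single i 1 : Fin g → ℂ))
          (Pi.single i 1) 0 := by
        simpa using ((hasDerivAt_id (0 : ℂ)).smul_const
          (Pi.single i 1 : Fin g → ℂ)).const_add q
      have h3 : HasFDerivAt (fun z => fderiv ℂ f z (Pi.single j 1))
          (fderiv ℂ (fun z => fderiv ℂ f z (Pi.single j 1)) q)
          (q + (0 : ℂ) • (Pi.single i 1 : Fin g → ℂ)) := by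
        rw [zero_smul, add_zero]
        exact hG.hasFDerivAt
      exact h3.comp_hasDerivAt (0 : ℂ) h2
    have h4 := h1.tendsto_slope_zero.norm
    have h5 : Tendsto (fun t : ℂ => B / (a - ‖t‖) / a) (𝓝[≠] 0) (𝓝 (4 * B / ρ ^ 2)) := by
      have h6 : ContinuousAt (fun t : ℂ => B / (a - ‖t‖) / a) 0 := by
        refine ContinuousAt.div_const (ContinuousAt.div continuousAt_const (by fun_prop) ?_) _
        rw [norm_zero, sub_zero]
        exact ha0.ne'
      have h7 := h6.tendsto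
      have h8 : B / (a - ‖(0 : ℂ)‖) / a = 4 * B / ρ ^ 2 := by
        rw [norm_zero, sub_zero, ha]
        field_simp
        ring
      rw [h8] at h7
      exact h7.mono_left nhdsWithin_le_nhds
    refine le_of_tendsto_of_tendsto h4 h5 ?_
    have h9 : ∀ᶠ t : ℂ in 𝓝[≠] 0, ‖t‖ < a := by
      have h10 : ∀ᶠ t : ℂ in 𝓝 0, ‖t‖ < a := by
        have := (continuous_norm (E := ℂ)).continuousAt (x := 0)
        exact this.eventually_lt continuousAt_const (by simpa using ha0)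
      exact h10.filter_mono nhdsWithin_le_nhds
    filter_upwards [h9, self_mem_nhdsWithin] with t ht ht0
    have ht0' : t ≠ 0 := ht0
    have hk : HasDerivAt (fun η : ℂ => f (q + t • (Pi.single i 1 : Fin g → ℂ) +
        η • (Pi.single j 1 : Fin g → ℂ)) - f (q + η • (Pi.single j 1 : Fin g → ℂ)))
        (fderiv ℂ f (q + t • (Pi.single i 1 : Fin g → ℂ)) (Pi.single j 1) -
          fderiv ℂ f q (Pi.single j 1)) 0 := by
      have h11 := (qa_line hf (q + t • (Pi.single i 1 : Fin g → ℂ)) (Pi.single j 1) 0).sub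
        (qa_line hf q (Pi.single j 1) 0)
      simp only [zero_smul, add_zero] at h11
      exact h11
    have hk' : ‖fderiv ℂ f (q + t • (Pi.single i 1 : Fin g → ℂ)) (Pi.single j 1) -
          fderiv ℂ f q (Pi.single j 1)‖ ≤ B / (a - ‖t‖) * ‖t‖ / a := by
      rw [← hk.deriv]
      refine Complex.norm_deriv_le_of_forall_mem_sphere_norm_le ha0
        ((qa_diff hf _ _).sub (qa_diff hf _ _)).diffContOnCl fun η hη => ?_
      rw [mem_sphere_iff_norm, sub_zero] at hη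
      have h12 : q + t • (Pi.single i 1 : Fin g → ℂ) + η • (Pi.single j 1 : Fin g → ℂ) =
          (q + η • (Pi.single j 1 : Fin g → ℂ)) + t • (Pi.single i 1 : Fin g → ℂ) := by
        abel
      rw [h12]
      refine qa_step hf h' i ht ?_
      rw [add_sub_cancel_left, norm_smul, qa_single, mul_one, hη]
    have ht1 : 0 < ‖t‖ := norm_pos_iff.2 ht0'
    simp only [zero_add, zero_smul, add_zero, norm_smul, norm_inv]
    rw [inv_mul_le_iff₀ ht1]
    refine hk'.trans_eq ?_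
    ring
  · rw [fderiv_zero_of_not_differentiableAt hG]
    simp only [_root_.zero_apply, norm_zero]
    positivity

/-- a common radius for finitely many indices -/
private theorem qa_min {P : Fin g → ℝ → Prop}
    (h : ∀ k, ∃ δ > 0, ∀ δ', 0 < δ' → δ' ≤ δ → P k δ') : ∃ δ > 0, ∀ k, P k δ := by
  have h1 : ∀ᶠ δ : ℝ in 𝓝[>] 0, ∀ k, P k δ := by
    refine eventually_all.2 fun k => ?_
    obtain ⟨δ, hδ, h2⟩ := h k
    filter_upwards [Ioo_mem_nhdsGT hδ] with δ' h3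
    exact h2 δ' h3.1 h3.2.le
  obtain ⟨δ, h2, h3⟩ := (h1.and self_mem_nhdsWithin).exists
  exact ⟨δ, h3, h2⟩

/-- the elliptic theta functions near `1/2` -/
private theorem qa_vt (C : Sq g m) : ∃ ρ > 0, ∃ A : Fin g → ℝ, (∀ k, 0 < A k) ∧
    ∀ᶠ n in (C.U : Filter ℕ), ∀ k, ∀ u : ℂ, ‖u - 1 / 2‖ ≤ ρ →
      ‖vt (C.τ n k k) u‖ ≤ 2 * A k ∧ A k / 2 ≤ ‖vt (C.τ n k k) u‖ := by
  have hA : ∀ k, 0 < ‖vt (C.σ k) (1 / 2)‖ := by
    intro k
    rw [norm_pos_iff]
    intro h0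
    obtain ⟨a, b, hab⟩ := (vt_zero_iff (C.spos k) _).1 h0
    have h1 := congrArg Complex.im hab
    have h2 := congrArg Complex.re hab
    simp at h1 h2
    rcases h1 with h1 | h1
    · rw [h1] at h2
      simp at h2
      have h3 : ((2 * a : ℤ) : ℝ) = ((1 : ℤ) : ℝ) := by
        push_cast
        linarith
      have h4 := Int.cast_injective h3
      omega
    · exact absurd h1 (C.spos k).ne'
  obtain ⟨ρ, hρ, h⟩ := qa_min (P := fun k δ => ∀ᶠ n in (C.U : Filter ℕ), ∀ u : ℂ,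
    ‖u - 1 / 2‖ ≤ δ → ‖vt (C.τ n k k) u‖ ≤ 2 * ‖vt (C.σ k) (1 / 2)‖ ∧
      ‖vt (C.σ k) (1 / 2)‖ / 2 ≤ ‖vt (C.τ n k k) u‖) (by
    intro k
    obtain ⟨δ, hδ, h1⟩ := Metric.continuousAt_iff.1 (vt_cont (u0 := 1 / 2) (C.spos k)) _
      (half_pos (hA k))
    refine ⟨δ / 2, half_pos hδ, fun δ' _ h2 => ?_⟩
    have h3 : ∀ᶠ n in (C.U : Filter ℕ), dist (C.τ n k k) (C.σ k) < δ :=
      (C.diag k).eventually (Metric.ball_mem_nhds _ hδ)
    filter_upwards [h3] with n h3 u hu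
    have h4 : dist (C.τ n k k, u) (C.σ k, (1 / 2 : ℂ)) < δ := by
      rw [Prod.dist_eq]
      refine max_lt h3 ?_
      rw [dist_eq_norm]
      linarith
    have h5 := h1 h4
    rw [dist_eq_norm] at h5
    have h6 := norm_sub_norm_le (vt (C.τ n k k) u) (vt (C.σ k) (1 / 2))
    have h7 := norm_sub_norm_le (vt (C.σ k) (1 / 2)) (vt (C.τ n k k) u)
    rw [norm_sub_rev] at h7
    have h8 := hA k
    constructor
    · linarith
    · linarith)
  exact ⟨ρ, hρ, fun k => ‖vt (C.σ k) (1 / 2)‖, hA, eventually_all.2 h⟩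

/-- comparison of the normalising factors at two points -/
private theorem qa_pt {τ : Matrix (Fin g) (Fin g) ℂ} (hτ : AM.Siegel τ) {r : ℝ} (hr : 0 < r)
    {S : Finset (Fin g)} {A : Fin g → ℝ} (hA : ∀ k, 0 < A k) {w q : Fin g → ℂ}
    (h1 : ∀ k, k ∉ S → ‖vt (τ k k) (w k)‖ ≤ 2 * A k ∧ A k / 2 ≤ ‖vt (τ k k) (w k)‖)
    (h2 : ∀ k, k ∉ S → ‖vt (τ k k) (q k)‖ ≤ 2 * A k ∧ A k / 2 ≤ ‖vt (τ k k) (q k)‖)
    {X : ℂ} {K : ℝ} (hK : ‖X / nrm τ r S w‖ ≤ K) :
    ‖(nrm τ r S q)⁻¹ * X‖ ≤ K * 4 ^ Sᶜ.card := by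
  have hK0 : 0 ≤ K := (norm_nonneg _).trans hK
  obtain ⟨c, hc⟩ : ∃ c, c = (r : ℂ) ^ S.card * ∏ i ∈ S, dv (τ i i) := ⟨_, rfl⟩
  have hc0 : c ≠ 0 := by
    rw [hc]
    refine mul_ne_zero (pow_ne_zero _ ?_) (Finset.prod_ne_zero_iff.2 fun i _ => ?_)
    · exact_mod_cast hr.ne'
    · exact dv_ne (siegel_diag hτ i)
  have hn : ∀ w : Fin g → ℂ, (∀ k, k ∉ S → A k / 2 ≤ ‖vt (τ k k) (w k)‖) →
      nrm τ r S w ≠ 0 := by
    intro w hw
    rw [nrm, ← hc]
    refine mul_ne_zero hc0 (Finset.prod_ne_zero_iff.2 fun k hk => ?_)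
    have h3 := hw k (Finset.mem_compl.1 hk)
    have h4 := hA k
    rw [← norm_pos_iff]
    linarith
  have hw0 := hn w fun k hk => (h1 k hk).2
  have hq0 := hn q fun k hk => (h2 k hk).2
  have h5 : ‖X‖ ≤ K * ‖nrm τ r S w‖ := by
    rw [norm_div, div_le_iff₀ (norm_pos_iff.2 hw0)] at hK
    exact hK
  have h6 : ‖nrm τ r S w‖ ≤ 4 ^ Sᶜ.card * ‖nrm τ r S q‖ := by
    have h7 : ∏ k ∈ Sᶜ, ‖vt (τ k k) (w k)‖ ≤ ∏ k ∈ Sᶜ, (4 * ‖vt (τ k k) (q k)‖) := by
      refine Finset.prod_le_prod (fun k _ => norm_nonneg _) fun k hk => ?_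
      have h8 := (h1 k (Finset.mem_compl.1 hk)).1
      have h9 := (h2 k (Finset.mem_compl.1 hk)).2
      linarith
    rw [Finset.prod_mul_distrib, Finset.prod_const] at h7
    rw [nrm, nrm, ← hc, norm_mul, norm_mul, norm_prod, norm_prod]
    calc ‖c‖ * ∏ k ∈ Sᶜ, ‖vt (τ k k) (w k)‖
        ≤ ‖c‖ * (4 ^ Sᶜ.card * ∏ k ∈ Sᶜ, ‖vt (τ k k) (q k)‖) :=
          mul_le_mul_of_nonneg_left h7 (norm_nonneg _)
      _ = _ := by ring
  rw [norm_mul, norm_inv, inv_mul_le_iff₀ (norm_pos_iff.2 hq0)]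
  calc ‖X‖ ≤ K * ‖nrm τ r S w‖ := h5
    _ ≤ K * (4 ^ Sᶜ.card * ‖nrm τ r S q‖) := mul_le_mul_of_nonneg_left h6 hK0
    _ = ‖nrm τ r S q‖ * (K * 4 ^ Sᶜ.card) := by ring

/-- the scaling as a linear map -/
private noncomputable def qaL (r : ℝ) (S : Finset (Fin g)) :
    (Fin g → ℂ) →L[ℂ] (Fin g → ℂ) :=
  ContinuousLinearMap.pi fun i => (if i ∈ S then (r : ℂ) else 1) • ContinuousLinearMap.proj i

private theorem qaL_apply (r : ℝ) (S : Finset (Fin g)) (w : Fin g → ℂ) :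
    qaL r S w = sc r S w := by
  funext i
  by_cases hi : i ∈ S
  · simp [qaL, sc, hi]
  · simp [qaL, sc, hi]

private theorem qaL_single (r : ℝ) (S : Finset (Fin g)) (j : Fin g) :
    qaL r S (Pi.single j 1) = (if j ∈ S then (r : ℂ) else 1) • (Pi.single j 1 : Fin g → ℂ) := by
  rw [qaL_apply]
  funext i
  by_cases hij : i = j
  · subst hij
    by_cases hi : i ∈ S
    · simp [sc, hi]
    · simp [sc, hi]
  · by_cases hi : i ∈ S
    · simp [sc, hi, Pi.single_eq_of_ne hij]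
    · simp [sc, hi, Pi.single_eq_of_ne hij]

private theorem qa_fd {F : (Fin g → ℂ) → ℂ} (hF : Differentiable ℂ F) (a : ℂ) (r : ℝ)
    (S : Finset (Fin g)) (z : Fin g → ℂ) (j : Fin g) :
    fderiv ℂ (fun z => a * F (sc r S z)) z (Pi.single j 1) =
      a * ((if j ∈ S then (r : ℂ) else 1) * fderiv ℂ F (sc r S z) (Pi.single j 1)) := by
  have h1 : HasFDerivAt (fun z => F (qaL r S z))
      ((fderiv ℂ F (qaL r S z)).comp (qaL r S)) z :=
    (hF _).hasFDerivAt.comp z (qaL r S).hasFDerivAt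
  have h2 := h1.const_mul a
  simp only [qaL_apply] at h2
  rw [h2.fderiv]
  show a • (fderiv ℂ F (sc r S z)) (qaL r S (Pi.single j 1)) = _
  rw [qaL_single, map_smul, smul_eq_mul, smul_eq_mul]

private theorem qa_dd {F : (Fin g → ℂ) → ℂ} (hF : Differentiable ℂ F) (a : ℂ) (r : ℝ)
    (S : Finset (Fin g)) : Differentiable ℂ (fun z => a * F (sc r S z)) := by
  have h1 : Differentiable ℂ (fun z => F (qaL r S z)) := hF.comp (qaL r S).differentiable
  simp only [qaL_apply] at h1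
  exact h1.const_mul a

/-- the estimate of the second derivatives -/
private theorem qa_est {τ : Matrix (Fin g) (Fin g) ℂ} (hτ : AM.Siegel τ) {r : ℝ} (hr : 0 < r)
    (hr1 : r ≤ 1) {S : Finset (Fin g)} {q : Fin g → ℂ} {B ρ : ℝ} (hρ : 0 < ρ)
    (h : ∀ z, ‖z - q‖ ≤ ρ → ‖(nrm τ r S q)⁻¹ * ff τ (sc r S z)‖ ≤ B) {i j : Fin g}
    (hij : ¬ (i ∈ S ∧ j ∈ S)) :
    ‖(r : ℂ) ^ 2 * pf2 τ i j (sc r S q) / nrm τ r S q‖ ≤ r * (4 * B / ρ ^ 2) := by
  have h1 := cauchy2 (qa_dd (ff_diff hτ) (nrm τ r S q)⁻¹ r S) hρ h i j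
  simp only [qa_fd (ff_diff hτ)] at h1
  have h2 : (fun z => (nrm τ r S q)⁻¹ * ((if j ∈ S then (r : ℂ) else 1) *
      fderiv ℂ (ff τ) (sc r S z) (Pi.single j 1))) =
      fun z => ((nrm τ r S q)⁻¹ * (if j ∈ S then (r : ℂ) else 1)) * pf τ j (sc r S z) := by
    funext z
    rw [mul_assoc]
    rfl
  rw [h2, qa_fd (pf_diff hτ j)] at h1
  have h3 : fderiv ℂ (pf τ j) (sc r S q) (Pi.single i 1) = pf2 τ i j (sc r S q) := rfl
  rw [h3] at h1
  have hrn : ‖(r : ℂ)‖ = r := by rw [Complex.norm_real, Real.norm_eq_abs, abs_of_pos hr]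
  have hB : 0 ≤ 4 * B / ρ ^ 2 := (norm_nonneg _).trans h1
  have key : ∀ Y : ℂ, ‖Y‖ ≤ 4 * B / ρ ^ 2 → (r : ℂ) ^ 2 * pf2 τ i j (sc r S q) / nrm τ r S q =
      (r : ℂ) * Y → ‖(r : ℂ) ^ 2 * pf2 τ i j (sc r S q) / nrm τ r S q‖ ≤
        r * (4 * B / ρ ^ 2) := by
    intro Y hY h4
    rw [h4, norm_mul, hrn]
    exact mul_le_mul_of_nonneg_left hY hr.le
  by_cases hi : i ∈ S
  · have hj : j ∉ S := fun hj => hij ⟨hi, hj⟩
    rw [if_pos hi, if_neg hj] at h1
    refine key _ h1 ?_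
    ring
  · by_cases hj : j ∈ S
    · rw [if_neg hi, if_pos hj] at h1
      refine key _ h1 ?_
      ring
    · rw [if_neg hi, if_neg hj] at h1
      refine key ((r : ℂ) * ((nrm τ r S q)⁻¹ * 1 * (1 * pf2 τ i j (sc r S q)))) ?_ ?_
      · rw [norm_mul, hrn]
        calc r * _ ≤ 1 * (4 * B / ρ ^ 2) := mul_le_mul hr1 h1 (norm_nonneg _) zero_le_one
          _ = _ := one_mul _
      · ring

theorem Sq.Full.quad {C : Sq g m} {S : Finset (Fin g)} {v : Fin g → ℂ} (h : C.Full S v) :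
    ∃ (p : ℕ → Fin g → ℂ) (κ : ℕ → ℂ), (∀ᶠ n in (C.U : Filter ℕ), p n ∈ AM.singTheta (C.τ n)) ∧
      ∀ i j, Tendsto (fun n => κ n * hes (C.τ n) (p n) i j) (C.U : Filter ℕ)
        (𝓝 (if i ∈ S ∧ j ∈ S then Hs C.b S v i j else 0)) := by
  classical
  obtain ⟨ρ0, hρ0, hhalf⟩ := C.half_mem
  obtain ⟨ρ2, hρ2, A, hA, hvt⟩ := qa_vt C
  have hnorm2 : ‖(1 / 2 : ℂ) - 1 / 2‖ = 0 := by rw [sub_self, norm_zero]
  obtain ⟨wv, hwv1, hwv2⟩ : ∃ wv : Fin g → ℂ, (∀ i ∈ S, wv i = v i) ∧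
      ∀ k, k ∉ S → wv k = 1 / 2 :=
    ⟨fun i => if i ∈ S then v i else 1 / 2, fun i hi => if_pos hi, fun k hk => if_neg hk⟩
  have hcl : ∀ n, IsClosed (C.N n S ∩ {w | ∀ k, k ∉ S → w k = 1 / 2}) := by
    intro n
    refine (C.N_closed n S).inter ?_
    simp only [Set.ofPred_forall]
    exact isClosed_iInter fun k => isClosed_iInter fun _ =>
      isClosed_eq (continuous_apply k) continuous_const
  have hUL : wv ∈ UL C.U (fun n => C.N n S ∩ {w | ∀ k, k ∉ S → w k = 1 / 2}) := by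
    intro δ hδ
    obtain ⟨R, hR, h1⟩ := h δ hδ
    filter_upwards [h1, hhalf R] with n h1 h2
    obtain ⟨w, hw, hw1, hw2⟩ := h1 (fun _ => 1 / 2)
      (fun k => h2 k (1 / 2) (by rw [hnorm2]; exact hρ0.le))
    refine ⟨w, ⟨hw, fun k hk => hw2 k hk⟩, fun k => ?_⟩
    by_cases hk : k ∈ S
    · rw [hwv1 k hk]
      exact hw1 k hk
    · rw [hwv2 k hk, hw2 k hk, hnorm2]
      exact hδ
  obtain ⟨q, hq, hlim⟩ := UL_seq (Eventually.of_forall hcl) hUL
  refine ⟨fun n => c1 (C.τ n) + sc (C.r n) S (q n), fun n => (C.r n : ℂ) ^ 2 *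
    Ef (C.τ n) (sc (C.r n) S (q n)) / nrm (C.τ n) (C.r n) S (q n), ?_, fun i j => ?_⟩
  · filter_upwards [hq] with n hn
    exact C.sub n hn.1
  · have hX : (fun n => (C.r n : ℂ) ^ 2 * pf2 (C.τ n) i j (sc (C.r n) S (q n)) /
        nrm (C.τ n) (C.r n) S (q n)) =ᶠ[(C.U : Filter ℕ)] (fun n => (C.r n : ℂ) ^ 2 *
        Ef (C.τ n) (sc (C.r n) S (q n)) / nrm (C.τ n) (C.r n) S (q n) *
        hes (C.τ n) (c1 (C.τ n) + sc (C.r n) S (q n)) i j) := by
      filter_upwards [hq] with n hn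
      rw [pf2_eq (C.siegel n) (C.N_sub hn.1)]
      ring
    refine Tendsto.congr' hX ?_
    obtain ⟨L, hL0, hL⟩ : ∃ L : ℝ, 0 ≤ L ∧ ∀ᶠ n in (C.U : Filter ℕ), ∀ k, ‖q n k‖ ≤ L := by
      refine ⟨‖wv‖ + 1, by positivity, eventually_all.2 fun k => ?_⟩
      have h1 : ∀ᶠ n in (C.U : Filter ℕ), ‖q n k‖ < ‖wv k‖ + 1 :=
        (hlim k).norm.eventually_lt_const (lt_add_one _)
      filter_upwards [h1] with n h1
      have h2 := norm_le_pi_norm wv k
      linarith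
    by_cases hij : i ∈ S ∧ j ∈ S
    · rw [if_pos hij]
      have h1 : Tendsto (fun n => Hs C.b S (q n) i j) (C.U : Filter ℕ)
          (𝓝 (Hs C.b S v i j)) := by
        unfold Hs
        by_cases hij' : i = j
        · simp only [if_pos hij']
          exact tendsto_const_nhds
        · simp only [if_neg hij']
          refine mu_tendsto (fun a b _ => tendsto_const_nhds) fun k hk => ?_
          have hk' : k ∈ S := Finset.mem_of_mem_erase (Finset.mem_of_mem_erase hk)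
          rw [← hwv1 k hk']
          exact hlim k
      have h2 : Tendsto (fun n => (C.r n : ℂ) ^ 2 * pf2 (C.τ n) i j (sc (C.r n) S (q n)) /
          nrm (C.τ n) (C.r n) S (q n) - Hs C.b S (q n) i j) (C.U : Filter ℕ) (𝓝 0) := by
        rw [Metric.tendsto_nhds]
        intro ε hε
        obtain ⟨R, hR, h3⟩ := C.approx2 S hL0 (half_pos hε)
        filter_upwards [h3, hL, hhalf R, hq] with n h3 h4 h5 h6
        have h7 := h3 (q n) (fun i _ => h4 i) (fun k hk => by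
          obtain ⟨h8, h9⟩ := h5 k (q n k) (by rw [h6.2 k hk, hnorm2]; exact hρ0.le)
          exact ⟨⟨h8.1.le, h8.2.le⟩, h9.le⟩) i hij.1 j hij.2
        rw [dist_zero_right]
        linarith
      have h3 := h2.add h1
      simpa using h3
    · rw [if_neg hij]
      obtain ⟨M, hM⟩ := (isCompact_closedBall (0 : Fin g → ℂ) (L + 1)).exists_bound_of_continuousOn
        (mu_cont C.b S).continuousOn
      obtain ⟨ρ1, hρ1, hρ10, hρ11, hρ12⟩ : ∃ ρ1 > 0, ρ1 ≤ ρ0 ∧ ρ1 ≤ 1 ∧ ρ1 ≤ ρ2 :=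
        ⟨min ρ0 (min 1 ρ2), lt_min hρ0 (lt_min one_pos hρ2), min_le_left _ _,
          (min_le_right _ _).trans (min_le_left _ _), (min_le_right _ _).trans (min_le_right _ _)⟩
      obtain ⟨R, hR, happ⟩ := C.approx S (ρ := L + 1) (by linarith) one_pos
      have h1 : ∀ᶠ n in (C.U : Filter ℕ), ‖(C.r n : ℂ) ^ 2 *
          pf2 (C.τ n) i j (sc (C.r n) S (q n)) / nrm (C.τ n) (C.r n) S (q n)‖ ≤
          C.r n * (4 * ((M + 1) * 4 ^ Sᶜ.card) / ρ1 ^ 2) := by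
        have h2 : ∀ᶠ n in (C.U : Filter ℕ), C.r n < 1 :=
          C.rlim.eventually_lt_const one_pos
        filter_upwards [h2, happ, hL, hhalf R, hq, hvt] with n h2 h3 h4 h5 h6 h7
        refine qa_est (C.siegel n) (C.rpos n) h2.le hρ1 (fun w hw => ?_) hij
        have hwk : ∀ k, ‖w k - q n k‖ ≤ ρ1 := fun k => (norm_le_pi_norm (w - q n) k).trans hw
        have hwL : ∀ k, ‖w k‖ ≤ L + 1 := by
          intro k
          have h8 := norm_add_le (w k - q n k) (q n k)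
          rw [sub_add_cancel] at h8
          linarith [hwk k, h4 k]
        have hw2 : ∀ k, k ∉ S → ‖w k - 1 / 2‖ ≤ ρ1 := by
          intro k hk
          rw [← h6.2 k hk]
          exact hwk k
        refine qa_pt (C.siegel n) (C.rpos n) hA (w := w)
          (fun k hk => h7 k (w k) ((hw2 k hk).trans hρ12))
          (fun k hk => h7 k (q n k) (by rw [h6.2 k hk, hnorm2]; exact hρ2.le)) ?_
        have h8 := h3 w (fun i _ => hwL i) (fun k hk => by
          obtain ⟨h9, h10⟩ := h5 k (w k) ((hw2 k hk).trans hρ10)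
          exact ⟨⟨h9.1.le, h9.2.le⟩, h10.le⟩)
        have h9 : ‖mu C.b S w‖ ≤ M := hM w (by
          rw [mem_closedBall_zero_iff, pi_norm_le_iff_of_nonneg (by linarith)]
          exact hwL)
        have h10 := norm_add_le (ff (C.τ n) (sc (C.r n) S w) / nrm (C.τ n) (C.r n) S w -
          mu C.b S w) (mu C.b S w)
        rw [sub_add_cancel] at h10
        linarith
      have h2 : Tendsto (fun n => C.r n * (4 * ((M + 1) * 4 ^ Sᶜ.card) / ρ1 ^ 2))
          (C.U : Filter ℕ) (𝓝 0) := by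
        have h3 := C.rlim.mul_const (4 * ((M + 1) * 4 ^ Sᶜ.card) / ρ1 ^ 2)
        rwa [zero_mul] at h3
      exact squeeze_zero_norm' h1 h2

end AMP
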