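import Pool.Agent.Lib.MP_b57e3c_ag_P.Defs

set_option autoImplicit false

/-!
# Module Qb : dimension of a span, in the limit

Let `P` be the type of the pairs `(k, l)` with `2 ≤ k < l < g`. For `a = (k,l) ∈
P` let `S_a = {0,1,k,l}` and take `h_a, κ_a, L_a` from the hypothesis. For `c = (k',l') ∈ P`:
`κ_a n * h_a n k' l' → L_a k' l' ≠ 0` if `c = a`, `→ 0` if `c ≠ a` (then `k' ∉ S_a` or `l' ∉
S_a`: `k', l' ≥ 2`, and `{k',l'} ⊆ {k,l}` would give `c = a` as `k' < l'`). So the determinant of
the `P × P` matrix `G n a c = κ_a n * h_a n c.1 c.2` tends to `∏_a L_a k l ≠ 0` (`continuous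
det`), hence is nonzero for most `n`; its rows are linearly independent, so the matrices `κ_a n •
h_a n` are (their images under the linear map `h ↦ (c ↦ h c.1 c.2)` are), and they lie in the
span.
-/

open Complex Filter Topology

namespace AMP

/-- The index type of the pairs. -/
private abbrev QbP (g : ℕ) := Σ l : Fin (g - 2), Fin l.val

private theorem qbP_card (g : ℕ) : Fintype.card (QbP g) = (g - 2) * (g - 3) / 2 := by
  rw [Fintype.card_sigma]
  simp only [Fintype.card_fin]
  rw [Fin.sum_univ_eq_sum_range (fun i => i) (g - 2), Finset.sum_range_id]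
  rfl

private def qbK {g : ℕ} (a : QbP g) : Fin g := ⟨a.2.val + 2, by
  have h1 := a.2.isLt
  have h2 := a.1.isLt
  omega⟩

private def qbL {g : ℕ} (a : QbP g) : Fin g := ⟨a.1.val + 2, by
  have h2 := a.1.isLt
  omega⟩

theorem span_large {g : ℕ} (hg : 4 ≤ g) {U : Ultrafilter ℕ}
    (X : ℕ → Set (Matrix (Fin g) (Fin g) ℂ))
    (H : ∀ S : Finset (Fin g), S.card = 4 → ∃ (h : ℕ → Matrix (Fin g) (Fin g) ℂ) (κ : ℕ → ℂ)
      (L : Fin g → Fin g → ℂ), (∀ᶠ n in (U : Filter ℕ), h n ∈ X n) ∧
      (∀ i j, Tendsto (fun n => κ n * h n i j) (U : Filter ℕ)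
        (𝓝 (if i ∈ S ∧ j ∈ S then L i j else 0))) ∧
      ∀ i ∈ S, ∀ j ∈ S, i ≠ j → L i j ≠ 0) :
    ∀ᶠ n in (U : Filter ℕ),
      (g - 2) * (g - 3) / 2 ≤ Module.finrank ℂ (Submodule.span ℂ (X n)) := by
  classical
  let o0 : Fin g := ⟨0, by omega⟩
  let o1 : Fin g := ⟨1, by omega⟩
  let S : QbP g → Finset (Fin g) := fun a => {o0, o1, qbK a, qbL a}
  have hS : ∀ a, (S a).card = 4 := by
    intro a
    have h1 : o0 ≠ o1 := by simp [o0, o1]
    have h2 : o0 ≠ qbK a := by simp [o0, qbK, Fin.ext_iff]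
    have h3 : o0 ≠ qbL a := by simp [o0, qbL, Fin.ext_iff]
    have h4 : o1 ≠ qbK a := by simp [o1, qbK, Fin.ext_iff]
    have h5 : o1 ≠ qbL a := by simp [o1, qbL, Fin.ext_iff]
    have h6 : qbK a ≠ qbL a := by
      have := a.2.isLt
      simp only [qbK, qbL, ne_eq, Fin.ext_iff]
      omega
    rw [Finset.card_eq_succ]
    refine ⟨o0, {o1, qbK a, qbL a}, ?_, rfl, ?_⟩
    · simp [h1, h2, h3]
    · rw [Finset.card_eq_three]
      exact ⟨o1, qbK a, qbL a, h4, h5, h6, rfl⟩
  choose h κ L hX hT hL using fun a : QbP g => H (S a) (hS a)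
  let M : ℕ → Matrix (QbP g) (QbP g) ℂ := fun n =>
    Matrix.of fun a c => κ a n * h a n (qbK c) (qbL c)
  have hM : Tendsto M (U : Filter ℕ) (𝓝 (Matrix.diagonal fun a => L a (qbK a) (qbL a))) := by
    refine tendsto_pi_nhds.2 fun a => tendsto_pi_nhds.2 fun c => ?_
    have h0 := hT a (qbK c) (qbL c)
    suffices h1 : (Matrix.diagonal fun a => L a (qbK a) (qbL a)) a c =
        if qbK c ∈ S a ∧ qbL c ∈ S a then L a (qbK c) (qbL c) else 0 by
      change Tendsto (fun n => κ a n * h a n (qbK c) (qbL c)) _ _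
      rw [h1]
      exact h0
    rw [Matrix.diagonal_apply]
    by_cases hac : a = c
    · subst hac
      simp [S]
    · rw [if_neg hac, if_neg]
      rintro ⟨h1, h2⟩
      apply hac
      simp only [S, o0, o1, qbK, qbL, Finset.mem_insert, Finset.mem_singleton, Fin.ext_iff]
        at h1 h2
      have h3 := a.2.isLt
      have h4 := c.2.isLt
      obtain ⟨a1, a2⟩ := a
      obtain ⟨c1, c2⟩ := c
      simp only at h1 h2 h3 h4
      have e1 : a1 = c1 := by
        rw [Fin.ext_iff]
        omega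
      subst e1
      have e2 : a2 = c2 := by
        rw [Fin.ext_iff]
        omega
      rw [e2]
  have hdet : Tendsto (fun n => (M n).det) (U : Filter ℕ)
      (𝓝 (∏ a, L a (qbK a) (qbL a))) := by
    have h1 : Continuous fun A : Matrix (QbP g) (QbP g) ℂ => A.det :=
      Continuous.matrix_det continuous_id
    have := (h1.tendsto _).comp hM
    rw [Matrix.det_diagonal] at this
    exact this
  have hne : (∏ a, L a (qbK a) (qbL a)) ≠ 0 := by
    refine Finset.prod_ne_zero_iff.2 fun a _ => hL a _ ?_ _ ?_ ?_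
    · simp [S]
    · simp [S]
    · have := a.2.isLt
      simp only [qbK, qbL, ne_eq, Fin.ext_iff]
      omega
  filter_upwards [hdet.eventually_ne hne, eventually_all.2 hX] with n hn hx
  have hrow : LinearIndependent ℂ (fun a c => M n a c) :=
    Matrix.linearIndependent_rows_of_det_ne_zero hn
  let φ : Matrix (Fin g) (Fin g) ℂ →ₗ[ℂ] (QbP g → ℂ) :=
    { toFun := fun A c => A (qbK c) (qbL c)
      map_add' := fun A B => by ext c; rfl
      map_smul' := fun r A => by ext c; rfl }
  let v : QbP g → Submodule.span ℂ (X n) := fun a =>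
    ⟨κ a n • h a n, Submodule.smul_mem _ _ (Submodule.subset_span (hx a))⟩
  have hv : LinearIndependent ℂ v := by
    apply LinearIndependent.of_comp (φ.comp (Submodule.subtype _))
    convert hrow using 1
    funext a c
    simp [φ, v, M]
  have := hv.fintype_card_le_finrank
  rwa [qbP_card] at this

end AMP
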