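import Pool.Agent.Lib.MP_b57e3c_ag_P.Tl
import Pool.Agent.Lib.MP_b57e3c_ag_M.Tcn
import Pool.Agent.Lib.MP_b57e3c_ag_M.Qp

set_option autoImplicit false

/-!
# Module Tn : the theta constants of a set with the limit point at the origin

There are finitely many `(ε, δ)` (`eventually_all`); fix one with the two properties. Let
`a n = cen (τ n) ε δ - c1 (τ n)`, so `a i = - ((∑_j τ_ij (1 - ε_j)) + (1 - δ_i)) / 2`.
For `k ∉ S`: `a n k → a0 = - (σ_k (1 - ε_k) + (1 - δ_k)) / 2` (off-diagonal entries tend to `0`),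
which is in `Go (σ k)` (`xx = - (1 - δ_k)/2`, `yy = - (1 - ε_k)/2`, `xx_yy_eq`) and nonzero (`ε_k
= 0` or `δ_k = 0`). So `a n k ∈ Go (τ n k k)` and `R r n < ‖a n k‖` for most `n`
(`eventually_Go`), every `R`. For `i ∈ S`: `ε_i = δ_i = 1`, `a n i = - (∑_{j ≠ i} τ_ij (1 -
ε_j))/2 = O(r²)`, `a n i / r n → 0`. Take `δ₁` from `Near.tube`, then `R` for `δ = δ₁/2`. For
most `n` let `s` be the restriction of `a n` to the complement of `S`, in `Dn n S R`, and `w ∈ N
n S` the point of the tube over `s`, `‖w i‖ < δ₁/2` for `i ∈ S` (`v i = 0`). Let `w' i = 2 a n i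
/ r n - w i` for `i ∈ S`, `w' k = a n k` for `k ∉ S`. Then `sc r S w' = 2 a n - sc r S w`, so `c1
+ sc r S w' = 2 cen - (c1 + sc r S w)` is in `singTheta` (`sing_reflect` with `n = 0`; `C.sub`),
`sc r S w' ∈ singF` (`mem_singF`), `‖w' i‖ ≤ ‖2 a n i / r n‖ + ‖w i‖ < δ₁` for most `n`. By
uniqueness `w' = w`, i.e. `r w i = a n i`, so `c1 + sc r S w = cen (τ n) ε δ` is in `singTheta`,
and `thetaConst_zero` applies.
-/

open Complex Filter Topology

namespace AMP

open AMC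

variable {g m : ℕ}

/-- the theta constants with characteristic `(1,1)` exactly at the indices in `S` vanish -/
def NullAt {g : ℕ} (τ : Matrix (Fin g) (Fin g) ℂ) (S : Finset (Fin g)) : Prop :=
  ∀ ε δ : Fin g → Fin 2, (∀ i ∈ S, ε i = 1 ∧ δ i = 1) → (∀ i, i ∉ S → ε i = 0 ∨ δ i = 0) →
    AM.thetaConst τ ε δ = 0

/-- off-diagonal entries, divided by `r`, tend to zero -/
private theorem tn_offr (C : Sq g m) {i j : Fin g} (hij : i ≠ j) :
    Tendsto (fun n => C.τ n i j / (C.r n : ℂ)) C.U (𝓝 0) := by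
  have h1 := C.off i j hij
  have h2 : Tendsto (fun n => 2 * Real.pi * I * (C.r n : ℂ)) C.U (𝓝 0) := by
    have h3 : Tendsto (fun n => (C.r n : ℂ)) C.U (𝓝 ((0 : ℝ) : ℂ)) :=
      (Complex.continuous_ofReal.tendsto 0).comp C.rlim
    have h4 := h3.const_mul (2 * Real.pi * I)
    rwa [Complex.ofReal_zero, mul_zero] at h4
  have h5 := h1.mul h2
  rw [mul_zero] at h5
  refine h5.congr fun n => ?_
  have h6 : (C.r n : ℂ) ≠ 0 := by exact_mod_cast (C.rpos n).ne'
  have h7 : (2 * Real.pi * I : ℂ) ≠ 0 := Complex.two_pi_I_ne_zero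
  field_simp

private theorem tn_off (C : Sq g m) {i j : Fin g} (hij : i ≠ j) :
    Tendsto (fun n => C.τ n i j) C.U (𝓝 0) := by
  have h3 : Tendsto (fun n => (C.r n : ℂ)) C.U (𝓝 ((0 : ℝ) : ℂ)) :=
    (Complex.continuous_ofReal.tendsto 0).comp C.rlim
  have h5 := (tn_offr C hij).mul h3
  rw [zero_mul] at h5
  refine h5.congr fun n => ?_
  have h6 : (C.r n : ℂ) ≠ 0 := by exact_mod_cast (C.rpos n).ne'
  field_simp

private theorem tn_a (τ : Matrix (Fin g) (Fin g) ℂ) (ε δ : Fin g → Fin 2) (i : Fin g) :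
    cen τ ε δ i - c1 τ i =
      -((∑ j, τ i j * (1 - ((ε j : ℕ) : ℂ))) + (1 - ((δ i : ℕ) : ℂ))) / 2 := by
  have h : (∑ j, τ i j * (1 - ((ε j : ℕ) : ℂ))) = (∑ j, τ i j) - ∑ j, τ i j * ((ε j : ℕ) : ℂ) := by
    rw [← Finset.sum_sub_distrib]
    exact Finset.sum_congr rfl fun j _ => by ring
  rw [h]
  simp only [cen, c1]
  ring

private theorem tn_lim (C : Sq g m) (ε δ : Fin g → Fin 2) (k : Fin g) :
    Tendsto (fun n => cen (C.τ n) ε δ k - c1 (C.τ n) k) C.U
      (𝓝 (((-(1 - ((δ k : ℕ) : ℝ)) / 2 : ℝ) : ℂ) +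
        ((-(1 - ((ε k : ℕ) : ℝ)) / 2 : ℝ) : ℂ) * C.σ k)) := by
  have h1 : Tendsto (fun n => ∑ j, C.τ n k j * (1 - ((ε j : ℕ) : ℂ))) C.U
      (𝓝 (∑ j, (if j = k then C.σ k else 0) * (1 - ((ε j : ℕ) : ℂ)))) := by
    refine tendsto_finsetSum _ fun j _ => ?_
    refine Tendsto.mul_const _ ?_
    by_cases hj : j = k
    · subst hj
      rw [if_pos rfl]
      exact C.diag j
    · rw [if_neg hj]
      exact tn_off C (Ne.symm hj)
  have h2 : (∑ j, (if j = k then C.σ k else 0) * (1 - ((ε j : ℕ) : ℂ))) =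
      C.σ k * (1 - ((ε k : ℕ) : ℂ)) := by
    rw [Finset.sum_eq_single k]
    · rw [if_pos rfl]
    · intro j _ hj
      rw [if_neg hj, zero_mul]
    · intro h
      exact absurd (Finset.mem_univ k) h
  rw [h2] at h1
  have h3 := ((h1.add_const (1 - ((δ k : ℕ) : ℂ))).neg).div_const 2
  refine (h3.congr fun n => (tn_a _ ε δ k).symm).trans (le_of_eq ?_)
  congr 1
  push_cast
  ring

private theorem tn_small (C : Sq g m) (ε δ : Fin g → Fin 2) {i : Fin g} (h1 : ε i = 1)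
    (h2 : δ i = 1) :
    Tendsto (fun n => 2 * (cen (C.τ n) ε δ i - c1 (C.τ n) i) / (C.r n : ℂ)) C.U (𝓝 0) := by
  have h3 : Tendsto (fun n => ∑ j, (C.τ n i j / (C.r n : ℂ)) * (1 - ((ε j : ℕ) : ℂ))) C.U
      (𝓝 (∑ _j : Fin g, (0 : ℂ))) := by
    refine tendsto_finsetSum _ fun j _ => ?_
    by_cases hj : j = i
    · subst hj
      have h4 : (1 - ((ε j : ℕ) : ℂ)) = 0 := by
        rw [h1]
        simp
      simp only [h4, mul_zero]
      exact tendsto_const_nhds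
    · have h5 := (tn_offr C (Ne.symm hj)).mul_const (1 - ((ε j : ℕ) : ℂ))
      rwa [zero_mul] at h5
  rw [Finset.sum_const_zero] at h3
  have h6 := h3.neg
  rw [neg_zero] at h6
  refine h6.congr fun n => ?_
  rw [tn_a, h2]
  have h7 : (1 - (((1 : Fin 2) : ℕ) : ℂ)) = 0 := by simp
  rw [h7, add_zero]
  have h8 : (∑ j, C.τ n i j / (C.r n : ℂ) * (1 - ((ε j : ℕ) : ℂ))) =
      (∑ j, C.τ n i j * (1 - ((ε j : ℕ) : ℂ))) / (C.r n : ℂ) := by
    rw [Finset.sum_div]
    exact Finset.sum_congr rfl fun j _ => by ring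
  rw [h8]
  ring

private theorem tn_fin2 (a : Fin 2) : a = 0 ∨ a = 1 := by
  fin_cases a
  · exact Or.inl rfl
  · exact Or.inr rfl

private theorem tn_Go (C : Sq g m) (ε δ : Fin g → Fin 2) {k : Fin g} (hk : ε k = 0 ∨ δ k = 0)
    (R : ℝ) : ∀ᶠ n in (C.U : Filter ℕ), cen (C.τ n) ε δ k - c1 (C.τ n) k ∈ Go (C.τ n k k) ∧
      R * C.r n < ‖cen (C.τ n) ε δ k - c1 (C.τ n) k‖ := by
  have hl := tn_lim C ε δ k
  set x : ℝ := -(1 - ((δ k : ℕ) : ℝ)) / 2 with hx
  set y : ℝ := -(1 - ((ε k : ℕ) : ℝ)) / 2 with hy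
  have hxy := xx_yy_eq (C.spos k) x y
  have hx1 : |x| < 3 / 4 := by
    rcases tn_fin2 (δ k) with h | h <;> rw [hx, h] <;> norm_num [abs_lt]
  have hy1 : |y| < 3 / 4 := by
    rcases tn_fin2 (ε k) with h | h <;> rw [hy, h] <;> norm_num [abs_lt]
  have hG : (x : ℂ) + (y : ℂ) * C.σ k ∈ Go (C.σ k) := by
    refine ⟨?_, ?_⟩
    · rw [hxy.1]
      exact hx1
    · rw [hxy.2]
      exact hy1
  have hne : (x : ℂ) + (y : ℂ) * C.σ k ≠ 0 := by
    intro h0
    rw [h0] at hxy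
    have h1 : x = 0 := by
      rw [← hxy.1]
      simp [xx]
    have h2 : y = 0 := by
      rw [← hxy.2]
      simp [yy]
    rcases hk with h | h
    · rw [hy, h] at h2
      norm_num at h2
    · rw [hx, h] at h1
      norm_num at h1
  have hp := (C.diag k).prodMk_nhds hl
  have e1 := hp.eventually (eventually_Go (C.spos k) hG)
  have e2 : Tendsto (fun n => R * C.r n) C.U (𝓝 0) := by
    have := C.rlim.const_mul R
    rwa [mul_zero] at this
  have e3 := e2.eventually_lt hl.norm (norm_pos_iff.2 hne)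
  filter_upwards [e1, e3] with n h1 h2
  exact ⟨h1, h2⟩

theorem Sq.null (C : Sq g m) (hm : m + 4 = g) {S : Finset (Fin g)} (hS : S.card = 4)
    {v : Fin g → ℂ} (h : C.Near S v) (hv : ∀ i ∈ S, v i = 0) (hn : Nd C.b S v) :
    ∀ᶠ n in (C.U : Filter ℕ), NullAt (C.τ n) S := by
  obtain ⟨δ₁, hδ₁, ht⟩ := h.tube hm hS hn
  obtain ⟨R, hR, hev⟩ := ht (δ₁ / 2) (half_pos hδ₁) (half_le_self hδ₁.le)
  refine Filter.eventually_all.2 fun ε => Filter.eventually_all.2 fun δ =>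
    Filter.eventually_imp_distrib_left.2 fun hεS => Filter.eventually_imp_distrib_left.2 fun hεc =>
      ?_
  have ev1 : ∀ᶠ n in (C.U : Filter ℕ), ∀ k, k ∉ S →
      (cen (C.τ n) ε δ k - c1 (C.τ n) k ∈ Go (C.τ n k k) ∧
        R * C.r n < ‖cen (C.τ n) ε δ k - c1 (C.τ n) k‖) :=
    Filter.eventually_all.2 fun k => Filter.eventually_imp_distrib_left.2 fun hk =>
      tn_Go C ε δ (hεc k hk) R
  have ev2 : ∀ᶠ n in (C.U : Filter ℕ), ∀ i, i ∈ S →
      ‖2 * (cen (C.τ n) ε δ i - c1 (C.τ n) i) / (C.r n : ℂ)‖ < δ₁ / 2 :=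
    Filter.eventually_all.2 fun i => Filter.eventually_imp_distrib_left.2 fun hi => by
      have h1 := (tn_small C ε δ (hεS i hi).1 (hεS i hi).2).norm
      rw [norm_zero] at h1
      exact h1.eventually (gt_mem_nhds (half_pos hδ₁))
  filter_upwards [hev, ev1, ev2] with n hn1 hn2 hn3
  have hr : (C.r n : ℂ) ≠ 0 := by exact_mod_cast (C.rpos n).ne'
  set a : Fin g → ℂ := fun i => cen (C.τ n) ε δ i - c1 (C.τ n) i with ha
  obtain ⟨w, hwN, hwS, hwk, huniq⟩ := hn1 (fun k => a k) fun k => hn2 k k.2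
  set w' : Fin g → ℂ := fun i => if i ∈ S then 2 * a i / (C.r n : ℂ) - w i else a i with hw'
  have e1 : c1 (C.τ n) + sc (C.r n) S w' = fun i =>
      2 * (cen (C.τ n) ε δ i + (((0 : Fin g → ℤ) i : ℤ) : ℂ)) -
        (c1 (C.τ n) + sc (C.r n) S w) i := by
    funext i
    rw [Pi.add_apply, Pi.add_apply, Pi.zero_apply, Int.cast_zero, add_zero]
    by_cases hi : i ∈ S
    · simp only [sc, hw', if_pos hi, ha]
      field_simp
      ring
    · have h1 := hwk i hi
      simp only [sc, hw', if_neg hi, h1, ha]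
      ring
  have hs1 : c1 (C.τ n) + sc (C.r n) S w' ∈ AM.singTheta (C.τ n) := by
    rw [e1]
    exact sing_reflect (C.siegel n) (C.sub n hwN) ε δ 0
  have hs2 := (mem_singF (C.siegel n) (sc (C.r n) S w')).2 hs1
  have hww := huniq w' (fun k hk => by simp only [hw', if_neg hk]) (fun i hi => by
    have h1 := hwS i hi
    rw [hv i hi, sub_zero] at h1
    have h2 := hn3 i hi
    rw [hv i hi, sub_zero]
    simp only [hw', if_pos hi]
    calc ‖2 * a i / (C.r n : ℂ) - w i‖ ≤ ‖2 * a i / (C.r n : ℂ)‖ + ‖w i‖ := norm_sub_le _ _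
      _ < δ₁ / 2 + δ₁ / 2 := add_lt_add h2 h1
      _ = δ₁ := add_halves _) hs2
  have e2 : c1 (C.τ n) + sc (C.r n) S w = cen (C.τ n) ε δ := by
    funext i
    rw [Pi.add_apply]
    by_cases hi : i ∈ S
    · have h1 := congrFun hww i
      simp only [hw', if_pos hi] at h1
      have h2 : (C.r n : ℂ) * w i = a i := by
        have h3 : 2 * a i / (C.r n : ℂ) = 2 * w i := by
          rw [two_mul (w i)]
          exact sub_eq_iff_eq_add.1 h1
        rw [div_eq_iff hr] at h3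
        have h4 : (2 : ℂ) ≠ 0 := two_ne_zero
        refine mul_left_cancel₀ h4 ?_
        rw [h3]
        ring
      simp only [sc, if_pos hi, h2, ha]
      ring
    · have h1 := hwk i hi
      simp only [sc, if_neg hi, h1, ha]
      ring
  refine thetaConst_zero (C.siegel n) ε δ ?_
  rw [← e2]
  exact C.sub n hwN

end AMP
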