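import Pool.Agent.Lib.MP_b57e3c_ag_P.XpA

set_option autoImplicit false

/-!
# Module Xp : expansion of the singular points of `μ` in five variables near infinity

`S = {1,2,3,4}` (four indices), `k ∉ S`, `T = insert k S`, `c_i = b i k`, `w ∈ ℂ^g` with `Sing b
T w`, `w k ≠ 0`, `ε = 1 / w k`, `x = w|_S`, `p = v0|_S` with `Sing b S v0`. Write `m4 = μ_S`,
`m3_i = μ_{S - i}`, `h_ij(x) = Hs b S x i j` (for `i ≠ j`; it is `x_k' x_l' + b_k'l'` with
`{k',l'}` the other two indices). `mu_rec` at `k`: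
(E0) `m4(x) = 0` (this is `μ_{T - k}`); (E1) `∑_i c_i m3_i(x) = 0` (from `μ_T = w_k m4 + ∑ c_i
m3_i`); (E2) `m3_i(x) + ε ∑_{j ≠ i} c_j h_ij(x) = 0` for `i ∈ S` (from `μ_{T - i} = w_k m3_i +
∑_{j≠i} c_j h_ij`).

EXACT RELATION: multiply (E2) by `c_i`, sum, use (E1) and `ε ≠ 0`: `∑_{i,j} c_i c_j h_ij(x) = 0`.

Let `y = x + ε c`, `D = y - p`. Expanding the multiaffine `m3_1(y) = y2 y3 y4 + b23 y4 + b24 y3 +
b34 y2` around `x` and around `p`:
`m3_1(y) = [m3_1(x) + ε ∑_j c_j h_1j(x)] + ε² (c2 c3 x4 + c2 c4 x3 + c3 c4 x2) + ε³ c2 c3 c4`,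
the bracket is `0`; `m3_1(y) = ∑_j h_1j(p) D_j + (p4 D2 D3 + p3 D2 D4 + p2 D3 D4) + D2 D3 D4`. So
`‖∑_j h_ij(p) D_j‖ ≤ K1 (‖ε‖² + ‖D‖²)` when `‖x‖, ‖ε‖, ‖D‖` are bounded (`‖·‖` the maximum over
`S`). By `Nd` (injective linear map of a finite dimensional space) `κ ‖D‖ ≤ max_i ‖∑_j h_ij(p)
D_j‖` for some `κ > 0`. If `‖D‖ ≤ δ + ‖ε‖ ‖c‖` is small (`K1 ‖D‖ ≤ κ/2`), then `‖D‖ ≤ K ‖ε‖²`.
This is `exp_first`.

`exp_two`: take `w` with `‖w k‖ → ∞`; by `exp_first` `x → p`. The exact relation gives the first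
equation in the limit (continuity). For the second: `m4(y) = m4(x) + ε ∑ c_i m3_i(x) +
ε² ∑_{i<j} c_i c_j h_ij(x) + ε³ ∑_i x_i ∏_{j ≠ i} c_j + ε⁴ c1 c2 c3 c4`, where the first three
terms vanish; and `m4(y) = m4(p) + ∑ D_i m3_i(p) + ∑_{i<j} D_i D_j h_ij(p) + ∑_i p_i ∏_{j≠i} D_j
+ ∏ D_i`, where the first two vanish, so `‖m4(y)‖ ≤ K2 ‖D‖² ≤ K3 ‖ε‖⁴`. Dividing by `ε³`: `∑_i
x_i ∏_{j≠i} c_j = O(ε)`; in the limit `∑_i p_i ∏_{j≠i} c_j = 0`.
-/

open Complex Filter Topology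

namespace AMP

variable {g : ℕ} {b : Fin g → Fin g → ℂ}

private theorem xpB_a {p q r s : Fin g} (h1 : p ≠ q) (h2 : p ≠ r) (h3 : p ≠ s) :
    ({p, q, r, s} : Finset (Fin g)).erase p = {q, r, s} := by
  rw [Finset.erase_insert]
  simp only [Finset.mem_insert, Finset.mem_singleton, not_or]
  exact ⟨h1, h2, h3⟩

private theorem xpB_a3 {q r s : Fin g} (h1 : q ≠ r) (h2 : q ≠ s) :
    ({q, r, s} : Finset (Fin g)).erase q = {r, s} := by
  rw [Finset.erase_insert]
  simp only [Finset.mem_insert, Finset.mem_singleton, not_or]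
  exact ⟨h1, h2⟩

private theorem xpB_hs (hb : ∀ i j, b i j = b j i) {p q r s : Fin g} (hpq : p ≠ q)
    (hpr : p ≠ r) (hps : p ≠ s) (hqr : q ≠ r) (hqs : q ≠ s) (hrs : r ≠ s) (x : Fin g → ℂ) :
    Hs b {p, q, r, s} x p q = x r * x s + b r s := by
  unfold Hs
  rw [if_neg hpq, xpB_a hpq hpr hps, xpB_a3 hqr hqs, mu_two b hb hrs]

private theorem xpB_id (hb : ∀ i j, b i j = b j i) {S : Finset (Fin g)} (hS : S.card = 4)
    (x y : Fin g → ℂ) :
    mu b S y = mu b S x + ∑ i ∈ S, (y i - x i) * mu b (S.erase i) x +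
      (1 / 2) * ∑ i ∈ S, ∑ j ∈ S, (y i - x i) * (y j - x j) * Hs b S x i j +
      ∑ i ∈ S, x i * ∏ j ∈ S.erase i, (y j - x j) + ∏ i ∈ S, (y i - x i) := by
  obtain ⟨p, T, hp, rfl, hT⟩ := Finset.card_eq_succ.1 hS
  obtain ⟨q, r, s, hqr, hqs, hrs, rfl⟩ := Finset.card_eq_three.1 hT
  have hp' := hp
  simp only [Finset.mem_insert, Finset.mem_singleton, not_or] at hp
  obtain ⟨hpq, hpr, hps⟩ : p ≠ q ∧ p ≠ r ∧ p ≠ s := hp
  have hq' : q ∉ ({r, s} : Finset (Fin g)) := by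
    simp only [Finset.mem_insert, Finset.mem_singleton, not_or]
    exact ⟨hqr, hqs⟩
  have s1 : ({p, q, r, s} : Finset (Fin g)) = {q, p, r, s} := Finset.insert_comm _ _ _
  have s2 : ({p, q, r, s} : Finset (Fin g)) = {r, p, q, s} := by
    rw [Finset.insert_comm q r, Finset.insert_comm p r]
  have s3 : ({p, q, r, s} : Finset (Fin g)) = {s, p, q, r} := by
    rw [Finset.pair_comm r s, Finset.insert_comm q s, Finset.insert_comm p s]
  have s4 : ({p, q, r, s} : Finset (Fin g)) = {p, r, q, s} := by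
    rw [Finset.insert_comm q r]
  have s5 : ({p, q, r, s} : Finset (Fin g)) = {p, s, q, r} := by
    rw [Finset.pair_comm r s, Finset.insert_comm q s]
  have s6 : ({p, q, r, s} : Finset (Fin g)) = {q, r, p, s} := by
    rw [s1, Finset.insert_comm p r]
  have s7 : ({p, q, r, s} : Finset (Fin g)) = {q, s, p, r} := by
    rw [s1, Finset.pair_comm r s, Finset.insert_comm p s]
  have s8 : ({p, q, r, s} : Finset (Fin g)) = {r, q, p, s} := by
    rw [s2, Finset.insert_comm p q]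
  have s9 : ({p, q, r, s} : Finset (Fin g)) = {r, s, p, q} := by
    rw [s2, Finset.pair_comm q s, Finset.insert_comm p s]
  have s10 : ({p, q, r, s} : Finset (Fin g)) = {s, q, p, r} := by
    rw [s3, Finset.insert_comm p q]
  have s11 : ({p, q, r, s} : Finset (Fin g)) = {s, r, p, q} := by
    rw [s3, Finset.pair_comm q r, Finset.insert_comm p r]
  have ep : ({p, q, r, s} : Finset (Fin g)).erase p = {q, r, s} := xpB_a hpq hpr hps
  have eq : ({p, q, r, s} : Finset (Fin g)).erase q = {p, r, s} := by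
    rw [s1]
    exact xpB_a hpq.symm hqr hqs
  have er : ({p, q, r, s} : Finset (Fin g)).erase r = {p, q, s} := by
    rw [s2]
    exact xpB_a hpr.symm hqr.symm hrs
  have es : ({p, q, r, s} : Finset (Fin g)).erase s = {p, q, r} := by
    rw [s3]
    exact xpB_a hps.symm hqs.symm hrs.symm
  have h0 : ∀ i, Hs b {p, q, r, s} x i i = 0 := fun i => if_pos rfl
  have hpq' : Hs b {p, q, r, s} x p q = x r * x s + b r s :=
    xpB_hs hb hpq hpr hps hqr hqs hrs x
  have hqp' : Hs b {p, q, r, s} x q p = x r * x s + b r s := by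
    rw [s1]
    exact xpB_hs hb hpq.symm hqr hqs hpr hps hrs x
  have hpr' : Hs b {p, q, r, s} x p r = x q * x s + b q s := by
    rw [s4]
    exact xpB_hs hb hpr hpq hps hqr.symm hrs hqs x
  have hrp' : Hs b {p, q, r, s} x r p = x q * x s + b q s := by
    rw [s2]
    exact xpB_hs hb hpr.symm hqr.symm hrs hpq hps hqs x
  have hps' : Hs b {p, q, r, s} x p s = x q * x r + b q r := by
    rw [s5]
    exact xpB_hs hb hps hpq hpr hqs.symm hrs.symm hqr x
  have hsp' : Hs b {p, q, r, s} x s p = x q * x r + b q r := by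
    rw [s3]
    exact xpB_hs hb hps.symm hqs.symm hrs.symm hpq hpr hqr x
  have hqr' : Hs b {p, q, r, s} x q r = x p * x s + b p s := by
    rw [s6]
    exact xpB_hs hb hqr hpq.symm hqs hpr.symm hrs hps x
  have hrq' : Hs b {p, q, r, s} x r q = x p * x s + b p s := by
    rw [s8]
    exact xpB_hs hb hqr.symm hpr.symm hrs hpq.symm hqs hps x
  have hqs' : Hs b {p, q, r, s} x q s = x p * x r + b p r := by
    rw [s7]
    exact xpB_hs hb hqs hpq.symm hqr hps.symm hrs.symm hpr x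
  have hsq' : Hs b {p, q, r, s} x s q = x p * x r + b p r := by
    rw [s10]
    exact xpB_hs hb hqs.symm hps.symm hrs.symm hpq.symm hqr hpr x
  have hrs' : Hs b {p, q, r, s} x r s = x p * x q + b p q := by
    rw [s9]
    exact xpB_hs hb hrs hpr.symm hqr.symm hps.symm hqs.symm hpq x
  have hsr' : Hs b {p, q, r, s} x s r = x p * x q + b p q := by
    rw [s11]
    exact xpB_hs hb hrs.symm hps.symm hqs.symm hpr.symm hqr.symm hpq x
  have f1 : ∀ f : Fin g → ℂ, ∑ i ∈ ({p, q, r, s} : Finset (Fin g)), f i =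
      f p + (f q + (f r + f s)) := fun f => by
    rw [Finset.sum_insert hp', Finset.sum_insert hq', Finset.sum_pair hrs]
  have f2 : ∀ f : Fin g → ℂ, ∏ i ∈ ({p, q, r, s} : Finset (Fin g)), f i =
      f p * (f q * (f r * f s)) := fun f => by
    rw [Finset.prod_insert hp', Finset.prod_insert hq', Finset.prod_pair hrs]
  have f3 : ∀ {i j k : Fin g} (f : Fin g → ℂ), i ≠ j → i ≠ k → j ≠ k →
      ∏ m ∈ ({i, j, k} : Finset (Fin g)), f m = f i * (f j * f k) := by
    intro i j k f h1 h2 h3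
    rw [Finset.prod_insert, Finset.prod_pair h3]
    simp only [Finset.mem_insert, Finset.mem_singleton, not_or]
    exact ⟨h1, h2⟩
  rw [f1, f1, f1, f1, f1, f1, f1, f2, ep, eq, er, es, h0, h0, h0, h0, hpq', hqp', hpr', hrp',
    hps', hsp', hqr', hrq', hqs', hsq', hrs', hsr', f3 _ hqr hqs hrs, f3 _ hpr hps hrs,
    f3 _ hpq hps hqs, f3 _ hpq hpr hqr, mu_four b hb hpq hpr hps hqr hqs hrs,
    mu_four b hb hpq hpr hps hqr hqs hrs, mu_three b hb hqr hqs hrs,
    mu_three b hb hpr hps hrs, mu_three b hb hpq hps hqs, mu_three b hb hpq hpr hqr]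
  ring

private theorem xpB_E2 (hb : ∀ i j, b i j = b j i) {S : Finset (Fin g)} {k : Fin g}
    (hk : k ∉ S) {w : Fin g → ℂ} (hw : Sing b (insert k S) w) (h0 : w k ≠ 0) {i : Fin g}
    (hi : i ∈ S) :
    mu b (S.erase i) w + ∑ m ∈ S, Hs b S w i m * (b m k / w k) = 0 := by
  have h1 := hw.2 i (Finset.mem_insert_of_mem hi)
  have hki : k ≠ i := fun h => hk (h ▸ hi)
  have hk' : k ∉ S.erase i := fun h => hk (Finset.mem_of_mem_erase h)
  rw [Finset.erase_insert_of_ne hki, mu_rec b hb (Finset.mem_insert_self k _),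
    Finset.erase_insert hk'] at h1
  have h2 : ∑ m ∈ S, Hs b S w i m * (b m k / w k) =
      ∑ m ∈ S.erase i, mu b ((S.erase i).erase m) w * (b m k / w k) := by
    rw [← Finset.add_sum_erase S _ hi]
    have h1 : Hs b S w i i = 0 := if_pos rfl
    rw [h1, zero_mul, zero_add]
    refine Finset.sum_congr rfl fun m hm => ?_
    have h2 : i ≠ m := (Finset.ne_of_mem_erase hm).symm
    unfold Hs
    rw [if_neg h2]
  have h3 : w k * (mu b (S.erase i) w + ∑ m ∈ S, Hs b S w i m * (b m k / w k)) = 0 := by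
    rw [h2, mul_add, Finset.mul_sum, ← h1]
    refine congrArg _ (Finset.sum_congr rfl fun m _ => ?_)
    rw [hb k m]
    field_simp
  exact (mul_eq_zero.1 h3).resolve_left h0

private theorem xpB_E1 (hb : ∀ i j, b i j = b j i) {S : Finset (Fin g)} {k : Fin g}
    (hk : k ∉ S) {w : Fin g → ℂ} (hw : Sing b (insert k S) w) :
    mu b S w = 0 ∧ ∑ i ∈ S, b i k * mu b (S.erase i) w = 0 := by
  have h1 := hw.2 k (Finset.mem_insert_self k S)
  rw [Finset.erase_insert hk] at h1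
  have h2 := hw.1
  rw [mu_rec b hb (Finset.mem_insert_self k S), Finset.erase_insert hk, h1, mul_zero,
    zero_add] at h2
  refine ⟨h1, ?_⟩
  rw [← h2]
  exact Finset.sum_congr rfl fun m _ => by rw [hb k m]

private theorem xpB_E3 (hb : ∀ i j, b i j = b j i) {S : Finset (Fin g)} {k : Fin g}
    (hk : k ∉ S) {w : Fin g → ℂ} (hw : Sing b (insert k S) w) (h0 : w k ≠ 0) :
    ∑ i ∈ S, ∑ j ∈ S, b i k * b j k * Hs b S w i j = 0 := by
  have h1 : ∑ i ∈ S, b i k * (mu b (S.erase i) w +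
      ∑ m ∈ S, Hs b S w i m * (b m k / w k)) = 0 :=
    Finset.sum_eq_zero fun i hi => by rw [xpB_E2 hb hk hw h0 hi, mul_zero]
  have h2 : ∑ i ∈ S, b i k * (mu b (S.erase i) w +
      ∑ m ∈ S, Hs b S w i m * (b m k / w k)) = ∑ i ∈ S, b i k * mu b (S.erase i) w +
      (∑ i ∈ S, ∑ j ∈ S, b i k * b j k * Hs b S w i j) * (1 / w k) := by
    rw [Finset.sum_mul, ← Finset.sum_add_distrib]
    refine Finset.sum_congr rfl fun i _ => ?_
    rw [mul_add, Finset.mul_sum, Finset.sum_mul]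
    refine congrArg _ (Finset.sum_congr rfl fun j _ => ?_)
    ring
  rw [h2, (xpB_E1 hb hk hw).2, zero_add] at h1
  exact (mul_eq_zero.1 h1).resolve_right (one_div_ne_zero h0)

private theorem xpB_prod (S : Finset (Fin g)) (e : ℂ) (c : Fin g → ℂ) :
    ∏ i ∈ S, c i * e = e ^ S.card * ∏ i ∈ S, c i := by
  rw [Finset.prod_mul_distrib, Finset.prod_const, mul_comm]

/-- the exact equation of fourth order -/
private theorem xpB_E4 (hb : ∀ i j, b i j = b j i) {S : Finset (Fin g)} (hS : S.card = 4)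
    {k : Fin g} (hk : k ∉ S) {w v0 : Fin g → ℂ} (hv : Sing b S v0)
    (hw : Sing b (insert k S) w) (h0 : w k ≠ 0) :
    (1 / w k) ^ 3 * (∑ i ∈ S, w i * ∏ j ∈ S.erase i, b j k + (1 / w k) * ∏ i ∈ S, b i k) =
      (1 / 2) * ∑ i ∈ S, ∑ j ∈ S, (w i - v0 i + b i k / w k) * (w j - v0 j + b j k / w k) *
        Hs b S v0 i j + ∑ i ∈ S, v0 i * ∏ j ∈ S.erase i, (w j - v0 j + b j k / w k) +
      ∏ i ∈ S, (w i - v0 i + b i k / w k) := by
  have h1 := xpB_id hb hS w (fun i => w i + b i k * (1 / w k))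
  have h2 := xpB_id hb hS v0 (fun i => w i + b i k * (1 / w k))
  have e1 := xpB_E1 hb hk hw
  have e3 := xpB_E3 hb hk hw h0
  have a1 : ∑ i ∈ S, ((fun i => w i + b i k * (1 / w k)) i - w i) * mu b (S.erase i) w = 0 := by
    have : ∑ i ∈ S, ((fun i => w i + b i k * (1 / w k)) i - w i) * mu b (S.erase i) w =
        (1 / w k) * ∑ i ∈ S, b i k * mu b (S.erase i) w := by
      rw [Finset.mul_sum]
      exact Finset.sum_congr rfl fun i _ => by ring
    rw [this, e1.2, mul_zero]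
  have a2 : ∑ i ∈ S, ∑ j ∈ S, ((fun i => w i + b i k * (1 / w k)) i - w i) *
      ((fun i => w i + b i k * (1 / w k)) j - w j) * Hs b S w i j = 0 := by
    have : ∑ i ∈ S, ∑ j ∈ S, ((fun i => w i + b i k * (1 / w k)) i - w i) *
        ((fun i => w i + b i k * (1 / w k)) j - w j) * Hs b S w i j =
        (1 / w k) ^ 2 * ∑ i ∈ S, ∑ j ∈ S, b i k * b j k * Hs b S w i j := by
      rw [Finset.mul_sum]
      refine Finset.sum_congr rfl fun i _ => ?_
      rw [Finset.mul_sum]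
      exact Finset.sum_congr rfl fun j _ => by ring
    rw [this, e3, mul_zero]
  have a3 : ∑ i ∈ S, v0 i * 0 = (0 : ℂ) := by simp
  have a4 : ∀ i, (fun i => w i + b i k * (1 / w k)) i - w i = b i k * (1 / w k) := fun i => by
    ring
  have a5 : ∀ i, (fun i => w i + b i k * (1 / w k)) i - v0 i = w i - v0 i + b i k / w k :=
    fun i => by ring
  have a6 : ∑ i ∈ S, (w i - v0 i + b i k / w k) * mu b (S.erase i) v0 = 0 :=
    Finset.sum_eq_zero fun i hi => by rw [hv.2 i hi, mul_zero]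
  rw [a1, a2, e1.1] at h1
  simp only [a4] at h1
  simp only [a5] at h2
  rw [a6, hv.1] at h2
  rw [h2] at h1
  have a7 : ∀ i ∈ S, w i * ∏ j ∈ S.erase i, b j k * (1 / w k) =
      (1 / w k) ^ 3 * (w i * ∏ j ∈ S.erase i, b j k) := fun i hi => by
    rw [xpB_prod, Finset.card_erase_of_mem hi, hS]
    ring
  rw [Finset.sum_congr rfl a7, ← Finset.mul_sum, xpB_prod, hS] at h1
  linear_combination -h1

theorem exp_two (hb : ∀ i j, b i j = b j i) {S : Finset (Fin g)} (hS : S.card = 4)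
    {k : Fin g} (hk : k ∉ S) {v0 : Fin g → ℂ} (h0 : Sing b S v0) (hn : Nd b S v0)
    (hw : ∀ δ > 0, ∀ ρ : ℝ, ∃ w : Fin g → ℂ, Sing b (insert k S) w ∧ ρ < ‖w k‖ ∧
      ∀ i ∈ S, ‖w i - v0 i‖ ≤ δ) :
    (∑ i ∈ S, ∑ j ∈ S, b i k * b j k * Hs b S v0 i j = 0) ∧
    ∑ i ∈ S, v0 i * ∏ j ∈ S.erase i, b j k = 0 := by
  obtain ⟨δ, hδ, K, hK, ρ, hρ, hf⟩ := exp_first hb hS hk h0 hn
  have hpos : ∀ n : ℕ, (0 : ℝ) < 1 / ((n : ℝ) + 1) := fun n => by positivity
  choose w hw1 hw2 hw3 using fun n : ℕ => hw (min δ (1 / ((n : ℝ) + 1)))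
    (lt_min hδ (hpos n)) (max ρ ((n : ℝ) + 1))
  have hk1 : ∀ n : ℕ, (n : ℝ) + 1 < ‖w n k‖ := fun n => (le_max_right _ _).trans_lt (hw2 n)
  have hk2 : ∀ n : ℕ, ρ < ‖w n k‖ := fun n => (le_max_left _ _).trans_lt (hw2 n)
  have hk3 : ∀ n : ℕ, 0 < ‖w n k‖ := fun n => lt_trans (by positivity) (hk1 n)
  have hk0 : ∀ n : ℕ, w n k ≠ 0 := fun n => norm_pos_iff.1 (hk3 n)
  have he : Tendsto (fun n => ‖(1 / w n k : ℂ)‖) atTop (𝓝 0) := by
    refine squeeze_zero (fun n => norm_nonneg _) (fun n => ?_)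
      tendsto_one_div_add_atTop_nhds_zero_nat
    rw [norm_div, norm_one]
    exact one_div_le_one_div_of_le (by positivity) (hk1 n).le
  have he' : Tendsto (fun n => (1 / w n k : ℂ)) atTop (𝓝 0) :=
    tendsto_zero_iff_norm_tendsto_zero.2 he
  have hx : ∀ i ∈ S, Tendsto (fun n => w n i) atTop (𝓝 (v0 i)) := fun i hi => by
    rw [tendsto_iff_norm_sub_tendsto_zero]
    refine squeeze_zero (fun n => norm_nonneg _) (fun n => ?_)
      tendsto_one_div_add_atTop_nhds_zero_nat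
    exact (hw3 n i hi).trans (min_le_right _ _)
  have hD : ∀ n, ∀ i ∈ S, ‖w n i - v0 i + b i k / w n k‖ ≤ K * ‖(1 / w n k : ℂ)‖ ^ 2 :=
    fun n i hi => by
      refine (hf (w n) (hw1 n) (hk2 n) (fun j hj => (hw3 n j hj).trans (min_le_left _ _)) i
        hi).trans (le_of_eq ?_)
      rw [norm_div, norm_one, div_pow, one_pow]
      ring
  have hH : ∀ i ∈ S, ∀ j ∈ S, Tendsto (fun n => Hs b S (w n) i j) atTop
      (𝓝 (Hs b S v0 i j)) := fun i hi j hj => by
    unfold Hs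
    split_ifs
    · exact tendsto_const_nhds
    · exact mu_tendsto (fun _ _ _ => tendsto_const_nhds) fun m hm =>
        hx m (Finset.mem_of_mem_erase (Finset.mem_of_mem_erase hm))
  refine ⟨?_, ?_⟩
  · have h1 : Tendsto (fun n => ∑ i ∈ S, ∑ j ∈ S, b i k * b j k * Hs b S (w n) i j) atTop
        (𝓝 (∑ i ∈ S, ∑ j ∈ S, b i k * b j k * Hs b S v0 i j)) :=
      tendsto_finsetSum _ fun i hi => tendsto_finsetSum _ fun j hj =>
        (hH i hi j hj).const_mul _
    have h2 : (fun n => ∑ i ∈ S, ∑ j ∈ S, b i k * b j k * Hs b S (w n) i j) = fun _ => 0 :=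
      funext fun n => xpB_E3 hb hk (hw1 n) (hk0 n)
    rw [h2] at h1
    exact (tendsto_nhds_unique h1 tendsto_const_nhds)
  · have h1 : Tendsto (fun n => ∑ i ∈ S, w n i * ∏ j ∈ S.erase i, b j k +
        (1 / w n k) * ∏ i ∈ S, b i k) atTop
        (𝓝 (∑ i ∈ S, v0 i * ∏ j ∈ S.erase i, b j k + 0 * ∏ i ∈ S, b i k)) :=
      (tendsto_finsetSum _ fun i hi => (hx i hi).mul_const _).add (he'.mul_const _)
    obtain ⟨A, hA⟩ : ∃ A : ℝ, A = 1 / 2 * ∑ i ∈ S, ∑ j ∈ S, K * K * ‖Hs b S v0 i j‖ :=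
      ⟨_, rfl⟩
    obtain ⟨B, hB⟩ : ∃ B : ℝ, B = ∑ i ∈ S, ‖v0 i‖ * K ^ 3 := ⟨_, rfl⟩
    have h2 : ∀ n, ‖∑ i ∈ S, w n i * ∏ j ∈ S.erase i, b j k +
        (1 / w n k) * ∏ i ∈ S, b i k‖ ≤ A * ‖(1 / w n k : ℂ)‖ +
        B * ‖(1 / w n k : ℂ)‖ ^ 3 + K ^ 4 * ‖(1 / w n k : ℂ)‖ ^ 5 := by
      intro n
      have h3 := xpB_E4 hb hS hk h0 (hw1 n) (hk0 n)
      obtain ⟨e, hen⟩ : ∃ e : ℝ, e = ‖(1 / w n k : ℂ)‖ := ⟨_, rfl⟩
      have he0 : 0 < e := by
        rw [hen, norm_div, norm_one]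
        exact one_div_pos.2 (hk3 n)
      have hDn : ∀ i ∈ S, ‖w n i - v0 i + b i k / w n k‖ ≤ K * e ^ 2 := fun i hi => by
        rw [hen]
        exact hD n i hi
      have h4 : e ^ 3 * ‖∑ i ∈ S, w n i * ∏ j ∈ S.erase i, b j k +
          (1 / w n k) * ∏ i ∈ S, b i k‖ ≤ A * e ^ 4 + B * e ^ 6 + K ^ 4 * e ^ 8 := by
        rw [hen, ← norm_pow, ← norm_mul, h3, ← hen]
        refine (norm_add_le _ _).trans (add_le_add ((norm_add_le _ _).trans
          (add_le_add ?_ ?_)) ?_)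
        · rw [norm_mul, hA, mul_assoc]
          have : ‖(1 / 2 : ℂ)‖ = 1 / 2 := by norm_num
          rw [this]
          refine mul_le_mul_of_nonneg_left ?_ (by norm_num)
          rw [Finset.sum_mul]
          refine (norm_sum_le _ _).trans (Finset.sum_le_sum fun i hi => ?_)
          rw [Finset.sum_mul]
          refine (norm_sum_le _ _).trans (Finset.sum_le_sum fun j hj => ?_)
          rw [norm_mul, norm_mul]
          have h5 := mul_le_mul (hDn i hi) (hDn j hj) (norm_nonneg _) (by positivity)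
          calc _ ≤ (K * e ^ 2) * (K * e ^ 2) * ‖Hs b S v0 i j‖ :=
                mul_le_mul_of_nonneg_right h5 (norm_nonneg _)
            _ = _ := by ring
        · rw [hB, Finset.sum_mul]
          refine (norm_sum_le _ _).trans (Finset.sum_le_sum fun i hi => ?_)
          rw [norm_mul, norm_prod]
          have h5 : ∏ j ∈ S.erase i, ‖w n j - v0 j + b j k / w n k‖ ≤ (K * e ^ 2) ^ 3 := by
            have h6 := Finset.prod_le_prod (s := S.erase i)
              (f := fun j => ‖w n j - v0 j + b j k / w n k‖) (g := fun _ => K * e ^ 2)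
              (fun j _ => norm_nonneg _) (fun j hj => hDn j (Finset.mem_of_mem_erase hj))
            rwa [Finset.prod_const, Finset.card_erase_of_mem hi, hS] at h6
          calc _ ≤ ‖v0 i‖ * (K * e ^ 2) ^ 3 := mul_le_mul_of_nonneg_left h5 (norm_nonneg _)
            _ = _ := by ring
        · rw [norm_prod]
          have h6 := Finset.prod_le_prod (s := S)
            (f := fun j => ‖w n j - v0 j + b j k / w n k‖) (g := fun _ => K * e ^ 2)
            (fun j _ => norm_nonneg _) (fun j hj => hDn j hj)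
          rw [Finset.prod_const, hS] at h6
          refine h6.trans (le_of_eq ?_)
          ring
      rw [← hen]
      have h5 : 0 < e ^ 3 := by positivity
      refine le_of_mul_le_mul_left (h4.trans (le_of_eq ?_)) h5
      ring
    have h3 : Tendsto (fun n => A * ‖(1 / w n k : ℂ)‖ + B * ‖(1 / w n k : ℂ)‖ ^ 3 +
        K ^ 4 * ‖(1 / w n k : ℂ)‖ ^ 5) atTop (𝓝 (A * 0 + B * 0 ^ 3 + K ^ 4 * 0 ^ 5)) :=
      ((he.const_mul A).add ((he.pow 3).const_mul B)).add ((he.pow 5).const_mul _)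
    have h4 := squeeze_zero (fun n => norm_nonneg _) h2 (by simpa using h3)
    have h5 := tendsto_nhds_unique h1 (tendsto_zero_iff_norm_tendsto_zero.2 h4)
    rwa [zero_mul, add_zero] at h5

end AMP
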