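import Pool.Agent.Lib.MP_b57e3c_ag_P.EcB
import Pool.Agent.Lib.MP_b57e3c_ag_P.Tn
import Pool.Agent.Lib.MP_b57e3c_ag_P.Qa
import Pool.Agent.Lib.MP_b57e3c_ag_P.Qb
import Pool.Agent.Lib.MP_b57e3c_ag_P.Mk
import Pool.Agent.Lib.MP_b57e3c_ag_P.Jc
import Pool.Agent.Lib.MP_b57e3c_ag_P.XpB

set_option autoImplicit false

/-!
# Module Mn : main theorem (assembly)
-/

open Complex Filter Topology

namespace AMP

open AMC

variable {g m : ℕ}

/-- the equations for the Jacobian directions -/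
theorem Sq.jac (C : Sq g m) (hm : m + 4 = g) (hE : NoEq C.b)
    (hv : ∀ S : Finset (Fin g), S.card = 4 → ∃ v : Fin g → ℂ, C.Near S v ∧ ∃ i ∈ S, v i ≠ 0) :
    ∃ w : Fin g → ℂ × ℂ, ∀ i j, i ≠ j → C.b i j * dt (w i) (w j) ^ 2 = 1 := by
  refine jac_all (by omega) C.sym C.ne0 fun S hS => ?_
  obtain ⟨v, hN, hi⟩ := hv S hS
  have hsing := hN.sing
  have hnd := sing_nd C.sym C.ne0 hE hS hsing
  have hF := hN.full hm hS hnd
  refine ⟨v, hsing, hi, fun k hk => ?_⟩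
  refine exp_two C.sym hS hk hsing hnd fun δ hδ ρ => ?_
  obtain ⟨ρ', hρ', h⟩ := hF.lim hk hδ
  have hpos : (0 : ℝ) < |ρ| + ρ' + 1 := by positivity
  obtain ⟨w, hw, hwk, hwS, hwl⟩ := h ((|ρ| + ρ' + 1 : ℝ) : ℂ) (by
    rw [Complex.norm_real, Real.norm_eq_abs, abs_of_pos hpos]
    have := abs_nonneg ρ
    linarith)
  refine ⟨w, C.Lim_sing hw hwl, ?_, hwS⟩
  rw [hwk, Complex.norm_real, Real.norm_eq_abs, abs_of_pos hpos]
  have := le_abs_self ρ
  linarith

/-- the span of the tangent quadrics -/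
theorem Sq.quads (C : Sq g m) (hm : m + 4 = g) (hE : NoEq C.b)
    (hv : ∀ S : Finset (Fin g), S.card = 4 → ∃ v : Fin g → ℂ, C.Near S v ∧ ∃ i ∈ S, v i ≠ 0) :
    ∀ᶠ n in (C.U : Filter ℕ), (g - 2) * (g - 3) / 2 ≤
      Module.finrank ℂ (Submodule.span ℂ (hes (C.τ n) '' AM.singTheta (C.τ n))) := by
  refine span_large (by omega) _ fun S hS => ?_
  obtain ⟨v, hN, hi⟩ := hv S hS
  have hsing := hN.sing
  have hnd := sing_nd C.sym C.ne0 hE hS hsing
  obtain ⟨p, κ, hp, hlim⟩ := (hN.full hm hS hnd).quad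
  refine ⟨fun n => hes (C.τ n) (p n), κ, Hs C.b S v, ?_, hlim, ?_⟩
  · filter_upwards [hp] with n hn
    exact ⟨p n, hn, rfl⟩
  · intro i hi' j hj hij
    exact hs_ne C.sym C.ne0 hS hsing hi hi' hj hij

/-- conclusion for the matrix `τ` with off-diagonal part `t β` -/
def Concl {g : ℕ} (η : ℝ) (β : Fin g → Fin g → ℂ) (τ : Matrix (Fin g) (Fin g) ℂ) : Prop :=
  (∃ S : Finset (Fin g), S.card = 4 ∧ NullAt τ S) ∨
  ((∃ w : Fin g → ℂ × ℂ, ∀ i j, i ≠ j → ‖β i j * dt (w i) (w j) ^ 2 - 1‖ < η) ∧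
    (g - 2) * (g - 3) / 2 ≤
      Module.finrank ℂ (Submodule.span ℂ (hes τ '' AM.singTheta τ))) ∨
  ∃ i j k l : Fin g, i ≠ j ∧ i ≠ k ∧ i ≠ l ∧ j ≠ k ∧ j ≠ l ∧ k ≠ l ∧
    ‖β i j * β k l + β i k * β j l + β i l * β j k‖ < η ∧
    ‖(β i j * β k l) * (β i k * β j l) + (β i k * β j l) * (β i l * β j k) +
      (β i l * β j k) * (β i j * β k l)‖ < η

theorem Sq.concl (C : Sq g m) (hm : m + 4 = g) {β0 : Fin g → Fin g → ℂ} {ph : ℂ} (hph : ph ≠ 0)
    (hb : ∀ i j, i ≠ j → C.b i j = ph * β0 i j) {β : ℕ → Fin g → Fin g → ℂ}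
    (hβ : ∀ i j, Tendsto (fun n => β n i j) (C.U : Filter ℕ) (𝓝 (β0 i j))) {η : ℝ}
    (hη : 0 < η) : ∀ᶠ n in (C.U : Filter ℕ), Concl η (β n) (C.τ n) := by
  by_cases hE : NoEq C.b
  swap
  · -- an equianharmonic quadruple
    unfold NoEq at hE
    push Not at hE
    obtain ⟨i, j, k, l, hij, hik, hil, hjk, hjl, hkl, h1, h2⟩ := hE
    rw [hb i j hij, hb k l hkl, hb i k hik, hb j l hjl, hb i l hil, hb j k hjk] at h1 h2
    have e1 : β0 i j * β0 k l + β0 i k * β0 j l + β0 i l * β0 j k = 0 := by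
      have : ph ^ 2 * (β0 i j * β0 k l + β0 i k * β0 j l + β0 i l * β0 j k) = 0 := by
        linear_combination h1
      exact (mul_eq_zero.1 this).resolve_left (pow_ne_zero 2 hph)
    have e2 : (β0 i j * β0 k l) * (β0 i k * β0 j l) + (β0 i k * β0 j l) * (β0 i l * β0 j k) +
        (β0 i l * β0 j k) * (β0 i j * β0 k l) = 0 := by
      have : ph ^ 4 * ((β0 i j * β0 k l) * (β0 i k * β0 j l) +
          (β0 i k * β0 j l) * (β0 i l * β0 j k) +
          (β0 i l * β0 j k) * (β0 i j * β0 k l)) = 0 := by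
        linear_combination h2
      exact (mul_eq_zero.1 this).resolve_left (pow_ne_zero 4 hph)
    have t1 : Tendsto (fun n => β n i j * β n k l + β n i k * β n j l + β n i l * β n j k)
        (C.U : Filter ℕ) (𝓝 0) := by
      rw [← e1]
      exact (((hβ i j).mul (hβ k l)).add ((hβ i k).mul (hβ j l))).add ((hβ i l).mul (hβ j k))
    have t2 : Tendsto (fun n => (β n i j * β n k l) * (β n i k * β n j l) +
        (β n i k * β n j l) * (β n i l * β n j k) +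
        (β n i l * β n j k) * (β n i j * β n k l)) (C.U : Filter ℕ) (𝓝 0) := by
      rw [← e2]
      exact ((((hβ i j).mul (hβ k l)).mul ((hβ i k).mul (hβ j l))).add
        (((hβ i k).mul (hβ j l)).mul ((hβ i l).mul (hβ j k)))).add
        (((hβ i l).mul (hβ j k)).mul ((hβ i j).mul (hβ k l)))
    have t1' := t1.norm
    have t2' := t2.norm
    rw [norm_zero] at t1' t2'
    filter_upwards [t1'.eventually (gt_mem_nhds hη), t2'.eventually (gt_mem_nhds hη)] with n a1 a2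
    exact Or.inr (Or.inr ⟨i, j, k, l, hij, hik, hil, hjk, hjl, hkl, a1, a2⟩)
  · by_cases h0 : ∃ S : Finset (Fin g), S.card = 4 ∧ ∃ v : Fin g → ℂ, C.Near S v ∧
        ∀ i ∈ S, v i = 0
    · obtain ⟨S, hS, v, hN, hv⟩ := h0
      filter_upwards [C.null hm hS hN hv (sing_nd C.sym C.ne0 hE hS hN.sing)] with n hn
      exact Or.inl ⟨S, hS, hn⟩
    · have hv : ∀ S : Finset (Fin g), S.card = 4 → ∃ v : Fin g → ℂ, C.Near S v ∧
          ∃ i ∈ S, v i ≠ 0 := by
        intro S hS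
        obtain ⟨v, hN⟩ := C.near_all hm hE S hS
        refine ⟨v, hN, ?_⟩
        by_contra hcon
        push Not at hcon
        exact h0 ⟨S, hS, v, hN, hcon⟩
      obtain ⟨w, hw⟩ := C.jac hm hE hv
      obtain ⟨lam, hlam⟩ := IsAlgClosed.exists_pow_nat_eq ph (n := 4) (by norm_num)
      have hw' : ∀ i j, i ≠ j → β0 i j * dt (lam • w i) (lam • w j) ^ 2 = 1 := by
        intro i j hij
        have h1 := hw i j hij
        rw [hb i j hij, ← hlam] at h1
        have h2 : dt (lam • w i) (lam • w j) = lam ^ 2 * dt (w i) (w j) := by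
          simp only [dt, Prod.smul_fst, Prod.smul_snd, smul_eq_mul]
          ring
        rw [h2]
        linear_combination h1
      have t3 : ∀ i j, i ≠ j → ∀ᶠ n in (C.U : Filter ℕ),
          ‖β n i j * dt (lam • w i) (lam • w j) ^ 2 - 1‖ < η := by
        intro i j hij
        have h1 : Tendsto (fun n => β n i j * dt (lam • w i) (lam • w j) ^ 2 - 1)
            (C.U : Filter ℕ) (𝓝 0) := by
          have h2 := ((hβ i j).mul_const (dt (lam • w i) (lam • w j) ^ 2)).sub_const 1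
          rwa [hw' i j hij, sub_self] at h2
        have h3 := h1.norm
        rw [norm_zero] at h3
        exact h3.eventually (gt_mem_nhds hη)
      have t4 : ∀ᶠ n in (C.U : Filter ℕ), ∀ i j, i ≠ j →
          ‖β n i j * dt (lam • w i) (lam • w j) ^ 2 - 1‖ < η := by
        rw [eventually_all]
        intro i
        rw [eventually_all]
        intro j
        by_cases hij : i = j
        · exact Eventually.of_forall fun n h => absurd hij h
        · filter_upwards [t3 i j hij] with n hn _ using hn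
      filter_upwards [t4, C.quads hm hE hv] with n a1 a2
      exact Or.inr (Or.inl ⟨⟨fun i => lam • w i, a1⟩, a2⟩)

variable {Sg : Set (Fin g → ℂ)} {K : Set (Fin g → Fin g → ℂ)}

/-- a family of small matrices: if the property `Q` fails for arbitrarily small `t`, there is a
sequence -/
theorem seq_of_not {Q : (Fin g → ℂ) → (Fin g → Fin g → ℂ) → ℂ →
      Matrix (Fin g) (Fin g) ℂ → Prop}
    (h : ¬ ∃ ε > 0, ∀ s ∈ Sg, ∀ β ∈ K, ∀ t : ℂ, t ≠ 0 → ‖t‖ < ε →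
      ∀ τ : Matrix (Fin g) (Fin g) ℂ, (∀ i, τ i i = s i) →
        (∀ i j, i ≠ j → τ i j = t * β i j) → Q s β t τ) :
    ∃ (s : ℕ → Fin g → ℂ) (β : ℕ → Fin g → Fin g → ℂ) (t : ℕ → ℂ)
      (τ : ℕ → Matrix (Fin g) (Fin g) ℂ), (∀ n, s n ∈ Sg) ∧ (∀ n, β n ∈ K) ∧ (∀ n, t n ≠ 0) ∧
      (∀ n, ‖t n‖ < 1 / ((n : ℝ) + 1)) ∧ (∀ n i, τ n i i = s n i) ∧
      (∀ n i j, i ≠ j → τ n i j = t n * β n i j) ∧ ∀ n, ¬ Q (s n) (β n) (t n) (τ n) := by
  have h' : ∀ n : ℕ, ∃ (s : Fin g → ℂ) (β : Fin g → Fin g → ℂ) (t : ℂ)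
      (τ : Matrix (Fin g) (Fin g) ℂ), s ∈ Sg ∧ β ∈ K ∧ t ≠ 0 ∧ ‖t‖ < 1 / ((n : ℝ) + 1) ∧
      (∀ i, τ i i = s i) ∧ (∀ i j, i ≠ j → τ i j = t * β i j) ∧ ¬ Q s β t τ := by
    intro n
    by_contra hcon
    refine h ⟨1 / ((n : ℝ) + 1), by positivity, fun s hs β hβ t ht0 ht τ h1 h2 => ?_⟩
    by_contra hQ
    exact hcon ⟨s, β, t, τ, hs, hβ, ht0, ht, h1, h2, hQ⟩
  choose s β t τ h1 h2 h3 h4 h5 h6 h7 using h'
  exact ⟨s, β, t, τ, h1, h2, h3, h4, h5, h6, h7⟩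

theorem tendsto_of_lt {t : ℕ → ℂ} (h : ∀ n, ‖t n‖ < 1 / ((n : ℝ) + 1)) :
    Tendsto t atTop (𝓝 0) :=
  squeeze_zero_norm (fun n => (h n).le) tendsto_one_div_add_atTop_nhds_zero_nat

theorem main (hg : 4 ≤ g) (hS : IsCompact Sg) (hp : ∀ s ∈ Sg, ∀ i, 0 < (s i).im)
    (hK : IsCompact K) (hsym : ∀ β ∈ K, ∀ i j, β i j = β j i)
    (hne : ∀ β ∈ K, ∀ i j, i ≠ j → β i j ≠ 0) {η : ℝ} (hη : 0 < η) :
    ∃ ε > 0, ∀ s ∈ Sg, ∀ β ∈ K, ∀ t : ℂ, t ≠ 0 → ‖t‖ < ε →
      ∀ τ : Matrix (Fin g) (Fin g) ℂ, (∀ i, τ i i = s i) →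
        (∀ i j, i ≠ j → τ i j = t * β i j) →
        AM.Siegel τ ∧ ¬ AM.DimGE (g - 3) (AM.singTheta τ) ∧
          (AM.DimGE (g - 4) (AM.singTheta τ) → Concl η β τ) := by
  obtain ⟨ε0, hε0, hsie⟩ := siegel_small hS hp hK hsym
  by_contra hcon
  obtain ⟨s, β, t, τ, h1, h2, h3, h4, h5, h6, h7⟩ := seq_of_not (Q := fun s β t τ =>
    ‖t‖ < ε0 → (¬ AM.DimGE (g - 3) (AM.singTheta τ) ∧
      (AM.DimGE (g - 4) (AM.singTheta τ) → Concl η β τ))) (fun ⟨ε, hε, h⟩ => hcon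
      ⟨min ε ε0, lt_min hε hε0, fun s hs β hβ t ht0 ht τ a1 a2 =>
        ⟨hsie s hs β hβ t (ht.trans_le (min_le_right _ _)) τ a1 a2,
          h s hs β hβ t ht0 (ht.trans_le (min_le_left _ _)) τ a1 a2
            (ht.trans_le (min_le_right _ _))⟩⟩)
  have ht := tendsto_of_lt h4
  have hsmall : ∀ n, ‖t n‖ < ε0 := by
    intro n
    by_contra hn
    exact h7 n fun h => absurd h hn
  have hsi : ∀ n, AM.Siegel (τ n) := fun n =>
    hsie (s n) (h1 n) (β n) (h2 n) (t n) (hsmall n) (τ n) (h5 n) (h6 n)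
  have h8 : ∀ n, AM.DimGE (g - 3) (AM.singTheta (τ n)) ∨
      (AM.DimGE (g - 4) (AM.singTheta (τ n)) ∧ ¬ Concl η (β n) (τ n)) := by
    intro n
    by_contra hn
    refine h7 n fun _ => ⟨fun hd => hn (Or.inl hd), fun hd => ?_⟩
    by_contra hc
    exact hn (Or.inr ⟨hd, hc⟩)
  -- pass to a subsequence where always the same alternative holds
  by_cases hinf : ∃ᶠ n in (atTop : Filter ℕ), AM.DimGE (g - 3) (AM.singTheta (τ n))
  · obtain ⟨ns, hns, hns'⟩ := Filter.extraction_of_frequently_atTop hinf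
    obtain ⟨C, -⟩ := exists_sq (m := g - 3) hS hp hK hsym hne (fun n => s (ns n))
      (fun n => β (ns n)) (fun n => t (ns n)) (fun n => τ (ns n)) (fun n => h1 _) (fun n => h2 _)
      (fun n => h3 _) (ht.comp hns.tendsto_atTop) (fun n => h5 _) (fun n => h6 _)
      (fun n => hsi _) hns'
    exact C.no_q1 (by omega)
  · have hev : ∃ᶠ n in (atTop : Filter ℕ), AM.DimGE (g - 4) (AM.singTheta (τ n)) ∧
        ¬ Concl η (β n) (τ n) := by
      rw [Filter.not_frequently] at hinf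
      refine (hinf.mono fun n hn => ?_).frequently
      exact (h8 n).resolve_left hn
    obtain ⟨ns, hns, hns'⟩ := Filter.extraction_of_frequently_atTop hev
    obtain ⟨C, β0, ph, hτ, hβ0, hph, hb, hlim⟩ := exists_sq (m := g - 4) hS hp hK hsym hne
      (fun n => s (ns n)) (fun n => β (ns n)) (fun n => t (ns n)) (fun n => τ (ns n))
      (fun n => h1 _) (fun n => h2 _) (fun n => h3 _) (ht.comp hns.tendsto_atTop)
      (fun n => h5 _) (fun n => h6 _) (fun n => hsi _) (fun n => (hns' n).1)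
    have h9 := C.concl (by omega) hph hb hlim hη
    obtain ⟨n, hn⟩ := h9.exists
    rw [hτ] at hn
    exact (hns' n).2 hn

end AMP
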