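import Pool.Agent.Lib.MP_b57e3c_ag_P.Defs

set_option autoImplicit false

/-!
# Module Mr : recursion for matching polynomials

`mu_empty`: for `S = ∅`, `IsMt ∅ A` (with `A ⊆ prs g`) forces `dg A i = 0` for all `i`, hence `A
= ∅` (a pair `e ∈ A` has `dg A e.1 ≥ 1`). `mu_congr`: the products are over subsets of `S`.

`mu_rec`: split the sum over `A` according to `dg A i = 0` or `dg A i = 1` (for `IsMt S A`,
`dg A i ≤ 1`).
(1) If `dg A i = 0`: `IsMt S A ↔ IsMt (S.erase i) A`, and the set of the unmatched elements of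
`S` is `insert i` of the one for `S.erase i`; so the term of `A` in `μ_S` is `v i` times the term
of `A` in `μ_{S - i}`. Conversely `IsMt (S.erase i) A` implies `dg A i = 0`.
(2) If `dg A i = 1`: there is exactly one pair `e ∈ A` containing `i`; let `j ≠ i` be its other
element, so `e = pr i j := if i < j then (i, j) else (j, i)`, `b e.1 e.2 = b i j` by symmetry.
`A = insert e A'`, `A' = A.erase e`, `dg (insert e A') k = dg A' k + (if k = i ∨ k = j then 1
else 0)` for `e ∉ A'`. So `j ∈ S.erase i`, `IsMt ((S.erase i).erase j) A'`, and the unmatched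
elements of `S` for `A` are those of `(S.erase i).erase j` for `A'`. Conversely, for `j ∈ S.erase
i` and `A' ⊆ prs g` with `IsMt ((S.erase i).erase j) A'` the set `insert (pr i j) A'` is a
matching inside `S` with `dg i = 1` (`pr i j ∉ A'` since `dg A' i = 0`), and `(j, A')` is
recovered from it. Use `Finset.sum_bij'` (or `Finset.sum_sigma'` and `Finset.sum_nbij'`) between
the pairs `(j, A')` and the `A` of case (2).
-/

open Complex Filter Topology

namespace AMP

variable {g : ℕ}

private theorem Mr_dg_empty (i : Fin g) : dg (∅ : Finset (Fin g × Fin g)) i = 0 := by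
  unfold dg
  rw [Finset.filter_empty, Finset.card_empty]

theorem mu_empty (b : Fin g → Fin g → ℂ) (v : Fin g → ℂ) : mu b ∅ v = 1 := by
  unfold mu
  rw [Finset.sum_eq_single ∅]
  · rw [if_pos, Finset.prod_empty, Finset.filter_empty, Finset.prod_empty, one_mul]
    intro i
    rw [Mr_dg_empty]
    exact ⟨zero_le_one, fun h => absurd rfl h⟩
  · intro A _ hA
    rw [if_neg]
    intro h
    obtain ⟨e, he⟩ := Finset.nonempty_iff_ne_empty.2 hA
    have h1 : dg A e.1 ≠ 0 := by
      unfold dg
      rw [Finset.card_ne_zero]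
      exact ⟨e, Finset.mem_filter.2 ⟨he, Or.inl rfl⟩⟩
    exact absurd ((h e.1).2 h1) (Finset.notMem_empty _)
  · intro h
    exact absurd (Finset.empty_mem_powerset _) h

theorem mu_congr (b : Fin g → Fin g → ℂ) (S : Finset (Fin g)) {v v' : Fin g → ℂ}
    (h : ∀ i ∈ S, v i = v' i) : mu b S v = mu b S v' := by
  unfold mu
  refine Finset.sum_congr rfl fun A _ => ?_
  rw [Finset.prod_congr rfl fun i hi => h i (Finset.mem_filter.1 hi).1]

/-- the pair with the elements `i`, `j` -/
private def Mr_pr (i j : Fin g) : Fin g × Fin g := if i < j then (i, j) else (j, i)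

private theorem Mr_iff (i j k : Fin g) :
    ((Mr_pr i j).1 = k ∨ (Mr_pr i j).2 = k) ↔ (k = i ∨ k = j) := by
  unfold Mr_pr
  split_ifs
  · constructor
    · rintro (h | h)
      · exact Or.inl h.symm
      · exact Or.inr h.symm
    · rintro (h | h)
      · exact Or.inl h.symm
      · exact Or.inr h.symm
  · constructor
    · rintro (h | h)
      · exact Or.inr h.symm
      · exact Or.inl h.symm
    · rintro (h | h)
      · exact Or.inr h.symm
      · exact Or.inl h.symm

private theorem Mr_mem {i j : Fin g} (hij : j ≠ i) : Mr_pr i j ∈ prs g := by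
  unfold Mr_pr prs
  rw [Finset.mem_filter]
  refine ⟨Finset.mem_univ _, ?_⟩
  split_ifs with h
  · exact h
  · exact lt_of_le_of_ne (not_lt.1 h) hij

private theorem Mr_b (b : Fin g → Fin g → ℂ) (hb : ∀ i j, b i j = b j i) (i j : Fin g) :
    b (Mr_pr i j).1 (Mr_pr i j).2 = b i j := by
  unfold Mr_pr
  split_ifs
  · rfl
  · exact hb j i

private theorem Mr_inj {i j j' : Fin g} (h : Mr_pr i j = Mr_pr i j') (hj : j ≠ i)
    (_ : j' ≠ i) : j = j' := by
  have h1 := (Mr_iff i j' j).1 (h ▸ (Mr_iff i j j).2 (Or.inr rfl))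
  exact h1.resolve_left hj

private theorem Mr_dg {i j : Fin g} {t : Finset (Fin g × Fin g)} (ht : Mr_pr i j ∉ t)
    (k : Fin g) : dg (insert (Mr_pr i j) t) k = dg t k + if k = i ∨ k = j then 1 else 0 := by
  unfold dg
  rw [Finset.filter_insert]
  by_cases h : k = i ∨ k = j
  · rw [if_pos ((Mr_iff i j k).2 h), if_pos h, Finset.card_insert_of_notMem]
    exact fun h' => ht (Finset.mem_filter.1 h').1
  · rw [if_neg (fun h' => h ((Mr_iff i j k).1 h')), if_neg h, add_zero]

private theorem Mr_mt {S : Finset (Fin g)} {i j : Fin g} (hi : i ∈ S) (hj : j ∈ S)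
    {t : Finset (Fin g × Fin g)} (ht : Mr_pr i j ∉ t) :
    IsMt S (insert (Mr_pr i j) t) ↔ IsMt ((S.erase i).erase j) t := by
  constructor
  · intro h k
    obtain ⟨h1, h2⟩ := h k
    rw [Mr_dg ht] at h1 h2
    refine ⟨by omega, fun h3 => ?_⟩
    have h4 : ¬ (k = i ∨ k = j) := by
      intro h5
      rw [if_pos h5] at h1
      omega
    push Not at h4
    rw [Finset.mem_erase, Finset.mem_erase]
    exact ⟨h4.2, h4.1, h2 (by omega)⟩
  · intro h k
    obtain ⟨h1, h2⟩ := h k
    rw [Mr_dg ht]
    by_cases h5 : k = i ∨ k = j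
    · have h3 : dg t k = 0 := by
        by_contra h6
        have h7 := h2 h6
        rw [Finset.mem_erase, Finset.mem_erase] at h7
        rcases h5 with h5 | h5
        · exact h7.2.1 h5
        · exact h7.1 h5
      rw [if_pos h5]
      refine ⟨by omega, fun _ => ?_⟩
      rcases h5 with h5 | h5
      · rw [h5]
        exact hi
      · rw [h5]
        exact hj
    · rw [if_neg h5, add_zero]
      exact ⟨h1, fun h6 => Finset.mem_of_mem_erase (Finset.mem_of_mem_erase (h2 h6))⟩

private theorem Mr_filter {S : Finset (Fin g)} {i j : Fin g} {t : Finset (Fin g × Fin g)}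
    (ht : Mr_pr i j ∉ t) : S.filter (fun k => dg (insert (Mr_pr i j) t) k = 0) =
      ((S.erase i).erase j).filter (fun k => dg t k = 0) := by
  ext k
  rw [Finset.mem_filter, Finset.mem_filter, Mr_dg ht, Finset.mem_erase, Finset.mem_erase]
  by_cases h : k = i ∨ k = j
  · rw [if_pos h]
    constructor
    · rintro ⟨_, h2⟩
      omega
    · rintro ⟨h1, _⟩
      rcases h with h | h
      · exact absurd h h1.2.1
      · exact absurd h h1.1
  · rw [if_neg h, add_zero]
    push Not at h
    constructor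
    · rintro ⟨h1, h2⟩
      exact ⟨⟨h.2, h.1, h1⟩, h2⟩
    · rintro ⟨h1, h2⟩
      exact ⟨h1.2.2, h2⟩

private theorem Mr_card {S : Finset (Fin g)} {A : Finset (Fin g × Fin g)} (hA : A ⊆ prs g)
    (h : IsMt S A) (i : Fin g) :
    dg A i = ((S.erase i).filter (fun j => Mr_pr i j ∈ A)).card := by
  unfold dg
  refine (Finset.card_bij (fun j _ => Mr_pr i j) ?_ ?_ ?_).symm
  · intro j hj
    rw [Finset.mem_filter] at hj ⊢
    exact ⟨hj.2, (Mr_iff i j i).2 (Or.inl rfl)⟩
  · intro j hj j' hj' he
    rw [Finset.mem_filter, Finset.mem_erase] at hj hj'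
    exact Mr_inj he hj.1.1 hj'.1.1
  · rintro ⟨x, y⟩ hxy
    rw [Finset.mem_filter] at hxy
    obtain ⟨h1, h2⟩ := hxy
    have h3 : x < y := (Finset.mem_filter.1 (hA h1)).2
    rcases h2 with h2 | h2
    · have h2' : x = i := h2
      subst h2'
      refine ⟨y, ?_, ?_⟩
      · rw [Finset.mem_filter, Finset.mem_erase]
        refine ⟨⟨h3.ne', ?_⟩, ?_⟩
        · refine (h y).2 ?_
          unfold dg
          rw [Finset.card_ne_zero]
          exact ⟨(x, y), Finset.mem_filter.2 ⟨h1, Or.inr rfl⟩⟩
        · unfold Mr_pr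
          rw [if_pos h3]
          exact h1
      · unfold Mr_pr
        rw [if_pos h3]
    · have h2' : y = i := h2
      subst h2'
      refine ⟨x, ?_, ?_⟩
      · rw [Finset.mem_filter, Finset.mem_erase]
        refine ⟨⟨h3.ne, ?_⟩, ?_⟩
        · refine (h x).2 ?_
          unfold dg
          rw [Finset.card_ne_zero]
          exact ⟨(x, y), Finset.mem_filter.2 ⟨h1, Or.inl rfl⟩⟩
        · unfold Mr_pr
          rw [if_neg (not_lt.2 h3.le)]
          exact h1
      · unfold Mr_pr
        rw [if_neg (not_lt.2 h3.le)]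

open Classical in
/-- the term of `A` in the matching polynomial -/
private noncomputable def Mr_T (b : Fin g → Fin g → ℂ) (S : Finset (Fin g)) (v : Fin g → ℂ)
    (A : Finset (Fin g × Fin g)) : ℂ :=
  if IsMt S A then (∏ e ∈ A, b e.1 e.2) * ∏ i ∈ S.filter (fun i => dg A i = 0), v i else 0

private theorem Mr_mu (b : Fin g → Fin g → ℂ) (S : Finset (Fin g)) (v : Fin g → ℂ) :
    mu b S v = ∑ A ∈ (prs g).powerset, Mr_T b S v A := rfl

private theorem Mr_one (b : Fin g → Fin g → ℂ) {S : Finset (Fin g)} {i : Fin g} (hi : i ∈ S)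
    (v : Fin g → ℂ) (A : Finset (Fin g × Fin g)) :
    (if dg A i = 0 then Mr_T b S v A else 0) = v i * Mr_T b (S.erase i) v A := by
  unfold Mr_T
  by_cases h : dg A i = 0
  · rw [if_pos h]
    have h1 : IsMt S A ↔ IsMt (S.erase i) A := by
      constructor
      · intro h2 k
        refine ⟨(h2 k).1, fun h3 => ?_⟩
        rw [Finset.mem_erase]
        refine ⟨?_, (h2 k).2 h3⟩
        rintro rfl
        exact h3 h
      · intro h2 k
        exact ⟨(h2 k).1, fun h3 => Finset.mem_of_mem_erase ((h2 k).2 h3)⟩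
    by_cases h2 : IsMt S A
    · rw [if_pos h2, if_pos (h1.1 h2)]
      have h3 : S.filter (fun i => dg A i = 0) =
          insert i ((S.erase i).filter (fun i => dg A i = 0)) := by
        ext k
        rw [Finset.mem_insert, Finset.mem_filter, Finset.mem_filter, Finset.mem_erase]
        constructor
        · rintro ⟨h4, h5⟩
          by_cases h6 : k = i
          · exact Or.inl h6
          · exact Or.inr ⟨⟨h6, h4⟩, h5⟩
        · rintro (h4 | h4)
          · rw [h4]
            exact ⟨hi, h⟩
          · exact ⟨h4.1.2, h4.2⟩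
      have h4 : i ∉ (S.erase i).filter (fun i => dg A i = 0) := by
        rw [Finset.mem_filter, Finset.mem_erase]
        exact fun h5 => h5.1.1 rfl
      rw [h3, Finset.prod_insert h4]
      ring
    · rw [if_neg h2, if_neg (fun h3 => h2 (h1.2 h3)), mul_zero]
  · rw [if_neg h, if_neg, mul_zero]
    intro h2
    exact absurd ((h2 i).2 h) (Finset.notMem_erase i S)

private theorem Mr_two (b : Fin g → Fin g → ℂ) {S : Finset (Fin g)} {i : Fin g}
    (v : Fin g → ℂ) {A : Finset (Fin g × Fin g)} (hA : A ⊆ prs g) :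
    (if dg A i = 0 then 0 else Mr_T b S v A) =
      ∑ j ∈ S.erase i, if Mr_pr i j ∈ A then Mr_T b S v A else 0 := by
  rw [← Finset.sum_filter, Finset.sum_const, nsmul_eq_mul]
  by_cases h : IsMt S A
  · rw [← Mr_card hA h i]
    have h1 := (h i).1
    by_cases h2 : dg A i = 0
    · rw [if_pos h2, h2, Nat.cast_zero, zero_mul]
    · have h3 : dg A i = 1 := by omega
      rw [if_neg h2, h3, Nat.cast_one, one_mul]
  · have h1 : Mr_T b S v A = 0 := by
      unfold Mr_T
      rw [if_neg h]
    rw [h1, mul_zero, ite_self]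

private theorem Mr_three (b : Fin g → Fin g → ℂ) (hb : ∀ i j, b i j = b j i)
    {S : Finset (Fin g)} {i j : Fin g} (hi : i ∈ S) (hj : j ∈ S.erase i) (v : Fin g → ℂ) :
    (∑ A ∈ (prs g).powerset, if Mr_pr i j ∈ A then Mr_T b S v A else 0) =
      b i j * mu b ((S.erase i).erase j) v := by
  rw [Finset.mem_erase] at hj
  have hmem := Mr_mem hj.1
  have hins : prs g = insert (Mr_pr i j) ((prs g).erase (Mr_pr i j)) :=
    (Finset.insert_erase hmem).symm
  have hnot : Mr_pr i j ∉ (prs g).erase (Mr_pr i j) := Finset.notMem_erase _ _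
  rw [Mr_mu, hins, Finset.sum_powerset_insert hnot, Finset.sum_powerset_insert hnot]
  have h1 : ∀ t ∈ ((prs g).erase (Mr_pr i j)).powerset, Mr_pr i j ∉ t := fun t ht h =>
    hnot (Finset.mem_powerset.1 ht h)
  have e1 : (∑ t ∈ ((prs g).erase (Mr_pr i j)).powerset,
      if Mr_pr i j ∈ t then Mr_T b S v t else 0) = 0 :=
    Finset.sum_eq_zero fun t ht => if_neg (h1 t ht)
  have e2 : (∑ t ∈ ((prs g).erase (Mr_pr i j)).powerset,
      Mr_T b ((S.erase i).erase j) v (insert (Mr_pr i j) t)) = 0 := by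
    refine Finset.sum_eq_zero fun t ht => ?_
    unfold Mr_T
    rw [if_neg]
    intro h
    have h2 := Mr_dg (h1 t ht) i
    rw [if_pos (Or.inl rfl)] at h2
    have h3 := (h i).2 (by omega)
    rw [Finset.mem_erase, Finset.mem_erase] at h3
    exact h3.2.1 rfl
  rw [e1, e2, zero_add, add_zero, Finset.mul_sum]
  refine Finset.sum_congr rfl fun t ht => ?_
  rw [if_pos (Finset.mem_insert_self _ _)]
  unfold Mr_T
  rw [Mr_filter (h1 t ht), Finset.prod_insert (h1 t ht), Mr_b b hb]
  by_cases h : IsMt ((S.erase i).erase j) t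
  · rw [if_pos h, if_pos ((Mr_mt hi hj.2 (h1 t ht)).2 h)]
    ring
  · rw [if_neg h, if_neg (fun h' => h ((Mr_mt hi hj.2 (h1 t ht)).1 h')), mul_zero]

theorem mu_rec (b : Fin g → Fin g → ℂ) (hb : ∀ i j, b i j = b j i) {S : Finset (Fin g)}
    {i : Fin g} (hi : i ∈ S) (v : Fin g → ℂ) :
    mu b S v = v i * mu b (S.erase i) v +
      ∑ j ∈ S.erase i, b i j * mu b ((S.erase i).erase j) v := by
  have h1 : mu b S v = (∑ A ∈ (prs g).powerset, if dg A i = 0 then Mr_T b S v A else 0) +
      ∑ A ∈ (prs g).powerset, if dg A i = 0 then 0 else Mr_T b S v A := by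
    rw [Mr_mu, ← Finset.sum_add_distrib]
    refine Finset.sum_congr rfl fun A _ => ?_
    split_ifs
    · rw [add_zero]
    · rw [zero_add]
  rw [h1, Mr_mu b (S.erase i), Finset.mul_sum]
  refine congrArg₂ (· + ·) (Finset.sum_congr rfl fun A _ => Mr_one b hi v A) ?_
  rw [Finset.sum_congr rfl fun A hA => Mr_two b (i := i) (S := S) v (Finset.mem_powerset.1 hA),
    Finset.sum_comm]
  exact Finset.sum_congr rfl fun j hj => Mr_three b hb hi hj v

end AMP
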