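import Pool.Agent.Lib.MP_b57e3c_ag_P.Df
import Pool.Agent.Lib.MP_b57e3c_ag_P.GrB
import Pool.Agent.Lib.MP_b57e3c_ag_M.Tub

set_option autoImplicit false

/-!
# Module Ps : the normalised first derivatives

`nrm_ne`: all factors are nonzero (`dv_ne`; `gs_zero` and `Go ⊆ Gs`).
`psi_diff`: `pf τ i` is differentiable (`pf_diff`), `sc r S` is linear, `nrm` is a differentiable
function of `w` (product of `vt_diff` composed with coordinates), nonzero at `w`; use
`differentiableAt_pi`.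
`psi_fderiv`: derivative of the quotient in the direction `y = glue S x 0` (`y j = x j` for `j ∈
S`, `0` otherwise; `= ∑_{j ∈ S} x_j e_j`). `nrm τ r S` does not change in these directions (it
depends only on the coordinates outside `S`), so its derivative in direction `y` vanishes, and
the derivative of `w ↦ pf τ i (sc r S w)` in direction `y` is `fderiv (pf τ i) (sc r S w) (sc r S
y) = ∑_j r x_j pf2 τ j i (sc r S w)`. (The easiest way: `fderiv ... y = deriv (fun t => psi (w +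
t y)) 0`, `HasDerivAt` in one variable.)
-/

open Complex Filter Topology

namespace AMP

open AMC

variable {g : ℕ} {τ : Matrix (Fin g) (Fin g) ℂ} {r : ℝ} {S : Finset (Fin g)}
  {w : Fin g → ℂ}

/-- normalised first derivatives in the directions in `S` -/
noncomputable def psi {g : ℕ} (τ : Matrix (Fin g) (Fin g) ℂ) (r : ℝ) (S : Finset (Fin g))
    (w : Fin g → ℂ) : {k // k ∈ S} → ℂ :=
  fun i => (r : ℂ) * pf τ i (sc r S w) / nrm τ r S w

theorem siegel_im {g : ℕ} {τ : Matrix (Fin g) (Fin g) ℂ} (hτ : AM.Siegel τ) (i : Fin g) :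
    0 < (τ i i).im := by
  exact hτ.2.diag_pos (i := i)

theorem nrm_ne (hτ : AM.Siegel τ) (hr : 0 < r) (hw : ∀ k, k ∉ S → w k ∈ Go (τ k k) ∧ w k ≠ 0) :
    nrm τ r S w ≠ 0 := by
  have h1 : ∀ k ∈ Sᶜ, vt (τ k k) (w k) ≠ 0 := by
    intro k hk h0
    have hk' : k ∉ S := Finset.mem_compl.1 hk
    obtain ⟨h2, h3⟩ := hw k hk'
    exact h3 (gs_zero (siegel_im hτ k) ⟨h2.1.le, h2.2.le⟩ h0)
  unfold nrm
  exact mul_ne_zero (mul_ne_zero (pow_ne_zero _ (Complex.ofReal_ne_zero.2 hr.ne'))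
    (Finset.prod_ne_zero_iff.2 fun i _ => dv_ne (siegel_im hτ i)))
    (Finset.prod_ne_zero_iff.2 h1)

private theorem Ps_sc {g : ℕ} {r : ℝ} {S : Finset (Fin g)} (w : Fin g → ℂ) :
    DifferentiableAt ℂ (sc r S) w := by
  refine differentiableAt_pi.2 fun i => ?_
  unfold sc
  split_ifs
  · fun_prop
  · fun_prop

private theorem Ps_nrm {g : ℕ} {τ : Matrix (Fin g) (Fin g) ℂ} {r : ℝ} {S : Finset (Fin g)}
    (hτ : AM.Siegel τ) (w : Fin g → ℂ) : DifferentiableAt ℂ (nrm τ r S) w := by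
  unfold nrm
  refine DifferentiableAt.const_mul ?_ _
  have h : ∀ k ∈ Sᶜ, HasFDerivAt (fun w : Fin g → ℂ => vt (τ k k) (w k))
      (fderiv ℂ (fun w : Fin g → ℂ => vt (τ k k) (w k)) w) w := fun k _ =>
    DifferentiableAt.hasFDerivAt
      ((vt_diff (siegel_im hτ k)).differentiableAt.comp w (differentiableAt_apply k w))
  exact (HasFDerivAt.finsetProd h).differentiableAt

private theorem Ps_sum {g : ℕ} (L : (Fin g → ℂ) →L[ℂ] ℂ) (v : Fin g → ℂ) :
    L v = ∑ j, v j * L (Pi.single j 1) := by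
  have h : v = ∑ j, v j • (Pi.single j 1 : Fin g → ℂ) := by
    funext k
    rw [Finset.sum_apply, Finset.sum_eq_single k]
    · simp
    · intro j _ hj
      simp [Pi.single_eq_of_ne (Ne.symm hj)]
    · intro hk
      exact absurd (Finset.mem_univ k) hk
  conv_lhs => rw [h, map_sum]
  exact Finset.sum_congr rfl fun j _ => by rw [map_smul, smul_eq_mul]

private theorem Ps_lin {g : ℕ} {r : ℝ} {S : Finset (Fin g)} (w y : Fin g → ℂ) (t : ℂ) :
    sc r S (w + t • y) = sc r S w + t • sc r S y := by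
  funext k
  simp only [sc, Pi.add_apply, Pi.smul_apply, smul_eq_mul]
  split_ifs
  · ring
  · ring

theorem psi_diff (hτ : AM.Siegel τ) (hr : 0 < r)
    (hw : ∀ k, k ∉ S → w k ∈ Go (τ k k) ∧ w k ≠ 0) : DifferentiableAt ℂ (psi τ r S) w := by
  refine differentiableAt_pi.2 fun i => ?_
  have h1 : DifferentiableAt ℂ (fun w : Fin g → ℂ => (r : ℂ) * pf τ i (sc r S w)) w :=
    ((pf_diff hτ i).differentiableAt.comp w (Ps_sc w)).const_mul _
  have h2 : DifferentiableAt ℂ (fun w : Fin g → ℂ => (nrm τ r S w)⁻¹) w :=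
    (Ps_nrm hτ w).inv (nrm_ne hτ hr hw)
  have h3 := h1.mul h2
  refine h3.congr_of_eventuallyEq (Filter.Eventually.of_forall fun w' => ?_)
  exact div_eq_mul_inv _ _

theorem psi_fderiv (hτ : AM.Siegel τ) (hr : 0 < r)
    (hw : ∀ k, k ∉ S → w k ∈ Go (τ k k) ∧ w k ≠ 0) (x : {k // k ∈ S} → ℂ)
    (i : {k // k ∈ S}) :
    fderiv ℂ (psi τ r S) w (glue S x 0) i =
      ∑ j : {k // k ∈ S}, ((r : ℂ) ^ 2 * pf2 τ j i (sc r S w) / nrm τ r S w) * x j := by
  set y : Fin g → ℂ := glue S x 0 with hy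
  have hy1 : ∀ k, k ∉ S → y k = 0 := by
    intro k hk
    rw [hy, glue, dif_neg hk, Pi.zero_apply]
  have hy2 : ∀ j : {k // k ∈ S}, y j = x j := fun j => glue_mem x 0 j
  have hN : ∀ t : ℂ, nrm τ r S (w + t • y) = nrm τ r S w := by
    intro t
    unfold nrm
    congr 1
    refine Finset.prod_congr rfl fun k hk => ?_
    have hk' : k ∉ S := Finset.mem_compl.1 hk
    rw [Pi.add_apply, Pi.smul_apply, hy1 k hk', smul_zero, add_zero]
  have hl : ∀ u z : Fin g → ℂ, HasDerivAt (fun t : ℂ => u + t • z) z 0 := by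
    intro u z
    have h1 := ((hasDerivAt_id (0 : ℂ)).smul_const z).const_add u
    rw [one_smul] at h1
    exact h1
  have h1 : HasDerivAt (fun t : ℂ => psi τ r S (w + t • y)) (fderiv ℂ (psi τ r S) w y) 0 := by
    have h2 : HasFDerivAt (psi τ r S) (fderiv ℂ (psi τ r S) w) (w + (0 : ℂ) • y) := by
      rw [zero_smul, add_zero]
      exact (psi_diff hτ hr hw).hasFDerivAt
    exact h2.comp_hasDerivAt (0 : ℂ) (hl w y)
  have h3 : HasDerivAt (fun t : ℂ => psi τ r S (w + t • y) i) (fderiv ℂ (psi τ r S) w y i) 0 :=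
    (hasDerivAt_pi.1 h1) i
  have h4 : HasDerivAt (fun t : ℂ => pf τ i (sc r S w + t • sc r S y))
      (fderiv ℂ (pf τ i) (sc r S w) (sc r S y)) 0 := by
    have h5 : HasFDerivAt (pf τ i) (fderiv ℂ (pf τ i) (sc r S w))
        (sc r S w + (0 : ℂ) • sc r S y) := by
      rw [zero_smul, add_zero]
      exact (pf_diff hτ i).differentiableAt.hasFDerivAt
    exact h5.comp_hasDerivAt (0 : ℂ) (hl _ _)
  have h6 : (fun t : ℂ => psi τ r S (w + t • y) i) = fun t : ℂ =>
      (r : ℂ) * pf τ i (sc r S w + t • sc r S y) / nrm τ r S w := by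
    funext t
    show (r : ℂ) * pf τ i (sc r S (w + t • y)) / nrm τ r S (w + t • y) = _
    rw [hN t, Ps_lin]
  have h7 : HasDerivAt (fun t : ℂ => (r : ℂ) * pf τ i (sc r S w + t • sc r S y) / nrm τ r S w)
      ((r : ℂ) * fderiv ℂ (pf τ i) (sc r S w) (sc r S y) / nrm τ r S w) 0 :=
    (h4.const_mul (r : ℂ)).div_const _
  rw [h6] at h3
  rw [h3.unique h7, Ps_sum]
  have h8 : ∑ j, sc r S y j * fderiv ℂ (pf τ i) (sc r S w) (Pi.single j 1) =
      ∑ j ∈ S, (r : ℂ) * y j * pf2 τ j i (sc r S w) := by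
    rw [← Finset.sum_subset (Finset.subset_univ S)]
    · refine Finset.sum_congr rfl fun j hj => ?_
      rw [sc, if_pos hj, pf2]
    · intro j _ hj
      rw [sc, if_neg hj, hy1 j hj, zero_mul]
  rw [h8, ← Finset.sum_coe_sort S fun j => (r : ℂ) * y j * pf2 τ j i (sc r S w),
    Finset.mul_sum, Finset.sum_div]
  refine Finset.sum_congr rfl fun j _ => ?_
  rw [hy2 j]
  ring

end AMP
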