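import Pool.Agent.Lib.MP_b57e3c_ag_P.Um

set_option autoImplicit false

/-!
# Module Sl : scaled sets

`mp_scale`: `D = sc r S` is an invertible diagonal linear map. If `φ` is a test function for `m`
with a local maximum on `{w | a + D w ∈ M}` at `p`, then `ψ z = φ (D⁻¹ (z - a))` is a test
function for `m` (`z ↦ φ (D⁻¹ z)` is: `P ∘ D⁻¹` is entire, `HForm h (D⁻¹ z) = HForm h' z` with
`h' i j = h i j / (d_i d_j)` (real `d`), positive definite on `D V`, same dimension; then
`TestFn.comp_add` with `-a`), and it has a local maximum on `M` at `a + D p` (`D` is a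
homeomorphism). `sc_cont`: each coordinate is a continuous function. `N_closed`: preimage of a
closed set. `Lim_mp`, `Lim_closed`: `Lim S = UL U (fun n => N n S)` by definition.
`N_insert`: `sc r (insert k S) w = sc r S (update w k (r * w k))` for `k ∉ S`.
`siegel_diag`: diagonal entries of a positive definite matrix are positive
(`Matrix.PosDef.diag_pos` or the value at the basis vector).
-/

open Complex Filter Topology

namespace AMP

open AMC

variable {g m : ℕ}

theorem sc_cont (r : ℝ) (S : Finset (Fin g)) : Continuous (sc r S) := by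
  refine continuous_pi fun i => ?_
  unfold sc
  by_cases h : i ∈ S
  · simp only [h, if_true]
    fun_prop
  · simp only [h, if_false]
    fun_prop

/-- diagonal real scalings preserve test functions -/
theorem Sl_test {φ : (Fin g → ℂ) → ℝ} (hφ : TestFn m φ) {e : Fin g → ℝ} (he : ∀ i, e i ≠ 0) :
    TestFn m (fun z => φ (fun i => (e i : ℂ) * z i)) := by
  obtain ⟨P, h, V, hP, hφ, hV, hpos⟩ := hφ
  have hne : ∀ i, (e i : ℂ) ≠ 0 := fun i => Complex.ofReal_ne_zero.2 (he i)
  let E : (Fin g → ℂ) ≃ₗ[ℂ] (Fin g → ℂ) :=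
    LinearEquiv.piCongrRight fun i => LinearEquiv.smulOfNeZero ℂ ℂ (e i : ℂ) (hne i)
  have hE : ∀ z, E z = fun i => (e i : ℂ) * z i := fun z => by
    funext i
    simp [E]
  have hH : ∀ z, HForm (Matrix.of fun i j => (e i : ℂ) * h i j * (e j : ℂ)) z =
      HForm h (fun i => (e i : ℂ) * z i) := by
    intro z
    unfold HForm
    congr 1
    refine Finset.sum_congr rfl fun i _ => Finset.sum_congr rfl fun j _ => ?_
    rw [Matrix.of_apply, map_mul, Complex.conj_ofReal]
    ring
  refine ⟨fun z => P (fun i => (e i : ℂ) * z i),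
    Matrix.of fun i j => (e i : ℂ) * h i j * (e j : ℂ), V.map E.symm.toLinearMap, ?_, ?_, ?_, ?_⟩
  · refine hP.comp ?_
    fun_prop
  · intro z
    beta_reduce
    rw [hH, hφ]
  · have h1 : Module.finrank ℂ (V.map E.symm.toLinearMap) = Module.finrank ℂ V :=
      LinearEquiv.finrank_map_eq E.symm V
    rw [h1]
    exact hV
  · intro v hv hv0
    obtain ⟨u, hu, rfl⟩ := Submodule.mem_map.1 hv
    have hEu : (fun i => (e i : ℂ) * (E.symm.toLinearMap u) i) = u := by
      rw [← hE]
      exact E.apply_symm_apply u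
    rw [hH, hEu]
    refine hpos u hu ?_
    rintro rfl
    exact hv0 (map_zero _)

theorem mp_scale {M : Set (Fin g → ℂ)} (hm : MP m M) (a : Fin g → ℂ) {r : ℝ} (hr : r ≠ 0)
    (S : Finset (Fin g)) : MP m {w | a + sc r S w ∈ M} := by
  intro φ hφ p hp hmax
  have he : ∀ i, (if i ∈ S then r⁻¹ else 1 : ℝ) ≠ 0 := by
    intro i
    by_cases h : i ∈ S
    · simpa [h] using hr
    · simp [h]
  have h1 := (Sl_test hφ he).comp_add (-a)
  have hinv : ∀ w, (fun i => (((if i ∈ S then r⁻¹ else 1 : ℝ)) : ℂ) *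
      ((a + sc r S w) + -a) i) = w := by
    intro w
    funext i
    rw [add_neg_cancel_comm]
    unfold sc
    by_cases h : i ∈ S
    · simp only [h, if_true, Complex.ofReal_inv]
      rw [inv_mul_cancel_left₀ (Complex.ofReal_ne_zero.2 hr)]
    · simp [h]
  have hinv2 : ∀ z, a + sc r S (fun i => (((if i ∈ S then r⁻¹ else 1 : ℝ)) : ℂ) *
      (z + -a) i) = z := by
    intro z
    funext i
    rw [Pi.add_apply]
    unfold sc
    by_cases h : i ∈ S
    · simp only [h, if_true, Complex.ofReal_inv]
      rw [mul_inv_cancel_left₀ (Complex.ofReal_ne_zero.2 hr), Pi.add_apply, Pi.neg_apply]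
      ring
    · simp only [h, if_false, Complex.ofReal_one, one_mul]
      rw [Pi.add_apply, Pi.neg_apply]
      ring
  refine hm _ h1 (a + sc r S p) hp ?_
  have hc : Continuous fun z : Fin g → ℂ => (fun i =>
      (((if i ∈ S then r⁻¹ else 1 : ℝ)) : ℂ) * (z + -a) i) := by
    refine continuous_pi fun i => ?_
    exact continuous_const.mul ((continuous_apply i).comp (continuous_id.add continuous_const))
  have ht : Tendsto (fun z : Fin g → ℂ => (fun i =>
      (((if i ∈ S then r⁻¹ else 1 : ℝ)) : ℂ) * (z + -a) i))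
      (𝓝[M] (a + sc r S p)) (𝓝[{w | a + sc r S w ∈ M}] p) := by
    rw [tendsto_nhdsWithin_iff]
    refine ⟨?_, ?_⟩
    · have h2 := (hc.tendsto (a + sc r S p)).mono_left
        (nhdsWithin_le_nhds (s := M) (a := a + sc r S p))
      rwa [hinv p] at h2
    · filter_upwards [self_mem_nhdsWithin] with z hz
      rw [hinv2]
      exact hz
  have h3 := ht.eventually hmax
  filter_upwards [h3] with z hz
  rw [hinv p]
  exact hz

theorem siegel_diag {τ : Matrix (Fin g) (Fin g) ℂ} (hτ : AM.Siegel τ) (i : Fin g) :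
    0 < (τ i i).im := by
  have h := hτ.2.diag_pos (i := i)
  simpa using h

theorem Sq.N_closed (C : Sq g m) (n : ℕ) (S : Finset (Fin g)) : IsClosed (C.N n S) :=
  (C.closed n).preimage (continuous_const.add (sc_cont (C.r n) S))

theorem Sq.N_mp (C : Sq g m) (n : ℕ) (S : Finset (Fin g)) : MP m (C.N n S) :=
  mp_scale (C.mp n) (c1 (C.τ n)) (C.rpos n).ne' S

theorem Sq.Lim_eq (C : Sq g m) (S : Finset (Fin g)) : C.Lim S = UL C.U (fun n => C.N n S) :=
  rfl

theorem Sq.Lim_closed (C : Sq g m) (S : Finset (Fin g)) : IsClosed (C.Lim S) := by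
  rw [C.Lim_eq]
  exact UL_closed

theorem Sq.Lim_mp (C : Sq g m) (S : Finset (Fin g)) : MP m (C.Lim S) := by
  rw [C.Lim_eq]
  exact mp_ulim (Eventually.of_forall fun n => C.N_closed n S)
    (Eventually.of_forall fun n => C.N_mp n S)

theorem Sq.N_insert (C : Sq g m) (n : ℕ) {S : Finset (Fin g)} {k : Fin g} (hk : k ∉ S)
    (w : Fin g → ℂ) : w ∈ C.N n (insert k S) ↔
      Function.update w k ((C.r n : ℂ) * w k) ∈ C.N n S := by
  have h : sc (C.r n) (insert k S) w =
      sc (C.r n) S (Function.update w k ((C.r n : ℂ) * w k)) := by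
    funext i
    unfold sc
    by_cases hi : i = k
    · subst hi
      simp [hk]
    · simp [hi]
  unfold Sq.N
  rw [Set.mem_ofPred_eq, Set.mem_ofPred_eq, h]

end AMP
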