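import Pool.Agent.Lib.MP_b57e3c_ag_M.Tub

set_option autoImplicit false

/-!
# Module Tb : the tube lemma with local hypotheses

Exactly the proof of `AMC.tube` (Lib/MP_b57e3c_ag_M/Tub.lean), which assumes `Differentiable ℂ Ψ`
and `Ψ = 0` on all of `M`; these hypotheses are used only at the points `glue J (z0 + x) s` with
`x ∈ ball 0 δ`, `s ∈ D`. (`exists_graph` only needs the differentiability there; for `z ∈ M` with
`‖z|_J - z0‖ < δ`, `π z ∈ D` one has `z = glue J (z0 + x) (π z)`.) Copy and adapt.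
-/

open Complex Filter Topology Metric

namespace AMP

open AMC

theorem tube2 {g m : ℕ} (J : Finset (Fin g)) (hJ : J.card + m = g) {M : Set (Fin g → ℂ)}
    (hM : IsClosed M) (hMP : MP m M) (Ψ : (Fin g → ℂ) → ({k // k ∈ J} → ℂ))
    (z0 : {k // k ∈ J} → ℂ)
    (D : Set ({k // k ∉ J} → ℂ)) (hDo : IsOpen D) (hDc : IsPreconnected D)
    (A : ({k // k ∈ J} → ℂ) →L[ℂ] ({k // k ∈ J} → ℂ)) {c δ : ℝ} (hc : 0 < c) (hδ : 0 < δ)
    (hA : ∀ x, c * ‖x‖ ≤ ‖A x‖)
    (hΨ : ∀ x ∈ ball (0 : {k // k ∈ J} → ℂ) δ, ∀ s ∈ D,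
      DifferentiableAt ℂ Ψ (glue J (z0 + x) s))
    (hMΨ : ∀ x ∈ ball (0 : {k // k ∈ J} → ℂ) δ, ∀ s ∈ D,
      glue J (z0 + x) s ∈ M → Ψ (glue J (z0 + x) s) = 0)
    (h1 : ∀ x ∈ ball (0 : {k // k ∈ J} → ℂ) δ, ∀ s ∈ D, ∀ v : {k // k ∈ J} → ℂ,
      ‖fderiv ℂ Ψ (glue J (z0 + x) s) (glue J v 0) - A v‖ ≤ c / 2 * ‖v‖)
    (h2 : ∀ s ∈ D, ‖Ψ (glue J z0 s)‖ < c * δ / 8)
    (hne : ∃ x ∈ ball (0 : {k // k ∈ J} → ℂ) δ, ∃ s ∈ D, glue J (z0 + x) s ∈ M) :
    ∀ s ∈ D, ∃ x : {k // k ∈ J} → ℂ, ‖x‖ < δ / 2 ∧ glue J (z0 + x) s ∈ M ∧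
      ∀ x' ∈ ball (0 : {k // k ∈ J} → ℂ) δ, c / 2 * ‖x - x'‖ ≤ ‖Ψ (glue J (z0 + x') s)‖ := by
  classical
  set Ψ' : (({k // k ∈ J} → ℂ) × ({k // k ∉ J} → ℂ)) → ({k // k ∈ J} → ℂ) :=
    fun p => Ψ (glue J (z0 + p.1) p.2) with hΨ'
  have haff : ∀ p : ({k // k ∈ J} → ℂ) × ({k // k ∉ J} → ℂ),
      glue J (z0 + p.1) p.2 = glueL J (z0, 0) + glueL J p := by
    intro p
    rw [← map_add, glueL_apply]
    simp
  have hder : ∀ p : ({k // k ∈ J} → ℂ) × ({k // k ∉ J} → ℂ),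
      p.1 ∈ ball (0 : {k // k ∈ J} → ℂ) δ → p.2 ∈ D →
      HasFDerivAt Ψ' ((fderiv ℂ Ψ (glue J (z0 + p.1) p.2)).comp (glueL J)) p := by
    intro p hp1 hp2
    have e1 : HasFDerivAt (fun p : ({k // k ∈ J} → ℂ) × ({k // k ∉ J} → ℂ) =>
        glue J (z0 + p.1) p.2) (glueL J) p := by
      have : (fun p : ({k // k ∈ J} → ℂ) × ({k // k ∉ J} → ℂ) => glue J (z0 + p.1) p.2)
          = fun p => glueL J (z0, 0) + glueL J p := funext haff
      rw [this]
      exact (glueL J).hasFDerivAt.const_add _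
    exact (hΨ p.1 hp1 p.2 hp2).hasFDerivAt.comp p e1
  have hfd : ∀ x ∈ ball (0 : {k // k ∈ J} → ℂ) δ, ∀ s ∈ D, ∀ v : {k // k ∈ J} → ℂ,
      fderiv ℂ Ψ' (x, s) (v, 0)
      = fderiv ℂ Ψ (glue J (z0 + x) s) (glue J v 0) := by
    intro x hx s hs v
    rw [(hder (x, s) hx hs).fderiv]
    rfl
  have hz : ∀ s, glue J (z0 + (0 : {k // k ∈ J} → ℂ)) s = glue J z0 s := by
    intro s; rw [add_zero]
  obtain ⟨v, hv1, hv2, hv3, hv4⟩ := exists_graph (Ψ := Ψ') hDo hδ hc A hA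
    (fun x hx s hs => (hder (x, s) hx hs).differentiableAt)
    (fun x hx s hs w => by rw [hfd x hx s hs]; exact h1 x hx s hs w)
    (fun s hs => by
      have := h2 s hs
      simp only [hΨ']
      rwa [hz])
  -- the graph map
  set π : (Fin g → ℂ) →L[ℂ] ({k // k ∉ J} → ℂ) :=
    LinearMap.toContinuousLinearMap (LinearMap.funLeft ℂ ℂ (fun k : {k // k ∉ J} => (k : Fin g)))
    with hπ
  have hπa : ∀ z k, π z k = z k := fun z k => rfl
  have hπg : ∀ x s, π (glue J x s) = s := by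
    intro x s
    funext k
    rw [hπa, glue_notMem]
  set σ : ({k // k ∉ J} → ℂ) → (Fin g → ℂ) := fun s => glue J (z0 + v s) s with hσd
  set O : Set (Fin g → ℂ) := {z | ‖(fun k : {k // k ∈ J} => z k) - z0‖ < δ} with hO
  have hOo : IsOpen O := by
    refine isOpen_lt ?_ continuous_const
    refine (Continuous.sub ?_ continuous_const).norm
    exact continuous_pi fun k => continuous_apply _
  have hσdiff : DifferentiableOn ℂ σ D := by
    have : σ = fun s => glueL J (z0, 0) + glueL J (v s, s) := by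
      funext s
      exact haff (v s, s)
    rw [this]
    intro s hs
    have h1' : DifferentiableWithinAt ℂ (fun s => ((v s, s) :
        ({k // k ∈ J} → ℂ) × ({k // k ∉ J} → ℂ))) D s :=
      (hv1 s hs).prodMk differentiableWithinAt_id
    have h2' : DifferentiableWithinAt ℂ (fun s => glueL J (v s, s)) D s := by
      have h3 := (glueL J).hasFDerivAt.comp_hasFDerivWithinAt s h1'.hasFDerivWithinAt
      exact h3.differentiableWithinAt
    exact h2'.const_add _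
  have hgraph : ∀ z ∈ M, z ∈ O → π z ∈ D → z = σ (π z) := by
    intro z hz hzO hzD
    set x : {k // k ∈ J} → ℂ := (fun k : {k // k ∈ J} => z k) - z0 with hx
    have hxb : x ∈ ball (0 : {k // k ∈ J} → ℂ) δ := by
      rw [mem_ball_zero_iff]; exact hzO
    have hzg : glue J (z0 + x) (π z) = z := by
      have : z0 + x = fun k : {k // k ∈ J} => z k := by rw [hx]; abel
      rw [this]
      exact glue_restrict J z
    have hvb : v (π z) ∈ ball (0 : {k // k ∈ J} → ℂ) δ := by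
      rw [mem_ball_zero_iff]; linarith [hv2 (π z) hzD]
    have h := hv4 (π z) hzD x hxb (v (π z)) hvb
    have e1 : Ψ' (x, π z) = 0 := by
      simp only [hΨ']
      have h7 := hMΨ x hxb (π z) hzD
      rw [hzg] at h7 ⊢
      exact h7 hz
    rw [e1, hv3 (π z) hzD, sub_zero, norm_zero] at h
    have h0 : ‖x - v (π z)‖ = 0 := by
      have h5 := norm_nonneg (x - v (π z))
      nlinarith
    have h6 : x = v (π z) := by
      rw [norm_eq_zero] at h0
      exact sub_eq_zero.1 h0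
    change z = glue J (z0 + v (π z)) (π z)
    rw [← h6, hzg]
  have hσO : ∀ s ∈ D, σ s ∈ O := by
    intro s hs
    change ‖(fun k : {k // k ∈ J} => glue J (z0 + v s) s k) - z0‖ < δ
    have : (fun k : {k // k ∈ J} => glue J (z0 + v s) s k) - z0 = v s := by
      funext k
      rw [Pi.sub_apply, glue_mem, Pi.add_apply]
      ring
    rw [this]
    linarith [hv2 s hs]
  have hcard : Fintype.card {k : Fin g // k ∉ J} = m := by
    rw [Fintype.card_subtype_compl]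
    simp
    omega
  have hopen := graph_open hcard hM hMP π hDo hσdiff (fun s _ => hπg _ s) hOo hσO hgraph
  -- connectedness
  have hall : ∀ s ∈ D, σ s ∈ M := by
    have hcont : ContinuousOn σ D := hσdiff.continuousOn
    have hopen2 : IsOpen {s | s ∈ D ∧ σ s ∉ M} := by
      have := hcont.isOpen_inter_preimage hDo hM.isOpen_compl
      exact this
    by_contra hcon
    push Not at hcon
    obtain ⟨s₁, hs₁, hn₁⟩ := hcon
    obtain ⟨x, hx, s₂, hs₂, hm⟩ := hne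
    have hm2 : σ s₂ ∈ M := by
      have hO2 : glue J (z0 + x) s₂ ∈ O := by
        change ‖(fun k : {k // k ∈ J} => glue J (z0 + x) s₂ k) - z0‖ < δ
        have : (fun k : {k // k ∈ J} => glue J (z0 + x) s₂ k) - z0 = x := by
          funext k
          rw [Pi.sub_apply, glue_mem, Pi.add_apply]
          ring
        rw [this]
        exact mem_ball_zero_iff.1 hx
      have := hgraph _ hm hO2 (by rw [hπg]; exact hs₂)
      rw [hπg] at this
      rw [← this]
      exact hm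
    have hcov : D ⊆ {s | s ∈ D ∧ σ s ∈ M} ∪ {s | s ∈ D ∧ σ s ∉ M} := by
      intro s hs
      by_cases h : σ s ∈ M
      · exact Or.inl ⟨hs, h⟩
      · exact Or.inr ⟨hs, h⟩
    obtain ⟨s, -, hs1, hs2⟩ := hDc _ _ hopen hopen2 hcov ⟨s₂, hs₂, hs₂, hm2⟩ ⟨s₁, hs₁, hs₁, hn₁⟩
    exact hs2.2 hs1.2
  intro s hs
  refine ⟨v s, hv2 s hs, hall s hs, fun x' hx' => ?_⟩
  have hvb : v s ∈ ball (0 : {k // k ∈ J} → ℂ) δ := by
    rw [mem_ball_zero_iff]; linarith [hv2 s hs]
  have h := hv4 s hs (v s) hvb x' hx'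
  rw [hv3 s hs, zero_sub, norm_neg] at h
  exact h

end AMP
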