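import Pool.Agent.Lib.MP_b57e3c_ag_P.Ls
import Pool.Agent.Lib.MP_b57e3c_ag_P.Dd
import Pool.Agent.Lib.MP_b57e3c_ag_P.Ps
import Pool.Agent.Lib.MP_b57e3c_ag_P.Tb

set_option autoImplicit false

/-!
# Module Tl : the long tube

Let `A : ({k // k ∈ S} → ℂ) →L ({k // k ∈ S} → ℂ)`, `(A x) i = ∑_j Hs b S v i j x j`, injective
by `hn`, so `c ‖x‖ ≤ ‖A x‖` with `c > 0` (`LinearMap.exists_antilipschitzWith` or compactness of
the sphere). `Sing b S v` by `Near.sing`. `z0 = v` restricted to `S`.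
(1) `δ₁ ≤ 1` such that `‖w i - v i‖ < δ₁` (`i ∈ S`) implies `‖Hs b S w i j - Hs b S v i j‖ ≤
c/16` for all `i, j ∈ S` (`mu_cont`, and `mu_congr`: only the coordinates in `S` matter, replace
the others by those of `v`; `Hs` is zero on the diagonal or such a polynomial).
(2) Let `0 < δ ≤ δ₁`. Take `R > 0` and most `n` from `approx2` with `κ = c/16` and from `approx1`
with `κ = c δ / 16`, both for the bound `ρ = max ‖v i‖ + 1` (`approx` with a larger `R` is
weaker: take the maximum; `Go ⊆ Gs`). For `w = glue S (z0 + x) s`, `‖x‖ < δ`, `s ∈ Dn n S R`: by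
`psi_fderiv`, `(fderiv psi w (glue S y 0) - A y) i = ∑_j (r² pf2 τ j i / nrm - Hs b S v j i) y j`
(`Hs` is symmetric: `Finset.erase_right_comm`), absolute value `≤ 4 (c/16 + c/16) ‖y‖ = c/2 ‖y‖`
(`card S = 4`). By `approx1` and `Sing`: `‖psi (glue S z0 s) i‖ ≤ c δ / 16 < c δ / 8` (`mu b
(S.erase i) v = 0`). (3) `psi_diff` (`s k ∈ Go`, `‖s k‖ > R r > 0`); `psi = 0` at the points of
`N n S` (`N_sub`, `pf = 0`). (4) `hne` of `tube2`: `Near` with `δ`, `R`. (5) `Dn_open`,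
`Dn_preconn`, `card S + m = 4 + m = g`. `tube2` applied to `M = N n S` gives for all `s ∈ Dn n S
R` a point `x`, `‖x‖ < δ/2`, `w = glue S (z0 + x) s ∈ N n S` and, for `‖x'‖ < δ`, `c/2 ‖x - x'‖ ≤
‖psi (glue S (z0+x') s)‖`. Uniqueness within `δ₁` for the point within `δ`: apply the whole
argument also with `δ₁` in place of `δ` and take the larger `R`: let `x₁` be the point for `δ₁`.
If `‖x'‖ < δ₁` and `glue S (z0 + x') s` satisfies `sc r S _ ∈ singF`, then `psi = 0` there, so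
`x' = x₁`. This holds in particular for `x' = x`.
-/

open Complex Filter Topology

namespace AMP

open AMC

variable {g m : ℕ}

/-- the Hessian of `μ_S` as a continuous linear map of the coordinates in `S` -/
private noncomputable def tlA (b : Fin g → Fin g → ℂ) (S : Finset (Fin g)) (v : Fin g → ℂ) :
    ({k // k ∈ S} → ℂ) →L[ℂ] ({k // k ∈ S} → ℂ) :=
  LinearMap.toContinuousLinearMap
    (Matrix.mulVecLin (Matrix.of fun i j : {k // k ∈ S} => Hs b S v i j))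

/-- restriction to the coordinates in `S` -/
private def tlz (S : Finset (Fin g)) (v : Fin g → ℂ) : {k // k ∈ S} → ℂ := fun k => v k

private theorem tlz_add (S : Finset (Fin g)) (v w : Fin g → ℂ) :
    (tlz S v + fun k : {k // k ∈ S} => w k - v k) = fun k : {k // k ∈ S} => w k := by
  funext k
  simp [tlz]

private theorem tlA_apply (b : Fin g → Fin g → ℂ) (S : Finset (Fin g)) (v : Fin g → ℂ)
    (x : {k // k ∈ S} → ℂ) (i : {k // k ∈ S}) :
    tlA b S v x i = ∑ j : {k // k ∈ S}, Hs b S v i j * x j := rfl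

open Classical in
private theorem tlA_bound (b : Fin g → Fin g → ℂ) (S : Finset (Fin g)) (v : Fin g → ℂ)
    (hn : Nd b S v) : ∃ c > 0, ∀ x : {k // k ∈ S} → ℂ, c * ‖x‖ ≤ ‖tlA b S v x‖ := by
  have hker : LinearMap.ker (tlA b S v).toLinearMap = ⊥ := by
    rw [LinearMap.ker_eq_bot']
    intro x hx
    funext i
    have h1 := hn (fun k => if hk : k ∈ S then x ⟨k, hk⟩ else 0) (fun i hi => ?_) i i.2
    · simpa using h1
    · have h2 := congrFun hx ⟨i, hi⟩
      have h3 : tlA b S v x ⟨i, hi⟩ = 0 := h2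
      rw [tlA_apply] at h3
      rw [← h3, ← Finset.sum_coe_sort S]
      refine Finset.sum_congr rfl fun j _ => ?_
      rw [dif_pos j.2]
  obtain ⟨K, hK, hK'⟩ := LinearMap.exists_antilipschitzWith (tlA b S v).toLinearMap hker
  refine ⟨(K : ℝ)⁻¹, by positivity, fun x => ?_⟩
  have h1 : ‖x‖ ≤ K * ‖tlA b S v x‖ := by
    have := hK'.le_mul_dist x 0
    simpa [dist_eq_norm] using this
  have hK0 : (0 : ℝ) < K := by exact_mod_cast hK
  rw [inv_mul_le_iff₀ hK0]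
  exact h1

open Classical in
private theorem tl_hs (b : Fin g → Fin g → ℂ) (S : Finset (Fin g)) (v : Fin g → ℂ) {κ : ℝ}
    (hκ : 0 < κ) : ∃ δ > 0, δ ≤ 1 ∧ ∀ w : Fin g → ℂ, (∀ i ∈ S, ‖w i - v i‖ < δ) →
      ∀ i j, ‖Hs b S w i j - Hs b S v i j‖ ≤ κ := by
  have hc : ∀ i j, Continuous fun w : Fin g → ℂ => Hs b S w i j := by
    intro i j
    unfold Hs
    by_cases hij : i = j
    · simp only [hij, if_true]
      exact continuous_const
    · simp only [hij, if_false]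
      exact mu_cont b _
  have h1 : ∀ᶠ w in 𝓝 v, ∀ i j, ‖Hs b S w i j - Hs b S v i j‖ < κ := by
    refine Filter.eventually_all.2 fun i => Filter.eventually_all.2 fun j => ?_
    have h2 := (hc i j).continuousAt (x := v)
    have h3 := Metric.tendsto_nhds.1 h2 κ hκ
    filter_upwards [h3] with w hw
    rwa [dist_eq_norm] at hw
  obtain ⟨δ, hδ, h⟩ := Metric.eventually_nhds_iff.1 h1
  refine ⟨min δ 1, lt_min hδ one_pos, min_le_right _ _, fun w hw i j => ?_⟩
  have h4 : dist (fun i => if i ∈ S then w i else v i) v < δ := by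
    rw [dist_pi_lt_iff hδ]
    intro i
    by_cases hi : i ∈ S
    · simp only [hi, if_true]
      rw [dist_eq_norm]
      exact (hw i hi).trans_le (min_le_left _ _)
    · simpa [hi] using hδ
  have h5 := h h4 i j
  have h6 : Hs b S (fun i => if i ∈ S then w i else v i) i j = Hs b S w i j := by
    unfold Hs
    by_cases hij : i = j
    · simp only [hij, if_true]
    · simp only [hij, if_false]
      exact mu_congr b _ fun k hk => by
        rw [if_pos (Finset.mem_of_mem_erase (Finset.mem_of_mem_erase hk))]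
  rw [h6] at h5
  exact h5.le

private theorem hs_symm (b : Fin g → Fin g → ℂ) (S : Finset (Fin g)) (v : Fin g → ℂ)
    (i j : Fin g) : Hs b S v i j = Hs b S v j i := by
  unfold Hs
  by_cases hij : i = j
  · rw [if_pos hij, if_pos hij.symm]
  · rw [if_neg hij, if_neg (Ne.symm hij), Finset.erase_right_comm]

private theorem dn_mono (C : Sq g m) {n : ℕ} {S : Finset (Fin g)} {R R' : ℝ} (hR : R ≤ R')
    {s : {k // k ∉ S} → ℂ} (hs : s ∈ C.Dn n S R') : s ∈ C.Dn n S R := fun k =>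
  ⟨(hs k).1, (mul_le_mul_of_nonneg_right hR (C.rpos n).le).trans_lt (hs k).2⟩

private theorem psi_zero (C : Sq g m) {n : ℕ} {S : Finset (Fin g)} {w : Fin g → ℂ}
    (hw : sc (C.r n) S w ∈ singF (C.τ n)) : psi (C.τ n) (C.r n) S w = 0 := by
  funext i
  simp [psi, hw.2 i]

/-- the tube for one radius `δ` -/
private theorem tl_core {C : Sq g m} (hm : m + 4 = g) {S : Finset (Fin g)} (hS : S.card = 4)
    {v : Fin g → ℂ} (h : C.Near S v) {c δ₁ : ℝ} (hc : 0 < c)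
    (hA : ∀ x : {k // k ∈ S} → ℂ, c * ‖x‖ ≤ ‖tlA C.b S v x‖) (hδ₁ : δ₁ ≤ 1)
    (hH : ∀ w : Fin g → ℂ, (∀ i ∈ S, ‖w i - v i‖ < δ₁) →
      ∀ i j, ‖Hs C.b S w i j - Hs C.b S v i j‖ ≤ c / 16) {δ : ℝ} (hδ : 0 < δ) (hδδ : δ ≤ δ₁) :
    ∃ R > 0, ∀ᶠ n in (C.U : Filter ℕ), ∀ s ∈ C.Dn n S R, ∃ x : {k // k ∈ S} → ℂ,
      ‖x‖ < δ / 2 ∧ glue S (tlz S v + x) s ∈ C.N n S ∧
      ∀ x' ∈ Metric.ball (0 : {k // k ∈ S} → ℂ) δ, c / 2 * ‖x - x'‖ ≤
        ‖psi (C.τ n) (C.r n) S (glue S (tlz S v + x') s)‖ := by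
  obtain ⟨ρ, hρ0, hρ⟩ : ∃ ρ : ℝ, 0 ≤ ρ ∧ ∀ i, ‖v i‖ + 1 ≤ ρ := by
    refine ⟨∑ i, ‖v i‖ + 1, by positivity, fun i => ?_⟩
    have := Finset.single_le_sum (f := fun i => ‖v i‖) (fun i _ => norm_nonneg _)
      (Finset.mem_univ i)
    simpa using this
  have hs := h.sing
  obtain ⟨R1, hR1, h1⟩ := C.approx1 S hρ0 (κ := c * δ / 16) (by positivity)
  obtain ⟨R2, hR2, h2⟩ := C.approx2 S hρ0 (κ := c / 16) (by positivity)
  have hR : 0 < max R1 R2 := lt_max_of_lt_left hR1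
  refine ⟨max R1 R2, hR, ?_⟩
  filter_upwards [h1, h2, C.Dn_preconn S hR.le, h δ hδ (max R1 R2)] with n h1 h2 h3 h4
  have hr := C.rpos n
  -- the coordinates of the points over the base
  have hgm : ∀ (x : {k // k ∈ S} → ℂ) (s : {k // k ∉ S} → ℂ) (i : Fin g) (hi : i ∈ S),
      glue S (tlz S v + x) s i = v i + x ⟨i, hi⟩ := by
    intro x s i hi
    have := glue_mem (tlz S v + x) s ⟨i, hi⟩
    rw [this]
    rfl
  have hgn : ∀ (x : {k // k ∈ S} → ℂ) (s : {k // k ∉ S} → ℂ) (i : Fin g) (hi : i ∉ S),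
      glue S x s i = s ⟨i, hi⟩ := fun x s i hi => glue_notMem x s ⟨i, hi⟩
  have hbase : ∀ x : {k // k ∈ S} → ℂ, ∀ s ∈ C.Dn n S (max R1 R2), ∀ k, k ∉ S →
      glue S x s k ∈ Go (C.τ n k k) ∧ glue S x s k ≠ 0 := by
    intro x s hs k hk
    rw [hgn x s k hk]
    refine ⟨(hs ⟨k, hk⟩).1, fun h0 => ?_⟩
    have h5 := (hs ⟨k, hk⟩).2
    rw [h0, norm_zero] at h5
    exact absurd h5 (not_lt.2 (by positivity))
  have hfar : ∀ x : {k // k ∈ S} → ℂ, ∀ s ∈ C.Dn n S (max R1 R2), ∀ R', R' ≤ max R1 R2 →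
      ∀ k, k ∉ S → glue S x s k ∈ Gs (C.τ n k k) ∧ R' * C.r n ≤ ‖glue S x s k‖ := by
    intro x s hs R' hR' k hk
    rw [hgn x s k hk]
    exact ⟨⟨(hs ⟨k, hk⟩).1.1.le, (hs ⟨k, hk⟩).1.2.le⟩,
      (mul_le_mul_of_nonneg_right hR' hr.le).trans (hs ⟨k, hk⟩).2.le⟩
  have hclose : ∀ x ∈ Metric.ball (0 : {k // k ∈ S} → ℂ) δ, ∀ s : {k // k ∉ S} → ℂ,
      ∀ i ∈ S, ‖glue S (tlz S v + x) s i - v i‖ < δ := by
    intro x hx s i hi
    rw [hgm x s i hi, add_sub_cancel_left]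
    exact (norm_le_pi_norm x ⟨i, hi⟩).trans_lt (mem_ball_zero_iff.1 hx)
  have hbd : ∀ x ∈ Metric.ball (0 : {k // k ∈ S} → ℂ) δ, ∀ s : {k // k ∉ S} → ℂ,
      ∀ i ∈ S, ‖glue S (tlz S v + x) s i‖ ≤ ρ := by
    intro x hx s i hi
    have h5 := hclose x hx s i hi
    have h6 := norm_add_le (v i) (glue S (tlz S v + x) s i - v i)
    rw [add_sub_cancel] at h6
    linarith [hρ i]
  refine tube2 S (by omega) (C.N_closed n S) (C.N_mp n S) (psi (C.τ n) (C.r n) S)
    (tlz S v) (C.Dn n S (max R1 R2)) (C.Dn_open n S _) h3 (tlA C.b S v) hc hδ hA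
    ?_ ?_ ?_ ?_ ?_
  · intro x _ s hs'
    exact psi_diff (C.siegel n) hr (hbase _ s hs')
  · intro x _ s _ hw
    exact psi_zero C (C.N_sub hw)
  · intro x hx s hs' y
    rw [pi_norm_le_iff_of_nonneg (by positivity)]
    intro i
    rw [Pi.sub_apply, psi_fderiv (C.siegel n) hr (hbase _ s hs') y i, tlA_apply,
      ← Finset.sum_sub_distrib]
    have h5 : ∀ j : {k // k ∈ S}, ‖((C.r n : ℂ) ^ 2 * pf2 (C.τ n) j i
        (sc (C.r n) S (glue S (tlz S v + x) s)) /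
        nrm (C.τ n) (C.r n) S (glue S (tlz S v + x) s)) * y j -
        Hs C.b S v i j * y j‖ ≤ c / 8 * ‖y‖ := by
      intro j
      rw [← sub_mul, norm_mul]
      refine mul_le_mul ?_ (norm_le_pi_norm y j) (norm_nonneg _) (by positivity)
      have h6 := h2 _ (hbd x hx s) (hfar _ s hs' R2 (le_max_right _ _)) j j.2 i i.2
      have h7 := hH (glue S (tlz S v + x) s)
        (fun i hi => (hclose x hx s i hi).trans_le hδδ) j i
      rw [hs_symm C.b S v i j]
      have h8 := norm_add_le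
        ((C.r n : ℂ) ^ 2 * pf2 (C.τ n) j i
          (sc (C.r n) S (glue S (tlz S v + x) s)) /
          nrm (C.τ n) (C.r n) S (glue S (tlz S v + x) s) -
          Hs C.b S (glue S (tlz S v + x) s) j i)
        (Hs C.b S (glue S (tlz S v + x) s) j i - Hs C.b S v j i)
      rw [sub_add_sub_cancel] at h8
      linarith
    refine (norm_sum_le _ _).trans ((Finset.sum_le_sum fun j _ => h5 j).trans ?_)
    rw [Finset.sum_const, Finset.card_univ, Fintype.card_coe, hS, nsmul_eq_mul]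
    have := norm_nonneg y
    push_cast
    linarith
  · intro s hs'
    have h0 : (0 : {k // k ∈ S} → ℂ) ∈ Metric.ball (0 : {k // k ∈ S} → ℂ) δ :=
      Metric.mem_ball_self hδ
    rw [pi_norm_lt_iff (by positivity)]
    intro i
    have h5 := hbd 0 h0 s
    rw [add_zero] at h5
    have h6 := h1 _ h5 (hfar _ s hs' R1 (le_max_left _ _)) i i.2
    have h7 : mu C.b (S.erase i) (glue S (tlz S v) s) = 0 := by
      rw [← hs.2 i i.2]
      refine mu_congr C.b _ fun j hj => ?_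
      exact glue_mem (tlz S v) s ⟨j, Finset.mem_of_mem_erase hj⟩
    rw [h7, sub_zero] at h6
    refine lt_of_le_of_lt h6 ?_
    have : 0 < c * δ := by positivity
    linarith
  · obtain ⟨w, hw, hv, hk⟩ := h4
    refine ⟨fun k => w k - v k, ?_, fun k => w k, fun k => hk k k.2, ?_⟩
    · rw [mem_ball_zero_iff, pi_norm_lt_iff hδ]
      exact fun k => hv k k.2
    · rw [tlz_add, glue_restrict]
      exact hw

theorem Sq.Near.tube {C : Sq g m} (hm : m + 4 = g) {S : Finset (Fin g)} (hS : S.card = 4)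
    {v : Fin g → ℂ} (h : C.Near S v) (hn : Nd C.b S v) :
    ∃ δ₁ > 0, ∀ δ > 0, δ ≤ δ₁ → ∃ R > 0, ∀ᶠ n in (C.U : Filter ℕ), ∀ s ∈ C.Dn n S R,
      ∃ w ∈ C.N n S, (∀ i ∈ S, ‖w i - v i‖ < δ) ∧ (∀ k (hk : k ∉ S), w k = s ⟨k, hk⟩) ∧
        ∀ w' : Fin g → ℂ, (∀ k (hk : k ∉ S), w' k = s ⟨k, hk⟩) →
          (∀ i ∈ S, ‖w' i - v i‖ < δ₁) → sc (C.r n) S w' ∈ singF (C.τ n) → w' = w := by
  obtain ⟨c, hc, hA⟩ := tlA_bound C.b S v hn
  obtain ⟨δ₁, hδ₁, hδ₁', hH⟩ := tl_hs C.b S v (κ := c / 16) (by positivity)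
  refine ⟨δ₁, hδ₁, fun δ hδ hδδ => ?_⟩
  obtain ⟨R1, hR1, h1⟩ := tl_core hm hS h hc hA hδ₁' hH hδ₁ le_rfl
  obtain ⟨R2, hR2, h2⟩ := tl_core hm hS h hc hA hδ₁' hH hδ hδδ
  refine ⟨max R1 R2, lt_max_of_lt_left hR1, ?_⟩
  filter_upwards [h1, h2] with n h1 h2 s hs
  obtain ⟨x1, hx1, hx1', hx1''⟩ := h1 s (dn_mono C (le_max_left _ _) hs)
  obtain ⟨x, hx, hx', -⟩ := h2 s (dn_mono C (le_max_right _ _) hs)
  have huniq : ∀ y ∈ Metric.ball (0 : {k // k ∈ S} → ℂ) δ₁,
      sc (C.r n) S (glue S (tlz S v + y) s) ∈ singF (C.τ n) → y = x1 := by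
    intro y hy hsg
    have h3 := hx1'' y hy
    rw [psi_zero C hsg, norm_zero] at h3
    have h4 : ‖x1 - y‖ ≤ 0 := by
      by_contra h5
      push Not at h5
      have : 0 < c / 2 * ‖x1 - y‖ := by positivity
      linarith
    exact (sub_eq_zero.1 (norm_le_zero_iff.1 h4)).symm
  have hxx : x = x1 := huniq x (by rw [mem_ball_zero_iff]; linarith) (C.N_sub hx')
  refine ⟨glue S (tlz S v + x) s, hx', fun i hi => ?_, fun k hk => ?_,
    fun w' hw1 hw2 hw3 => ?_⟩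
  · have h3 := glue_mem (tlz S v + x) s ⟨i, hi⟩
    have h4 : glue S (tlz S v + x) s i = v i + x ⟨i, hi⟩ := h3
    rw [h4, add_sub_cancel_left]
    have h5 := norm_le_pi_norm x ⟨i, hi⟩
    linarith
  · exact glue_notMem (tlz S v + x) s ⟨k, hk⟩
  · have h3 : glue S (tlz S v + fun k : {k // k ∈ S} => w' k - v k) s =
        w' := by
      have h6 : s = fun k : {k // k ∉ S} => w' k := by
        funext k
        exact (hw1 k k.2).symm
      rw [tlz_add, h6, glue_restrict]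
    have h4 : (fun k : {k // k ∈ S} => w' k - v k) = x1 := by
      refine huniq _ ?_ (by rw [h3]; exact hw3)
      rw [mem_ball_zero_iff, pi_norm_lt_iff hδ₁]
      exact fun k => hw2 k k.2
    rw [← h3, h4, hxx]

end AMP
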