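import Pool.Agent.Lib.MP_b57e3c_ag_P.AlB

set_option autoImplicit false

/-!
# Module Ua : the approximation lemma, uniformly in the off-diagonal entries

Proof of `Sq.approx` (module AlB) with the matrix `T` in place of `C.τ n`: the per-matrix estimate
`alB_all` (private there: copy what is needed, or make it public in a copy with a new name) needs
only `Sm y0 T`, `‖T i j‖ ≤ B r²` for `i ≠ j`, and the lower bounds for `dv (T i i)`, `vt (T k
k)`, which depend only on the diagonal `T i i = C.τ n i i`. `Sm y0 T` for most `n`: `T` is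
symmetric, the diagonal has imaginary part `≥ y0` (`C.sm`), and `‖T i j‖ ≤ B r² ≤ y0 / (8 (g+1))`
for most `n` (`C.rlim`). The comparison with `mu C.b` (the last step of `Sq.approx`) is not
needed here.
-/

open Complex Filter Topology

namespace AMP

variable {g m : ℕ}

/-! ### the degrees -/

private theorem Ua_sum_odd {A : Finset (Fin g × Fin g)} (hA : A ⊆ prs g) (S : Finset (Fin g)) :
    (S.filter fun i => ¬ Even (dg A i)).card + (Sᶜ.filter fun i => ¬ Even (dg A i)).card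
      ≤ 2 * A.card := by
  rw [← sum_dg hA, ← Finset.sum_add_sum_compl S, Finset.card_filter, Finset.card_filter]
  refine add_le_add (Finset.sum_le_sum fun i _ => ?_) (Finset.sum_le_sum fun i _ => ?_)
  all_goals
    by_cases h : Even (dg A i)
    · rw [if_neg (not_not.2 h)]
      exact Nat.zero_le _
    · rw [if_pos h]
      exact Nat.one_le_iff_ne_zero.2 fun h0 => h (h0 ▸ Even.zero)

private theorem Ua_isMt {A : Finset (Fin g × Fin g)} (hA : A ⊆ prs g) {S : Finset (Fin g)}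
    (h2 : 2 * A.card = (S.filter fun i => ¬ Even (dg A i)).card) : IsMt S A := by
  classical
  have h3 : ∑ i : Fin g, (if i ∈ S ∧ ¬ Even (dg A i) then 1 else 0) = ∑ i, dg A i := by
    rw [sum_dg hA, h2, Finset.card_filter, ← Finset.sum_filter_add_sum_filter_not Finset.univ
      (fun i => i ∈ S)]
    rw [Finset.sum_eq_zero (s := Finset.univ.filter fun i => ¬ i ∈ S), add_zero]
    · have e : Finset.univ.filter (fun i => i ∈ S) = S := by
        ext i
        simp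
      rw [e]
      refine Finset.sum_congr rfl fun i hi => ?_
      simp [hi]
    · intro i hi
      rw [Finset.mem_filter] at hi
      rw [if_neg (fun h => hi.2 h.1)]
  have h4 := (Finset.sum_eq_sum_iff_of_le (s := Finset.univ)
    (f := fun i : Fin g => if i ∈ S ∧ ¬ Even (dg A i) then 1 else 0)
    (g := fun i => dg A i) (by
      intro i _
      split_ifs with h
      · rcases Nat.eq_zero_or_pos (dg A i) with h0 | h0
        · rw [h0] at h
          exact absurd Even.zero h.2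
        · exact h0
      · exact Nat.zero_le _)).1 h3
  intro i
  have h5 := h4 i (Finset.mem_univ i)
  split_ifs at h5 with h
  · exact ⟨h5.symm.le, fun _ => h.1⟩
  · exact ⟨h5.symm.le.trans zero_le_one, fun h6 => absurd h5.symm h6⟩

private theorem Ua_card_mt {A : Finset (Fin g × Fin g)} (hA : A ⊆ prs g) {S : Finset (Fin g)}
    (h : IsMt S A) : S.card = 2 * A.card + (S.filter fun i => dg A i = 0).card := by
  have h1 : ∑ i, dg A i = ∑ i ∈ S, dg A i := by
    symm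
    refine Finset.sum_subset (Finset.subset_univ S) fun i _ hi => ?_
    by_contra h0
    exact hi ((h i).2 h0)
  rw [← sum_dg hA, h1, Finset.card_filter, ← Finset.sum_add_distrib, Finset.card_eq_sum_ones]
  refine Finset.sum_congr rfl fun i _ => ?_
  have h2 := (h i).1
  split_ifs with h3
  · rw [h3]
  · omega

/-! ### bounds for one matrix -/

private theorem Ua_nrm_low {τ : Matrix (Fin g) (Fin g) ℂ} {r c : ℝ} (hr : 0 < r) (hc : 0 < c)
    {S : Finset (Fin g)} {w : Fin g → ℂ} (hdv : ∀ i, c ≤ ‖dv (τ i i)‖)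
    (hvt : ∀ k, k ∉ S → c * ‖w k‖ ≤ ‖vt (τ k k) (w k)‖) :
    c ^ g * (r ^ S.card * ∏ k ∈ Sᶜ, ‖w k‖) ≤ ‖nrm τ r S w‖ := by
  unfold nrm
  rw [norm_mul, norm_mul, norm_pow, Complex.norm_real, Real.norm_eq_abs, abs_of_pos hr,
    norm_prod, norm_prod]
  have h1 : c ^ S.card ≤ ∏ i ∈ S, ‖dv (τ i i)‖ := by
    rw [← Finset.prod_const]
    exact Finset.prod_le_prod (fun _ _ => hc.le) fun i _ => hdv i
  have h2 : c ^ Sᶜ.card * ∏ k ∈ Sᶜ, ‖w k‖ ≤ ∏ k ∈ Sᶜ, ‖vt (τ k k) (w k)‖ := by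
    rw [← Finset.prod_const, ← Finset.prod_mul_distrib]
    exact Finset.prod_le_prod (fun _ _ => by positivity) fun k hk =>
      hvt k (Finset.mem_compl.1 hk)
  have h3 : S.card + Sᶜ.card = g := by
    rw [Finset.card_compl, Fintype.card_fin]
    have := Finset.card_le_univ S
    rw [Fintype.card_fin] at this
    omega
  have h4 : c ^ g = c ^ S.card * c ^ Sᶜ.card := by rw [← pow_add, h3]
  have h5 : 0 ≤ ∏ k ∈ Sᶜ, ‖w k‖ := Finset.prod_nonneg fun _ _ => norm_nonneg _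
  calc c ^ g * (r ^ S.card * ∏ k ∈ Sᶜ, ‖w k‖)
      = r ^ S.card * c ^ S.card * (c ^ Sᶜ.card * ∏ k ∈ Sᶜ, ‖w k‖) := by rw [h4]; ring
    _ ≤ r ^ S.card * (∏ i ∈ S, ‖dv (τ i i)‖) * ∏ k ∈ Sᶜ, ‖vt (τ k k) (w k)‖ := by
        refine mul_le_mul ?_ h2 (by positivity) (by positivity)
        exact mul_le_mul_of_nonneg_left h1 (by positivity)

/-- the product of the bounds of `FA_le` -/
private noncomputable def UaP (τ : Matrix (Fin g) (Fin g) ℂ) (A : Finset (Fin g × Fin g))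
    (u : Fin g → ℂ) : ℝ :=
  (∏ e ∈ A, ‖τ e.1 e.2‖) * ∏ i ∈ Finset.univ.filter (fun i => Even (dg A i)), ‖u i‖

private theorem UaP_nonneg (τ : Matrix (Fin g) (Fin g) ℂ) (A : Finset (Fin g × Fin g))
    (u : Fin g → ℂ) : 0 ≤ UaP τ A u :=
  mul_nonneg (Finset.prod_nonneg fun _ _ => norm_nonneg _)
    (Finset.prod_nonneg fun _ _ => norm_nonneg _)

private theorem UaP_le {τ : Matrix (Fin g) (Fin g) ℂ} {r c R B M : ℝ} (hr0 : 0 < r)
    (hc : 0 < c) (hR : 1 ≤ R) (hB : 1 ≤ B) (hM : 1 ≤ M) {S : Finset (Fin g)}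
    {w : Fin g → ℂ} (hτ : ∀ i j, i ≠ j → ‖τ i j‖ ≤ B * r ^ 2) (hdv : ∀ i, c ≤ ‖dv (τ i i)‖)
    (hvt : ∀ k, k ∉ S → c * ‖w k‖ ≤ ‖vt (τ k k) (w k)‖) (hw1 : ∀ i ∈ S, ‖w i‖ ≤ M)
    (hw2 : ∀ k, k ∉ S → R * r ≤ ‖w k‖) {A : Finset (Fin g × Fin g)} (hA : A ⊆ prs g) :
    c ^ g * R ^ (Sᶜ.filter fun i => ¬ Even (dg A i)).card * UaP τ A (sc r S w) ≤
      B ^ (prs g).card * M ^ g *
        r ^ (2 * A.card - ((S.filter fun i => ¬ Even (dg A i)).card +
          (Sᶜ.filter fun i => ¬ Even (dg A i)).card)) * ‖nrm τ r S w‖ := by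
  classical
  obtain ⟨Se, hSe⟩ : ∃ X, X = S.filter fun i => Even (dg A i) := ⟨_, rfl⟩
  obtain ⟨So, hSo⟩ : ∃ X, X = S.filter fun i => ¬ Even (dg A i) := ⟨_, rfl⟩
  obtain ⟨Te, hTe⟩ : ∃ X, X = Sᶜ.filter fun i => Even (dg A i) := ⟨_, rfl⟩
  obtain ⟨To, hTo⟩ : ∃ X, X = Sᶜ.filter fun i => ¬ Even (dg A i) := ⟨_, rfl⟩
  have hodd := Ua_sum_odd hA S
  rw [← hSo, ← hTo] at hodd ⊢
  obtain ⟨x, hx⟩ : ∃ x, 2 * A.card = So.card + To.card + x := ⟨_, (Nat.add_sub_cancel' hodd).symm⟩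
  have hx' : 2 * A.card - (So.card + To.card) = x := by omega
  rw [hx']
  have hScard : S.card = Se.card + So.card := by
    rw [hSe, hSo, Finset.card_filter_add_card_filter_not]
  have hW0 : 0 ≤ ∏ k ∈ Te, ‖w k‖ := Finset.prod_nonneg fun _ _ => norm_nonneg _
  -- lower bound for the norm
  have h1 : (∏ k ∈ Te, ‖w k‖) * (R * r) ^ To.card ≤ ∏ k ∈ Sᶜ, ‖w k‖ := by
    rw [← Finset.prod_filter_mul_prod_filter_not Sᶜ (fun i => Even (dg A i)), ← hTe, ← hTo]
    refine mul_le_mul_of_nonneg_left ?_ hW0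
    rw [← Finset.prod_const]
    refine Finset.prod_le_prod (fun _ _ => by positivity) fun k hk => hw2 k ?_
    rw [hTo, Finset.mem_filter, Finset.mem_compl] at hk
    exact hk.1
  have h2 : c ^ g * (r ^ S.card * ((∏ k ∈ Te, ‖w k‖) * (R * r) ^ To.card)) ≤ ‖nrm τ r S w‖ := by
    refine le_trans ?_ (Ua_nrm_low hr0 hc hdv hvt)
    gcongr
  -- upper bound for the product
  have h3 : ∏ e ∈ A, ‖τ e.1 e.2‖ ≤ (B * r ^ 2) ^ A.card := by
    rw [← Finset.prod_const]
    refine Finset.prod_le_prod (fun _ _ => norm_nonneg _) fun e he => hτ _ _ ?_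
    have h := hA he
    rw [prs, Finset.mem_filter] at h
    exact h.2.ne
  have h4 : ∏ i ∈ Finset.univ.filter (fun i => Even (dg A i)), ‖sc r S w i‖ ≤
      (r * M) ^ Se.card * ∏ k ∈ Te, ‖w k‖ := by
    have e : Finset.univ.filter (fun i => Even (dg A i)) = Se ∪ Te := by
      rw [hSe, hTe, ← Finset.filter_union, Finset.union_compl]
    have hd : Disjoint Se Te := by
      rw [hSe, hTe]
      exact Finset.disjoint_filter_filter disjoint_compl_right
    rw [e, Finset.prod_union hd]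
    refine mul_le_mul ?_ (le_of_eq ?_) (Finset.prod_nonneg fun _ _ => norm_nonneg _)
      (by positivity)
    · rw [← Finset.prod_const]
      refine Finset.prod_le_prod (fun _ _ => norm_nonneg _) fun i hi => ?_
      rw [hSe, Finset.mem_filter] at hi
      unfold sc
      rw [if_pos hi.1, norm_mul, Complex.norm_real, Real.norm_eq_abs, abs_of_pos hr0]
      exact mul_le_mul_of_nonneg_left (hw1 i hi.1) hr0.le
    · refine Finset.prod_congr rfl fun i hi => ?_
      rw [hTe, Finset.mem_filter, Finset.mem_compl] at hi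
      unfold sc
      rw [if_neg hi.1]
  have h5 : UaP τ A (sc r S w) ≤ (B * r ^ 2) ^ A.card * ((r * M) ^ Se.card *
      ∏ k ∈ Te, ‖w k‖) := by
    unfold UaP
    exact mul_le_mul h3 h4 (Finset.prod_nonneg fun _ _ => norm_nonneg _) (by positivity)
  have h6 : A.card ≤ (prs g).card := Finset.card_le_card hA
  have h7 : Se.card ≤ g := by
    have := Finset.card_le_univ Se
    rwa [Fintype.card_fin] at this
  have h8 : B ^ A.card * M ^ Se.card ≤ B ^ (prs g).card * M ^ g :=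
    mul_le_mul (pow_le_pow_right₀ hB h6) (pow_le_pow_right₀ hM h7) (by positivity)
      (by positivity)
  have h9 : (B * r ^ 2) ^ A.card = B ^ A.card * r ^ (So.card + To.card + x) := by
    rw [mul_pow, ← pow_mul, hx]
  calc c ^ g * R ^ To.card * UaP τ A (sc r S w)
      ≤ c ^ g * R ^ To.card * ((B * r ^ 2) ^ A.card * ((r * M) ^ Se.card *
        ∏ k ∈ Te, ‖w k‖)) := mul_le_mul_of_nonneg_left h5 (by positivity)
    _ = (B ^ A.card * M ^ Se.card) * (r ^ x * (c ^ g * (r ^ S.card *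
        ((∏ k ∈ Te, ‖w k‖) * (R * r) ^ To.card)))) := by
        rw [h9, hScard, mul_pow, mul_pow, pow_add, pow_add, pow_add]
        ring
    _ ≤ (B ^ (prs g).card * M ^ g) * (r ^ x * ‖nrm τ r S w‖) := by
        refine mul_le_mul h8 ?_ (by positivity) (by positivity)
        exact mul_le_mul_of_nonneg_left h2 (by positivity)
    _ = _ := by ring

private theorem Ua_main_term {τ : Matrix (Fin g) (Fin g) ℂ} {r : ℝ} (hr0 : 0 < r)
    {S : Finset (Fin g)} {w : Fin g → ℂ} {A : Finset (Fin g × Fin g)} (hA : A ⊆ prs g)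
    (hM : IsMt S A) :
    (∏ e ∈ A, τ e.1 e.2 / (2 * Real.pi * I)) *
      (∏ i ∈ S.filter (fun i => dg A i = 0), sc r S w i) * (∏ i ∈ S, dv (τ i i)) *
      ∏ k ∈ Sᶜ, vt (τ k k) (sc r S w k) =
    ((∏ e ∈ A, τ e.1 e.2 / (2 * Real.pi * I * (r : ℂ) ^ 2)) *
      ∏ i ∈ S.filter (fun i => dg A i = 0), w i) * nrm τ r S w := by
  have hr : (r : ℂ) ≠ 0 := by exact_mod_cast hr0.ne'
  have h1 : ∏ e ∈ A, τ e.1 e.2 / (2 * Real.pi * I) =
      ((r : ℂ) ^ 2) ^ A.card * ∏ e ∈ A, τ e.1 e.2 / (2 * Real.pi * I * (r : ℂ) ^ 2) := by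
    rw [← Finset.prod_const, ← Finset.prod_mul_distrib]
    refine Finset.prod_congr rfl fun e _ => ?_
    have h2 : (2 * Real.pi * I : ℂ) ≠ 0 := Complex.two_pi_I_ne_zero
    field_simp
  have h2 : ∏ i ∈ S.filter (fun i => dg A i = 0), sc r S w i =
      (r : ℂ) ^ (S.filter fun i => dg A i = 0).card *
        ∏ i ∈ S.filter (fun i => dg A i = 0), w i := by
    rw [← Finset.prod_const, ← Finset.prod_mul_distrib]
    refine Finset.prod_congr rfl fun i hi => ?_
    unfold sc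
    rw [if_pos (Finset.mem_filter.1 hi).1]
  have h3 : ∏ k ∈ Sᶜ, vt (τ k k) (sc r S w k) = ∏ k ∈ Sᶜ, vt (τ k k) (w k) := by
    refine Finset.prod_congr rfl fun i hi => ?_
    unfold sc
    rw [if_neg (Finset.mem_compl.1 hi)]
  have h4 : (r : ℂ) ^ S.card =
      ((r : ℂ) ^ 2) ^ A.card * (r : ℂ) ^ (S.filter fun i => dg A i = 0).card := by
    rw [← pow_mul, ← pow_add, ← Ua_card_mt hA hM]
  unfold nrm
  rw [h1, h2, h3, h4]
  ring

open Classical in
private theorem Ua_one {τ : Matrix (Fin g) (Fin g) ℂ} {r c R B M C1 C2 : ℝ} (hr0 : 0 < r)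
    (hr1 : r ≤ 1) (hc : 0 < c) (hR : 1 ≤ R) (hB : 1 ≤ B) (hM : 1 ≤ M) (hC1 : 0 < C1)
    (hC2 : 0 < C2) {S : Finset (Fin g)}
    {w : Fin g → ℂ} (hτ : ∀ i j, i ≠ j → ‖τ i j‖ ≤ B * r ^ 2) (hdv : ∀ i, c ≤ ‖dv (τ i i)‖)
    (hvt : ∀ k, k ∉ S → c * ‖w k‖ ≤ ‖vt (τ k k) (w k)‖) (hw1 : ∀ i ∈ S, ‖w i‖ ≤ M)
    (hw2 : ∀ k, k ∉ S → R * r ≤ ‖w k‖) {A : Finset (Fin g × Fin g)} (hA : A ⊆ prs g)
    (h1 : ‖FA τ A (sc r S w)‖ ≤ C1 * UaP τ A (sc r S w))
    (h2 : IsMt S A → ‖FA τ A (sc r S w) - (∏ e ∈ A, τ e.1 e.2 / (2 * Real.pi * I)) *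
        (∏ i ∈ S.filter (fun i => dg A i = 0), sc r S w i) * (∏ i ∈ S, dv (τ i i)) *
        ∏ k ∈ Sᶜ, vt (τ k k) (sc r S w k)‖ ≤
      C2 * ((∑ e ∈ prs g, ‖τ e.1 e.2‖) + ∑ i ∈ S, ‖sc r S w i‖) * UaP τ A (sc r S w)) :
    ‖FA τ A (sc r S w) / nrm τ r S w - (if IsMt S A then
      (∏ e ∈ A, τ e.1 e.2 / (2 * Real.pi * I * (r : ℂ) ^ 2)) *
        ∏ i ∈ S.filter (fun i => dg A i = 0), w i else 0)‖ ≤
      (C1 + C2 * ((prs g).card * B + g * M)) * (B ^ (prs g).card * M ^ g / c ^ g) *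
        (1 / R + r) := by
  have hwpos : ∀ k ∈ Sᶜ, 0 < ‖w k‖ := fun k hk =>
    lt_of_lt_of_le (by positivity) (hw2 k (Finset.mem_compl.1 hk))
  have hD : 0 < ‖nrm τ r S w‖ := by
    refine lt_of_lt_of_le ?_ (Ua_nrm_low hr0 hc hdv hvt)
    have := Finset.prod_pos hwpos
    positivity
  have hD' : nrm τ r S w ≠ 0 := norm_pos_iff.1 hD
  obtain ⟨P, hP⟩ : ∃ P, P = UaP τ A (sc r S w) := ⟨_, rfl⟩
  obtain ⟨D, hDe⟩ : ∃ D, D = ‖nrm τ r S w‖ := ⟨_, rfl⟩
  obtain ⟨K, hK⟩ : ∃ K, K = B ^ (prs g).card * M ^ g / c ^ g := ⟨_, rfl⟩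
  have hP0 : 0 ≤ P := hP ▸ UaP_nonneg _ _ _
  have hK0 : 0 < K := by rw [hK]; positivity
  have hcK : c ^ g * K = B ^ (prs g).card * M ^ g := by
    rw [hK]; field_simp
  have key := UaP_le hr0 hc hR hB hM hτ hdv hvt hw1 hw2 hA
  rw [← hP, ← hDe] at key
  rw [← hP] at h1 h2
  rw [← hDe] at hD
  have hRr : 0 < 1 / R + r := by positivity
  -- the general bound
  have hgen : P ≤ K * D := by
    have h3 : c ^ g * P ≤ c ^ g * (K * D) := by
      calc c ^ g * P ≤ c ^ g * R ^ (Sᶜ.filter fun i => ¬ Even (dg A i)).card * P := by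
            refine mul_le_mul_of_nonneg_right ?_ hP0
            exact le_mul_of_one_le_right (by positivity) (one_le_pow₀ hR)
        _ ≤ _ := key
        _ ≤ B ^ (prs g).card * M ^ g * 1 * D := by
            refine mul_le_mul_of_nonneg_right ?_ hD.le
            exact mul_le_mul_of_nonneg_left (pow_le_one₀ hr0.le hr1) (by positivity)
        _ = c ^ g * (K * D) := by rw [← hcK]; ring
    exact le_of_mul_le_mul_left h3 (by positivity)
  rw [← hK]
  by_cases hMt : IsMt S A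
  · rw [if_pos hMt]
    have h3 := h2 hMt
    rw [Ua_main_term hr0 hA hMt] at h3
    have h4 : FA τ A (sc r S w) / nrm τ r S w -
        (∏ e ∈ A, τ e.1 e.2 / (2 * Real.pi * I * (r : ℂ) ^ 2)) *
          ∏ i ∈ S.filter (fun i => dg A i = 0), w i =
        (FA τ A (sc r S w) - ((∏ e ∈ A, τ e.1 e.2 / (2 * Real.pi * I * (r : ℂ) ^ 2)) *
          ∏ i ∈ S.filter (fun i => dg A i = 0), w i) * nrm τ r S w) / nrm τ r S w := by
      field_simp
    rw [h4, norm_div, ← hDe, div_le_iff₀ hD]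
    refine h3.trans ?_
    have h5 : ∑ e ∈ prs g, ‖τ e.1 e.2‖ ≤ (prs g).card * (B * r) := by
      rw [← nsmul_eq_mul]
      refine Finset.sum_le_card_nsmul _ _ _ fun e he => ?_
      rw [prs, Finset.mem_filter] at he
      refine (hτ _ _ he.2.ne).trans ?_
      refine mul_le_mul_of_nonneg_left ?_ (by positivity)
      nlinarith
    have h6 : ∑ i ∈ S, ‖sc r S w i‖ ≤ g * (M * r) := by
      calc ∑ i ∈ S, ‖sc r S w i‖ ≤ S.card • (M * r) := by
            refine Finset.sum_le_card_nsmul _ _ _ fun i hi => ?_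
            unfold sc
            rw [if_pos hi, norm_mul, Complex.norm_real, Real.norm_eq_abs, abs_of_pos hr0,
              mul_comm]
            exact mul_le_mul_of_nonneg_right (hw1 i hi) hr0.le
        _ ≤ g * (M * r) := by
            rw [nsmul_eq_mul]
            refine mul_le_mul_of_nonneg_right ?_ (by positivity)
            have := Finset.card_le_univ S
            rw [Fintype.card_fin] at this
            exact_mod_cast this
    have h7 : (∑ e ∈ prs g, ‖τ e.1 e.2‖) + ∑ i ∈ S, ‖sc r S w i‖ ≤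
        ((prs g).card * B + g * M) * r := by linarith
    calc C2 * ((∑ e ∈ prs g, ‖τ e.1 e.2‖) + ∑ i ∈ S, ‖sc r S w i‖) * P
        ≤ C2 * (((prs g).card * B + g * M) * r) * (K * D) := by
          refine mul_le_mul (mul_le_mul_of_nonneg_left h7 hC2.le) hgen hP0 (by positivity)
      _ = C2 * ((prs g).card * B + g * M) * K * r * D := by ring
      _ ≤ (C1 + C2 * ((prs g).card * B + g * M)) * K * (1 / R + r) * D := by
          have h8 : 0 ≤ C2 * ((prs g).card * B + g * M) := by positivity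
          have h9 : r ≤ 1 / R + r := by
            have : 0 < 1 / R := by positivity
            linarith
          gcongr
          linarith
  · rw [if_neg hMt, sub_zero, norm_div, ← hDe, div_le_iff₀ hD]
    refine h1.trans ?_
    have h3 : P ≤ K * (1 / R + r) * D := by
      by_cases hTo : (Sᶜ.filter fun i => ¬ Even (dg A i)).card = 0
      · have hodd := Ua_sum_odd hA S
        have hx : 1 ≤ 2 * A.card - ((S.filter fun i => ¬ Even (dg A i)).card +
            (Sᶜ.filter fun i => ¬ Even (dg A i)).card) := by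
          by_contra hlt
          exact hMt (Ua_isMt hA (by omega))
        rw [hTo] at key hx
        rw [pow_zero, mul_one] at key
        have h4 : r ^ (2 * A.card - ((S.filter fun i => ¬ Even (dg A i)).card + 0)) ≤ r := by
          calc _ ≤ r ^ 1 := pow_le_pow_of_le_one hr0.le hr1 hx
            _ = r := pow_one r
        have h5 : c ^ g * P ≤ c ^ g * (K * r * D) := by
          calc c ^ g * P ≤ _ := key
            _ ≤ B ^ (prs g).card * M ^ g * r * D := by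
                refine mul_le_mul_of_nonneg_right ?_ hD.le
                exact mul_le_mul_of_nonneg_left h4 (by positivity)
            _ = c ^ g * (K * r * D) := by rw [← hcK]; ring
        have h6 : P ≤ K * r * D := le_of_mul_le_mul_left h5 (by positivity)
        refine h6.trans ?_
        have h7 : r ≤ 1 / R + r := by
          have : 0 < 1 / R := by positivity
          linarith
        gcongr
      · have h4 : R ≤ R ^ (Sᶜ.filter fun i => ¬ Even (dg A i)).card := by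
          calc R = R ^ 1 := (pow_one R).symm
            _ ≤ _ := pow_le_pow_right₀ hR (Nat.one_le_iff_ne_zero.2 hTo)
        have h5 : c ^ g * R * P ≤ c ^ g * R * (K * (1 / R) * D) := by
          calc c ^ g * R * P ≤ c ^ g * R ^ (Sᶜ.filter fun i => ¬ Even (dg A i)).card * P := by
                refine mul_le_mul_of_nonneg_right ?_ hP0
                exact mul_le_mul_of_nonneg_left h4 (by positivity)
            _ ≤ _ := key
            _ ≤ B ^ (prs g).card * M ^ g * 1 * D := by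
                refine mul_le_mul_of_nonneg_right ?_ hD.le
                exact mul_le_mul_of_nonneg_left (pow_le_one₀ hr0.le hr1) (by positivity)
            _ = c ^ g * R * (K * (1 / R) * D) := by
                rw [← hcK]; field_simp
        have h6 : P ≤ K * (1 / R) * D := le_of_mul_le_mul_left h5 (by positivity)
        refine h6.trans ?_
        have h7 : 1 / R ≤ 1 / R + r := by linarith
        gcongr
    calc C1 * P ≤ C1 * (K * (1 / R + r) * D) := mul_le_mul_of_nonneg_left h3 hC1.le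
      _ = C1 * K * (1 / R + r) * D := by ring
      _ ≤ (C1 + C2 * ((prs g).card * B + g * M)) * K * (1 / R + r) * D := by
          have h8 : 0 ≤ C2 * ((prs g).card * B + g * M) := by positivity
          gcongr
          linarith

private theorem Ua_all {y0 : ℝ} (hy : 0 < y0) {τ : Matrix (Fin g) (Fin g) ℂ} (hSm : Sm y0 τ)
    {r c R B M C1 C2 : ℝ} (hr0 : 0 < r)
    (hr1 : r ≤ 1) (hc : 0 < c) (hR : 1 ≤ R) (hB : 1 ≤ B) (hM : 1 ≤ M) (hC1 : 0 < C1)
    (hC2 : 0 < C2) {S : Finset (Fin g)}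
    {w : Fin g → ℂ} (hτ : ∀ i j, i ≠ j → ‖τ i j‖ ≤ B * r ^ 2) (hdv : ∀ i, c ≤ ‖dv (τ i i)‖)
    (hvt : ∀ k, k ∉ S → c * ‖w k‖ ≤ ‖vt (τ k k) (w k)‖) (hw1 : ∀ i ∈ S, ‖w i‖ ≤ M)
    (hw2 : ∀ k, k ∉ S → R * r ≤ ‖w k‖)
    (h1 : ∀ A ⊆ prs g, ‖FA τ A (sc r S w)‖ ≤ C1 * UaP τ A (sc r S w))
    (h2 : ∀ A ⊆ prs g, IsMt S A → ‖FA τ A (sc r S w) -
        (∏ e ∈ A, τ e.1 e.2 / (2 * Real.pi * I)) *
        (∏ i ∈ S.filter (fun i => dg A i = 0), sc r S w i) * (∏ i ∈ S, dv (τ i i)) *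
        ∏ k ∈ Sᶜ, vt (τ k k) (sc r S w k)‖ ≤
      C2 * ((∑ e ∈ prs g, ‖τ e.1 e.2‖) + ∑ i ∈ S, ‖sc r S w i‖) * UaP τ A (sc r S w)) :
    ‖ff τ (sc r S w) / nrm τ r S w -
      mu (fun i j => τ i j / (2 * Real.pi * I * (r : ℂ) ^ 2)) S w‖ ≤
      2 ^ (prs g).card * ((C1 + C2 * ((prs g).card * B + g * M)) *
        (B ^ (prs g).card * M ^ g / c ^ g) * (1 / R + r)) := by
  classical
  have h3 : ff τ (sc r S w) / nrm τ r S w -
      mu (fun i j => τ i j / (2 * Real.pi * I * (r : ℂ) ^ 2)) S w =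
      ∑ A ∈ (prs g).powerset, (FA τ A (sc r S w) / nrm τ r S w - (if IsMt S A then
      (∏ e ∈ A, τ e.1 e.2 / (2 * Real.pi * I * (r : ℂ) ^ 2)) *
        ∏ i ∈ S.filter (fun i => dg A i = 0), w i else 0)) := by
    rw [Finset.sum_sub_distrib, ← Finset.sum_div, ← ff_expand hy hSm]
    congr 1
  rw [h3]
  refine (norm_sum_le _ _).trans ?_
  have h4 : ((prs g).powerset.card : ℝ) = 2 ^ (prs g).card := by
    rw [Finset.card_powerset]
    push_cast
    rfl
  rw [← h4, ← nsmul_eq_mul]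
  refine Finset.sum_le_card_nsmul _ _ _ fun A hA => ?_
  rw [Finset.mem_powerset] at hA
  convert Ua_one hr0 hr1 hc hR hB hM hC1 hC2 hτ hdv hvt hw1 hw2 hA (h1 A hA) (h2 A hA) using 3

theorem Sq.approx_u (C : Sq g m) (S : Finset (Fin g)) {ρ κ B : ℝ} (hρ : 0 ≤ ρ) (hκ : 0 < κ)
    (hB : 0 ≤ B) : ∃ R > 0, ∀ᶠ n in (C.U : Filter ℕ), ∀ T : Matrix (Fin g) (Fin g) ℂ,
      (∀ i j, T i j = T j i) → (∀ i, T i i = C.τ n i i) →
      (∀ i j, i ≠ j → ‖T i j‖ ≤ B * C.r n ^ 2) → ∀ w : Fin g → ℂ, (∀ i ∈ S, ‖w i‖ ≤ ρ) →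
      (∀ k, k ∉ S → w k ∈ Gs (C.τ n k k) ∧ R * C.r n ≤ ‖w k‖) →
      ‖ff T (sc (C.r n) S w) / nrm (C.τ n) (C.r n) S w -
        mu (fun i j => T i j / (2 * Real.pi * I * (C.r n : ℂ) ^ 2)) S w‖ ≤ κ := by
  classical
  obtain ⟨y0, hy, hSm⟩ := C.sm
  obtain ⟨M, hM⟩ : ∃ M, M = max 1 ρ := ⟨_, rfl⟩
  have hM1 : 1 ≤ M := hM ▸ le_max_left _ _
  have hMρ : ρ ≤ M := hM ▸ le_max_right _ _
  -- lower bounds for the elliptic theta functions
  choose cv hcv0 hcv using fun k => vt_low (C.spos k)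
  have hc : ∀ᶠ c in 𝓝[>] (0 : ℝ), (∀ k, c ≤ cv k) ∧ (∀ k, c ≤ ‖dv (C.σ k)‖ / 2) ∧ 0 < c := by
    refine (eventually_all.2 fun k => ?_).and ((eventually_all.2 fun k => ?_).and ?_)
    · filter_upwards [Ioc_mem_nhdsGT (hcv0 k)] with c hc
      exact hc.2
    · have h1 : 0 < ‖dv (C.σ k)‖ / 2 := half_pos (norm_pos_iff.2 (dv_ne (C.spos k)))
      filter_upwards [Ioc_mem_nhdsGT h1] with c hc
      exact hc.2
    · exact self_mem_nhdsWithin
  obtain ⟨c, hc1, hc2, hc0⟩ := hc.exists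
  -- bounded parallelograms
  choose Rb hRb using fun k => bounded_Gs (C.spos k)
  obtain ⟨ρ', hρ'0, hρ'1, hρ'2⟩ : ∃ ρ' : ℝ, 0 ≤ ρ' ∧ M ≤ ρ' ∧ ∀ k, Rb k ≤ ρ' := by
    refine ⟨M + ∑ k, |Rb k|, by positivity, ?_, fun k => ?_⟩
    · have : 0 ≤ ∑ k, |Rb k| := Finset.sum_nonneg fun _ _ => abs_nonneg _
      linarith
    · have h1 : |Rb k| ≤ ∑ k, |Rb k| :=
        Finset.single_le_sum (f := fun k => |Rb k|) (fun _ _ => abs_nonneg _)
          (Finset.mem_univ k)
      have h2 := le_abs_self (Rb k)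
      linarith
  obtain ⟨C1, hC1, hFA⟩ := FA_le (g := g) hy hρ'0
  obtain ⟨C2, hC2, hFM⟩ := FA_main (g := g) hy hρ'0
  -- the constant B'
  obtain ⟨B', hB'⟩ : ∃ B', B' = max 1 B := ⟨_, rfl⟩
  have hB1 : 1 ≤ B' := hB' ▸ le_max_left _ _
  have hBB : B ≤ B' := hB' ▸ le_max_right _ _
  obtain ⟨K, hK⟩ : ∃ K : ℝ, K = 2 ^ (prs g).card * ((C1 + C2 * ((prs g).card * B' + g * M)) *
        (B' ^ (prs g).card * M ^ g / c ^ g)) := ⟨_, rfl⟩
  have hK0 : 0 < K := by rw [hK]; positivity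
  obtain ⟨R, hR⟩ : ∃ R : ℝ, R = max 1 (2 * K / κ) := ⟨_, rfl⟩
  have hR1 : 1 ≤ R := hR ▸ le_max_left _ _
  have hR2 : K * (1 / R) ≤ κ / 2 := by
    have h1 : 2 * K / κ ≤ R := hR ▸ le_max_right _ _
    rw [div_le_iff₀ hκ] at h1
    rw [mul_one_div, div_le_iff₀ (by positivity)]
    linarith
  refine ⟨R, by positivity, ?_⟩
  have hyg : (0 : ℝ) < y0 / (8 * (g + 1)) := div_pos hy (by positivity)
  have e1 : ∀ᶠ n in (C.U : Filter ℕ),
      C.r n ≤ min 1 (min (κ / (2 * K)) (y0 / (8 * (g + 1)) / B')) := by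
    refine C.rlim.eventually (ge_mem_nhds ?_)
    exact lt_min one_pos (lt_min (by positivity) (by positivity))
  have e3 : ∀ᶠ n in (C.U : Filter ℕ), ∀ i, c ≤ ‖dv (C.τ n i i)‖ := by
    refine eventually_all.2 fun i => ?_
    have h1 : 0 < ‖dv (C.σ i)‖ := norm_pos_iff.2 (dv_ne (C.spos i))
    have h2 : Tendsto (fun n => ‖dv (C.τ n i i)‖) C.U (𝓝 ‖dv (C.σ i)‖) :=
      ((dv_cont (C.spos i)).tendsto.comp (C.diag i)).norm
    filter_upwards [h2.eventually (le_mem_nhds (half_lt_self h1))] with n hn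
    exact (hc2 i).trans hn
  have e4 : ∀ᶠ n in (C.U : Filter ℕ), ∀ k, ∀ u ∈ Gs (C.τ n k k), c * ‖u‖ ≤ ‖vt (C.τ n k k) u‖ := by
    refine eventually_all.2 fun k => ?_
    filter_upwards [(C.diag k).eventually (hcv k)] with n hn u hu
    exact (mul_le_mul_of_nonneg_right (hc1 k) (norm_nonneg u)).trans (hn u hu)
  have e5 : ∀ᶠ n in (C.U : Filter ℕ), ∀ k, ∀ u ∈ Gs (C.τ n k k), ‖u‖ ≤ ρ' := by
    refine eventually_all.2 fun k => ?_
    filter_upwards [(C.diag k).eventually (hRb k)] with n hn u hu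
    exact (hn u hu).trans (hρ'2 k)
  filter_upwards [hSm, e1, e3, e4, e5] with n hSm e1 e3 e4 e5 T hTs hTd hTo w hw hwk
  have hr0 := C.rpos n
  have hr1 : C.r n ≤ 1 := e1.trans (min_le_left _ _)
  have hr2 : K * C.r n ≤ κ / 2 := by
    have h1 := e1.trans ((min_le_right _ _).trans (min_le_left _ _))
    rw [le_div_iff₀ (by positivity)] at h1
    linarith
  have hr3 : B' * C.r n ≤ y0 / (8 * (g + 1)) := by
    have h1 := e1.trans ((min_le_right _ _).trans (min_le_right _ _))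
    rw [le_div_iff₀ (by positivity)] at h1
    linarith
  have hwM : ∀ i ∈ S, ‖w i‖ ≤ M := fun i hi => (hw i hi).trans hMρ
  have hτ : ∀ i j, i ≠ j → ‖T i j‖ ≤ B' * C.r n ^ 2 := by
    intro i j hij
    exact (hTo i j hij).trans (mul_le_mul_of_nonneg_right hBB (by positivity))
  have hSmT : Sm y0 T := by
    refine ⟨hTs, fun i => ?_, fun i j hij => ?_⟩
    · rw [hTd i]
      exact hSm.2.1 i
    · refine (hτ i j hij).trans (le_trans ?_ hr3)
      have h1 : C.r n ^ 2 ≤ C.r n := by nlinarith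
      exact mul_le_mul_of_nonneg_left h1 (by linarith)
  have hu : ∀ i, ‖sc (C.r n) S w i‖ ≤ ρ' := by
    intro i
    unfold sc
    split_ifs with hi
    · rw [norm_mul, Complex.norm_real, Real.norm_eq_abs, abs_of_pos hr0]
      calc C.r n * ‖w i‖ ≤ 1 * M :=
            mul_le_mul hr1 (hwM i hi) (norm_nonneg _) zero_le_one
        _ ≤ ρ' := by rw [one_mul]; exact hρ'1
    · exact e5 i _ (hwk i hi).1
  have hdvT : ∀ i, c ≤ ‖dv (T i i)‖ := by
    intro i
    rw [hTd i]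
    exact e3 i
  have hvtT : ∀ k, k ∉ S → c * ‖w k‖ ≤ ‖vt (T k k) (w k)‖ := by
    intro k hk
    rw [hTd k]
    exact e4 k _ (hwk k hk).1
  have h1 := Ua_all hy hSmT hr0 hr1 hc0 hR1 hB1 hM1 hC1 hC2 hτ hdvT
    hvtT hwM (fun k hk => (hwk k hk).2)
    (fun A hA => hFA T hSmT A hA _ hu)
    (fun A hA hMt => hFM T hSmT A hA S hMt _ hu)
  have h3 : 2 ^ (prs g).card * ((C1 + C2 * ((prs g).card * B' + g * M)) *
        (B' ^ (prs g).card * M ^ g / c ^ g) * (1 / R + C.r n)) = K * (1 / R) + K * C.r n := by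
    rw [hK]; ring
  have hnrm : nrm (C.τ n) (C.r n) S w = nrm T (C.r n) S w := by
    unfold nrm
    simp only [hTd]
  rw [h3] at h1
  rw [hnrm]
  linarith

end AMP
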