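import Pool.Agent.Lib.MP_b57e3c_ag_P.ExA

set_option autoImplicit false

/-!
# Module Ub : `ff` depends holomorphically on the off-diagonal entries

`T s = T + s • D`, `D` symmetric with zero diagonal. The set
`V = {s | ∀ i ≠ j, ‖T i j + s * D i j‖ < y0 / (8 (g+1))}` is open (finitely many open
conditions). On `V` the terms of the series `ff (T s) u` are entire functions of `s` of norm
`exp (- π hᵗ (Im T s) h - 2 π h · Im u) ≤ exp (- π y0 ∑ h_i² + π (y0/(8(g+1))) ∑_{i≠j} |h_i||h_j|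
+ 2 π ‖u‖ ∑ |h_i|)  ≤ maj y0 (2 π ‖u‖) m` (`h_i = m_i + 1/2`, `∑_{i ≠ j} |h_i||h_j| ≤ g ∑ h_i²`);
`summable_maj`. Use `differentiableOn_tsum_of_summable_norm`.
(`‖exp z‖ = exp (re z)`; `re (π i h_i T_ij h_j) = - π h_i h_j Im T_ij`.)
-/

open Complex Filter Topology

namespace AMP

variable {g : ℕ}

/-- one term of the series is dominated by the majorant -/
private theorem Ub_term {y0 : ℝ} (hy : 0 < y0) {T : Matrix (Fin g) (Fin g) ℂ}
    (hT : ∀ i, y0 ≤ (T i i).im) (hT' : ∀ i j, i ≠ j → ‖T i j‖ < y0 / (8 * (g + 1)))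
    (u : Fin g → ℂ) (m : Fin g → ℤ) :
    ‖cexp (Real.pi * I * (∑ i, ∑ j, ((m i : ℂ) + 1 / 2) * T i j *
    ((m j : ℂ) + 1 / 2)) + 2 * Real.pi * I * ∑ i, ((m i : ℂ) + 1 / 2) * (u i + 1 / 2))‖ ≤
      maj y0 (2 * Real.pi * ‖u‖) m := by
  have hpi := Real.pi_pos
  obtain ⟨h, hh⟩ : ∃ h : Fin g → ℝ, h = fun i => (m i : ℝ) + 1 / 2 := ⟨_, rfl⟩
  have hhi : ∀ i, (m i : ℝ) + 1 / 2 = h i := fun i => by rw [hh]
  have hc : ∀ i, ((m i : ℂ) + 1 / 2) = ((h i : ℝ) : ℂ) := fun i => by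
    rw [hh]; push_cast; ring
  have hq : 0 < y0 / (8 * ((g : ℝ) + 1)) := by positivity
  obtain ⟨c, hcc⟩ : ∃ c, c = y0 / (8 * ((g : ℝ) + 1)) := ⟨_, rfl⟩
  rw [← hcc] at hT' hq
  rw [Complex.norm_exp]
  unfold maj
  simp only [hc, hhi]
  refine Real.exp_le_exp.2 ?_
  have e1 : (Real.pi * I * (∑ i, ∑ j, ((h i : ℝ) : ℂ) * T i j * ((h j : ℝ) : ℂ)) +
      2 * Real.pi * I * ∑ i, ((h i : ℝ) : ℂ) * (u i + 1 / 2)).re =
      -(Real.pi * ∑ i, ∑ j, h i * (T i j).im * h j) - 2 * Real.pi * ∑ i, h i * (u i).im := by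
    have a1 : (∑ i, ∑ j, ((h i : ℝ) : ℂ) * T i j * ((h j : ℝ) : ℂ)).im =
        ∑ i, ∑ j, h i * (T i j).im * h j := by
      rw [Complex.im_sum]
      refine Finset.sum_congr rfl fun i _ => ?_
      rw [Complex.im_sum]
      refine Finset.sum_congr rfl fun j _ => ?_
      simp only [Complex.mul_re, Complex.mul_im, Complex.ofReal_re, Complex.ofReal_im]
      ring
    have a2 : (∑ i, ((h i : ℝ) : ℂ) * (u i + 1 / 2)).im = ∑ i, h i * (u i).im := by
      rw [Complex.im_sum]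
      refine Finset.sum_congr rfl fun i _ => ?_
      have : ((1 : ℂ) / 2).im = 0 := by norm_num
      simp only [Complex.mul_im, Complex.ofReal_re, Complex.ofReal_im, Complex.add_im, this]
      ring
    rw [← a1, ← a2]
    generalize (∑ i, ∑ j, ((h i : ℝ) : ℂ) * T i j * ((h j : ℝ) : ℂ)) = X
    generalize (∑ i, ((h i : ℝ) : ℂ) * (u i + 1 / 2)) = Y
    have a3 : (2 * (Real.pi : ℂ) * I * Y) = ((2 * Real.pi : ℝ) : ℂ) * I * Y := by push_cast; ring
    rw [a3]
    simp only [Complex.add_re, Complex.mul_re, Complex.mul_im, Complex.ofReal_re,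
      Complex.ofReal_im, Complex.I_re, Complex.I_im]
    ring
  rw [e1]
  -- the quadratic part
  have e2 : ∑ i, ∑ j, ((if i = j then y0 * h i ^ 2 else 0) - c * (|h i| * |h j|)) ≤
      ∑ i, ∑ j, h i * (T i j).im * h j := by
    refine Finset.sum_le_sum fun i _ => Finset.sum_le_sum fun j _ => ?_
    by_cases hij : i = j
    · subst hij
      rw [if_pos rfl]
      have b1 := hT i
      have b2 : y0 * h i ^ 2 ≤ (T i i).im * h i ^ 2 :=
        mul_le_mul_of_nonneg_right b1 (sq_nonneg _)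
      have b3 : 0 ≤ c * (|h i| * |h i|) := by positivity
      nlinarith
    · rw [if_neg hij]
      have b1 : |(T i j).im| ≤ c := (Complex.abs_im_le_norm _).trans (hT' i j hij).le
      have b2 : |h i * (T i j).im * h j| ≤ c * (|h i| * |h j|) := by
        rw [abs_mul, abs_mul]
        have : 0 ≤ |h i| * |h j| := by positivity
        nlinarith
      have b3 := neg_abs_le (h i * (T i j).im * h j)
      linarith
  have e3 : ∑ i, ∑ j, ((if i = j then y0 * h i ^ 2 else 0) - c * (|h i| * |h j|)) =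
      y0 * (∑ i, h i ^ 2) - c * (∑ i, |h i|) ^ 2 := by
    simp only [Finset.sum_sub_distrib]
    have b1 : ∑ i, ∑ j, (if i = j then y0 * h i ^ 2 else 0) = y0 * (∑ i, h i ^ 2) := by
      rw [Finset.mul_sum]
      refine Finset.sum_congr rfl fun i _ => ?_
      simp
    have b2 : ∑ i, ∑ j, c * (|h i| * |h j|) = c * (∑ i, |h i|) ^ 2 := by
      rw [sq, Finset.sum_mul_sum, Finset.mul_sum]
      refine Finset.sum_congr rfl fun i _ => ?_
      rw [Finset.mul_sum]
    rw [b1, b2]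
  have e4 : (∑ i, |h i|) ^ 2 ≤ g * ∑ i, h i ^ 2 := by
    have b1 := sq_sum_le_card_mul_sum_sq (s := (Finset.univ : Finset (Fin g)))
      (f := fun i => |h i|)
    simpa using b1
  have e5 : c * g ≤ y0 / 2 := by
    rw [hcc, div_mul_eq_mul_div, div_le_div_iff₀ (by positivity) two_pos]
    have : (0 : ℝ) ≤ g := Nat.cast_nonneg g
    nlinarith
  have e6 : 0 ≤ ∑ i, h i ^ 2 := Finset.sum_nonneg fun i _ => sq_nonneg _
  have e7 : y0 / 2 * (∑ i, h i ^ 2) ≤ ∑ i, ∑ j, h i * (T i j).im * h j := by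
    have b1 : c * (∑ i, |h i|) ^ 2 ≤ c * (g * ∑ i, h i ^ 2) :=
      mul_le_mul_of_nonneg_left e4 hq.le
    have b2 : c * g * (∑ i, h i ^ 2) ≤ y0 / 2 * (∑ i, h i ^ 2) :=
      mul_le_mul_of_nonneg_right e5 e6
    linarith
  -- the linear part
  have e8 : -(∑ i, h i * (u i).im) ≤ ‖u‖ * ∑ i, |h i| := by
    rw [← Finset.sum_neg_distrib, Finset.mul_sum]
    refine Finset.sum_le_sum fun i _ => ?_
    have b1 : |(u i).im| ≤ ‖u‖ := (Complex.abs_im_le_norm _).trans (norm_le_pi_norm u i)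
    have b2 : |h i * (u i).im| ≤ ‖u‖ * |h i| := by
      rw [abs_mul]
      have : 0 ≤ |h i| := abs_nonneg _
      nlinarith
    have b3 := neg_abs_le (h i * (u i).im)
    linarith
  have e9 : Real.pi * (y0 / 2 * (∑ i, h i ^ 2)) ≤ Real.pi * ∑ i, ∑ j, h i * (T i j).im * h j :=
    mul_le_mul_of_nonneg_left e7 hpi.le
  have e10 : 2 * Real.pi * -(∑ i, h i * (u i).im) ≤ 2 * Real.pi * (‖u‖ * ∑ i, |h i|) :=
    mul_le_mul_of_nonneg_left e8 (by positivity)
  linarith

theorem ff_line {y0 : ℝ} (hy : 0 < y0) {T D : Matrix (Fin g) (Fin g) ℂ}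
    (hT : ∀ i, y0 ≤ (T i i).im) (hD : ∀ i, D i i = 0) (u : Fin g → ℂ) :
    IsOpen {s : ℂ | ∀ i j, i ≠ j → ‖T i j + s * D i j‖ < y0 / (8 * (g + 1))} ∧
    DifferentiableOn ℂ (fun s : ℂ => ff (T + s • D) u)
      {s : ℂ | ∀ i j, i ≠ j → ‖T i j + s * D i j‖ < y0 / (8 * (g + 1))} := by
  have hop : IsOpen {s : ℂ | ∀ i j, i ≠ j → ‖T i j + s * D i j‖ < y0 / (8 * (g + 1))} := by
    have e : {s : ℂ | ∀ i j, i ≠ j → ‖T i j + s * D i j‖ < y0 / (8 * (g + 1))} =
        ⋂ i : Fin g, ⋂ j : Fin g, {s : ℂ | i ≠ j → ‖T i j + s * D i j‖ < y0 / (8 * (g + 1))} := by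
      ext s
      simp
    rw [e]
    refine isOpen_iInter_of_finite fun i => isOpen_iInter_of_finite fun j => ?_
    by_cases hij : i = j
    · have : {s : ℂ | i ≠ j → ‖T i j + s * D i j‖ < y0 / (8 * (g + 1))} = Set.univ := by
        ext s
        simp [hij]
      rw [this]
      exact isOpen_univ
    · have : {s : ℂ | i ≠ j → ‖T i j + s * D i j‖ < y0 / (8 * (g + 1))} =
          {s : ℂ | ‖T i j + s * D i j‖ < y0 / (8 * (g + 1))} := by
        ext s
        simp [hij]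
      rw [this]
      exact isOpen_lt (by fun_prop) continuous_const
  refine ⟨hop, ?_⟩
  unfold ff
  refine differentiableOn_tsum_of_summable_norm (summable_maj (g := g) hy (2 * Real.pi * ‖u‖))
    (fun m => ?_) hop (fun m s hs => ?_)
  · refine Differentiable.differentiableOn ?_
    simp only [Matrix.add_apply, Matrix.smul_apply, smul_eq_mul]
    fun_prop
  · refine Ub_term hy (fun i => ?_) (fun i j hij => ?_) u m
    · rw [Matrix.add_apply, Matrix.smul_apply, hD, smul_zero, add_zero]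
      exact hT i
    · rw [Matrix.add_apply, Matrix.smul_apply, smul_eq_mul]
      exact hs i j hij

end AMP
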