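import Pool.Agent.Lib.MP_b57e3c_ag_P.Ua
import Pool.Agent.Lib.MP_b57e3c_ag_P.Ub

set_option autoImplicit false

/-!
# Module Uc : the difference of two theta functions with the same diagonal

`Sq.bd`: `‖C.τ n i j‖ = ‖2 π i r² * (τ/(2 π i r²))‖ ≤ 2 π r² (‖b i j‖ + 1)` for most `n`
(`C.off`). `diff_est`: let `B = B0 + 1`, `D = T - τ n` (symmetric: `C.siegel`; zero diagonal), `T
s = τ n + s D`. For `‖s‖ < 1/δ` the off-diagonal entries satisfy `‖T s i j‖ ≤ B0 r² + r² = B r²`,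
which is `< y0/(8(g+1))` for most `n`. Let `E s = ff (T s) (sc r S w) / nrm - mu (fun i j => T s
i j / (2 π i r²)) S w`; by `Sq.approx_u` with `κ/3` in place of `κ`: `‖E s‖ ≤ κ/3` for `‖s‖ <
1/δ`; `E` is differentiable on this disc (`ff_line`; `mu` is a finite sum of products of affine
functions of `s`). `‖E s - E 0‖ ≤ 2 κ/3 < κ`, so the Schwarz lemma
(`Complex.dist_le_div_mul_dist_of_mapsTo_ball` with radii `1/δ` and `κ`) gives `‖E 1 - E 0‖ ≤ κ
δ` (`1 < 1/δ`).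
-/

open Complex Filter Topology

namespace AMP

variable {g m : ℕ}

theorem Sq.bd (C : Sq g m) : ∃ B > 0, ∀ᶠ n in (C.U : Filter ℕ), ∀ i j, i ≠ j →
    ‖C.τ n i j‖ ≤ B * C.r n ^ 2 := by
  obtain ⟨B, hB0, hB⟩ : ∃ B : ℝ, 0 < B ∧ ∀ i j, 2 * Real.pi * (‖C.b i j‖ + 1) ≤ B := by
    refine ⟨∑ i, ∑ j, 2 * Real.pi * (‖C.b i j‖ + 1) + 1, ?_, fun i j => ?_⟩
    · have h : 0 ≤ ∑ i, ∑ j, 2 * Real.pi * (‖C.b i j‖ + 1) :=
        Finset.sum_nonneg fun i _ => Finset.sum_nonneg fun j _ => by positivity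
      linarith
    · have h1 : 2 * Real.pi * (‖C.b i j‖ + 1) ≤ ∑ j, 2 * Real.pi * (‖C.b i j‖ + 1) :=
        Finset.single_le_sum (f := fun j => 2 * Real.pi * (‖C.b i j‖ + 1))
          (fun j _ => by positivity) (Finset.mem_univ j)
      have h2 : ∑ j, 2 * Real.pi * (‖C.b i j‖ + 1) ≤
          ∑ i, ∑ j, 2 * Real.pi * (‖C.b i j‖ + 1) :=
        Finset.single_le_sum (f := fun i => ∑ j, 2 * Real.pi * (‖C.b i j‖ + 1))
          (fun i _ => Finset.sum_nonneg fun j _ => by positivity) (Finset.mem_univ i)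
      linarith
  refine ⟨B, hB0, eventually_all.2 fun i => eventually_all.2 fun j => ?_⟩
  by_cases hij : i = j
  · exact Eventually.of_forall fun n h => absurd hij h
  · have h1 := (C.off i j hij).norm
    have h2 : ∀ᶠ n in (C.U : Filter ℕ),
        ‖C.τ n i j / (2 * Real.pi * I * (C.r n : ℂ) ^ 2)‖ < ‖C.b i j‖ + 1 :=
      h1.eventually_lt_const (lt_add_one _)
    filter_upwards [h2] with n h2 _
    have hr : 0 < C.r n ^ 2 := pow_pos (C.rpos n) 2
    have h3 : ‖(2 * Real.pi * I * (C.r n : ℂ) ^ 2 : ℂ)‖ = 2 * Real.pi * C.r n ^ 2 := by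
      rw [norm_mul, norm_mul, norm_mul, norm_pow, Complex.norm_I, Complex.norm_real,
        Complex.norm_real, Real.norm_eq_abs, Real.norm_eq_abs, abs_of_pos Real.pi_pos,
        abs_of_pos (C.rpos n)]
      simp
    rw [norm_div, h3, div_lt_iff₀ (by positivity)] at h2
    have h4 := mul_le_mul_of_nonneg_right (hB i j) hr.le
    have h5 : (‖C.b i j‖ + 1) * (2 * Real.pi * C.r n ^ 2) =
        2 * Real.pi * (‖C.b i j‖ + 1) * C.r n ^ 2 := by ring
    linarith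

/-- `μ_S` is differentiable along a line of matrices -/
private theorem uc_mu (τ D : Matrix (Fin g) (Fin g) ℂ) (K : ℂ) (S : Finset (Fin g))
    (w : Fin g → ℂ) :
    Differentiable ℂ (fun s : ℂ => mu (fun i j => (τ + s • D) i j / K) S w) := by
  unfold mu
  refine Differentiable.fun_sum fun A _ => ?_
  split_ifs
  · refine Differentiable.mul ?_ (differentiable_const _)
    refine Differentiable.fun_finsetProd fun e _ => ?_
    simp only [Matrix.add_apply, Matrix.smul_apply, smul_eq_mul]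
    exact ((differentiable_const _).add (differentiable_id.mul_const _)).div_const _
  · exact differentiable_const _

theorem Sq.diff_est (C : Sq g m) (S : Finset (Fin g)) {ρ κ : ℝ} (hρ : 0 ≤ ρ) (hκ : 0 < κ) :
    ∃ R > 0, ∀ᶠ n in (C.U : Filter ℕ), ∀ T : Matrix (Fin g) (Fin g) ℂ,
      (∀ i j, T i j = T j i) → (∀ i, T i i = C.τ n i i) → ∀ δ > 0, δ ≤ 1 / 2 →
      (∀ i j, i ≠ j → ‖T i j - C.τ n i j‖ ≤ δ * C.r n ^ 2) → ∀ w : Fin g → ℂ,
      (∀ i ∈ S, ‖w i‖ ≤ ρ) → (∀ k, k ∉ S → w k ∈ Gs (C.τ n k k) ∧ R * C.r n ≤ ‖w k‖) →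
      ‖(ff T (sc (C.r n) S w) - ff (C.τ n) (sc (C.r n) S w)) / nrm (C.τ n) (C.r n) S w -
        (mu (fun i j => T i j / (2 * Real.pi * I * (C.r n : ℂ) ^ 2)) S w -
          mu (fun i j => C.τ n i j / (2 * Real.pi * I * (C.r n : ℂ) ^ 2)) S w)‖ ≤ κ * δ := by
  obtain ⟨B0, hB0, hb⟩ := C.bd
  obtain ⟨y0, hy0, hsm⟩ := C.sm
  obtain ⟨R, hR, hap⟩ := C.approx_u S hρ (κ := κ / 3) (by positivity) (B := B0 + 1)
    (by positivity)
  refine ⟨R, hR, ?_⟩
  have hy1 : (0 : ℝ) < y0 / (8 * (g + 1)) := div_pos hy0 (by positivity)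
  have hsmall : ∀ᶠ n in (C.U : Filter ℕ), (B0 + 1) * C.r n ^ 2 < y0 / (8 * (g + 1)) := by
    have h1 := (C.rlim.pow 2).const_mul (B0 + 1)
    rw [zero_pow two_ne_zero, mul_zero] at h1
    exact h1.eventually (eventually_lt_nhds hy1)
  filter_upwards [hb, hsm, hap, hsmall] with n hb hsm hap hsmall T hTs hTd δ hδ hδ2 hTδ w hw hk
  have hr : 0 < C.r n ^ 2 := pow_pos (C.rpos n) 2
  obtain ⟨K, hK⟩ : ∃ K : ℂ, K = 2 * Real.pi * I * (C.r n : ℂ) ^ 2 := ⟨_, rfl⟩
  obtain ⟨u, hu⟩ : ∃ u : Fin g → ℂ, u = sc (C.r n) S w := ⟨_, rfl⟩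
  obtain ⟨N, hN⟩ : ∃ N : ℂ, N = nrm (C.τ n) (C.r n) S w := ⟨_, rfl⟩
  rw [← hK] at hap ⊢
  rw [← hu, ← hN]
  obtain ⟨D, hD⟩ : ∃ D : Matrix (Fin g) (Fin g) ℂ, D = T - C.τ n := ⟨_, rfl⟩
  have hDd : ∀ i, D i i = 0 := fun i => by
    rw [hD, Matrix.sub_apply, hTd, sub_self]
  have hDs : ∀ i j, D i j = D j i := fun i j => by
    rw [hD, Matrix.sub_apply, Matrix.sub_apply, hTs i j, hsm.1 i j]
  have hline : ∀ s : ℂ, ‖s‖ < 1 / δ → ∀ i j, i ≠ j →
      ‖C.τ n i j + s * D i j‖ ≤ (B0 + 1) * C.r n ^ 2 := by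
    intro s hs i j hij
    have h1 : ‖D i j‖ ≤ δ * C.r n ^ 2 := by
      rw [hD, Matrix.sub_apply]
      exact hTδ i j hij
    have h2 : ‖s‖ * ‖D i j‖ ≤ 1 / δ * (δ * C.r n ^ 2) :=
      mul_le_mul hs.le h1 (norm_nonneg _) (by positivity)
    have h3 : 1 / δ * (δ * C.r n ^ 2) = C.r n ^ 2 := by
      field_simp
    have h4 := norm_add_le (C.τ n i j) (s * D i j)
    rw [norm_mul] at h4
    have h5 := hb i j hij
    linarith
  have hE : ∀ s : ℂ, ‖s‖ < 1 / δ →
      ‖ff (C.τ n + s • D) u / N - mu (fun i j => (C.τ n + s • D) i j / K) S w‖ ≤ κ / 3 := by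
    intro s hs
    have h := hap (C.τ n + s • D) (fun i j => by
      rw [Matrix.add_apply, Matrix.add_apply, Matrix.smul_apply, Matrix.smul_apply, hDs i j,
        hsm.1 i j]) (fun i => by
      rw [Matrix.add_apply, Matrix.smul_apply, hDd, smul_zero, add_zero]) (fun i j hij => by
      rw [Matrix.add_apply, Matrix.smul_apply, smul_eq_mul]
      exact hline s hs i j hij) w hw hk
    rw [← hu, ← hN] at h
    exact h
  have hd : DifferentiableOn ℂ (fun s : ℂ =>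
      ff (C.τ n + s • D) u / N - mu (fun i j => (C.τ n + s • D) i j / K) S w)
      (Metric.ball 0 (1 / δ)) := by
    refine DifferentiableOn.sub (DifferentiableOn.div_const ?_ N)
      (uc_mu (C.τ n) D K S w).differentiableOn
    refine (ff_line hy0 (T := C.τ n) (D := D) hsm.2.1 hDd u).2.mono fun s hs i j hij => ?_
    exact (hline s (mem_ball_zero_iff.1 hs) i j hij).trans_lt hsmall
  have hδ1 : 1 < 1 / δ := by
    rw [lt_div_iff₀ hδ]
    linarith
  have h0 : ‖(0 : ℂ)‖ < 1 / δ := by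
    rw [norm_zero]
    positivity
  have hmaps : Set.MapsTo (fun s : ℂ =>
      ff (C.τ n + s • D) u / N - mu (fun i j => (C.τ n + s • D) i j / K) S w)
      (Metric.ball 0 (1 / δ)) (Metric.closedBall
        (ff (C.τ n + (0 : ℂ) • D) u / N -
          mu (fun i j => (C.τ n + (0 : ℂ) • D) i j / K) S w) κ) := by
    intro s hs
    rw [mem_closedBall_iff_norm]
    have h1 := hE s (mem_ball_zero_iff.1 hs)
    have h2 := hE 0 h0
    have h3 := norm_sub_le
      (ff (C.τ n + s • D) u / N - mu (fun i j => (C.τ n + s • D) i j / K) S w)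
      (ff (C.τ n + (0 : ℂ) • D) u / N - mu (fun i j => (C.τ n + (0 : ℂ) • D) i j / K) S w)
    linarith
  have hz : (1 : ℂ) ∈ Metric.ball (0 : ℂ) (1 / δ) := by
    rw [mem_ball_zero_iff, norm_one]
    exact hδ1
  have hfin := Complex.dist_le_div_mul_dist_of_mapsTo_ball hd hmaps hz
  have e1 : C.τ n + (1 : ℂ) • D = T := by
    rw [one_smul, hD]
    abel
  have e0 : C.τ n + (0 : ℂ) • D = C.τ n := by
    rw [zero_smul, add_zero]
  simp only [e1, e0] at hfin
  rw [dist_eq_norm, dist_zero_right, norm_one, mul_one] at hfin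
  have e2 : (ff T u - ff (C.τ n) u) / N - (mu (fun i j => T i j / K) S w -
      mu (fun i j => C.τ n i j / K) S w) =
      ff T u / N - mu (fun i j => T i j / K) S w -
        (ff (C.τ n) u / N - mu (fun i j => C.τ n i j / K) S w) := by ring
  rw [e2]
  refine hfin.trans_eq ?_
  field_simp

end AMP
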