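import Pool.Agent.Lib.MP_b57e3c_ag_P.Uc
import Pool.Agent.Lib.MP_b57e3c_ag_P.Ap

set_option autoImplicit false

/-!
# Module Ud : the difference of the first derivatives

(1) `‖mu b' S w - mu b S w‖ ≤ K0 δ` when `‖b' i j‖, ‖b i j‖ ≤ B'`, `‖b' i j - b i j‖ ≤ δ` for `i
≠ j`, `‖w i‖ ≤ ρ + 1`, `δ ≤ 1` (finite sum of products; telescoping product), `K0` depending only
on `g, B', ρ`. With `b i j = τ n i j / (2 π i r²)`, `b' i j = T i j / (2 π i r²)`: `‖b' - b‖ ≤
δ/(2 π) ≤ δ`, and `Sq.bd`. (2) So by `diff_est` for `ρ + 1` and `κ = 1`: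
`‖(ff T (sc r S w) - ff (τ n) (sc r S w)) / nrm‖ ≤ (1 + K0) δ` for `‖w i‖ ≤ ρ + 1`.
(3) Cauchy's estimate in the variable `w i` on the disc of radius `1` around `w i`, `‖w i‖ ≤ ρ`
(as in module Ap; `nrm` does not depend on `w i`; `ff T`, `ff (τ n)` are entire, `ff_diff`): the
derivative `r (pf T i - pf (τ n) i) (sc r S w) / nrm` is bounded by `(1 + K0) δ`.
-/

open Complex Filter Topology

namespace AMP

variable {g m : ℕ}

private lemma ud_sc_update {r : ℝ} {S : Finset (Fin g)} {i : Fin g} (hi : i ∈ S) (w : Fin g → ℂ)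
    (x : ℂ) : sc r S (Function.update w i x) = Function.update (sc r S w) i ((r : ℂ) * x) := by
  funext k
  by_cases hk : k = i
  · subst hk
    simp [sc, hi]
  · simp [sc, Function.update_of_ne hk]

private lemma ud_nrm_update {τ : Matrix (Fin g) (Fin g) ℂ} {r : ℝ} {S : Finset (Fin g)} {i : Fin g}
    (hi : i ∈ S) (w : Fin g → ℂ) (x : ℂ) :
    nrm τ r S (Function.update w i x) = nrm τ r S w := by
  simp only [nrm]
  congr 1
  apply Finset.prod_congr rfl
  intro k hk
  rw [Function.update_of_ne]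
  rintro rfl
  exact (Finset.mem_compl.1 hk) hi

private lemma ud_diff_update (w : Fin g → ℂ) (i : Fin g) :
    Differentiable ℂ (fun x : ℂ => Function.update w i x) := fun x =>
  (hasDerivAt_update w i x).differentiableAt

private lemma ud_cauchy_aux {F : (Fin g → ℂ) → ℂ} (hF : Differentiable ℂ F) {G : ℂ → ℂ}
    (hGd : Differentiable ℂ G) {G' : ℂ} {w : Fin g → ℂ} {i : Fin g} {S : Finset (Fin g)}
    (hi : i ∈ S) {r : ℝ} {a N : ℂ} {κ : ℝ} (hG : HasDerivAt G G' (w i))
    (hb : ∀ x, ‖x - w i‖ = 1 → ‖a * F (sc r S (Function.update w i x)) / N - G x‖ ≤ κ) :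
    ‖a * ((r : ℂ) * fderiv ℂ F (sc r S w) (Pi.single i 1)) / N - G'‖ ≤ κ := by
  have hw : sc r S w i = (r : ℂ) * w i := by simp [sc, hi]
  have h1 : HasDerivAt (fun x : ℂ => F (sc r S (Function.update w i x)))
      ((r : ℂ) * fderiv ℂ F (sc r S w) (Pi.single i 1)) (w i) := by
    have h2 : (fun x : ℂ => F (sc r S (Function.update w i x))) =
        fun x : ℂ => F (Function.update (sc r S w) i ((r : ℂ) * x)) := by
      funext x; rw [ud_sc_update hi]
    rw [h2]
    have h3 : HasDerivAt (fun x : ℂ => (r : ℂ) * x) (r : ℂ) (w i) := by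
      simpa using (hasDerivAt_id (w i)).const_mul (r : ℂ)
    have h4 : HasDerivAt (fun x : ℂ => Function.update (sc r S w) i ((r : ℂ) * x))
        ((r : ℂ) • (Pi.single i (1 : ℂ) : Fin g → ℂ)) (w i) :=
      (hasDerivAt_update (sc r S w) i ((r : ℂ) * w i)).scomp (w i) h3
    have h5 : Function.update (sc r S w) i ((r : ℂ) * w i) = sc r S w := by
      rw [← hw, Function.update_eq_self]
    have h6 : HasFDerivAt F (fderiv ℂ F (sc r S w))
        (Function.update (sc r S w) i ((r : ℂ) * w i)) := by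
      rw [h5]; exact (hF _).hasFDerivAt
    have h7 := h6.comp_hasDerivAt (w i) h4
    rw [map_smul, smul_eq_mul] at h7
    exact h7
  have hφ : HasDerivAt (fun x : ℂ => a * F (sc r S (Function.update w i x)) / N - G x)
      (a * ((r : ℂ) * fderiv ℂ F (sc r S w) (Pi.single i 1)) / N - G') (w i) :=
    ((h1.const_mul a).div_const N).sub hG
  have hd : Differentiable ℂ
      (fun x : ℂ => a * F (sc r S (Function.update w i x)) / N - G x) := by
    have h2 : (fun x : ℂ => F (sc r S (Function.update w i x))) =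
        fun x : ℂ => F (Function.update (sc r S w) i ((r : ℂ) * x)) := by
      funext x; rw [ud_sc_update hi]
    have h3 : Differentiable ℂ (fun x : ℂ => F (sc r S (Function.update w i x))) := by
      rw [h2]
      exact hF.comp ((ud_diff_update (sc r S w) i).comp (by fun_prop))
    exact ((h3.const_mul a).div_const N).sub hGd
  have h8 := Complex.norm_deriv_le_of_forall_mem_sphere_norm_le (c := w i) (R := 1) (C := κ)
    one_pos hd.diffContOnCl (fun z hz => hb z (by rwa [mem_sphere_iff_norm] at hz))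
  rwa [hφ.deriv, div_one] at h8

private lemma ud_norm_le_of_sphere {ρ : ℝ} {S : Finset (Fin g)} {w : Fin g → ℂ} {i : Fin g}
    (hw : ∀ i ∈ S, ‖w i‖ ≤ ρ) (hi : i ∈ S) {x : ℂ} (hx : ‖x - w i‖ = 1) :
    ∀ j ∈ S, ‖Function.update w i x j‖ ≤ ρ + 1 := by
  intro j hj
  by_cases h : j = i
  · subst h
    rw [Function.update_self]
    have h1 : ‖x‖ ≤ ‖x - w j‖ + ‖w j‖ := by
      have := norm_add_le (x - w j) (w j)
      rwa [sub_add_cancel] at this
    have := hw j hj
    linarith
  · rw [Function.update_of_ne h]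
    have := hw j hj
    linarith

private theorem ud_prod {A : Finset (Fin g × Fin g)} {b b' : Fin g × Fin g → ℂ} {M δ : ℝ}
    (hM : 1 ≤ M) (hδ : 0 ≤ δ) (h : ∀ e ∈ A, ‖b e‖ ≤ M) (h' : ∀ e ∈ A, ‖b' e‖ ≤ M)
    (hd : ∀ e ∈ A, ‖b' e - b e‖ ≤ δ) :
    ‖∏ e ∈ A, b e‖ ≤ M ^ A.card ∧
      ‖∏ e ∈ A, b' e - ∏ e ∈ A, b e‖ ≤ A.card * M ^ A.card * δ := by
  classical
  induction A using Finset.induction_on with
  | empty => simp
  | insert a A ha ih =>
    obtain ⟨i1, i2⟩ := ih (fun e he => h e (Finset.mem_insert_of_mem he))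
      (fun e he => h' e (Finset.mem_insert_of_mem he))
      (fun e he => hd e (Finset.mem_insert_of_mem he))
    have ha1 := h a (Finset.mem_insert_self a A)
    have ha2 := h' a (Finset.mem_insert_self a A)
    have ha3 := hd a (Finset.mem_insert_self a A)
    rw [Finset.prod_insert ha, Finset.prod_insert ha, Finset.card_insert_of_notMem ha]
    have hMp : 0 ≤ M ^ A.card := by positivity
    constructor
    · rw [norm_mul, pow_succ']
      exact mul_le_mul ha1 i1 (norm_nonneg _) (by linarith)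
    · have e1 : b' a * ∏ e ∈ A, b' e - b a * ∏ e ∈ A, b e =
          b' a * (∏ e ∈ A, b' e - ∏ e ∈ A, b e) + (b' a - b a) * ∏ e ∈ A, b e := by ring
      rw [e1]
      refine (norm_add_le _ _).trans ?_
      rw [norm_mul, norm_mul]
      have h1 : ‖b' a‖ * ‖∏ e ∈ A, b' e - ∏ e ∈ A, b e‖ ≤ M * (A.card * M ^ A.card * δ) :=
        mul_le_mul ha2 i2 (norm_nonneg _) (by linarith)
      have h2 : ‖b' a - b a‖ * ‖∏ e ∈ A, b e‖ ≤ δ * (M * M ^ A.card) := by
        refine mul_le_mul ha3 (i1.trans ?_) (norm_nonneg _) hδ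
        exact le_mul_of_one_le_left hMp hM
      calc ‖b' a‖ * ‖∏ e ∈ A, b' e - ∏ e ∈ A, b e‖ + ‖b' a - b a‖ * ‖∏ e ∈ A, b e‖
          ≤ M * (A.card * M ^ A.card * δ) + δ * (M * M ^ A.card) := add_le_add h1 h2
        _ = ((A.card + 1 : ℕ) : ℝ) * M ^ (A.card + 1) * δ := by push_cast; ring

private theorem ud_mu {b b' : Fin g → Fin g → ℂ} {M δ ρ : ℝ} (hM : 1 ≤ M) (hδ : 0 ≤ δ)
    (hρ : 1 ≤ ρ) (h : ∀ i j, i ≠ j → ‖b i j‖ ≤ M) (h' : ∀ i j, i ≠ j → ‖b' i j‖ ≤ M)
    (hd : ∀ i j, i ≠ j → ‖b' i j - b i j‖ ≤ δ) (S : Finset (Fin g)) {w : Fin g → ℂ}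
    (hw : ∀ i ∈ S, ‖w i‖ ≤ ρ) :
    ‖mu b' S w - mu b S w‖ ≤
      (prs g).powerset.card * ((prs g).card * M ^ (prs g).card * ρ ^ g) * δ := by
  classical
  unfold mu
  rw [← Finset.sum_sub_distrib]
  refine (norm_sum_le _ _).trans ?_
  rw [mul_assoc, ← nsmul_eq_mul]
  refine Finset.sum_le_card_nsmul _ _ _ fun A hA => ?_
  rw [Finset.mem_powerset] at hA
  have hMp : 0 ≤ M ^ (prs g).card := by positivity
  have hρp : 0 ≤ ρ ^ g := by positivity
  by_cases hm : IsMt S A
  · rw [if_pos hm, if_pos hm, ← sub_mul, norm_mul, norm_prod]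
    have hne : ∀ e ∈ A, e.1 ≠ e.2 := by
      intro e he
      have h1 := hA he
      rw [prs, Finset.mem_filter] at h1
      exact h1.2.ne
    have h1 := (ud_prod (A := A) (b := fun e => b e.1 e.2) (b' := fun e => b' e.1 e.2) hM hδ
      (fun e he => h _ _ (hne e he)) (fun e he => h' _ _ (hne e he))
      (fun e he => hd _ _ (hne e he))).2
    have h2 : ∏ i ∈ S.filter (fun i => dg A i = 0), ‖w i‖ ≤ ρ ^ g := by
      calc ∏ i ∈ S.filter (fun i => dg A i = 0), ‖w i‖
          ≤ ρ ^ (S.filter fun i => dg A i = 0).card := by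
            rw [← Finset.prod_const]
            exact Finset.prod_le_prod (fun _ _ => norm_nonneg _) fun i hi =>
              hw i (Finset.mem_filter.1 hi).1
        _ ≤ ρ ^ g := by
            refine pow_le_pow_right₀ hρ ?_
            have := Finset.card_le_univ (S.filter fun i => dg A i = 0)
            rwa [Fintype.card_fin] at this
    have h3 : (A.card : ℝ) * M ^ A.card * δ ≤ (prs g).card * M ^ (prs g).card * δ := by
      have hc := Finset.card_le_card hA
      have h4 : (A.card : ℝ) ≤ (prs g).card := by exact_mod_cast hc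
      have h5 : M ^ A.card ≤ M ^ (prs g).card := pow_le_pow_right₀ hM hc
      gcongr
    calc _ ≤ ((prs g).card * M ^ (prs g).card * δ) * ρ ^ g :=
          mul_le_mul (h1.trans h3) h2 (Finset.prod_nonneg fun _ _ => norm_nonneg _)
            (by positivity)
      _ = _ := by ring
  · rw [if_neg hm, if_neg hm, sub_zero, norm_zero]
    positivity

private theorem ud_norm {r : ℝ} (hr : 0 < r) (z : ℂ) {B : ℝ} (hz : ‖z‖ ≤ B * r ^ 2) :
    ‖z / (2 * Real.pi * I * (r : ℂ) ^ 2)‖ ≤ B := by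
  have h1 : ‖(2 * Real.pi * I * (r : ℂ) ^ 2 : ℂ)‖ = 2 * Real.pi * r ^ 2 := by
    rw [norm_mul, norm_mul, norm_mul, norm_pow, Complex.norm_I, Complex.norm_real,
      Complex.norm_real, Real.norm_of_nonneg Real.pi_pos.le, Real.norm_of_nonneg hr.le, mul_one]
    norm_num
  have hr2 : 0 < r ^ 2 := by positivity
  have hB : 0 ≤ B := by
    by_contra hB
    have h2 : B * r ^ 2 < 0 := mul_neg_of_neg_of_pos (not_le.1 hB) hr2
    linarith [norm_nonneg z]
  rw [norm_div, h1, div_le_iff₀ (by positivity)]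
  refine hz.trans ?_
  have h3 : 1 ≤ 2 * Real.pi := by linarith [Real.pi_gt_three]
  calc B * r ^ 2 = B * (1 * r ^ 2) := by ring
    _ ≤ B * (2 * Real.pi * r ^ 2) := by gcongr

theorem Sq.diff_psi (C : Sq g m) (S : Finset (Fin g)) {ρ : ℝ} (hρ : 0 ≤ ρ) :
    ∃ K > 0, ∃ R > 0, ∀ᶠ n in (C.U : Filter ℕ), ∀ T : Matrix (Fin g) (Fin g) ℂ,
      AM.Siegel T → (∀ i, T i i = C.τ n i i) → ∀ δ > 0, δ ≤ 1 / 2 →
      (∀ i j, i ≠ j → ‖T i j - C.τ n i j‖ ≤ δ * C.r n ^ 2) → ∀ w : Fin g → ℂ,
      (∀ i ∈ S, ‖w i‖ ≤ ρ) → (∀ k, k ∉ S → w k ∈ Gs (C.τ n k k) ∧ R * C.r n ≤ ‖w k‖) →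
      ∀ i ∈ S, ‖(C.r n : ℂ) * (pf T i (sc (C.r n) S w) - pf (C.τ n) i (sc (C.r n) S w)) /
        nrm (C.τ n) (C.r n) S w‖ ≤ K * δ := by
  obtain ⟨B, hB, hbd⟩ := C.bd
  obtain ⟨R, hR, h⟩ := C.diff_est S (ρ := ρ + 1) (κ := 1) (by linarith) one_pos
  obtain ⟨K0, hK0⟩ : ∃ K0 : ℝ, K0 = (prs g).powerset.card *
      ((prs g).card * (B + 1) ^ (prs g).card * (ρ + 1) ^ g) := ⟨_, rfl⟩
  have hK0p : 0 ≤ K0 := by
    rw [hK0]
    positivity
  refine ⟨1 + K0, by linarith, R, hR, ?_⟩
  filter_upwards [h, hbd] with n hn hb T hT hdg δ hδ hδ' hoff w hw1 hw2 i hi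
  have hr := C.rpos n
  have hTs : ∀ i j, T i j = T j i := fun i j => (hT.1.apply i j).symm
  have hF : Differentiable ℂ fun u => ff T u - ff (C.τ n) u :=
    (ff_diff hT).sub (ff_diff (C.siegel n))
  have key := ud_cauchy_aux hF (G := fun _ => 0) (differentiable_const _) (G' := 0) hi
    (r := C.r n) (a := 1) (N := nrm (C.τ n) (C.r n) S w) (κ := (1 + K0) * δ) (w := w)
    (hasDerivAt_const _ _) ?_
  · rw [one_mul, sub_zero] at key
    have h1 : fderiv ℂ (fun u => ff T u - ff (C.τ n) u) (sc (C.r n) S w) (Pi.single i 1) =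
        pf T i (sc (C.r n) S w) - pf (C.τ n) i (sc (C.r n) S w) := by
      rw [fderiv_fun_sub (ff_diff hT _) (ff_diff (C.siegel n) _)]
      rfl
    rwa [h1] at key
  · intro x hx
    have hw' := ud_norm_le_of_sphere hw1 hi hx
    have h1 := hn T hTs hdg δ hδ hδ' hoff (Function.update w i x) hw' ?_
    · rw [ud_nrm_update hi, one_mul] at h1
      have h2 : ‖mu (fun i j => T i j / (2 * Real.pi * I * (C.r n : ℂ) ^ 2)) S
          (Function.update w i x) - mu (fun i j => C.τ n i j / (2 * Real.pi * I *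
          (C.r n : ℂ) ^ 2)) S (Function.update w i x)‖ ≤ K0 * δ := by
        rw [hK0]
        refine ud_mu (by linarith) hδ.le (by linarith) ?_ ?_ ?_ S hw'
        · intro i j hij
          have := ud_norm hr (C.τ n i j) (hb i j hij)
          linarith
        · intro i j hij
          have h3 := ud_norm hr (C.τ n i j) (hb i j hij)
          have h4 := ud_norm hr (T i j - C.τ n i j) (hoff i j hij)
          have h5 : T i j / (2 * Real.pi * I * (C.r n : ℂ) ^ 2) =
              (T i j - C.τ n i j) / (2 * Real.pi * I * (C.r n : ℂ) ^ 2) +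
              C.τ n i j / (2 * Real.pi * I * (C.r n : ℂ) ^ 2) := by
            rw [← add_div, sub_add_cancel]
          rw [h5]
          refine (norm_add_le _ _).trans ?_
          linarith
        · intro i j hij
          rw [← sub_div]
          exact ud_norm hr (T i j - C.τ n i j) (hoff i j hij)
      rw [sub_zero, one_mul]
      have h3 := norm_le_insert' ((ff T (sc (C.r n) S (Function.update w i x)) -
        ff (C.τ n) (sc (C.r n) S (Function.update w i x))) / nrm (C.τ n) (C.r n) S w)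
        (mu (fun i j => T i j / (2 * Real.pi * I * (C.r n : ℂ) ^ 2)) S
          (Function.update w i x) - mu (fun i j => C.τ n i j / (2 * Real.pi * I *
          (C.r n : ℂ) ^ 2)) S (Function.update w i x))
      linarith
    · intro k hk
      have hki : k ≠ i := by
        rintro rfl
        exact hk hi
      rw [Function.update_of_ne hki]
      exact hw2 k hk

end AMP
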