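import Pool.Agent.Lib.MP_b57e3c_ag_P.SgA

set_option autoImplicit false

/-!
# Module Ue : the singular zero outside of the origin is unique up to sign

`sing_four` for `v` and `v'` (`S = {i,j,k,l}` by `Finset.card_eq_succ` or a bijection; the first
alternative is excluded: if `v ≠ 0` on `S`) gives `p, q, r, x` and `p', q', r', x'` with `p² =
p'²`, `q² = q'²`, `r² = r'²`, `pq + qr + rp = 0 = p'q' + q'r' + r'p'`. (If the first alternative
held for `v'`, `v'` would vanish.) After replacing `(p',q',r',x')` by `(-p',-q',-r',-x')` (all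
relations remain true: they involve only products of two of them) we may assume `p = p'`. If `q'
= - q`: `r' = r` gives by addition/subtraction of the two relations `p q + q r = 0`, so `p = - r`
and then `r p = 0`, contradiction; `r' = - r` gives `q r = 0`, contradiction. So `q' = q`,
similarly `r' = r` (from `r' = - r`: `q r + r p = 0`, `q = - p`, then `p q = 0`). So `x' = -
(p'+q'+r') = x`. Hence all products agree: `v i v j = p x / b k l = v' i v' j` etc. (6 pairs).
All `v i ≠ 0` (products are nonzero). `v i² = (v i v j)(v i v k)/(v j v k) = v' i²`, so `v' i = ±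
v i`, and `v i v j = v' i v' j` gives the same sign for all.
-/

open Complex Filter Topology

namespace AMP

variable {g : ℕ} {b : Fin g → Fin g → ℂ} {v v' : Fin g → ℂ}

/-- Three numbers with given squares and `pq + qr + rp = 0` are unique up to a common sign. -/
private theorem Ue_core {p q r p' q' r' : ℂ} (hp : p ≠ 0) (hq : q ≠ 0) (hr : r ≠ 0)
    (h1 : p * q + q * r + r * p = 0) (h2 : p' * q' + q' * r' + r' * p' = 0)
    (e1 : p' ^ 2 = p ^ 2) (e2 : q' ^ 2 = q ^ 2) (e3 : r' ^ 2 = r ^ 2) :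
    (p' = p ∧ q' = q ∧ r' = r) ∨ (p' = -p ∧ q' = -q ∧ r' = -r) := by
  have hpq := mul_ne_zero hp hq
  have hqr := mul_ne_zero hq hr
  have hrp := mul_ne_zero hr hp
  rcases sq_eq_sq_iff_eq_or_eq_neg.1 e1 with a | a <;>
    rcases sq_eq_sq_iff_eq_or_eq_neg.1 e2 with c | c <;>
    rcases sq_eq_sq_iff_eq_or_eq_neg.1 e3 with d | d <;> rw [a, c, d] at h2
  · exact Or.inl ⟨a, c, d⟩
  · exact absurd (by linear_combination (h1 + h2) / 2) hpq
  · exact absurd (by linear_combination (h1 + h2) / 2) hrp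
  · exact absurd (by linear_combination (h1 + h2) / 2) hqr
  · exact absurd (by linear_combination (h1 + h2) / 2) hqr
  · exact absurd (by linear_combination (h1 + h2) / 2) hrp
  · exact absurd (by linear_combination (h1 + h2) / 2) hpq
  · exact Or.inr ⟨a, c, d⟩

/-- Numbers with equal products of pairs are equal up to a common sign. -/
private theorem Ue_prod {a c d e a' c' d' e' : ℂ} (h1 : a * c = a' * c') (h2 : a * d = a' * d')
    (h3 : a * e = a' * e') (h4 : c * d = c' * d') (h5 : a * c ≠ 0) (h6 : c * d ≠ 0) :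
    (a' = a ∧ c' = c ∧ d' = d ∧ e' = e) ∨ (a' = -a ∧ c' = -c ∧ d' = -d ∧ e' = -e) := by
  have ha : a ≠ 0 := left_ne_zero_of_mul h5
  have h7 : a' ^ 2 = a ^ 2 := by
    apply mul_right_cancel₀ h6
    linear_combination (-(a' * d')) * h1 - (a * c) * h2 + a' ^ 2 * h4
  rcases sq_eq_sq_iff_eq_or_eq_neg.1 h7 with h | h <;> rw [h] at h1 h2 h3
  · refine Or.inl ⟨h, ?_, ?_, ?_⟩
    · exact (mul_left_cancel₀ ha h1).symm
    · exact (mul_left_cancel₀ ha h2).symm
    · exact (mul_left_cancel₀ ha h3).symm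
  · refine Or.inr ⟨h, ?_, ?_, ?_⟩
    · apply mul_left_cancel₀ ha
      linear_combination h1
    · apply mul_left_cancel₀ ha
      linear_combination h2
    · apply mul_left_cancel₀ ha
      linear_combination h3

theorem sing_unique (hb : ∀ i j, b i j = b j i) (h0 : ∀ i j, i ≠ j → b i j ≠ 0)
    {S : Finset (Fin g)} (hS : S.card = 4) (h : Sing b S v) (hv : ∃ i ∈ S, v i ≠ 0)
    (h' : Sing b S v') (hv' : ∃ i ∈ S, v' i ≠ 0) :
    (∀ i ∈ S, v' i = v i) ∨ ∀ i ∈ S, v' i = - v i := by
  obtain ⟨i, T, hiT, rfl, hT⟩ := Finset.card_eq_succ.1 hS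
  obtain ⟨j, k, l, hjk, hjl, hkl, rfl⟩ := Finset.card_eq_three.1 hT
  simp only [Finset.mem_insert, Finset.mem_singleton, not_or] at hiT
  obtain ⟨hij, hik, hil⟩ := hiT
  have key : ∀ w : Fin g → ℂ, Sing b {i, j, k, l} w → (∃ a ∈ ({i, j, k, l} : Finset (Fin g)),
      w a ≠ 0) → ∃ p q r x : ℂ, p ≠ 0 ∧ q ≠ 0 ∧ r ≠ 0 ∧ x ≠ 0 ∧ p + q + r = - x ∧
      p * q + q * r + r * p = 0 ∧ p ^ 2 = b i j * b k l ∧ q ^ 2 = b i k * b j l ∧
      r ^ 2 = b i l * b j k ∧ b k l * (w i * w j) = p * x ∧ b i j * (w k * w l) = p * x ∧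
      b j l * (w i * w k) = q * x ∧ b i k * (w j * w l) = q * x ∧
      b j k * (w i * w l) = r * x ∧ b i l * (w j * w k) = r * x := by
    intro w hw hne
    rcases sing_four hb h0 hij hik hil hjk hjl hkl hw with ⟨a1, a2, a3, a4, _⟩ | h1
    · exfalso
      obtain ⟨a, ha, hwa⟩ := hne
      simp only [Finset.mem_insert, Finset.mem_singleton] at ha
      rcases ha with rfl | rfl | rfl | rfl
      · exact hwa a1
      · exact hwa a2
      · exact hwa a3
      · exact hwa a4
    · exact h1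
  obtain ⟨p, q, r, x, hp, hq, hr, hx, h1, h2, h3, h4, h5, m1, m2, m3, m4, m5, m6⟩ := key v h hv
  obtain ⟨p', q', r', x', hp', hq', hr', hx', h1', h2', h3', h4', h5', m1', m2', m3', m4', m5',
    m6'⟩ := key v' h' hv'
  have hpx : p' * x' = p * x ∧ q' * x' = q * x ∧ r' * x' = r * x := by
    have hx1 : x = -(p + q + r) := by linear_combination h1
    have hx2 : x' = -(p' + q' + r') := by linear_combination h1'
    rcases Ue_core hp hq hr h2 h2' (h3'.trans h3.symm) (h4'.trans h4.symm)
      (h5'.trans h5.symm) with ⟨a, c, d⟩ | ⟨a, c, d⟩ <;> rw [hx1, hx2, a, c, d] <;>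
      refine ⟨?_, ?_, ?_⟩ <;> ring
  obtain ⟨n1, n2, n3⟩ := hpx
  have e1 : v i * v j = v' i * v' j :=
    mul_left_cancel₀ (h0 k l hkl) (by rw [m1, m1', n1])
  have e2 : v i * v k = v' i * v' k :=
    mul_left_cancel₀ (h0 j l hjl) (by rw [m3, m3', n2])
  have e3 : v i * v l = v' i * v' l :=
    mul_left_cancel₀ (h0 j k hjk) (by rw [m5, m5', n3])
  have e4 : v j * v k = v' j * v' k :=
    mul_left_cancel₀ (h0 i l hil) (by rw [m6, m6', n3])
  have z1 : v i * v j ≠ 0 := by
    intro hz
    rw [hz, mul_zero] at m1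
    exact mul_ne_zero hp hx m1.symm
  have z2 : v j * v k ≠ 0 := by
    intro hz
    rw [hz, mul_zero] at m6
    exact mul_ne_zero hr hx m6.symm
  rcases Ue_prod e1 e2 e3 e4 z1 z2 with ⟨a1, a2, a3, a4⟩ | ⟨a1, a2, a3, a4⟩
  · left
    intro a ha
    simp only [Finset.mem_insert, Finset.mem_singleton] at ha
    rcases ha with rfl | rfl | rfl | rfl
    exacts [a1, a2, a3, a4]
  · right
    intro a ha
    simp only [Finset.mem_insert, Finset.mem_singleton] at ha
    rcases ha with rfl | rfl | rfl | rfl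
    exacts [a1, a2, a3, a4]

end AMP
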