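import Pool.Agent.Lib.MP_b57e3c_ag_P.Defs
import Pool.Agent.Lib.MP_b57e3c_ag_M.Tst

set_option autoImplicit false

/-!
# Module Um : limits of sets along an ultrafilter

`UL_closed`: if `w` is in the closure take `w' ∈ UL` with `‖w k - w' k‖ < δ/2` for all `k`.
`UL_mem`: `Fin g` is finite, so the `g` conditions hold simultaneously for most `n`.
`UL_seq`: for `n` with `N n` closed and nonempty let `q n` be a point of `N n` nearest to `w`
(`IsClosed.exists_infDist_eq_dist`; the supremum norm of `Fin g → ℂ`), otherwise `q n = w`. For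
`δ > 0` most `N n` contain a point at distance `< δ` of `w`, so `dist w (q n) < δ`.
`mp_ulim`: let `φ` be a test function for `m` with a local maximum at `p ∈ UL`. By
`TestFn.strict` there is `κ > 0` such that `φ' z = φ z - κ * nsq (z - p)` is a test function for
`m`; let `ρ > 0` with `φ z ≤ φ p` for `z ∈ UL`, `‖z - p‖ ≤ ρ`, so `φ' z < φ' p` for such `z ≠ p`
(`nsq (z - p) > 0`). By `UL_seq` there are `q n ∈ N n` (most `n`), `q n → p`. For most `n` let `z
n` be a maximum point of `φ'` on the compact set `N n ∩ closedBall p ρ` (it contains `q n`).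
Along the ultrafilter `z n` converges to some `z' ∈ closedBall p ρ`
(`IsCompact.ultrafilter_le_nhds`), `z' ∈ UL` (`UL_mem`), and `φ' z' = lim φ' (z n) ≥ lim φ' (q n)
= φ' p` (`φ'` is continuous), so `z' = p`. So for most `n` `‖z n - p‖ < ρ`, `z n` is a local
maximum point of `φ'` on `N n` and `MP m (N n)` is contradicted.
-/

open Complex Filter Topology

namespace AMP

open AMC

variable {g m : ℕ} {U : Ultrafilter ℕ} {N : ℕ → Set (Fin g → ℂ)}

/-- limit of a sequence of sets along an ultrafilter -/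
def UL (U : Ultrafilter ℕ) (N : ℕ → Set (Fin g → ℂ)) : Set (Fin g → ℂ) :=
  {w | ∀ δ > 0, ∀ᶠ n in (U : Filter ℕ), ∃ q ∈ N n, ∀ k, ‖q k - w k‖ < δ}

theorem UL_closed : IsClosed (UL U N) := by
  refine isClosed_of_closure_subset fun w hw δ hδ => ?_
  obtain ⟨w', hw', hd⟩ := Metric.mem_closure_iff.1 hw (δ / 2) (by positivity)
  filter_upwards [hw' (δ / 2) (by positivity)] with n hn
  obtain ⟨q, hq, hqk⟩ := hn
  refine ⟨q, hq, fun k => ?_⟩
  have h1 : ‖w' k - w k‖ < δ / 2 := by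
    rw [← dist_eq_norm, dist_comm]
    exact lt_of_le_of_lt (dist_le_pi_dist w w' k) hd
  calc ‖q k - w k‖ = ‖(q k - w' k) + (w' k - w k)‖ := by congr 1; ring
    _ ≤ ‖q k - w' k‖ + ‖w' k - w k‖ := norm_add_le _ _
    _ < δ := by linarith [hqk k]

theorem UL_mem {w : Fin g → ℂ} {q : ℕ → Fin g → ℂ} (hq : ∀ᶠ n in (U : Filter ℕ), q n ∈ N n)
    (h : ∀ k, Tendsto (fun n => q n k) (U : Filter ℕ) (𝓝 (w k))) : w ∈ UL U N := by
  intro δ hδ
  have h1 : ∀ᶠ n in (U : Filter ℕ), ∀ k, ‖q n k - w k‖ < δ := by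
    rw [Filter.eventually_all]
    intro k
    have h2 := (Metric.tendsto_nhds.1 (h k)) δ hδ
    filter_upwards [h2] with n hn
    rwa [dist_eq_norm] at hn
  filter_upwards [hq, h1] with n hn1 hn2
  exact ⟨q n, hn1, hn2⟩

theorem UL_seq (hc : ∀ᶠ n in (U : Filter ℕ), IsClosed (N n)) {w : Fin g → ℂ}
    (hw : w ∈ UL U N) : ∃ q : ℕ → Fin g → ℂ, (∀ᶠ n in (U : Filter ℕ), q n ∈ N n) ∧
      ∀ k, Tendsto (fun n => q n k) (U : Filter ℕ) (𝓝 (w k)) := by
  classical
  have hex : ∀ n, ∃ q : Fin g → ℂ, IsClosed (N n) → (N n).Nonempty →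
      q ∈ N n ∧ Metric.infDist w (N n) = dist w q := by
    intro n
    by_cases h : IsClosed (N n) ∧ (N n).Nonempty
    · obtain ⟨q, hq, hd⟩ := h.1.exists_infDist_eq_dist h.2 w
      exact ⟨q, fun _ _ => ⟨hq, hd⟩⟩
    · exact ⟨w, fun h1 h2 => absurd ⟨h1, h2⟩ h⟩
  choose q hq using hex
  refine ⟨q, ?_, ?_⟩
  · filter_upwards [hc, hw 1 one_pos] with n hn1 hn2
    obtain ⟨q', hq', _⟩ := hn2
    exact (hq n hn1 ⟨q', hq'⟩).1
  · intro k
    rw [Metric.tendsto_nhds]
    intro δ hδ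
    filter_upwards [hc, hw δ hδ] with n hn1 hn2
    obtain ⟨q', hq', hq'k⟩ := hn2
    have h1 : dist w q' < δ := by
      rw [dist_pi_lt_iff hδ]
      intro j
      rw [dist_comm, dist_eq_norm]
      exact hq'k j
    have h2 := (hq n hn1 ⟨q', hq'⟩).2
    have h3 : dist w (q n) < δ := by
      rw [← h2]
      exact lt_of_le_of_lt (Metric.infDist_le_dist_of_mem hq') h1
    rw [dist_comm] at h3
    exact lt_of_le_of_lt (dist_le_pi_dist (q n) w k) h3

theorem mp_ulim (hc : ∀ᶠ n in (U : Filter ℕ), IsClosed (N n))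
    (hm : ∀ᶠ n in (U : Filter ℕ), MP m (N n)) : MP m (UL U N) := by
  classical
  intro φ hφ p hp hmax
  obtain ⟨κ, hκ, hst⟩ := hφ.strict
  have hφ' := hst p
  set φ' : (Fin g → ℂ) → ℝ := fun z => φ z - κ * nsq (z - p) with hφ'def
  have hcont : Continuous φ' := hφ'.continuous
  obtain ⟨ε, hε, hball⟩ := Metric.mem_nhdsWithin_iff.1 hmax
  obtain ⟨q, hq1, hq2⟩ := UL_seq hc hp
  have hqt : Tendsto q (U : Filter ℕ) (𝓝 p) := tendsto_pi_nhds.2 hq2
  have hρ : 0 < ε / 2 := by positivity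
  have hex : ∀ n, ∃ z : Fin g → ℂ, z ∈ Metric.closedBall p (ε / 2) ∧ (IsClosed (N n) →
      q n ∈ N n → q n ∈ Metric.closedBall p (ε / 2) →
      z ∈ N n ∧ ∀ y ∈ N n ∩ Metric.closedBall p (ε / 2), φ' y ≤ φ' z) := by
    intro n
    by_cases h : IsClosed (N n) ∧ q n ∈ N n ∧ q n ∈ Metric.closedBall p (ε / 2)
    · have hk : IsCompact (N n ∩ Metric.closedBall p (ε / 2)) :=
        (isCompact_closedBall p (ε / 2)).inter_left h.1
      obtain ⟨z, hz, hzm⟩ := hk.exists_isMaxOn ⟨q n, h.2.1, h.2.2⟩ hcont.continuousOn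
      exact ⟨z, hz.2, fun _ _ _ => ⟨hz.1, fun y hy => hzm hy⟩⟩
    · exact ⟨p, Metric.mem_closedBall_self hρ.le, fun h1 h2 h3 => absurd ⟨h1, h2, h3⟩ h⟩
  choose z hz1 hz2 using hex
  obtain ⟨z', hz', hlim⟩ := (isCompact_closedBall p (ε / 2)).ultrafilter_le_nhds (U.map z)
    (by
      rw [le_principal_iff, Ultrafilter.mem_coe, Ultrafilter.mem_map]
      exact Filter.mem_of_superset Filter.univ_mem fun n _ => hz1 n)
  have hzt : Tendsto z (U : Filter ℕ) (𝓝 z') := hlim
  have hqball : ∀ᶠ n in (U : Filter ℕ), q n ∈ Metric.closedBall p (ε / 2) :=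
    hqt.eventually (Metric.closedBall_mem_nhds p hρ)
  have hall : ∀ᶠ n in (U : Filter ℕ), z n ∈ N n ∧
      ∀ y ∈ N n ∩ Metric.closedBall p (ε / 2), φ' y ≤ φ' (z n) := by
    filter_upwards [hc, hq1, hqball] with n h1 h2 h3
    exact hz2 n h1 h2 h3
  have hz'U : z' ∈ UL U N := UL_mem (hall.mono fun n h => h.1)
    fun k => (tendsto_pi_nhds.1 hzt) k
  have hge : φ' p ≤ φ' z' := by
    refine le_of_tendsto_of_tendsto ((hcont.tendsto p).comp hqt) ((hcont.tendsto z').comp hzt) ?_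
    filter_upwards [hall, hq1, hqball] with n h1 h2 h3
    exact h1.2 (q n) ⟨h2, h3⟩
  have hpp : φ' p = φ p := by
    rw [hφ'def]
    beta_reduce
    have : nsq (p - p) = 0 := by
      unfold nsq
      simp
    rw [this]
    ring
  have hzp : z' = p := by
    by_contra hne
    have h1 : φ z' ≤ φ p := by
      have h2 : z' ∈ Metric.ball p ε ∩ UL U N := by
        refine ⟨?_, hz'U⟩
        have := Metric.mem_closedBall.1 hz'
        rw [Metric.mem_ball]
        linarith
      exact hball h2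
    have h2 : 0 < nsq (z' - p) := by
      obtain ⟨k, hk⟩ := Function.ne_iff.1 hne
      have h3 : 0 < ‖(z' - p) k‖ ^ 2 := by
        have : (z' - p) k ≠ 0 := by
          rw [Pi.sub_apply]
          exact sub_ne_zero.2 hk
        positivity
      exact lt_of_lt_of_le h3 (Finset.single_le_sum (f := fun i => ‖(z' - p) i‖ ^ 2)
        (fun i _ => by positivity) (Finset.mem_univ k))
    have h3 : φ' z' = φ z' - κ * nsq (z' - p) := rfl
    have h4 := mul_pos hκ h2
    linarith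
  subst hzp
  have hzball : ∀ᶠ n in (U : Filter ℕ), z n ∈ Metric.ball z' (ε / 2) :=
    hzt.eventually (Metric.ball_mem_nhds z' hρ)
  obtain ⟨n, ⟨h1, h2⟩, h3, h4⟩ := (hall.and (hm.and hzball)).exists
  refine h3 φ' hφ' (z n) h1 ?_
  have h5 : Metric.ball z' (ε / 2) ∈ 𝓝 (z n) := Metric.isOpen_ball.mem_nhds h4
  filter_upwards [inter_mem_nhdsWithin (N n) h5] with y hy
  exact h2 y ⟨hy.1, Metric.ball_subset_closedBall hy.2⟩

end AMP
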