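import Pool.Agent.Lib.MP_b57e3c_ag_P.Fl
import Pool.Agent.Lib.MP_b57e3c_ag_P.Um
import Pool.Agent.Lib.MP_b57e3c_ag_M.Qp

set_option autoImplicit false

/-!
# Module Uf : singular points over `w k = 1/2`, both signs

`singF_neg`: `mem_singF`, `sing_reflect` with `ε = δ = 1` and `n = 0` (`cen τ 1 1 = c1 τ`):
`2 c1 - (c1 + u) = c1 + (-u)`.
`pts`: for a sign `e = 1`: the closed sets `N' n = N n S ∩ {w | ∀ k ∉ S, w k = 1/2}` and the point
`(v on S, 1/2 outside) ∈ UL U N'` by `Full` with the base point `1/2` (`half_mem` with `u =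
1/2`); `UL_seq`; `N_sub`. For `e = -1`: the same with the base point `-1/2` (`Go` is symmetric:
`xx s (-u) = - xx s u`, `yy s (-u) = - yy s u`), then replace the point `w` by `-w`:
`sc r S (-w) = - sc r S w`, `singF_neg`.
-/

open Complex Filter Topology

namespace AMP

open AMC

variable {g m : ℕ}

theorem singF_neg {τ : Matrix (Fin g) (Fin g) ℂ} (hτ : AM.Siegel τ) {u : Fin g → ℂ}
    (hu : u ∈ singF τ) : -u ∈ singF τ := by
  rw [mem_singF hτ] at hu ⊢
  have h := sing_reflect hτ hu (fun _ => 1) (fun _ => 1) 0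
  have h2 : (fun i => 2 * (cen τ (fun _ => 1) (fun _ => 1) i + ((0 : Fin g → ℤ) i : ℂ)) -
      (c1 τ + u) i) = c1 τ + -u := by
    funext i
    have e1 : cen τ (fun _ => 1) (fun _ => 1) i = c1 τ i := by
      simp only [cen, c1, Fin.val_one, Nat.cast_one, mul_one]
    rw [e1]
    simp only [Pi.add_apply, Pi.neg_apply, Pi.zero_apply, Int.cast_zero]
    ring
  rw [← h2]
  exact h

private theorem Uf_gen {C : Sq g m} {S : Finset (Fin g)} {v : Fin g → ℂ} (h : C.Full S v)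
    (e : ℂ) (he : ∀ R : ℝ, ∀ᶠ n in (C.U : Filter ℕ), ∀ k, e ∈ Go (C.τ n k k) ∧
      R * C.r n < ‖e‖) :
    ∃ q : ℕ → Fin g → ℂ, (∀ᶠ n in (C.U : Filter ℕ), q n ∈ C.N n S ∧ ∀ k, k ∉ S → q n k = e) ∧
      ∀ i ∈ S, Tendsto (fun n => q n i) (C.U : Filter ℕ) (𝓝 (v i)) := by
  have hc : ∀ᶠ n in (C.U : Filter ℕ),
      IsClosed (C.N n S ∩ ⋂ (k) (_ : k ∉ S), {w : Fin g → ℂ | w k = e}) :=
    Eventually.of_forall fun n => (C.N_closed n S).inter (isClosed_iInter fun k =>
      isClosed_iInter fun _ => isClosed_eq (continuous_apply k) continuous_const)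
  have hw : (fun k => if k ∈ S then v k else e) ∈
      UL C.U (fun n => C.N n S ∩ ⋂ (k) (_ : k ∉ S), {w : Fin g → ℂ | w k = e}) := by
    intro δ hδ
    obtain ⟨R, hR, h1⟩ := h δ hδ
    filter_upwards [h1, he R] with n h1 h2
    obtain ⟨w, hw, a, b⟩ := h1 (fun _ => e) (fun k => h2 k)
    refine ⟨w, ⟨hw, ?_⟩, fun k => ?_⟩
    · rw [Set.mem_iInter₂]
      intro k hk
      exact b k hk
    · by_cases hk : k ∈ S
      · simp only [if_pos hk]
        exact a k hk
      · simp only [if_neg hk]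
        rw [b k hk, sub_self, norm_zero]
        exact hδ
  obtain ⟨q, hq, hl⟩ := UL_seq hc hw
  refine ⟨q, ?_, fun i hi => ?_⟩
  · filter_upwards [hq] with n hn
    exact ⟨hn.1, fun k hk => Set.mem_iInter₂.1 hn.2 k hk⟩
  · have h1 := hl i
    simp only [if_pos hi] at h1
    exact h1

private theorem Uf_Go {s u : ℂ} (h : u ∈ Go s) : -u ∈ Go s := by
  have e1 : xx s (-u) = -xx s u := by
    simp only [xx, Complex.neg_re, Complex.neg_im]
    ring
  have e2 : yy s (-u) = -yy s u := by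
    simp only [yy, Complex.neg_im]
    ring
  refine ⟨?_, ?_⟩
  · rw [e1, abs_neg]
    exact h.1
  · rw [e2, abs_neg]
    exact h.2

theorem Sq.Full.pts {C : Sq g m} {S : Finset (Fin g)} {v v' : Fin g → ℂ} (h : C.Full S v)
    (hv : (∀ i ∈ S, v' i = v i) ∨ ∀ i ∈ S, v' i = - v i) :
    ∃ q : ℕ → Fin g → ℂ, (∀ᶠ n in (C.U : Filter ℕ), sc (C.r n) S (q n) ∈ singF (C.τ n)) ∧
      (∀ᶠ n in (C.U : Filter ℕ), ∀ k, k ∉ S → q n k = 1 / 2) ∧
      ∀ i ∈ S, Tendsto (fun n => q n i) (C.U : Filter ℕ) (𝓝 (v' i)) := by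
  obtain ⟨ρ, hρ, h2⟩ := C.half_mem
  have hp : ∀ R : ℝ, ∀ᶠ n in (C.U : Filter ℕ), ∀ k, (1 / 2 : ℂ) ∈ Go (C.τ n k k) ∧
      R * C.r n < ‖(1 / 2 : ℂ)‖ := by
    intro R
    filter_upwards [h2 R] with n hn
    intro k
    refine hn k (1 / 2) ?_
    rw [sub_self, norm_zero]
    exact hρ.le
  rcases hv with hv | hv
  · obtain ⟨q, hq, hl⟩ := Uf_gen h (1 / 2) hp
    refine ⟨q, hq.mono fun n hn => C.N_sub hn.1, hq.mono fun n hn => hn.2, fun i hi => ?_⟩
    rw [hv i hi]
    exact hl i hi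
  · obtain ⟨q, hq, hl⟩ := Uf_gen h (-(1 / 2)) fun R => (hp R).mono fun n hn k =>
      ⟨Uf_Go (hn k).1, by
        rw [norm_neg]
        exact (hn k).2⟩
    refine ⟨fun n => -q n, ?_, ?_, fun i hi => ?_⟩
    · filter_upwards [hq] with n hn
      have h3 := singF_neg (C.siegel n) (C.N_sub hn.1)
      have h4 : sc (C.r n) S (-q n) = -sc (C.r n) S (q n) := by
        funext i
        simp only [sc, Pi.neg_apply]
        split_ifs
        · ring
        · rfl
      rw [h4]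
      exact h3
    · filter_upwards [hq] with n hn
      intro k hk
      rw [Pi.neg_apply, hn.2 k hk, neg_neg]
    · rw [hv i hi]
      exact (hl i hi).neg

end AMP
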