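import Pool.Agent.Lib.MP_b57e3c_ag_P.Ps
import Pool.Agent.Lib.MP_b57e3c_ag_P.Ap

set_option autoImplicit false

/-!
# Module Ug : estimates near a nondegenerate singular point

As in module Tl: `A x i = ∑_{j ∈ S} Hs b S v i j x j`, `c0 ‖x‖ ≤ ‖A x‖`, `c0 > 0` (`Nd`, finite
dimension; sup norm over `S`); `δ₁ ≤ 1` with `‖Hs b S w i j - Hs b S v i j‖ ≤ c0/16` for `‖w i -
v i‖ < δ₁` (`i ∈ S`), `R` and most `n` from `approx2` with `κ = c0/16`, `ρ = max ‖v i‖ + 1`. Let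
`w, w'` be as in the statement, `y i = w' i - w i` (`i ∈ S`), `y = 0` outside `S`, `z s = w + s
y`, `s ∈ [0,1]` (`‖z s i - v i‖ < δ₁`: convexity). (1) `g_i s = psi τ r S (z s) i`, `g_i 0 = 0`
(`sc r S w ∈ singF`), `g_i' s = ∑_j (r² pf2 τ j i / nrm) y j` (`psi_fderiv`, or the chain rule
directly; `nrm` is constant along the path), and `‖g_i' s - (A y) i‖ ≤ 4 (c0/16 + c0/16) ‖y‖ =
c0/2 ‖y‖`, so by the mean value inequality `‖psi (w') i - (A y) i‖ ≤ c0/2 ‖y‖` and `‖psi w'‖ ≥ ‖A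
y‖ - c0/2 ‖y‖ ≥ c0/2 ‖y‖`. So `‖psi w'‖ ≤ D` implies `‖y‖ ≤ 2 D / c0`. (2) In the same way `‖psi
(z s) i‖ ≤ (‖A‖ + c0) ‖y‖ =: K1 ‖y‖`. (3) `F s = ff τ (sc r S (z s)) / nrm`, `F 0 = 0`, `F' s =
∑_{j∈S} psi (z s) j * y j`, `‖F' s‖ ≤ 4 K1 ‖y‖²`, so `‖F 1‖ ≤ 4 K1 ‖y‖² ≤ 16 K1 D²/c0²`. The
derivative of `s ↦ ff τ (sc r S (z s))` is `fderiv (ff τ) (sc r S (z s)) (sc r S y) = ∑_j r y_j
pf τ j (..)`.
-/

open Complex Filter Topology

namespace AMP

variable {g m : ℕ}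

open AMC

/-- the Hessian of `μ_S` as a continuous linear map of the coordinates in `S` -/
private noncomputable def ugA (b : Fin g → Fin g → ℂ) (S : Finset (Fin g)) (v : Fin g → ℂ) :
    ({k // k ∈ S} → ℂ) →L[ℂ] ({k // k ∈ S} → ℂ) :=
  LinearMap.toContinuousLinearMap
    (Matrix.mulVecLin (Matrix.of fun i j : {k // k ∈ S} => Hs b S v i j))

private theorem ugA_apply (b : Fin g → Fin g → ℂ) (S : Finset (Fin g)) (v : Fin g → ℂ)
    (x : {k // k ∈ S} → ℂ) (i : {k // k ∈ S}) :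
    ugA b S v x i = ∑ j : {k // k ∈ S}, Hs b S v i j * x j := rfl

/-- restriction to the coordinates in `S` -/
private def ugz (S : Finset (Fin g)) (v : Fin g → ℂ) : {k // k ∈ S} → ℂ := fun k => v k

open Classical in
private theorem ugA_bound (b : Fin g → Fin g → ℂ) (S : Finset (Fin g)) (v : Fin g → ℂ)
    (hn : Nd b S v) : ∃ c > 0, ∀ x : {k // k ∈ S} → ℂ, c * ‖x‖ ≤ ‖ugA b S v x‖ := by
  have hker : LinearMap.ker (ugA b S v).toLinearMap = ⊥ := by
    rw [LinearMap.ker_eq_bot']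
    intro x hx
    funext i
    have h1 := hn (fun k => if hk : k ∈ S then x ⟨k, hk⟩ else 0) (fun i hi => ?_) i i.2
    · simpa using h1
    · have h2 := congrFun hx ⟨i, hi⟩
      have h3 : ugA b S v x ⟨i, hi⟩ = 0 := h2
      rw [ugA_apply] at h3
      rw [← h3, ← Finset.sum_coe_sort S]
      refine Finset.sum_congr rfl fun j _ => ?_
      rw [dif_pos j.2]
  obtain ⟨K, hK, hK'⟩ := LinearMap.exists_antilipschitzWith (ugA b S v).toLinearMap hker
  refine ⟨(K : ℝ)⁻¹, by positivity, fun x => ?_⟩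
  have h1 : ‖x‖ ≤ K * ‖ugA b S v x‖ := by
    have := hK'.le_mul_dist x 0
    simpa [dist_eq_norm] using this
  have hK0 : (0 : ℝ) < K := by exact_mod_cast hK
  rw [inv_mul_le_iff₀ hK0]
  exact h1

open Classical in
private theorem ug_hs (b : Fin g → Fin g → ℂ) (S : Finset (Fin g)) (v : Fin g → ℂ) {κ : ℝ}
    (hκ : 0 < κ) : ∃ δ > 0, δ ≤ 1 ∧ ∀ w : Fin g → ℂ, (∀ i ∈ S, ‖w i - v i‖ < δ) →
      ∀ i j, ‖Hs b S w i j - Hs b S v i j‖ ≤ κ := by
  have hc : ∀ i j, Continuous fun w : Fin g → ℂ => Hs b S w i j := by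
    intro i j
    unfold Hs
    by_cases hij : i = j
    · simp only [hij, if_true]
      exact continuous_const
    · simp only [hij, if_false]
      exact mu_cont b _
  have h1 : ∀ᶠ w in 𝓝 v, ∀ i j, ‖Hs b S w i j - Hs b S v i j‖ < κ := by
    refine Filter.eventually_all.2 fun i => Filter.eventually_all.2 fun j => ?_
    have h2 := (hc i j).continuousAt (x := v)
    have h3 := Metric.tendsto_nhds.1 h2 κ hκ
    filter_upwards [h3] with w hw
    rwa [dist_eq_norm] at hw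
  obtain ⟨δ, hδ, h⟩ := Metric.eventually_nhds_iff.1 h1
  refine ⟨min δ 1, lt_min hδ one_pos, min_le_right _ _, fun w hw i j => ?_⟩
  have h4 : dist (fun i => if i ∈ S then w i else v i) v < δ := by
    rw [dist_pi_lt_iff hδ]
    intro i
    by_cases hi : i ∈ S
    · simp only [hi, if_true]
      rw [dist_eq_norm]
      exact (hw i hi).trans_le (min_le_left _ _)
    · simpa [hi] using hδ
  have h5 := h h4 i j
  have h6 : Hs b S (fun i => if i ∈ S then w i else v i) i j = Hs b S w i j := by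
    unfold Hs
    by_cases hij : i = j
    · simp only [hij, if_true]
    · simp only [hij, if_false]
      exact mu_congr b _ fun k hk => by
        rw [if_pos (Finset.mem_of_mem_erase (Finset.mem_of_mem_erase hk))]
  rw [h6] at h5
  exact h5.le

private theorem ug_symm (b : Fin g → Fin g → ℂ) (S : Finset (Fin g)) (v : Fin g → ℂ)
    (i j : Fin g) : Hs b S v i j = Hs b S v j i := by
  unfold Hs
  by_cases hij : i = j
  · rw [if_pos hij, if_pos hij.symm]
  · rw [if_neg hij, if_neg (Ne.symm hij), Finset.erase_right_comm]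

private theorem ug_nrm {τ : Matrix (Fin g) (Fin g) ℂ} {r : ℝ} {S : Finset (Fin g)}
    {w w' : Fin g → ℂ} (h : ∀ k, k ∉ S → w' k = w k) : nrm τ r S w' = nrm τ r S w := by
  unfold nrm
  congr 1
  refine Finset.prod_congr rfl fun k hk => ?_
  rw [h k (Finset.mem_compl.1 hk)]

/-- derivative of `x ↦ glue S x s` -/
private theorem ug_glue (S : Finset (Fin g)) (s : {k // k ∉ S} → ℂ) (x : {k // k ∈ S} → ℂ) :
    HasFDerivAt (fun x : {k // k ∈ S} → ℂ => glue S x s)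
      ((glueL S).comp (ContinuousLinearMap.inl ℂ _ _)) x := by
  have h : (fun x : {k // k ∈ S} → ℂ => glue S x s) = fun x : {k // k ∈ S} → ℂ =>
      ((glueL S).comp (ContinuousLinearMap.inl ℂ ({k // k ∈ S} → ℂ) ({k // k ∉ S} → ℂ))) x +
        glueL S (0, s) := by
    funext x
    rw [ContinuousLinearMap.comp_apply, ContinuousLinearMap.inl_apply, ← map_add,
      glueL_apply]
    simp
  rw [h]
  exact (ContinuousLinearMap.hasFDerivAt _).add_const _

/-- the linear map `x ↦ sc r S (glue S x 0)` -/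
private noncomputable def ugL (r : ℝ) (S : Finset (Fin g)) :
    ({k // k ∈ S} → ℂ) →L[ℂ] (Fin g → ℂ) :=
  ∑ j : {k // k ∈ S}, ((r : ℂ) • (ContinuousLinearMap.proj j :
    ({k // k ∈ S} → ℂ) →L[ℂ] ℂ)).smulRight (Pi.single (j : Fin g) (1 : ℂ))

private theorem ugL_apply (r : ℝ) (S : Finset (Fin g)) (x : {k // k ∈ S} → ℂ) :
    ugL r S x = ∑ j : {k // k ∈ S}, ((r : ℂ) * x j) • Pi.single (j : Fin g) (1 : ℂ) := by
  simp [ugL]

private theorem ug_sc (r : ℝ) (S : Finset (Fin g)) (s : {k // k ∉ S} → ℂ)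
    (x : {k // k ∈ S} → ℂ) : sc r S (glue S x s) = ugL r S x + sc r S (glue S 0 s) := by
  funext i
  rw [ugL_apply, Pi.add_apply, Finset.sum_apply]
  by_cases hi : i ∈ S
  · have h1 := glue_mem x s ⟨i, hi⟩
    have h2 := glue_mem (0 : {k // k ∈ S} → ℂ) s ⟨i, hi⟩
    simp only at h1 h2
    simp only [sc, if_pos hi, h1, h2]
    rw [Finset.sum_eq_single ⟨i, hi⟩]
    · simp
    · intro j _ hj
      have : i ≠ (j : Fin g) := fun h => hj (Subtype.ext h.symm)
      simp [this]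
    · intro h
      exact absurd (Finset.mem_univ _) h
  · have h1 := glue_notMem x s ⟨i, hi⟩
    have h2 := glue_notMem (0 : {k // k ∈ S} → ℂ) s ⟨i, hi⟩
    simp only at h1 h2
    simp only [sc, if_neg hi, h1, h2]
    rw [Finset.sum_eq_zero, zero_add]
    intro j _
    have : i ≠ (j : Fin g) := fun h => hi (h ▸ j.2)
    simp [this]

/-- the mean value inequality for `psi` -/
private theorem ug_psi {τ : Matrix (Fin g) (Fin g) ℂ} {r : ℝ} {S : Finset (Fin g)}
    {b : Fin g → Fin g → ℂ} {v : Fin g → ℂ} {c δ : ℝ} (hc : 0 < c) (hS : S.card = 4)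
    (hτ : AM.Siegel τ) (hr : 0 < r) (s : {k // k ∉ S} → ℂ)
    (hs : ∀ (k : Fin g) (hk : k ∉ S), s ⟨k, hk⟩ ∈ Go (τ k k) ∧ s ⟨k, hk⟩ ≠ 0)
    (hp : ∀ u ∈ Metric.ball (ugz S v) δ, ∀ i ∈ S, ∀ j ∈ S,
      ‖(r : ℂ) ^ 2 * pf2 τ i j (sc r S (glue S u s)) / nrm τ r S (glue S u s) -
        Hs b S v i j‖ ≤ c / 8) {x x' : {k // k ∈ S} → ℂ}
    (hx : x ∈ Metric.ball (ugz S v) δ) (hx' : x' ∈ Metric.ball (ugz S v) δ) :
    ‖psi τ r S (glue S x' s) - psi τ r S (glue S x s) - ugA b S v (x' - x)‖ ≤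
      c / 2 * ‖x' - x‖ := by
  have hbase : ∀ u : {k // k ∈ S} → ℂ, ∀ k, k ∉ S →
      glue S u s k ∈ Go (τ k k) ∧ glue S u s k ≠ 0 := by
    intro u k hk
    have h1 : glue S u s k = s ⟨k, hk⟩ := glue_notMem u s ⟨k, hk⟩
    rw [h1]
    exact hs k hk
  refine Convex.norm_image_sub_le_of_norm_hasFDerivWithin_le'
    (f := fun u => psi τ r S (glue S u s)) (s := Metric.ball (ugz S v) δ)
    (f' := fun u => (fderiv ℂ (psi τ r S) (glue S u s)).comp
      ((glueL S).comp (ContinuousLinearMap.inl ℂ _ _)))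
    (fun u hu => ?_) (fun u hu => ?_) (convex_ball _ _) hx hx'
  · exact ((psi_diff hτ hr (hbase u)).hasFDerivAt.comp u (ug_glue S s u)).hasFDerivWithinAt
  · refine ContinuousLinearMap.opNorm_le_bound _ (by positivity) fun y => ?_
    rw [pi_norm_le_iff_of_nonneg (by positivity)]
    intro i
    have h0 : ((fderiv ℂ (psi τ r S) (glue S u s)).comp
        ((glueL S).comp (ContinuousLinearMap.inl ℂ _ _)) - ugA b S v) y i =
        fderiv ℂ (psi τ r S) (glue S u s) (glue S y 0) i - ugA b S v y i := rfl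
    rw [h0, psi_fderiv hτ hr (hbase u) y i, ugA_apply, ← Finset.sum_sub_distrib]
    have h5 : ∀ j : {k // k ∈ S}, ‖((r : ℂ) ^ 2 * pf2 τ j i (sc r S (glue S u s)) /
        nrm τ r S (glue S u s)) * y j - Hs b S v i j * y j‖ ≤ c / 8 * ‖y‖ := by
      intro j
      rw [← sub_mul, norm_mul, ug_symm b S v i j]
      exact mul_le_mul (hp u hu j j.2 i i.2) (norm_le_pi_norm y j) (norm_nonneg _)
        (by positivity)
    refine (norm_sum_le _ _).trans ((Finset.sum_le_sum fun j _ => h5 j).trans ?_)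
    rw [Finset.sum_const, Finset.card_univ, Fintype.card_coe, hS, nsmul_eq_mul]
    have := norm_nonneg y
    push_cast
    linarith

/-- the mean value inequality for `ff` -/
private theorem ug_ff {τ : Matrix (Fin g) (Fin g) ℂ} {r : ℝ} {S : Finset (Fin g)}
    {v : Fin g → ℂ} {K δ : ℝ} (hK : 0 ≤ K) (hS : S.card = 4)
    (hτ : AM.Siegel τ) (s : {k // k ∉ S} → ℂ) {x x' : {k // k ∈ S} → ℂ}
    (hx : x ∈ Metric.ball (ugz S v) δ) (hx' : x' ∈ Metric.ball (ugz S v) δ)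
    (hp : ∀ u ∈ Metric.ball (ugz S v) δ, ‖psi τ r S (glue S u s)‖ ≤ K * ‖u - x‖) :
    ‖ff τ (sc r S (glue S x' s)) / nrm τ r S (glue S x' s) -
      ff τ (sc r S (glue S x s)) / nrm τ r S (glue S x s)‖ ≤ 4 * K * ‖x' - x‖ ^ 2 := by
  have hN : ∀ u : {k // k ∈ S} → ℂ, nrm τ r S (glue S u s) = nrm τ r S (glue S x s) := by
    intro u
    refine ug_nrm fun k hk => ?_
    have h1 : glue S u s k = s ⟨k, hk⟩ := glue_notMem u s ⟨k, hk⟩
    have h2 : glue S x s k = s ⟨k, hk⟩ := glue_notMem x s ⟨k, hk⟩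
    rw [h1, h2]
  rw [hN x']
  set N := nrm τ r S (glue S x s) with hNdef
  have hcv : Convex ℝ (Metric.ball (ugz S v) δ ∩ Metric.closedBall x ‖x' - x‖) :=
    (convex_ball _ _).inter (convex_closedBall _ _)
  have hder : ∀ u : {k // k ∈ S} → ℂ, HasFDerivAt
      (fun u : {k // k ∈ S} → ℂ => ff τ (sc r S (glue S u s)) / N)
      (N⁻¹ • (fderiv ℂ (ff τ) (sc r S (glue S u s))).comp (ugL r S)) u := by
    intro u
    have h1 : HasFDerivAt (fun u : {k // k ∈ S} → ℂ => sc r S (glue S u s)) (ugL r S) u := by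
      have h2 : (fun u : {k // k ∈ S} → ℂ => sc r S (glue S u s)) =
          fun u => ugL r S u + sc r S (glue S 0 s) := funext fun u => ug_sc r S s u
      rw [h2]
      exact (ContinuousLinearMap.hasFDerivAt _).add_const _
    have h3 : HasFDerivAt (fun u : {k // k ∈ S} → ℂ => ff τ (sc r S (glue S u s)))
        ((fderiv ℂ (ff τ) (sc r S (glue S u s))).comp (ugL r S)) u :=
      (ff_diff hτ _).hasFDerivAt.comp u h1
    have h4 := h3.const_smul N⁻¹
    refine h4.congr_of_eventuallyEq (Filter.Eventually.of_forall fun u => ?_)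
    simp [div_eq_inv_mul]
  have key := Convex.norm_image_sub_le_of_norm_hasFDerivWithin_le
    (f := fun u : {k // k ∈ S} → ℂ => ff τ (sc r S (glue S u s)) / N)
    (f' := fun u => N⁻¹ • (fderiv ℂ (ff τ) (sc r S (glue S u s))).comp (ugL r S))
    (C := 4 * (K * ‖x' - x‖)) (fun u _ => (hder u).hasFDerivWithinAt) (fun u hu => ?_) hcv
    (x := x) (y := x') ⟨hx, Metric.mem_closedBall_self (norm_nonneg _)⟩
    ⟨hx', by rw [Metric.mem_closedBall, dist_eq_norm]⟩
  · refine key.trans (le_of_eq ?_)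
    ring
  · refine ContinuousLinearMap.opNorm_le_bound _ (by positivity) fun y => ?_
    have h1 : (N⁻¹ • (fderiv ℂ (ff τ) (sc r S (glue S u s))).comp (ugL r S)) y =
        ∑ j : {k // k ∈ S}, psi τ r S (glue S u s) j * y j := by
      have h2 : (N⁻¹ • (fderiv ℂ (ff τ) (sc r S (glue S u s))).comp (ugL r S)) y =
          N⁻¹ * fderiv ℂ (ff τ) (sc r S (glue S u s)) (ugL r S y) := rfl
      rw [h2, ugL_apply, map_sum, Finset.mul_sum]
      refine Finset.sum_congr rfl fun j _ => ?_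
      rw [map_smul, smul_eq_mul, psi, hN u, pf]
      ring
    rw [h1]
    have h3 : ∀ j : {k // k ∈ S}, ‖psi τ r S (glue S u s) j * y j‖ ≤
        K * ‖x' - x‖ * ‖y‖ := by
      intro j
      rw [norm_mul]
      refine mul_le_mul ?_ (norm_le_pi_norm y j) (norm_nonneg _) (by positivity)
      refine (norm_le_pi_norm _ j).trans ((hp u hu.1).trans ?_)
      have h4 : ‖u - x‖ ≤ ‖x' - x‖ := by
        rw [← dist_eq_norm]
        exact Metric.mem_closedBall.1 hu.2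
      exact mul_le_mul_of_nonneg_left h4 hK
    refine (norm_sum_le _ _).trans ((Finset.sum_le_sum fun j _ => h3 j).trans ?_)
    rw [Finset.sum_const, Finset.card_univ, Fintype.card_coe, hS, nsmul_eq_mul]
    push_cast
    exact le_of_eq (by ring)

theorem Sq.nondeg (C : Sq g m) {S : Finset (Fin g)} (hS : S.card = 4) {v : Fin g → ℂ}
    (hn : Nd C.b S v) : ∃ K > 0, ∃ δ₁ > 0, ∃ R > 0, ∀ᶠ n in (C.U : Filter ℕ),
      ∀ w w' : Fin g → ℂ, (∀ k, k ∉ S → w' k = w k) →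
      (∀ k, k ∉ S → w k ∈ Go (C.τ n k k) ∧ R * C.r n < ‖w k‖) →
      (∀ i ∈ S, ‖w i - v i‖ < δ₁ ∧ ‖w' i - v i‖ < δ₁) → sc (C.r n) S w ∈ singF (C.τ n) →
      ∀ D : ℝ, 0 ≤ D → (∀ i ∈ S, ‖(C.r n : ℂ) * pf (C.τ n) i (sc (C.r n) S w') /
        nrm (C.τ n) (C.r n) S w'‖ ≤ D) →
      ‖ff (C.τ n) (sc (C.r n) S w') / nrm (C.τ n) (C.r n) S w'‖ ≤ K * D ^ 2 := by
  obtain ⟨c, hc, hA⟩ := ugA_bound C.b S v hn
  obtain ⟨δ, hδ, hδ1, hH⟩ := ug_hs C.b S v (κ := c / 16) (by positivity)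
  obtain ⟨ρ, hρ0, hρ⟩ : ∃ ρ : ℝ, 0 ≤ ρ ∧ ∀ i, ‖v i‖ + 1 ≤ ρ := by
    refine ⟨∑ i, ‖v i‖ + 1, by positivity, fun i => ?_⟩
    have := Finset.single_le_sum (f := fun i => ‖v i‖) (fun i _ => norm_nonneg _)
      (Finset.mem_univ i)
    simpa using this
  obtain ⟨R, hR, h2⟩ := C.approx2 S hρ0 (κ := c / 16) (by positivity)
  have hA0 : 0 ≤ ‖ugA C.b S v‖ := norm_nonneg _
  refine ⟨4 * (‖ugA C.b S v‖ + c) * (2 / c) ^ 2, by positivity, δ, hδ, R, hR, ?_⟩
  filter_upwards [h2] with n h2 w w' hww hw hwv hsg D hD hpD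
  have hr := C.rpos n
  have hs : ∀ (k : Fin g) (hk : k ∉ S), w k ∈ Go (C.τ n k k) ∧ w k ≠ 0 := by
    intro k hk
    refine ⟨(hw k hk).1, fun h0 => ?_⟩
    have h5 := (hw k hk).2
    rw [h0, norm_zero] at h5
    exact absurd h5 (not_lt.2 (by positivity))
  obtain ⟨s, hsdef⟩ : ∃ s : {k // k ∉ S} → ℂ, s = fun k : {k // k ∉ S} => w k :=
    ⟨_, rfl⟩
  have hws : glue S (ugz S w) s = w := by
    rw [hsdef]
    exact glue_restrict S w
  have hws' : glue S (ugz S w') s = w' := by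
    have h1 : s = fun k : {k // k ∉ S} => w' k := by
      rw [hsdef]
      funext k
      exact (hww k k.2).symm
    rw [h1]
    exact glue_restrict S w'
  have hx : ugz S w ∈ Metric.ball (ugz S v) δ := by
    rw [Metric.mem_ball, dist_eq_norm, pi_norm_lt_iff hδ]
    exact fun k => (hwv k k.2).1
  have hx' : ugz S w' ∈ Metric.ball (ugz S v) δ := by
    rw [Metric.mem_ball, dist_eq_norm, pi_norm_lt_iff hδ]
    exact fun k => (hwv k k.2).2
  have hclose : ∀ u ∈ Metric.ball (ugz S v) δ, ∀ i ∈ S, ‖glue S u s i - v i‖ < δ := by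
    intro u hu i hi
    have h1 : glue S u s i = u ⟨i, hi⟩ := glue_mem u s ⟨i, hi⟩
    rw [h1]
    rw [Metric.mem_ball, dist_eq_norm] at hu
    exact (norm_le_pi_norm (u - ugz S v) ⟨i, hi⟩).trans_lt hu
  have hp : ∀ u ∈ Metric.ball (ugz S v) δ, ∀ i ∈ S, ∀ j ∈ S,
      ‖(C.r n : ℂ) ^ 2 * pf2 (C.τ n) i j (sc (C.r n) S (glue S u s)) /
        nrm (C.τ n) (C.r n) S (glue S u s) - Hs C.b S v i j‖ ≤ c / 8 := by
    intro u hu i hi j hj
    have h3 : ∀ i ∈ S, ‖glue S u s i‖ ≤ ρ := by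
      intro i hi
      have h5 := hclose u hu i hi
      have h6 := norm_add_le (v i) (glue S u s i - v i)
      rw [add_sub_cancel] at h6
      linarith [hρ i]
    have h4 : ∀ k, k ∉ S → glue S u s k ∈ Gs (C.τ n k k) ∧
        R * C.r n ≤ ‖glue S u s k‖ := by
      intro k hk
      have h1 : glue S u s k = s ⟨k, hk⟩ := glue_notMem u s ⟨k, hk⟩
      rw [h1, hsdef]
      exact ⟨⟨(hw k hk).1.1.le, (hw k hk).1.2.le⟩, (hw k hk).2.le⟩
    have h6 := h2 _ h3 h4 i hi j hj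
    have h7 := hH (glue S u s) (hclose u hu) i j
    have h8 := norm_add_le ((C.r n : ℂ) ^ 2 * pf2 (C.τ n) i j (sc (C.r n) S (glue S u s)) /
      nrm (C.τ n) (C.r n) S (glue S u s) - Hs C.b S (glue S u s) i j)
      (Hs C.b S (glue S u s) i j - Hs C.b S v i j)
    rw [sub_add_sub_cancel] at h8
    linarith
  have hpsi0 : psi (C.τ n) (C.r n) S (glue S (ugz S w) s) = 0 := by
    rw [hws]
    funext i
    simp [psi, hsg.2 i]
  have hmv : ∀ u ∈ Metric.ball (ugz S v) δ, ‖psi (C.τ n) (C.r n) S (glue S u s) -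
      ugA C.b S v (u - ugz S w)‖ ≤ c / 2 * ‖u - ugz S w‖ := by
    intro u hu
    have h3 := ug_psi hc hS (C.siegel n) hr s (fun k hk => by rw [hsdef]; exact hs k hk) hp
      hx hu
    rwa [hpsi0, sub_zero] at h3
  have hup : ∀ u ∈ Metric.ball (ugz S v) δ, ‖psi (C.τ n) (C.r n) S (glue S u s)‖ ≤
      (‖ugA C.b S v‖ + c) * ‖u - ugz S w‖ := by
    intro u hu
    have h3 := hmv u hu
    have h4 := (ugA C.b S v).le_opNorm (u - ugz S w)
    have h5 := norm_add_le (psi (C.τ n) (C.r n) S (glue S u s) -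
      ugA C.b S v (u - ugz S w)) (ugA C.b S v (u - ugz S w))
    rw [sub_add_cancel] at h5
    have h6 := mul_nonneg hc.le (norm_nonneg (u - ugz S w))
    nlinarith
  have hlow : ‖ugz S w' - ugz S w‖ ≤ 2 / c * D := by
    have h3 := hmv _ hx'
    have h4 := hA (ugz S w' - ugz S w)
    have h5 : ‖psi (C.τ n) (C.r n) S (glue S (ugz S w') s)‖ ≤ D := by
      rw [hws', pi_norm_le_iff_of_nonneg hD]
      exact fun i => hpD i i.2
    have h6 := norm_sub_le (psi (C.τ n) (C.r n) S (glue S (ugz S w') s))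
      (psi (C.τ n) (C.r n) S (glue S (ugz S w') s) -
        ugA C.b S v (ugz S w' - ugz S w))
    rw [sub_sub_cancel] at h6
    rw [div_mul_eq_mul_div, le_div_iff₀ hc]
    linarith
  have h3 := ug_ff (K := ‖ugA C.b S v‖ + c) (by positivity) hS (C.siegel n) s hx hx' hup
  rw [hws, hws', hsg.1, zero_div, sub_zero] at h3
  refine h3.trans ?_
  have h4 : ‖ugz S w' - ugz S w‖ ^ 2 ≤ (2 / c * D) ^ 2 :=
    pow_le_pow_left₀ (norm_nonneg _) hlow 2
  have h5 : 0 ≤ 4 * (‖ugA C.b S v‖ + c) := by positivity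
  calc 4 * (‖ugA C.b S v‖ + c) * ‖ugz S w' - ugz S w‖ ^ 2
      ≤ 4 * (‖ugA C.b S v‖ + c) * (2 / c * D) ^ 2 := mul_le_mul_of_nonneg_left h4 h5
    _ = 4 * (‖ugA C.b S v‖ + c) * (2 / c) ^ 2 * D ^ 2 := by ring

end AMP
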