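import Pool.Agent.Lib.MP_b57e3c_ag_P.Ud
import Pool.Agent.Lib.MP_b57e3c_ag_P.Ue
import Pool.Agent.Lib.MP_b57e3c_ag_P.Uf
import Pool.Agent.Lib.MP_b57e3c_ag_P.Ug
import Pool.Agent.Lib.MP_b57e3c_ag_P.SgB

set_option autoImplicit false

/-!
# Module Uh : local uniqueness

Two sequences `C, C'` with the same `U, r, b`, the same diagonals, and equal rows `a` and `b`.
Suppose not `∀ᶠ n, C'.τ n = C.τ n`; then (ultrafilter) `C'.τ n ≠ C.τ n` for most `n`. For such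
`n` let `(k_n, l_n)` be a pair with `‖C'.τ n k l - C.τ n k l‖` maximal; it is positive, so `k_n ≠
l_n` and `k_n, l_n ∉ {a, b}` (symmetry of the matrices). The pairs are finitely many, so `(k_n,
l_n) = (k, l)` for most `n` (`Ultrafilter`: a finite disjunction holds for most `n` iff one
member does; `Ultrafilter.eventually_or`, `Filter.Eventually`…,
`Ultrafilter.finite_biUnion_mem_iff` ). `δ n = ‖C'.τ n k l - C.τ n k l‖ / r²`, `0 < δ n → 0`
(`C.off`, `C'.off`, same limit `b k l`). `S = {a, b, k, l}`, `card S = 4`. `v` with `C.Near S v`,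
`v ≠ 0` on `S`, and `v'` for `C'`; `sing_unique` (`Near.sing`): `v = ± v'`. `Near.full`
(`sing_nd`) and `Full.pts`: `q n → v` on `S`, `sc r S (q n) ∈ singF (C.τ n)`, `q n k = 1/2`
outside `S`; and `q' n → v`, `sc r S (q' n) ∈ singF (C'.τ n)`, `q' n k = 1/2` outside `S`. Write
`τ, τ'` for `C.τ n, C'.τ n`, `nrm` for `nrm τ r S (q' n)`. `half_mem` for the conditions on `1/2`.
(1) `diff_psi` with `T = τ'` (`K1`) at `q' n`: `pf τ' i (sc r S (q' n)) = 0`, so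
`‖r pf τ i (sc r S (q' n)) / nrm‖ ≤ K1 δ n` for `i ∈ S`.
(2) `nondeg` (`K`, `w = q n`, `w' = q' n`, `D = K1 δ n`): `‖ff τ (sc r S (q' n)) / nrm‖ ≤ K K1²
(δ n)²`. (3) `diff_est` with `κ` to be chosen, `T = τ'`, `w = q' n`, `ff τ' (sc r S (q' n)) = 0`:
`‖ff τ (sc ..)/nrm + (mu b' S (q' n) - mu b S (q' n))‖ ≤ κ δ n` with `b' = τ'/(2 π i r²)`, `b =
τ/(2 π i r²)`. (4) By `mu_four` and since `b' = b` except at the pair `(k,l)` inside `S`:
`mu b' S w - mu b S w = (b' k l - b k l) (w a w b + b a b)`, `‖b' k l - b k l‖ = δ n / (2 π)`, and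
`w a w b + b a b → v a v b + C.b a b = Hs C.b S v k l ≠ 0` (`hs_ne`, `mu_two`), so `‖mu b' - mu
b‖ ≥ (δ n/(2π)) (h/2)`, `h > 0` the norm of the limit. So `h/(4 π) δ n ≤ κ δ n + K K1² (δ n)²`
for most `n`. With `κ = h/(8 π)` this contradicts `δ n > 0`, `δ n → 0`.
-/

open Complex Filter Topology

namespace AMP

variable {g m : ℕ}

private theorem Uh_sym {τ : Matrix (Fin g) (Fin g) ℂ} (h : AM.Siegel τ) (i j : Fin g) :
    τ i j = τ j i := (h.1.apply i j).symm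

private theorem Uh_Go {s u : ℂ} (h : u ∈ Go s) : u ∈ Gs s := ⟨h.1.le, h.2.le⟩

/-- difference of the matching polynomials of two matrices which differ only at `(k, l)` -/
private theorem Uh_mu {b b' : Fin g → Fin g → ℂ} (hb : ∀ i j, b i j = b j i)
    (hb' : ∀ i j, b' i j = b' j i) {x y k l : Fin g} (hxy : x ≠ y) (hxk : x ≠ k) (hxl : x ≠ l)
    (hyk : y ≠ k) (hyl : y ≠ l) (hkl : k ≠ l) (h : ∀ j, b' x j = b x j ∧ b' y j = b y j)
    (w : Fin g → ℂ) :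
    mu b' {x, y, k, l} w - mu b {x, y, k, l} w = (b' k l - b k l) * (w x * w y + b x y) := by
  rw [mu_four b hb hxy hxk hxl hyk hyl hkl, mu_four b' hb' hxy hxk hxl hyk hyl hkl, (h y).1,
    (h k).1, (h l).1, (h k).2, (h l).2]
  ring

/-- the pair with the largest difference of the entries -/
private theorem Uh_pair (C C' : Sq g m) (h : ∀ᶠ n in (C.U : Filter ℕ), C'.τ n ≠ C.τ n) :
    ∃ p : Fin g × Fin g, ∀ᶠ n in (C.U : Filter ℕ),
      (∀ i j, ‖C'.τ n i j - C.τ n i j‖ ≤ ‖C'.τ n p.1 p.2 - C.τ n p.1 p.2‖) ∧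
        0 < ‖C'.τ n p.1 p.2 - C.τ n p.1 p.2‖ := by
  rw [← Ultrafilter.eventually_exists_iff]
  filter_upwards [h] with n hn
  have h1 : ∃ i j, C'.τ n i j ≠ C.τ n i j := by
    by_contra h2
    push Not at h2
    exact hn (Matrix.ext h2)
  obtain ⟨i, j, hij⟩ := h1
  obtain ⟨p, -, hp⟩ := Finset.exists_max_image (Finset.univ : Finset (Fin g × Fin g))
    (fun p => ‖C'.τ n p.1 p.2 - C.τ n p.1 p.2‖) ⟨(i, j), Finset.mem_univ _⟩
  refine ⟨p, fun i j => hp (i, j) (Finset.mem_univ _), ?_⟩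
  exact (norm_pos_iff.2 (sub_ne_zero.2 hij)).trans_le (hp (i, j) (Finset.mem_univ _))

/-- the final contradiction for four given indices -/
private theorem Uh_main (C C' : Sq g m) (hU : C'.U = C.U) (hr : C'.r = C.r) (hb : C'.b = C.b)
    (hd : ∀ n i, C'.τ n i i = C.τ n i i) {x y k l : Fin g} (hxy : x ≠ y) (hxk : x ≠ k)
    (hxl : x ≠ l) (hyk : y ≠ k) (hyl : y ≠ l) (hkl : k ≠ l)
    (hrow : ∀ n j, C'.τ n x j = C.τ n x j ∧ C'.τ n y j = C.τ n y j)
    (hp : ∀ᶠ n in (C.U : Filter ℕ),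
      (∀ i j, ‖C'.τ n i j - C.τ n i j‖ ≤ ‖C'.τ n k l - C.τ n k l‖) ∧
        0 < ‖C'.τ n k l - C.τ n k l‖) {v : Fin g → ℂ}
    (hS : ({x, y, k, l} : Finset (Fin g)).card = 4) (hN : Nd C.b {x, y, k, l} v)
    (hne : Hs C.b {x, y, k, l} v k l ≠ 0) {q q' : ℕ → Fin g → ℂ}
    (q1 : ∀ᶠ n in (C.U : Filter ℕ), sc (C.r n) {x, y, k, l} (q n) ∈ singF (C.τ n))
    (q2 : ∀ᶠ n in (C.U : Filter ℕ), ∀ j, j ∉ ({x, y, k, l} : Finset (Fin g)) → q n j = 1 / 2)
    (q3 : ∀ i ∈ ({x, y, k, l} : Finset (Fin g)),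
      Tendsto (fun n => q n i) (C.U : Filter ℕ) (𝓝 (v i)))
    (p1 : ∀ᶠ n in (C.U : Filter ℕ), sc (C.r n) {x, y, k, l} (q' n) ∈ singF (C'.τ n))
    (p2 : ∀ᶠ n in (C.U : Filter ℕ), ∀ j, j ∉ ({x, y, k, l} : Finset (Fin g)) → q' n j = 1 / 2)
    (p3 : ∀ i ∈ ({x, y, k, l} : Finset (Fin g)),
      Tendsto (fun n => q' n i) (C.U : Filter ℕ) (𝓝 (v i))) : False := by
  have hpi := Real.pi_pos
  have hHs : Hs C.b {x, y, k, l} v k l = v x * v y + C.b x y := by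
    have e : (({x, y, k, l} : Finset (Fin g)).erase k).erase l = {x, y} := by
      ext z
      simp only [Finset.mem_erase, Finset.mem_insert, Finset.mem_singleton]
      constructor
      · rintro ⟨h1, h2, h3⟩
        tauto
      · rintro (h | h)
        · subst h
          exact ⟨hxl, hxk, Or.inl rfl⟩
        · subst h
          exact ⟨hyl, hyk, Or.inr (Or.inl rfl)⟩
    rw [Hs, if_neg hkl, e, mu_two C.b C.sym hxy]
  set S : Finset (Fin g) := {x, y, k, l} with hSdef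
  have hxS : x ∈ S := by rw [hSdef]; simp
  have hyS : y ∈ S := by rw [hSdef]; simp
  set h : ℝ := ‖v x * v y + C.b x y‖ with hh
  have hpos : 0 < h := by
    rw [hHs] at hne
    exact norm_pos_iff.2 hne
  -- constants
  set ρ : ℝ := (∑ i, ‖v i‖) + 1 with hρ
  have hρ0 : 0 ≤ ρ := by positivity
  have hρi : ∀ i, ‖v i‖ < ρ := fun i =>
    (Finset.single_le_sum (f := fun j => ‖v j‖) (fun j _ => norm_nonneg _)
      (Finset.mem_univ i)).trans_lt (lt_add_one _)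
  obtain ⟨K1, hK1, R1, hR1, c1⟩ := C.diff_psi S hρ0
  obtain ⟨K, hK, δ₁, hδ₁, R2, hR2, c2⟩ := C.nondeg hS hN
  have hκ : 0 < h / (8 * Real.pi) := by positivity
  obtain ⟨R3, hR3, c3⟩ := C.diff_est S hρ0 hκ
  obtain ⟨ρ0, hρ00, c4⟩ := C.half_mem
  -- the difference tends to zero
  have t1 : Tendsto (fun n => ‖C'.τ n k l - C.τ n k l‖ / C.r n ^ 2) (C.U : Filter ℕ) (𝓝 0) := by
    have o1 := C.off k l hkl
    have o2 := C'.off k l hkl
    rw [hU, hr, hb] at o2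
    have o3 := ((o2.sub o1).norm).const_mul (2 * Real.pi)
    rw [sub_self, norm_zero, mul_zero] at o3
    refine o3.congr fun n => ?_
    have hrn : (0 : ℝ) < C.r n := C.rpos n
    rw [← sub_div, norm_div, norm_mul, norm_mul, norm_mul, norm_pow, Complex.norm_I,
      Complex.norm_real, Complex.norm_real, Complex.norm_ofNat, Real.norm_eq_abs,
      Real.norm_eq_abs, abs_of_pos hpi, abs_of_pos hrn]
    field_simp
  have hlim : Tendsto (fun n => q' n x * q' n y + C.τ n x y / (2 * Real.pi * I * (C.r n : ℂ) ^ 2))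
      (C.U : Filter ℕ) (𝓝 (v x * v y + C.b x y)) :=
    ((p3 x hxS).mul (p3 y hyS)).add (C.off x y hxy)
  have e1 : ∀ᶠ n in (C.U : Filter ℕ), h / 2 <
      ‖q' n x * q' n y + C.τ n x y / (2 * Real.pi * I * (C.r n : ℂ) ^ 2)‖ :=
    hlim.norm.eventually (lt_mem_nhds (half_lt_self hpos))
  have e2 : ∀ᶠ n in (C.U : Filter ℕ), ‖C'.τ n k l - C.τ n k l‖ / C.r n ^ 2 < 1 / 2 :=
    t1.eventually (gt_mem_nhds (by norm_num))
  have e3 : ∀ᶠ n in (C.U : Filter ℕ), K * K1 ^ 2 * (‖C'.τ n k l - C.τ n k l‖ / C.r n ^ 2) <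
      h / (8 * Real.pi) := by
    have := t1.const_mul (K * K1 ^ 2)
    rw [mul_zero] at this
    exact this.eventually (gt_mem_nhds hκ)
  have e4 : ∀ᶠ n in (C.U : Filter ℕ), ∀ i ∈ S, ‖q' n i‖ ≤ ρ := by
    rw [Finset.eventually_all]
    intro i hi
    exact ((p3 i hi).norm.eventually (gt_mem_nhds (hρi i))).mono fun n hn => le_of_lt hn
  have e5 : ∀ᶠ n in (C.U : Filter ℕ), ∀ i ∈ S, ‖q n i - v i‖ < δ₁ ∧ ‖q' n i - v i‖ < δ₁ := by
    rw [Finset.eventually_all]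
    intro i hi
    have a1 := tendsto_iff_norm_sub_tendsto_zero.1 (q3 i hi)
    have a2 := tendsto_iff_norm_sub_tendsto_zero.1 (p3 i hi)
    exact (a1.eventually (gt_mem_nhds hδ₁)).and (a2.eventually (gt_mem_nhds hδ₁))
  obtain ⟨n, hn⟩ := (hp.and (q1.and (q2.and (p1.and (p2.and (c1.and (c2.and (c3.and
    ((c4 (max R1 (max R2 R3))).and (e1.and (e2.and (e3.and (e4.and e5))))))))))))).exists
  obtain ⟨⟨hmax, hpos1⟩, q1, q2, p1, p2, c1, c2, c3, c4, e1, e2, e3, e4, e5⟩ := hn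
  have hrn : (0 : ℝ) < C.r n := C.rpos n
  set δ : ℝ := ‖C'.τ n k l - C.τ n k l‖ / C.r n ^ 2 with hδ
  have hδ0 : 0 < δ := div_pos hpos1 (pow_pos hrn 2)
  have hδr : δ * C.r n ^ 2 = ‖C'.τ n k l - C.τ n k l‖ := by
    rw [hδ]
    field_simp
  have hoff : ∀ i j, i ≠ j → ‖C'.τ n i j - C.τ n i j‖ ≤ δ * C.r n ^ 2 := fun i j _ => by
    rw [hδr]
    exact hmax i j
  have hhalf : ‖(1 / 2 : ℂ) - 1 / 2‖ ≤ ρ0 := by
    rw [sub_self, norm_zero]
    exact hρ00.le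
  have hout : ∀ j, j ∉ S → q' n j ∈ Go (C.τ n j j) ∧ max R1 (max R2 R3) * C.r n < ‖q' n j‖ := by
    intro j hj
    rw [p2 j hj]
    exact c4 j (1 / 2) hhalf
  have hR : ∀ {R : ℝ}, R ≤ max R1 (max R2 R3) → ∀ j, j ∉ S →
      q' n j ∈ Gs (C.τ n j j) ∧ R * C.r n ≤ ‖q' n j‖ := by
    intro R hR j hj
    refine ⟨Uh_Go (hout j hj).1, ?_⟩
    exact (mul_le_mul_of_nonneg_right hR hrn.le).trans (hout j hj).2.le
  have hT : AM.Siegel (C'.τ n) := C'.siegel n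
  -- (1)
  have s1 : ∀ i ∈ S, ‖(C.r n : ℂ) * pf (C.τ n) i (sc (C.r n) S (q' n)) /
      nrm (C.τ n) (C.r n) S (q' n)‖ ≤ K1 * δ := by
    intro i hi
    have a := c1 (C'.τ n) hT (hd n) δ hδ0 e2.le hoff (q' n) e4 (hR (le_max_left _ _)) i hi
    rw [p1.2 i, zero_sub, mul_neg, neg_div, norm_neg] at a
    exact a
  -- (2)
  have s2 := c2 (q n) (q' n) (fun j hj => by rw [p2 j hj, q2 j hj])
    (fun j hj => by
      have a := c4 j (1 / 2) hhalf
      rw [q2 j hj]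
      exact ⟨a.1, (mul_le_mul_of_nonneg_right ((le_max_left R2 R3).trans (le_max_right _ _))
        hrn.le).trans_lt a.2⟩) e5 q1 (K1 * δ) (by positivity) s1
  -- (3)
  have s3 := c3 (C'.τ n) (Uh_sym hT) (hd n) δ hδ0 e2.le hoff (q' n) e4
    (hR ((le_max_right R2 R3).trans (le_max_right _ _)))
  rw [p1.1, zero_sub, neg_div] at s3
  have s4 := Uh_mu (b := fun i j => C.τ n i j / (2 * Real.pi * I * (C.r n : ℂ) ^ 2))
    (b' := fun i j => C'.τ n i j / (2 * Real.pi * I * (C.r n : ℂ) ^ 2))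
    (fun i j => by rw [Uh_sym (C.siegel n) i j]) (fun i j => by rw [Uh_sym hT i j])
    hxy hxk hxl hyk hyl hkl (fun j => by rw [(hrow n j).1, (hrow n j).2]; exact ⟨rfl, rfl⟩)
    (q' n)
  rw [← hSdef] at s4
  rw [s4] at s3
  have s5 : ‖(C'.τ n k l / (2 * Real.pi * I * (C.r n : ℂ) ^ 2) -
      C.τ n k l / (2 * Real.pi * I * (C.r n : ℂ) ^ 2))‖ = δ / (2 * Real.pi) := by
    rw [← sub_div, norm_div, norm_mul, norm_mul, norm_mul, norm_pow, Complex.norm_I,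
      Complex.norm_real, Complex.norm_real, Complex.norm_ofNat, Real.norm_eq_abs,
      Real.norm_eq_abs, abs_of_pos hpi, abs_of_pos hrn, hδ]
    field_simp
  have s6 : δ / (2 * Real.pi) * (h / 2) ≤ h / (8 * Real.pi) * δ + K * (K1 * δ) ^ 2 := by
    have a1 := norm_add_le (-(-(ff (C.τ n) (sc (C.r n) S (q' n)) /
      nrm (C.τ n) (C.r n) S (q' n)) - (C'.τ n k l / (2 * Real.pi * I * (C.r n : ℂ) ^ 2) -
      C.τ n k l / (2 * Real.pi * I * (C.r n : ℂ) ^ 2)) * (q' n x * q' n y +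
      C.τ n x y / (2 * Real.pi * I * (C.r n : ℂ) ^ 2))))
      (-(ff (C.τ n) (sc (C.r n) S (q' n)) / nrm (C.τ n) (C.r n) S (q' n)))
    rw [norm_neg, norm_neg] at a1
    have a2 : (-(-(ff (C.τ n) (sc (C.r n) S (q' n)) /
      nrm (C.τ n) (C.r n) S (q' n)) - (C'.τ n k l / (2 * Real.pi * I * (C.r n : ℂ) ^ 2) -
      C.τ n k l / (2 * Real.pi * I * (C.r n : ℂ) ^ 2)) * (q' n x * q' n y +
      C.τ n x y / (2 * Real.pi * I * (C.r n : ℂ) ^ 2)))) +
      (-(ff (C.τ n) (sc (C.r n) S (q' n)) / nrm (C.τ n) (C.r n) S (q' n))) =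
      (C'.τ n k l / (2 * Real.pi * I * (C.r n : ℂ) ^ 2) -
      C.τ n k l / (2 * Real.pi * I * (C.r n : ℂ) ^ 2)) * (q' n x * q' n y +
      C.τ n x y / (2 * Real.pi * I * (C.r n : ℂ) ^ 2)) := by ring
    rw [a2, norm_mul, s5] at a1
    have a3 : δ / (2 * Real.pi) * (h / 2) ≤ δ / (2 * Real.pi) * ‖q' n x * q' n y +
        C.τ n x y / (2 * Real.pi * I * (C.r n : ℂ) ^ 2)‖ :=
      mul_le_mul_of_nonneg_left e1.le (by positivity)
    exact a3.trans (a1.trans (add_le_add s3 s2))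
  have s7 : K * (K1 * δ) ^ 2 < h / (8 * Real.pi) * δ := by
    have a1 : K * (K1 * δ) ^ 2 = K * K1 ^ 2 * δ * δ := by ring
    rw [a1]
    exact mul_lt_mul_of_pos_right e3 hδ0
  have s8 : δ / (2 * Real.pi) * (h / 2) = 2 * (h / (8 * Real.pi) * δ) := by
    field_simp
    ring
  linarith

theorem Sq.unique (C C' : Sq g m) (hm : m + 4 = g) (hE : NoEq C.b) (hU : C'.U = C.U)
    (hr : C'.r = C.r) (hb : C'.b = C.b) (hd : ∀ n i, C'.τ n i i = C.τ n i i) {a b : Fin g}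
    (hab : a ≠ b) (hrow : ∀ n j, C'.τ n a j = C.τ n a j ∧ C'.τ n b j = C.τ n b j)
    (hv : ∀ S : Finset (Fin g), S.card = 4 → ∃ v : Fin g → ℂ, C.Near S v ∧ ∃ i ∈ S, v i ≠ 0)
    (hv' : ∀ S : Finset (Fin g), S.card = 4 →
      ∃ v : Fin g → ℂ, C'.Near S v ∧ ∃ i ∈ S, v i ≠ 0) :
    ∀ᶠ n in (C.U : Filter ℕ), C'.τ n = C.τ n := by
  by_contra hcon
  rw [← Ultrafilter.eventually_not] at hcon
  obtain ⟨⟨k, l⟩, hp⟩ := Uh_pair C C' hcon
  obtain ⟨n, -, hn⟩ := hp.exists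
  have hn0 : C'.τ n k l ≠ C.τ n k l := sub_ne_zero.1 (norm_pos_iff.1 hn)
  have hkl : k ≠ l := by
    rintro rfl
    exact hn0 (hd n k)
  have hak : a ≠ k := by
    rintro rfl
    exact hn0 (hrow n l).1
  have hbk : b ≠ k := by
    rintro rfl
    exact hn0 (hrow n l).2
  have hal : a ≠ l := by
    rintro rfl
    apply hn0
    rw [Uh_sym (C'.siegel n), Uh_sym (C.siegel n)]
    exact (hrow n k).1
  have hbl : b ≠ l := by
    rintro rfl
    apply hn0
    rw [Uh_sym (C'.siegel n), Uh_sym (C.siegel n)]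
    exact (hrow n k).2
  have hS : ({a, b, k, l} : Finset (Fin g)).card = 4 := by
    rw [Finset.card_insert_of_notMem, Finset.card_insert_of_notMem,
      Finset.card_insert_of_notMem, Finset.card_singleton]
    · simpa using hkl
    · simp only [Finset.mem_insert, Finset.mem_singleton, not_or]
      exact ⟨hbk, hbl⟩
    · simp only [Finset.mem_insert, Finset.mem_singleton, not_or]
      exact ⟨hab, hak, hal⟩
  obtain ⟨v, w1, w2⟩ := hv _ hS
  obtain ⟨v', w1', w2'⟩ := hv' _ hS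
  have hs := w1.sing
  have hs' := w1'.sing
  have hs2 := hs'
  rw [hb] at hs2
  have hE' : NoEq C'.b := by
    rw [hb]
    exact hE
  have hN := sing_nd C.sym C.ne0 hE hS hs
  have hF := w1.full hm hS hN
  have hF' := w1'.full hm hS (sing_nd C'.sym C'.ne0 hE' hS hs')
  have hu := sing_unique C.sym C.ne0 hS hs w2 hs2 w2'
  obtain ⟨q, q1, q2, q3⟩ := hF.pts (v' := v) (Or.inl fun _ _ => rfl)
  obtain ⟨q', p1, p2, p3⟩ := hF'.pts (v' := v) (by
    rcases hu with hu | hu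
    · exact Or.inl fun i hi => (hu i hi).symm
    · exact Or.inr fun i hi => by rw [hu i hi, neg_neg])
  rw [hU] at p1 p2
  rw [hr] at p1
  have p3' : ∀ i ∈ ({a, b, k, l} : Finset (Fin g)),
      Tendsto (fun n => q' n i) (C.U : Filter ℕ) (𝓝 (v i)) := fun i hi => by
    have := p3 i hi
    rwa [hU] at this
  exact Uh_main C C' hU hr hb hd hab hak hal hbk hbl hkl hrow hp hS hN
    (hs_ne C.sym C.ne0 hS hs w2 (by simp) (by simp) hkl) q1 q2 q3 p1 p2 p3'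

end AMP
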