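import Pool.Agent.Lib.MP_b57e3c_ag_P.Mn
import Pool.Agent.Lib.MP_b57e3c_ag_P.Uh

set_option autoImplicit false

/-!
# Module Ui : main theorem with local uniqueness (assembly)
-/

open Complex Filter Topology

namespace AMP

open AMC

variable {g m : ℕ}

/-- exceptional cases: the theta constants of a 4-set vanish, or a quadruple is nearly
equianharmonic -/
def Exc {g : ℕ} (η : ℝ) (β : Fin g → Fin g → ℂ) (τ : Matrix (Fin g) (Fin g) ℂ) : Prop :=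
  (∃ S : Finset (Fin g), S.card = 4 ∧ NullAt τ S) ∨
  ∃ i j k l : Fin g, i ≠ j ∧ i ≠ k ∧ i ≠ l ∧ j ≠ k ∧ j ≠ l ∧ k ≠ l ∧
    ‖β i j * β k l + β i k * β j l + β i l * β j k‖ < η ∧
    ‖(β i j * β k l) * (β i k * β j l) + (β i k * β j l) * (β i l * β j k) +
      (β i l * β j k) * (β i j * β k l)‖ < η

theorem Sq.good (C : Sq g m) (hm : m + 4 = g) {β0 : Fin g → Fin g → ℂ} {ph : ℂ} (hph : ph ≠ 0)
    (hb : ∀ i j, i ≠ j → C.b i j = ph * β0 i j) {β : ℕ → Fin g → Fin g → ℂ}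
    (hβ : ∀ i j, i ≠ j → Tendsto (fun n => β n i j) (C.U : Filter ℕ) (𝓝 (β0 i j))) {η : ℝ}
    (hη : 0 < η) (h : ∀ᶠ n in (C.U : Filter ℕ), ¬ Exc η (β n) (C.τ n)) :
    NoEq C.b ∧ ∀ S : Finset (Fin g), S.card = 4 → ∃ v : Fin g → ℂ, C.Near S v ∧
      ∃ i ∈ S, v i ≠ 0 := by
  have hE : NoEq C.b := by
    intro i j k l hij hik hil hjk hjl hkl hEq
    obtain ⟨h1, h2⟩ := hEq
    rw [hb i j hij, hb k l hkl, hb i k hik, hb j l hjl, hb i l hil, hb j k hjk] at h1 h2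
    have e1 : β0 i j * β0 k l + β0 i k * β0 j l + β0 i l * β0 j k = 0 := by
      have : ph ^ 2 * (β0 i j * β0 k l + β0 i k * β0 j l + β0 i l * β0 j k) = 0 := by
        linear_combination h1
      exact (mul_eq_zero.1 this).resolve_left (pow_ne_zero 2 hph)
    have e2 : (β0 i j * β0 k l) * (β0 i k * β0 j l) + (β0 i k * β0 j l) * (β0 i l * β0 j k) +
        (β0 i l * β0 j k) * (β0 i j * β0 k l) = 0 := by
      have : ph ^ 4 * ((β0 i j * β0 k l) * (β0 i k * β0 j l) +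
          (β0 i k * β0 j l) * (β0 i l * β0 j k) +
          (β0 i l * β0 j k) * (β0 i j * β0 k l)) = 0 := by
        linear_combination h2
      exact (mul_eq_zero.1 this).resolve_left (pow_ne_zero 4 hph)
    have t1 : Tendsto (fun n => β n i j * β n k l + β n i k * β n j l + β n i l * β n j k)
        (C.U : Filter ℕ) (𝓝 0) := by
      rw [← e1]
      exact (((hβ i j hij).mul (hβ k l hkl)).add ((hβ i k hik).mul (hβ j l hjl))).add
        ((hβ i l hil).mul (hβ j k hjk))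
    have t2 : Tendsto (fun n => (β n i j * β n k l) * (β n i k * β n j l) +
        (β n i k * β n j l) * (β n i l * β n j k) +
        (β n i l * β n j k) * (β n i j * β n k l)) (C.U : Filter ℕ) (𝓝 0) := by
      rw [← e2]
      exact ((((hβ i j hij).mul (hβ k l hkl)).mul ((hβ i k hik).mul (hβ j l hjl))).add
        (((hβ i k hik).mul (hβ j l hjl)).mul ((hβ i l hil).mul (hβ j k hjk)))).add
        (((hβ i l hil).mul (hβ j k hjk)).mul ((hβ i j hij).mul (hβ k l hkl)))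
    have t1' := t1.norm
    have t2' := t2.norm
    rw [norm_zero] at t1' t2'
    obtain ⟨n, hn, a1, a2⟩ := (h.and ((t1'.eventually (gt_mem_nhds hη)).and
      (t2'.eventually (gt_mem_nhds hη)))).exists
    exact hn (Or.inr ⟨i, j, k, l, hij, hik, hil, hjk, hjl, hkl, a1, a2⟩)
  refine ⟨hE, fun S hS => ?_⟩
  obtain ⟨v, hN⟩ := C.near_all hm hE S hS
  refine ⟨v, hN, ?_⟩
  by_contra hcon
  push Not at hcon
  obtain ⟨n, hn, hn'⟩ := (h.and (C.null hm hS hN hcon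
    (sing_nd C.sym C.ne0 hE hS hN.sing))).exists
  exact hn (Or.inl ⟨S, hS, hn'⟩)

/-- a second sequence with the same limits -/
theorem Sq.copy (C : Sq g m) {T : ℕ → Matrix (Fin g) (Fin g) ℂ} (hsi : ∀ n, AM.Siegel (T n))
    (hd : ∀ n i, T n i i = C.τ n i i)
    (ho : ∀ i j, i ≠ j → Tendsto (fun n => T n i j / (2 * Real.pi * I * (C.r n : ℂ) ^ 2)) C.U
      (𝓝 (C.b i j))) (hD : ∀ n, AM.DimGE m (AM.singTheta (T n))) :
    ∃ C' : Sq g m, C'.U = C.U ∧ C'.r = C.r ∧ C'.b = C.b ∧ C'.τ = T := by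
  choose M hMc hMne hMmp hMs hM1 hM2 using fun n => exists_M (hsi n) (hD n)
  exact ⟨{
    U := C.U
    τ := T
    r := C.r
    M := M
    σ := C.σ
    b := C.b
    siegel := hsi
    rpos := C.rpos
    rlim := C.rlim
    spos := C.spos
    diag := fun i => (C.diag i).congr fun n => (hd n i).symm
    off := ho
    sym := C.sym
    ne0 := C.ne0
    closed := hMc
    mp := hMmp
    sub := hMs
    ne := hMne
    inv1 := hM1
    inv2 := hM2 }, rfl, rfl, rfl, rfl⟩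

theorem Sq.le_atTop (C : Sq g m) : (C.U : Filter ℕ) ≤ atTop := by
  have h : Tendsto (fun n : ℕ => n) (C.U : Filter ℕ) atTop := by
    refine tendsto_atTop.2 fun N => ?_
    have h1 : ∀ k, k < N → ∀ᶠ n in (C.U : Filter ℕ), C.r n < C.r k := fun k _ =>
      C.rlim.eventually (gt_mem_nhds (C.rpos k))
    have h2 : ∀ᶠ n in (C.U : Filter ℕ), ∀ k ∈ Finset.range N, C.r n < C.r k :=
      (Filter.eventually_all_finset _).2 fun k hk => h1 k (Finset.mem_range.1 hk)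
    filter_upwards [h2] with n hn
    by_contra hlt
    exact lt_irrefl _ (hn n (Finset.mem_range.2 (not_le.1 hlt)))
  exact h

variable {Sg : Set (Fin g → ℂ)} {K : Set (Fin g → Fin g → ℂ)}

/-- local uniqueness outside of the exceptional cases -/
theorem uniq (hg : 4 ≤ g) (hS : IsCompact Sg) (hp : ∀ s ∈ Sg, ∀ i, 0 < (s i).im)
    (hK : IsCompact K) (hsym : ∀ β ∈ K, ∀ i j, β i j = β j i)
    (hne : ∀ β ∈ K, ∀ i j, i ≠ j → β i j ≠ 0) {η : ℝ} (hη : 0 < η) {a b : Fin g}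
    (hab : a ≠ b) :
    ∃ ε > 0, ∀ s ∈ Sg, ∀ β ∈ K, ∀ β' ∈ K, ∀ t : ℂ, t ≠ 0 → ‖t‖ < ε →
      ∀ τ τ' : Matrix (Fin g) (Fin g) ℂ, (∀ i, τ i i = s i) → (∀ i, τ' i i = s i) →
        (∀ i j, i ≠ j → τ i j = t * β i j) → (∀ i j, i ≠ j → τ' i j = t * β' i j) →
        AM.DimGE (g - 4) (AM.singTheta τ) → AM.DimGE (g - 4) (AM.singTheta τ') →
        ¬ Exc η β τ → ¬ Exc η β' τ' → (∀ j, τ' a j = τ a j ∧ τ' b j = τ b j) →
        (∀ i j, i ≠ j → ‖β' i j - β i j‖ < ε) → τ' = τ := by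
  obtain ⟨ε0, hε0, hsie⟩ := siegel_small hS hp hK hsym
  by_contra hcon
  have h' : ∀ n : ℕ, ∃ (s : Fin g → ℂ) (β β' : Fin g → Fin g → ℂ) (t : ℂ)
      (τ τ' : Matrix (Fin g) (Fin g) ℂ), s ∈ Sg ∧ β ∈ K ∧ β' ∈ K ∧ t ≠ 0 ∧
      ‖t‖ < min ε0 (1 / ((n : ℝ) + 1)) ∧ (∀ i, τ i i = s i) ∧ (∀ i, τ' i i = s i) ∧
      (∀ i j, i ≠ j → τ i j = t * β i j) ∧ (∀ i j, i ≠ j → τ' i j = t * β' i j) ∧
      AM.DimGE (g - 4) (AM.singTheta τ) ∧ AM.DimGE (g - 4) (AM.singTheta τ') ∧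
      ¬ Exc η β τ ∧ ¬ Exc η β' τ' ∧ (∀ j, τ' a j = τ a j ∧ τ' b j = τ b j) ∧
      (∀ i j, i ≠ j → ‖β' i j - β i j‖ < 1 / ((n : ℝ) + 1)) ∧ τ' ≠ τ := by
    intro n
    by_contra hc
    refine hcon ⟨min ε0 (1 / ((n : ℝ) + 1)), by positivity, ?_⟩
    intro s hs β hβ β' hβ' t ht0 ht τ τ' h1 h2 h3 h4 h5 h6 h7 h8 h9 h10
    by_contra hne'
    exact hc ⟨s, β, β', t, τ, τ', hs, hβ, hβ', ht0, ht, h1, h2, h3, h4, h5, h6, h7, h8, h9,
      fun i j hij => (h10 i j hij).trans_le (min_le_right _ _), hne'⟩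
  choose s β β' t τ τ' h1 h2 h3 h4 h5 h6 h7 h8 h9 h10 h11 h12 h13 h14 h15 h16 using h'
  have ht : Tendsto t atTop (𝓝 0) :=
    tendsto_of_lt fun n => (h5 n).trans_le (min_le_right _ _)
  have hsi : ∀ n, AM.Siegel (τ n) := fun n =>
    hsie (s n) (h1 n) (β n) (h2 n) (t n) ((h5 n).trans_le (min_le_left _ _)) (τ n) (h6 n) (h8 n)
  have hsi' : ∀ n, AM.Siegel (τ' n) := fun n =>
    hsie (s n) (h1 n) (β' n) (h3 n) (t n) ((h5 n).trans_le (min_le_left _ _)) (τ' n) (h7 n)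
      (h9 n)
  obtain ⟨C, β0, ph, hτ, hβ0, hph, hb, hlim⟩ := exists_sq (m := g - 4) hS hp hK hsym hne
    s β t τ h1 h2 h4 ht h6 h8 hsi h10
  have hd0 : ∀ i j, i ≠ j → Tendsto (fun n => β' n i j - β n i j) (C.U : Filter ℕ) (𝓝 0) := by
    intro i j hij
    exact (squeeze_zero_norm (fun n => (h15 n i j hij).le)
      tendsto_one_div_add_atTop_nhds_zero_nat).mono_left C.le_atTop
  have hlim' : ∀ i j, i ≠ j → Tendsto (fun n => β' n i j) (C.U : Filter ℕ) (𝓝 (β0 i j)) := by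
    intro i j hij
    have := (hlim i j).add (hd0 i j hij)
    rw [add_zero] at this
    refine this.congr fun n => ?_
    ring
  have ho : ∀ i j, i ≠ j → Tendsto
      (fun n => τ' n i j / (2 * Real.pi * I * (C.r n : ℂ) ^ 2)) C.U (𝓝 (C.b i j)) := by
    intro i j hij
    have hq := (C.off i j hij).mul ((hlim' i j hij).div (hlim i j) (hne β0 hβ0 i j hij))
    rw [div_self (hne β0 hβ0 i j hij), mul_one] at hq
    refine hq.congr fun n => ?_
    rw [hτ, h8 n i j hij, h9 n i j hij, Pi.div_apply]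
    have hb0 := hne (β n) (h2 n) i j hij
    field_simp
  obtain ⟨C', hU', hr', hb', hτ'⟩ := C.copy hsi' (fun n i => by rw [hτ, h6, h7]) ho h11
  have hgm : g - 4 + 4 = g := Nat.sub_add_cancel hg
  have hg1 := C.good hgm hph hb (fun i j _ => hlim i j) hη (Eventually.of_forall fun n => by
    rw [hτ]
    exact h12 n)
  have hg2 := C'.good hgm hph (by rw [hb']; exact hb) (β := β') (by rw [hU']; exact hlim') hη
    (Eventually.of_forall fun n => by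
      rw [hτ']
      exact h13 n)
  have hfin := C.unique C' hgm hg1.1 hU' hr' hb' (fun n i => by rw [hτ, hτ', h6, h7])
    hab (fun n j => by rw [hτ, hτ']; exact h14 n j) hg1.2 hg2.2
  obtain ⟨n, hn⟩ := hfin.exists
  rw [hτ, hτ'] at hn
  exact h16 n hn

/-- all statements together -/
theorem main2 (hg : 4 ≤ g) (hS : IsCompact Sg) (hp : ∀ s ∈ Sg, ∀ i, 0 < (s i).im)
    (hK : IsCompact K) (hsym : ∀ β ∈ K, ∀ i j, β i j = β j i)
    (hne : ∀ β ∈ K, ∀ i j, i ≠ j → β i j ≠ 0) {η : ℝ} (hη : 0 < η) :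
    ∃ ε > 0, ∀ s ∈ Sg, ∀ β ∈ K, ∀ t : ℂ, t ≠ 0 → ‖t‖ < ε →
      ∀ τ : Matrix (Fin g) (Fin g) ℂ, (∀ i, τ i i = s i) →
        (∀ i j, i ≠ j → τ i j = t * β i j) →
        AM.Siegel τ ∧ ¬ AM.DimGE (g - 3) (AM.singTheta τ) ∧
        (AM.DimGE (g - 4) (AM.singTheta τ) → ¬ Exc η β τ →
          (∃ w : Fin g → ℂ × ℂ, ∀ i j, i ≠ j → ‖β i j * dt (w i) (w j) ^ 2 - 1‖ < η) ∧
          (g - 2) * (g - 3) / 2 ≤
            Module.finrank ℂ (Submodule.span ℂ (hes τ '' AM.singTheta τ)) ∧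
          ∀ a b : Fin g, a ≠ b → ∀ β' ∈ K, ∀ τ' : Matrix (Fin g) (Fin g) ℂ,
            (∀ i, τ' i i = s i) → (∀ i j, i ≠ j → τ' i j = t * β' i j) →
            (∀ i j, i ≠ j → ‖β' i j - β i j‖ < ε) → (∀ j, τ' a j = τ a j ∧ τ' b j = τ b j) →
            AM.DimGE (g - 4) (AM.singTheta τ') → ¬ Exc η β' τ' → τ' = τ) := by
  obtain ⟨ε1, hε1, h1⟩ := main hg hS hp hK hsym hne hη
  have h2 : ∀ a b : Fin g, ∃ ε > 0, a ≠ b → ∀ s ∈ Sg, ∀ β ∈ K, ∀ β' ∈ K, ∀ t : ℂ, t ≠ 0 →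
      ‖t‖ < ε → ∀ τ τ' : Matrix (Fin g) (Fin g) ℂ, (∀ i, τ i i = s i) → (∀ i, τ' i i = s i) →
        (∀ i j, i ≠ j → τ i j = t * β i j) → (∀ i j, i ≠ j → τ' i j = t * β' i j) →
        AM.DimGE (g - 4) (AM.singTheta τ) → AM.DimGE (g - 4) (AM.singTheta τ') →
        ¬ Exc η β τ → ¬ Exc η β' τ' → (∀ j, τ' a j = τ a j ∧ τ' b j = τ b j) →
        (∀ i j, i ≠ j → ‖β' i j - β i j‖ < ε) → τ' = τ := by
    intro a b
    by_cases hab : a = b
    · exact ⟨1, one_pos, fun h => absurd hab h⟩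
    · obtain ⟨ε, hε, h⟩ := uniq hg hS hp hK hsym hne hη hab
      exact ⟨ε, hε, fun _ => h⟩
  choose e he h2 using h2
  obtain ⟨ε2, hε2, hε2'⟩ : ∃ ε2 > 0, ∀ a b, ε2 ≤ e a b := by
    have h3 : ∀ᶠ x in 𝓝[>] (0 : ℝ), (∀ a b, x ≤ e a b) ∧ 0 < x := by
      refine (eventually_all.2 fun a => eventually_all.2 fun b => ?_).and self_mem_nhdsWithin
      filter_upwards [Ioc_mem_nhdsGT (he a b)] with x hx
      exact hx.2
    obtain ⟨x, hx, hx0⟩ := h3.exists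
    exact ⟨x, hx0, hx⟩
  refine ⟨min ε1 ε2, lt_min hε1 hε2, fun s hs β hβ t ht0 ht τ hd ho => ?_⟩
  obtain ⟨a1, a2, a3⟩ := h1 s hs β hβ t ht0 (ht.trans_le (min_le_left _ _)) τ hd ho
  refine ⟨a1, a2, fun hD hE => ?_⟩
  have hB : (∃ w : Fin g → ℂ × ℂ, ∀ i j, i ≠ j → ‖β i j * dt (w i) (w j) ^ 2 - 1‖ < η) ∧
      (g - 2) * (g - 3) / 2 ≤
        Module.finrank ℂ (Submodule.span ℂ (hes τ '' AM.singTheta τ)) := by
    rcases a3 hD with h | h | h
    · exact absurd (Or.inl h) hE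
    · exact h
    · exact absurd (Or.inr h) hE
  refine ⟨hB.1, hB.2, fun a b hab β' hβ' τ' hd' ho' hcl hrow hD' hE' => ?_⟩
  exact h2 a b hab s hs β hβ β' hβ' t ht0
    ((ht.trans_le (min_le_right _ _)).trans_le (hε2' a b)) τ τ' hd hd' ho ho' hD hD' hE hE' hrow
    fun i j hij => ((hcl i j hij).trans_le (min_le_right _ _)).trans_le (hε2' a b)

end AMP
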